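import Mathlib

open Finset Complex
open scoped Real

namespace Pool.Agent.Lib.MP_a93a41_nt.Bar

theorem sin_le_norm_exp (w : ℂ) (h : 0 ≤ w.re) : 2 * |Real.sin (w.im / 2)| ≤ ‖exp w - 1‖ := by
  have hr : 1 ≤ Real.exp w.re := Real.one_le_exp h
  have hc := Real.cos_le_one w.im
  have h1 : ‖exp w - 1‖ ^ 2 = Real.exp w.re ^ 2 - 2 * Real.exp w.re * Real.cos w.im + 1 := by
    rw [← Complex.normSq_eq_norm_sq, Complex.normSq_apply]
    simp only [sub_re, sub_im, one_re, one_im, exp_re, exp_im]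
    have := Real.sin_sq_add_cos_sq w.im
    linear_combination (Real.exp w.re) ^ 2 * this
  have h2 : (2 * |Real.sin (w.im / 2)|) ^ 2 = 2 - 2 * Real.cos w.im := by
    rw [mul_pow, sq_abs, Real.sin_sq_eq_half_sub, mul_div_cancel₀ _ (two_ne_zero)]; ring
  refine le_of_pow_le_pow_left₀ two_ne_zero (norm_nonneg _) ?_
  rw [h1, h2]; nlinarith

theorem sum_inv_le (n : ℕ) : ∑ m ∈ Ico 1 n, (1:ℝ) / m ≤ 1 + Real.log n := by
  have h := harmonic_le_one_add_log n
  have e : (harmonic n : ℝ) = ∑ m ∈ Icc 1 n, (1:ℝ) / m := by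
    rw [harmonic_eq_sum_Icc]; push_cast; simp
  rw [e] at h
  refine le_trans (Finset.sum_le_sum_of_subset_of_nonneg Finset.Ico_subset_Icc_self fun _ _ _ => by positivity) h

theorem sin_lower (n m : ℕ) (hm : 1 ≤ m) (hmn : m < n) (b : ℝ) (hb : |b| ≤ π) :
    min (m:ℝ) (n - m) / n ≤ |Real.sin ((b - 2 * π * m) / n / 2)| := by
  have hm0 : (1:ℝ) ≤ m := by exact_mod_cast hm
  have hma : (m:ℝ) + 1 ≤ n := by exact_mod_cast hmn
  have hn : (0:ℝ) < n := by linarith
  have hpi := Real.pi_pos
  obtain ⟨hb1, hb2⟩ := abs_le.1 hb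
  set θ := (2 * π * m - b) / n / 2 with hθ
  have e : (b - 2 * π * m) / n / 2 = -θ := by rw [hθ]; ring
  rw [e, Real.sin_neg, abs_neg]
  refine le_trans ?_ (le_abs_self _)
  have t1 : π / 2 * (m / n) ≤ θ := by
    rw [hθ, mul_div_assoc', div_div, div_le_div_iff₀ hn (by positivity)]; nlinarith [mul_pos hpi hn]
  have t2 : π / 2 * ((n - m) / n) ≤ π - θ := by
    have : π - θ = (2 * π * (n - m) + b) / n / 2 := by rw [hθ]; field_simp; ring
    rw [this, mul_div_assoc', div_div, div_le_div_iff₀ hn (by positivity)]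
    have : π ≤ π * (n - m) := by nlinarith
    nlinarith
  have p1 : 0 ≤ π / 2 * (m / n) := by positivity
  have p2 : 0 ≤ π / 2 * ((n - m) / n) := by
    have : (0:ℝ) ≤ n - m := by linarith
    positivity
  rcases le_total θ (π / 2) with h | h
  · have := Real.mul_le_sin (x := θ) (by linarith) h
    calc _ ≤ (m:ℝ) / n := by gcongr; exact min_le_left _ _
      _ = 2 / π * (π / 2 * (m / n)) := by field_simp
      _ ≤ 2 / π * θ := by gcongr
      _ ≤ _ := this
  · have := Real.mul_le_sin (x := π - θ) (by linarith) (by linarith)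
    rw [Real.sin_pi_sub] at this
    calc _ ≤ ((n:ℝ) - m) / n := by gcongr; exact min_le_right _ _
      _ = 2 / π * (π / 2 * ((n - m) / n)) := by field_simp
      _ ≤ 2 / π * (π - θ) := by gcongr
      _ ≤ _ := this

theorem sum_zmod {M : Type*} [AddCommMonoid M] (n : ℕ) [NeZero n] (f : ℕ → M) :
    ∑ s : ZMod n, f s.val = ∑ k ∈ range n, f k := by
  refine Finset.sum_bij (fun s _ => s.val) (fun s _ => mem_range.2 (ZMod.val_lt s))
    (fun _ _ _ _ h => ZMod.val_injective _ h) (fun k hk => ⟨k, mem_univ _, ZMod.val_cast_of_lt (mem_range.1 hk)⟩)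
    fun _ _ => rfl

theorem psi_val {n : ℕ} [NeZero n] (y : ZMod n) (k : ℕ) :
    ZMod.stdAddChar (y * (k : ZMod n)) = exp (2 * π * I * y.val * k / n) := by
  have : y * (k : ZMod n) = ((y.val * k : ℕ) : ℤ) := by push_cast; simp
  rw [this, ZMod.stdAddChar_coe]; congr 1; push_cast; ring

theorem norm_psi {n : ℕ} [NeZero n] (y : ZMod n) : ‖ZMod.stdAddChar y‖ = 1 := by
  rw [ZMod.stdAddChar_apply]; exact Circle.norm_coe _

theorem sum_psi {n : ℕ} [NeZero n] (y : ZMod n) :
    ∑ s : ZMod n, ZMod.stdAddChar (s * y) = if y = 0 then (n : ℂ) else 0 := by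
  rw [AddChar.sum_mulShift y (ZMod.isPrimitive_stdAddChar n)]; simp

theorem four (n : ℕ) [NeZero n] (K : ℕ) (hK : K ≤ n) (ζ : ℂ) (hre : 0 ≤ ζ.re) (him : |ζ.im| ≤ π)
    (d : ℂ) (E : ℝ) (h1 : ∀ k < n, ‖(if k < K then exp (ζ * k / n) else 0) - d‖ ≤ E)
    (h2 : ∀ y : ZMod n, ‖exp (ζ * K / n) * ZMod.stdAddChar (-y * (K : ZMod n)) - 1‖ ≤ E) :
    ∃ c : ZMod n → ℂ, (∀ s : ZMod n, (if s.val < K then exp (ζ * s.val / n) else 0) - d =
      ∑ y, c y * ZMod.stdAddChar (y * s)) ∧ ∑ y, ‖c y‖ ≤ E * (2 + Real.log n) := by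
  classical
  have hn0 : 0 < n := Nat.pos_of_ne_zero (NeZero.ne n)
  have hn : (0:ℝ) < n := by exact_mod_cast hn0
  have hE : 0 ≤ E := (norm_nonneg _).trans (h2 0)
  let g : ZMod n → ℂ := fun s => (if s.val < K then exp (ζ * s.val / n) else 0) - d
  refine ⟨fun y => (n:ℂ)⁻¹ * ZMod.dft g y, fun s => ?_, ?_⟩
  · have := congrFun (ZMod.dft.symm_apply_apply g) s
    rw [ZMod.invDFT_apply] at this
    change g s = _
    rw [← this, smul_eq_mul, Finset.mul_sum]
    refine Finset.sum_congr rfl fun y _ => ?_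
    rw [smul_eq_mul]; ring
  have c0 : ‖(n:ℂ)⁻¹ * ZMod.dft g 0‖ ≤ E := by
    rw [ZMod.dft_apply_zero, norm_mul, norm_inv, Complex.norm_natCast]
    calc _ ≤ (n:ℝ)⁻¹ * ∑ _s : ZMod n, E := by
          gcongr
          exact (norm_sum_le _ _).trans (Finset.sum_le_sum fun s _ => h1 _ (ZMod.val_lt s))
      _ = E := by simp; field_simp
  have c1 : ∀ y : ZMod n, y ≠ 0 → ‖(n:ℂ)⁻¹ * ZMod.dft g y‖ ≤
      E / 2 * (1 / y.val + 1 / (n - y.val : ℕ)) := by
    intro y hy
    have hv0 : 0 < y.val := Nat.pos_of_ne_zero (by simpa using hy)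
    have hva : y.val < n := ZMod.val_lt y
    have hm0 : (0:ℝ) < y.val := by exact_mod_cast hv0
    have hma : (y.val:ℝ) < n := by exact_mod_cast hva
    set w : ℂ := (ζ - 2 * π * I * y.val) / n with hw
    have hz : ∀ k : ℕ, exp (ζ * k / n) * ZMod.stdAddChar (-y * (k : ZMod n)) = exp w ^ k := by
      intro k
      rw [neg_mul, AddChar.map_neg_eq_inv, psi_val, ← Complex.exp_neg, ← Complex.exp_add,
        ← Complex.exp_nat_mul, hw]
      congr 1; ring
    have hlow : 2 * (min (y.val:ℝ) (n - y.val) / n) ≤ ‖exp w - 1‖ := by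
      refine le_trans ?_ (sin_le_norm_exp w ?_)
      · have : w.im = (ζ.im - 2 * π * y.val) / n := by
          rw [hw, Complex.div_natCast_im]; simp [-ZMod.natCast_val]
        rw [this]
        have := sin_lower n y.val hv0 hva ζ.im him
        linarith
      · have : w.re = ζ.re / n := by rw [hw, Complex.div_natCast_re]; simp [-ZMod.natCast_val]
        rw [this]; positivity
    have hmin : 0 < min (y.val:ℝ) (n - y.val) := lt_min hm0 (by linarith)
    have hpos : 0 < 2 * (min (y.val:ℝ) (n - y.val) / n) := by positivity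
    have hω1 : exp w ≠ 1 := by
      intro h; rw [h, sub_self, norm_zero] at hlow; linarith
    have e : ZMod.dft g y = (exp w ^ K - 1) / (exp w - 1) := by
      rw [← geom_sum_eq hω1, ZMod.dft_apply]
      simp only [g, smul_eq_mul, mul_sub, Finset.sum_sub_distrib]
      have z : ∑ j : ZMod n, ZMod.stdAddChar (-(j * y)) * d = 0 := by
        rw [← Finset.sum_mul]
        simp only [← mul_neg]
        rw [sum_psi, if_neg (by simpa using hy), zero_mul]
      rw [z, sub_zero]
      have e2 : ∀ j : ZMod n, ZMod.stdAddChar (-(j * y)) * (if j.val < K then exp (ζ * j.val / n) else 0) =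
          (fun k : ℕ => if k < K then exp w ^ k else 0) j.val := by
        intro j
        simp only
        split_ifs
        · rw [← hz, ZMod.natCast_zmod_val, mul_comm]; congr 2; ring
        · simp
      simp only [e2]
      rw [sum_zmod n (fun k : ℕ => if k < K then exp w ^ k else 0), ← Finset.sum_filter]
      congr 1
      ext k; simp only [mem_filter, mem_range]; omega
    rw [e, norm_mul, norm_inv, Complex.norm_natCast, norm_div, ← hz, Nat.cast_sub hva.le]
    calc _ ≤ (n:ℝ)⁻¹ * (E / (2 * (min (y.val:ℝ) (n - y.val) / n))) := by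
          gcongr; exact h2 y
      _ = E / 2 * (1 / min (y.val:ℝ) (n - y.val)) := by field_simp
      _ ≤ _ := by
          gcongr
          have h0 : 0 < (n:ℝ) - y.val := by linarith
          have h1 : 0 < 1 / (y.val:ℝ) := by positivity
          have h2 : 0 < 1 / ((n:ℝ) - y.val) := by positivity
          rcases le_total (y.val:ℝ) (n - y.val) with h | h
          · rw [min_eq_left h]; linarith
          · rw [min_eq_right h]; linarith
  let f : ℕ → ℝ := fun m => if m = 0 then E else E / 2 * (1 / m + 1 / (n - m : ℕ))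
  calc _ ≤ ∑ y : ZMod n, f y.val := by
        refine Finset.sum_le_sum fun y _ => ?_
        by_cases hy : y = 0
        · subst hy; simpa [f] using c0
        · have : y.val ≠ 0 := by simpa using hy
          simp only [f, if_neg this]; exact c1 y hy
    _ = E + ∑ m ∈ Ico 1 n, E / 2 * (1 / m + 1 / (n - m : ℕ)) := by
        rw [sum_zmod, Finset.range_eq_Ico, Finset.sum_eq_sum_Ico_succ_bot hn0]
        simp only [f, if_true]
        congr 1
        refine Finset.sum_congr rfl fun m hm => if_neg ?_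
        have := (mem_Ico.1 hm).1; omega
    _ = E + E * ∑ m ∈ Ico 1 n, (1:ℝ) / m := by
        rw [← Finset.mul_sum, Finset.sum_add_distrib,
          Finset.sum_Ico_reflect (fun m => (1:ℝ) / m) 1 (Nat.le_succ n)]
        simp only [Nat.add_sub_cancel_left, Nat.add_sub_cancel]
        ring
    _ ≤ E + E * (1 + Real.log n) := by gcongr; exact sum_inv_le n
    _ = _ := by ring

end Pool.Agent.Lib.MP_a93a41_nt.Bar
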