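import Pool.Agent.Lib.MP_a93a41_nt.Bar1

open Finset Complex
open scoped Real

namespace Pool.Agent.Lib.MP_a93a41_nt.Bar

variable {p D : ℕ} [NeZero p] {X : Type} [Fintype X]

noncomputable def ch (y x : Fin D → ZMod p) : ℂ := ZMod.stdAddChar (∑ j, y j * x j)

def kk (x : Fin D → ZMod p) : ℕ := ∑ j, (x j).val * p ^ (j:ℕ)

def Bd (φ : X → Fin D → ZMod p) (G : X → ℂ) (b : ℝ) : Prop :=
  ∀ y, ‖∑ x, ch y (φ x) * G x‖ ≤ b

def Nm (φ : X → Fin D → ZMod p) (f : (Fin D → ZMod p) → ℂ) (a : ℝ) : Prop :=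
  ∀ G b, Bd φ G b → Bd φ (fun x => f (φ x) * G x) (a * b)

theorem ch_add (y y' x : Fin D → ZMod p) : ch (y + y') x = ch y x * ch y' x := by
  simp only [ch, ← AddChar.map_add_eq_mul, Pi.add_apply, add_mul, Finset.sum_add_distrib]

theorem ch_zero (x : Fin D → ZMod p) : ch 0 x = 1 := by simp [ch]

theorem norm_ch (y x : Fin D → ZMod p) : ‖ch y x‖ = 1 := norm_psi _

theorem ch_prod (y x : Fin D → ZMod p) : ch y x = ∏ j, ZMod.stdAddChar (y j * x j) := by
  rw [ch]
  induction (univ : Finset (Fin D)) using Finset.induction_on with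
  | empty => simp
  | insert a s ha ih => rw [sum_insert ha, prod_insert ha, AddChar.map_add_eq_mul, ih]

variable {φ : X → Fin D → ZMod p}

theorem Bd.nonneg {G : X → ℂ} {b : ℝ} (h : Bd φ G b) : 0 ≤ b := (norm_nonneg _).trans (h 0)

theorem Nm.mono {f : (Fin D → ZMod p) → ℂ} {a a' : ℝ} (h : Nm φ f a) (ha : a ≤ a') : Nm φ f a' :=
  fun G b hG y => (h G b hG y).trans (mul_le_mul_of_nonneg_right ha hG.nonneg)

theorem Nm.congr {f g : (Fin D → ZMod p) → ℂ} {a : ℝ} (h : Nm φ f a) (e : ∀ x, f x = g x) :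
    Nm φ g a := by
  have : f = g := funext e
  rwa [← this]

theorem nm_ch (y : Fin D → ZMod p) : Nm φ (ch y) 1 := fun G b hG y' => by
  simpa only [one_mul, ← mul_assoc, ← ch_add] using hG (y' + y)

theorem nm_one : Nm φ (fun _ => 1) 1 := (nm_ch 0).congr ch_zero

theorem Nm.mul {f g : (Fin D → ZMod p) → ℂ} {a a' : ℝ} (h : Nm φ f a) (h' : Nm φ g a') :
    Nm φ (fun x => f x * g x) (a * a') := fun G b hG => by
  simpa only [mul_assoc] using h _ _ (h' G b hG)

theorem nm_sum {ι : Type*} (s : Finset ι) (c : ι → ℂ) (f : ι → (Fin D → ZMod p) → ℂ) (a : ι → ℝ)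
    (h : ∀ i ∈ s, Nm φ (f i) (a i)) :
    Nm φ (fun x => ∑ i ∈ s, c i * f i x) (∑ i ∈ s, ‖c i‖ * a i) := fun G b hG y => by
  have e : ∑ x, ch y (φ x) * ((∑ i ∈ s, c i * f i (φ x)) * G x) =
      ∑ i ∈ s, c i * ∑ x, ch y (φ x) * (f i (φ x) * G x) := by
    simp only [Finset.sum_mul, Finset.mul_sum]
    rw [Finset.sum_comm]
    exact Finset.sum_congr rfl fun i _ => Finset.sum_congr rfl fun x _ => by ring
  rw [e, Finset.sum_mul]
  refine (norm_sum_le _ _).trans (Finset.sum_le_sum fun i hi => ?_)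
  rw [norm_mul, mul_assoc]
  exact mul_le_mul_of_nonneg_left (h i hi G b hG y) (norm_nonneg _)

theorem Nm.add {f g : (Fin D → ZMod p) → ℂ} {a a' : ℝ} (h : Nm φ f a) (h' : Nm φ g a') :
    Nm φ (fun x => f x + g x) (a + a') := fun G b hG y => by
  simp only [add_mul, mul_add, Finset.sum_add_distrib]
  exact (norm_add_le _ _).trans (add_le_add (h G b hG y) (h' G b hG y))

theorem nm_prod {ι : Type*} (s : Finset ι) (f : ι → (Fin D → ZMod p) → ℂ) (a : ℝ)
    (h : ∀ i ∈ s, Nm φ (f i) a) : Nm φ (fun x => ∏ i ∈ s, f i x) (a ^ #s) := by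
  classical
  induction s using Finset.induction_on with
  | empty => simpa using nm_one
  | insert i s hi ih =>
    simp only [prod_insert hi, card_insert_of_notMem hi, pow_succ']
    exact (h i (mem_insert_self _ _)).mul (ih fun j hj => h j (mem_insert_of_mem hj))

theorem nm_prod_sub {ι : Type*} (s : Finset ι) (f : ι → (Fin D → ZMod p) → ℂ) (a : ℝ)
    (h : ∀ i ∈ s, Nm φ (fun x => f i x - 1) a) :
    Nm φ (fun x => ∏ i ∈ s, f i x - 1) ((1 + a) ^ #s - 1) := by
  classical
  induction s using Finset.induction_on with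
  | empty => intro G b hG y; simp
  | insert i s hi ih =>
    have h1 := h i (mem_insert_self _ _)
    have h2 := ih fun j hj => h j (mem_insert_of_mem hj)
    refine (((h1.mul h2).add h1).add h2).congr (fun x => ?_) |>.mono (le_of_eq ?_)
    · rw [prod_insert hi]; ring
    · rw [card_insert_of_notMem hi]; ring

theorem nm_digit (j : Fin D) (ζ : ℂ) (hre : 0 ≤ ζ.re) (him : |ζ.im| ≤ π) (E : ℝ)
    (h : ∀ τ : ℝ, 0 ≤ τ → τ ≤ 1 → ‖exp (ζ * τ) - 1‖ ≤ E) :
    Nm φ (fun x => exp (ζ * (x j).val / p) - 1) (E * (2 + Real.log p)) := by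
  have hp : (0:ℝ) < p := by exact_mod_cast Nat.pos_of_ne_zero (NeZero.ne p)
  obtain ⟨c, hc, hs⟩ := four p p le_rfl ζ hre him 1 E (fun k hk => by
    rw [if_pos hk]
    have := h (k / p) (by positivity) (by rw [div_le_one hp]; exact_mod_cast hk.le)
    rwa [show ζ * ((k / p : ℝ) : ℂ) = ζ * k / p by push_cast; ring] at this) (fun y => by
    have hp' : (p:ℂ) ≠ 0 := by exact_mod_cast hp.ne'
    simpa [mul_div_cancel_right₀ _ hp'] using h 1 zero_le_one le_rfl)
  refine ((nm_sum univ c (fun y => ch (Pi.single j y)) (fun _ => 1) fun y _ => nm_ch _).congr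
    fun x => ?_).mono (by simpa using hs)
  have := hc (x j)
  rw [if_pos (ZMod.val_lt _)] at this
  rw [this]
  refine Finset.sum_congr rfl fun y _ => ?_
  rw [ch, Finset.sum_eq_single j (fun i _ hi => by simp [hi]) (by simp)]; simp

theorem geo_factor (s : ℂ) (m : Fin D → ℤ) (x : Fin D → ZMod p) :
    exp (s * kk x) = ch (fun j => (m j : ZMod p)) x *
      ∏ j : Fin D, exp ((s * p ^ (j + 1 : ℕ) - 2 * π * I * m j) * (x j).val / p) := by
  have hp : (p:ℂ) ≠ 0 := by exact_mod_cast NeZero.ne p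
  rw [ch_prod, ← Finset.prod_mul_distrib, kk]
  push_cast
  rw [Finset.mul_sum, Complex.exp_sum]
  refine Finset.prod_congr rfl fun j _ => ?_
  have : (m j : ZMod p) * x j = ((m j * (x j).val : ℤ) : ZMod p) := by push_cast; simp
  rw [this, ZMod.stdAddChar_coe, ← Complex.exp_add]
  congr 1; push_cast; field_simp; ring

theorem geo_upper (s : ℂ) (h0 : 0 ≤ s.re) (h1 : s.re * p ^ D ≤ 1) :
    Nm φ (fun x => exp (s * kk x)) ((1 + 4 * (2 + Real.log p)) ^ D) := by
  have hp : (1:ℝ) ≤ p := by exact_mod_cast Nat.pos_of_ne_zero (NeZero.ne p)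
  let m : Fin D → ℤ := fun j => round (s.im * p ^ (j + 1 : ℕ) / (2 * π))
  have key : ∀ j : Fin D, Nm φ (fun x => exp ((s * p ^ (j + 1 : ℕ) - 2 * π * I * m j) * (x j).val / p))
      (1 + 4 * (2 + Real.log p)) := by
    intro j
    set ζ : ℂ := s * p ^ (j + 1 : ℕ) - 2 * π * I * m j with hζ
    have e1 : ζ.re = s.re * p ^ (j + 1 : ℕ) := by
      rw [hζ, ← Nat.cast_pow (α := ℂ), ← Nat.cast_pow (α := ℝ)]; generalize p ^ ((j:ℕ) + 1) = q; simp
    have e2 : ζ.im = s.im * p ^ (j + 1 : ℕ) - 2 * π * m j := by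
      rw [hζ, ← Nat.cast_pow (α := ℂ), ← Nat.cast_pow (α := ℝ)]; generalize p ^ ((j:ℕ) + 1) = q; simp
    have r1 : ζ.re ≤ 1 := by
      rw [e1]
      refine le_trans ?_ h1
      have : (j:ℕ) + 1 ≤ D := j.2
      gcongr
    have r0 : 0 ≤ ζ.re := by rw [e1]; positivity
    have := nm_digit (φ := φ) j ζ r0 (by
      have hpi := Real.pi_pos
      have h := abs_sub_round (s.im * p ^ (j + 1 : ℕ) / (2 * π))
      have : ζ.im = (2 * π) * (s.im * p ^ (j + 1 : ℕ) / (2 * π) - m j) := by rw [e2]; field_simp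
      rw [this, abs_mul, abs_of_pos (by positivity)]
      nlinarith) 4 (fun τ t0 t1 => by
      refine (norm_sub_le _ _).trans ?_
      rw [Complex.norm_exp, norm_one]
      have : (ζ * τ).re ≤ 1 := by simp; nlinarith
      have := Real.exp_le_exp.2 this
      have := Real.exp_one_lt_three
      linarith)
    exact (nm_one.add this).congr fun x => by ring
  have := (nm_ch (φ := φ) (fun j => (m j : ZMod p))).mul (nm_prod univ _ _ fun j _ => key j)
  simp only [card_univ, Fintype.card_fin, one_mul] at this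
  exact this.congr fun x => (geo_factor s m x).symm

noncomputable def kE (p D : ℕ) [NeZero p] : (Fin D → ZMod p) ≃ Fin (p ^ D) :=
  (Equiv.piCongrRight fun _ => (ZMod.finEquiv p).symm.toEquiv).trans finFunctionFinEquiv

theorem kE_val (x : Fin D → ZMod p) : (kE p D x : ℕ) = kk x := by
  obtain ⟨q, rfl⟩ := Nat.exists_eq_succ_of_ne_zero (NeZero.ne p)
  rfl

theorem kk_lt (x : Fin D → ZMod p) : kk x < p ^ D := kE_val x ▸ (kE p D x).2

theorem kk_inj : Function.Injective (kk : (Fin D → ZMod p) → ℕ) := fun x y h =>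
  (kE p D).injective (Fin.ext (by rw [kE_val, kE_val, h]))

theorem sum_kk {M : Type*} [AddCommMonoid M] (f : ℕ → M) :
    ∑ x : Fin D → ZMod p, f (kk x) = ∑ k ∈ range (p ^ D), f k := by
  rw [← Fin.sum_univ_eq_sum_range, ← (kE p D).sum_comp]
  simp only [kE_val]

theorem cut_upper (s : ℂ) (h0 : 0 ≤ s.re) (h1 : s.re * p ^ D ≤ 1) (K : ℕ) (hK : K ≤ p ^ D) :
    Nm φ (fun x => if kk x < K then exp (s * kk x) else 0)
      (2 * (2 + Real.log (p ^ D : ℕ)) * (1 + 4 * (2 + Real.log p)) ^ D) := by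
  obtain ⟨c, hc, hs⟩ := four (p ^ D) K hK 0 le_rfl (by simpa using Real.pi_pos.le) 0 2
    (fun k _ => by split_ifs <;> simp) (fun y => by
      refine (norm_sub_le _ _).trans ?_
      simp; norm_num)
  have hp : (0:ℝ) ≤ Real.log p := Real.log_natCast_nonneg p
  refine ((nm_sum univ c (fun y x => exp ((s + 2 * π * I * y.val / (p ^ D : ℕ)) * kk x))
    (fun _ => (1 + 4 * (2 + Real.log p)) ^ D) fun y _ => geo_upper _ ?_ ?_).congr fun x => ?_).mono ?_
  · rw [add_re, Complex.div_natCast_re]; simpa [-ZMod.natCast_val] using h0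
  · rw [add_re, Complex.div_natCast_re]; simpa [-ZMod.natCast_val] using h1
  · have := hc (kk x : ZMod (p ^ D))
    rw [ZMod.val_cast_of_lt (kk_lt x)] at this
    simp only [zero_mul, zero_div, Complex.exp_zero, sub_zero] at this
    have e : (if kk x < K then exp (s * kk x) else 0) = (if kk x < K then (1:ℂ) else 0) * exp (s * kk x) := by
      split_ifs <;> simp
    rw [e, this, Finset.sum_mul]
    refine Finset.sum_congr rfl fun y _ => ?_
    rw [psi_val, mul_assoc (c y), ← Complex.exp_add]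
    congr 2; ring
  · rw [← Finset.sum_mul]; gcongr

theorem geo_lower (z : Fin D → ZMod p) (β ρ η : ℝ) (hβ : 0 ≤ β) (hz : ∀ j, ((z j).val : ℝ) ≤ β * p)
    (h0 : 0 ≤ ρ) (h1 : ρ * p ^ D + 7 * D * β ≤ η) (hη : η ≤ 1) :
    Nm φ (fun x => exp ((ρ + 2 * π * I * kk z / p ^ D) * kk x) - ch (z ∘ Fin.rev) x)
      ((1 + 2 * η * (2 + Real.log p)) ^ D - 1) := by
  have hp : (1:ℝ) ≤ p := by exact_mod_cast Nat.pos_of_ne_zero (NeZero.ne p)
  have hp' : (p:ℂ) ≠ 0 := by exact_mod_cast NeZero.ne p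
  have hl : (0:ℝ) ≤ Real.log p := Real.log_natCast_nonneg p
  have hpi := Real.pi_pos
  have hpi2 := Real.pi_lt_d2
  have hη0 : 0 ≤ η := le_trans (by positivity) h1
  set s : ℂ := ρ + 2 * π * I * kk z / p ^ D with hs
  let m : Fin D → ℕ := fun j => ∑ i : Fin D, if D ≤ i + (j + 1) then (z i).val * p ^ (i + (j + 1) - D) else 0
  let r : Fin D → ℝ := fun j => ∑ i : Fin D, if D ≤ i + (j + 1) then 0 else (z i).val * p ^ (i + (j + 1) : ℕ) / p ^ D
  have hm : (fun j => (((m j : ℕ) : ℤ) : ZMod p)) = z ∘ Fin.rev := by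
    funext j
    simp only [m, Int.cast_natCast, Function.comp]
    push_cast
    rw [Finset.sum_eq_single (Fin.rev j)]
    · have : (Fin.rev j : ℕ) + (j + 1) = D := by rw [Fin.val_rev]; omega
      simp [this]
    · intro i _ hi
      split_ifs with h
      · have : (i:ℕ) + (j + 1) - D ≠ 0 := by
          intro h'; apply hi; ext; rw [Fin.val_rev]; omega
        simp [this]
      · rfl
    · simp
  have hr : ∀ j, 0 ≤ r j ∧ r j ≤ D * β := by
    intro j
    refine ⟨Finset.sum_nonneg fun i _ => by split_ifs <;> positivity, ?_⟩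
    calc r j ≤ ∑ _i : Fin D, β := Finset.sum_le_sum fun i _ => by
          split_ifs with h
          · exact hβ
          · rw [div_le_iff₀ (by positivity)]
            calc _ ≤ (β * p) * p ^ (i + (j + 1) : ℕ) := by gcongr; exact hz i
              _ = β * p ^ (i + (j + 1) + 1 : ℕ) := by ring
              _ ≤ _ := by gcongr; omega
      _ = D * β := by simp
  have hζ : ∀ j : Fin D, s * p ^ (j + 1 : ℕ) - 2 * π * I * ((m j : ℕ) : ℤ) =
      ((ρ * p ^ (j + 1 : ℕ) : ℝ) : ℂ) + ((2 * π * r j : ℝ) : ℂ) * I := by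
    intro j
    have : (kk z : ℂ) / p ^ D * p ^ (j + 1 : ℕ) = m j + r j := by
      simp only [kk, m, r]
      push_cast
      rw [Finset.sum_div, Finset.sum_mul, ← Finset.sum_add_distrib]
      refine Finset.sum_congr rfl fun i _ => ?_
      split_ifs with h
      · obtain ⟨e, he⟩ := Nat.exists_eq_add_of_le h
        rw [he, Nat.add_sub_cancel_left]
        have : (p:ℂ) ^ (i:ℕ) * p ^ (j + 1 : ℕ) = p ^ D * p ^ e := by rw [← pow_add, he, pow_add]
        push_cast
        field_simp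
        linear_combination ((z i).val : ℂ) * this
      · push_cast; ring
    rw [hs]; push_cast
    linear_combination (2 * π * I) * this
  have key : ∀ j : Fin D, Nm φ (fun x => exp ((s * p ^ (j + 1 : ℕ) - 2 * π * I * ((m j : ℕ) : ℤ)) *
      (x j).val / p) - 1) (2 * η * (2 + Real.log p)) := by
    intro j
    rw [hζ j]
    obtain ⟨r0, r1⟩ := hr j
    have a1 : ρ * p ^ (j + 1 : ℕ) ≤ ρ * p ^ D := by
      have : (j:ℕ) + 1 ≤ D := j.2
      gcongr
    have a0 : 0 ≤ ρ * p ^ (j + 1 : ℕ) := by positivity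
    have a2 : 2 * π * r j ≤ 7 * D * β := by nlinarith
    have a3 : 0 ≤ 2 * π * r j := by positivity
    generalize ρ * p ^ (j + 1 : ℕ) = a at *
    generalize 2 * π * r j = b at *
    have hn : ‖(a:ℂ) + b * I‖ ≤ η := by
      refine (norm_add_le _ _).trans ?_
      simp only [norm_mul, norm_I, mul_one, Complex.norm_real, Real.norm_eq_abs, abs_of_nonneg a0,
        abs_of_nonneg a3]
      linarith
    refine nm_digit j _ (by simpa using a0) ?_ _ fun τ t0 t1 => ?_
    · simp only [add_im, ofReal_im, mul_im, ofReal_re, I_im, mul_one, I_re, mul_zero, add_zero, zero_add,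
        abs_of_nonneg a3]
      have : 0 ≤ ρ * p ^ D := by positivity
      linarith [Real.pi_gt_three]
    · have : ‖((a:ℂ) + b * I) * τ‖ ≤ η := by
        rw [norm_mul, Complex.norm_real, Real.norm_eq_abs, abs_of_nonneg t0]
        nlinarith [norm_nonneg ((a:ℂ) + b * I)]
      have := Complex.norm_exp_sub_one_le (this.trans hη)
      linarith
  have := (nm_ch (φ := φ) (z ∘ Fin.rev)).mul (nm_prod_sub univ _ _ fun j _ => key j)
  simp only [card_univ, Fintype.card_fin, one_mul] at this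
  refine this.congr fun x => ?_
  rw [geo_factor s (fun j => ((m j : ℕ) : ℤ)) x, hm]; ring

end Pool.Agent.Lib.MP_a93a41_nt.Bar
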