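import Pool.Agent.Lib.MP_a93a41_nt.Bar2

open Finset Complex

namespace Pool.Agent.Lib.MP_a93a41_nt.Bar

variable {p : ℕ} [Fact p.Prime]

def Φ (A B C β γ : ZMod p) (z : ZMod p × ZMod p) : ZMod p :=
  A * z.1 ^ 2 + 2 * B * z.1 * z.2 + C * z.2 ^ 2 + β * z.1 + γ * z.2

noncomputable def S2 (A B C β γ : ZMod p) : ℂ := ∑ z, ZMod.stdAddChar (Φ A B C β γ z)

theorem S2_sq (h2 : (2 : ZMod p) ≠ 0) (A B C β γ : ZMod p) :
    ((‖S2 A B C β γ‖ ^ 2 : ℝ) : ℂ) = p ^ 2 * ∑ h ∈ univ.filter (fun h : ZMod p × ZMod p =>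
      A * h.1 + B * h.2 = 0 ∧ B * h.1 + C * h.2 = 0), ZMod.stdAddChar (Φ A B C β γ h) := by
  rw [← Complex.normSq_eq_norm_sq, ← Complex.mul_conj, S2, map_sum, Finset.sum_mul_sum, Finset.sum_comm]
  have e : ∀ x : ZMod p × ZMod p, ∑ y, ZMod.stdAddChar (Φ A B C β γ y) *
      (starRingEnd ℂ) (ZMod.stdAddChar (Φ A B C β γ x)) = ∑ h, ZMod.stdAddChar (Φ A B C β γ h) *
        (ZMod.stdAddChar (x.1 * (2 * (A * h.1 + B * h.2))) *
          ZMod.stdAddChar (x.2 * (2 * (B * h.1 + C * h.2)))) := by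
    intro x
    rw [← Equiv.sum_comp (Equiv.addLeft x)]
    refine Finset.sum_congr rfl fun h _ => ?_
    rw [← AddChar.map_neg_eq_conj]
    simp only [← AddChar.map_add_eq_mul, Φ, Equiv.coe_addLeft, Prod.fst_add, Prod.snd_add]
    congr 1; ring
  simp only [e]
  rw [Finset.sum_comm, Finset.sum_filter, Finset.mul_sum]
  refine Finset.sum_congr rfl fun h _ => ?_
  rw [← Finset.mul_sum, Fintype.sum_prod_type]
  simp only [← Finset.mul_sum, ← Finset.sum_mul, sum_psi, mul_eq_zero, h2, false_or]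
  by_cases a : A * h.1 + B * h.2 = 0 <;> by_cases b : B * h.1 + C * h.2 = 0 <;> simp [a, b]
  ring

theorem S2_card (h2 : (2 : ZMod p) ≠ 0) (A B C β γ : ZMod p) (n : ℕ)
    (h : #(univ.filter (fun h : ZMod p × ZMod p => A * h.1 + B * h.2 = 0 ∧ B * h.1 + C * h.2 = 0)) ≤ n) :
    ‖S2 A B C β γ‖ ^ 2 ≤ p ^ 2 * n := by
  have := congrArg norm (S2_sq h2 A B C β γ)
  rw [Complex.norm_real, Real.norm_eq_abs, abs_of_nonneg (by positivity), norm_mul, norm_pow,
    Complex.norm_natCast] at this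
  rw [this]
  gcongr
  refine (norm_sum_le _ _).trans ?_
  simp only [norm_psi, sum_const, nsmul_eq_mul, mul_one]
  exact_mod_cast h

theorem S2_nondeg (h2 : (2 : ZMod p) ≠ 0) (A B C β γ : ZMod p) (h : A * C - B ^ 2 ≠ 0) :
    ‖S2 A B C β γ‖ ≤ p := by
  have := S2_card h2 A B C β γ 1 (Finset.card_le_one_iff_subset_singleton.2 ⟨0, fun x hx => by
    obtain ⟨a, b⟩ := (mem_filter.1 hx).2
    rw [mem_singleton]
    ext
    · exact mul_left_cancel₀ h (by simp only [Prod.fst_zero]; linear_combination C * a - B * b)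
    · exact mul_left_cancel₀ h (by simp only [Prod.snd_zero]; linear_combination A * b - B * a)⟩)
  exact le_of_pow_le_pow_left₀ two_ne_zero (by positivity) (by simpa using this)

theorem S2_le (h2 : (2 : ZMod p) ≠ 0) (A B C β γ : ZMod p) (h : A ≠ 0 ∨ C ≠ 0) :
    ‖S2 A B C β γ‖ ≤ √(p ^ 3) := by
  have := S2_card h2 A B C β γ p (by
    conv_rhs => rw [← ZMod.card p, ← card_univ]
    rcases h with h | h
    · refine Finset.card_le_card_of_injOn Prod.snd (fun _ _ => by simp) fun x hx y hy e => ?_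
      have a := (mem_filter.1 hx).2.1
      have b := (mem_filter.1 hy).2.1
      exact Prod.ext (mul_left_cancel₀ h (by linear_combination a - b - B * e)) e
    · refine Finset.card_le_card_of_injOn Prod.fst (fun _ _ => by simp) fun x hx y hy e => ?_
      have a := (mem_filter.1 hx).2.2
      have b := (mem_filter.1 hy).2.2
      exact Prod.ext e (mul_left_cancel₀ h (by linear_combination a - b - B * e)))
  exact Real.le_sqrt_of_sq_le (by linarith [show (p:ℝ) ^ 2 * p = p ^ 3 by ring])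

theorem S2_ge (h2 : (2 : ZMod p) ≠ 0) (c τ b : ZMod p) (hc : c ≠ 0) :
    √(p ^ 3) ≤ ‖S2 c (c * τ) (c * τ ^ 2) b (b * τ)‖ := by
  have := S2_sq h2 c (c * τ) (c * τ ^ 2) b (b * τ)
  have e : (univ.filter (fun h : ZMod p × ZMod p => c * h.1 + c * τ * h.2 = 0 ∧
      c * τ * h.1 + c * τ ^ 2 * h.2 = 0)) = univ.image (fun s : ZMod p => (-τ * s, s)) := by
    ext h
    simp only [mem_filter, mem_univ, true_and, mem_image]
    constructor
    · rintro ⟨a, -⟩
      exact ⟨h.2, Prod.ext (mul_left_cancel₀ hc (by linear_combination -a)) rfl⟩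
    · rintro ⟨s, rfl⟩
      constructor <;> ring
  rw [e, Finset.sum_image (fun x _ y _ h => congrArg Prod.snd h)] at this
  have z : ∀ s : ZMod p, Φ c (c * τ) (c * τ ^ 2) b (b * τ) (-τ * s, s) = 0 := fun s => by
    simp only [Φ]; ring
  simp only [z, AddChar.map_zero_eq_one, sum_const, card_univ, ZMod.card, nsmul_eq_mul, mul_one] at this
  have h : ‖S2 c (c * τ) (c * τ ^ 2) b (b * τ)‖ ^ 2 = (p:ℝ) ^ 2 * p := by exact_mod_cast this
  exact Real.sqrt_le_iff.2 ⟨norm_nonneg _, by rw [h]; ring_nf; rfl⟩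

variable {l : ℕ}

def mk (a b : ZMod p) (z : Fin l → ZMod p × ZMod p) : Fin (l + l + 2) → ZMod p :=
  Fin.cons a (Fin.cons b (Fin.append (fun i => (z i).1) fun i => (z i).2))

def mE (p l : ℕ) [Fact p.Prime] :
    ZMod p × ZMod p × (Fin l → ZMod p × ZMod p) ≃ (Fin (l + l + 2) → ZMod p) where
  toFun x := mk x.1 x.2.1 x.2.2
  invFun x := (x 0, x (Fin.succ 0), fun i =>
    (x (Fin.castAdd l i).succ.succ, x (Fin.natAdd l i).succ.succ))
  left_inv x := by simp [mk, -Fin.natAdd_eq_addNat]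
  right_inv x := by
    funext j
    refine Fin.cases rfl (fun j => Fin.cases rfl (fun j => ?_) j) j
    refine Fin.addCases (fun i => ?_) (fun i => ?_) j <;> simp [mk, -Fin.natAdd_eq_addNat]

theorem kk_mk (a b a' b' : ZMod p) (z : Fin l → ZMod p × ZMod p) :
    kk (mk a b z) / p ^ 2 = kk (mk a' b' z) / p ^ 2 := by
  have hp : 0 < p := (Fact.out : p.Prime).pos
  have key : ∀ a b : ZMod p, kk (mk a b z) / p ^ 2 =
      ∑ j : Fin (l + l), (Fin.append (fun i => (z i).1) (fun i => (z i).2) j).val * p ^ (j:ℕ) := by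
    intro a b
    have : kk (mk a b z) = (a.val + b.val * p) + p ^ 2 *
        ∑ j : Fin (l + l), (Fin.append (fun i => (z i).1) (fun i => (z i).2) j).val * p ^ (j:ℕ) := by
      simp only [kk, mk, Fin.sum_univ_succ, Fin.cons_zero, Fin.cons_succ, Fin.val_zero, Fin.val_succ,
        Finset.mul_sum]
      rw [add_assoc]
      congr 1
      · simp
      · congr 1
        · simp
        · exact Finset.sum_congr rfl fun j _ => by ring
    rw [this, Nat.add_mul_div_left _ _ (by positivity), Nat.div_eq_of_lt, zero_add]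
    have := ZMod.val_lt a
    have := ZMod.val_lt b
    nlinarith
  rw [key, key]

theorem ch_mk (α α' a b : ZMod p) (w z : Fin l → ZMod p × ZMod p) :
    ch (mk α α' w) (mk a b z) = ZMod.stdAddChar (α * a + α' * b +
      ∑ i, ((w i).1 * (z i).1 + (w i).2 * (z i).2)) := by
  simp only [ch, mk, Fin.sum_univ_succ, Fin.cons_zero, Fin.cons_succ, Fin.sum_univ_add, Fin.append_left,
    Fin.append_right, Finset.sum_add_distrib, add_assoc]

def q1 (z : Fin l → ZMod p × ZMod p) : ZMod p := ∑ i, ((z i).1 ^ 2 - (z i).2 ^ 2)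
def q2 (z : Fin l → ZMod p × ZMod p) : ZMod p := ∑ i, 2 * (z i).1 * (z i).2
def q0 (z : Fin l → ZMod p × ZMod p) : ZMod p := ∑ i, ((z i).1 ^ 2 + (z i).2 ^ 2)

def PP (x : Fin (l + l + 2) → ZMod p) : Fin (l + l + 2) → ZMod p :=
  mk (q1 ((mE p l).symm x).2.2) (q2 ((mE p l).symm x).2.2) ((mE p l).symm x).2.2

noncomputable def aa (c : ZMod p) (x : Fin (l + l + 2) → ZMod p) : ℂ :=
  ZMod.stdAddChar (c * q0 ((mE p l).symm x).2.2)

theorem psi_sum {ι : Type*} (s : Finset ι) (f : ι → ZMod p) :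
    ZMod.stdAddChar (∑ i ∈ s, f i) = ∏ i ∈ s, ZMod.stdAddChar (f i) := by
  classical
  induction s using Finset.induction_on with
  | empty => simp
  | insert a s ha ih => rw [sum_insert ha, prod_insert ha, AddChar.map_add_eq_mul, ih]

theorem T_eq (c α α' : ZMod p) (w : Fin l → ZMod p × ZMod p) :
    ∑ x, ch (mk α α' w) (PP x) * aa c x = p ^ 2 * ∏ i, S2 (c + α) α' (c - α) (w i).1 (w i).2 := by
  simp only [S2, Fintype.prod_sum]
  rw [← (mE p l).sum_comp]
  simp only [PP, aa, Equiv.symm_apply_apply, Fintype.sum_prod_type, sum_const, card_univ, ZMod.card,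
    nsmul_eq_mul, ch_mk]
  rw [← mul_assoc, ← sq]
  congr 1
  refine Finset.sum_congr rfl fun z _ => ?_
  rw [← AddChar.map_add_eq_mul, ← psi_sum]
  congr 1
  simp only [q0, q1, q2, Finset.mul_sum, ← Finset.sum_add_distrib, Φ]
  exact Finset.sum_congr rfl fun i _ => by ring

theorem alg (l : ℕ) (hp : p % 4 = 3) :
    ∃ (P : (Fin (l + l + 2) → ZMod p) → Fin (l + l + 2) → ZMod p) (a : (Fin (l + l + 2) → ZMod p) → ℂ)
      (W : Finset (Fin (l + l + 2) → ZMod p)), (∀ x, kk (P x) / p ^ 2 = kk x / p ^ 2) ∧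
      Bd (Sum.elim P id) (Sum.elim (fun _ => 1) fun _ => -1) (p ^ 2 * p ^ l) ∧ (∀ x, ‖a x‖ ≤ 1) ∧
      Bd P a (p ^ 2 * √(p ^ 3) ^ l) ∧ p ^ (l + 1) ≤ #W ∧
      ∀ y ∈ W, p ^ 2 * √(p ^ 3) ^ l ≤ ‖∑ x, ch y (P x) * a x‖ := by
  classical
  have h2 : (2 : ZMod p) ≠ 0 := by
    intro h
    have : p ∣ 2 := (ZMod.natCast_eq_zero_iff 2 p).1 (by exact_mod_cast h)
    have := Nat.le_of_dvd two_pos this
    omega
  have h1 : ∀ τ : ZMod p, 1 + τ ^ 2 ≠ 0 := fun τ h =>
    ZMod.mod_four_ne_three_of_sq_eq_neg_one (y := τ) (by linear_combination h) hp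
  let f : ZMod p × (Fin l → ZMod p) → Fin (l + l + 2) → ZMod p := fun u =>
    mk (2 / (1 + u.1 ^ 2) - 1) (2 / (1 + u.1 ^ 2) * u.1) fun i => (u.2 i, u.2 i * u.1)
  refine ⟨PP, aa 1, univ.image f, fun x => ?_, fun y => ?_, fun x => (norm_psi _).le, fun y => ?_, ?_, ?_⟩
  · conv_rhs => rw [← (mE p l).apply_symm_apply x]
    exact kk_mk _ _ _ _ _
  · obtain ⟨⟨α, α', w⟩, rfl⟩ := (mE p l).surjective y
    change ‖∑ x, ch (mk α α' w) _ * _‖ ≤ _
    simp only [Fintype.sum_sum_type, Sum.elim_inl, Sum.elim_inr, id, mul_neg, mul_one,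
      Finset.sum_neg_distrib]
    by_cases h : α = 0 ∧ α' = 0
    · have : ∀ x, ch (mk α α' w) (PP x) = ch (mk α α' w) x := by
        intro x
        obtain ⟨⟨a, b, z⟩, rfl⟩ := (mE p l).surjective x
        simp only [PP, Equiv.symm_apply_apply]
        change _ = ch _ (mk a b z)
        simp [ch_mk, h.1, h.2]
      simp only [this, add_neg_cancel, norm_zero]; positivity
    · have z : ∑ x, ch (mk α α' w) x = 0 := by
        rw [← (mE p l).sum_comp]
        change ∑ x : ZMod p × ZMod p × (Fin l → ZMod p × ZMod p), ch _ (mk x.1 x.2.1 x.2.2) = 0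
        simp only [ch_mk, Fintype.sum_prod_type, AddChar.map_add_eq_mul, ← Finset.mul_sum,
          ← Finset.sum_mul, mul_comm α, mul_comm α', sum_psi]
        by_cases a : α = 0
        · rw [if_neg (c := α' = 0) (fun b => h ⟨a, b⟩)]; simp
        · rw [if_neg a]; simp
      have t := T_eq 0 α α' w
      simp only [aa, zero_mul, AddChar.map_zero_eq_one, mul_one] at t
      rw [z, neg_zero, add_zero, t, norm_mul, norm_pow, Complex.norm_natCast, norm_prod]
      gcongr
      refine (Finset.prod_le_prod (g := fun _ => (p:ℝ)) (fun _ _ => norm_nonneg _)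
        fun i _ => S2_nondeg h2 _ _ _ _ _ fun e => ?_).trans (by simp)
      by_cases a : α = 0
      · exact h ⟨a, pow_eq_zero_iff two_ne_zero |>.1 (by rw [a] at e; linear_combination -e)⟩
      · exact ZMod.mod_four_ne_three_of_sq_eq_neg_sq (x := α) (y := α') a (by linear_combination -e) hp
  · obtain ⟨⟨α, α', w⟩, rfl⟩ := (mE p l).surjective y
    change ‖∑ x, ch (mk α α' w) _ * _‖ ≤ _
    rw [T_eq, norm_mul, norm_pow, Complex.norm_natCast, norm_prod]
    gcongr
    refine (Finset.prod_le_prod (g := fun _ => √((p:ℝ) ^ 3)) (fun _ _ => norm_nonneg _)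
      fun i _ => S2_le h2 _ _ _ _ _ ?_).trans (by simp)
    by_contra! e
    exact h2 (by linear_combination e.1 + e.2)
  · rw [Finset.card_image_of_injective _ fun u v e => ?_]
    · simp [pow_succ']
    · have e' : (mE p l) (_, _, _) = (mE p l) (_, _, _) := e
      have e'' := (mE p l).injective e'
      simp only [Prod.mk.injEq, sub_left_inj] at e''
      obtain ⟨a, b, c⟩ := e''
      rw [a] at b
      exact Prod.ext (mul_left_cancel₀ (div_ne_zero h2 (h1 _)) b)
        (funext fun i => congrArg Prod.fst (congrFun c i))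
  · intro y hy
    obtain ⟨⟨τ, b⟩, -, rfl⟩ := mem_image.1 hy
    simp only [f]
    rw [T_eq, norm_mul, norm_pow, Complex.norm_natCast, norm_prod]
    gcongr
    have e1 : 1 + (2 / (1 + τ ^ 2) - 1) = 2 / (1 + τ ^ 2) := by ring
    have e2 : 1 - (2 / (1 + τ ^ 2) - 1) = 2 / (1 + τ ^ 2) * τ ^ 2 := by
      have := h1 τ
      field_simp; ring
    rw [e1, e2]
    calc _ = ∏ _i : Fin l, √((p:ℝ) ^ 3) := by simp
      _ ≤ _ := Finset.prod_le_prod (fun _ _ => by positivity)
        fun i _ => S2_ge h2 _ _ _ (div_ne_zero h2 (h1 _))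

end Pool.Agent.Lib.MP_a93a41_nt.Bar
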