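import Pool.Agent.Lib.MP_a93a41_nt.Bar3

open Finset Complex
open scoped Real

namespace Pool.Agent.Lib.MP_a93a41_nt.Bar

theorem box_card (p D : ℕ) [NeZero p] (β : ℝ) (h0 : 0 ≤ β) (h1 : β < 1) :
    (β * p) ^ D ≤ #(univ.filter fun z : Fin D → ZMod p => ∀ j, ((z j).val : ℝ) ≤ β * p) := by
  classical
  have hp : (0:ℝ) < p := by exact_mod_cast Nat.pos_of_ne_zero (NeZero.ne p)
  have e : (univ.filter fun z : Fin D → ZMod p => ∀ j, ((z j).val : ℝ) ≤ β * p) =
      Fintype.piFinset fun _ => univ.filter fun s : ZMod p => (s.val : ℝ) ≤ β * p := by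
    ext z; simp
  rw [e, Fintype.card_piFinset]
  simp only [prod_const, card_univ, Fintype.card_fin, Nat.cast_pow]
  gcongr
  have hf : ⌊β * p⌋₊ < p := (Nat.floor_lt (by positivity)).2 (by nlinarith)
  have : #(range (⌊β * p⌋₊ + 1)) ≤ #(univ.filter fun s : ZMod p => (s.val : ℝ) ≤ β * p) := by
    refine Finset.card_le_card_of_injOn (fun k => (k : ZMod p)) (fun k hk => ?_) fun k hk k' hk' h => ?_
    · have hk : k ≤ ⌊β * p⌋₊ := by simpa [Nat.lt_succ_iff] using hk
      simp only [coe_filter, mem_univ, true_and, Set.mem_ofPred_eq]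
      rw [ZMod.val_cast_of_lt (by omega)]
      exact (Nat.le_floor_iff (by positivity)).1 hk
    · have hk : k ≤ ⌊β * p⌋₊ := by simpa [Nat.lt_succ_iff] using hk
      have hk' : k' ≤ ⌊β * p⌋₊ := by simpa [Nat.lt_succ_iff] using hk'
      have := congrArg ZMod.val h
      simp only at this
      rwa [ZMod.val_cast_of_lt (by omega), ZMod.val_cast_of_lt (by omega)] at this
  rw [card_range] at this
  exact (Nat.lt_floor_add_one _).le.trans (by exact_mod_cast this)

theorem exists_shift {V : Type} [Fintype V] [DecidableEq V] [AddCommGroup V] (Z W : Finset V) (g : V → V) :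
    ∃ y0, (#Z * #W : ℝ) ≤ Fintype.card V * #(Z.filter fun z => g z + y0 ∈ W) := by
  have : ∑ _y0 : V, (#Z * #W : ℝ) ≤ ∑ y0 : V, (Fintype.card V * #(Z.filter fun z => g z + y0 ∈ W) : ℝ) := by
    rw [sum_const, card_univ, nsmul_eq_mul, ← Finset.mul_sum]
    refine mul_le_mul_of_nonneg_left ?_ (Nat.cast_nonneg _)
    simp only [Finset.card_filter]
    push_cast
    rw [Finset.sum_comm]
    refine le_of_eq (Eq.symm ((Finset.sum_congr rfl fun z _ => ?_).trans (by rw [sum_const, nsmul_eq_mul])))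
    exact (Equiv.sum_comp (Equiv.addLeft (g z)) (fun y => if y ∈ W then (1:ℝ) else 0)).trans (by simp)
  obtain ⟨y, -, h⟩ := Finset.exists_le_of_sum_le univ_nonempty this
  exact ⟨y, h⟩

theorem core (p l : ℕ) [Fact p.Prime] (hp : p % 4 = 3) (β η : ℝ) (hβ : 0 ≤ β) (hβ1 : β < 1) (hη : η ≤ 1)
    (hs : (1 + 2 * η * (2 + Real.log p)) ^ (l + l + 2) - 1 ≤ 1 / 2) :
    ∃ (σ : ℕ → ℕ) (b : ℕ → ℂ) (R : Finset ℕ), (∀ k < p ^ (l + l + 2), σ k / p ^ 2 = k / p ^ 2) ∧
      (∀ k, ‖b k‖ ≤ 1) ∧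
      (∀ K ≤ p ^ (l + l + 2), ∀ s : ℂ, 0 ≤ s.re → s.re * p ^ (l + l + 2) ≤ 1 →
        ‖∑ k ∈ range (p ^ (l + l + 2)), (if σ k < K then exp (s * σ k) else 0) -
          ∑ k ∈ range K, exp (s * k)‖ ≤ 2 * (2 + Real.log (p ^ (l + l + 2) : ℕ)) *
            (1 + 4 * (2 + Real.log p)) ^ (l + l + 2) * (p ^ 2 * p ^ l)) ∧
      (p:ℝ) ^ (l + 1) * β ^ (l + l + 2) ≤ #R ∧
      ∀ r ∈ R, (r:ℝ) ≤ (l + l + 2 : ℕ) * β * p ^ (l + l + 2) ∧ ∀ ρ : ℝ, 0 ≤ ρ →
        ρ * p ^ (l + l + 2) + 7 * (l + l + 2 : ℕ) * β ≤ η → p ^ 2 * √(p ^ 3) ^ l / 2 ≤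
          ‖∑ k ∈ range (p ^ (l + l + 2)), b k * exp ((ρ + 2 * π * I * r / p ^ (l + l + 2)) * σ k)‖ := by
  classical
  obtain ⟨P, a, W, h1, h2, h3, h4, h5, h6⟩ := alg (p := p) l hp
  generalize l + l + 2 = D at *
  have hp1 : (1:ℝ) ≤ p := by exact_mod_cast (Fact.out : p.Prime).pos
  set Z := univ.filter fun z : Fin D → ZMod p => ∀ j, ((z j).val : ℝ) ≤ β * p with hZ
  obtain ⟨y0, hy0⟩ := exists_shift Z W (fun z => z ∘ Fin.rev)
  let dig : ℕ → Fin D → ZMod p := Function.invFun kk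
  have hd : ∀ x, dig (kk x) = x := Function.leftInverse_invFun kk_inj
  refine ⟨fun k => kk (P (dig k)), fun k => ch y0 (P (dig k)) * a (dig k),
    (Z.filter fun z => z ∘ Fin.rev + y0 ∈ W).image kk, fun k hk => ?_, fun k => ?_,
    fun K hK s s0 s1 => ?_, ?_, fun r hr => ?_⟩
  · have : kk ((kE p D).symm ⟨k, hk⟩) = k := by rw [← kE_val, Equiv.apply_symm_apply]
    rw [← this]; simp only [hd, h1]
  · rw [norm_mul, norm_ch, one_mul]; exact h3 _
  · have := cut_upper s s0 s1 K hK _ _ h2 0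
    simp only [Fintype.sum_sum_type, Sum.elim_inl, Sum.elim_inr, id, mul_neg, mul_one, ch_zero, one_mul,
      Finset.sum_neg_distrib] at this
    rw [sum_kk (fun k => if k < K then exp (s * k) else 0), ← Finset.sum_filter (s := range _),
      show (range (p ^ D)).filter (· < K) = range K by ext k; simp only [mem_filter, mem_range]; omega]
      at this
    rw [← sum_kk]
    simpa only [hd, sub_eq_add_neg] using this
  · rw [Finset.card_image_of_injective _ kk_inj]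
    have hb := box_card p D β hβ hβ1
    rw [← hZ] at hb
    have h5' : (p:ℝ) ^ (l + 1) ≤ #W := by exact_mod_cast h5
    simp only [Fintype.card_fun, ZMod.card, Fintype.card_fin, Nat.cast_pow] at hy0
    refine le_of_mul_le_mul_left (le_trans ?_ hy0) (show (0:ℝ) < p ^ D by positivity)
    calc _ = (β * p) ^ D * p ^ (l + 1) := by ring
      _ ≤ _ := by gcongr
  · obtain ⟨z, hz, rfl⟩ := mem_image.1 hr
    obtain ⟨hz1, hz2⟩ := mem_filter.1 hz
    have hz1 := (mem_filter.1 hz1).2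
    refine ⟨?_, fun ρ r0 r1 => ?_⟩
    · rw [kk]; push_cast
      calc _ ≤ ∑ _j : Fin D, β * (p:ℝ) ^ D := Finset.sum_le_sum fun j _ => by
            calc _ ≤ (β * p) * (p:ℝ) ^ (j:ℕ) := by gcongr; exact hz1 j
              _ = β * p ^ (j + 1 : ℕ) := by ring
              _ ≤ _ := by
                have : (j:ℕ) + 1 ≤ D := j.2
                gcongr
        _ = _ := by simp; ring
    · have g1 := nm_ch y0 _ _ h4
      have g2 := (geo_lower z β ρ η hβ hz1 r0 r1 hη).mono hs _ _ g1 0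
      have g3 := h6 _ hz2
      rw [← sum_kk]
      simp only [hd, ch_zero, one_mul, sub_mul, Finset.sum_sub_distrib] at g2 ⊢
      simp only [ch_add, mul_assoc] at g3
      simp only [mul_comm (ch y0 _ * a _)]
      have := norm_sub_norm_le (∑ x, ch (z ∘ Fin.rev) (P x) * (ch y0 (P x) * a x))
        (∑ x, exp ((ρ + 2 * π * I * kk z / p ^ D) * kk (P x)) * (ch y0 (P x) * a x))
      rw [norm_sub_rev] at this
      linarith

end Pool.Agent.Lib.MP_a93a41_nt.Bar
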