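import Mathlib

open Finset Complex MeasureTheory

namespace Pool.Agent.Lib.MP_a93a41_nt.Bar

noncomputable def E (t u : ℝ) : ℂ := exp (I * (t * Real.log u : ℝ))

theorem norm_E (t u : ℝ) : ‖E t u‖ = 1 := by
  rw [E, mul_comm, Complex.norm_exp_ofReal_mul_I]

theorem E_mul (t : ℝ) {u : ℝ} (hu : 0 < u) (x : ℝ) :
    E t (u * Real.exp x) = E t u * exp (I * t * x) := by
  rw [E, E, Real.log_mul hu.ne' (Real.exp_pos x).ne', Real.log_exp, ← Complex.exp_add]
  congr 1; push_cast; ring

theorem expI_lip (a b : ℝ) : ‖exp (I * a) - exp (I * b)‖ ≤ |a - b| := by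
  have : exp (I * a) - exp (I * b) = exp (b * I) * (exp (I * (a - b : ℝ)) - 1) := by
    rw [mul_sub, ← Complex.exp_add, mul_one, mul_comm (b:ℂ)]; congr 2; push_cast; ring
  rw [this, norm_mul, Complex.norm_exp_ofReal_mul_I, one_mul]
  exact Real.norm_exp_I_mul_ofReal_sub_one_le

theorem meas_E (t : ℝ) {F : ℝ → ℝ} (hF : Measurable F) : Measurable fun u => E t (F u) := by
  unfold E; fun_prop

theorem iint {G : Type} [NormedAddCommGroup G] [MeasurableSpace G] [BorelSpace G]
    [SecondCountableTopology G] {f : ℝ → G} (hf : Measurable f) (C : ℝ) (h : ∀ u, ‖f u‖ ≤ C)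
    (a b : ℝ) : IntervalIntegrable f volume a b :=
  ⟨.of_bound (by simp) hf.aestronglyMeasurable C (.of_forall h),
    .of_bound (by simp) hf.aestronglyMeasurable C (.of_forall h)⟩

theorem iint_E (t : ℝ) {F : ℝ → ℝ} (hF : Measurable F) (a b : ℝ) :
    IntervalIntegrable (fun u => E t (F u)) volume a b :=
  iint (meas_E t hF) 1 (fun _ => (norm_E _ _).le) a b

noncomputable def idx (N lam u : ℝ) : ℕ := ⌊Real.log (u / N) / lam⌋₊

noncomputable def cc (N lam : ℝ) (k : ℕ) : ℝ := N * Real.exp (lam * k)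

noncomputable def FF (N lam : ℝ) (Q : ℕ) (σ : ℕ → ℕ) (u : ℝ) : ℝ :=
  u * Real.exp (lam * if idx N lam u < Q then (σ (idx N lam u) : ℝ) - idx N lam u else 0)

variable {N lam : ℝ}

theorem meas_idx : Measurable (idx N lam) := by
  unfold idx; exact Measurable.nat_floor (by fun_prop)

theorem meas_FF (Q : ℕ) (σ : ℕ → ℕ) : Measurable (FF N lam Q σ) := by
  have : Measurable fun u => (fun k : ℕ => if k < Q then (σ k : ℝ) - k else 0) (idx N lam u) :=
    (Measurable.of_discrete (f := fun k : ℕ => if k < Q then (σ k : ℝ) - k else 0)).comp meas_idx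
  unfold FF; fun_prop

theorem le_idx (hN : 0 < N) (hl : 0 < lam) {u : ℝ} (hu : N ≤ u) (k : ℕ) :
    k ≤ idx N lam u ↔ cc N lam k ≤ u := by
  have h0 : 0 < u / N := div_pos (by linarith) hN
  have : 0 ≤ Real.log (u / N) := Real.log_nonneg ((one_le_div hN).2 hu)
  rw [idx, Nat.le_floor_iff (by positivity), le_div_iff₀ hl, Real.le_log_iff_exp_le h0,
    le_div_iff₀ hN, cc, mul_comm N, mul_comm lam]

theorem cc_ge (hN : 0 < N) (hl : 0 < lam) (k : ℕ) : N ≤ cc N lam k :=
  le_mul_of_one_le_right hN.le (Real.one_le_exp (by positivity))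

theorem cc_mono (hN : 0 < N) (hl : 0 < lam) {k k' : ℕ} (h : k ≤ k') : cc N lam k ≤ cc N lam k' := by
  unfold cc; gcongr

theorem idx_eq (hN : 0 < N) (hl : 0 < lam) {u : ℝ} {k : ℕ} (h1 : cc N lam k ≤ u)
    (h2 : u < cc N lam (k + 1)) : idx N lam u = k := by
  have hu := (cc_ge hN hl k).trans h1
  have a := (le_idx hN hl hu k).2 h1
  have b := (le_idx hN hl hu (k + 1)).not.2 (not_le.2 h2)
  omega

theorem cc_le (hN : 0 < N) (hl : 0 < lam) {k Q : ℕ} (hQ : lam * Q ≤ 1 / 2) (h : k ≤ Q) :
    cc N lam k ≤ 2 * N := by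
  refine (cc_mono hN hl h).trans ?_
  have h0 : 0 ≤ lam * Q := by positivity
  have := Real.abs_exp_sub_one_le (x := lam * Q) (by rw [abs_of_nonneg h0]; linarith)
  rw [abs_of_nonneg h0] at this
  have := (abs_le.1 this).2
  unfold cc; nlinarith

noncomputable def Om (N lam t : ℝ) : ℂ := ∫ u in N..cc N lam 1, E t u

theorem cell_E (hN : 0 < N) (hl : 0 < lam) (t : ℝ) (k : ℕ) :
    ∫ u in cc N lam k..cc N lam (k + 1), E t u = exp ((lam + I * t * lam) * k) * Om N lam t := by
  have e1 : cc N lam k = Real.exp (lam * k) * N := mul_comm _ _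
  have e2 : cc N lam (k + 1) = Real.exp (lam * k) * cc N lam 1 := by
    simp only [cc]; push_cast; rw [mul_add, Real.exp_add]; ring
  rw [e1, e2, ← intervalIntegral.smul_integral_comp_mul_left, Om,
    intervalIntegral.integral_congr (g := fun u => exp (I * t * (lam * k : ℝ)) * E t u) fun u hu => ?_]
  · rw [intervalIntegral.integral_const_mul, Complex.real_smul, ← mul_assoc, Complex.ofReal_exp,
      ← Complex.exp_add]
    congr 2; push_cast; ring
  · rw [Set.uIcc_of_le (cc_ge hN hl 1)] at hu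
    simp only
    rw [mul_comm, E_mul t (hN.trans_le hu.1), mul_comm]

theorem Om_le (hN : 0 < N) (hl : 0 < lam) (h1 : lam ≤ 1) (t : ℝ) : ‖Om N lam t‖ ≤ 2 * N * lam := by
  refine (intervalIntegral.norm_integral_le_of_norm_le_const fun u _ => (norm_E t u).le).trans ?_
  have := Real.abs_exp_sub_one_le (x := lam) (by rwa [abs_of_pos hl])
  rw [abs_of_pos hl] at this
  have e : cc N lam 1 - N = N * (Real.exp lam - 1) := by simp [cc]; ring
  rw [e, abs_mul, abs_of_pos hN]
  nlinarith

theorem Om_ge (hN : 0 < N) (hl : 0 < lam) (t : ℝ) (ht : |t| * lam ≤ 1 / 2) :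
    N * lam / 2 ≤ ‖Om N lam t‖ := by
  have hc := cc_ge hN hl 1
  have h1 : ‖∫ u in N..cc N lam 1, (E t u - E t N)‖ ≤ 1 / 2 * |cc N lam 1 - N| := by
    refine intervalIntegral.norm_integral_le_of_norm_le_const fun u hu => ?_
    rw [Set.uIoc_of_le hc] at hu
    refine (expI_lip _ _).trans ?_
    have a : Real.log N ≤ Real.log u := Real.log_le_log hN hu.1.le
    have b : Real.log u ≤ Real.log N + lam := by
      refine (Real.log_le_log (hN.trans hu.1) hu.2).trans ?_
      rw [cc, Real.log_mul hN.ne' (Real.exp_pos _).ne', Real.log_exp]; simp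
    rw [← mul_sub, abs_mul, abs_of_nonneg (sub_nonneg.2 a)]
    nlinarith [abs_nonneg t]
  rw [intervalIntegral.integral_sub (iint_E t measurable_id' _ _) (by simp),
    intervalIntegral.integral_const, abs_of_nonneg (sub_nonneg.2 hc)] at h1
  have h2 := norm_sub_norm_le ((cc N lam 1 - N) • E t N) (Om N lam t)
  rw [norm_sub_rev, norm_smul, norm_E, Real.norm_eq_abs, abs_of_nonneg (sub_nonneg.2 hc)] at h2
  have h3 : N * lam ≤ cc N lam 1 - N := by
    have := Real.add_one_le_exp lam
    simp only [cc, Nat.cast_one, mul_one]; nlinarith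
  unfold Om at *
  linarith

theorem div_close {a b P : ℕ} (hP : 0 < P) (h : a / P = b / P) : |(a:ℝ) - b| ≤ P := by
  have h1 := Nat.div_add_mod a P
  have h2 := Nat.div_add_mod b P
  have h3 := Nat.mod_lt a hP
  have h4 := Nat.mod_lt b hP
  rw [h] at h1
  have : a ≤ b + P ∧ b ≤ a + P := by omega
  have h5 : (a:ℝ) ≤ b + P := by exact_mod_cast this.1
  have h6 : (b:ℝ) ≤ a + P := by exact_mod_cast this.2
  rw [abs_le]; constructor <;> linarith

variable {Q P : ℕ} {σ : ℕ → ℕ}

theorem cells (hN : 2 ≤ N) (hl : 0 < lam) (hQ : lam * Q ≤ 1 / 2) (hδ : N * lam * P ≤ 1 / 8)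
    (hP : 0 < P) (hσ : ∀ k < Q, σ k / P = k / P) (g : ℕ → ℂ) (hg : ∀ k, ‖g k‖ ≤ 1) (t : ℝ)
    (K : ℕ) (hK : K ≤ Q) :
    ‖(∫ u in N..cc N lam K, g (idx N lam u) * E t (FF N lam Q σ u)) -
      Om N lam t * ∑ k ∈ range K, g k * exp ((lam + I * t * lam) * σ k)‖ ≤ 1 := by
  have hN0 : 0 < N := by linarith
  have hP1 : (1:ℝ) ≤ P := by exact_mod_cast hP
  have hlP : lam * P ≤ 1 / 16 := by nlinarith [mul_pos hl (zero_lt_one.trans_le hP1)]
  have hl1 : lam ≤ 1 := by nlinarith
  have hm : Measurable fun u => g (idx N lam u) * E t (FF N lam Q σ u) :=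
    ((Measurable.of_discrete (f := g)).comp meas_idx).mul (meas_E t (meas_FF Q σ))
  have := intervalIntegral.sum_integral_adjacent_intervals (μ := volume) (a := cc N lam) (n := K)
    (fun k _ => iint hm 1 (fun u => by rw [norm_mul, norm_E, mul_one]; exact hg _) _ _)
  rw [show cc N lam 0 = N by simp [cc]] at this
  rw [← this, Finset.mul_sum, ← Finset.sum_sub_distrib]
  have hO := Om_le hN0 hl hl1 t
  calc _ ≤ ∑ _k ∈ range K, (2 * N * lam) * (2 * (2 * (lam * P))) := by
        refine (norm_sum_le _ _).trans (Finset.sum_le_sum fun k hk => ?_)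
        have hk : k < Q := (mem_range.1 hk).trans_le hK
        rw [intervalIntegral.integral_congr_Ioo_of_le (cc_mono hN0 hl (Nat.le_succ k))
          (g := fun u => g k * exp (I * t * (lam * (σ k - k) : ℝ)) * E t u) fun u hu => ?_]
        · rw [intervalIntegral.integral_const_mul, cell_E hN0 hl]
          have e : g k * exp (I * t * (lam * (σ k - k) : ℝ)) * (exp ((lam + I * t * lam) * k) * Om N lam t) -
              Om N lam t * (g k * exp ((lam + I * t * lam) * σ k)) = Om N lam t * (g k *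
              exp (I * (t * lam * σ k : ℝ)) * (Real.exp (lam * k) * (1 - Real.exp (lam * (σ k - k))) : ℝ)) := by
            have a1 : exp (I * t * (lam * (σ k - k) : ℝ)) * exp ((lam + I * t * lam) * k) =
                exp (I * (t * lam * σ k : ℝ)) * exp (lam * k) := by
              rw [← Complex.exp_add, ← Complex.exp_add]; congr 1; push_cast; ring
            have a2 : exp ((lam + I * t * lam) * σ k) =
                exp (I * (t * lam * σ k : ℝ)) * exp (lam * k) * exp (lam * (σ k - k)) := by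
              rw [← Complex.exp_add, ← Complex.exp_add]; congr 1; push_cast; ring
            rw [a2]; push_cast at a1 ⊢
            linear_combination (g k * Om N lam t) * a1
          rw [e, norm_mul, norm_mul, norm_mul, mul_comm I, Complex.norm_exp_ofReal_mul_I, mul_one,
            Complex.norm_real, norm_mul, Real.norm_eq_abs, Real.norm_eq_abs, abs_of_pos (Real.exp_pos _),
            abs_sub_comm]
          have b1 : |lam * ((σ k : ℝ) - k)| ≤ lam * P := by
            rw [abs_mul, abs_of_pos hl]; gcongr; exact div_close hP (hσ k hk)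
          have b2 := Real.abs_exp_sub_one_le (b1.trans (by linarith))
          have b3 : Real.exp (lam * k) ≤ 2 := by
            have := cc_le hN0 hl hQ hk.le
            unfold cc at this; nlinarith
          calc _ ≤ (2 * N * lam) * (1 * (2 * (2 * (lam * P)))) := by
                gcongr
                · exact hg k
                · linarith
            _ = _ := by ring
        · have hi := idx_eq hN0 hl hu.1.le hu.2
          simp only [FF, hi, if_pos hk]
          rw [E_mul t (hN0.trans_le ((cc_ge hN0 hl k).trans hu.1.le))]; ring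
    _ = 8 * (lam * K) * (N * lam * P) := by simp; ring
    _ ≤ 8 * (1 / 2) * (1 / 8) := by
        have : (K:ℝ) ≤ Q := by exact_mod_cast hK
        gcongr
        nlinarith
    _ ≤ 1 := by norm_num

theorem FF_close (hN : 2 ≤ N) (hl : 0 < lam) (hQ : lam * Q ≤ 1 / 2) (hδ : N * lam * P ≤ 1 / 8)
    (hP : 0 < P) (hσ : ∀ k < Q, σ k / P = k / P) {u : ℝ} (hu : N ≤ u) :
    |FF N lam Q σ u - u| ≤ 1 / 2 := by
  have hN0 : 0 < N := by linarith
  have hP1 : (1:ℝ) ≤ P := by exact_mod_cast hP
  have hlP : lam * P ≤ 1 / 16 := by nlinarith [mul_pos hl (zero_lt_one.trans_le hP1)]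
  unfold FF
  split_ifs with h
  · have hu2 : u ≤ 2 * N :=
      (not_le.1 ((le_idx hN0 hl hu Q).not.1 (not_le.2 h))).le.trans (cc_le hN0 hl hQ le_rfl)
    have b1 : |lam * ((σ (idx N lam u) : ℝ) - idx N lam u)| ≤ lam * P := by
      rw [abs_mul, abs_of_pos hl]; gcongr; exact div_close hP (hσ _ h)
    have b2 := Real.abs_exp_sub_one_le (b1.trans (by linarith))
    rw [← mul_sub_one, abs_mul, abs_of_pos (by linarith)]
    calc _ ≤ (2 * N) * (2 * (lam * P)) := by gcongr; linarith
      _ ≤ _ := by nlinarith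
  · simp

theorem cell_LH (hN : 2 ≤ N) (hl : 0 < lam) (hQ : lam * Q ≤ 1 / 2) (hδ : N * lam * P ≤ 1 / 8)
    (hP : 0 < P) (hd : P ∣ Q) (hσ : ∀ k < Q, σ k / P = k / P) (B : ℝ)
    (hB : ∀ K ≤ Q, ∀ s : ℂ, 0 ≤ s.re → s.re * Q ≤ 1 →
      ‖∑ k ∈ range Q, (if σ k < K then exp (s * σ k) else 0) - ∑ k ∈ range K, exp (s * k)‖ ≤ B)
    (M : ℝ) (hM : N ≤ M) (t : ℝ) :
    ‖(∫ u in N..M, E t (FF N lam Q σ u)) - ∫ u in N..M, E t u‖ ≤ 3 + 2 * N * lam * B := by
  have hN0 : 0 < N := by linarith
  have hP1 : (1:ℝ) ≤ P := by exact_mod_cast hP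
  have hlP : lam * P ≤ 1 / 16 := by nlinarith [mul_pos hl (zero_lt_one.trans_le hP1)]
  have hl1 : lam ≤ 1 := by nlinarith
  obtain ⟨K, hK, hK2, hK3⟩ : ∃ K ≤ Q, P ∣ K ∧
      ‖∫ u in cc N lam K..M, (E t (FF N lam Q σ u) - E t u)‖ ≤ 1 := by
    rcases le_or_gt Q (idx N lam M) with h | h
    · refine ⟨Q, le_rfl, hd, ?_⟩
      have h' := (le_idx hN0 hl hM Q).1 h
      rw [intervalIntegral.integral_congr (g := fun _ => 0) fun u hu => ?_]
      · simp
      · rw [Set.uIcc_of_le h'] at hu
        have := (le_idx hN0 hl ((cc_ge hN0 hl Q).trans hu.1) Q).2 hu.1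
        simp [FF, not_lt.2 this]
    · have a1 := Nat.div_add_mod (idx N lam M) P
      have a2 := Nat.mod_lt (idx N lam M) hP
      set K := P * (idx N lam M / P) with hK
      refine ⟨K, by omega, Dvd.intro _ rfl, ?_⟩
      have b1 := (le_idx hN0 hl hM K).1 (by omega)
      have b2 := not_le.1 ((le_idx hN0 hl hM (K + P)).not.1 (by omega))
      have b3 := cc_le hN0 hl hQ (show K ≤ Q by omega)
      have b4 : cc N lam (K + P) = cc N lam K * Real.exp (lam * P) := by
        simp only [cc]; push_cast; rw [mul_add, Real.exp_add]; ring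
      have h0 : 0 ≤ lam * P := by positivity
      have b5 := Real.abs_exp_sub_one_le (x := lam * P) (by rw [abs_of_nonneg h0]; linarith)
      rw [abs_of_nonneg h0] at b5
      have b6 := (abs_le.1 b5).2
      have b7 := cc_ge hN0 hl K
      refine (intervalIntegral.norm_integral_le_of_norm_le_const (C := 2) fun u _ =>
        (norm_sub_le _ _).trans (by rw [norm_E, norm_E]; norm_num)).trans ?_
      rw [abs_of_nonneg (sub_nonneg.2 b1)]
      have : cc N lam K * (Real.exp (lam * P) - 1) ≤ (2 * N) * (2 * (lam * P)) := by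
        gcongr
        linarith [Real.one_le_exp h0]
      nlinarith
  have c1 := cells hN hl hQ hδ hP hσ (fun _ => 1) (by simp) t K hK
  have c2 := cells (σ := id) hN hl hQ hδ hP (fun _ _ => rfl) (fun _ => 1) (by simp) t K hK
  have c3 := hB K hK (lam + I * t * lam) (by simpa using hl.le) (by simp; linarith)
  have e : ∑ k ∈ range Q, (if σ k < K then exp ((lam + I * t * lam) * σ k) else 0) =
      ∑ k ∈ range K, exp ((lam + I * t * lam) * σ k) := by
    rw [← Finset.sum_filter]
    congr 1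
    ext k
    simp only [mem_filter, mem_range]
    obtain ⟨c, rfl⟩ := hK2
    constructor
    · rintro ⟨a, b⟩
      rw [mul_comm, ← Nat.div_lt_iff_lt_mul hP] at b ⊢
      rwa [← hσ k a]
    · intro a
      refine ⟨by omega, ?_⟩
      have := hσ k (by omega)
      rw [mul_comm, ← Nat.div_lt_iff_lt_mul hP] at a ⊢
      rwa [this]
  rw [e] at c3
  have i1 := iint_E t (meas_FF (N := N) (lam := lam) Q σ)
  have i2 := iint_E t measurable_id
  simp only [id, one_mul, FF, sub_self, ite_self, mul_zero, Real.exp_zero, mul_one] at c2 i2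
  simp only [one_mul] at c1
  rw [intervalIntegral.integral_sub (i1 _ _) (i2 _ _)] at hK3
  rw [← intervalIntegral.integral_add_adjacent_intervals (i1 N (cc N lam K)) (i1 _ _),
    ← intervalIntegral.integral_add_adjacent_intervals (i2 N (cc N lam K)) (i2 _ _)]
  have c4 : ‖Om N lam t * ∑ k ∈ range K, exp ((lam + I * t * lam) * σ k) -
      Om N lam t * ∑ k ∈ range K, exp ((lam + I * t * lam) * k)‖ ≤ 2 * N * lam * B := by
    rw [← mul_sub, norm_mul]
    exact mul_le_mul (Om_le hN0 hl hl1 t) c3 (norm_nonneg _) (by positivity)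
  generalize Om N lam t * ∑ k ∈ range K, exp ((lam + I * t * lam) * σ k) = a at *
  generalize Om N lam t * ∑ k ∈ range K, exp ((lam + I * t * lam) * k) = b at *
  generalize ∫ u in N..cc N lam K, E t (FF N lam Q σ u) = c at *
  generalize ∫ u in N..cc N lam K, E t u = d at *
  generalize ∫ u in cc N lam K..M, E t (FF N lam Q σ u) = e at *
  generalize ∫ u in cc N lam K..M, E t u = f at *
  calc _ = ‖((c - a) - (d - b)) + (a - b) + (e - f)‖ := by congr 1; ring
    _ ≤ (1 + 1) + 2 * N * lam * B + 1 := norm_add₃_le.trans (by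
        gcongr
        exact (norm_sub_le _ _).trans (add_le_add c1 c2))
    _ = _ := by ring

theorem cell_LV (hN : 2 ≤ N) (hl : 0 < lam) (hQ : lam * Q ≤ 1 / 2) (hδ : N * lam * P ≤ 1 / 8)
    (hP : 0 < P) (hσ : ∀ k < Q, σ k / P = k / P) (b : ℕ → ℂ) (hb : ∀ k, ‖b k‖ ≤ 1) (t B : ℝ)
    (ht : |t| * lam ≤ 1 / 2) (hB0 : 0 ≤ B)
    (hB : B ≤ ‖∑ k ∈ range Q, b k * exp ((lam + I * t * lam) * σ k)‖) :
    N * lam / 2 * B - 1 ≤ ‖∫ u in N..2 * N,
      (if idx N lam u < Q then b (idx N lam u) else 0) * E t (FF N lam Q σ u)‖ := by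
  have hN0 : 0 < N := by linarith
  let g : ℕ → ℂ := fun k => if k < Q then b k else 0
  have hg : ∀ k, ‖g k‖ ≤ 1 := fun k => by
    simp only [g]; split_ifs
    · exact hb k
    · simp
  have c1 := cells hN hl hQ hδ hP hσ g hg t Q le_rfl
  have hm : Measurable fun u => g (idx N lam u) * E t (FF N lam Q σ u) :=
    ((Measurable.of_discrete (f := g)).comp meas_idx).mul (meas_E t (meas_FF Q σ))
  have i1 := iint hm 1 (fun u => by rw [norm_mul, norm_E, mul_one]; exact hg _)
  have z : ∫ u in cc N lam Q..2 * N, g (idx N lam u) * E t (FF N lam Q σ u) = 0 := by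
    rw [intervalIntegral.integral_congr (g := fun _ => 0) fun u hu => ?_]
    · simp
    · rw [Set.uIcc_of_le (cc_le hN0 hl hQ le_rfl)] at hu
      have := (le_idx hN0 hl ((cc_ge hN0 hl Q).trans hu.1) Q).2 hu.1
      simp [g, not_lt.2 this]
  change _ ≤ ‖∫ u in N..2 * N, g (idx N lam u) * E t (FF N lam Q σ u)‖
  rw [← intervalIntegral.integral_add_adjacent_intervals (i1 N (cc N lam Q)) (i1 _ _), z, add_zero]
  rw [Finset.sum_congr rfl (g := fun k => b k * exp ((lam + I * t * lam) * σ k))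
    fun k hk => by simp only [g, if_pos (mem_range.1 hk)]] at c1
  have c2 := norm_sub_norm_le (Om N lam t * ∑ k ∈ range Q, b k * exp ((lam + I * t * lam) * σ k))
    (∫ u in N..cc N lam Q, g (idx N lam u) * E t (FF N lam Q σ u))
  rw [norm_sub_rev, norm_mul] at c2
  have := mul_le_mul (Om_ge hN0 hl t ht) hB hB0 (norm_nonneg _)
  linarith

end Pool.Agent.Lib.MP_a93a41_nt.Bar
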