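import Pool.Agent.Lib.MP_a93a41_nt.Bar5

open Finset Complex MeasureTheory

namespace Pool.Agent.Lib.MP_a93a41_nt.Bar

theorem exists_nonpos {f : ℝ → ℝ} (a : ℝ) (hf : IntervalIntegrable f volume a (a + 1))
    (h : ∫ u in a..a + 1, f u = 0) : ∃ u, a ≤ u ∧ u ≤ a + 1 ∧ f u ≤ 0 := by
  obtain ⟨u, hu, h'⟩ := exists_le_setAverage (μ := volume) (s := Set.Ioc a (a + 1)) (by simp) (by simp) hf.1
  rw [setAverage_eq, ← intervalIntegral.integral_of_le (by linarith), h, smul_zero] at h'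
  exact ⟨u, hu.1.le, hu.2, h'⟩

theorem select_real {ι : Type} (J : Finset ι) (g : ι → ℕ → ℝ → ℝ) (hm : ∀ j n, Measurable (g j n))
    (hb : ∀ j n u, |g j n u| ≤ 2) (hz : ∀ j n, ∫ u in (n:ℝ)..n + 1, g j n u = 0) (lam : ℝ)
    (h0 : 0 ≤ lam) (h1 : lam ≤ 1 / 2) (S : Finset ℕ) :
    ∃ U : ℕ → ℝ, (∀ n : ℕ, (n:ℝ) ≤ U n ∧ U n ≤ n + 1) ∧
      ∑ j ∈ J, Real.exp (lam * ∑ n ∈ S, g j n (U n)) ≤ #J * Real.exp (4 * lam ^ 2 * #S) := by
  induction S using Finset.induction_on with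
  | empty => exact ⟨fun n => n, fun n => ⟨le_rfl, by linarith⟩, by simp⟩
  | insert a S ha ih =>
    obtain ⟨U, hU, h⟩ := ih
    set w : ι → ℝ := fun j => Real.exp (lam * ∑ n ∈ S, g j n (U n)) with hw
    have hi : ∀ j, IntervalIntegrable (fun u => w j * g j a u) volume a (a + 1) := fun j =>
      (iint (hm j a) 2 (hb j a) _ _).const_mul _
    obtain ⟨u, u1, u2, u3⟩ := exists_nonpos (f := fun u => ∑ j ∈ J, w j * g j a u) a
      (by simpa only [Finset.sum_fn] using IntervalIntegrable.sum J fun j _ => hi j) (by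
        rw [intervalIntegral.integral_finsetSum fun j _ => hi j]
        simp [hz])
    refine ⟨Function.update U a u, fun n => ?_, ?_⟩
    · rcases eq_or_ne n a with rfl | hn
      · simp [u1, u2]
      · simp [hn, hU n]
    · have e : ∀ j, ∑ n ∈ insert a S, g j n (Function.update U a u n) =
          g j a u + ∑ n ∈ S, g j n (U n) := by
        intro j
        rw [sum_insert ha, Function.update_self]
        congr 1
        exact Finset.sum_congr rfl fun n hn => by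
          rw [Function.update_of_ne (ne_of_mem_of_not_mem hn ha)]
      simp only [e, mul_add, Real.exp_add, card_insert_of_notMem ha, Nat.cast_add, Nat.cast_one, mul_one]
      calc _ ≤ ∑ j ∈ J, ((1 + 4 * lam ^ 2) * w j + lam * (w j * g j a u)) := by
            refine Finset.sum_le_sum fun j _ => ?_
            have b := hb j a u
            have b1 : |lam * g j a u| ≤ 1 := by
              rw [abs_mul, abs_of_nonneg h0]; nlinarith [abs_nonneg (g j a u)]
            have b2 := (abs_le.1 (Real.abs_exp_sub_one_sub_id_le b1)).2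
            have b3 : (g j a u) ^ 2 ≤ 2 ^ 2 := by rw [← sq_abs]; gcongr
            have b4 : Real.exp (lam * g j a u) ≤ 1 + 4 * lam ^ 2 + lam * g j a u := by nlinarith
            have : 0 ≤ w j := (Real.exp_pos _).le
            calc _ ≤ (1 + 4 * lam ^ 2 + lam * g j a u) * w j := by gcongr
              _ = _ := by ring
        _ = (1 + 4 * lam ^ 2) * ∑ j ∈ J, w j + lam * ∑ j ∈ J, w j * g j a u := by
            rw [Finset.sum_add_distrib, Finset.mul_sum, Finset.mul_sum]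
        _ ≤ Real.exp (4 * lam ^ 2) * (#J * Real.exp (4 * lam ^ 2 * #S)) + 0 := by
            gcongr
            · linarith [Real.add_one_le_exp (4 * lam ^ 2)]
            · exact mul_nonpos_of_nonneg_of_nonpos h0 u3
        _ = _ := by ring

theorem select {ι : Type} (J : Finset ι) (f : ι → ℕ → ℝ → ℂ) (hm : ∀ j n, Measurable (f j n))
    (hb : ∀ j n u, ‖f j n u‖ ≤ 1) (S : Finset ℕ) (hS : S.Nonempty) :
    ∃ U : ℕ → ℝ, (∀ n : ℕ, (n:ℝ) ≤ U n ∧ U n ≤ n + 1) ∧ ∀ j ∈ J,
      ‖∑ n ∈ S, (f j n (U n) - ∫ u in (n:ℝ)..n + 1, f j n u)‖ ≤ 4 * √(#S) * (1 + Real.log (4 * #J)) := by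
  have hS1 : (1:ℝ) ≤ #S := by exact_mod_cast hS.card_pos
  have hq : 1 ≤ √(#S : ℝ) := Real.one_le_sqrt.2 hS1
  have hI : ∀ j n, ‖∫ u in (n:ℝ)..n + 1, f j n u‖ ≤ 1 := fun j n => by
    simpa using intervalIntegral.norm_integral_le_of_norm_le_const (a := n) (b := n + 1)
      fun u _ => hb j n u
  obtain ⟨U, hU, h⟩ := select_real (J ×ˢ (univ : Finset (Fin 4)))
    (fun j n u => (I ^ (j.2 : ℕ) * (f j.1 n u - ∫ u in (n:ℝ)..n + 1, f j.1 n u)).re)
    (fun j n => by have := hm j.1 n; fun_prop) (fun j n u => by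
      refine (Complex.abs_re_le_norm _).trans ?_
      rw [norm_mul, norm_pow, norm_I, one_pow, one_mul]
      linarith [norm_sub_le (f j.1 n u) (∫ u in (n:ℝ)..n + 1, f j.1 n u), hb j.1 n u, hI j.1 n])
    (fun j n => by
      have i := iint (hm j.1 n) 1 (hb j.1 n) n (n + 1)
      have := intervalIntegral.intervalIntegral_re
        ((i.sub (intervalIntegrable_const (c := ∫ u in (n:ℝ)..n + 1, f j.1 n u))).const_mul (I ^ (j.2 : ℕ)))
      refine this.trans ?_
      rw [intervalIntegral.integral_const_mul, intervalIntegral.integral_sub i (by simp)]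
      simp) (1 / (2 * √(#S))) (by positivity) (by gcongr; linarith) S
  refine ⟨U, hU, fun j hj => ?_⟩
  have hJ : 0 < #J := card_pos.2 ⟨j, hj⟩
  set z := ∑ n ∈ S, (f j n (U n) - ∫ u in (n:ℝ)..n + 1, f j n u) with hz
  have key : ∀ k : Fin 4, (I ^ (k:ℕ) * z).re ≤ 2 * √(#S) * (1 + Real.log (4 * #J)) := by
    intro k
    have := (Finset.single_le_sum (f := fun j : ι × Fin 4 => Real.exp (1 / (2 * √(#S)) * ∑ n ∈ S,
      (I ^ (j.2 : ℕ) * (f j.1 n (U n) - ∫ u in (n:ℝ)..n + 1, f j.1 n u)).re))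
      (fun _ _ => (Real.exp_pos _).le) (mem_product.2 ⟨hj, mem_univ k⟩ : (j, k) ∈ _)).trans h
    simp only [← Complex.re_sum, ← Finset.mul_sum, ← hz, card_product, card_univ, Fintype.card_fin] at this
    have e : 4 * (1 / (2 * √(#S : ℝ))) ^ 2 * #S = 1 := by
      field_simp; rw [Real.sq_sqrt (by positivity)]; norm_num
    rw [e, ← Real.le_log_iff_exp_le (by positivity), Real.log_mul (by positivity) (by positivity),
      Real.log_exp, one_div_mul_eq_div, div_le_iff₀ (by positivity)] at this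
    push_cast at this
    rw [mul_comm (#J : ℝ)] at this
    linarith
  have k0 := key 0
  have k1 := key 1
  have k2 := key 2
  have k3 := key 3
  simp [pow_succ] at k0 k1 k2 k3
  have := Complex.norm_le_abs_re_add_abs_im z
  have a : |z.re| ≤ 2 * √(#S) * (1 + Real.log (4 * #J)) := abs_le.2 ⟨by linarith, by linarith⟩
  have b : |z.im| ≤ 2 * √(#S) * (1 + Real.log (4 * #J)) := abs_le.2 ⟨by linarith, by linarith⟩
  linarith

theorem sum_int {f : ℝ → ℂ} (hi : ∀ a b, IntervalIntegrable f volume a b) {N M : ℕ} (h : N ≤ M) :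
    ∑ n ∈ Ico N M, ∫ u in (n:ℝ)..n + 1, f u = ∫ u in (N:ℝ)..M, f u := by
  simpa using intervalIntegral.sum_integral_adjacent_intervals_Ico (μ := volume) (f := f)
    (a := fun k => (k:ℝ)) h fun k _ => hi _ _

theorem block_sel (m : ℕ) (F : ℝ → ℝ) (A : ℝ → ℂ) (hF : Measurable F) (hA : Measurable A)
    (hF1 : ∀ u, ((2 ^ m : ℕ) : ℝ) ≤ u → u ≤ 2 * (2 ^ m : ℕ) → 1 ≤ F u ∧ F u ≤ 3 * (2 ^ m : ℕ))
    (hA1 : ∀ u, ‖A u‖ ≤ 1) (S : Finset ℝ) (hS : #S ≤ 2 * (2 ^ m) ^ 2) :
    ∃ U : ℕ → ℝ, (∀ n : ℕ, (n:ℝ) ≤ U n ∧ U n ≤ n + 1) ∧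
      (∀ M, 2 ^ m ≤ M → M ≤ 2 * 2 ^ m → ∀ t : ℝ, |t| ≤ ((2 ^ m : ℕ) : ℝ) ^ m →
        ‖∑ n ∈ Ico (2 ^ m) M, E t (F (U n)) - ∫ u in (2 ^ m : ℕ)..M, E t (F u)‖ ≤
          38 * (m + 1) ^ 2 * √(2 ^ m : ℕ)) ∧
      ∀ t ∈ S, ‖∑ n ∈ Ico (2 ^ m) (2 * 2 ^ m), A (U n) * E t (F (U n)) -
        ∫ u in (2 ^ m : ℕ)..(2 * 2 ^ m : ℕ), A u * E t (F u)‖ ≤ 38 * (m + 1) ^ 2 * √(2 ^ m : ℕ) := by
  classical
  set N := 2 ^ m with hN
  have hN1 : 1 ≤ N := Nat.one_le_two_pow
  have hN1' : (1:ℝ) ≤ N := by exact_mod_cast hN1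
  have hq : 1 ≤ √(N : ℝ) := Real.one_le_sqrt.2 hN1'
  let G : Finset ℝ := (Icc (-(N ^ (m + 2) + 1 : ℕ) : ℤ) (N ^ (m + 2) + 1 : ℕ)).image fun j : ℤ => (j:ℝ) / N ^ 2
  let J : Finset (Bool × ℕ × ℝ) := univ ×ˢ Icc N (2 * N) ×ˢ (G ∪ S)
  let f : Bool × ℕ × ℝ → ℕ → ℝ → ℂ := fun j n u =>
    if n < j.2.1 then (if j.1 then A u else 1) * E j.2.2 (F u) else 0
  have m1 : ∀ (c : Bool) t, Measurable fun u => (if c then A u else 1) * E t (F u) := fun c t => by
    refine Measurable.mul ?_ (meas_E t hF)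
    cases c <;> simp [hA]
  have b1 : ∀ (c : Bool) t u, ‖(if c then A u else 1) * E t (F u)‖ ≤ 1 := fun c t u => by
    rw [norm_mul, norm_E, mul_one]
    cases c <;> simp [hA1]
  obtain ⟨U, hU, h⟩ := select J f (fun j n => by
    simp only [f]; split_ifs <;> first | exact m1 true _ | exact m1 false _ | simp)
    (fun j n u => by
      simp only [f]
      by_cases h : n < j.2.1
      · rw [if_pos h]; exact b1 _ _ _
      · simp [h]) (Ico N (2 * N)) ⟨N, by simp; omega⟩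
  have hJ : #J ≤ 2 ^ (5 + m * (m + 3)) := by
    have a : #G ≤ 5 * N ^ (m + 2) := by
      refine Finset.card_image_le.trans ?_
      rw [Int.card_Icc]
      have : 1 ≤ N ^ (m + 2) := Nat.one_le_pow _ _ hN1
      omega
    have a2 : N ^ 2 ≤ N ^ (m + 2) := Nat.pow_le_pow_right hN1 (by omega)
    have a3 := Finset.card_union_le G S
    calc #J = 2 * ((N + 1) * #(G ∪ S)) := by
          simp only [J, card_product, card_univ, Fintype.card_bool, Nat.card_Icc]
          congr 2; omega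
      _ ≤ 2 * ((2 * N) * (8 * N ^ (m + 2))) := by gcongr <;> omega
      _ = _ := by rw [hN, ← pow_mul]; ring
  have key : ∀ (c : Bool) M, N ≤ M → M ≤ 2 * N → ∀ t ∈ G ∪ S,
      ‖∑ n ∈ Ico N M, (if c then A (U n) else 1) * E t (F (U n)) -
        ∫ u in (N:ℝ)..M, (if c then A u else 1) * E t (F u)‖ ≤ 32 * (m + 1) ^ 2 * √N := by
    intro c M h1 h2 t ht
    have hj : (c, M, t) ∈ J := by simp only [J, mem_product, mem_univ, mem_Icc]; tauto
    have := h _ hj
    have e : ∑ n ∈ Ico N (2 * N), (f (c, M, t) n (U n) - ∫ u in (n:ℝ)..n + 1, f (c, M, t) n u) =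
        ∑ n ∈ Ico N M, ((if c then A (U n) else 1) * E t (F (U n)) -
          ∫ u in (n:ℝ)..n + 1, (if c then A u else 1) * E t (F u)) := by
      rw [← Finset.sum_subset (Finset.Ico_subset_Ico_right h2) fun n h3 h4 => ?_]
      · exact Finset.sum_congr rfl fun n hn => by simp only [f, if_pos (mem_Ico.1 hn).2]
      · have : ¬ n < M := by simp only [mem_Ico] at h3 h4; omega
        simp [f, this]
    rw [e, Finset.sum_sub_distrib, sum_int (iint (m1 c t) 1 (b1 c t)) h1] at this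
    refine this.trans ?_
    have hJ0 : (0:ℝ) < #J := by exact_mod_cast card_pos.2 ⟨_, hj⟩
    have hJ' : (4 * #J : ℝ) ≤ 2 ^ (7 + m * (m + 3)) := by
      have : (#J : ℝ) ≤ 2 ^ (5 + m * (m + 3)) := by exact_mod_cast hJ
      calc _ ≤ 4 * (2:ℝ) ^ (5 + m * (m + 3)) := by gcongr
        _ = _ := by ring
    have l1 := Real.log_le_log (by positivity) hJ'
    rw [Real.log_pow] at l1
    have l2 : Real.log 2 ≤ 1 := by linarith [Real.log_two_lt_d9]
    have l3 : Real.log (4 * #J) ≤ 7 + m * (m + 3) := by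
      refine l1.trans ?_
      push_cast
      exact mul_le_of_le_one_right (by positivity) l2
    rw [Nat.card_Ico, show 2 * N - N = N by omega]
    have : 1 + Real.log (4 * #J) ≤ 8 * (m + 1) ^ 2 := by nlinarith [Nat.cast_nonneg (α := ℝ) m]
    calc _ ≤ 4 * √N * (8 * (m + 1) ^ 2) := by gcongr
      _ = _ := by ring
  have hm1 : (1:ℝ) ≤ (m + 1) ^ 2 * √N := by
    have : (1:ℝ) ≤ (m + 1) ^ 2 := by nlinarith [Nat.cast_nonneg (α := ℝ) m]
    nlinarith
  refine ⟨U, hU, fun M h1 h2 t ht => ?_, fun t ht => ?_⟩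
  · set t' : ℝ := ⌊t * N ^ 2⌋ / N ^ 2 with ht'
    have g1 : t' ∈ G := by
      refine mem_image.2 ⟨⌊t * N ^ 2⌋, mem_Icc.2 ?_, rfl⟩
      obtain ⟨a, b⟩ := abs_le.1 ht
      have c : (0:ℝ) < N ^ 2 := by positivity
      constructor
      · rw [Int.le_floor]; push_cast; rw [pow_add]; nlinarith
      · rw [Int.floor_le_iff]; push_cast; rw [pow_add]; nlinarith
    have g2 : |t - t'| ≤ 1 / N ^ 2 := by
      have : t - t' = (t * N ^ 2 - ⌊t * N ^ 2⌋) / N ^ 2 := by rw [ht']; field_simp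
      rw [this, abs_div, abs_of_pos (show (0:ℝ) < N ^ 2 by positivity)]
      gcongr
      rw [abs_le]; constructor <;> linarith [Int.floor_le (t * N ^ 2), Int.lt_floor_add_one (t * N ^ 2)]
    have g3 : ∀ u : ℝ, N ≤ u → u ≤ 2 * N → ‖E t (F u) - E t' (F u)‖ ≤ 3 / N := by
      intro u u1 u2
      obtain ⟨a, b⟩ := hF1 u u1 u2
      refine (expI_lip _ _).trans ?_
      have c := Real.log_nonneg a
      have d := Real.log_le_self (x := F u) (by linarith)
      rw [← sub_mul, abs_mul, abs_of_nonneg c]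
      calc _ ≤ 1 / N ^ 2 * (3 * N : ℝ) := by gcongr; linarith
        _ = _ := by field_simp
    have k := key false M h1 h2 t' (mem_union_left _ g1)
    simp only [Bool.false_eq_true, if_false, one_mul] at k
    have M1 : (N:ℝ) ≤ M := by exact_mod_cast h1
    have M2 : (M:ℝ) ≤ 2 * N := by exact_mod_cast h2
    have s1 : ‖∑ n ∈ Ico N M, (E t (F (U n)) - E t' (F (U n)))‖ ≤ 3 := by
      refine (norm_sum_le_of_le _ (n := fun _ => 3 / (N:ℝ)) fun n hn => ?_).trans ?_
      · obtain ⟨a, b⟩ := mem_Ico.1 hn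
        have a' : (N:ℝ) ≤ n := by exact_mod_cast a
        have b' : (n:ℝ) + 1 ≤ M := by exact_mod_cast b
        exact g3 _ (by linarith [(hU n).1]) (by linarith [(hU n).2])
      · rw [sum_const, Nat.card_Ico, nsmul_eq_mul, Nat.cast_sub h1, mul_div_assoc', div_le_iff₀ (by positivity)]
        linarith
    have s2 : ‖∫ u in (N:ℝ)..M, (E t (F u) - E t' (F u))‖ ≤ 3 := by
      refine (intervalIntegral.norm_integral_le_of_norm_le_const (C := 3 / N) fun u hu => ?_).trans ?_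
      · rw [Set.uIoc_of_le M1] at hu
        exact g3 u hu.1.le (hu.2.trans M2)
      · rw [abs_of_nonneg (by linarith), div_mul_eq_mul_div, div_le_iff₀ (by positivity)]
        linarith
    rw [Finset.sum_sub_distrib] at s1
    rw [intervalIntegral.integral_sub (iint_E t hF _ _) (iint_E t' hF _ _)] at s2
    generalize ∑ n ∈ Ico N M, E t (F (U n)) = a at *
    generalize ∑ n ∈ Ico N M, E t' (F (U n)) = b at *
    generalize ∫ u in (N:ℝ)..M, E t (F u) = c at *
    generalize ∫ u in (N:ℝ)..M, E t' (F u) = d at *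
    calc _ = ‖(b - d) + ((a - b) - (c - d))‖ := by congr 1; ring
      _ ≤ 32 * (m + 1) ^ 2 * √N + (3 + 3) := (norm_add_le _ _).trans (by
          gcongr
          exact (norm_sub_le _ _).trans (add_le_add s1 s2))
      _ ≤ _ := by linarith
  · have k := key true (2 * N) (by omega) le_rfl t (mem_union_right _ ht)
    simp only [if_true] at k
    linarith

end Pool.Agent.Lib.MP_a93a41_nt.Bar
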