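import Pool.Agent.Lib.MP_a93a41_nt.Bar6

open Finset Complex MeasureTheory Filter

namespace Pool.Agent.Lib.MP_a93a41_nt.Bar

def Near (m : ℕ) (z : ℕ → ℝ) : Prop :=
  ∀ n, 2 ^ m ≤ n → n < 2 * 2 ^ m → 1 ≤ z n ∧ |z n - n| ≤ 2

def Good (m : ℕ) (z : ℕ → ℝ) (B : ℝ) : Prop :=
  ∀ M, 2 ^ m ≤ M → M ≤ 2 * 2 ^ m → ∀ t : ℝ, |t| ≤ ((2 ^ m : ℕ) : ℝ) ^ m →
    ‖∑ n ∈ Ico (2 ^ m) M, E t (z n) - ∫ u in (2 ^ m : ℕ)..M, E t u‖ ≤ B

theorem poly_le (c : ℝ) (k : ℕ) {ε : ℝ} (hε : 0 < ε) :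
    ∃ m1 : ℕ, ∀ m ≥ m1, (c * (m + 3)) ^ k ≤ ((2 ^ m : ℕ) : ℝ) ^ ε := by
  have hr : (1:ℝ) < 2 ^ ε := Real.one_lt_rpow (by norm_num) hε
  have h := (tendsto_pow_const_div_const_pow_of_one_lt k hr).const_mul ((2 * |c|) ^ k)
  rw [mul_zero] at h
  obtain ⟨m1, hm⟩ := eventually_atTop.1 (h.eventually_le_const zero_lt_one)
  refine ⟨max m1 3, fun m h => ?_⟩
  have h1 := hm m (le_of_max_le_left h)
  have h3 : (3:ℝ) ≤ m := by exact_mod_cast le_of_max_le_right h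
  rw [← mul_div_assoc, div_le_one (by positivity), ← mul_pow] at h1
  have e : ((2 ^ m : ℕ) : ℝ) ^ ε = (2 ^ ε) ^ m := by
    push_cast
    rw [← Real.rpow_natCast, ← Real.rpow_natCast, ← Real.rpow_mul (by norm_num),
      ← Real.rpow_mul (by norm_num), mul_comm]
  rw [e]
  refine le_trans ((le_abs_self _).trans ?_) h1
  rw [abs_pow, abs_mul, abs_of_nonneg (show (0:ℝ) ≤ m + 3 by positivity)]
  refine pow_le_pow_left₀ (by positivity) ?_ _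
  nlinarith [abs_nonneg c]

theorem plain (m : ℕ) : ∃ z, Near m z ∧ Good m z (38 * (m + 1) ^ 2 * √(2 ^ m : ℕ)) := by
  have h1 : (1:ℝ) ≤ (2 ^ m : ℕ) := by exact_mod_cast Nat.one_le_two_pow
  obtain ⟨U, hU, h, -⟩ := block_sel m id (fun _ => 0) measurable_id measurable_const
    (fun u a b => ⟨by simp only [id]; linarith, by simp only [id]; linarith⟩) (by simp) ∅ (by simp)
  refine ⟨U, fun n a b => ?_, h⟩
  have : ((2 ^ m : ℕ) : ℝ) ≤ n := by exact_mod_cast a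
  obtain ⟨c, d⟩ := hU n
  exact ⟨by linarith, abs_le.2 ⟨by linarith, by linarith⟩⟩

theorem triv (m : ℕ) (z : ℕ → ℝ) (M : ℕ) (h1 : 2 ^ m ≤ M) (h2 : M ≤ 2 * 2 ^ m) (t : ℝ) :
    ‖∑ n ∈ Ico (2 ^ m) M, E t (z n) - ∫ u in (2 ^ m : ℕ)..M, E t u‖ ≤ 2 * (2 ^ m : ℕ) := by
  have M1 : ((2 ^ m : ℕ) : ℝ) ≤ M := by exact_mod_cast h1
  have M2 : (M:ℝ) ≤ 2 * (2 ^ m : ℕ) := by exact_mod_cast h2
  refine (norm_sub_le _ _).trans ?_
  have a : ‖∑ n ∈ Ico (2 ^ m) M, E t (z n)‖ ≤ (2 ^ m : ℕ) := by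
    refine (norm_sum_le _ _).trans ?_
    simp only [norm_E, sum_const, Nat.card_Ico, nsmul_eq_mul, mul_one, Nat.cast_sub h1]
    linarith
  have b := intervalIntegral.norm_integral_le_of_norm_le_const (a := (2 ^ m : ℕ)) (b := M)
    fun u _ => (norm_E t u).le
  rw [abs_of_nonneg (by linarith)] at b
  linarith

theorem LH_of (Z : ℕ → ℕ → ℝ) 
    (h : ∀ ε : ℝ, 0 < ε → ∃ m1, ∀ m ≥ m1, Good m (Z m) (((2 ^ m : ℕ) : ℝ) ^ (1 / 2 + ε)))
    (ε : ℝ) (hε : 0 < ε) : ∃ C : ℝ, ∀ (M : ℕ) (t : ℝ), 1 ≤ M →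
      ‖∑ n ∈ Icc 1 M, E t (Z (Nat.log 2 n) n) - ∫ u in (1:ℝ)..M + 1, E t u‖ ≤
        C * (M:ℝ) ^ (1 / 2 + ε) * (1 + |t|) ^ ε := by
  obtain ⟨m1, hm1⟩ := h ε hε
  obtain ⟨m2, hm2⟩ := exists_nat_ge (1 / ε)
  set C : ℝ := 2 * (2 ^ max m1 m2 : ℕ) with hC
  have hC1 : 2 ≤ C := by
    have : (1:ℝ) ≤ (2 ^ max m1 m2 : ℕ) := by exact_mod_cast Nat.one_le_two_pow
    linarith
  refine ⟨4 * C, fun M t hM => ?_⟩
  have ht : 1 ≤ (1 + |t|) ^ ε := Real.one_le_rpow (by linarith [abs_nonneg t]) hε.le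
  set y := (1 + |t|) ^ ε with hy
  have key : ∀ m M, 2 ^ m ≤ M → M ≤ 2 * 2 ^ m →
      ‖∑ n ∈ Ico (2 ^ m) M, E t (Z (Nat.log 2 n) n) - ∫ u in (2 ^ m : ℕ)..M, E t u‖ ≤
        C * ((2 ^ m : ℕ) : ℝ) ^ (1 / 2 + ε) * y := by
    intro m M h1 h2
    rw [Finset.sum_congr rfl (g := fun n => E t (Z m n)) fun n hn => by
      rw [Nat.log_eq_of_pow_le_of_lt_pow (mem_Ico.1 hn).1 (by have := (mem_Ico.1 hn).2; omega)]]
    have N1 : (1:ℝ) ≤ (2 ^ m : ℕ) := by exact_mod_cast Nat.one_le_two_pow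
    have N2 : 1 ≤ ((2 ^ m : ℕ) : ℝ) ^ (1 / 2 + ε) := Real.one_le_rpow N1 (by positivity)
    rcases le_or_gt (max m1 m2) m with hm | hm
    · rcases le_or_gt |t| (((2 ^ m : ℕ) : ℝ) ^ m) with h3 | h3
      · refine (hm1 m (le_of_max_le_left hm) M h1 h2 t h3).trans ?_
        calc _ = 1 * ((2 ^ m : ℕ) : ℝ) ^ (1 / 2 + ε) * 1 := by ring
          _ ≤ _ := by gcongr; linarith
      · refine (triv m _ M h1 h2 t).trans ?_
        have : ((2 ^ m : ℕ) : ℝ) ≤ y := by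
          have m3 : (m2:ℝ) ≤ m := by exact_mod_cast le_of_max_le_right hm
          rw [div_le_iff₀ hε] at hm2
          calc _ = ((2 ^ m : ℕ) : ℝ) ^ (1:ℝ) := by simp
            _ ≤ ((2 ^ m : ℕ) : ℝ) ^ ((m:ℝ) * ε) := by gcongr; nlinarith
            _ = (((2 ^ m : ℕ) : ℝ) ^ m) ^ ε := by rw [Real.rpow_mul (by positivity), Real.rpow_natCast]
            _ ≤ _ := by rw [hy]; gcongr; linarith
        calc _ = 2 * 1 * ((2 ^ m : ℕ) : ℝ) := by ring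
          _ ≤ _ := by gcongr
    · refine (triv m _ M h1 h2 t).trans ?_
      calc _ ≤ C * 1 * 1 := by
            rw [hC, mul_one, mul_one]; gcongr
            · norm_num
        _ ≤ _ := by gcongr
  have i1 := iint_E t measurable_id'
  have ind : ∀ m, ‖∑ n ∈ Ico 1 (2 ^ m), E t (Z (Nat.log 2 n) n) - ∫ u in (1:ℝ)..(2 ^ m : ℕ), E t u‖ ≤
      3 * (C * ((2 ^ m : ℕ) : ℝ) ^ (1 / 2 + ε) * y) := by
    intro m
    induction m with
    | zero => simp; positivity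
    | succ m ih =>
      have hp : 0 < 2 ^ m := by positivity
      have k := key m (2 ^ (m + 1)) (by omega) (by omega)
      rw [← Finset.sum_Ico_consecutive _ Nat.one_le_two_pow (show 2 ^ m ≤ 2 ^ (m + 1) by omega),
        ← intervalIntegral.integral_add_adjacent_intervals (i1 1 (2 ^ m : ℕ)) (i1 _ _), add_sub_add_comm]
      refine (norm_add_le _ _).trans ((add_le_add ih k).trans ?_)
      have e : ((2 ^ (m + 1) : ℕ) : ℝ) ^ (1 / 2 + ε) = ((2 ^ m : ℕ) : ℝ) ^ (1 / 2 + ε) * 2 ^ (1 / 2 + ε) := by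
        rw [← Real.mul_rpow (by positivity) (by norm_num)]; push_cast; rw [pow_succ]
      have e2 : (4 / 3 : ℝ) ≤ 2 ^ (1 / 2 + ε) := by
        calc (4 / 3 : ℝ) ≤ √2 := Real.le_sqrt_of_sq_le (by norm_num)
          _ = 2 ^ (1 / 2 : ℝ) := Real.sqrt_eq_rpow 2
          _ ≤ _ := by gcongr <;> linarith
      rw [e]
      have : 0 ≤ C * ((2 ^ m : ℕ) : ℝ) ^ (1 / 2 + ε) * y := by positivity
      nlinarith
  have a := Nat.pow_log_le_self 2 (show M ≠ 0 by omega)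
  have b : M < 2 ^ (Nat.log 2 M + 1) := Nat.lt_pow_succ_log_self one_lt_two M
  have k := key (Nat.log 2 M) (M + 1) (by omega) (by omega)
  rw [← Finset.Ico_add_one_right_eq_Icc, ← Finset.sum_Ico_consecutive _ Nat.one_le_two_pow
    (show 2 ^ Nat.log 2 M ≤ M + 1 by omega),
    ← intervalIntegral.integral_add_adjacent_intervals (i1 1 (2 ^ Nat.log 2 M : ℕ)) (i1 _ _), add_sub_add_comm]
  rw [Nat.cast_add, Nat.cast_one] at k
  refine (norm_add_le _ _).trans ((add_le_add (ind _) k).trans ?_)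
  have : ((2 ^ Nat.log 2 M : ℕ) : ℝ) ≤ M := by exact_mod_cast a
  calc _ = 4 * C * ((2 ^ Nat.log 2 M : ℕ) : ℝ) ^ (1 / 2 + ε) * y := by ring
    _ ≤ _ := by gcongr

theorem glue (P : ℕ → ℕ → (ℕ → ℝ) → Prop) (hP : ∀ i m0 : ℕ, ∃ m ≥ m0, ∃ z, Near m z ∧
    Good m z (((2 ^ m : ℕ) : ℝ) ^ (1 / 2 + 1 / (i + 1 : ℝ))) ∧ P i m z) :
    ∃ x : ℕ → ℝ, (∀ n, 1 ≤ n → 1 ≤ x n ∧ |x n - n| ≤ 2) ∧
      (∀ ε : ℝ, 0 < ε → ∃ C : ℝ, ∀ (M : ℕ) (t : ℝ), 1 ≤ M →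
        ‖∑ n ∈ Icc 1 M, E t (x n) - ∫ u in (1:ℝ)..M + 1, E t u‖ ≤
          C * (M:ℝ) ^ (1 / 2 + ε) * (1 + |t|) ^ ε) ∧
      ∀ i, ∃ m ≥ i, ∃ z, P i m z ∧ ∀ n, 2 ^ m ≤ n → n < 2 * 2 ^ m → x n = z n := by
  classical
  choose g hg zs h1 h2 h3 using hP
  choose zp h4 h5 using plain
  let s : ℕ → ℕ := fun i => Nat.rec 0 (fun i s => g i s + 1) i
  have hs : StrictMono fun i => g i (s i) := strictMono_nat_of_lt_succ fun i => hg (i + 1) (g i (s i) + 1)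
  let Z : ℕ → ℕ → ℝ := fun m => if h : ∃ i, g i (s i) = m then zs h.choose (s h.choose) else zp m
  have hZ : ∀ i, Z (g i (s i)) = zs i (s i) := fun i => by
    have h : ∃ j, g j (s j) = g i (s i) := ⟨i, rfl⟩
    simp only [Z, dif_pos h, hs.injective h.choose_spec]
  have hZ' : ∀ m, (∃ i, g i (s i) = m) ∨ Z m = zp m := fun m => by
    by_cases h : ∃ i, g i (s i) = m
    · exact Or.inl h
    · exact Or.inr (dif_neg h)
  refine ⟨fun n => Z (Nat.log 2 n) n, fun n hn => ?_, LH_of Z fun ε hε => ?_, fun i =>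
    ⟨g i (s i), hs.le_apply, _, h3 i (s i), fun n a b => ?_⟩⟩
  · have a := Nat.pow_log_le_self 2 (show n ≠ 0 by omega)
    have b : n < 2 ^ (Nat.log 2 n + 1) := Nat.lt_pow_succ_log_self one_lt_two n
    rcases hZ' (Nat.log 2 n) with ⟨i, hi⟩ | h
    · simp only [← hi, hZ] at a b ⊢
      exact h1 i _ n a (by omega)
    · simp only [h]
      exact h4 _ n a (by omega)
  · obtain ⟨m1, hm1⟩ := poly_le 7 2 hε
    obtain ⟨i0, hi0⟩ := exists_nat_ge (1 / ε)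
    refine ⟨max m1 (g i0 (s i0)), fun m hm M a b t ht => ?_⟩
    have N1 : (1:ℝ) ≤ (2 ^ m : ℕ) := by exact_mod_cast Nat.one_le_two_pow
    rcases hZ' m with ⟨i, rfl⟩ | h
    · rw [hZ]
      refine (h2 i _ M a b t ht).trans ?_
      have : (i0:ℝ) ≤ i := by exact_mod_cast hs.le_iff_le.1 (le_of_max_le_right hm)
      gcongr
      rw [div_le_iff₀ hε] at hi0
      rw [div_le_iff₀ (by positivity)]; nlinarith
    · rw [h]
      refine (h5 m M a b t ht).trans ?_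
      rw [Real.rpow_add (by linarith), ← Real.sqrt_eq_rpow, mul_comm]
      gcongr
      refine le_trans ?_ (hm1 m (le_of_max_le_left hm))
      nlinarith [Nat.cast_nonneg (α := ℝ) m]
  · simp only
    rw [Nat.log_eq_of_pow_le_of_lt_pow a (by omega), hZ]

theorem E_cpow (t : ℝ) {u : ℝ} (hu : 0 < u) : (u:ℂ) ^ ((t:ℂ) * I) = E t u := by
  rw [Complex.cpow_def_of_ne_zero (by exact_mod_cast hu.ne'), E, ← Complex.ofReal_log hu.le]
  congr 1; push_cast; ring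

theorem E_neg (t u : ℝ) : E (-t) u = (starRingEnd ℂ) (E t u) := by
  rw [E, E, ← Complex.exp_conj]; congr 1; simp

end Pool.Agent.Lib.MP_a93a41_nt.Bar
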