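import Pool.Agent.Lib.MP_a93a41_nt.Bar4
import Pool.Agent.Lib.MP_a93a41_nt.Bar7

open Finset Complex MeasureTheory Filter
open scoped Real

namespace Pool.Agent.Lib.MP_a93a41_nt.Bar

theorem transfer (m Q P : ℕ) (σ : ℕ → ℕ) (b : ℕ → ℂ) (R : Finset ℕ) (L B1 B2 : ℝ) (hm : 1 ≤ m)
    (hL : 2 ≤ L) (hQ0 : 0 < Q) (hδ : (2 ^ m : ℕ) * (1 / (L * Q)) * P ≤ 1 / 8) (hP : 0 < P) (hd : P ∣ Q)
    (hQ : Q ≤ (2 ^ m) ^ 2) (hσ : ∀ k < Q, σ k / P = k / P) (hb : ∀ k, ‖b k‖ ≤ 1) (hB2 : 0 ≤ B2)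
    (hB : ∀ K ≤ Q, ∀ s : ℂ, 0 ≤ s.re → s.re * Q ≤ 1 →
      ‖∑ k ∈ range Q, (if σ k < K then exp (s * σ k) else 0) - ∑ k ∈ range K, exp (s * k)‖ ≤ B1)
    (hR : ∀ r ∈ R, (13 * r : ℝ) ≤ Q ∧
      B2 ≤ ‖∑ k ∈ range Q, b k * exp (((1 / (L * Q) : ℝ) + 2 * π * I * r / Q) * σ k)‖) :
    ∃ z, Near m z ∧ Good m z (38 * (m + 1) ^ 2 * √(2 ^ m : ℕ) + (3 + 2 * (2 ^ m : ℕ) * (1 / (L * Q)) * B1)) ∧
      ∃ a : ℕ → ℂ, (∀ n, ‖a n‖ ≤ 1) ∧ ∀ r ∈ R, (2 ^ m : ℕ) * (1 / (L * Q)) / 2 * B2 - 1 -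
        38 * (m + 1) ^ 2 * √(2 ^ m : ℕ) ≤ ‖∑ n ∈ Ico (2 ^ m) (2 * 2 ^ m), a n * E (2 * π * L * r) (z n)‖ := by
  classical
  have hN : (2:ℝ) ≤ (2 ^ m : ℕ) := by
    exact_mod_cast (show 2 ^ 1 ≤ 2 ^ m from Nat.pow_le_pow_right two_pos hm)
  have hQ0' : (0:ℝ) < Q := by exact_mod_cast hQ0
  have hL0 : 0 < L := by linarith
  set lam : ℝ := 1 / (L * Q) with hlam
  have hl : 0 < lam := by positivity
  have hlQ : lam * Q ≤ 1 / 2 := by
    rw [hlam, div_mul_eq_mul_div, one_mul, div_le_div_iff₀ (by positivity) two_pos]; nlinarith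
  set N : ℝ := ((2 ^ m : ℕ) : ℝ) with hNdef
  have hc : ∀ {u : ℝ}, N ≤ u → |FF N lam Q σ u - u| ≤ 1 / 2 := FF_close hN hl hlQ hδ hP hσ
  let g : ℕ → ℂ := fun k => if k < Q then b k else 0
  have hg : ∀ k, ‖g k‖ ≤ 1 := fun k => by
    simp only [g]; split_ifs
    · exact hb k
    · simp
  obtain ⟨U, hU, h1, h2⟩ := block_sel m (FF N lam Q σ) (fun u => g (idx N lam u)) (meas_FF Q σ)
    ((Measurable.of_discrete (f := g)).comp meas_idx) (fun u a b => by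
      obtain ⟨c, d⟩ := abs_le.1 (hc a)
      constructor <;> linarith) (fun u => hg _) (R.image fun r : ℕ => 2 * π * L * r) (by
      refine Finset.card_image_le.trans ?_
      have : R ⊆ range (Q + 1) := fun r hr => by
        have : (13 * r : ℕ) ≤ Q := by exact_mod_cast (hR r hr).1
        rw [mem_range]; omega
      have := Finset.card_le_card this
      rw [card_range] at this
      omega)
  refine ⟨fun n => FF N lam Q σ (U n), fun n a b => ?_, fun M a b t ht => ?_,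
    fun n => g (idx N lam (U n)), fun n => hg _, fun r hr => ?_⟩
  · have : N ≤ n := by rw [hNdef]; exact_mod_cast a
    obtain ⟨c, d⟩ := hU n
    obtain ⟨e, f⟩ := abs_le.1 (hc (this.trans c))
    exact ⟨by linarith, abs_le.2 ⟨by linarith, by linarith⟩⟩
  · exact (norm_sub_le_norm_sub_add_norm_sub _ _ _).trans (add_le_add (h1 M a b t ht)
      (cell_LH hN hl hlQ hδ hP hd hσ B1 hB M (by rw [hNdef]; exact_mod_cast a) t))
  · obtain ⟨r1, r2⟩ := hR r hr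
    have k1 := h2 _ (mem_image_of_mem _ hr)
    have k2 := cell_LV hN hl hlQ hδ hP hσ b hb (2 * π * L * r) B2 (by
      rw [abs_of_nonneg (by positivity), hlam, mul_one_div, div_le_div_iff₀ (by positivity) two_pos]
      have : π * r ≤ 3.15 * r := by gcongr; exact Real.pi_lt_d2.le
      nlinarith [Nat.cast_nonneg (α := ℝ) r]) hB2 (by
      convert r2 using 6
      rw [hlam]; push_cast
      have : (L:ℂ) ≠ 0 := by exact_mod_cast hL0.ne'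
      have : (Q:ℂ) ≠ 0 := by exact_mod_cast hQ0.ne'
      field_simp)
    rw [Nat.cast_mul, Nat.cast_ofNat, norm_sub_rev] at k1
    have := norm_sub_norm_le (∫ u in N..2 * N, g (idx N lam u) * E (2 * π * L * r) (FF N lam Q σ u))
      (∑ n ∈ Ico (2 ^ m) (2 * 2 ^ m), g (idx N lam (U n)) * E (2 * π * L * r) (FF N lam Q σ (U n)))
    change _ ≤ ‖∫ u in N..2 * N, g (idx N lam u) * E (2 * π * L * r) (FF N lam Q σ u)‖ at k2
    linarith

def Fail (τ ρ ε : ℝ) (m : ℕ) (z : ℕ → ℝ) : Prop :=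
  ∃ (a : ℕ → ℂ) (S : Finset ℝ), (∀ n, ‖a n‖ ≤ 1) ∧
    (∀ t ∈ S, 0 ≤ t ∧ t ≤ ((2 * 2 ^ m : ℕ) : ℝ) ^ τ ∧
      ((2 * 2 ^ m : ℕ) : ℝ) ^ (3 / 4 - ε) ≤ ‖∑ n ∈ Ico (2 ^ m) (2 * 2 ^ m), a n * E t (z n)‖) ∧
    (∀ t ∈ S, ∀ u ∈ S, t ≠ u → 1 ≤ |t - u|) ∧ ((2 * 2 ^ m : ℕ) : ℝ) ^ (ρ - ε) ≤ #S

theorem spaced (R : Finset ℕ) {c : ℝ} (hc : 1 ≤ c) :
    ∀ t ∈ R.image (fun r : ℕ => c * r), ∀ u ∈ R.image (fun r : ℕ => c * r), t ≠ u → 1 ≤ |t - u| := by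
  intro t ht u hu h
  obtain ⟨r, -, rfl⟩ := mem_image.1 ht
  obtain ⟨r', -, rfl⟩ := mem_image.1 hu
  have : (r:ℤ) - r' ≠ 0 := fun e => h (by rw [show r = r' by omega])
  have : (1:ℝ) ≤ |(r:ℝ) - r'| := by exact_mod_cast Int.one_le_abs this
  rw [← mul_sub, abs_mul, abs_of_pos (by linarith)]
  nlinarith

theorem num_good {N L w q g A m : ℝ} {D : ℕ} {ε : ℝ} (hN : 1 ≤ N) (hL : 4 ≤ L) (hw : 128 ≤ w)
    (hm : 0 ≤ m) (hmw : m + 1 ≤ w) (_hq : 0 ≤ q) (k1 : q ≤ 2 / L) (hg0 : 0 ≤ g) (hg : g ≤ √N) (hA0 : 0 ≤ A)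
    (hA : A ≤ w * w ^ D) (hwε : w ^ (2 * D + 5) ≤ N ^ ε) :
    38 * (m + 1) ^ 2 * √N + (3 + 2 * q * (A * g)) ≤ N ^ (1 / 2 + ε) := by
  have hq : 1 ≤ √N := Real.one_le_sqrt.2 hN
  have hw0 : 1 ≤ w := by linarith
  rw [Real.rpow_add (by linarith), ← Real.sqrt_eq_rpow]
  have b3 : 2 * q * (A * g) ≤ w ^ (2 * D + 4) * √N := by
    calc _ ≤ 2 * (2 / L) * ((w * w ^ D) * √N) := by gcongr
      _ ≤ 1 * ((w * w ^ D) * √N) := by
        gcongr
        rw [← mul_div_assoc, div_le_one (by linarith)]; linarith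
      _ = w ^ (D + 1) * √N := by ring
      _ ≤ _ := mul_le_mul_of_nonneg_right (pow_le_pow_right₀ hw0 (by omega)) (by linarith)
  have b4 : 38 * (m + 1) ^ 2 ≤ w ^ (2 * D + 4) := by
    calc _ ≤ w * w ^ 2 := by gcongr; linarith
      _ = w ^ 3 := by ring
      _ ≤ _ := by gcongr; omega
  have b6 : 3 ≤ w ^ (2 * D + 4) := le_trans (by linarith) (le_self_pow₀ hw0 (by omega))
  have b7 : 3 * w ^ (2 * D + 4) ≤ N ^ ε := by
    refine le_trans ?_ hwε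
    rw [pow_succ' w (2 * D + 4)]; gcongr; linarith
  nlinarith

theorem num_V {N L w q g m : ℝ} {k : ℕ} {ε : ℝ} (hN : 1 ≤ N) (hL : 0 < L) (hLw : L ≤ w) (hw : 128 ≤ w)
    (hm : 0 ≤ m) (hmw : m + 1 ≤ w) (k2 : 1 / L ≤ q) (hg : (2 * N) ^ (3 / 4 : ℝ) ≤ 4 * g) (hk : 5 ≤ k)
    (hwε : w ^ k ≤ N ^ ε) (hw4 : w ^ k ≤ N ^ (1 / 4 : ℝ)) (hε : 0 < ε) :
    (2 * N) ^ (3 / 4 - ε) ≤ q * (g / 4) - 1 - 38 * (m + 1) ^ 2 * √N := by
  have hq : 1 ≤ √N := Real.one_le_sqrt.2 hN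
  have hw0 : 1 ≤ w := by linarith
  have g0 : 0 ≤ g := by
    have : 0 ≤ (2 * N) ^ (3 / 4 : ℝ) := by positivity
    linarith
  have v2 : g / (4 * w) ≤ q * (g / 4) := by
    calc _ = 1 / w * (g / 4) := by field_simp
      _ ≤ 1 / L * (g / 4) := by gcongr
      _ ≤ _ := by gcongr
  have v3 : (2 * N) ^ (3 / 4 - ε) * (32 * w) ≤ (2 * N) ^ (3 / 4 : ℝ) := by
    calc _ ≤ (2 * N) ^ (3 / 4 - ε) * (2 * N) ^ ε := by
          gcongr
          calc 32 * w ≤ w * w := by gcongr; linarith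
            _ = w ^ 2 := by ring
            _ ≤ w ^ k := by gcongr; omega
            _ ≤ N ^ ε := hwε
            _ ≤ _ := by gcongr; linarith
      _ = _ := by rw [← Real.rpow_add (by linarith)]; congr 1; ring
  have v4 : (39 * w ^ 2 * √N) * (32 * w) ≤ (2 * N) ^ (3 / 4 : ℝ) := by
    calc _ = √N * (1248 * w ^ 3) := by ring
      _ ≤ √N * (w ^ 2 * w ^ 3) := by gcongr; nlinarith
      _ = √N * w ^ 5 := by ring
      _ ≤ √N * N ^ (1 / 4 : ℝ) := by gcongr; exact le_trans (by gcongr) hw4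
      _ = N ^ (3 / 4 : ℝ) := by
        rw [Real.sqrt_eq_rpow, ← Real.rpow_add (by linarith)]; norm_num
      _ ≤ _ := by gcongr; linarith
  have v5 : 38 * (m + 1) ^ 2 * √N ≤ 38 * w ^ 2 * √N := by gcongr
  have v6 : 1 ≤ w ^ 2 * √N := one_le_mul_of_one_le_of_one_le (one_le_pow₀ hw0) hq
  have v7 : (2 * N) ^ (3 / 4 - ε) + 39 * w ^ 2 * √N ≤ g / (4 * w) := by
    rw [le_div_iff₀ (by positivity)]; linarith
  linarith

theorem num_R {N L w x : ℝ} {j k : ℕ} {ε ρ : ℝ} (hN : 1 ≤ N) (hL : 0 < L) (hLw : L ≤ w) (hw : 4 ≤ w)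
    (hx : (2 * N) ^ ρ ≤ 4 * x) (hk : j + 1 ≤ k) (hwε : w ^ k ≤ N ^ ε) (hε : 0 < ε) :
    (2 * N) ^ (ρ - ε) ≤ x / L ^ j := by
  have x0 : 0 ≤ x := by
    have : 0 ≤ (2 * N) ^ ρ := by positivity
    linarith
  have r2 : 4 * L ^ j ≤ (2 * N) ^ ε := by
    calc _ ≤ w * w ^ j := by gcongr
      _ = w ^ (j + 1) := by ring
      _ ≤ w ^ k := by gcongr; linarith
      _ ≤ N ^ ε := hwε
      _ ≤ _ := by gcongr; linarith
  rw [Real.rpow_sub (by linarith), div_le_div_iff₀ (by positivity) (by positivity)]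
  calc _ ≤ (4 * x) * L ^ j := by gcongr
    _ = x * (4 * L ^ j) := by ring
    _ ≤ _ := by gcongr

theorem rpow_four {N y ρ : ℝ} (hN : 0 ≤ N) (hy : N ≤ 2 * y) (h0 : 0 ≤ ρ) (h1 : ρ ≤ 1) :
    (2 * N) ^ ρ ≤ 4 * y ^ ρ := by
  calc _ ≤ (4 * y) ^ ρ := Real.rpow_le_rpow (by linarith) (by linarith) h0
    _ = 4 ^ ρ * y ^ ρ := Real.mul_rpow (by norm_num) (by linarith)
    _ ≤ 4 ^ (1:ℝ) * y ^ ρ := by
      have : 0 ≤ y := by linarith
      gcongr; norm_num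
    _ = _ := by simp

theorem num_s {D : ℕ} (hD : 0 < D) : (1 + 1 / (4 * D) : ℝ) ^ D - 1 ≤ 1 / 2 := by
  have a : (1 + 1 / (4 * D) : ℝ) ^ D ≤ Real.exp (1 / (4 * D)) ^ D := by
    gcongr; linarith [Real.add_one_le_exp (1 / (4 * D) : ℝ)]
  rw [← Real.exp_nat_mul, show (D:ℝ) * (1 / (4 * D)) = 1 / 4 by field_simp] at a
  have := (abs_le.1 (Real.abs_exp_sub_one_le (x := 1 / 4) (by rw [abs_of_pos] <;> norm_num))).2
  rw [abs_of_pos (by norm_num)] at this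
  linarith

theorem exists_pm (e : ℕ) (he : 1 ≤ e) (m0 : ℕ) : ∃ p m : ℕ, p.Prime ∧ p % 4 = 3 ∧ m0 ≤ m ∧
    p ^ e ≤ 2 ^ m ∧ 2 ^ m ≤ 2 * p ^ e ∧ Real.log p ≤ m := by
  obtain ⟨p, hp1, hp2, hp3⟩ := Nat.forall_exists_prime_gt_and_modEq (2 ^ m0) (q := 4) (a := 3)
    (by norm_num) (by norm_num)
  have hpl : p ≤ p ^ e := Nat.le_self_pow (by omega) p
  have N1 : p ^ e ≤ 2 ^ Nat.clog 2 (p ^ e) := Nat.le_pow_clog one_lt_two _
  have hm2 : m0 < Nat.clog 2 (p ^ e) := (Nat.pow_lt_pow_iff_right one_lt_two).1 (by omega)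
  have N2 := Nat.pow_pred_clog_lt_self one_lt_two (show 1 < p ^ e from hp2.one_lt.trans_le hpl)
  generalize Nat.clog 2 (p ^ e) = m at *
  refine ⟨p, m, hp2, hp3, hm2.le, N1, ?_, ?_⟩
  · obtain ⟨k, rfl⟩ : ∃ k, m = k + 1 := ⟨m - 1, by omega⟩
    simp only [Nat.pred_eq_sub_one, Nat.add_sub_cancel] at N2
    omega
  · have : (p:ℝ) ≤ 2 ^ m := by exact_mod_cast hpl.trans N1
    refine (Real.log_le_log (by exact_mod_cast hp2.pos) this).trans ?_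
    rw [Real.log_pow]
    exact mul_le_of_le_one_right (by positivity) (by linarith [Real.log_two_lt_d9])

theorem special (l : ℕ) (hl : 1 ≤ l) (ε : ℝ) (hε : 0 < ε) (m0 : ℕ) : ∃ m ≥ m0, ∃ z, Near m z ∧
    Good m z (((2 ^ m : ℕ) : ℝ) ^ (1 / 2 + ε)) ∧ Fail (1 + 1 / l) (1 / 2 + 1 / (2 * l)) ε m z := by
  classical
  obtain ⟨m1, hm1⟩ := poly_le (16 * (l + l + 2 : ℕ)) (2 * (l + l + 2) + 5)
    (lt_min hε (show (0:ℝ) < 1 / 4 by norm_num))
  obtain ⟨p, m, hp2, hp3, hm2, N1, N2, hlog2⟩ := exists_pm (l + l) (by omega) (m0 + m1 + 1)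
  have : Fact p.Prime := ⟨hp2⟩
  have hw := hm1 m (by omega)
  clear hm1
  have hp00 := hp2.pos
  have hp0 : (1:ℝ) ≤ p := by exact_mod_cast hp00
  have hlog : 0 ≤ Real.log p := Real.log_nonneg hp0
  obtain ⟨D, hD⟩ : ∃ D, D = l + l + 2 := ⟨_, rfl⟩
  have hD4 : (4:ℝ) ≤ D := by exact_mod_cast (show 4 ≤ D by omega)
  obtain ⟨L, hL⟩ : ∃ L : ℝ, L = 16 * D * (2 + Real.log p) := ⟨_, rfl⟩
  obtain ⟨w, hwd⟩ : ∃ w : ℝ, w = 16 * D * (m + 3) := ⟨_, rfl⟩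
  rw [← hD, ← hwd] at hw
  have hm0 : (0:ℝ) ≤ m := by positivity
  have hLD : 32 * D ≤ L := by nlinarith
  have hLw : L ≤ w := by nlinarith
  have hL0 : 0 < L := by linarith
  have hw1 : 128 ≤ w := by linarith
  have hw2 : (m:ℝ) + 1 ≤ w := by nlinarith
  have b1 : 2 * (2 + Real.log ((p:ℝ) ^ D)) ≤ w := by rw [Real.log_pow]; nlinarith
  have b2 : 1 + 4 * (2 + Real.log p) ≤ w := by nlinarith
  have b0 : 0 ≤ Real.log ((p:ℝ) ^ D) := by rw [Real.log_pow]; positivity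
  have b3 : 7 * D * (1 / L ^ 2) ≤ 1 / L := by
    rw [mul_one_div, div_le_div_iff₀ (by positivity) hL0]; nlinarith
  have b4 : 1 ≤ 2 * π * L := by nlinarith [Real.pi_gt_three]
  obtain ⟨σ, b, R, c1, c2, c3, c4, c5⟩ := core p l hp3 (1 / L ^ 2) (2 / L) (by positivity)
    (by rw [div_lt_one (by positivity)]; nlinarith) (by rw [div_le_one hL0]; linarith) (by
      rw [← hD, show 2 * (2 / L) * (2 + Real.log p) = 1 / (4 * D) by rw [hL]; field_simp; norm_num]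
      exact num_s (by omega))
  clear hL hwd
  rw [← hD] at c1 c3 c4 c5
  have N1' : (p:ℝ) ^ (l + l) ≤ (2 ^ m : ℕ) := by exact_mod_cast N1
  have N2' : ((2 ^ m : ℕ) : ℝ) ≤ 2 * p ^ (l + l) := by exact_mod_cast N2
  have eQ : (p:ℝ) ^ D = p ^ (l + l) * p ^ 2 := by rw [hD, pow_add]
  have k1 : (2 ^ m : ℕ) * (1 / (L * (p ^ D : ℕ))) * (p:ℝ) ^ 2 ≤ 2 / L := by
    rw [Nat.cast_pow p, eQ, mul_one_div, div_mul_eq_mul_div, div_le_div_iff₀ (by positivity) hL0]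
    calc _ ≤ (2 * p ^ (l + l)) * p ^ 2 * L := by gcongr
      _ = _ := by ring
  have k2 : 1 / L ≤ (2 ^ m : ℕ) * (1 / (L * (p ^ D : ℕ))) * (p:ℝ) ^ 2 := by
    rw [Nat.cast_pow p, eQ, mul_one_div, div_mul_eq_mul_div, div_le_div_iff₀ hL0 (by positivity)]
    calc _ = (p ^ (l + l)) * p ^ 2 * L := by ring
      _ ≤ _ := by gcongr
  have k3 : ∀ r ∈ R, 7 * L * r ≤ p ^ D := fun r hr => by
    calc 7 * L * r ≤ 7 * L * (D * (1 / L ^ 2) * p ^ D) := by gcongr; exact (c5 r hr).1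
      _ = (7 * D / L) * p ^ D := by field_simp
      _ ≤ 1 * p ^ D := by gcongr; rw [div_le_one hL0]; linarith
      _ = _ := one_mul _
  obtain ⟨z, z1, z2, a, a1, a2⟩ := transfer m (p ^ D) (p ^ 2) σ b R L _ (p ^ 2 * √(p ^ 3) ^ l / 2)
    (by omega) (by linarith) (by positivity)
    (by rw [Nat.cast_pow p 2]; refine k1.trans ?_; rw [div_le_div_iff₀ hL0 (by norm_num)]; linarith)
    (by positivity) (pow_dvd_pow _ (by omega))
    (((Nat.pow_le_pow_right hp00 (show D ≤ (l + l) * 2 by omega)).trans_eq (pow_mul _ _ _)).trans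
      (Nat.pow_le_pow_left N1 2)) c1 c2 (by positivity) (by simpa only [Nat.cast_pow] using c3)
    (fun r hr => ⟨by
      push_cast
      exact le_trans (by gcongr; linarith) (k3 r hr), by
      have := (c5 r hr).2 (1 / (L * (p ^ D : ℕ))) (by positivity) (by
        rw [show 1 / (L * (p ^ D : ℕ)) * (p:ℝ) ^ D = 1 / L by push_cast; field_simp]
        linarith [show 2 / L = 1 / L + 1 / L by ring])
      simpa only [Nat.cast_pow] using this⟩)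
  have hX : ((2 * 2 ^ m : ℕ) : ℝ) = 2 * (2 ^ m : ℕ) := by push_cast; ring
  have hN1 : (1:ℝ) ≤ (2 ^ m : ℕ) := by exact_mod_cast Nat.one_le_two_pow
  have hwε := hw.trans (Real.rpow_le_rpow_of_exponent_le hN1 (min_le_left _ _))
  have hw4 := hw.trans (Real.rpow_le_rpow_of_exponent_le hN1 (min_le_right _ _))
  have l0 : (1:ℝ) ≤ l := by exact_mod_cast hl
  refine ⟨m, by omega, z, z1, fun M a b t ht => (z2 M a b t ht).trans ?_, a,
    R.image fun r : ℕ => 2 * π * L * r, a1, fun t ht => ?_, spaced R b4, ?_⟩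
  · refine le_trans (le_of_eq ?_) (num_good (g := p ^ l) (A := 2 * (2 + Real.log ((p:ℝ) ^ D)) *
      (1 + 4 * (2 + Real.log p)) ^ D) hN1 (by linarith) hw1 hm0 hw2 (by positivity) k1 (by positivity)
      (Real.le_sqrt_of_sq_le (by rw [← pow_mul, mul_two]; exact N1')) (by positivity) (by gcongr) hwε)
    ring
  · obtain ⟨r, hr, rfl⟩ := mem_image.1 ht
    refine ⟨by positivity, ?_, le_trans ?_ (a2 r hr)⟩
    · calc 2 * π * L * r ≤ 7 * L * r := by gcongr; linarith [Real.pi_lt_d2]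
        _ ≤ p ^ D := k3 r hr
        _ = ((p:ℝ) ^ (l + l)) ^ (1 + 1 / l : ℝ) := by
          rw [← Real.rpow_natCast, ← Real.rpow_natCast, ← Real.rpow_mul (by positivity), hD]
          congr 1; push_cast; field_simp; ring
        _ ≤ _ := by rw [hX]; gcongr; linarith
    · rw [hX]
      refine le_trans (num_V (g := √(p ^ 3) ^ l) hN1 hL0 hLw hw1 hm0 hw2 k2 ?_ (by omega) hwε hw4 hε)
        (le_of_eq (by ring))
      refine (rpow_four (by positivity) N2' (by norm_num) (by norm_num)).trans (le_of_eq ?_)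
      rw [Real.sqrt_eq_rpow, ← Real.rpow_natCast, ← Real.rpow_natCast, ← Real.rpow_natCast,
        ← Real.rpow_mul (by positivity), ← Real.rpow_mul (by positivity), ← Real.rpow_mul (by positivity)]
      congr 2; push_cast; ring
  · rw [hX, Finset.card_image_of_injective _ fun r r' h => by
      exact_mod_cast mul_left_cancel₀ (show 2 * π * L ≠ 0 by positivity) h]
    refine le_trans ?_ c4
    rw [one_div_pow, ← pow_mul, mul_one_div]
    refine num_R hN1 hL0 hLw (by linarith) ?_ (by omega) hwε hε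
    refine (rpow_four (by positivity) N2' (by positivity) ?_).trans (le_of_eq ?_)
    · have : 1 / (2 * l : ℝ) ≤ 1 / 2 := by gcongr; linarith
      linarith
    · rw [← Real.rpow_natCast, ← Real.rpow_natCast, ← Real.rpow_mul (by positivity)]
      congr 2; push_cast; field_simp; ring

end Pool.Agent.Lib.MP_a93a41_nt.Bar
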