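import Mathlib

set_option autoImplicit false

open Finset

namespace Pool.Agent.Lib.MP_a93a41_nt

/-- signs that do not lose mean square -/
lemma exists_signs {ι : Type*} [DecidableEq ι] (s : Finset ι) (W : Finset ℕ) (f : ι → ℕ → ℂ) :
    ∃ ε : ι → ℂ, (∀ j, ‖ε j‖ = 1) ∧
      ∑ j ∈ s, ∑ t ∈ W, ‖f j t‖ ^ 2 ≤ ∑ t ∈ W, ‖∑ j ∈ s, ε j * f j t‖ ^ 2 := by
  induction s using Finset.induction_on with
  | empty => exact ⟨fun _ => 1, by simp, by simp⟩
  | insert a s ha ih =>
    obtain ⟨ε, h1, h2⟩ := ih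
    have key : ∀ σ : ℂ, ∀ t, ∑ j ∈ insert a s, Function.update ε a σ j * f j t
        = σ * f a t + ∑ j ∈ s, ε j * f j t := fun σ t => by
      rw [sum_insert ha, Function.update_self]
      congr 1
      exact sum_congr rfl fun j hj => by
        rw [Function.update_of_ne (ne_of_mem_of_not_mem hj ha)]
    have hn : ∀ σ : ℂ, ‖σ‖ = 1 → ∀ j, ‖Function.update ε a σ j‖ = 1 := fun σ hσ j => by
      by_cases h : j = a
      · subst h; simpa
      · rw [Function.update_of_ne h]; exact h1 j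
    have par : ∑ t ∈ W, ‖1 * f a t + ∑ j ∈ s, ε j * f j t‖ ^ 2
        + ∑ t ∈ W, ‖-1 * f a t + ∑ j ∈ s, ε j * f j t‖ ^ 2
        = 2 * (∑ t ∈ W, ‖f a t‖ ^ 2 + ∑ t ∈ W, ‖∑ j ∈ s, ε j * f j t‖ ^ 2) := by
      rw [← sum_add_distrib, ← sum_add_distrib, mul_sum]
      refine sum_congr rfl fun t _ => ?_
      have := parallelogram_law_with_norm ℂ (∑ j ∈ s, ε j * f j t) (f a t)
      rw [one_mul, neg_one_mul, add_comm (f a t), add_comm (-f a t), ← sub_eq_add_neg]
      nlinarith [this]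
    rw [sum_insert ha]
    by_cases h : ∑ t ∈ W, ‖-1 * f a t + ∑ j ∈ s, ε j * f j t‖ ^ 2
        ≤ ∑ t ∈ W, ‖1 * f a t + ∑ j ∈ s, ε j * f j t‖ ^ 2
    · refine ⟨Function.update ε a 1, hn 1 (by simp), ?_⟩
      simp only [key]
      linarith
    · refine ⟨Function.update ε a (-1), hn (-1) (by simp), ?_⟩
      simp only [key]
      linarith

lemma rank_sum (x : ℕ → ℝ) (W : Finset ℕ) :
    ∑ t ∈ W, (1 : ℝ) / ((W.filter fun u => x t ≤ x u).card : ℝ) ≤ harmonic W.card := by
  induction W using Finset.induction_on_min_value x with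
  | empty => simp
  | insert a s ha hmin ih =>
    rw [sum_insert ha, card_insert_of_notMem ha, harmonic_succ]
    have e1 : ((insert a s).filter fun u => x a ≤ x u) = insert a s := by
      refine filter_true_of_mem fun u hu => ?_
      rcases mem_insert.1 hu with rfl | hu
      · exact le_rfl
      · exact hmin u hu
    rw [e1, card_insert_of_notMem ha]
    have e2 : ∑ t ∈ s, (1 : ℝ) / (((insert a s).filter fun u => x t ≤ x u).card : ℝ)
        ≤ ∑ t ∈ s, (1 : ℝ) / ((s.filter fun u => x t ≤ x u).card : ℝ) := by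
      refine sum_le_sum fun t ht => one_div_le_one_div_of_le ?_ ?_
      · exact Nat.cast_pos.2 (card_pos.2 ⟨t, mem_filter.2 ⟨ht, le_rfl⟩⟩)
      · exact_mod_cast card_le_card (filter_subset_filter _ (subset_insert _ _))
    push_cast
    rw [← one_div]
    linarith

/-- a level carrying a logarithmic share of the mass -/
lemma exists_level (x : ℕ → ℝ) (W : Finset ℕ) (M : ℝ) (hM : 0 < M) (h : M ≤ ∑ t ∈ W, x t) :
    ∃ v : ℝ, M ≤ 2 * W.card * v ∧
      M ≤ 2 * (1 + Real.log W.card) * (v * (W.filter fun u => v ≤ x u).card) := by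
  have hW : W.Nonempty := by
    by_contra h0
    rw [not_nonempty_iff_eq_empty.1 h0, sum_empty] at h
    linarith
  have hc : (0 : ℝ) < W.card := by exact_mod_cast card_pos.2 hW
  have hl : 0 ≤ Real.log W.card := Real.log_natCast_nonneg _
  by_contra hcon
  push Not at hcon
  have hb : ∀ t ∈ W, x t < M / (2 * W.card) + M / (2 * (1 + Real.log W.card))
      * (1 / ((W.filter fun u => x t ≤ x u).card : ℝ)) := fun t ht => by
    have hr : (0 : ℝ) < ((W.filter fun u => x t ≤ x u).card : ℝ) := by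
      exact Nat.cast_pos.2 (card_pos.2 ⟨t, mem_filter.2 ⟨ht, le_rfl⟩⟩)
    by_cases h1 : M ≤ 2 * W.card * x t
    · have h2 := hcon _ h1
      have h3 : x t < M / (2 * (1 + Real.log W.card))
          * (1 / ((W.filter fun u => x t ≤ x u).card : ℝ)) := by
        rw [mul_one_div, lt_div_iff₀ hr, lt_div_iff₀ (by positivity)]
        linarith
      have : 0 < M / (2 * W.card) := by positivity
      linarith
    · have h3 : x t < M / (2 * W.card) := by
        rw [lt_div_iff₀ (by positivity)]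
        linarith
      have : 0 < M / (2 * (1 + Real.log W.card))
          * (1 / ((W.filter fun u => x t ≤ x u).card : ℝ)) := by positivity
      linarith
  have h1 := sum_lt_sum_of_nonempty hW hb
  rw [sum_add_distrib, ← mul_sum, sum_const, nsmul_eq_mul] at h1
  have h2 := (rank_sum x W).trans (harmonic_le_one_add_log _)
  have h3 : M / (2 * (1 + Real.log W.card))
      * ∑ t ∈ W, (1 : ℝ) / ((W.filter fun u => x t ≤ x u).card : ℝ)
      ≤ M / (2 * (1 + Real.log W.card)) * (1 + Real.log W.card) :=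
    mul_le_mul_of_nonneg_left h2 (by positivity)
  have h4 : M / (2 * (1 + Real.log W.card)) * (1 + Real.log W.card) = M / 2 := by
    field_simp
  have h5 : (W.card : ℝ) * (M / (2 * W.card)) = M / 2 := by field_simp
  linarith

open Classical in
/-- few values of d^2 + l d modulo a product of odd primes -/
lemma card_quadratic (P : Finset ℕ) (hP : ∀ p ∈ P, p.Prime ∧ p ≠ 2) (A l : ℕ) :
    (((range (A * ∏ p ∈ P, p)).filter fun w =>
      ∃ d, w ≡ d ^ 2 + l * d [MOD ∏ p ∈ P, p]).card : ℝ)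
      ≤ A * (∏ p ∈ P, p : ℕ) * (2 / 3) ^ P.card := by
  set Q := ∏ p ∈ P, p with hQ
  have hQ0 : 0 < Q := prod_pos fun p hp => (hP p hp).1.pos
  have hex : ∀ w p : ℕ, ∃ a : ℕ, p ∈ P → (∃ d, w ≡ d ^ 2 + l * d [MOD Q]) →
      a < p / 2 + 1 ∧ ((4 * w + l ^ 2 : ℕ) : ZMod p) = (a : ZMod p) ^ 2 := fun w p => by
    by_cases h : p ∈ P ∧ ∃ d, w ≡ d ^ 2 + l * d [MOD Q]
    · obtain ⟨hp, d, hd⟩ := h
      have : NeZero p := ⟨(hP p hp).1.ne_zero⟩
      refine ⟨((2 * d + l : ℕ) : ZMod p).valMinAbs.natAbs, fun _ _ => ⟨?_, ?_⟩⟩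
      · exact Nat.lt_succ_of_le (ZMod.natAbs_valMinAbs_le _)
      · have h1 : ((w : ℕ) : ZMod p) = ((d ^ 2 + l * d : ℕ) : ZMod p) :=
          (ZMod.natCast_eq_natCast_iff _ _ _).2 (hd.of_dvd (dvd_prod_of_mem _ hp))
        have h2 : ((((2 * d + l : ℕ) : ZMod p).valMinAbs.natAbs : ℕ) : ZMod p) ^ 2
            = ((2 * d + l : ℕ) : ZMod p) ^ 2 := by
          rw [← Int.cast_natCast, ← Int.cast_pow, Int.natAbs_sq, Int.cast_pow, ZMod.coe_valMinAbs]
        rw [h2]
        push_cast at h1 ⊢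
        rw [h1]
        ring
    · exact ⟨0, fun h1 h2 => absurd ⟨h1, h2⟩ h⟩
  choose a ha using hex
  have h1 : ((range (A * Q)).filter fun w => ∃ d, w ≡ d ^ 2 + l * d [MOD Q]).card
      ≤ (range A ×ˢ Fintype.piFinset fun p : P => range (p / 2 + 1)).card := by
    refine card_le_card_of_injOn (fun w => (w / Q, fun p : P => a w p)) ?_ ?_
    · intro w hw
      obtain ⟨h1, h2⟩ := mem_filter.1 (mem_coe.1 hw)
      refine mem_coe.2 (mem_product.2 ⟨mem_range.2 ?_, Fintype.mem_piFinset.2 fun p => ?_⟩)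
      · exact Nat.div_lt_of_lt_mul (by rw [mul_comm]; exact mem_range.1 h1)
      · exact mem_range.2 (ha w p p.2 h2).1
    · intro w hw w' hw' h
      obtain ⟨-, h2⟩ := mem_filter.1 (mem_coe.1 hw)
      obtain ⟨-, h2'⟩ := mem_filter.1 (mem_coe.1 hw')
      obtain ⟨e1, e2⟩ := Prod.mk.inj h
      have e3 : (Q : ℤ) ∣ (w' : ℤ) - w := by
        rw [hQ, Nat.cast_prod]
        refine Finset.prod_dvd_of_coprime (fun p hp q hq hpq => ?_) fun p hp => ?_
        · exact Nat.isCoprime_iff_coprime.2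
            ((Nat.coprime_primes (hP p hp).1 (hP q hq).1).2 hpq)
        · have e4 := (ha w p hp h2).2
          have e5 := (ha w' p hp h2').2
          have e6 : a w p = a w' p := congrFun e2 ⟨p, hp⟩
          rw [e6, ← e5, ZMod.natCast_eq_natCast_iff] at e4
          have e7 := (Nat.ModEq.add_right_cancel' _ e4)
          have e8 : Nat.Coprime p 4 := by
            have : Nat.Coprime p 2 := (Nat.coprime_primes (hP p hp).1 Nat.prime_two).2 (hP p hp).2
            exact this.pow_right 2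
          exact (Nat.modEq_iff_dvd).1 (Nat.ModEq.cancel_left_of_coprime e8 e7)
      have e9 : w % Q = w' % Q := (Nat.modEq_iff_dvd).2 e3
      rw [← Nat.div_add_mod w Q, ← Nat.div_add_mod w' Q, e9]
      exact congrArg (Q * · + w' % Q) e1
  rw [card_product, card_range, Fintype.card_piFinset] at h1
  simp only [card_range] at h1
  have h2 : ((∏ p : P, ((p : ℕ) / 2 + 1) : ℕ) : ℝ) ≤ Q * (2 / 3) ^ P.card := by
    rw [prod_coe_sort P (fun p => p / 2 + 1), hQ, Nat.cast_prod, Nat.cast_prod, ← prod_const,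
      ← prod_mul_distrib]
    refine prod_le_prod (fun p _ => by positivity) fun p hp => ?_
    have h3 := (hP p hp).1.two_le
    have h4 := (hP p hp).2
    have h5 := (hP p hp).1.eq_two_or_odd
    have : 3 * (p / 2 + 1) ≤ 2 * p := by omega
    have : (3 : ℝ) * ((p / 2 + 1 : ℕ) : ℝ) ≤ 2 * p := by exact_mod_cast this
    linarith
  calc _ ≤ ((A * ∏ p : P, ((p : ℕ) / 2 + 1) : ℕ) : ℝ) := by exact_mod_cast h1
    _ ≤ _ := by
      rw [Nat.cast_mul, mul_assoc]
      exact mul_le_mul_of_nonneg_left h2 (by positivity)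

end Pool.Agent.Lib.MP_a93a41_nt
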