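import Pool.Agent.Lib.LargeSieve.Additive
import Pool.Agent.Lib.SW.Div

/-! Basic tools for the improved large values estimate. -/

namespace Pool.Agent.Lib.MP_a93a41_nt.GM

open Finset Real Pool.Agent.Lib.LargeSieve

/-- Exponential sum with coefficients `c` on the finite set `U`. -/
noncomputable def ft (U : Finset ℤ) (c : ℤ → ℂ) (α : ℝ) : ℂ := ∑ u ∈ U, c u * ee (u * α)

/-- Modulus of the exponential sum with real coefficients. -/
noncomputable def fr (U : Finset ℤ) (c : ℤ → ℝ) (α : ℝ) : ℝ := ‖ft U (fun u => (c u : ℂ)) α‖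

noncomputable def Lg (n : ℕ) : ℝ := Real.log n / (2 * π)

noncomputable def wt (n : ℕ) : ℝ := 1 / √(n : ℝ)

/-- The double zeta sum. -/
noncomputable def Qf (U : Finset ℤ) (c : ℤ → ℝ) (X : ℕ) : ℝ :=
  ∑ p ∈ Icc 1 X, ∑ q ∈ Icc 1 X, wt p * wt q * fr U c (Lg p - Lg q) ^ 2

/-- `Λ` dominates divisor functions, logarithms and constants up to the size `B`. -/
structure Loss (Λ B : ℝ) : Prop where
  dv : ∀ n : ℕ, (n : ℝ) ≤ B → (#n.divisors : ℝ) ≤ Λ
  lg : 1 + Real.log B ≤ Λ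
  big : 10000 ≤ Λ
  one : 1 ≤ B

lemma Loss.log_le {Λ B x : ℝ} (h : Loss Λ B) (hx : 0 < x) (hB : x ≤ B) : 1 + Real.log x ≤ Λ := by
  have := Real.log_le_log hx hB
  linarith [h.lg]

lemma Loss.nlog_le {Λ B : ℝ} (h : Loss Λ B) {X : ℕ} (hB : (X : ℝ) ≤ B) :
    ((Nat.log 2 X + 1 : ℕ) : ℝ) ≤ 2 * Λ := by
  rcases Nat.eq_zero_or_pos X with rfl | hX
  · simp; linarith [h.big]
  have h1 : (2 : ℝ) ^ (Nat.log 2 X) ≤ X := by exact_mod_cast Nat.pow_log_le_self 2 hX.ne'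
  have h2 := Real.log_le_log (by positivity) h1
  rw [Real.log_pow] at h2
  have h3 := h.log_le (x := X) (by exact_mod_cast hX) hB
  have h4 := Real.log_two_gt_d9
  have h5 : (0 : ℝ) ≤ Nat.log 2 X := by positivity
  push_cast
  nlinarith

lemma fr_nonneg (U : Finset ℤ) (c : ℤ → ℝ) (α : ℝ) : 0 ≤ fr U c α := norm_nonneg _

lemma wt_nonneg (n : ℕ) : 0 ≤ wt n := by unfold wt; positivity

lemma Qf_nonneg (U : Finset ℤ) (c : ℤ → ℝ) (X : ℕ) : 0 ≤ Qf U c X :=
  sum_nonneg fun p _ => sum_nonneg fun q _ =>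
    mul_nonneg (mul_nonneg (wt_nonneg p) (wt_nonneg q)) (sq_nonneg _)

lemma norm_ee_sub_one_le (x : ℝ) : ‖ee x - 1‖ ≤ 7 * |x| := by
  simp only [ee]
  have h := Real.norm_exp_I_mul_ofReal_sub_one_le (x := 2 * π * x)
  refine h.trans ?_
  rw [Real.norm_eq_abs, abs_mul, abs_of_pos (by positivity : (0:ℝ) < 2 * π)]
  have := Real.pi_lt_d2
  have := abs_nonneg x
  nlinarith

lemma norm_ee_sub (x y : ℝ) : ‖ee x - ee y‖ ≤ 7 * |x - y| := by
  have : ee x - ee y = ee y * (ee (x - y) - 1) := by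
    rw [mul_sub, ← ee_add]; simp
  rw [this, norm_mul, norm_ee, one_mul]
  exact norm_ee_sub_one_le _

lemma ee_neg_mul (x : ℝ) : ee (-x) * ee x = 1 := by rw [← ee_add]; simp [ee_zero]

lemma orth (P : ℕ) (hP : 0 < P) (a t : ℤ) :
    ∑ j ∈ Ico a (a + P), ee (t * ((j : ℝ) / P)) = if (P : ℤ) ∣ t then (P : ℂ) else 0 := by
  have hP' : (P : ℝ) ≠ 0 := by positivity
  have e1 : ∑ j ∈ Ico a (a + P), ee (t * ((j : ℝ) / P))
      = ∑ k ∈ range P, ee (t * (a / P)) * ee (t / P) ^ k := by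
    symm
    apply Finset.sum_bij (fun (k : ℕ) _ => a + (k : ℤ))
    · intro k hk; simp at hk ⊢; omega
    · intro k _ k' _ h; omega
    · intro j hj
      simp at hj
      exact ⟨(j - a).toNat, by simp; omega, by omega⟩
    · intro k _
      rw [← ee_nat_mul, ← ee_add]; congr 1; push_cast; field_simp
  rw [e1, ← Finset.mul_sum]
  split_ifs with h
  · obtain ⟨s, rfl⟩ := h
    have h1 : ee (((P * s : ℤ) : ℝ) / P) = 1 := by
      rw [← ee_int s]; congr 1; push_cast; field_simp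
    have h2 : ee (((P * s : ℤ) : ℝ) * (a / P)) = 1 := by
      rw [← ee_int (s * a)]; congr 1; push_cast; field_simp
    rw [h1, h2]; simp
  · have h1 : ee ((t : ℝ) / P) ≠ 1 := by
      intro h1
      simp only [ee] at h1
      rw [Complex.exp_eq_one_iff] at h1
      obtain ⟨n, hn⟩ := h1
      apply h
      refine ⟨n, ?_⟩
      have h2 : ((2 * π * (t / P) : ℝ) : ℂ) = ((n * (2 * π) : ℝ) : ℂ) := by
        apply mul_left_cancel₀ Complex.I_ne_zero
        rw [hn]; push_cast; ring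
      have h3 : 2 * π * ((t : ℝ) / P) = n * (2 * π) := by exact_mod_cast h2
      have h4 : (t : ℝ) = P * n := by
        have := Real.pi_pos
        field_simp at h3
        linarith
      exact_mod_cast h4
    have h2 : ee ((t : ℝ) / P) ^ P = 1 := by
      rw [← ee_nat_mul, ← ee_int t]; congr 1; field_simp
    rw [geom_sum_eq h1, h2]; simp

lemma normsq_ft (U : Finset ℤ) (c : ℤ → ℂ) (α : ℝ) :
    ((‖ft U c α‖ ^ 2 : ℝ) : ℂ)
      = ∑ u ∈ U, ∑ v ∈ U, c u * (starRingEnd ℂ) (c v) * ee (((u - v : ℤ) : ℝ) * α) := by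
  push_cast
  rw [← Complex.mul_conj']
  simp only [ft, map_sum, map_mul, conj_ee, Finset.sum_mul_sum]
  refine sum_congr rfl fun u _ => sum_congr rfl fun v _ => ?_
  rw [show ((u : ℝ) - v) * α = u * α + -(v * α) by ring, ee_add]
  ring

lemma parseval (P : ℕ) (a A : ℤ) (T : ℕ) (hT : T < P) (U : Finset ℤ) (hU : U ⊆ Icc A (A + T))
    (c : ℤ → ℂ) :
    ∑ j ∈ Ico a (a + P), ‖ft U c ((j : ℝ) / P)‖ ^ 2 = P * ∑ u ∈ U, ‖c u‖ ^ 2 := by
  have hP : 0 < P := by omega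
  have : ((∑ j ∈ Ico a (a + P), ‖ft U c ((j : ℝ) / P)‖ ^ 2 : ℝ) : ℂ)
      = ((P * ∑ u ∈ U, ‖c u‖ ^ 2 : ℝ) : ℂ) := by
    rw [Complex.ofReal_sum]
    simp only [normsq_ft]
    rw [Finset.sum_comm]
    push_cast
    rw [Finset.mul_sum]
    refine sum_congr rfl fun u hu => ?_
    rw [Finset.sum_comm, Finset.sum_eq_single u]
    · rw [← Finset.mul_sum]
      have := orth P hP a 0
      simp only [Int.cast_zero, dvd_zero, if_true] at this
      simp only [sub_self]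
      rw [this, Complex.mul_conj']; ring
    · intro v hv hne
      rw [← Finset.mul_sum]
      have h1 := orth P hP a (u - v)
      have h2 : ¬ (P : ℤ) ∣ u - v := by
        intro h
        have h3 := mem_Icc.1 (hU hu)
        have h4 := mem_Icc.1 (hU hv)
        have := Int.eq_zero_of_abs_lt_dvd h (by rw [abs_lt]; constructor <;> omega)
        omega
      rw [if_neg h2] at h1
      push_cast at h1
      rw [h1, mul_zero]
    · intro h; exact absurd hu h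
  exact_mod_cast this

/-- Parseval over two periods. -/
lemma parseval2 (P : ℕ) (A : ℤ) (T : ℕ) (hT : T < P) (U : Finset ℤ) (hU : U ⊆ Icc A (A + T))
    (c : ℤ → ℂ) :
    ∑ j ∈ Ioo (-(P : ℤ)) P, ‖ft U c ((j : ℝ) / P)‖ ^ 2 ≤ 2 * P * ∑ u ∈ U, ‖c u‖ ^ 2 := by
  have h1 := parseval P (-(P : ℤ)) A T hT U hU c
  have h2 := parseval P 0 A T hT U hU c
  have h3 : Ioo (-(P : ℤ)) P ⊆ Ico (-(P : ℤ)) (-(P : ℤ) + P) ∪ Ico 0 (0 + P) := by
    intro j hj; simp at hj ⊢; omega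
  have h4 : Disjoint (Ico (-(P : ℤ)) (-(P : ℤ) + P)) (Ico (0 : ℤ) (0 + P)) := by
    rw [Finset.disjoint_left]; intro j h1 h2; simp at h1 h2; omega
  refine (sum_le_sum_of_subset_of_nonneg h3 fun _ _ _ => by positivity).trans ?_
  rw [sum_union h4, h1, h2]; linarith

lemma fract_sep {x δ : ℝ} (h1 : δ ≤ |x|) (h2 : |x| ≤ 1 / 2) (_h3 : δ ≤ 1 / 2) (h0 : 0 < δ) :
    δ ≤ Int.fract x := by
  rcases le_or_gt 0 x with h | h
  · rw [abs_of_nonneg h] at h1 h2
    rw [Int.fract_eq_self.2 ⟨h, by linarith⟩]; exact h1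
  · rw [abs_of_neg h] at h1 h2
    have : Int.fract x = x + 1 := by
      rw [← Int.fract_add_one, Int.fract_eq_self.2 ⟨by linarith, by linarith⟩]
    linarith

lemma sum_Icc_eq_range {M : Type*} [AddCommMonoid M] (A : ℤ) (T : ℕ) (f : ℤ → M) :
    ∑ u ∈ Icc A (A + T), f u = ∑ k ∈ range (T + 1), f (A + k) := by
  symm
  apply Finset.sum_bij (fun (k : ℕ) _ => A + (k : ℤ))
  · intro k hk; simp at hk ⊢; omega
  · intro k _ k' _ h; omega
  · intro j hj
    simp at hj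
    exact ⟨(j - A).toNat, by simp; omega, by omega⟩
  · intro k _; rfl

/-- Large sieve for coefficients on an integer interval and points in a short range. -/
lemma ls1 {R : Type} [DecidableEq R] (s : Finset R) (α : R → ℝ) (δ : ℝ) (hδ : 0 < δ)
    (hδ1 : δ ≤ 1 / 2) (hsep : ∀ i ∈ s, ∀ j ∈ s, i ≠ j → δ ≤ |α i - α j|)
    (hr : ∀ i ∈ s, ∀ j ∈ s, |α i - α j| ≤ 1 / 2) (A : ℤ) (T : ℕ) (U : Finset ℤ)
    (hU : U ⊆ Icc A (A + T)) (c : ℤ → ℂ) :
    ∑ i ∈ s, ‖ft U c (α i)‖ ^ 2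
      ≤ (T + 1 + 1 / δ * (1 + Real.log (1 / δ))) * ∑ u ∈ U, ‖c u‖ ^ 2 := by
  have h := spaced_large_sieve s α δ hδ (by linarith)
    (fun i hi j hj hne => fract_sep (hsep i hi j hj hne) (hr i hi j hj) hδ1 hδ) (T + 1)
    (fun k => if A + k ∈ U then c (A + k) else 0)
  have e1 : ∀ x : ℝ, ‖ft U c x‖
      = ‖∑ k ∈ range (T + 1), (if A + k ∈ U then c (A + k) else 0) * ee (k * x)‖ := by
    intro x
    have : ft U c x = ee (A * x)
        * ∑ k ∈ range (T + 1), (if A + k ∈ U then c (A + k) else 0) * ee (k * x) := by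
      rw [Finset.mul_sum]
      have := sum_Icc_eq_range A T (fun u => if u ∈ U then c u * ee (u * x) else 0)
      rw [← Finset.sum_filter, Finset.filter_mem_eq_inter, Finset.inter_eq_right.2 hU] at this
      rw [ft, this]
      refine sum_congr rfl fun k _ => ?_
      split_ifs
      · push_cast
        rw [add_mul, ee_add]; ring
      · simp
    rw [this, norm_mul, norm_ee, one_mul]
  have e2 : ∑ u ∈ U, ‖c u‖ ^ 2
      = ∑ k ∈ range (T + 1), ‖if A + k ∈ U then c (A + k) else 0‖ ^ 2 := by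
    have := sum_Icc_eq_range A T (fun u => if u ∈ U then ‖c u‖ ^ 2 else 0)
    rw [← Finset.sum_filter, Finset.filter_mem_eq_inter, Finset.inter_eq_right.2 hU] at this
    rw [this]
    refine sum_congr rfl fun k _ => ?_
    split_ifs <;> simp
  simp only [e1]
  rw [e2]
  push_cast at h
  exact h

/-- Dual form (Bessel inequality) for points in a range of length `κ / 2`. -/
lemma dual1 {R : Type} [DecidableEq R] (s : Finset R) (α : R → ℝ) (δ : ℝ) (hδ : 0 < δ)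
    (hδ1 : δ ≤ 1 / 2) (hsep : ∀ i ∈ s, ∀ j ∈ s, i ≠ j → δ ≤ |α i - α j|) (κ : ℕ)
    (hr : ∀ i ∈ s, 0 ≤ α i ∧ 2 * α i < κ) (A : ℤ) (T : ℕ) (b : R → ℂ) :
    ∑ ξ ∈ Icc A (A + T), ‖∑ i ∈ s, b i * ee (ξ * α i)‖ ^ 2
      ≤ κ * (T + 1 + 1 / δ * (1 + Real.log (1 / δ))) * ∑ i ∈ s, ‖b i‖ ^ 2 := by
  set Δ : ℝ := T + 1 + 1 / δ * (1 + Real.log (1 / δ)) with hΔ
  set cl : R → ℕ := fun i => ⌊2 * α i⌋₊ with hcl
  have hmap : ∀ i ∈ s, cl i ∈ range κ := by
    intro i hi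
    rw [mem_range, hcl]
    exact (Nat.floor_lt (by linarith [(hr i hi).1])).2 (hr i hi).2
  have h1 : ∀ k : ℕ, ∑ ξ ∈ Icc A (A + T), ‖∑ i ∈ s with cl i = k, b i * ee (ξ * α i)‖ ^ 2
      ≤ Δ * ∑ i ∈ s with cl i = k, ‖b i‖ ^ 2 := by
    intro k
    have h := dual_bound (s.filter fun i => cl i = k) α δ hδ (by linarith)
      (fun i hi j hj hne => by
        have hi' := mem_filter.1 hi
        have hj' := mem_filter.1 hj
        refine fract_sep (hsep i hi'.1 j hj'.1 hne) ?_ hδ1 hδ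
        have a1 := Nat.floor_le (a := 2 * α i) (by linarith [(hr i hi'.1).1])
        have a2 := Nat.lt_floor_add_one (2 * α i)
        have a3 := Nat.floor_le (a := 2 * α j) (by linarith [(hr j hj'.1).1])
        have a4 := Nat.lt_floor_add_one (2 * α j)
        have a5 : ⌊2 * α i⌋₊ = k := hi'.2
        have a6 : ⌊2 * α j⌋₊ = k := hj'.2
        rw [a5] at a1 a2; rw [a6] at a3 a4
        rw [abs_le]; constructor <;> linarith) (T + 1) (fun i => b i * ee (A * α i))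
    rw [sum_Icc_eq_range]
    simp only [norm_mul, norm_ee, mul_one] at h
    push_cast at h ⊢
    refine le_trans (le_of_eq ?_) h
    refine sum_congr rfl fun n _ => ?_
    congr 2
    refine sum_congr rfl fun i _ => ?_
    rw [add_mul, ee_add]; ring
  calc ∑ ξ ∈ Icc A (A + T), ‖∑ i ∈ s, b i * ee (ξ * α i)‖ ^ 2
      ≤ ∑ ξ ∈ Icc A (A + T), κ * ∑ k ∈ range κ,
          ‖∑ i ∈ s with cl i = k, b i * ee (ξ * α i)‖ ^ 2 := by
        refine sum_le_sum fun ξ _ => ?_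
        rw [← Finset.sum_fiberwise_of_maps_to hmap]
        refine (pow_le_pow_left₀ (norm_nonneg _) (norm_sum_le _ _) 2).trans ?_
        have := sq_sum_le_card_mul_sum_sq (s := range κ)
          (f := fun k => ‖∑ i ∈ s with cl i = k, b i * ee (ξ * α i)‖)
        simpa using this
    _ = κ * ∑ k ∈ range κ, ∑ ξ ∈ Icc A (A + T),
          ‖∑ i ∈ s with cl i = k, b i * ee (ξ * α i)‖ ^ 2 := by
        rw [← Finset.mul_sum, Finset.sum_comm]
    _ ≤ κ * ∑ k ∈ range κ, Δ * ∑ i ∈ s with cl i = k, ‖b i‖ ^ 2 := by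
        gcongr with k _
        exact h1 k
    _ = _ := by
        rw [← Finset.mul_sum, Finset.sum_fiberwise_of_maps_to hmap]; ring

lemma harm_le (K : ℕ) : ∑ d ∈ Icc 1 K, (1 : ℝ) / d ≤ 1 + Real.log K := by
  have := harmonic_le_one_add_log K
  rw [harmonic_eq_sum_Icc] at this
  push_cast at this
  simpa using this

lemma harm_int (K : ℕ) : ∑ i ∈ Icc (-(K : ℤ)) K, 1 / max (1 : ℝ) |(i : ℝ)|
    ≤ 3 * (1 + Real.log K) := by
  have h0 : 0 ≤ Real.log K := Real.log_natCast_nonneg K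
  have h1 := harm_le K
  have hs : Icc (-(K : ℤ)) K ⊆ {0} ∪ ((Icc 1 K).image (fun d : ℕ => (d : ℤ))
      ∪ (Icc 1 K).image (fun d : ℕ => -(d : ℤ))) := by
    intro i hi
    simp only [mem_Icc, mem_union, mem_singleton, mem_image] at hi ⊢
    rcases lt_trichotomy i 0 with h | h | h
    · right; right; exact ⟨(-i).toNat, by omega, by omega⟩
    · left; exact h
    · right; left; exact ⟨i.toNat, by omega, by omega⟩
  have hp : ∀ i : ℤ, 0 ≤ 1 / max (1 : ℝ) |(i : ℝ)| := fun i => by positivity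
  refine (sum_le_sum_of_subset_of_nonneg hs fun i _ _ => hp i).trans ?_
  have hu : ∀ (s t : Finset ℤ), ∑ i ∈ s ∪ t, 1 / max (1 : ℝ) |(i : ℝ)|
      ≤ ∑ i ∈ s, 1 / max (1 : ℝ) |(i : ℝ)| + ∑ i ∈ t, 1 / max (1 : ℝ) |(i : ℝ)| := by
    intro s t
    rw [← sum_union_inter]
    linarith [sum_nonneg (s := s ∩ t) fun i _ => hp i]
  have h2 : ∑ i ∈ (Icc 1 K).image (fun d : ℕ => (d : ℤ)), 1 / max (1 : ℝ) |(i : ℝ)|
      = ∑ d ∈ Icc 1 K, (1 : ℝ) / d := by
    rw [sum_image (by intro a _ b _ h; simpa using h)]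
    refine sum_congr rfl fun d hd => ?_
    have : (1 : ℝ) ≤ d := by exact_mod_cast (mem_Icc.1 hd).1
    simp [this]
  have h3 : ∑ i ∈ (Icc 1 K).image (fun d : ℕ => -(d : ℤ)), 1 / max (1 : ℝ) |(i : ℝ)|
      = ∑ d ∈ Icc 1 K, (1 : ℝ) / d := by
    rw [sum_image (by intro a _ b _ h; simpa using h)]
    refine sum_congr rfl fun d hd => ?_
    have : (1 : ℝ) ≤ d := by exact_mod_cast (mem_Icc.1 hd).1
    simp [this]
  refine (hu _ _).trans ?_
  have h4 := hu ((Icc 1 K).image (fun d : ℕ => (d : ℤ))) ((Icc 1 K).image (fun d : ℕ => -(d : ℤ)))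
  rw [h2, h3] at h4
  simp only [sum_singleton, Int.cast_zero, abs_zero, zero_le_one, max_eq_left, div_one]
  linarith

/-- Translation of a sum. -/
lemma shift_sum {M : Type*} [AddCommMonoid M] (U U1 : Finset ℤ) (t : ℤ) (F : ℤ → ℤ → M)
    (h0 : ∀ s ∉ U1, ∀ u, F s u = 0) (h1 : ∀ s ∈ U1, t + s ∈ U) :
    ∑ u ∈ U, F (u - t) u = ∑ s ∈ U1, F s (t + s) := by
  have e : ∑ s ∈ U1, F s (t + s) = ∑ u ∈ U1.image (fun s => t + s), F (u - t) u := by
    rw [sum_image (by intro a _ b _ h; simpa using h)]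
    simp
  rw [e]
  symm
  apply sum_subset
  · intro u hu
    obtain ⟨s, hs, rfl⟩ := mem_image.1 hu
    exact h1 s hs
  · intro u _ hu
    apply h0
    intro h
    exact hu (mem_image.2 ⟨u - t, h, by ring⟩)

/-- Convolution of the weight `g` on `W` with `c`. -/
def conv (W : Finset ℤ) (g c : ℤ → ℝ) (u : ℤ) : ℝ := ∑ t ∈ W, g t * c (u - t)

lemma conv_sum (W U U1 : Finset ℤ) (g c : ℤ → ℝ) (h0 : ∀ s ∉ U1, c s = 0)
    (h1 : ∀ t ∈ W, ∀ s ∈ U1, t + s ∈ U) (X : ℤ → ℝ) :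
    ∑ u ∈ U, conv W g c u * X u = ∑ t ∈ W, ∑ s ∈ U1, g t * c s * X (t + s) := by
  simp only [conv, sum_mul]
  rw [sum_comm]
  refine sum_congr rfl fun t ht => ?_
  exact shift_sum U U1 t (fun s u => g t * c s * X u) (fun s hs u => by simp [h0 s hs]) (h1 t ht)

lemma conv_ft (W U U1 : Finset ℤ) (g c : ℤ → ℝ) (h0 : ∀ s ∉ U1, c s = 0)
    (h1 : ∀ t ∈ W, ∀ s ∈ U1, t + s ∈ U) (α : ℝ) :
    fr U (conv W g c) α = fr W g α * fr U1 c α := by
  simp only [fr]
  rw [← norm_mul]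
  congr 1
  simp only [ft, conv, sum_mul_sum]
  push_cast
  simp only [sum_mul]
  rw [sum_comm]
  refine sum_congr rfl fun t ht => ?_
  rw [shift_sum U U1 t (fun s u => (g t : ℂ) * c s * ee (u * α))
    (fun s hs u => by simp [h0 s hs]) (h1 t ht)]
  refine sum_congr rfl fun s _ => ?_
  push_cast
  rw [add_mul, ee_add]; ring

lemma fr_le_sum (U : Finset ℤ) (c : ℤ → ℝ) (hc : ∀ u ∈ U, 0 ≤ c u) (α : ℝ) :
    fr U c α ≤ ∑ u ∈ U, c u := by
  refine (norm_sum_le _ _).trans (le_of_eq (sum_congr rfl fun u hu => ?_))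
  rw [norm_mul, norm_ee, mul_one, Complex.norm_real, Real.norm_eq_abs, abs_of_nonneg (hc u hu)]

lemma fr_zero (U : Finset ℤ) (c : ℤ → ℝ) (hc : ∀ u ∈ U, 0 ≤ c u) :
    fr U c 0 = ∑ u ∈ U, c u := by
  simp only [fr, ft, mul_zero, ee_zero, mul_one]
  rw [← Complex.ofReal_sum, Complex.norm_real, Real.norm_eq_abs, abs_of_nonneg (sum_nonneg hc)]

lemma fr_neg (U : Finset ℤ) (c : ℤ → ℝ) (α : ℝ) : fr U c (-α) = fr U c α := by
  simp only [fr]
  rw [← Complex.norm_conj]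
  congr 1
  simp only [ft, map_sum, map_mul, Complex.conj_ofReal, conj_ee]
  refine sum_congr rfl fun u _ => ?_
  congr 2; ring

lemma fr_lip (A : ℤ) (T : ℕ) (U : Finset ℤ) (hU : U ⊆ Icc A (A + T)) (c : ℤ → ℝ)
    (hc : ∀ u ∈ U, 0 ≤ c u) (α η : ℝ) :
    fr U c (α + η) ≤ fr U c α + 7 * T * |η| * ∑ u ∈ U, c u := by
  have e : ft U (fun u => (c u : ℂ)) (α + η) = ee (A * η) * (ft U (fun u => (c u : ℂ)) α
      + ∑ u ∈ U, (c u : ℂ) * ee (u * α) * (ee (((u - A : ℤ) : ℝ) * η) - 1)) := by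
    simp only [ft]
    rw [← sum_add_distrib, mul_sum]
    refine sum_congr rfl fun u _ => ?_
    have : (u : ℝ) * (α + η) = A * η + (u * α + ((u - A : ℤ) : ℝ) * η) := by push_cast; ring
    rw [this, ee_add, ee_add]; ring
  simp only [fr]
  rw [e, norm_mul, norm_ee, one_mul]
  refine (norm_add_le _ _).trans (add_le_add le_rfl ?_)
  rw [mul_sum]
  refine (norm_sum_le _ _).trans (sum_le_sum fun u hu => ?_)
  rw [norm_mul, norm_mul, norm_ee, mul_one, Complex.norm_real, Real.norm_eq_abs,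
    abs_of_nonneg (hc u hu), mul_comm]
  refine mul_le_mul_of_nonneg_right ((norm_ee_sub_one_le _).trans ?_) (hc u hu)
  have h1 := mem_Icc.1 (hU hu)
  have h2 : |((u - A : ℤ) : ℝ)| ≤ T := by
    have : |u - A| ≤ (T : ℤ) := by rw [abs_le]; constructor <;> omega
    exact_mod_cast this
  rw [abs_mul, mul_assoc]
  gcongr

end Pool.Agent.Lib.MP_a93a41_nt.GM
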