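import Pool.Agent.Lib.MP_a93a41_nt.GM9

/-! Blocks and windows in terms of exponents. -/

namespace Pool.Agent.Lib.MP_a93a41_nt.GM

open Finset Real Pool.Agent.Lib.LargeSieve

noncomputable def uu (N l : ℕ) : ℝ := Real.logb N (2 ^ l)

/-- The support interval attached to a block. -/
noncomputable def Ub (b : Finset ℤ × ℤ × ℕ) : Finset ℤ := Icc (b.2.1 - b.2.2) (b.2.1 + 2 * b.2.2)

/-- The output of the block lemma. -/
structure Good (N : ℕ) (η ρ f e e6 : ℝ) (m : ℕ) (b : Finset ℤ × ℤ × ℕ) (l : ℕ) (W' : Finset ℤ)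
    (ω : ℤ → ℝ) : Prop where
  sub : W' ⊆ b.1
  nn : ∀ u, 0 ≤ ω u
  ge : ∀ u ∈ W', 1 ≤ ω u
  zero : ∀ u ∉ Ub b, ω u = 0
  big : pw N (ρ - 3 * η) ≤ #W'
  lm : 2 ^ l ≤ m
  u1 : f ≤ 2 * ρ + 3 * uu N l + 4 * η
  u2 : f ≤ 2 * uu N l + e + 4 * η
  n1 : ∑ u ∈ Ub b, ω u ≤ pw N (2 * ρ - uu N l + 4 * η)
  n2 : ∑ u ∈ Ub b, ω u ^ 2 ≤ pw N (2 * ρ - uu N l + 5 * η)
  n3 : ∑ u ∈ Ub b, ω u ^ 2 ≤ pw N (2 * ρ + 4 * uu N l + e6 - 2 * f + 5 * η)
  n4 : ∀ P : ℕ, 2 * b.2.2 < P → ∑ x ∈ XX P, fr (Ub b) ω ((x : ℝ) / P)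
    ≤ P * pw N ((3 * ρ + 2 * uu N l - f) / 2 + 3 * η)

namespace Env

variable {N : ℕ} {η : ℝ} (E : Env N η)
include E

lemma pw_uu (l : ℕ) : pw N (uu N l) = 2 ^ l :=
  Real.rpow_logb (by linarith [E.one_lt]) E.one_lt.ne' (by positivity)

lemma Lam (k : ℕ) {c : ℝ} (hc : c ≤ 10000) : c * pw N η ^ k ≤ pw N ((k + 1) * η) :=
  E.mono (E.mul (E.c hc) (E.pow le_rfl (E.pos _).le k) (by have := E.pos η; positivity))
    (by linarith)

lemma thr {V σ ρ w : ℝ} (hV : pw N (σ - η) ≤ V) (hw : pw N ρ ≤ w) (h : 2 + 4 * η ≤ ρ + 2 * σ) :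
    10240 * (N : ℝ) ^ 2 ≤ w * V ^ 2 := by
  have a1 : (10240 : ℝ) ≤ pw N (η + η) := by
    have := E.mul (E.c (c := 2) (by norm_num)) (E.c (c := 5120) (by norm_num)) (by norm_num)
    linarith
  exact (E.mul a1 (E.pow E.n (by positivity) 2) (by positivity)).trans
    (E.lmono (E.lmul hw (E.lpow hV 2)) (by push_cast; linarith))

lemma blockE {V σ τ ρ q4 q f e e6 : ℝ} (hV : pw N (σ - η) ≤ V) (hσ : η ≤ σ) {a : ℕ → ℂ}
    (b : Finset ℤ × ℤ × ℕ) (h : LV N V a b.1) (hb : b.1 ⊆ Icc b.2.1 (b.2.1 + b.2.2)) {m : ℕ}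
    (hm : #b.1 = m) (hm1 : pw N ρ ≤ m) (hm2 : (m : ℝ) ≤ pw N (ρ + η))
    (hΔ : (b.2.2 : ℝ) + 1 ≤ pw N τ) (t1 : 1 ≤ τ) (t2 : τ ≤ 2) (r0 : η ≤ ρ) (r1 : ρ ≤ 1)
    (k1 : 2 * (ρ + η) ≤ q4) (k2 : 4 * (τ - 1 + η) + (ρ + η) ≤ q4)
    (k3 : 5 * (ρ + η) / 4 + τ / 2 ≤ q4) (k4 : 3 * (ρ + η) / 2 + q4 / 4 + 5 * η ≤ q)
    (k5 : 2 + 5 * η ≤ ρ + 2 * σ) (k6 : q + 5 + 24 * η ≤ 3 * ρ + 6 * σ)
    (k7 : 2 * τ + 3 + 3 * ρ / 2 + 30 * η ≤ 3 * ρ + 6 * σ)
    (k8 : τ + 4 + (3 * ρ + f) / 4 + 30 * η ≤ 3 * ρ + 6 * σ)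
    (k9 : ρ + 4 - 4 * σ + 11 * η ≤ e) (k10 : ρ + 1 + q - 2 * σ + 5 * η ≤ e)
    (k11 : e + 4 - 4 * σ + 10 * η ≤ e6) (k12 : 3 * ρ + 1 + q - 2 * σ + 7 * η ≤ e6) :
    ∃ (l : ℕ) (W' : Finset ℤ) (ω : ℤ → ℝ), Good N η ρ f e e6 m b l W' ω := by
  have hη := E.hη
  have hη1 := E.hη1
  have hV1 : 1 ≤ V := (E.one_le (by linarith)).trans hV
  obtain ⟨B, A, Δ⟩ := b
  simp only at h hb hm hΔ
  obtain ⟨P, M, H, hM, hp⟩ := E.par t1 (by linarith)
  have hp := hp Δ hΔ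
  have hc : ∀ W ⊆ B, (#W : ℝ) ≤ pw N (ρ + η) := by
    intro W hW
    refine le_trans ?_ hm2
    exact_mod_cast hm ▸ card_le_card hW
  have hQ : ∀ W ⊆ B, Qf W (fun _ => 1) M ≤ pw N q := by
    intro W hW
    exact E.mono (E.HB4 A Δ W (hW.trans hb) _ (fun _ _ => zero_le_one) M (α := ρ + η)
      (β := ρ + η) (q := q4) (by simpa using hc W hW) (by simpa using hc W hW) hΔ hM
      (by linarith) (by linarith) (by linarith) (by linarith) k1 k2 (by linarith)) k4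
  have he : ∀ W ⊆ B, En W Δ ≤ pw N e := fun W hW =>
    E.en1 hp hV (h.mono hW) (hW.trans hb) (hc W hW) (hQ W hW) (by linarith) (by linarith)
  have he6 : ∀ W ⊆ B, ∑ u ∈ Icc (A - Δ) (A + 2 * Δ), r3 W u ^ 2 ≤ pw N e6 := fun W hW =>
    E.en2 hp hV (h.mono hW) (hW.trans hb) (hc W hW) (hQ W hW) (he W hW) k11 (by linarith)
  have h4 : ∀ W ⊆ B, m ≤ 2 * #W → pw N f ≤ E4 W Δ := by
    intro W hW hmW
    by_contra hcon
    push Not at hcon
    have a1 : pw N (ρ - η) ≤ #W :=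
      E.ldiv (Y := 2) (hm1.trans (by exact_mod_cast hmW)) (E.c (by norm_num)) (by positivity)
    have a2 := T1 E.hL hp hV1 (h.mono hW) (hW.trans hb) (E.thr hV a1 (by linarith))
      (pw N ((ρ + η) / 4)) (pw N ((3 * (ρ + η) + f) / 4)) (E.pos _)
      ((hc W hW).trans (E.lmono (E.lpow le_rfl 4) (by push_cast; linarith))) (E.pos _).le
      ((E.mul (E.pow (hc W hW) (by positivity) 3) hcon.le (by unfold E4; positivity)).trans
        (E.lmono (E.lpow le_rfl 4) (by push_cast; linarith)))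
    have a3 := E.add (z := 3 * ρ + 6 * σ - 5 - 25 * η)
      (E.mul (E.pow hM (by positivity) 2) (E.pow (le_refl (pw N ((ρ + η) / 4))) (E.pos _).le 6)
        (by have := E.pos ((ρ + η) / 4); positivity))
      (E.mul hM (le_refl (pw N ((3 * (ρ + η) + f) / 4))) (E.pos _).le)
      (by push_cast; linarith) (by linarith)
    have a4 := E.add (z := 3 * ρ + 6 * σ - 5 - 23 * η) (hQ W hW)
      (E.mul (E.c (c := 2) (by norm_num)) a3
        (by have := E.pos ((ρ + η) / 4); have := E.pos ((3 * (ρ + η) + f) / 4); positivity))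
      (by linarith) (by linarith)
    have a5 := E.mul (E.mul (E.pow (le_refl (pw N η)) (E.pos _).le 13)
      (E.pow E.n (by positivity) 5) (by positivity)) a4 (by
        have := E.pos ((ρ + η) / 4); have := E.pos ((3 * (ρ + η) + f) / 4)
        have := Qf_nonneg W (fun _ => 1) M; positivity)
    have a6 := E.le_iff.1 ((E.lmul (E.lpow a1 3) (E.lpow hV 6)).trans (a2.trans a5))
    push_cast at a6
    linarith
  have hm0 : 2 ≤ m := by
    have : (2 : ℝ) ≤ m := (E.c (by norm_num)).trans (E.lmono hm1 r0)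
    exact_mod_cast this
  obtain ⟨l, W', ω, c1, c2, c3, c4, c5, c6, c7, c8, c9, c10, c11, c12⟩ :=
    block B A Δ m hb hm hm0 (2 * pw N η) (pw N f) (pw N e) (pw N e6)
      (E.hL.nlog_le (E.mono hm2 (by linarith))) (E.pos _) h4 he he6
  have hy := E.pw_uu l
  have hm' : (0 : ℝ) ≤ m := by positivity
  refine ⟨l, W', ω, c1, c2, c3, c4, ?_, c6, ?_, ?_, ?_, ?_, ?_, ?_⟩
  · refine E.lmono (E.ldiv (hm1.trans c5) (y := 3 * η) ?_ (by positivity)) le_rfl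
    exact (le_of_eq (by ring)).trans (E.mono (E.Lam 2 (c := 80) (by norm_num)) (by norm_num))
  · have a1 : 16 * (2 * pw N η) ≤ pw N (2 * η) :=
      (le_of_eq (by ring)).trans (E.mono (E.Lam 1 (c := 32) (by norm_num)) (by norm_num))
    have := E.le_iff.1 (c7.trans (E.mul (E.mul a1 (E.pow hm2 hm' 2) (by positivity))
      (E.pow hy.ge (by positivity) 3) (by positivity)))
    push_cast at this; linarith
  · have a1 : 640 * (2 * pw N η) ^ 3 ≤ pw N (4 * η) :=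
      (le_of_eq (by ring)).trans (E.mono (E.Lam 3 (c := 5120) (by norm_num)) (by norm_num))
    have := E.le_iff.1 (c8.trans (E.mul (E.mul a1 (E.pow hy.ge (by positivity) 2) (by positivity))
      le_rfl (E.pos _).le))
    push_cast at this; linarith
  · have a1 : 16 * (2 * pw N η) ≤ pw N (2 * η) :=
      (le_of_eq (by ring)).trans (E.mono (E.Lam 1 (c := 32) (by norm_num)) (by norm_num))
    exact E.mono (E.div (c9.trans (E.mul a1 (E.pow hm2 hm' 2) (by positivity))) hy.le)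
      (by push_cast; linarith)
  · have a1 : 512 * (2 * pw N η) ^ 2 ≤ pw N (3 * η) :=
      (le_of_eq (by ring)).trans (E.mono (E.Lam 2 (c := 2048) (by norm_num)) (by norm_num))
    exact E.mono (E.div (c10.trans (E.mul a1 (E.pow hm2 hm' 2) (by positivity))) hy.le)
      (by push_cast; linarith)
  · have a1 : 256 * (2 * pw N η) ^ 2 ≤ pw N (3 * η) :=
      (le_of_eq (by ring)).trans (E.mono (E.Lam 2 (c := 1024) (by norm_num)) (by norm_num))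
    exact E.mono (E.div (c11.trans (E.mul (E.mul (E.mul a1 (E.pow hm2 hm' 2) (by positivity))
      (E.pow hy.ge (by positivity) 4) (by positivity)) le_rfl (E.pos _).le)) (E.lpow le_rfl 2))
      (by push_cast; linarith)
  · intro P' hP'
    have hP0 : (0 : ℝ) < P' := by exact_mod_cast (by omega : 0 < P')
    have a1 : 1024 * (2 * pw N η) ^ 2 ≤ pw N (3 * η) :=
      (le_of_eq (by ring)).trans (E.mono (E.Lam 2 (c := 4096) (by norm_num)) (by norm_num))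
    have a2 : ((∑ x ∈ XX P', fr (Icc (A - Δ) (A + 2 * Δ)) ω ((x : ℝ) / P')) / P') ^ 2 * pw N f
        ≤ 1024 * (2 * pw N η) ^ 2 * m ^ 3 * (2 ^ l) ^ 2 := by
      rw [div_pow, div_mul_eq_mul_div, div_le_iff₀ (by positivity)]
      exact (c12 P' hP').trans (le_of_eq (by ring))
    have a3 := E.root (E.div (a2.trans (E.mul (E.mul a1 (E.pow hm2 hm' 3) (by positivity))
      (E.pow hy.ge (by positivity) 2) (by positivity))) le_rfl)
    rw [mul_comm, ← div_le_iff₀ hP0]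
    exact E.mono a3 (by push_cast; linarith)

lemma windowE {V σ τ ρ κ x q1 qw f e e6 e1 : ℝ} (hV : pw N (σ - η) ≤ V) (hσ : η ≤ σ) {a : ℕ → ℂ}
    {W : Finset ℤ} (h : LV N V a W) {m l T1 : ℕ} (hm2 : (m : ℝ) ≤ pw N (ρ + η)) (A : ℤ)
    (F : Finset (Finset ℤ × ℤ × ℕ)) (W' : Finset ℤ × ℤ × ℕ → Finset ℤ)
    (ω : Finset ℤ × ℤ × ℕ → ℤ → ℝ)
    (hF : ∀ b ∈ F, b.1 ⊆ W ∧ #b.1 = m ∧ b.1 ⊆ Icc b.2.1 (b.2.1 + b.2.2) ∧ b.2.2 ≤ T1 ∧
      A ≤ b.2.1 ∧ b.2.1 ≤ A + T1 ∧ Good N η ρ f e e6 m b l (W' b) (ω b))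
    (hd : ∀ b ∈ F, ∀ b' ∈ F, b ≠ b' → Disjoint (Ub b) (Ub b'))
    (hK1 : pw N κ ≤ #F) (hK2 : (#F : ℝ) ≤ pw N (κ + η)) (hT : 2 * (T1 : ℝ) + 1 ≤ pw N τ)
    (t1 : 1 ≤ τ) (t2 : τ ≤ 2) (r0 : 0 ≤ κ + ρ) (r1 : κ + ρ ≤ 1)
    (hx : ρ - uu N l + 5 * η ≤ x ∨ ρ + 4 * uu N l + e6 - 2 * f + 5 * η ≤ x)
    (k1 : 2 * (κ + ρ + 2 * η) ≤ q1) (k2 : 2 * (τ - 1 + η) + (κ + ρ + 2 * η) ≤ q1)
    (k3 : 5 * (κ + ρ + 2 * η) / 4 + τ / 2 ≤ q1)
    (j0 : 0 ≤ (τ + η) / 2 + (κ + ρ + x + η) / 4 - (κ + 2 * ρ - uu N l + 5 * η) / 2)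
    (j0' : (τ + η) / 2 + (κ + ρ + x + η) / 4 - (κ + 2 * ρ - uu N l + 5 * η) / 2 ≤ 4)
    (j1 : 2 * (κ + 2 * ρ - uu N l + 5 * η) ≤ qw) (j2 : 2 * (τ - 1 + η) + (κ + ρ + x + η) ≤ qw)
    (j3 : (κ + 2 * ρ - uu N l + 5 * η) / 2 + 3 * (κ + ρ + x + η) / 4 + (τ + η) / 2 ≤ qw)
    (k5 : 2 + 7 * η ≤ κ + ρ + 2 * σ)
    (k9 : κ + ρ + 4 - 4 * σ + 12 * η ≤ e1)
    (k10 : 2 * (κ + ρ) + 1 + q1 / 2 - 2 * σ + 16 * η ≤ e1)
    (ha : 2 * τ + 3 + κ + (3 * ρ + 2 * uu N l - f) / 2 + (κ + ρ) + 50 * η ≤ 3 * (κ + ρ) + 6 * σ)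
    (hb : τ + 4 + (κ + ρ + x) / 2 + e1 / 2 + 50 * η ≤ 3 * (κ + ρ) + 6 * σ)
    (hc : 5 + (κ + 2 * ρ - uu N l + qw / 2) / 2 + (κ + ρ + q1 / 2) / 2 + 50 * η
      ≤ 3 * (κ + ρ) + 6 * σ) : False := by
  have hη := E.hη
  have hη1 := E.hη1
  have hV1 : 1 ≤ V := (E.one_le (by linarith)).trans hV
  obtain ⟨P, M, H, hM, hp⟩ := E.par t1 (by linarith)
  have hT' : ((2 * T1 : ℕ) : ℝ) + 1 ≤ pw N τ := by push_cast; exact hT
  have hp := hp (2 * T1) hT'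
  set T := 2 * T1 with hTd
  set W1 := F.biUnion W' with hW1
  set U := Icc (A - T) (A + 2 * T) with hU
  set Ω : ℤ → ℝ := fun u => ∑ b ∈ F, ω b u with hΩ
  have s1 : ∀ b ∈ F, W' b ⊆ Ub b := by
    intro b hb
    obtain ⟨-, -, a3, -, -, -, a7⟩ := hF b hb
    exact a7.sub.trans (a3.trans (Icc_subset_Icc (by omega) (by omega)))
  have s2 : ∀ b ∈ F, Ub b ⊆ U := by
    intro b hb
    obtain ⟨-, -, -, a4, a5, a6, -⟩ := hF b hb
    exact Icc_subset_Icc (by omega) (by omega)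
  have s3 : W1 ⊆ Icc A (A + T) := by
    rw [hW1, biUnion_subset]
    intro b hb
    obtain ⟨-, -, a3, a4, a5, a6, a7⟩ := hF b hb
    exact a7.sub.trans (a3.trans (Icc_subset_Icc a5 (by omega)))
  have s4 : W1 ⊆ W := by
    rw [hW1, biUnion_subset]
    intro b hb
    obtain ⟨a1, -, -, -, -, -, a7⟩ := hF b hb
    exact a7.sub.trans a1
  have s5 : (#W1 : ℝ) = ∑ b ∈ F, (#(W' b) : ℝ) := by
    rw [hW1, card_biUnion fun b hb b' hb' hne =>
      Disjoint.mono (s1 b hb) (s1 b' hb') (hd b hb b' hb' hne)]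
    push_cast; rfl
  have up : ∀ (g : Finset ℤ × ℤ × ℕ → ℝ) (y : ℝ), (∀ b ∈ F, g b ≤ pw N y) →
      ∑ b ∈ F, g b ≤ pw N (κ + η + y) := by
    intro g y hg
    have := sum_le_card_nsmul _ _ _ hg
    rw [nsmul_eq_mul] at this
    exact this.trans (E.mul hK2 le_rfl (E.pos _).le)
  have c1 : (#W1 : ℝ) ≤ pw N (κ + ρ + 2 * η) := by
    rw [s5]
    refine E.mono (up _ (ρ + η) fun b hb => le_trans ?_ hm2) (by linarith)
    obtain ⟨-, a2, -, -, -, -, a7⟩ := hF b hb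
    exact_mod_cast a2 ▸ card_le_card a7.sub
  have c2 : pw N (κ + ρ - 3 * η) ≤ #W1 := by
    rw [s5]
    have := card_nsmul_le_sum F (fun b => (#(W' b) : ℝ)) _ fun b hb => (hF b hb).2.2.2.2.2.2.big
    rw [nsmul_eq_mul] at this
    exact (E.lmono (E.lmul hK1 le_rfl) (by linarith)).trans this
  have g0 : ∀ u, 0 ≤ Ω u := fun u => sum_nonneg fun b hb => (hF b hb).2.2.2.2.2.2.nn u
  have g1 : ∀ u ∈ W1, 1 ≤ Ω u := by
    intro u hu
    obtain ⟨b, hb, hub⟩ := mem_biUnion.1 hu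
    exact ((hF b hb).2.2.2.2.2.2.ge u hub).trans
      (single_le_sum (f := fun b => ω b u) (fun b hb => (hF b hb).2.2.2.2.2.2.nn u) hb)
  have ext : ∀ {K : Type} [AddCommMonoid K], ∀ b ∈ F, ∀ g : ℝ → ℤ → K, (∀ u, g 0 u = 0) →
      ∑ u ∈ U, g (ω b u) u = ∑ u ∈ Ub b, g (ω b u) u := by
    intro K _ b hb g hg
    symm
    exact sum_subset (s2 b hb) fun u _ hu => by rw [(hF b hb).2.2.2.2.2.2.zero u hu, hg]
  have n1 : ∑ u ∈ U, Ω u ≤ pw N (κ + 2 * ρ - uu N l + 5 * η) := by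
    rw [sum_comm]
    refine E.mono (up _ _ fun b hb => ?_) (le_of_eq (by ring : κ + η + (2 * ρ - uu N l + 4 * η) = _))
    rw [ext b hb (fun y _ => y) fun _ => rfl]
    exact (hF b hb).2.2.2.2.2.2.n1
  have n2 : ∑ u ∈ U, Ω u ^ 2 ≤ pw N (κ + ρ + x + η) := by
    have a1 : ∀ u, Ω u ^ 2 = ∑ b ∈ F, ω b u ^ 2 := by
      intro u
      simp only [hΩ, sq]
      rw [sum_mul_sum]
      refine sum_congr rfl fun b hb => sum_eq_single_of_mem b hb fun b' hb' hne => ?_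
      by_cases hu : u ∈ Ub b
      · rw [(hF b' hb').2.2.2.2.2.2.zero u (disjoint_left.1 (hd b hb b' hb' hne.symm) hu), mul_zero]
      · rw [(hF b hb).2.2.2.2.2.2.zero u hu, zero_mul]
    simp only [a1]
    rw [sum_comm]
    refine E.mono (up _ (ρ + x) fun b hb => ?_) (by linarith)
    rw [ext b hb (fun y _ => y ^ 2) fun _ => by simp]
    rcases hx with hx | hx
    · exact E.mono (hF b hb).2.2.2.2.2.2.n2 (by linarith)
    · exact E.mono (hF b hb).2.2.2.2.2.2.n3 (by linarith)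
  obtain ⟨b1, b2, b3, b4, b5, b6, b7, b8⟩ := hp.basic
  have n4 : ∑ x ∈ XX P, fr U Ω ((x : ℝ) / P)
      ≤ P * pw N (κ + η + ((3 * ρ + 2 * uu N l - f) / 2 + 3 * η)) := by
    have a1 : ∀ α, fr U Ω α ≤ ∑ b ∈ F, fr (Ub b) (ω b) α := by
      intro α
      simp only [fr, ft, hΩ]
      push_cast
      simp only [sum_mul]
      rw [sum_comm]
      refine (norm_sum_le _ _).trans (le_of_eq (sum_congr rfl fun b hb => ?_))
      rw [ext b hb (fun y u => (y : ℂ) * ee (u * α)) fun _ => by simp]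
    refine (sum_le_sum fun x _ => a1 _).trans ?_
    rw [sum_comm]
    have hP0 : (0 : ℝ) < P := by exact_mod_cast (by omega : 0 < P)
    rw [mul_comm, ← div_le_iff₀ hP0, sum_div]
    refine up _ _ fun b hb => ?_
    rw [div_le_iff₀ hP0, mul_comm]
    exact (hF b hb).2.2.2.2.2.2.n4 P (by have := (hF b hb).2.2.2.1; omega)
  have hQ1 := E.HB2 A T W1 s3 (fun _ => 1) (fun _ _ => zero_le_one) M (α := κ + ρ + 2 * η)
    (β := κ + ρ + 2 * η) (q := q1) (by simpa using c1) (by simpa using c1) hT' hM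
    (by linarith) (by linarith) (by linarith) (by linarith) k1 k2 (by linarith)
  have hQw := E.HB2 (A - T) (3 * T) U (Icc_subset_Icc le_rfl (by push_cast; omega)) Ω
    (fun u _ => g0 u) M (τ := τ + η) (q := qw) n1 n2 (by
      have := E.mul hT' (E.c (c := 3) (by norm_num)) (by norm_num)
      push_cast at this ⊢
      linarith) hM (by linarith) (by linarith) j0 j0' j1 j2 j3
  have hE := E.en1 hp hV (h.mono s4) s3 c1 hQ1 (e := e1) (by linarith) (by linarith)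
  have a2 := T2 E.hL hp hV1 (h.mono s4) s3 subset_rfl
    (s3.trans (Icc_subset_Icc (by omega) (by omega))) Ω (fun u _ => g0 u) g1
    (E.thr hV c2 (by linarith)) _ n4
  have a3 := E.add (z := 3 * (κ + ρ) + 6 * σ - 5 - 30 * η)
    (E.mul (E.pow hM (by positivity) 2) (E.mul
      (le_refl (pw N (κ + η + ((3 * ρ + 2 * uu N l - f) / 2 + 3 * η)))) c1 (by positivity))
      (mul_nonneg (E.pos _).le (by positivity)))
    (E.mul hM (E.mul (E.sqrt n2) (E.sqrt hE) (by positivity)) (by positivity))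
    (by push_cast; linarith) (by linarith)
  have a4 := E.add (z := 3 * (κ + ρ) + 6 * σ - 5 - 29 * η)
    (E.mul (E.sqrt hQw) (E.sqrt hQ1) (by positivity)) a3 (by linarith) (by linarith)
  have a5 := E.mul (E.mul (E.pow (le_refl (pw N η)) (E.pos _).le 13)
    (E.pow E.n (by positivity) 5) (by positivity)) a4 (by
      have := E.pos (κ + η + ((3 * ρ + 2 * uu N l - f) / 2 + 3 * η)); positivity)
  have a6 := E.le_iff.1 ((E.lmul (E.lpow c2 3) (E.lpow hV 6)).trans (a2.trans a5))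
  push_cast at a6
  linarith

end Env

end Pool.Agent.Lib.MP_a93a41_nt.GM
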