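import Mathlib

/-! Counting points by blocks. -/

namespace Pool.Agent.Lib.MP_a93a41_nt.GM

open Finset

theorem exists_blocks (W : Finset ℤ) (T m : ℕ) (hW : W ⊆ Icc 0 (T : ℤ)) (hm : 2 ≤ m) :
    ∃ (B : ℕ → Finset ℤ) (a D : ℕ → ℕ), ∀ j < #W / m, B j ⊆ W ∧ #(B j) = m ∧
      B j ⊆ Icc (a j : ℤ) (a j + D j) ∧ 1 ≤ D j ∧ a j + D j ≤ T ∧
      ∀ j' < #W / m, j < j' → a j + D j < a j' := by
  obtain ⟨w, w1, w2⟩ : ∃ w : ℕ → ℕ, (∀ i < #W, (w i : ℤ) ∈ W) ∧
      ∀ i j, i < j → j < #W → w i < w j := by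
    have p : ∀ i, 0 ≤ W.orderEmbOfFin rfl i := fun i =>
      (mem_Icc.1 (hW (W.orderEmbOfFin_mem rfl i))).1
    refine ⟨fun i => if h : i < #W then (W.orderEmbOfFin rfl ⟨i, h⟩).toNat else 0,
      fun i hi => ?_, fun i j h hj => ?_⟩
    · simp only [dif_pos hi, Int.toNat_of_nonneg (p _)]
      exact W.orderEmbOfFin_mem rfl _
    · simp only [dif_pos hj, dif_pos (h.trans hj)]
      have := (W.orderEmbOfFin rfl).strictMono (show (⟨i, h.trans hj⟩ : Fin #W) < ⟨j, hj⟩ from h)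
      have := p ⟨i, h.trans hj⟩
      omega
  have w3 : ∀ i j, i ≤ j → j < #W → w i ≤ w j := fun i j h hj =>
    h.eq_or_lt.elim (fun e => e ▸ le_rfl) fun h => (w2 i j h hj).le
  have k : ∀ j < #W / m, j * m + m ≤ #W := fun j hj =>
    (Nat.succ_mul j m).symm.trans_le ((Nat.le_div_iff_mul_le (by omega)).1 hj)
  refine ⟨fun j => (Ico (j * m) (j * m + m)).image fun i => (w i : ℤ), fun j => w (j * m),
    fun j => w (j * m + m - 1) - w (j * m), fun j hj => ?_⟩
  have k1 := k j hj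
  have k2 := w2 (j * m) (j * m + m - 1) (by omega) (by omega)
  have k3 := (mem_Icc.1 (hW (w1 (j * m + m - 1) (by omega)))).2
  refine ⟨image_subset_iff.2 fun i hi => w1 i ((mem_Ico.1 hi).2.trans_le k1), ?_,
    image_subset_iff.2 fun i hi => ?_, by simp only; omega, by simp only; omega,
    fun j' hj' h => ?_⟩
  · rw [card_image_of_injOn, Nat.card_Ico, Nat.add_sub_cancel_left]
    intro x hx y hy e
    have hx := mem_Ico.1 (mem_coe.1 hx)
    have hy := mem_Ico.1 (mem_coe.1 hy)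
    have := w2 x y
    have := w2 y x
    simp only at e
    omega
  · have hi := mem_Ico.1 hi
    have := w3 (j * m) i hi.1 (by omega)
    have := w3 i (j * m + m - 1) (by omega) (by omega)
    simp only [mem_Icc]
    omega
  · have k4 := k j' hj'
    have k5 : j * m + m ≤ j' * m := (Nat.succ_mul j m).symm.trans_le (Nat.mul_le_mul_right m h)
    have := w2 (j * m + m - 1) (j' * m) (by omega) (by omega)
    simp only
    omega

theorem far {a a' D D' k : ℕ} (h : a + D < a') (h1 : 2 ^ k ≤ D) (h2 : D < 2 ^ (k + 1))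
    (h3 : D' < 2 ^ (k + 1)) (e : a / 2 ^ k % 7 = a' / 2 ^ k % 7) : a + 2 * D + D' < a' := by
  have p : 0 < 2 ^ k := by positivity
  have a1 : (a + 2 ^ k) / 2 ^ k ≤ a' / 2 ^ k := Nat.div_le_div_right (by omega)
  rw [Nat.add_div_right _ p] at a1
  have a2 := Nat.mul_le_mul_right (2 ^ k) (show a / 2 ^ k + 7 ≤ a' / 2 ^ k by omega)
  have a3 := Nat.div_mul_le_self a' (2 ^ k)
  have a4 := Nat.lt_div_mul_add (a := a) p
  rw [pow_succ] at h2 h3
  rw [add_mul] at a2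
  omega

theorem count_blocks (W : Finset ℤ) (T m T0 Lc : ℕ) (hW : W ⊆ Icc 0 (T : ℤ)) (hm : 2 ≤ m)
    (hT0 : 1 ≤ T0) (cls : Finset ℤ × ℤ × ℕ → ℕ) (K T1 : ℕ → ℕ) (hT1 : ∀ l, 1 ≤ T1 l)
    (hcls : ∀ b : Finset ℤ × ℤ × ℕ, b.1 ⊆ W → #b.1 = m → b.1 ⊆ Icc b.2.1 (b.2.1 + b.2.2) →
      b.2.2 ≤ T0 → cls b < Lc)
    (hno : ∀ l < Lc, ∀ (A : ℤ) (F : Finset (Finset ℤ × ℤ × ℕ)),
      (∀ b ∈ F, b.1 ⊆ W ∧ #b.1 = m ∧ b.1 ⊆ Icc b.2.1 (b.2.1 + b.2.2) ∧ b.2.2 ≤ T0 ∧ cls b = l ∧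
        A ≤ b.2.1 ∧ b.2.1 ≤ A + T1 l) →
      (∀ b ∈ F, ∀ b' ∈ F, b ≠ b' →
        Disjoint (Icc (b.2.1 - b.2.2) (b.2.1 + 2 * b.2.2))
          (Icc (b'.2.1 - b'.2.2) (b'.2.1 + 2 * b'.2.2))) → #F < K l) :
    #W ≤ m * (T / T0 + 2)
      + m * (7 * (Nat.log 2 T0 + 1)) * ∑ l ∈ range Lc, K l * (T / T1 l + 1) := by
  classical
  obtain ⟨B, a, D, h⟩ := exists_blocks W T m hW hm
  obtain ⟨q, hq⟩ : ∃ q, q = #W / m := ⟨_, rfl⟩
  rw [← hq] at h
  obtain ⟨b, hb⟩ : ∃ b : ℕ → Finset ℤ × ℤ × ℕ, ∀ j, b j = (B j, (a j : ℤ), D j) := ⟨_, fun _ => rfl⟩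
  have h1 : #W ≤ m * (q + 1) := hq ▸ (Nat.lt_mul_div_succ _ (by omega)).le
  have h2 : #{j ∈ range q | ¬ D j ≤ T0} ≤ T / T0 + 1 := by
    rw [← card_range (T / T0 + 1)]
    have k : ∀ x y, x < q → y < q → T0 < D y → x < y → (a x + D x) / T0 < (a y + D y) / T0 :=
      fun x y hx hy e l => by
        have := (h x hx).2.2.2.2.2 y hy l
        have : (a x + D x + T0) / T0 ≤ (a y + D y) / T0 := Nat.div_le_div_right (by omega)
        rwa [Nat.add_div_right _ hT0] at this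
    refine card_le_card_of_injOn (fun j => (a j + D j) / T0) (fun j hj => ?_) fun x hx y hy e => ?_
    · exact mem_coe.2 (mem_range.2 (Nat.lt_succ_of_le (Nat.div_le_div_right
        (h j (mem_range.1 (mem_filter.1 hj).1)).2.2.2.2.1)))
    · simp only [coe_filter, mem_range, not_le, Set.mem_ofPred_eq] at hx hy e
      have := k x y hx.1 hy.1 hy.2
      have := k y x hy.1 hx.1 hx.2
      omega
  have h3 : #{j ∈ range q | D j ≤ T0} ≤
      7 * (Nat.log 2 T0 + 1) * ∑ l ∈ range Lc, K l * (T / T1 l + 1) := by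
    rw [card_eq_sum_card_fiberwise (t := (range Lc).sigma fun l =>
      range (Nat.log 2 T0 + 1) ×ˢ range 7 ×ˢ range (T / T1 l + 1))
      (f := fun j => (⟨cls (b j), Nat.log 2 (D j), a j / 2 ^ Nat.log 2 (D j) % 7,
        a j / T1 (cls (b j))⟩ : Σ _ : ℕ, ℕ × ℕ × ℕ)) fun j hj => ?_, sum_sigma, mul_sum]
    · refine sum_le_sum fun l hl => (sum_le_card_nsmul _ _ (K l) fun c _ => ?_).trans_eq (by
        simp only [card_product, card_range, smul_eq_mul]
        ring)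
      obtain ⟨k, r, s⟩ := c
      generalize hS : @filter _ _ (_) (@filter _ _ (_) (range q)) = S
      have mS : ∀ j ∈ S, j < q ∧ D j ≤ T0 ∧ cls (b j) = l ∧ Nat.log 2 (D j) = k ∧
          a j / 2 ^ k % 7 = r ∧ a j / T1 l = s := fun j hj => by
        rw [← hS] at hj
        simp only [mem_filter, mem_range, Sigma.mk.injEq, heq_eq_eq, Prod.mk.injEq] at hj
        obtain ⟨⟨j1, j2⟩, rfl, rfl, j3⟩ := hj
        exact ⟨j1, j2, rfl, rfl, j3⟩
      have key : ∀ x ∈ S, ∀ y ∈ S, x < y → a x + 2 * D x + D y < a y := fun x hx y hy e => by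
        obtain ⟨x1, -, -, rfl, x2, -⟩ := mS x hx
        obtain ⟨y1, -, -, y3, y2, -⟩ := mS y hy
        exact far ((h x x1).2.2.2.2.2 y y1 e)
          (Nat.pow_log_le_self 2 (by have := (h x x1).2.2.2.1; omega))
          (Nat.lt_pow_succ_log_self one_lt_two _) (y3 ▸ Nat.lt_pow_succ_log_self one_lt_two _)
          (x2.trans y2.symm)
      rw [← card_image_of_injOn (f := b) fun x hx y hy e => by
        have := key x hx y hy
        have := key y hy x hx
        simp only [hb, Prod.mk.injEq] at e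
        omega]
      refine (hno l (mem_range.1 hl) (s * T1 l : ℕ) _ (forall_mem_image.2 fun j hj => ?_)
        (forall_mem_image.2 fun x hx => forall_mem_image.2 fun y hy e => ?_)).le
      · obtain ⟨j1, j2, j3, -, -, rfl⟩ := mS j hj
        have := Nat.div_mul_le_self (a j) (T1 l)
        have := Nat.lt_div_mul_add (a := a j) (hT1 l)
        refine ⟨hb j ▸ (h j j1).1, hb j ▸ (h j j1).2.1, hb j ▸ (h j j1).2.2.1, hb j ▸ j2, j3, ?_⟩
        simp only [hb]
        omega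
      · have := key x hx y hy
        have := key y hy x hx
        have : x ≠ y := fun e' => e (e' ▸ rfl)
        simp only [hb, disjoint_left, mem_Icc]
        omega
    · obtain ⟨j1, j2⟩ := mem_filter.1 (mem_coe.1 hj)
      obtain ⟨a1, a2, a3, -, a4, -⟩ := h j (mem_range.1 j1)
      simp only [coe_sigma, Set.mem_sigma_iff, mem_coe, mem_product, mem_range]
      exact ⟨hcls _ (hb j ▸ a1) (hb j ▸ a2) (hb j ▸ a3) (hb j ▸ j2),
        Nat.lt_succ_of_le (Nat.log_mono_right j2), Nat.mod_lt _ (by norm_num),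
        Nat.lt_succ_of_le (Nat.div_le_div_right (by omega))⟩
  have h4 := card_filter_add_card_filter_not (s := range q) fun j => D j ≤ T0
  rw [card_range] at h4
  rw [mul_assoc, ← mul_add]
  exact h1.trans (Nat.mul_le_mul_left m (by omega))

end Pool.Agent.Lib.MP_a93a41_nt.GM
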