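import Pool.Agent.Lib.MP_a93a41_nt.GM3

/-! Reduction of the final statement to the core estimate at integer points. -/

namespace Pool.Agent.Lib.MP_a93a41_nt.GM

open Finset Real Pool.Agent.Lib.LargeSieve

/-- The core estimate: integer points, coefficients supported on `(N/2, N]`. -/
def Core : Prop := ∀ ε : ℝ, 0 < ε → ∃ η : ℝ, 0 < η ∧ ∃ N0 : ℕ, ∀ N : ℕ, N0 ≤ N →
  ∀ (σ τ V : ℝ) (T : ℕ) (a : ℕ → ℂ) (W : Finset ℤ), 3 / 4 ≤ σ → σ ≤ 10 / 13 → 5 / 4 ≤ τ →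
    τ ≤ (3 + 3 * σ) / 4 → (N : ℝ) ^ τ ≤ T → (N : ℝ) ^ (σ - η) ≤ V → LV N V a W →
    W ⊆ Icc 0 (T : ℤ) → (#W : ℝ) ≤ T * (N : ℝ) ^ (ε - (4 * τ + 111 * σ - 72) / 27)

/-- The final statement. -/
def Final : Prop := ∀ ε : ℝ, 0 < ε → ∃ C : ℝ, ∀ (N : ℕ) (a : ℕ → ℂ) (T V : ℝ) (S : Finset ℝ),
  1 ≤ N → (∀ n, ‖a n‖ ≤ 1) → (N : ℝ) ^ (5 / 4 : ℝ) ≤ T → (N : ℝ) ^ (3 / 4 : ℝ) ≤ V →
  V ≤ (N : ℝ) ^ (10 / 13 : ℝ) → (∀ t ∈ S, 0 ≤ t ∧ t ≤ T) →
  (∀ t ∈ S, ∀ t' ∈ S, t ≠ t' → 1 ≤ |t - t'|) →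
  (∀ t ∈ S, V ≤ ‖∑ n ∈ Icc 1 N, a n * (n : ℂ) ^ (-((t : ℂ) * Complex.I))‖) →
  (#S : ℝ) ≤ C * (N : ℝ) ^ ε *
    (T ^ (23 / 27 : ℝ) * (N : ℝ) ^ (8 / 3 : ℝ) * V ^ (-(37 / 9) : ℝ)
      + T * (N : ℝ) ^ (23 / 9 : ℝ) * V ^ (-(38 / 9) : ℝ))

namespace Red

lemma dyad (N : ℕ) (F : ℕ → ℂ) : ∑ n ∈ Icc 1 N, F n = ∑ l ∈ range (Nat.log 2 N + 1),
    ∑ m ∈ Ioc (N / 2) N, if 2 ^ l ∣ m then F (m / 2 ^ l) else 0 := by
  rw [← sum_fiberwise_of_maps_to (g := fun n => Nat.log 2 (N / n)) (t := range (Nat.log 2 N + 1))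
    fun n _ => mem_range.2 (Nat.lt_succ_of_le (Nat.log_mono_right (Nat.div_le_self _ _)))]
  refine sum_congr rfl fun l _ => ?_
  have p : 0 < 2 ^ l := by positivity
  have e : ∀ n, n ∈ (Icc 1 N).filter (fun n => Nat.log 2 (N / n) = l) ↔ n * 2 ^ l ∈ Ioc (N / 2) N :=
    fun n => by
      rw [mem_filter, mem_Icc, mem_Ioc, Nat.div_lt_iff_lt_mul two_pos]
      rcases Nat.eq_zero_or_pos n with rfl | h
      · simp
      constructor
      · rintro ⟨⟨-, h1⟩, h2⟩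
        rwa [Nat.log_eq_iff (.inr ⟨one_lt_two, (Nat.div_pos h1 h).ne'⟩), Nat.le_div_iff_mul_le h,
          Nat.div_lt_iff_lt_mul h, pow_succ, mul_right_comm, mul_comm _ n, and_comm] at h2
      · intro h2
        have h1 := (Nat.le_mul_of_pos_right n p).trans h2.2
        refine ⟨⟨h, h1⟩, ?_⟩
        rwa [Nat.log_eq_iff (.inr ⟨one_lt_two, (Nat.div_pos h1 h).ne'⟩), Nat.le_div_iff_mul_le h,
          Nat.div_lt_iff_lt_mul h, pow_succ, mul_right_comm, mul_comm _ n, and_comm]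
  rw [← sum_filter]
  exact sum_nbij' (fun n => n * 2 ^ l) (fun m => m / 2 ^ l)
    (fun n hn => mem_filter.2 ⟨(e n).1 hn, dvd_mul_left _ _⟩)
    (fun m hm => (e _).2 (by rw [Nat.div_mul_cancel (mem_filter.1 hm).2]; exact (mem_filter.1 hm).1))
    (fun n _ => Nat.mul_div_cancel n p) (fun m hm => Nat.div_mul_cancel (mem_filter.1 hm).2)
    fun n _ => by rw [Nat.mul_div_cancel n p]

lemma ee_Lg (t : ℝ) (n : ℕ) : ee (t * Lg n) = Complex.exp (t * Complex.I * Real.log n) := by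
  rw [ee, Lg, show 2 * π * (t * (Real.log n / (2 * π))) = t * Real.log n by field_simp]
  push_cast
  ring_nf

lemma cpow_eq (t : ℝ) {n : ℕ} (h : n ≠ 0) :
    (n : ℂ) ^ (-((t : ℂ) * Complex.I)) = ee (-t * Lg n) := by
  rw [ee_Lg, Complex.cpow_def_of_ne_zero (Nat.cast_ne_zero.2 h), Complex.natCast_log]
  push_cast
  ring_nf

/-- The coefficients after the Taylor expansion. -/
noncomputable def cf (N : ℕ) (b : ℕ → ℂ) (j m : ℕ) : ℂ :=
  if m ∈ Ioc (N / 2) N then (starRingEnd ℂ) (b m) * (Real.log m - Real.log N : ℝ) ^ j else 0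

lemma log_le {N m : ℕ} (h : m ∈ Ioc (N / 2) N) : |Real.log m - Real.log N| ≤ 1 := by
  rw [mem_Ioc, Nat.div_lt_iff_lt_mul two_pos] at h
  have h0 : (0 : ℝ) < m := by exact_mod_cast (by omega : 0 < m)
  have h1 : (m : ℝ) ≤ N := by exact_mod_cast h.2
  have h2 := Real.log_le_log (h0.trans_le h1) (show (N : ℝ) ≤ m * 2 by exact_mod_cast h.1.le)
  rw [Real.log_mul h0.ne' two_ne_zero] at h2
  rw [abs_le]
  constructor <;> linarith [Real.log_two_lt_d9, Real.log_le_log h0 h1]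

lemma cf_le {N : ℕ} {b : ℕ → ℂ} (hb : ∀ m, ‖b m‖ ≤ 1) (j m : ℕ) : ‖cf N b j m‖ ≤ 1 := by
  unfold cf
  split_ifs with h
  · rw [norm_mul, RCLike.norm_conj, norm_pow, Complex.norm_real]
    exact mul_le_one₀ (hb m) (by positivity) (pow_le_one₀ (norm_nonneg _) (log_le h))
  · simp

lemma taylor (N J : ℕ) {b : ℕ → ℂ} (hb : ∀ m, ‖b m‖ ≤ 1) (t : ℝ) :
    ‖∑ m ∈ Ioc (N / 2) N, b m * ee (-t * Lg m)‖ ≤
      ∑ j ∈ range (J + 1), ‖DP N (cf N b j) ⌊t⌋‖ + N * (2 / 2 ^ J) := by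
  set w : ℂ := -(Int.fract t : ℝ) * Complex.I with hw
  have w1 : ‖w‖ ≤ 1 := by
    simpa [hw, abs_of_nonneg (Int.fract_nonneg t)] using (Int.fract_lt_one t).le
  have e : ∀ m, ee (-t * Lg m) = ee (-Int.fract t * Lg N) * (ee (-(⌊t⌋ * Lg m)) *
      Complex.exp (w * (Real.log m - Real.log N : ℝ))) := fun m => by
    rw [← neg_mul, ee_Lg, ee_Lg, ee_Lg, ← Complex.exp_add, ← Complex.exp_add, hw, Int.fract]
    push_cast
    ring_nf
  simp only [e, mul_left_comm _ (ee (-Int.fract t * Lg N)), ← mul_sum, norm_mul, norm_ee, one_mul]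
  refine (norm_le_norm_add_norm_sub' _ (∑ j ∈ range (J + 1), w ^ j / j.factorial *
    (starRingEnd ℂ) (DP N (cf N b j) ⌊t⌋))).trans (add_le_add
      ((norm_sum_le _ _).trans (sum_le_sum fun j _ => ?_)) ?_)
  · rw [norm_mul, RCLike.norm_conj, norm_div, norm_pow, Complex.norm_natCast]
    exact mul_le_of_le_one_left (norm_nonneg _) (div_le_one_of_le₀ ((pow_le_one₀ (norm_nonneg _)
      w1).trans (by exact_mod_cast j.factorial_pos)) (by positivity))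
  simp only [DP, map_sum, mul_sum]
  rw [sum_comm, ← sum_sub_distrib]
  refine (norm_sum_le _ _).trans ((sum_le_card_nsmul _ _ (2 / 2 ^ J) fun m hm => ?_).trans ?_)
  · have z1 : ‖w * (Real.log m - Real.log N : ℝ)‖ ≤ 1 := by
      rw [norm_mul, Complex.norm_real]
      exact mul_le_one₀ w1 (norm_nonneg _) (log_le hm)
    have h := Complex.exp_bound' (x := w * (Real.log m - Real.log N : ℝ)) (n := J + 1) (by
      rw [div_le_iff₀ (by positivity), Nat.cast_succ, Nat.cast_succ]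
      linarith [J.cast_nonneg (α := ℝ)])
    have f : (2 : ℝ) ^ J ≤ (J + 1).factorial := by
      have := Nat.factorial_mul_pow_le_factorial (m := 1) (n := J)
      rw [add_comm 1 J, Nat.factorial_one, one_mul] at this
      exact_mod_cast this
    calc _ = ‖b m * (ee (-(⌊t⌋ * Lg m)) * (Complex.exp (w * (Real.log m - Real.log N : ℝ)) -
          ∑ j ∈ range (J + 1), (w * (Real.log m - Real.log N : ℝ)) ^ j / j.factorial))‖ := by
          rw [mul_sub, mul_sub, mul_sum, mul_sum]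
          congr 2
          refine sum_congr rfl fun j _ => ?_
          rw [cf, if_pos hm, map_mul, map_mul, conj_ee, map_pow, Complex.conj_ofReal,
            Complex.conj_conj]
          ring
      _ ≤ 1 * (1 * (1 / 2 ^ J * 2)) := by
          rw [norm_mul, norm_mul, norm_ee]
          gcongr
          · exact hb m
          · refine h.trans ?_
            gcongr
            exact pow_le_one₀ (norm_nonneg _) z1
      _ = _ := by ring
  · rw [nsmul_eq_mul, Nat.card_Ioc]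
    gcongr
    exact Nat.sub_le _ _

/-- The coefficients of the class `p`. -/
noncomputable def co (N : ℕ) (a : ℕ → ℂ) (p : ℕ × ℕ) : ℕ → ℂ :=
  cf N (fun m => if 2 ^ p.1 ∣ m then a (m / 2 ^ p.1) else 0) p.2

/-- The classes. -/
def cl (N : ℕ) : Finset (ℕ × ℕ) := range (Nat.log 2 N + 1) ×ˢ range (2 * Nat.log 2 N + 5)

lemma ite_le {a : ℕ → ℂ} (ha : ∀ n, ‖a n‖ ≤ 1) (l m : ℕ) :
    ‖if 2 ^ l ∣ m then a (m / 2 ^ l) else 0‖ ≤ 1 := by
  split_ifs
  · exact ha _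
  · simp

lemma split {N : ℕ} (hN : 1 ≤ N) {a : ℕ → ℂ} (ha : ∀ n, ‖a n‖ ≤ 1) (t : ℝ) :
    ‖∑ n ∈ Icc 1 N, a n * (n : ℂ) ^ (-((t : ℂ) * Complex.I))‖ ≤
      ∑ p ∈ cl N, ‖DP N (co N a p) ⌊t⌋‖ + 1 / 2 := by
  rw [sum_congr rfl fun n hn => congrArg _ (cpow_eq t (n := n) (by have := mem_Icc.1 hn; omega)),
    dyad, cl, sum_product]
  set L := Nat.log 2 N
  refine (norm_sum_le _ _).trans ((sum_le_sum fun l _ => le_trans (le_of_eq ?_)
    (taylor N (2 * L + 4) (ite_le ha l) t)).trans ?_)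
  · rw [← one_mul ‖∑ m ∈ _, _ * _‖, ← norm_ee (t * Lg (2 ^ l)), ← norm_mul, mul_sum]
    refine congrArg _ (sum_congr rfl fun m hm => ?_)
    split_ifs with h
    · obtain ⟨n, rfl⟩ := h
      have n0 : n ≠ 0 := by
        rintro rfl
        simp at hm
      rw [Nat.mul_div_cancel_left n (by positivity), Lg_mul (by positivity) n0, mul_left_comm,
        ← ee_add]
      congr 2
      ring
    · simp
  rw [sum_add_distrib, sum_const, card_range, nsmul_eq_mul]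
  refine add_le_add le_rfl ?_
  have h1 : ((L + 1 : ℕ) : ℝ) ≤ N := by
    exact_mod_cast L.lt_two_pow_self.trans_le (Nat.pow_log_le_self 2 (by omega))
  have h2 : (N : ℝ) ≤ 2 ^ (L + 1) := by exact_mod_cast (Nat.lt_pow_succ_log_self one_lt_two N).le
  calc _ ≤ 2 ^ (L + 1) * (2 ^ (L + 1) * (2 / 2 ^ (2 * L + 4)) : ℝ) := by
        gcongr
        exact h1.trans h2
    _ = _ := by field_simp; ring

lemma floor_inj {S : Finset ℝ} (h : ∀ t ∈ S, ∀ t' ∈ S, t ≠ t' → 1 ≤ |t - t'|) :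
    Set.InjOn (fun t : ℝ => ⌊t⌋) S := fun t ht t' ht' e => by_contra fun c =>
  (Int.abs_sub_lt_one_of_floor_eq_floor e).not_ge (h t ht t' ht' c)

lemma floor_mem {S : Finset ℝ} {T : ℝ} (h : ∀ t ∈ S, 0 ≤ t ∧ t ≤ T) :
    S.image (fun t : ℝ => ⌊t⌋) ⊆ Icc 0 (⌈T⌉₊ : ℤ) := fun k hk => by
  obtain ⟨t, ht, rfl⟩ := mem_image.1 hk
  refine mem_Icc.2 ⟨Int.floor_nonneg.2 (h t ht).1, ?_⟩
  exact_mod_cast (Int.floor_le t).trans ((h t ht).2.trans (Nat.le_ceil T))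

lemma cl_le {δ : ℝ} (h : 0 < δ) : ∃ N1 : ℕ, ∀ N : ℕ, N1 ≤ N → 2 * (#(cl N) : ℝ) ≤ (N : ℝ) ^ δ := by
  obtain ⟨N1, h1⟩ := Filter.eventually_atTop.1 (((tendsto_rpow_atTop (half_pos h)).comp
    tendsto_natCast_atTop_atTop).eventually_ge_atTop (10 * (8 / δ + 1) ^ 2))
  refine ⟨max N1 1, fun N hN => ?_⟩
  have N1' : (1 : ℝ) ≤ N := by exact_mod_cast le_of_max_le_right hN
  have h2 : (2 : ℝ) ^ Nat.log 2 N ≤ N := by
    exact_mod_cast Nat.pow_log_le_self 2 (Nat.cast_pos.1 (one_pos.trans_le N1')).ne'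
  have h3 := Real.log_le_log (by positivity) h2
  rw [Real.log_pow] at h3
  have h4 := Real.log_le_rpow_div (x := N) (ε := δ / 4) (by positivity) (by positivity)
  have h5 := Real.one_le_rpow N1' (show 0 ≤ δ / 4 by positivity)
  have h6 : (0 : ℝ) ≤ Nat.log 2 N := by positivity
  have h7 : (Nat.log 2 N : ℝ) + 1 ≤ (8 / δ + 1) * (N : ℝ) ^ (δ / 4) := by
    have : 8 / δ * (N : ℝ) ^ (δ / 4) = 2 * ((N : ℝ) ^ (δ / 4) / (δ / 4)) := by field_simp; norm_num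
    nlinarith [Real.log_two_gt_d9]
  calc _ ≤ 10 * ((Nat.log 2 N : ℝ) + 1) ^ 2 := by
        rw [cl, card_product, card_range, card_range]
        push_cast
        nlinarith
    _ ≤ 10 * ((8 / δ + 1) * (N : ℝ) ^ (δ / 4)) ^ 2 := by gcongr
    _ ≤ (N : ℝ) ^ (δ / 2) * ((N : ℝ) ^ (δ / 4)) ^ 2 := by
        rw [mul_pow, ← mul_assoc]
        gcongr
        exact h1 N (le_of_max_le_left hN)
    _ = _ := by
        rw [← Real.rpow_natCast, ← Real.rpow_mul (by positivity), ← Real.rpow_add (by positivity)]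
        congr 1
        ring

lemma expo {x σ τ : ℝ} (hx : 0 < x) :
    x ^ τ * x ^ (-((4 * min τ ((3 + 3 * σ) / 4) + 111 * σ - 72) / 27)) ≤
      (x ^ τ) ^ (23 / 27 : ℝ) * x ^ (8 / 3 : ℝ) * (x ^ σ) ^ (-(37 / 9) : ℝ)
        + x ^ τ * x ^ (23 / 9 : ℝ) * (x ^ σ) ^ (-(38 / 9) : ℝ) := by
  simp only [← Real.rpow_mul hx.le, ← Real.rpow_add hx]
  rcases min_choice τ ((3 + 3 * σ) / 4) with e | e <;> rw [e]
  · exact le_add_of_le_of_nonneg (le_of_eq (by congr 1; ring)) (by positivity)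
  · exact le_add_of_nonneg_of_le (by positivity) (le_of_eq (by congr 1; ring))

end Red

open Red in
theorem final_of_core (h : Core) : Final := by
  intro ε e0
  obtain ⟨η, η0, N0, h⟩ := h (ε / 2) (half_pos e0)
  obtain ⟨N1, h1⟩ := cl_le (lt_min η0 (half_pos e0))
  set K := max (max N0 N1) 2
  have K1 : (1 : ℝ) ≤ K := by exact_mod_cast one_le_two.trans (le_max_right _ _)
  have K2 := Real.one_le_rpow K1 (show (0 : ℝ) ≤ 38 / 9 by norm_num)
  refine ⟨3 * (K : ℝ) ^ (38 / 9 : ℝ), fun N a T V S hN ha hT hV hV' hS hs hD => ?_⟩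
  have n1 : (1 : ℝ) ≤ N := by exact_mod_cast hN
  have T1 := (Real.one_le_rpow n1 (by norm_num)).trans hT
  have V1 := (Real.one_le_rpow n1 (by norm_num)).trans hV
  have c1 : (⌈T⌉₊ : ℝ) ≤ 2 * T := by linarith [Nat.ceil_lt_add_one (zero_le_one.trans T1)]
  have e1 := Real.one_le_rpow n1 e0.le
  by_cases hK : K ≤ N
  swap
  · have h2 := card_le_card (floor_mem hS)
    rw [card_image_of_injOn (floor_inj hs), Int.card_Icc] at h2
    have h3 : (#S : ℝ) ≤ ⌈T⌉₊ + 1 := by exact_mod_cast (by omega : #S ≤ ⌈T⌉₊ + 1)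
    have h4 : V ≤ K := hV'.trans ((Real.rpow_le_self_of_one_le n1 (by norm_num)).trans
      (by exact_mod_cast (not_le.1 hK).le))
    calc (#S : ℝ) ≤ 3 * (K : ℝ) ^ (38 / 9 : ℝ) * 1 * (0 + T * 1 * (K : ℝ) ^ (-(38 / 9) : ℝ)) := by
          rw [Real.rpow_neg (by positivity)]
          field_simp
          linarith
      _ ≤ _ := by
          gcongr _ * ?_ * (?_ + _ * ?_ * ?_)
          · positivity
          · exact Real.one_le_rpow n1 (by norm_num)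
          · exact Real.rpow_le_rpow_of_nonpos (by positivity) h4 (by norm_num)
  have n2 : (1 : ℝ) < N := by exact_mod_cast one_lt_two.trans_le (le_of_max_le_right hK)
  have n0 : (0 : ℝ) < N := by positivity
  obtain ⟨σ, rfl⟩ : ∃ σ : ℝ, V = (N : ℝ) ^ σ := ⟨_, (Real.rpow_logb n0 n2.ne' (by positivity)).symm⟩
  obtain ⟨τ, rfl⟩ : ∃ τ : ℝ, T = (N : ℝ) ^ τ := ⟨_, (Real.rpow_logb n0 n2.ne' (by positivity)).symm⟩
  rw [Real.rpow_le_rpow_left_iff n2] at hT hV hV'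
  have k1 := h1 N (le_of_max_le_right (le_of_max_le_left hK))
  have k2 := k1.trans (Real.rpow_le_rpow_of_exponent_le n1 (min_le_left _ _))
  have k3 := k1.trans (Real.rpow_le_rpow_of_exponent_le n1 (min_le_right _ _))
  set B : ℝ := ⌈(N : ℝ) ^ τ⌉₊ *
    (N : ℝ) ^ (ε / 2 - (4 * min τ ((3 + 3 * σ) / 4) + 111 * σ - 72) / 27) with hB
  have b1 : ∀ p ∈ cl N, (#{t ∈ S | (N : ℝ) ^ (σ - η) ≤ ‖DP N (co N a p) ⌊t⌋‖} : ℝ) ≤ B :=
    fun p _ => by
      rw [← card_image_of_injOn ((floor_inj hs).mono (coe_subset.2 (filter_subset _ _)))]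
      refine h N (le_of_max_le_left (le_of_max_le_left hK)) σ _ _ _ (co N a p) _ hV hV'
        (le_min hT (by linarith)) (min_le_right _ _) ((Real.rpow_le_rpow_of_exponent_le n1
          (min_le_left _ _)).trans (Nat.le_ceil _)) le_rfl ⟨cf_le (ite_le ha _) _, fun k hk => ?_⟩
        (floor_mem fun t ht => hS t (mem_filter.1 ht).1)
      obtain ⟨t, ht, rfl⟩ := mem_image.1 hk
      exact (mem_filter.1 ht).2
  have b2 : S ⊆ (cl N).biUnion fun p => {t ∈ S | (N : ℝ) ^ (σ - η) ≤ ‖DP N (co N a p) ⌊t⌋‖} :=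
    fun t ht => by
      by_contra c
      have c1 : ∀ p ∈ cl N, ‖DP N (co N a p) ⌊t⌋‖ < (N : ℝ) ^ (σ - η) := fun p hp =>
        not_le.1 fun d => c (mem_biUnion.2 ⟨p, hp, mem_filter.2 ⟨ht, d⟩⟩)
      have c2 := sum_lt_sum_of_nonempty ⟨(0, 0), by simp [cl]⟩ c1
      rw [sum_const, nsmul_eq_mul] at c2
      have c3 := mul_le_mul_of_nonneg_right k2 (show 0 ≤ (N : ℝ) ^ (σ - η) by positivity)
      rw [← Real.rpow_add n0, add_sub_cancel] at c3
      linarith [(hD t ht).trans (split hN ha t)]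
  calc (#S : ℝ) ≤ ∑ p ∈ cl N, (#{t ∈ S | (N : ℝ) ^ (σ - η) ≤ ‖DP N (co N a p) ⌊t⌋‖} : ℝ) := by
        exact_mod_cast (card_le_card b2).trans card_biUnion_le
    _ ≤ #(cl N) * B := (sum_le_card_nsmul _ _ _ b1).trans_eq (nsmul_eq_mul _ _)
    _ ≤ #(cl N) * (2 * (N : ℝ) ^ τ *
        (N : ℝ) ^ (ε / 2 - (4 * min τ ((3 + 3 * σ) / 4) + 111 * σ - 72) / 27)) := by
        rw [hB]
        gcongr
    _ = 1 * (2 * #(cl N) * (N : ℝ) ^ (ε / 2)) * ((N : ℝ) ^ τ *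
        (N : ℝ) ^ (-((4 * min τ ((3 + 3 * σ) / 4) + 111 * σ - 72) / 27))) := by
        rw [sub_eq_add_neg (ε / 2), Real.rpow_add n0]
        ring
    _ ≤ _ := by
        gcongr ?_ * ?_ * ?_
        · linarith
        · exact (mul_le_mul_of_nonneg_right k3 (by positivity)).trans_eq
            (by rw [← Real.rpow_add n0, add_halves])
        · exact expo n0

end Pool.Agent.Lib.MP_a93a41_nt.GM
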