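import Pool.Agent.Lib.MP_a93a41_nt.GM10
import Pool.Agent.Lib.MP_a93a41_nt.GMCnt
import Pool.Agent.Lib.MP_a93a41_nt.GMRed

/-! Choice of the exponents and the core estimate. -/

namespace Pool.Agent.Lib.MP_a93a41_nt.GM

open Finset Real Pool.Agent.Lib.LargeSieve

lemma params {σ τ d τ0 ρ f e e6 η u τ1 κ : ℝ} (s1 : 3 / 4 ≤ σ) (s2 : σ ≤ 10 / 13) (t1 : 5 / 4 ≤ τ)
    (t2 : τ ≤ (3 + 3 * σ) / 4) (hη : 0 < η) (hη1 : η ≤ 1 / 100000)
    (hd : d = (4 * τ + 111 * σ - 72) / 27) (hτ0 : τ0 = 12 * σ - 6 - 3 * d)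
    (hρ : ρ = τ0 - d + 30 * η) (hf : f = τ0 - d + 4 * (τ0 - 2 * d + 6 * σ - 4))
    (he : e = ρ + 4 - 4 * σ + 11 * η) (he6 : e6 = e + 4 - 4 * σ + 10 * η)
    (hτ1 : τ1 = max τ0 (min τ (6 * σ - 3 - d + 2 * (τ0 - 2 * d + 6 * σ - 4) - u)))
    (hκ : κ = τ1 - τ0 + 270 * η) (u1 : f ≤ 2 * ρ + 3 * u + 4 * η) (u2 : f ≤ 2 * u + e + 4 * η)
    (u3 : u ≤ ρ + η) :
    ∃ x q1 qw e1 : ℝ, (ρ - u + 5 * η ≤ x ∨ ρ + 4 * u + e6 - 2 * f + 5 * η ≤ x) ∧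
      2 * (κ + ρ + 2 * η) ≤ q1 ∧ 2 * (τ1 - 1 + η) + (κ + ρ + 2 * η) ≤ q1 ∧
      5 * (κ + ρ + 2 * η) / 4 + τ1 / 2 ≤ q1 ∧
      0 ≤ (τ1 + η) / 2 + (κ + ρ + x + η) / 4 - (κ + 2 * ρ - u + 5 * η) / 2 ∧
      (τ1 + η) / 2 + (κ + ρ + x + η) / 4 - (κ + 2 * ρ - u + 5 * η) / 2 ≤ 4 ∧
      2 * (κ + 2 * ρ - u + 5 * η) ≤ qw ∧ 2 * (τ1 - 1 + η) + (κ + ρ + x + η) ≤ qw ∧
      (κ + 2 * ρ - u + 5 * η) / 2 + 3 * (κ + ρ + x + η) / 4 + (τ1 + η) / 2 ≤ qw ∧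
      κ + ρ + 4 - 4 * σ + 12 * η ≤ e1 ∧ 2 * (κ + ρ) + 1 + q1 / 2 - 2 * σ + 16 * η ≤ e1 ∧
      2 * τ1 + 3 + κ + (3 * ρ + 2 * u - f) / 2 + (κ + ρ) + 50 * η ≤ 3 * (κ + ρ) + 6 * σ ∧
      τ1 + 4 + (κ + ρ + x) / 2 + e1 / 2 + 50 * η ≤ 3 * (κ + ρ) + 6 * σ ∧
      5 + (κ + 2 * ρ - u + qw / 2) / 2 + (κ + ρ + q1 / 2) / 2 + 50 * η
        ≤ 3 * (κ + ρ) + 6 * σ := by
  rw [max_eq_right (le_min (by linarith) (by linarith))] at hτ1
  have h1 : τ1 ≤ τ := hτ1 ▸ min_le_left _ _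
  have h2 : τ1 ≤ 6 * σ - 3 - d + 2 * (τ0 - 2 * d + 6 * σ - 4) - u := hτ1 ▸ min_le_right _ _
  have h3 : τ1 = τ ∨ τ1 = 6 * σ - 3 - d + 2 * (τ0 - 2 * d + 6 * σ - 4) - u := hτ1 ▸ min_choice _ _
  clear hτ1
  obtain ⟨x, x1, x2, x3⟩ : ∃ x : ℝ, x ≤ ρ - u + 5 * η ∧ x ≤ ρ + 4 * u + e6 - 2 * f + 5 * η ∧
      (x = ρ - u + 5 * η ∨ x = ρ + 4 * u + e6 - 2 * f + 5 * η) :=
    ⟨_, min_le_left _ _, min_le_right _ _, min_choice _ _⟩
  obtain ⟨qw, w1, w2, w3⟩ : ∃ qw : ℝ, 2 * (κ + 2 * ρ - u + 5 * η) ≤ qw ∧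
      (κ + 2 * ρ - u + 5 * η) / 2 + 3 * (κ + ρ + x + η) / 4 + (τ1 + η) / 2 ≤ qw ∧
      (qw = 2 * (κ + 2 * ρ - u + 5 * η) ∨
        qw = (κ + 2 * ρ - u + 5 * η) / 2 + 3 * (κ + ρ + x + η) / 4 + (τ1 + η) / 2) :=
    ⟨_, le_max_left _ _, le_max_right _ _, max_choice _ _⟩
  refine ⟨x, 5 * (κ + ρ + 2 * η) / 4 + τ1 / 2, qw, κ + ρ + 4 - 4 * σ + 12 * η,
    x3.imp (fun h => h.ge) (fun h => h.ge), by linarith, by linarith, le_rfl, ?_, ?_, w1,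
    by linarith, w2, le_rfl, by linarith, by linarith, ?_, ?_⟩
  · rcases x3 with h | h <;> rcases h3 with h' | h' <;> linarith
  · linarith
  · rcases h3 with h' | h' <;> linarith
  · rcases w3 with h | h <;> rcases h3 with h' | h' <;> linarith

theorem core : Core := by
  intro ε hε
  set η := min (ε / 400) (1 / 100000) with hηd
  have hη : 0 < η := lt_min (by linarith) (by norm_num)
  have hη1 : η ≤ 1 / 100000 := min_le_right _ _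
  have hη2 : η ≤ ε / 400 := min_le_left _ _
  obtain ⟨N0, hN0⟩ := exists_env hη hη1
  refine ⟨η, hη, N0, fun N hN σ τ V T a W s1 s2 t1 t2 hT hV h hW => ?_⟩
  have E := hN0 N hN
  clear_value η
  change pw N τ ≤ T at hT
  change pw N (σ - η) ≤ V at hV
  change _ ≤ T * pw N _
  obtain ⟨d, hd⟩ : ∃ d, d = (4 * τ + 111 * σ - 72) / 27 := ⟨_, rfl⟩
  obtain ⟨τ0, hτ0⟩ : ∃ τ0, τ0 = 12 * σ - 6 - 3 * d := ⟨_, rfl⟩
  obtain ⟨ρ, hρ⟩ : ∃ ρ, ρ = τ0 - d + 30 * η := ⟨_, rfl⟩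
  obtain ⟨f, hf⟩ : ∃ f, f = τ0 - d + 4 * (τ0 - 2 * d + 6 * σ - 4) := ⟨_, rfl⟩
  obtain ⟨e, he⟩ : ∃ e, e = ρ + 4 - 4 * σ + 11 * η := ⟨_, rfl⟩
  obtain ⟨e6, he6⟩ : ∃ e6, e6 = e + 4 - 4 * σ + 10 * η := ⟨_, rfl⟩
  rw [← hd]
  obtain ⟨m1, m2⟩ := E.ceil (x := ρ) (by linarith)
  obtain ⟨a1, a2⟩ := E.floor (x := τ0 - η) (by linarith)
  set m := ⌈pw N ρ⌉₊
  set T0 := ⌊pw N (τ0 - η)⌋₊ with hT0
  set τ1 : ℕ → ℝ := fun l =>
    max τ0 (min τ (6 * σ - 3 - d + 2 * (τ0 - 2 * d + 6 * σ - 4) - uu N l)) with hτ1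
  have b1 : ∀ l, τ0 ≤ τ1 l := fun l => le_max_left _ _
  have b2 : ∀ l, τ1 l ≤ τ := fun l => max_le (by linarith) (min_le_left _ _)
  set T1 : ℕ → ℕ := fun l => ⌊pw N (τ1 l - η)⌋₊ with hT1
  set K : ℕ → ℕ := fun l => ⌈pw N (τ1 l - τ0 + 270 * η)⌉₊ with hK
  have c1 := fun l => E.floor (x := τ1 l - η) (by linarith [b1 l])
  have c2 := fun l => E.ceil (x := τ1 l - τ0 + 270 * η) (by linarith [b1 l])
  have hG : ∀ b : Finset ℤ × ℤ × ℕ, ∃ (l : ℕ) (W' : Finset ℤ) (ω : ℤ → ℝ), b.1 ⊆ W → #b.1 = m →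
      b.1 ⊆ Icc b.2.1 (b.2.1 + b.2.2) → b.2.2 ≤ T0 → Good N η ρ f e e6 m b l W' ω := by
    intro b
    by_cases hb : b.1 ⊆ W ∧ #b.1 = m ∧ b.1 ⊆ Icc b.2.1 (b.2.1 + b.2.2) ∧ b.2.2 ≤ T0
    · obtain ⟨l, W', ω, g⟩ := E.blockE hV (by linarith) b (h.mono hb.1) hb.2.2.1 hb.2.1 m1 m2
        (τ := τ0) (q4 := 6 * ρ + 24 * σ - 20 - 122 * η) (q := 3 * ρ + 6 * σ - 5 - 24 * η)
        (f := f) (e := e) (e6 := e6)
        (E.add (x := τ0 - η) (y := τ0 - η) (le_trans (by exact_mod_cast hb.2.2.2) a2)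
          (E.one_le (by linarith)) (by linarith) (by linarith))
        (by linarith) (by linarith) (by linarith) (by linarith) (by linarith) (by linarith)
        (by linarith) (by linarith) (by linarith) (by linarith) (by linarith) (by linarith)
        (by linarith) (by linarith) (by linarith) (by linarith)
      exact ⟨l, W', ω, fun _ _ _ _ => g⟩
    · exact ⟨0, ∅, 0, fun x1 x2 x3 x4 => absurd ⟨x1, x2, x3, x4⟩ hb⟩
  choose cls W' ω hG using hG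
  have one : ∀ {k : ℕ} {x : ℝ}, pw N x ≤ k → 1 ≤ k := by
    intro k x hk
    have := (E.pos x).trans_le hk
    exact_mod_cast this
  have hm0 : 2 ≤ m := by
    have : (2 : ℝ) ≤ m := (E.c (by norm_num)).trans (E.lmono m1 (by linarith))
    exact_mod_cast this
  have cnt := count_blocks W T m T0 (Nat.log 2 m + 1) hW hm0 (one a1) cls K T1
    (fun l => one (c1 l).1)
    (fun b x1 x2 x3 x4 => Nat.lt_succ_of_le (Nat.le_log_of_pow_le (by norm_num)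
      (hG b x1 x2 x3 x4).lm)) (by
      intro l _ A F hF hdj
      by_contra hcon
      obtain ⟨F', hF', hc⟩ := exists_subset_card_eq (not_lt.1 hcon)
      have g : ∀ b ∈ F', Good N η ρ f e e6 m b l (W' b) (ω b) := by
        intro b hb
        obtain ⟨x1, x2, x3, x4, x5, -⟩ := hF b (hF' hb)
        exact x5 ▸ hG b x1 x2 x3 x4
      obtain ⟨b0, hb0⟩ : F'.Nonempty := card_pos.1 (by rw [hc]; exact one (c2 l).1)
      have g0 := g b0 hb0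
      have u3 : uu N l ≤ ρ + η := by
        refine E.le_iff.1 (le_trans ?_ m2)
        rw [E.pw_uu]; exact_mod_cast g0.lm
      obtain ⟨x, q1, qw, e1, p0, p1, p2, p3, p4, p5, p6, p7, p8, p9, p10, p11, p12, p13⟩ :=
        params (τ1 := τ1 l) s1 s2 t1 t2 hη hη1 hd hτ0 hρ hf he he6 rfl rfl g0.u1 g0.u2 u3
      have hTT : T0 ≤ T1 l := Nat.floor_le_floor (E.le_iff.2 (by linarith [b1 l]))
      have d1 := b1 l
      have d2 := b2 l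
      refine E.windowE hV (by linarith) h m2 A F' W' ω (T1 := T1 l) (τ := τ1 l) (e := e)
        (fun b hb => ?_) (fun b hb b' hb' => hdj b (hF' hb) b' (hF' hb'))
        (by rw [hc]; exact (c2 l).1) (by rw [hc]; exact (c2 l).2) ?_ (by linarith) (by linarith)
        (by linarith) (by linarith) p0 p1 p2 p3 p4 p5 p6 p7 p8 (by linarith) p9 p10 p11 p12 p13
      · obtain ⟨x1, x2, x3, x4, -, x6, x7⟩ := hF b (hF' hb)
        exact ⟨x1, x2, x3, x4.trans hTT, x6, x7, g b hb⟩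
      · have y1 := E.mul (E.c (c := 3) (by norm_num)) (le_refl (pw N (τ1 l - η))) (E.pos _).le
        rw [add_sub_cancel] at y1
        have y2 := E.one_le (x := τ1 l - η) (by linarith)
        have y3 : (T1 l : ℝ) ≤ pw N (τ1 l - η) := (c1 l).2
        linarith)
  have hT' : (0 : ℝ) < T := (E.pos _).trans_le hT
  have quo : ∀ (k j : ℕ) (x : ℝ), j ≤ 2 → pw N (x - η) ≤ k → (k : ℝ) ≤ pw N x → x ≤ τ →
      ((T / k + j : ℕ) : ℝ) ≤ T * pw N (2 * η - x) := by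
    intro k j x hj h1 h2 h3
    have y0 : (0 : ℝ) < k := (E.pos _).trans_le h1
    have y1 : ((T / k : ℕ) : ℝ) ≤ T / k := Nat.cast_div_le
    have y2 : (1 : ℝ) ≤ T / k := by rw [le_div_iff₀ y0, one_mul]; exact (E.mono h2 h3).trans hT
    have y3 : (j : ℝ) ≤ 2 := by exact_mod_cast hj
    have y4 : 3 / (k : ℝ) ≤ pw N (η - (x - η)) :=
      E.div (by rw [div_mul_cancel₀ _ y0.ne']; exact E.c (by norm_num)) h1
    push_cast
    calc _ ≤ T * (3 / (k : ℝ)) := by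
          have : T * (3 / (k : ℝ)) = 3 * (T / k) := by ring
          linarith
      _ ≤ _ := by gcongr; exact E.mono y4 (by linarith)
  have z1 : ((m * (T / T0 + 2) : ℕ) : ℝ) / T ≤ pw N (ρ + η + (2 * η - (τ0 - η))) := by
    rw [Nat.cast_mul, mul_div_assoc]
    refine E.mul m2 ?_ (by positivity)
    rw [div_le_iff₀ hT', mul_comm]
    exact quo T0 2 _ le_rfl a1 a2 (by linarith)
  have z2 : ((∑ l ∈ range (Nat.log 2 m + 1), K l * (T / T1 l + 1) : ℕ) : ℝ) / T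
      ≤ pw N (2 * η + (274 * η - τ0)) := by
    rw [Nat.cast_sum, sum_div]
    have y1 : ∀ l ∈ range (Nat.log 2 m + 1), ((K l * (T / T1 l + 1) : ℕ) : ℝ) / T
        ≤ pw N (274 * η - τ0) := by
      intro l _
      rw [Nat.cast_mul, mul_div_assoc]
      refine E.mono (E.mul (c2 l).2 (y := 2 * η - (τ1 l - η)) ?_ (by positivity)) (by linarith)
      rw [div_le_iff₀ hT', mul_comm]
      exact quo (T1 l) 1 _ (by norm_num) (c1 l).1 (c1 l).2 (by linarith [b2 l])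
    have y2 := sum_le_card_nsmul _ _ _ y1
    rw [card_range, nsmul_eq_mul] at y2
    refine y2.trans (E.mul ?_ le_rfl (E.pos _).le)
    refine (E.hL.nlog_le (E.mono m2 (by linarith))).trans ?_
    exact (le_of_eq (by ring)).trans (E.mono (E.Lam 1 (c := 2) (by norm_num)) (by norm_num))
  have z3 : ((7 * (Nat.log 2 T0 + 1) : ℕ) : ℝ) ≤ pw N (2 * η) := by
    have := E.hL.nlog_le (X := T0) (E.mono a2 (by linarith))
    rw [Nat.cast_mul]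
    refine le_trans ?_ (E.mono (E.Lam 1 (c := 14) (by norm_num)) (by norm_num))
    push_cast at this ⊢
    linarith
  have z4 := E.add (z := ε - d) z1 (E.mul (E.mul m2 z3 (by positivity)) z2 (by positivity))
    (by linarith) (by linarith)
  rw [mul_comm, ← div_le_iff₀ hT']
  refine le_trans ?_ z4
  rw [← mul_div_assoc, ← add_div]
  gcongr
  exact_mod_cast cnt

theorem final : Final := final_of_core core

end Pool.Agent.Lib.MP_a93a41_nt.GM
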