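import Pool.Agent.Lib.MP_a93a41_nt.GM1

/-! Double zeta sums: the gcd splitting and a weighted Heath-Brown estimate. -/

namespace Pool.Agent.Lib.MP_a93a41_nt.GM

open Finset Real Pool.Agent.Lib.LargeSieve

noncomputable def zs (A : Finset ℕ) (β : ℕ → ℝ) (s : ℤ) : ℂ := ∑ p ∈ A, (β p : ℂ) * ee (s * Lg p)

lemma sum4_comm {α β M : Type*} [AddCommMonoid M] (A : Finset α) (U : Finset β)
    (f : α → α → β → β → M) :
    ∑ p ∈ A, ∑ q ∈ A, ∑ u ∈ U, ∑ v ∈ U, f p q u v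
      = ∑ u ∈ U, ∑ v ∈ U, ∑ p ∈ A, ∑ q ∈ A, f p q u v := by
  calc ∑ p ∈ A, ∑ q ∈ A, ∑ u ∈ U, ∑ v ∈ U, f p q u v
      = ∑ p ∈ A, ∑ u ∈ U, ∑ v ∈ U, ∑ q ∈ A, f p q u v := by
        refine sum_congr rfl fun p _ => ?_
        rw [sum_comm]
        exact sum_congr rfl fun u _ => sum_comm
    _ = _ := by
        rw [sum_comm]
        exact sum_congr rfl fun u _ => sum_comm

lemma normsq_zs (A : Finset ℕ) (β : ℕ → ℝ) (s : ℤ) :
    ((‖zs A β s‖ ^ 2 : ℝ) : ℂ)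
      = ∑ p ∈ A, ∑ q ∈ A, (β p : ℂ) * β q * ee (s * (Lg p - Lg q)) := by
  push_cast
  rw [← Complex.mul_conj']
  simp only [zs, map_sum, map_mul, conj_ee, Finset.sum_mul_sum, Complex.conj_ofReal]
  refine sum_congr rfl fun u _ => sum_congr rfl fun v _ => ?_
  rw [show (s : ℝ) * (Lg u - Lg v) = s * Lg u + -(s * Lg v) by ring, ee_add]
  ring

lemma form_eq (U : Finset ℤ) (c : ℤ → ℂ) (A : Finset ℕ) (β : ℕ → ℝ) :
    ((∑ p ∈ A, ∑ q ∈ A, β p * β q * ‖ft U c (Lg p - Lg q)‖ ^ 2 : ℝ) : ℂ)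
      = ∑ u ∈ U, ∑ v ∈ U, c u * (starRingEnd ℂ) (c v) * ((‖zs A β (u - v)‖ ^ 2 : ℝ) : ℂ) := by
  simp only [Complex.ofReal_sum, Complex.ofReal_mul, normsq_ft, normsq_zs, mul_sum]
  rw [sum4_comm]
  refine sum_congr rfl fun u _ => sum_congr rfl fun v _ => sum_congr rfl fun p _ =>
    sum_congr rfl fun q _ => ?_
  ring

lemma form_real (U : Finset ℤ) (c : ℤ → ℝ) (A : Finset ℕ) (β : ℕ → ℝ) :
    ∑ p ∈ A, ∑ q ∈ A, β p * β q * fr U c (Lg p - Lg q) ^ 2
      = ∑ u ∈ U, ∑ v ∈ U, c u * c v * ‖zs A β (u - v)‖ ^ 2 := by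
  have := form_eq U (fun u => (c u : ℂ)) A β
  simp only [Complex.conj_ofReal] at this
  simp only [fr]
  exact_mod_cast this

lemma form_shift (U : Finset ℤ) (c : ℤ → ℝ) (hc : ∀ u ∈ U, 0 ≤ c u) (A : Finset ℕ) (β : ℕ → ℝ)
    (y : ℝ) :
    ∑ p ∈ A, ∑ q ∈ A, β p * β q * fr U c (Lg p - Lg q + y) ^ 2
      ≤ ∑ p ∈ A, ∑ q ∈ A, β p * β q * fr U c (Lg p - Lg q) ^ 2 := by
  have h := form_eq U (fun u => (c u : ℂ) * ee (u * y)) A β
  have e : ∀ x : ℝ, fr U c (x + y) = ‖ft U (fun u => (c u : ℂ) * ee (u * y)) x‖ := by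
    intro x
    simp only [fr, ft]
    congr 1
    refine sum_congr rfl fun u _ => ?_
    rw [mul_add, ee_add]; ring
  simp only [e]
  rw [form_real]
  have h3 := congrArg norm h
  rw [Complex.norm_real, Real.norm_eq_abs] at h3
  refine (le_abs_self _).trans (h3.le.trans ?_)
  refine (norm_sum_le _ _).trans (sum_le_sum fun u hu => ?_)
  refine (norm_sum_le _ _).trans (sum_le_sum fun v hv => le_of_eq ?_)
  simp only [norm_mul, RCLike.norm_conj, norm_ee, mul_one, Complex.norm_real, Real.norm_eq_abs,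
    abs_of_nonneg (hc u hu), abs_of_nonneg (hc v hv), abs_pow, abs_norm]

lemma Lg_mul {p q : ℕ} (hp : p ≠ 0) (hq : q ≠ 0) : Lg (p * q) = Lg p + Lg q := by
  simp only [Lg]
  push_cast
  rw [Real.log_mul (by exact_mod_cast hp) (by exact_mod_cast hq)]; ring

lemma wt_mul (p q : ℕ) : wt (p * q) = wt p * wt q := by
  simp only [wt]
  push_cast
  rw [Real.sqrt_mul (by positivity)]; simp [mul_comm]

lemma wt_mul_ge {p q : ℕ} {K : ℝ} (hp : 1 ≤ p) (hq : 1 ≤ q) (h1 : (p : ℝ) ≤ K) (h2 : (q : ℝ) ≤ K) :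
    1 / K ≤ wt p * wt q := by
  rw [← wt_mul, wt]
  have hp' : (1 : ℝ) ≤ p := by exact_mod_cast hp
  have hq' : (1 : ℝ) ≤ q := by exact_mod_cast hq
  apply one_div_le_one_div_of_le
  · apply Real.sqrt_pos.2; push_cast; positivity
  · apply Real.sqrt_le_iff.2
    refine ⟨by linarith, ?_⟩
    push_cast; nlinarith

lemma wt_mul_le {p q : ℕ} {K : ℝ} (hK : 0 < K) (h1 : K ≤ p) (h2 : K ≤ q) :
    wt p * wt q ≤ 1 / K := by
  rw [← wt_mul, wt]
  apply one_div_le_one_div_of_le hK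
  apply Real.le_sqrt_of_sq_le
  push_cast; nlinarith

/-- Pairs with a large common divisor. -/
def lowP (P Y : ℕ) (x : ℕ × ℕ) : Prop := P < Nat.gcd x.1 x.2 * Y

instance (P Y : ℕ) : DecidablePred (lowP P Y) := fun x => by unfold lowP; infer_instance

lemma G_low (U : Finset ℤ) (c : ℤ → ℝ) (P Y : ℕ) (A : Finset ℕ)
    (hA : ∀ n ∈ A, 1 ≤ n ∧ n ≤ P) :
    ∑ x ∈ (A ×ˢ A) with lowP P Y x, fr U c (Lg x.1 - Lg x.2) ^ 2 ≤ P * Qf U c Y := by
  set π' : ℕ × ℕ → ℕ × ℕ := fun x => (x.1 / Nat.gcd x.1 x.2, x.2 / Nat.gcd x.1 x.2) with hπ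
  have key : ∀ x ∈ (A ×ˢ A).filter (lowP P Y), 0 < Nat.gcd x.1 x.2 ∧
      x.1 = Nat.gcd x.1 x.2 * (π' x).1 ∧ x.2 = Nat.gcd x.1 x.2 * (π' x).2 ∧
      1 ≤ x.1 ∧ x.1 ≤ P ∧ 1 ≤ x.2 ∧ x.2 ≤ P ∧ P < Nat.gcd x.1 x.2 * Y := by
    intro x hx
    obtain ⟨h1, h2⟩ := mem_filter.1 hx
    obtain ⟨h3, h4⟩ := mem_product.1 h1
    have := hA _ h3
    have := hA _ h4
    refine ⟨Nat.gcd_pos_of_pos_left _ (by omega), ?_, ?_, by omega, by omega, by omega,
      by omega, h2⟩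
    · exact (Nat.mul_div_cancel' (Nat.gcd_dvd_left _ _)).symm
    · exact (Nat.mul_div_cancel' (Nat.gcd_dvd_right _ _)).symm
  have hmap : ∀ x ∈ (A ×ˢ A).filter (lowP P Y), π' x ∈ Icc 1 Y ×ˢ Icc 1 Y := by
    intro x hx
    obtain ⟨h0, h1, h2, h3, h4, h5, h6, h7⟩ := key x hx
    generalize Nat.gcd x.1 x.2 = g at *
    simp only [mem_product, mem_Icc]
    refine ⟨⟨?_, ?_⟩, ?_, ?_⟩
    · by_contra h; have : (π' x).1 = 0 := by omega
      rw [this] at h1; omega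
    · by_contra h; nlinarith
    · by_contra h; have : (π' x).2 = 0 := by omega
      rw [this] at h2; omega
    · by_contra h; nlinarith
  rw [← sum_fiberwise_of_maps_to hmap, Qf, ← sum_product', mul_sum]
  refine sum_le_sum fun y hy => ?_
  obtain ⟨hy1, hy2⟩ := mem_product.1 hy
  have hp := (mem_Icc.1 hy1).1
  have hq := (mem_Icc.1 hy2).1
  have e : ∑ x ∈ (A ×ˢ A).filter (lowP P Y) with π' x = y, fr U c (Lg x.1 - Lg x.2) ^ 2
      = ∑ x ∈ (A ×ˢ A).filter (lowP P Y) with π' x = y, fr U c (Lg y.1 - Lg y.2) ^ 2 := by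
    refine sum_congr rfl fun x hx => ?_
    obtain ⟨hx1, hx2⟩ := mem_filter.1 hx
    obtain ⟨h0, h1, h2, -⟩ := key x hx1
    rw [hx2] at h1 h2
    generalize Nat.gcd x.1 x.2 = g at *
    rw [h1, h2, Lg_mul (by omega) (by omega), Lg_mul (by omega) (by omega)]
    congr 2; ring
  rw [e, sum_const, nsmul_eq_mul, ← mul_assoc]
  refine mul_le_mul_of_nonneg_right ?_ (sq_nonneg _)
  have hc : #(((A ×ˢ A).filter (lowP P Y)).filter fun x => π' x = y)
      ≤ #(Icc 1 (P / max y.1 y.2)) := by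
    apply card_le_card_of_injOn (fun x => Nat.gcd x.1 x.2)
    · intro x hx
      obtain ⟨hx1, hx2⟩ := mem_filter.1 (mem_coe.1 hx)
      obtain ⟨h0, h1, h2, h3, h4, h5, h6, h7⟩ := key x hx1
      rw [hx2] at h1 h2
      simp only [coe_Icc, Set.mem_Icc]
      refine ⟨h0, ?_⟩
      rw [Nat.le_div_iff_mul_le (by omega)]
      rcases le_total y.1 y.2 with h | h
      · rw [max_eq_right h]; omega
      · rw [max_eq_left h]; omega
    · intro x hx x' hx' h
      obtain ⟨hx1, hx2⟩ := mem_filter.1 (mem_coe.1 hx)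
      obtain ⟨-, h1, h2, -⟩ := key x hx1
      obtain ⟨hx1', hx2'⟩ := mem_filter.1 (mem_coe.1 hx')
      obtain ⟨-, h1', h2', -⟩ := key x' hx1'
      simp only at h
      rw [hx2] at h1 h2
      rw [hx2', ← h] at h1' h2'
      exact Prod.ext (h1.trans h1'.symm) (h2.trans h2'.symm)
  simp only [Nat.card_Icc, add_tsub_cancel_right] at hc
  have h1 : ((P / max y.1 y.2 : ℕ) : ℝ) ≤ P / (max y.1 y.2 : ℕ) := Nat.cast_div_le
  have h2 := wt_mul_ge (K := (max y.1 y.2 : ℕ)) hp hq (by exact_mod_cast le_max_left _ _)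
    (by exact_mod_cast le_max_right _ _)
  calc _ ≤ ((P / max y.1 y.2 : ℕ) : ℝ) := by exact_mod_cast hc
    _ ≤ P * (1 / (max y.1 y.2 : ℕ)) := by rw [mul_one_div]; exact h1
    _ ≤ _ := by gcongr

lemma log_sep {a b K D : ℝ} (ha : 0 < a) (hb : 0 < b) (ha' : a ≤ K) (hb' : b ≤ K)
    (hD : D ≤ |a - b|) : D / K ≤ |Real.log a - Real.log b| := by
  wlog h : b ≤ a generalizing a b
  · have := this hb ha hb' ha' (by rwa [abs_sub_comm]) (by linarith)
    rwa [abs_sub_comm]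
  rw [abs_of_nonneg (by linarith)] at hD
  have h1 := Real.one_sub_inv_le_log_of_pos (x := a / b) (by positivity)
  rw [Real.log_div ha.ne' hb.ne', inv_div] at h1
  refine le_trans ?_ (le_abs_self _)
  refine le_trans ?_ h1
  have : 1 - b / a = (a - b) / a := by field_simp
  rw [this]
  calc D / K ≤ (a - b) / K := by gcongr; linarith
    _ ≤ (a - b) / a := by gcongr

lemma Lg_close {P n m : ℕ} (hn : P ≤ 2 * n ∧ n ≤ P) (hm : P ≤ 2 * m ∧ m ≤ P) (hP : 0 < P) :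
    |Lg n - Lg m| ≤ 1 / 8 := by
  have key : ∀ n m : ℕ, P ≤ 2 * n ∧ n ≤ P → P ≤ 2 * m ∧ m ≤ P → Lg n - Lg m ≤ 1 / 8 := by
    intro n m hn hm
    have hn0 : (0 : ℝ) < n := by exact_mod_cast (by omega : 0 < n)
    have hm0 : (0 : ℝ) < m := by exact_mod_cast (by omega : 0 < m)
    have h1 : (n : ℝ) ≤ 2 * m := by exact_mod_cast (by omega : n ≤ 2 * m)
    have h2 := Real.log_le_log hn0 h1
    rw [Real.log_mul (by norm_num) hm0.ne'] at h2
    have h3 := Real.log_two_lt_d9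
    have h4 := Real.pi_gt_three
    simp only [Lg]
    rw [← sub_div, div_le_iff₀ (by positivity)]
    linarith
  rw [abs_le]
  constructor
  · linarith [key m n hm hn]
  · exact key n m hn hm

lemma G_high {Λ B : ℝ} (hL : Loss Λ B) (A0 : ℤ) (T : ℕ) (U : Finset ℤ) (hU : U ⊆ Icc A0 (A0 + T))
    (c : ℤ → ℝ) (P Y : ℕ) (hP : 0 < P) (hY : 0 < Y) (hB : 7 * (P : ℝ) ^ 2 ≤ B) (A : Finset ℕ)
    (hA : ∀ n ∈ A, P ≤ 2 * n ∧ n ≤ P) :
    ∑ x ∈ (A ×ˢ A) with ¬ lowP P Y x, fr U c (Lg x.1 - Lg x.2) ^ 2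
      ≤ ((T + 1) * P / Y + 7 * Λ ^ 2 * P ^ 2) * ∑ u ∈ U, c u ^ 2 := by
  have hP' : (1 : ℝ) ≤ P := by exact_mod_cast hP
  have hΛ := hL.big
  set b := ∑ u ∈ U, c u ^ 2 with hb
  have hb0 : 0 ≤ b := by positivity
  have hmap : ∀ x ∈ (A ×ˢ A).filter (fun x => ¬ lowP P Y x), Nat.gcd x.1 x.2 ∈ Icc 1 (P / Y) := by
    intro x hx
    obtain ⟨h1, h2⟩ := mem_filter.1 hx
    obtain ⟨h3, h4⟩ := mem_product.1 h1
    have := hA _ h3
    rw [mem_Icc, Nat.le_div_iff_mul_le hY]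
    exact ⟨Nat.gcd_pos_of_pos_left _ (by omega), not_lt.1 h2⟩
  rw [← sum_fiberwise_of_maps_to hmap]
  have hg : ∀ g ∈ Icc 1 (P / Y),
      ∑ x ∈ (A ×ˢ A).filter (fun x => ¬ lowP P Y x) with Nat.gcd x.1 x.2 = g,
        fr U c (Lg x.1 - Lg x.2) ^ 2 ≤ (T + 1 + 7 * Λ * P ^ 2 * (1 / g)) * b := by
    intro g hg
    obtain ⟨hg1, hg2⟩ := mem_Icc.1 hg
    have hg3 : g ≤ P := hg2.trans (Nat.div_le_self _ _)
    have hg1' : (1 : ℝ) ≤ g := by exact_mod_cast hg1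
    have hg3' : (g : ℝ) ≤ P := by exact_mod_cast hg3
    have h := ls1 (((A ×ˢ A).filter (fun x => ¬ lowP P Y x)).filter fun x => Nat.gcd x.1 x.2 = g)
      (fun x => Lg x.1 - Lg x.2) ((g : ℝ) ^ 2 / (7 * P ^ 2)) (by positivity)
      (by rw [div_le_iff₀ (by positivity)]; nlinarith) ?_ ?_ A0 T U hU (fun u => (c u : ℂ))
    · simp only [Complex.norm_real, Real.norm_eq_abs, sq_abs] at h
      refine h.trans (mul_le_mul_of_nonneg_right ?_ hb0)
      rw [one_div_div]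
      have h1 : 1 + Real.log (7 * P ^ 2 / g ^ 2) ≤ Λ := by
        refine hL.log_le (by positivity) (le_trans ?_ hB)
        apply div_le_self (by positivity); nlinarith
      have h2 : 7 * (P : ℝ) ^ 2 / g ^ 2 ≤ 7 * P ^ 2 * (1 / g) := by
        rw [mul_one_div]; gcongr; nlinarith
      have h3 : (0 : ℝ) ≤ 7 * P ^ 2 / g ^ 2 := by positivity
      nlinarith [mul_le_mul_of_nonneg_left h1 h3, mul_le_mul_of_nonneg_right h2 (by linarith : 0 ≤ Λ)]
    · intro x hx x' hx' hne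
      obtain ⟨hx1, hx2⟩ := mem_filter.1 hx
      obtain ⟨hx3, hx4⟩ := mem_product.1 (mem_filter.1 hx1).1
      obtain ⟨hx1', hx2'⟩ := mem_filter.1 hx'
      obtain ⟨hx3', hx4'⟩ := mem_product.1 (mem_filter.1 hx1').1
      have a1 := hA _ hx3
      have a2 := hA _ hx4
      have a3 := hA _ hx3'
      have a4 := hA _ hx4'
      obtain ⟨p, q, hpq, e1, e2⟩ := Nat.exists_coprime x.1 x.2
      obtain ⟨p', q', hpq', e1', e2'⟩ := Nat.exists_coprime x'.1 x'.2
      rw [hx2] at e1 e2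
      rw [hx2'] at e1' e2'
      have hne2 : p * q' ≠ p' * q := by
        intro h
        apply hne
        have d1 : p ∣ p' := hpq.dvd_of_dvd_mul_right ⟨q', h.symm⟩
        have d2 : p' ∣ p := hpq'.dvd_of_dvd_mul_right ⟨q, h⟩
        have d3 := Nat.dvd_antisymm d1 d2
        have hp0 : 0 < p := by
          rcases Nat.eq_zero_or_pos p with h0 | h0
          · rw [h0] at e1; omega
          · exact h0
        subst d3
        have d4 : q' = q := Nat.eq_of_mul_eq_mul_left hp0 h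
        subst d4
        exact Prod.ext (e1.trans e1'.symm) (e2.trans e2'.symm)
      have e : Lg x.1 - Lg x.2 - (Lg x'.1 - Lg x'.2) = Lg (x.1 * x'.2) - Lg (x'.1 * x.2) := by
        rw [Lg_mul (by omega) (by omega), Lg_mul (by omega) (by omega)]; ring
      rw [e]
      have h1 := log_sep (a := ((x.1 * x'.2 : ℕ) : ℝ)) (b := ((x'.1 * x.2 : ℕ) : ℝ))
        (K := (P : ℝ) ^ 2) (D := (g : ℝ) ^ 2)
        (by exact_mod_cast Nat.mul_pos (by omega) (by omega))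
        (by exact_mod_cast Nat.mul_pos (by omega) (by omega))
        (by rw [sq]; exact_mod_cast Nat.mul_le_mul a1.2 a4.2)
        (by rw [sq]; exact_mod_cast Nat.mul_le_mul a3.2 a2.2) (by
          rw [e1, e2, e1', e2']
          push_cast
          have h2 : (1 : ℝ) ≤ |(p : ℝ) * q' - p' * q| := by
            have h3 : (1 : ℤ) ≤ |(p : ℤ) * q' - p' * q| := by
              apply Int.one_le_abs
              intro h; apply hne2
              have : (p : ℤ) * q' = p' * q := by linarith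
              exact_mod_cast this
            exact_mod_cast h3
          rw [show (p : ℝ) * g * (q' * g) - p' * g * (q * g) = g ^ 2 * (p * q' - p' * q) by ring,
            abs_mul, abs_of_nonneg (by positivity)]
          nlinarith)
      simp only [Lg]
      rw [← sub_div, abs_div, abs_of_pos (by positivity : (0 : ℝ) < 2 * π),
        le_div_iff₀ (by positivity)]
      refine le_trans ?_ h1
      have := Real.pi_lt_d2
      rw [div_mul_eq_mul_div, div_le_div_iff₀ (by positivity) (by positivity)]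
      have : (0 : ℝ) ≤ g ^ 2 * P ^ 2 := by positivity
      nlinarith
    · intro x hx x' hx'
      obtain ⟨hx1, hx2⟩ := mem_filter.1 hx
      obtain ⟨hx3, hx4⟩ := mem_product.1 (mem_filter.1 hx1).1
      obtain ⟨hx1', hx2'⟩ := mem_filter.1 hx'
      obtain ⟨hx3', hx4'⟩ := mem_product.1 (mem_filter.1 hx1').1
      have h1 := abs_le.1 (Lg_close (hA _ hx3) (hA _ hx4) hP)
      have h2 := abs_le.1 (Lg_close (hA _ hx3') (hA _ hx4') hP)
      rw [abs_le]; constructor <;> linarith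
  refine (sum_le_sum hg).trans ?_
  rw [← sum_mul]
  refine mul_le_mul_of_nonneg_right ?_ hb0
  rw [sum_add_distrib, sum_const, ← mul_sum, nsmul_eq_mul, Nat.card_Icc, add_tsub_cancel_right]
  have h1 : ((P / Y : ℕ) : ℝ) ≤ P / Y := Nat.cast_div_le
  have h2 : ∑ g ∈ Icc 1 (P / Y), (1 : ℝ) / g ≤ Λ := by
    refine (sum_le_sum_of_subset_of_nonneg (Icc_subset_Icc_right (Nat.div_le_self P Y))
      fun _ _ _ => by positivity).trans ((harm_le P).trans (hL.log_le (by positivity) ?_))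
    nlinarith
  have h3 : ((P / Y : ℕ) : ℝ) * (T + 1) ≤ (T + 1) * P / Y := by
    rw [mul_div_assoc, mul_comm]; gcongr
  have h4 := mul_le_mul_of_nonneg_left h2 (by positivity : 0 ≤ 7 * Λ * (P : ℝ) ^ 2)
  nlinarith

end Pool.Agent.Lib.MP_a93a41_nt.GM
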