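import Pool.Agent.Lib.MP_a93a41_nt.GM2

/-! Reflection, powers, the weighted Heath-Brown estimate and energy bounds. -/

namespace Pool.Agent.Lib.MP_a93a41_nt.GM

open Finset Real Pool.Agent.Lib.LargeSieve

lemma reflect {Λ B : ℝ} (hL : Loss Λ B) (A0 : ℤ) (T : ℕ) (U : Finset ℤ)
    (hU : U ⊆ Icc A0 (A0 + T)) (c : ℤ → ℝ) (hc : ∀ u ∈ U, 0 ≤ c u) (X Y : ℕ) (hY : 0 < Y)
    (hB : 28 * (X : ℝ) ^ 2 ≤ B) :
    Qf U c X ≤ Λ ^ 5 * ((T + 1) / Y * ∑ u ∈ U, c u ^ 2 + X * ∑ u ∈ U, c u ^ 2 + Qf U c Y) := by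
  have hΛ := hL.big
  set b := ∑ u ∈ U, c u ^ 2 with hb
  have hb0 : 0 ≤ b := by positivity
  have hQ := Qf_nonneg U c Y
  set K := Nat.log 2 X + 1 with hK
  have hX0 : (0 : ℝ) ≤ X := by positivity
  have hXB : (X : ℝ) ≤ B := by
    rcases Nat.eq_zero_or_pos X with h | h
    · rw [h]; simp; linarith [hL.one]
    · have : (1 : ℝ) ≤ X := by exact_mod_cast h
      nlinarith
  have hK2 : (K : ℝ) ≤ 2 * Λ := hL.nlog_le hXB
  set Al : ℕ → Finset ℕ := fun l => (Icc 1 X).filter fun p => Nat.log 2 p = l with hAl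
  have hmap : ∀ p ∈ Icc 1 X, Nat.log 2 p ∈ range K := by
    intro p hp
    rw [mem_range, hK]
    exact Nat.lt_succ_of_le (Nat.log_mono_right (mem_Icc.1 hp).2)
  have h1 : ∀ s : ℤ, ‖zs (Icc 1 X) wt s‖ ^ 2 ≤ K * ∑ l ∈ range K, ‖zs (Al l) wt s‖ ^ 2 := by
    intro s
    rw [zs, ← sum_fiberwise_of_maps_to hmap]
    refine (pow_le_pow_left₀ (norm_nonneg _) (norm_sum_le _ _) 2).trans ?_
    have := sq_sum_le_card_mul_sum_sq (s := range K) (f := fun l => ‖zs (Al l) wt s‖)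
    simpa [zs, hAl] using this
  have h2 : Qf U c X ≤ K * ∑ l ∈ range K,
      ∑ p ∈ Al l, ∑ q ∈ Al l, wt p * wt q * fr U c (Lg p - Lg q) ^ 2 := by
    simp only [Qf, form_real]
    calc _ ≤ ∑ u ∈ U, ∑ v ∈ U, c u * c v * (K * ∑ l ∈ range K, ‖zs (Al l) wt (u - v)‖ ^ 2) :=
          sum_le_sum fun u hu => sum_le_sum fun v hv =>
            mul_le_mul_of_nonneg_left (h1 _) (mul_nonneg (hc u hu) (hc v hv))
      _ = _ := by
          rw [sum_comm (s := range K), mul_sum]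
          refine sum_congr rfl fun u _ => ?_
          rw [sum_comm (s := range K), mul_sum]
          refine sum_congr rfl fun v _ => ?_
          rw [← mul_sum]; ring
  have h3 : ∀ l ∈ range K, ∑ p ∈ Al l, ∑ q ∈ Al l, wt p * wt q * fr U c (Lg p - Lg q) ^ 2
      ≤ 2 * ((T + 1) / Y * b) + 28 * Λ ^ 2 * (X * b) + 2 * Qf U c Y := by
    intro l hl
    rcases Nat.eq_zero_or_pos X with h0 | h0
    · have : Al l = ∅ := by simp [hAl, h0]
      rw [this, sum_empty]; positivity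
    have hl2 : 2 ^ l ≤ X := by
      have : l ≤ Nat.log 2 X := by have := mem_range.1 hl; omega
      exact (Nat.pow_le_pow_right (by norm_num) this).trans (Nat.pow_log_le_self 2 h0.ne')
    have hmem : ∀ n ∈ Al l, 2 ^ l ≤ n ∧ n < 2 ^ (l + 1) := by
      intro n hn
      obtain ⟨a1, a2⟩ := mem_filter.1 hn
      have := (mem_Icc.1 a1).1
      rw [← a2]
      exact ⟨Nat.pow_log_le_self 2 (by omega), Nat.lt_pow_succ_log_self (by norm_num) n⟩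
    set P := 2 ^ (l + 1) with hP
    have hP2 : P = 2 * 2 ^ l := by rw [hP]; ring
    have hP0 : 0 < P := by positivity
    have hP0' : (0 : ℝ) < P := by exact_mod_cast hP0
    have hPX : (P : ℝ) ≤ 2 * X := by exact_mod_cast (by omega : P ≤ 2 * X)
    have g1 := G_low U c P Y (Al l) fun n hn => by
      have := hmem n hn
      have : 0 < 2 ^ l := by positivity
      omega
    have g2 := G_high hL A0 T U hU c P Y hP0 hY (by nlinarith) (Al l) fun n hn => by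
      have := hmem n hn
      omega
    have g3 : ∑ p ∈ Al l, ∑ q ∈ Al l, wt p * wt q * fr U c (Lg p - Lg q) ^ 2
        ≤ 2 / P * ∑ x ∈ Al l ×ˢ Al l, fr U c (Lg x.1 - Lg x.2) ^ 2 := by
      rw [← sum_product', mul_sum]
      refine sum_le_sum fun x hx => mul_le_mul_of_nonneg_right ?_ (sq_nonneg _)
      obtain ⟨a1, a2⟩ := mem_product.1 hx
      have := wt_mul_le (K := ((2 ^ l : ℕ) : ℝ)) (p := x.1) (q := x.2) (by positivity)
        (by exact_mod_cast (hmem _ a1).1) (by exact_mod_cast (hmem _ a2).1)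
      refine this.trans (le_of_eq ?_)
      rw [hP2]; push_cast; field_simp
    rw [← sum_filter_add_sum_filter_not _ (lowP P Y)] at g3
    refine g3.trans ?_
    calc _ ≤ 2 / P * (P * Qf U c Y + ((T + 1) * P / Y + 7 * Λ ^ 2 * P ^ 2) * b) := by gcongr
      _ = 2 * ((T + 1) / Y * b) + 14 * Λ ^ 2 * (P * b) + 2 * Qf U c Y := by field_simp; ring
      _ ≤ _ := by
          have : (P : ℝ) * b ≤ 2 * X * b := by gcongr
          nlinarith [sq_nonneg Λ]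
  have h4 := sum_le_card_nsmul _ _ _ h3
  rw [card_range, nsmul_eq_mul] at h4
  have h5 : (0 : ℝ) ≤ (T + 1) / Y * b := by positivity
  have h6 : (0 : ℝ) ≤ X * b := by positivity
  set S := 2 * ((T + 1) / Y * b) + 28 * Λ ^ 2 * (X * b) + 2 * Qf U c Y with hS
  have hS0 : 0 ≤ S := by positivity
  have h7 : S ≤ 28 * Λ ^ 2 * ((T + 1) / Y * b + X * b + Qf U c Y) := by
    have : 2 ≤ 28 * Λ ^ 2 := by nlinarith
    nlinarith
  calc Qf U c X ≤ K * (K * S) := h2.trans (by gcongr)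
    _ ≤ (2 * Λ) * (2 * Λ * (28 * Λ ^ 2 * ((T + 1) / Y * b + X * b + Qf U c Y))) := by gcongr
    _ = 112 * Λ ^ 4 * ((T + 1) / Y * b + X * b + Qf U c Y) := by ring
    _ ≤ Λ * Λ ^ 4 * ((T + 1) / Y * b + X * b + Qf U c Y) := by gcongr; linarith
    _ = _ := by ring

lemma card_mul_fiber (s t : Finset ℕ) (n : ℕ) (hn : n ≠ 0) :
    #((s ×ˢ t).filter fun x => x.1 * x.2 = n) ≤ #n.divisors := by
  apply card_le_card_of_injOn (fun x => x.1)
  · intro x hx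
    have := (mem_filter.1 (mem_coe.1 hx)).2
    simp only [mem_coe, Nat.mem_divisors]
    exact ⟨⟨x.2, this.symm⟩, hn⟩
  · intro x hx y hy h
    have h1 := (mem_filter.1 (mem_coe.1 hx)).2
    have h2 := (mem_filter.1 (mem_coe.1 hy)).2
    simp only at h
    refine Prod.ext h ?_
    have h3 : x.1 ≠ 0 := by rintro h0; rw [h0] at h1; omega
    rw [← h] at h2
    exact Nat.eq_of_mul_eq_mul_left (Nat.pos_of_ne_zero h3) (h1.trans h2.symm)

lemma power {Λ B : ℝ} (hL : Loss Λ B) (U : Finset ℤ) (c : ℤ → ℝ) (hc : ∀ u ∈ U, 0 ≤ c u) (X : ℕ)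
    (hB : (X : ℝ) ^ 2 ≤ B) :
    Qf U c X ^ 2 ≤ Λ ^ 2 * (∑ u ∈ U, c u) ^ 2 * Qf U c (X ^ 2) := by
  set d : ℕ → ℝ := fun n => #((Icc 1 X ×ˢ Icc 1 X).filter fun x => x.1 * x.2 = n) with hd
  have hmap : ∀ x ∈ Icc 1 X ×ˢ Icc 1 X, x.1 * x.2 ∈ Icc 1 (X ^ 2) := by
    intro x hx
    obtain ⟨a1, a2⟩ := mem_product.1 hx
    rw [mem_Icc] at a1 a2 ⊢
    exact ⟨Nat.mul_pos a1.1 a2.1, by rw [sq]; exact Nat.mul_le_mul a1.2 a2.2⟩
  have h1 : ∀ s : ℤ, zs (Icc 1 X) wt s ^ 2 = zs (Icc 1 (X ^ 2)) (fun n => d n * wt n) s := by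
    intro s
    rw [sq, zs, sum_mul_sum, ← sum_product', ← sum_fiberwise_of_maps_to hmap, zs]
    refine sum_congr rfl fun n _ => ?_
    rw [sum_congr rfl (g := fun _ => (wt n : ℂ) * ee (s * Lg n))]
    · simp [hd]; ring
    · intro x hx
      obtain ⟨a1, a2⟩ := mem_filter.1 hx
      obtain ⟨a3, a4⟩ := mem_product.1 a1
      rw [mem_Icc] at a3 a4
      rw [← a2, wt_mul, Lg_mul (by omega) (by omega), mul_add, ee_add]
      push_cast; ring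
  have h2 : ∑ u ∈ U, ∑ v ∈ U, c u * c v * (‖zs (Icc 1 X) wt (u - v)‖ ^ 2) ^ 2
      ≤ Λ ^ 2 * Qf U c (X ^ 2) := by
    have : ∀ s : ℤ, (‖zs (Icc 1 X) wt s‖ ^ 2) ^ 2
        = ‖zs (Icc 1 (X ^ 2)) (fun n => d n * wt n) s‖ ^ 2 := by
      intro s; rw [← h1, norm_pow]
    simp only [this]
    rw [← form_real, Qf, mul_sum]
    refine sum_le_sum fun p hp => ?_
    rw [mul_sum]
    refine sum_le_sum fun q hq => ?_
    have hd1 : ∀ n ∈ Icc 1 (X ^ 2), 0 ≤ d n ∧ d n ≤ Λ := by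
      intro n hn
      rw [mem_Icc] at hn
      refine ⟨by positivity, le_trans ?_ (hL.dv n (le_trans ?_ hB))⟩
      · simp only [hd]; exact_mod_cast card_mul_fiber _ _ n (by omega)
      · exact_mod_cast hn.2
    have a1 := hd1 p hp
    have a2 := hd1 q hq
    have a3 := wt_nonneg p
    have a4 := wt_nonneg q
    calc _ = d p * d q * (wt p * wt q * fr U c (Lg p - Lg q) ^ 2) := by ring
      _ ≤ Λ * Λ * (wt p * wt q * fr U c (Lg p - Lg q) ^ 2) := by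
          have := a1.1; have := a2.1
          gcongr
          · linarith [hL.big]
          · exact a1.2
          · exact a2.2
      _ = _ := by ring
  have h3 := sum_sq_le_sum_mul_sum_of_sq_le_mul (U ×ˢ U)
    (r := fun x => c x.1 * c x.2 * ‖zs (Icc 1 X) wt (x.1 - x.2)‖ ^ 2)
    (f := fun x => c x.1 * c x.2)
    (g := fun x => c x.1 * c x.2 * (‖zs (Icc 1 X) wt (x.1 - x.2)‖ ^ 2) ^ 2)
    (fun x hx => mul_nonneg (hc _ (mem_product.1 hx).1) (hc _ (mem_product.1 hx).2))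
    (fun x hx => mul_nonneg (mul_nonneg (hc _ (mem_product.1 hx).1) (hc _ (mem_product.1 hx).2))
      (by positivity)) (fun x _ => le_of_eq (by ring))
  simp only [sum_product] at h3
  rw [Qf, form_real]
  refine h3.trans ?_
  rw [← sum_mul_sum, ← sq]
  calc _ ≤ (∑ u ∈ U, c u) ^ 2 * (Λ ^ 2 * Qf U c (X ^ 2)) := by gcongr
    _ = _ := by ring

/-- Weighted Heath-Brown estimate for double zeta sums. -/
lemma HB {Λ B : ℝ} (hL : Loss Λ B) (A0 : ℤ) (T : ℕ) (U : Finset ℤ)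
    (hU : U ⊆ Icc A0 (A0 + T)) (c : ℤ → ℝ) (hc : ∀ u ∈ U, 0 ≤ c u) (X Y : ℕ) (hY : 0 < Y)
    (hB : 28 * (X : ℝ) ^ 2 ≤ B) (hB' : 28 * (Y : ℝ) ^ 4 ≤ B) (a b H : ℝ)
    (ha : ∑ u ∈ U, c u ≤ a) (hb : ∑ u ∈ U, c u ^ 2 ≤ b) (h1 : a ^ 2 ≤ H) (h2 : X * b ≤ H)
    (h3 : (T + 1) * b ≤ H * Y) (h4 : a ^ 2 * b * Y ^ 2 ≤ H ^ 2) :
    Qf U c X ≤ Λ ^ 13 * H := by
  have hΛ := hL.big
  have hY' : (1 : ℝ) ≤ Y := by exact_mod_cast hY
  have ha0 : 0 ≤ ∑ u ∈ U, c u := sum_nonneg hc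
  have hb0 : 0 ≤ ∑ u ∈ U, c u ^ 2 := by positivity
  have hH : 0 ≤ H := le_trans (sq_nonneg _) h1
  have r1 := reflect hL A0 T U hU c hc X Y hY hB
  have r2 := reflect hL A0 T U hU c hc (Y ^ 2) Y hY (by push_cast; nlinarith)
  have r3 := power hL U c hc Y (by nlinarith [pow_le_pow_right₀ hY' (by norm_num : 2 ≤ 4)])
  have hq := Qf_nonneg U c Y
  set q := Qf U c Y
  set a' := ∑ u ∈ U, c u
  set b' := ∑ u ∈ U, c u ^ 2
  have k1 : (T + 1) / Y * b' ≤ H := by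
    rw [div_mul_eq_mul_div, div_le_iff₀ (by linarith)]
    exact le_trans (by gcongr) h3
  have k2 : X * b' ≤ H := le_trans (by gcongr) h2
  have k3 : a' ^ 2 ≤ H := le_trans (by gcongr) h1
  have k4 : a' ^ 2 * ((Y ^ 2 : ℕ) * b') ≤ H ^ 2 := by
    refine le_trans ?_ h4
    push_cast
    calc a' ^ 2 * (Y ^ 2 * b') = a' ^ 2 * b' * Y ^ 2 := by ring
      _ ≤ _ := by gcongr
  have k5 : q ^ 2 ≤ Λ ^ 7 * (2 * H ^ 2 + H * q) := by
    calc q ^ 2 ≤ Λ ^ 2 * a' ^ 2 * (Λ ^ 5 * ((T + 1) / Y * b' + (Y ^ 2 : ℕ) * b' + q)) :=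
          r3.trans (by gcongr)
      _ = Λ ^ 7 * (a' ^ 2 * ((T + 1) / Y * b') + a' ^ 2 * ((Y ^ 2 : ℕ) * b') + a' ^ 2 * q) := by
          ring
      _ ≤ Λ ^ 7 * (H * H + H ^ 2 + H * q) := by gcongr
      _ = _ := by ring
  have hK : 1 ≤ Λ ^ 7 := one_le_pow₀ (by linarith)
  have k6 : q ≤ 3 * Λ ^ 7 * H := by
    by_contra hcon
    push Not at hcon
    set K := Λ ^ 7
    have e1 : H ≤ K * H := by nlinarith
    have e2 : K * H * q < q * q / 3 ∨ q = 0 := by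
      rcases hq.eq_or_lt with h | h
      · right; exact h.symm
      · left; nlinarith
    rcases e2 with e2 | e2
    · have e3 : K * H * H ≤ K * H * q := by
        apply mul_le_mul_of_nonneg_left _ (by positivity); nlinarith
      nlinarith
    · nlinarith
  calc Qf U c X ≤ Λ ^ 5 * (H + H + 3 * Λ ^ 7 * H) := r1.trans (by gcongr)
    _ ≤ Λ ^ 5 * (Λ * Λ ^ 7 * H) := by
        gcongr
        have : H ≤ Λ ^ 7 * H := by nlinarith
        have : 0 ≤ Λ ^ 7 * H := by positivity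
        nlinarith
    _ = _ := by ring

/-- The number of representations of `s` as a difference of two elements of `W`. -/
def rr (W : Finset ℤ) (s : ℤ) : ℝ := ∑ t ∈ W, if t - s ∈ W then 1 else 0

lemma rr_nonneg (W : Finset ℤ) (s : ℤ) : 0 ≤ rr W s :=
  sum_nonneg fun _ _ => by split_ifs <;> norm_num

lemma rr_le (W : Finset ℤ) (s : ℤ) : rr W s ≤ #W := by
  have := sum_le_card_nsmul W (fun t => if t - s ∈ W then (1 : ℝ) else 0) 1
    (fun _ _ => by split_ifs <;> norm_num)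
  simpa [rr] using this

lemma rr_sum_gen {K : Type*} [CommSemiring K] (W U : Finset ℤ)
    (hU : ∀ t ∈ W, ∀ t' ∈ W, t - t' ∈ U) (X : ℤ → K) :
    ∑ s ∈ U, (∑ t ∈ W, if t - s ∈ W then (1 : K) else 0) * X s
      = ∑ t ∈ W, ∑ t' ∈ W, X (t - t') := by
  simp only [sum_mul]
  rw [sum_comm]
  refine sum_congr rfl fun t ht => ?_
  simp only [ite_mul, one_mul, zero_mul]
  rw [← sum_filter]
  apply sum_bij (fun s _ => t - s)
  · intro s hs; exact (mem_filter.1 hs).2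
  · intro s _ s' _ h; omega
  · intro t' ht'
    exact ⟨t - t', mem_filter.2 ⟨hU t ht t' ht', by simpa using ht'⟩, by ring⟩
  · intro s _; simp

lemma rr_sum (W U : Finset ℤ) (hU : ∀ t ∈ W, ∀ t' ∈ W, t - t' ∈ U) (X : ℤ → ℝ) :
    ∑ s ∈ U, rr W s * X s = ∑ t ∈ W, ∑ t' ∈ W, X (t - t') := rr_sum_gen W U hU X

lemma rr_ft (W U : Finset ℤ) (hU : ∀ t ∈ W, ∀ t' ∈ W, t - t' ∈ U) (α : ℝ) :
    ft U (fun s => (rr W s : ℂ)) α = ((fr W (fun _ => 1) α ^ 2 : ℝ) : ℂ) := by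
  rw [fr, normsq_ft]
  have := rr_sum_gen W U hU (fun s => ee (s * α))
  simp only [Complex.ofReal_one, map_one, one_mul]
  rw [← this, ft]
  refine sum_congr rfl fun s _ => ?_
  congr 1
  simp only [rr]
  push_cast
  refine sum_congr rfl fun t _ => ?_
  split_ifs <;> simp

lemma rr_fr (W U : Finset ℤ) (hU : ∀ t ∈ W, ∀ t' ∈ W, t - t' ∈ U) (α : ℝ) :
    fr U (rr W) α = fr W (fun _ => 1) α ^ 2 := by
  rw [fr, rr_ft W U hU, Complex.norm_real, Real.norm_eq_abs, abs_of_nonneg (sq_nonneg _)]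

lemma rr_eq_zero (W U : Finset ℤ) (hU : ∀ t ∈ W, ∀ t' ∈ W, t - t' ∈ U) (s : ℤ) (hs : s ∉ U) :
    rr W s = 0 := by
  refine sum_eq_zero fun t ht => ?_
  rw [if_neg]
  intro h
  exact hs (by simpa using hU t ht _ h)

lemma rr_neg (W : Finset ℤ) (s : ℤ) : rr W (-s) = rr W s := by
  simp only [rr]
  rw [← sum_filter, ← sum_filter]
  apply sum_bij (fun t _ => t + s)
  · intro t ht
    obtain ⟨a, b⟩ := mem_filter.1 ht
    exact mem_filter.2 ⟨by simpa using b, by simpa using a⟩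
  · intro s _ s' _ h; omega
  · intro t ht
    obtain ⟨a, b⟩ := mem_filter.1 ht
    exact ⟨t - s, mem_filter.2 ⟨b, by simpa using a⟩, by ring⟩
  · intro _ _; rfl

lemma diff_mem {W : Finset ℤ} {A : ℤ} {T : ℕ} (hW : W ⊆ Icc A (A + T)) :
    ∀ t ∈ W, ∀ t' ∈ W, t - t' ∈ Icc (-(T : ℤ)) T := by
  intro t ht t' ht'
  have h1 := mem_Icc.1 (hW ht)
  have h2 := mem_Icc.1 (hW ht')
  rw [mem_Icc]; omega

/-- The Dirichlet polynomial supported on `(N/2, N]`. -/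
noncomputable def DP (N : ℕ) (a : ℕ → ℂ) (t : ℤ) : ℂ := ∑ n ∈ Ioc (N / 2) N, a n * ee (t * Lg n)

/-- `W` is a set of integers at which the polynomial is at least `V`. -/
def LV (N : ℕ) (V : ℝ) (a : ℕ → ℂ) (W : Finset ℤ) : Prop :=
  (∀ n, ‖a n‖ ≤ 1) ∧ ∀ t ∈ W, V ≤ ‖DP N a t‖

lemma LV.mono {N : ℕ} {V : ℝ} {a : ℕ → ℂ} {W W' : Finset ℤ} (h : LV N V a W) (h' : W' ⊆ W) :
    LV N V a W' := ⟨h.1, fun t ht => h.2 t (h' ht)⟩

lemma dom {N : ℕ} {V : ℝ} {a : ℕ → ℂ} {W : Finset ℤ} (h : LV N V a W) (hV : 0 ≤ V)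
    (U : Finset ℤ) (hW : W ⊆ U) (c : ℤ → ℝ) (hc : ∀ u ∈ U, 0 ≤ c u) :
    V ^ 2 * ∑ t ∈ W, c t ≤ ∑ x ∈ Ioc (N / 2) N ×ˢ Ioc (N / 2) N, fr U c (Lg x.1 - Lg x.2) := by
  have h1 : V ^ 2 * ∑ t ∈ W, c t ≤ ∑ u ∈ U, c u * ‖DP N a u‖ ^ 2 := by
    rw [mul_sum]
    refine le_trans (sum_le_sum fun t ht => ?_) (sum_le_sum_of_subset_of_nonneg hW
      fun u hu _ => mul_nonneg (hc u hu) (sq_nonneg _))
    rw [mul_comm]
    exact mul_le_mul_of_nonneg_left (pow_le_pow_left₀ hV (h.2 t ht) 2) (hc t (hW ht))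
  have h2 : ((∑ u ∈ U, c u * ‖DP N a u‖ ^ 2 : ℝ) : ℂ)
      = ∑ x ∈ Ioc (N / 2) N ×ˢ Ioc (N / 2) N, a x.1 * (starRingEnd ℂ) (a x.2)
        * ft U (fun u => (c u : ℂ)) (Lg x.1 - Lg x.2) := by
    push_cast
    simp only [ft, mul_sum]
    rw [sum_comm]
    refine sum_congr rfl fun u _ => ?_
    rw [← Complex.mul_conj', DP, map_sum, sum_mul_sum, ← sum_product', mul_sum]
    refine sum_congr rfl fun x _ => ?_
    rw [map_mul, conj_ee]
    rw [show (u : ℝ) * (Lg x.1 - Lg x.2) = u * Lg x.1 + -(u * Lg x.2) by ring, ee_add]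
    ring
  have h3 := congrArg norm h2
  rw [Complex.norm_real, Real.norm_eq_abs] at h3
  refine h1.trans ((le_abs_self _).trans (h3.le.trans ?_))
  refine (norm_sum_le _ _).trans (sum_le_sum fun x _ => ?_)
  rw [norm_mul, norm_mul, RCLike.norm_conj]
  have := mul_le_one₀ (h.1 x.1) (norm_nonneg _) (h.1 x.2)
  exact mul_le_of_le_one_left (norm_nonneg _) this

lemma mixed {Λ B : ℝ} (hL : Loss Λ B) (N M T : ℕ) (hN : 0 < N) (hM : 0 < M)
    (hT : T + 1 ≤ N * M) (hB : 7 * (N : ℝ) ^ 2 ≤ B) (W U1 U2 : Finset ℤ) (A1 A2 : ℤ)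
    (h1 : U1 ⊆ Icc A1 (A1 + (3 * T : ℕ))) (h2 : U2 ⊆ Icc A2 (A2 + (3 * T : ℕ)))
    (c1 c2 : ℤ → ℝ) (F : ℝ → ℝ) (κ V Z : ℝ) (hκ : 0 ≤ κ)
    (hF1 : ∀ α, F α ≤ fr U1 c1 α * fr U2 c2 α) (hF2 : ∀ α, F α ≤ κ * fr W (fun _ => 1) α ^ 2)
    (hZ : Z = ∑ u ∈ U2, c2 u ^ 2)
    (hV : V ^ 2 * Z ≤ ∑ x ∈ Ioc (N / 2) N ×ˢ Ioc (N / 2) N, F (Lg x.1 - Lg x.2)) :
    V ^ 4 * Z ≤ 64 * Λ ^ 4 * N ^ 4 * ∑ u ∈ U1, c1 u ^ 2
      + 2 * V ^ 2 * (κ * N * Qf W (fun _ => 1) M) := by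
  have hΛ := hL.big
  have hA : ∀ n ∈ Ioc (N / 2) N, N ≤ 2 * n ∧ n ≤ N := by
    intro n hn; rw [mem_Ioc] at hn; omega
  have hA' : ∀ n ∈ Ioc (N / 2) N, 1 ≤ n ∧ n ≤ N := by
    intro n hn; rw [mem_Ioc] at hn; omega
  have g1 := G_high hL A1 (3 * T) U1 h1 c1 N M hN hM hB _ hA
  have g2 := G_high hL A2 (3 * T) U2 h2 c2 N M hN hM hB _ hA
  have g3 := G_low W (fun _ => 1) N M _ hA'
  have hk : (((3 * T : ℕ) : ℝ) + 1) * N / M + 7 * Λ ^ 2 * N ^ 2 ≤ 8 * Λ ^ 2 * N ^ 2 := by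
    have hM' : (0 : ℝ) < M := by exact_mod_cast hM
    have hT' : (T : ℝ) + 1 ≤ N * M := by exact_mod_cast hT
    have : (((3 * T : ℕ) : ℝ) + 1) * N / M ≤ 3 * N ^ 2 := by
      rw [div_le_iff₀ hM']; push_cast
      have : (0 : ℝ) ≤ N := by positivity
      have : (0 : ℝ) ≤ T := by positivity
      nlinarith
    have : 3 ≤ Λ ^ 2 := by nlinarith
    nlinarith [sq_nonneg (N : ℝ)]
  set b1 := ∑ u ∈ U1, c1 u ^ 2
  have hb1 : 0 ≤ b1 := by positivity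
  have hZ0 : 0 ≤ Z := by rw [hZ]; positivity
  rw [← hZ] at g2
  set K := 8 * Λ ^ 2 * (N : ℝ) ^ 2 with hK
  have g1' := g1.trans (mul_le_mul_of_nonneg_right hk hb1)
  have g2' := g2.trans (mul_le_mul_of_nonneg_right hk hZ0)
  rw [← sum_filter_add_sum_filter_not _ (lowP N M)] at hV
  have l1 : ∑ x ∈ Ioc (N / 2) N ×ˢ Ioc (N / 2) N with lowP N M x, F (Lg x.1 - Lg x.2)
      ≤ κ * N * Qf W (fun _ => 1) M := by
    refine (sum_le_sum fun x _ => hF2 _).trans ?_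
    rw [← mul_sum, mul_assoc]
    exact mul_le_mul_of_nonneg_left g3 hκ
  set Hs := ∑ x ∈ Ioc (N / 2) N ×ˢ Ioc (N / 2) N with ¬ lowP N M x,
    fr U1 c1 (Lg x.1 - Lg x.2) * fr U2 c2 (Lg x.1 - Lg x.2) with hHs
  have l2 : ∑ x ∈ Ioc (N / 2) N ×ˢ Ioc (N / 2) N with ¬ lowP N M x, F (Lg x.1 - Lg x.2) ≤ Hs :=
    sum_le_sum fun x _ => hF1 _
  have l3 : Hs ^ 2 ≤ (K * b1) * (K * Z) :=
    (sum_mul_sq_le_sq_mul_sq _ _ _).trans (by gcongr)
  have l4 : 2 * (V ^ 2 * Hs) ≤ V ^ 4 * Z + K ^ 2 * b1 := by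
    refine (le_abs_self _).trans (abs_le_of_sq_le_sq ?_ (by positivity))
    nlinarith [sq_nonneg (V ^ 4 * Z - K ^ 2 * b1), mul_le_mul_of_nonneg_left l3 (by positivity : 0 ≤ V ^ 4)]
  have l5 : V ^ 2 * (V ^ 2 * Z) ≤ V ^ 2 * (κ * N * Qf W (fun _ => 1) M + Hs) := by
    gcongr; linarith
  have : K ^ 2 = 64 * Λ ^ 4 * N ^ 4 := by rw [hK]; ring
  nlinarith

/-- Additive energy. -/
noncomputable def En (W : Finset ℤ) (T : ℕ) : ℝ := ∑ s ∈ Icc (-(T : ℤ)) T, rr W s ^ 2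

/-- The triple convolution. -/
def r3 (W : Finset ℤ) : ℤ → ℝ := conv W (fun _ => 1) (rr W)

lemma r3_nonneg (W : Finset ℤ) (u : ℤ) : 0 ≤ r3 W u :=
  sum_nonneg fun _ _ => mul_nonneg zero_le_one (rr_nonneg _ _)

lemma r3_mem {W : Finset ℤ} {A : ℤ} {T : ℕ} (hW : W ⊆ Icc A (A + T)) :
    ∀ t ∈ W, ∀ s ∈ Icc (-(T : ℤ)) T, t + s ∈ Icc (A - T) (A + 2 * T) := by
  intro t ht s hs
  have h1 := mem_Icc.1 (hW ht)
  rw [mem_Icc] at hs ⊢; omega

lemma r3_fr {W : Finset ℤ} {A : ℤ} {T : ℕ} (hW : W ⊆ Icc A (A + T)) (α : ℝ) :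
    fr (Icc (A - T) (A + 2 * T)) (r3 W) α = fr W (fun _ => 1) α ^ 3 := by
  rw [r3, conv_ft W _ (Icc (-(T : ℤ)) T) _ _ (rr_eq_zero W _ (diff_mem hW)) (r3_mem hW),
    rr_fr W _ (diff_mem hW)]
  ring

lemma r3_eq_zero {W : Finset ℤ} {A : ℤ} {T : ℕ} (hW : W ⊆ Icc A (A + T)) (u : ℤ)
    (hu : u ∉ Icc (A - T) (A + 2 * T)) : r3 W u = 0 := by
  refine sum_eq_zero fun t ht => ?_
  rw [rr_eq_zero W _ (diff_mem hW), mul_zero]
  intro h
  exact hu (by simpa using r3_mem hW t ht _ h)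

lemma fr_one_le (W : Finset ℤ) (α : ℝ) : fr W (fun _ => 1) α ≤ #W := by
  simpa using fr_le_sum W (fun _ => 1) (fun _ _ => zero_le_one) α

lemma energy1 {Λ B : ℝ} (hL : Loss Λ B) {N M T : ℕ} (hN : 0 < N) (hM : 0 < M)
    (hT : T + 1 ≤ N * M) (hB : 7 * (N : ℝ) ^ 2 ≤ B) {V : ℝ} (hV : 0 ≤ V) {a : ℕ → ℂ}
    {W : Finset ℤ} (h : LV N V a W) {A : ℤ} (hW : W ⊆ Icc A (A + T)) :
    V ^ 4 * En W T ≤ 64 * Λ ^ 4 * N ^ 4 * #W
      + 2 * V ^ 2 * (#W * N * Qf W (fun _ => 1) M) := by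
  have hsub : W ⊆ Icc (A - T) (A + 2 * T) := hW.trans (Icc_subset_Icc (by omega) (by omega))
  have h1 := dom h hV _ hsub (r3 W) fun u _ => r3_nonneg W u
  have h2 : ∑ t ∈ W, r3 W t = En W T := by
    simp only [En, sq]
    rw [rr_sum W _ (diff_mem hW)]
    simp [r3, conv]
  simp only [r3_fr hW] at h1
  rw [h2] at h1
  have := mixed hL N M T hN hM hT hB W W (Icc (-(T : ℤ)) T) A (-T)
    (hW.trans (Icc_subset_Icc le_rfl (by push_cast; omega)))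
    (Icc_subset_Icc le_rfl (by push_cast; omega)) (fun _ => 1) (rr W)
    (fun α => fr W (fun _ => 1) α ^ 3) (#W) V (En W T) (by positivity)
    (fun α => by rw [rr_fr W _ (diff_mem hW)]; exact le_of_eq (by ring))
    (fun α => by
      have := fr_one_le W α
      have := fr_nonneg W (fun _ => 1) α
      calc _ = fr W (fun _ => 1) α * fr W (fun _ => 1) α ^ 2 := by ring
        _ ≤ _ := by gcongr) rfl h1
  simpa using this

lemma energy2 {Λ B : ℝ} (hL : Loss Λ B) {N M T : ℕ} (hN : 0 < N) (hM : 0 < M)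
    (hT : T + 1 ≤ N * M) (hB : 7 * (N : ℝ) ^ 2 ≤ B) {V : ℝ} (hV : 0 ≤ V) {a : ℕ → ℂ}
    {W : Finset ℤ} (h : LV N V a W) {A : ℤ} (hW : W ⊆ Icc A (A + T)) :
    V ^ 4 * ∑ u ∈ Icc (A - T) (A + 2 * T), r3 W u ^ 2 ≤ 64 * Λ ^ 4 * N ^ 4 * En W T
      + 2 * V ^ 2 * (#W ^ 3 * N * Qf W (fun _ => 1) M) := by
  have hsub : W ⊆ Icc (A - 2 * T) (A + 3 * T) := hW.trans (Icc_subset_Icc (by omega) (by omega))
  set r5 := conv (Icc (-(T : ℤ)) T) (rr W) (r3 W) with hr5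
  have h1 := dom h hV _ hsub r5 fun u _ =>
    sum_nonneg fun _ _ => mul_nonneg (rr_nonneg _ _) (r3_nonneg _ _)
  have h2 : ∑ t ∈ W, r5 t = ∑ u ∈ Icc (A - T) (A + 2 * T), r3 W u ^ 2 := by
    simp only [sq]
    rw [show (∑ u ∈ Icc (A - T) (A + 2 * T), r3 W u * r3 W u)
      = ∑ u ∈ Icc (A - T) (A + 2 * T), conv W (fun _ => 1) (rr W) u * r3 W u from rfl,
      conv_sum W _ (Icc (-(T : ℤ)) T) _ _ (rr_eq_zero W _ (diff_mem hW)) (r3_mem hW)]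
    refine sum_congr rfl fun t _ => ?_
    simp only [hr5, conv, one_mul]
    apply sum_bij (fun s _ => -s)
    · intro s hs; rw [mem_Icc] at hs ⊢; omega
    · intro s _ s' _ h; omega
    · intro s hs; exact ⟨-s, by rw [mem_Icc] at hs ⊢; omega, by ring⟩
    · intro s _; rw [rr_neg, sub_eq_add_neg]
  have h3 : ∀ α, fr (Icc (A - 2 * T) (A + 3 * T)) r5 α = fr W (fun _ => 1) α ^ 5 := by
    intro α
    rw [hr5, conv_ft _ _ (Icc (A - T) (A + 2 * T)) _ _ (r3_eq_zero hW)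
      (fun t ht s hs => by rw [mem_Icc] at ht hs ⊢; omega), r3_fr hW, rr_fr W _ (diff_mem hW)]
    ring
  simp only [h3] at h1
  rw [h2] at h1
  exact mixed hL N M T hN hM hT hB W (Icc (-(T : ℤ)) T) (Icc (A - T) (A + 2 * T)) (-T) (A - T)
    (Icc_subset_Icc le_rfl (by push_cast; omega))
    (Icc_subset_Icc le_rfl (by push_cast; omega)) (rr W) (r3 W)
    (fun α => fr W (fun _ => 1) α ^ 5) (#W ^ 3) V _ (by positivity)
    (fun α => by rw [rr_fr W _ (diff_mem hW), r3_fr hW]; exact le_of_eq (by ring))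
    (fun α => by
      have := fr_one_le W α
      have := fr_nonneg W (fun _ => 1) α
      calc _ = fr W (fun _ => 1) α ^ 3 * fr W (fun _ => 1) α ^ 2 := by ring
        _ ≤ _ := by gcongr) rfl h1

end Pool.Agent.Lib.MP_a93a41_nt.GM
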