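import Pool.Agent.Lib.MP_a93a41_nt.GM3

/-! The oscillatory sum bound and the bilinear estimate. -/

namespace Pool.Agent.Lib.MP_a93a41_nt.GM

open Finset Real Pool.Agent.Lib.LargeSieve

noncomputable def vv (P : ℕ) (j : ℤ) : ℝ := Real.exp (2 * π * ((j : ℝ) / P))

noncomputable def kap (N : ℕ) (β : ℝ) : ℝ := 1 / max 1 (N * |β|)

noncomputable def Ms (M : ℕ) : Finset ℤ := (Icc (-(M : ℤ)) M).erase 0

noncomputable def XX (P : ℕ) : Finset ℤ := Ioo (-(P : ℤ)) P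

lemma vv_pos (P : ℕ) (j : ℤ) : 0 < vv P j := Real.exp_pos _

lemma vv_add (P : ℕ) (i j : ℤ) : vv P (i + j) = vv P i * vv P j := by
  simp only [vv]; rw [← Real.exp_add]; congr 1; push_cast; ring

lemma vv_zero (P : ℕ) : vv P 0 = 1 := by simp [vv]

lemma vv_neg_mul (P : ℕ) (j : ℤ) : vv P (-j) * vv P j = 1 := by rw [← vv_add]; simp [vv_zero]

lemma exp_pi_lt : Real.exp π < 24 := by
  have h1 : Real.exp π ≤ Real.exp (3 + 0.15) := Real.exp_le_exp.2 (by linarith [Real.pi_lt_d2])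
  have h2 : Real.exp 3 = Real.exp 1 ^ 3 := by rw [← Real.exp_nat_mul]; norm_num
  have h3 := Real.exp_one_lt_d9
  have h4 : Real.exp 1 ^ 3 ≤ 2.7182818286 ^ 3 := by gcongr
  have h5 := Real.exp_bound_div_one_sub_of_interval' (x := 0.15) (by norm_num) (by norm_num)
  rw [Real.exp_add, h2] at h1
  have h6 := Real.exp_pos (0.15 : ℝ)
  have h7 : Real.exp 1 ^ 3 * Real.exp 0.15 ≤ 2.7182818286 ^ 3 * (1 / (1 - 0.15)) := by gcongr
  norm_num at h7 h1 ⊢
  linarith

lemma vv_le_half {P : ℕ} (hP : 0 < P) {j : ℤ} (h : 2 * j ≤ P) : vv P j ≤ 24 := by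
  refine le_trans (Real.exp_le_exp.2 ?_) exp_pi_lt.le
  have h1 : (0 : ℝ) < P := by exact_mod_cast hP
  have h2 : (2 : ℝ) * j ≤ P := by exact_mod_cast h
  have h3 : (j : ℝ) / P ≤ 1 / 2 := by rw [div_le_iff₀ h1]; linarith
  nlinarith [Real.pi_pos]

lemma vv_lt {P : ℕ} (hP : 0 < P) {j : ℤ} (h : j ≤ P) : vv P j < 576 := by
  have h1 : (0 : ℝ) < P := by exact_mod_cast hP
  have h2 : (j : ℝ) ≤ P := by exact_mod_cast h
  have h3 : (j : ℝ) / P ≤ 1 := by rw [div_le_iff₀ h1]; linarith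
  have h4 : vv P j ≤ Real.exp (π + π) := Real.exp_le_exp.2 (by nlinarith [Real.pi_pos])
  rw [Real.exp_add] at h4
  have := exp_pi_lt
  have := Real.exp_pos π
  nlinarith

lemma vv_ge_of {P : ℕ} {j : ℤ} {K : ℝ} (h : vv P (-j) ≤ K) : 1 / K ≤ vv P j := by
  have h1 := vv_neg_mul P j
  have h2 := vv_pos P j
  have h3 := vv_pos P (-j)
  rw [div_le_iff₀ (by linarith)]
  nlinarith

lemma sum_Ico_eq_range {M : Type*} [AddCommMonoid M] (A : ℤ) (n : ℕ) (f : ℤ → M) :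
    ∑ u ∈ Ico A (A + n), f u = ∑ k ∈ range n, f (A + k) := by
  symm
  apply Finset.sum_bij (fun (k : ℕ) _ => A + (k : ℤ))
  · intro k hk; simp at hk ⊢; omega
  · intro k _ k' _ h; omega
  · intro j hj
    simp at hj
    exact ⟨(j - A).toNat, by simp; omega, by omega⟩
  · intro k _; rfl

lemma Kstep {P : ℕ} (hP : 4000000 ≤ P) {ξ : ℝ} (h1 : 1 ≤ |ξ|) (h2 : ξ ^ 2 ≤ P) {v : ℝ}
    (hv1 : 1 / 24 ≤ v) (hv2 : v ≤ 24) :
    ‖ee (ξ * (v * vv P 1)) / (2 * π * Complex.I * ((ξ * (v * vv P 1) * (vv P 1 - 1) : ℝ) : ℂ))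
      - ee (ξ * v) / (2 * π * Complex.I * ((ξ * v * (vv P 1 - 1) : ℝ) : ℂ)) - ee (ξ * v)‖
      ≤ 1904 / |ξ| ∧
    ‖ee (ξ * v) / (2 * π * Complex.I * ((ξ * v * (vv P 1 - 1) : ℝ) : ℂ))‖ ≤ P / |ξ| := by
  have hP' : (4000000 : ℝ) ≤ P := by exact_mod_cast hP
  have hpi := Real.pi_gt_three
  have hpi2 := Real.pi_lt_d2
  set q := vv P 1 with hq
  set s : ℝ := 2 * π * (1 / P) with hs
  have hs0 : 0 < s := by positivity
  have hs1 : s ≤ 1 := by
    rw [hs, mul_one_div, div_le_one (by linarith)]; linarith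
  have hqs : q = Real.exp s := by simp [hq, vv, hs]
  have hq1 : s ≤ q - 1 := by rw [hqs]; linarith [Real.add_one_le_exp s]
  have hq2 : q - 1 ≤ 2 * s := by
    have := Real.abs_exp_sub_one_le (x := s) (by rw [abs_of_pos hs0]; exact hs1)
    rw [abs_of_pos hs0] at this
    rw [hqs]; exact (le_abs_self _).trans this
  have hsP : s * P = 2 * π := by rw [hs]; field_simp
  set Δ : ℝ := ξ * v * (q - 1) with hΔ
  have hΔa : |Δ| = |ξ| * v * (q - 1) := by
    rw [hΔ, abs_mul, abs_mul, abs_of_pos (by linarith : 0 < v), abs_of_pos (by linarith : 0 < q - 1)]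
  have hΔ1 : |ξ| * s / 24 ≤ |Δ| := by
    rw [hΔa]
    calc |ξ| * s / 24 = |ξ| * (1 / 24) * s := by ring
      _ ≤ _ := by gcongr
  have hΔ2 : |Δ| ≤ |ξ| * 24 * (2 * s) := by rw [hΔa]; gcongr; linarith
  have hΔ0 : 0 < |Δ| := lt_of_lt_of_le (by positivity) hΔ1
  have hΔne : (Δ : ℂ) ≠ 0 := by exact_mod_cast abs_pos.1 hΔ0
  have hx2 : |ξ| * |ξ| ≤ P := by rw [← sq, sq_abs]; exact h2
  have hx3 : 2000 * |ξ| ≤ P := by
    by_contra hc
    push Not at hc
    nlinarith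
  set w : ℂ := 2 * π * Complex.I * Δ with hw
  have hwn : ‖w‖ = 2 * π * |Δ| := by
    rw [hw]; simp [abs_of_pos Real.pi_pos]
  have hw0 : w ≠ 0 := by
    rw [← norm_pos_iff, hwn]; positivity
  have hw1 : ‖w‖ * P ≤ 1900 * |ξ| := by
    rw [hwn]
    calc 2 * π * |Δ| * P ≤ 2 * π * (|ξ| * 24 * (2 * s)) * P := by gcongr
      _ = 96 * π * (s * P) * |ξ| := by ring
      _ ≤ 1900 * |ξ| := by rw [hsP]; gcongr; nlinarith [Real.pi_lt_d4]
  have hw2 : ‖w‖ ≤ 1 := by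
    by_contra hc
    push Not at hc
    nlinarith
  have hw3 : |ξ| * s ≤ 4 * ‖w‖ := by rw [hwn]; nlinarith
  constructor
  · have e1 : ee (ξ * (v * q)) = ee (ξ * v) * Complex.exp w := by
      rw [show ξ * (v * q) = ξ * v + Δ by rw [hΔ]; ring, ee_add]
      congr 1
      simp only [ee, hw]; congr 1; push_cast; ring
    have hq0 : (q : ℂ) ≠ 0 := by exact_mod_cast (by linarith : q ≠ 0)
    have e2 : (2 * π * Complex.I * ((ξ * (v * q) * (q - 1) : ℝ) : ℂ)) = w * q := by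
      rw [hw, hΔ]; push_cast; ring
    rw [e1, e2]
    have e3 : ee (ξ * v) * Complex.exp w / (w * q) - ee (ξ * v) / w - ee (ξ * v)
        = ee (ξ * v) * ((Complex.exp w - 1 - w) / w
          + Complex.exp w * (((1 - q) / q : ℝ) : ℂ) / w) := by
      push_cast; field_simp; ring
    rw [e3, norm_mul, norm_ee, one_mul]
    refine (norm_add_le _ _).trans ?_
    have n1 : ‖(Complex.exp w - 1 - w) / w‖ ≤ 1900 / |ξ| := by
      rw [norm_div, div_le_iff₀ (norm_pos_iff.2 hw0)]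
      refine (Complex.norm_exp_sub_one_sub_id_le hw2).trans ?_
      rw [sq]
      gcongr
      rw [le_div_iff₀ (by linarith)]
      by_contra hc
      push Not at hc
      have : ‖w‖ * |ξ| * |ξ| ≤ ‖w‖ * P := by rw [mul_assoc]; gcongr
      nlinarith
    have n2 : ‖Complex.exp w * (((1 - q) / q : ℝ) : ℂ) / w‖ ≤ 4 / |ξ| := by
      have a1 : ‖Complex.exp w‖ = 1 := by
        rw [hw, show (2 * π * Complex.I * Δ : ℂ) = ((2 * π * Δ : ℝ) : ℂ) * Complex.I by
          push_cast; ring]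
        exact Complex.norm_exp_ofReal_mul_I _
      have a2 : |(1 - q) / q| ≤ s := by
        rw [abs_div, abs_of_pos (by linarith : 0 < q), abs_of_nonpos (by linarith),
          div_le_iff₀ (by linarith)]
        have a3 := Real.add_one_le_exp (-s)
        have a4 : Real.exp (-s) * q = 1 := by rw [hqs, ← Real.exp_add]; simp
        nlinarith
      rw [norm_div, norm_mul, a1, one_mul, Complex.norm_real, Real.norm_eq_abs,
        div_le_div_iff₀ (norm_pos_iff.2 hw0) (by linarith)]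
      nlinarith [abs_nonneg ξ]
    calc _ ≤ 1900 / |ξ| + 4 / |ξ| := add_le_add n1 n2
      _ = _ := by ring
  · rw [norm_div, norm_ee, div_le_div_iff₀ (norm_pos_iff.2 hw0) (by linarith)]
    have : |ξ| * (s * P) ≤ 4 * ‖w‖ * P := by rw [← mul_assoc]; gcongr
    rw [hsP] at this
    nlinarith

lemma Kbound {P : ℕ} (hP : 4000000 ≤ P) {ξ : ℝ} (h2 : ξ ^ 2 ≤ P) (z0 z1 : ℤ)
    (h0 : -(P : ℤ) ≤ 2 * z0) (h1 : 2 * z1 ≤ P) :
    ‖∑ z ∈ Ico z0 z1, ee (ξ * vv P z)‖ ≤ 2000 * P / max 1 |ξ| := by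
  have hP0 : 0 < P := by omega
  have hP' : (0 : ℝ) < P := by exact_mod_cast hP0
  rcases le_or_gt z1 z0 with h | h
  · rw [Ico_eq_empty (by omega), sum_empty, norm_zero]; positivity
  obtain ⟨n, rfl⟩ : ∃ n : ℕ, z1 = z0 + n := ⟨(z1 - z0).toNat, by omega⟩
  have hn : (n : ℝ) ≤ P := by exact_mod_cast (by omega : n ≤ P)
  rw [sum_Ico_eq_range]
  rcases le_or_gt |ξ| 1 with hx | hx
  · rw [max_eq_left hx]
    refine (norm_sum_le _ _).trans ?_
    simp only [norm_ee, sum_const, card_range, nsmul_eq_mul, mul_one, div_one]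
    linarith
  rw [max_eq_right hx.le]
  set U : ℕ → ℂ := fun k => ee (ξ * vv P (z0 + k))
    / (2 * π * Complex.I * ((ξ * vv P (z0 + k) * (vv P 1 - 1) : ℝ) : ℂ)) with hU
  have hb : ∀ k : ℕ, k ≤ n → 1 / 24 ≤ vv P (z0 + k) ∧ vv P (z0 + k) ≤ 24 := fun k hk =>
    ⟨vv_ge_of (vv_le_half hP0 (by omega)), vv_le_half hP0 (by omega)⟩
  have hs : ∀ k ∈ range n, ‖U (k + 1) - U k - ee (ξ * vv P (z0 + k))‖ ≤ 1904 / |ξ| := by
    intro k hk
    have hk' := (mem_range.1 hk).le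
    have := (Kstep hP hx.le h2 (hb k hk').1 (hb k hk').2).1
    simp only [hU]
    rw [show z0 + ((k + 1 : ℕ) : ℤ) = z0 + k + 1 by push_cast; ring, vv_add P (z0 + k) 1]
    exact this
  have e : ∑ k ∈ range n, ee (ξ * vv P (z0 + k))
      = U n - U 0 - ∑ k ∈ range n, (U (k + 1) - U k - ee (ξ * vv P (z0 + k))) := by
    rw [sum_sub_distrib, sum_range_sub]; ring
  rw [e]
  have a1 := (Kstep hP hx.le h2 (hb n le_rfl).1 (hb n le_rfl).2).2
  have a2 := (Kstep hP hx.le h2 (hb 0 (by omega)).1 (hb 0 (by omega)).2).2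
  have a3 := (norm_sum_le _ _).trans (sum_le_card_nsmul _ _ _ hs)
  rw [card_range, nsmul_eq_mul] at a3
  have a4 : (n : ℝ) * (1904 / |ξ|) ≤ P * (1904 / |ξ|) := by gcongr
  refine (norm_sub_le _ _).trans ((add_le_add (norm_sub_le _ _) le_rfl).trans ?_)
  have a5 : 2000 * (P : ℝ) / |ξ| = P / |ξ| + P / |ξ| + P * (1904 / |ξ|) + 94 * (P / |ξ|) := by ring
  have a6 : 0 ≤ (P : ℝ) / |ξ| := by positivity
  have a7 : ‖U n‖ ≤ P / |ξ| := a1
  have a8 : ‖U 0‖ ≤ P / |ξ| := a2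
  linarith

lemma kap_nonneg (N : ℕ) (β : ℝ) : 0 ≤ kap N β := by unfold kap; positivity

lemma kap_le_one (N : ℕ) (β : ℝ) : kap N β ≤ 1 := by
  unfold kap; rw [div_le_one (by positivity)]; exact le_max_left _ _

lemma kap_le_of {N : ℕ} {β D : ℝ} (hD : 0 < D) (h : D ≤ N * |β|) : kap N β ≤ 1 / D :=
  one_div_le_one_div_of_le hD (h.trans (le_max_right _ _))

lemma kap_scale (N : ℕ) {v : ℝ} (hv : 1 / 576 ≤ v) (β : ℝ) : kap N (v * β) ≤ 576 * kap N β := by
  unfold kap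
  rw [mul_one_div, div_le_div_iff₀ (by positivity) (by positivity), one_mul, max_le_iff]
  have h0 : (0 : ℝ) ≤ N * |β| := by positivity
  constructor
  · linarith [le_max_left (1 : ℝ) (N * |v * β|)]
  · have h1 := le_max_right (1 : ℝ) (N * |v * β|)
    rw [abs_mul, abs_of_pos (by linarith : 0 < v)] at h1 ⊢
    nlinarith

lemma fejer_low (L : ℕ) {θ : ℝ} (h : L * |θ| ≤ 1 / 6) :
    (L : ℝ) / 2 ≤ ‖∑ l ∈ range L, ee (l * θ)‖ := by
  refine le_trans ?_ (Complex.re_le_norm _)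
  rw [Complex.re_sum]
  have : ∀ l ∈ range L, (1 / 2 : ℝ) ≤ (ee (l * θ)).re := by
    intro l hl
    have hl' : (l : ℝ) ≤ L := by exact_mod_cast (mem_range.1 hl).le
    simp only [ee]
    rw [mul_comm, Complex.exp_ofReal_mul_I_re, ← Real.cos_abs, ← Real.cos_pi_div_three]
    apply Real.cos_le_cos_of_nonneg_of_le_pi (abs_nonneg _) (by linarith [Real.pi_pos])
    rw [abs_mul, abs_mul (l : ℝ), abs_of_pos (by positivity : (0 : ℝ) < 2 * π), Nat.abs_cast]
    have : (l : ℝ) * |θ| ≤ 1 / 6 := le_trans (by gcongr) h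
    nlinarith [Real.pi_pos]
  have := card_nsmul_le_sum _ _ _ this
  rw [card_range, nsmul_eq_mul] at this
  linarith

/-- A sum of normalised Fejer kernels. -/
noncomputable def FF (N : ℕ) (β : ℝ) : ℝ :=
  ∑ L ∈ Icc 1 N, ‖∑ l ∈ range L, ee (l * β)‖ ^ 2 / (L : ℝ) ^ 2

lemma FF_one {N : ℕ} (hN : 0 < N) (β : ℝ) : 1 ≤ FF N β := by
  have := single_le_sum (s := Icc 1 N)
    (f := fun L : ℕ => ‖∑ l ∈ range L, ee (l * β)‖ ^ 2 / (L : ℝ) ^ 2)
    (fun _ _ => by positivity) (a := 1) (mem_Icc.2 ⟨le_rfl, hN⟩)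
  simpa [ee_zero, FF] using this

lemma FF_kap {N : ℕ} (hN : 0 < N) (θ : ℝ) (k : ℤ) : N * kap N θ ≤ 30 * FF N (θ + k) := by
  have hN' : (1 : ℝ) ≤ N := by exact_mod_cast hN
  have e : FF N (θ + k) = FF N θ := by
    simp only [FF]
    refine sum_congr rfl fun L _ => ?_
    congr 3
    refine sum_congr rfl fun l _ => ?_
    rw [mul_add, ee_add, show (l : ℝ) * k = ((l * k : ℤ) : ℝ) by push_cast; ring, ee_int, mul_one]
  rw [e]
  have h1 := FF_one hN θ
  have h2 : ∀ L0 : ℕ, L0 ≤ N → L0 * |θ| ≤ 1 / 6 → (L0 : ℝ) ≤ 4 * FF N θ := by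
    intro L0 a1 a2
    have b1 : ∑ L ∈ Icc 1 L0, ‖∑ l ∈ range L, ee (l * θ)‖ ^ 2 / (L : ℝ) ^ 2 ≤ FF N θ :=
      sum_le_sum_of_subset_of_nonneg (Icc_subset_Icc_right a1) fun _ _ _ => by positivity
    have b2 : ∀ L ∈ Icc 1 L0, (1 / 4 : ℝ) ≤ ‖∑ l ∈ range L, ee (l * θ)‖ ^ 2 / (L : ℝ) ^ 2 := by
      intro L hL
      have c1 : (1 : ℝ) ≤ L := by exact_mod_cast (mem_Icc.1 hL).1
      have c2 : (L : ℝ) ≤ L0 := by exact_mod_cast (mem_Icc.1 hL).2
      have c3 := fejer_low L (θ := θ) (le_trans (by gcongr) a2)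
      rw [le_div_iff₀ (by positivity)]
      nlinarith
    have b3 := card_nsmul_le_sum _ _ _ b2
    rw [Nat.card_Icc, add_tsub_cancel_right, nsmul_eq_mul] at b3
    linarith
  by_cases hc : N * |θ| ≤ 1 / 6
  · have := h2 N le_rfl hc
    have := kap_le_one N θ
    nlinarith
  push Not at hc
  have hθ : 0 < |θ| := by
    by_contra h; have : |θ| = 0 := le_antisymm (not_lt.1 h) (abs_nonneg _)
    rw [this] at hc; linarith
  set L0 := ⌊1 / (6 * |θ|)⌋₊
  have a1 : (L0 : ℝ) ≤ 1 / (6 * |θ|) := Nat.floor_le (by positivity)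
  have a2 : 1 / (6 * |θ|) < L0 + 1 := Nat.lt_floor_add_one _
  rw [le_div_iff₀ (by positivity)] at a1
  rw [div_lt_iff₀ (by positivity)] at a2
  have a3 : L0 ≤ N := by
    have : (L0 : ℝ) ≤ N := by
      by_contra h; push Not at h; nlinarith
    exact_mod_cast this
  have a4 := h2 L0 a3 (by linarith)
  have a5 := kap_le_of (N := N) (β := θ) (D := N * |θ|) (by positivity) le_rfl
  have a6 : N * kap N θ ≤ 1 / |θ| := by
    calc N * kap N θ ≤ N * (1 / (N * |θ|)) := by gcongr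
      _ = _ := by field_simp
  have a7 : 1 / |θ| ≤ 6 * (L0 + 1) := by rw [div_le_iff₀ hθ]; linarith
  linarith

lemma periodize {Λ B : ℝ} (hL : Loss Λ B) {N : ℕ} (hN : 0 < N) (M K : ℕ) {β : ℝ} (hβ : |β| ≤ K)
    (hB : ((K + M + 1 : ℕ) : ℝ) ≤ B) :
    ∑ m ∈ Ms M, kap N (β + m) ≤ 7 * Λ / N * FF N β := by
  have hN' : (1 : ℝ) ≤ N := by exact_mod_cast hN
  have hΛ := hL.big
  set r := round β with hr
  have h1 : |β - r| ≤ 1 / 2 := abs_sub_round β
  have h2 : ∀ m : ℤ, kap N (β + m) ≤ (if m = -r then kap N (β - r) else 0)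
      + 2 / N * (1 / max (1 : ℝ) |((m + r : ℤ) : ℝ)|) := by
    intro m
    split_ifs with h
    · rw [h]; push_cast
      rw [← sub_eq_add_neg]
      exact le_add_of_nonneg_right (by positivity)
    · have a1 : (1 : ℝ) ≤ |((m + r : ℤ) : ℝ)| := by
        have : (1 : ℤ) ≤ |m + r| := Int.one_le_abs (by omega)
        exact_mod_cast this
      rw [max_eq_right a1, zero_add]
      have a2 : |((m + r : ℤ) : ℝ)| ≤ |β + m| + |β - r| := by
        have := abs_sub (β + m) (β - r)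
        rwa [show β + m - (β - r) = ((m + r : ℤ) : ℝ) by push_cast; ring] at this
      refine (kap_le_of (D := N * |((m + r : ℤ) : ℝ)| / 2) (by positivity) ?_).trans
        (le_of_eq (by field_simp))
      rw [mul_div_assoc]; gcongr; linarith
  refine (sum_le_sum fun m _ => h2 m).trans ?_
  rw [sum_add_distrib, ← mul_sum]
  have h3 : ∑ m ∈ Ms M, (if m = -r then kap N (β - r) else 0) ≤ kap N (β - r) := by
    rw [sum_ite_eq']
    split_ifs
    · exact le_rfl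
    · exact kap_nonneg _ _
  have hrK : |r| ≤ K + 1 := by
    have a1 : |(r : ℝ)| ≤ K + 1 := by
      have := abs_sub β (β - r)
      rw [show β - (β - r) = r by ring] at this
      linarith
    exact_mod_cast a1
  have h4 : ∑ m ∈ Ms M, 1 / max (1 : ℝ) |((m + r : ℤ) : ℝ)| ≤ 3 * Λ := by
    have a1 := harm_int (K + M + 1)
    have a2 := hL.log_le (x := ((K + M + 1 : ℕ) : ℝ)) (by positivity) hB
    refine le_trans ?_ (a1.trans (by linarith))
    rw [← sum_image (s := Ms M) (g := fun m => m + r)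
      (f := fun i : ℤ => 1 / max (1 : ℝ) |(i : ℝ)|) (by intro a _ b _ h; simpa using h)]
    refine sum_le_sum_of_subset_of_nonneg ?_ fun _ _ _ => by positivity
    intro i hi
    obtain ⟨m, hm, rfl⟩ := mem_image.1 hi
    have := mem_Icc.1 (mem_of_mem_erase hm)
    rw [abs_le] at hrK
    rw [mem_Icc]; push_cast; omega
  have h5 := FF_kap hN (β - r) r
  rw [sub_add_cancel] at h5
  have h6 := FF_one hN β
  have h7 : kap N (β - r) ≤ 30 / N * FF N β := by
    rw [div_mul_eq_mul_div, le_div_iff₀ (by linarith)]; linarith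
  calc _ ≤ 30 / N * FF N β + 2 / N * (3 * Λ) := by gcongr; exact h3.trans h7
    _ ≤ Λ / N * FF N β + 2 / N * (3 * Λ) * FF N β := by
        refine add_le_add ?_ (le_mul_of_one_le_right (by positivity) h6)
        gcongr; linarith
    _ = _ := by ring

end Pool.Agent.Lib.MP_a93a41_nt.GM
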