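import Pool.Agent.Lib.MP_a93a41_nt.GM4

/-! The bilinear estimate and its three symmetric forms. -/

namespace Pool.Agent.Lib.MP_a93a41_nt.GM

open Finset Real Pool.Agent.Lib.LargeSieve

lemma sum_le_of_inj {α β : Type*} [DecidableEq β] (s : Finset α) (t : Finset β) (φ : α → β)
    (f : α → ℝ) (g : β → ℝ) (hφ : Set.InjOn φ s) (hm : ∀ a ∈ s, φ a ∈ t)
    (hf : ∀ a ∈ s, f a ≤ g (φ a)) (hg : ∀ b ∈ t, 0 ≤ g b) : ∑ a ∈ s, f a ≤ ∑ b ∈ t, g b := by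
  refine (sum_le_sum hf).trans ?_
  rw [← sum_image (f := g) hφ]
  refine sum_le_sum_of_subset_of_nonneg ?_ fun b hb _ => hg b hb
  intro b hb
  obtain ⟨a, ha, rfl⟩ := mem_image.1 hb
  exact hm a ha

lemma card_Ms (M : ℕ) : (#(Ms M) : ℝ) ≤ 2 * M := by
  have : #(Ms M) = 2 * M := by
    rw [Ms, card_erase_of_mem (by simp), Int.card_Icc]; omega
  rw [this]; push_cast; exact le_rfl

lemma mem_Ms {M : ℕ} {m : ℤ} : m ∈ Ms M ↔ m ≠ 0 ∧ -(M : ℤ) ≤ m ∧ m ≤ M := by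
  simp [Ms]

lemma mem_XX {P : ℕ} {x : ℤ} : x ∈ XX P ↔ -(P : ℤ) < x ∧ x < P := by simp [XX]

lemma vv_sep {P : ℕ} (hP : 0 < P) {x y : ℤ} (hx : x ∈ XX P) (hy : y ∈ XX P) (h : x ≠ y) :
    1 / (100 * (P : ℝ)) ≤ |vv P x - vv P y| := by
  wlog hxy : y < x generalizing x y
  · have := this hy hx h.symm (by omega)
    rwa [abs_sub_comm]
  have hP' : (0 : ℝ) < P := by exact_mod_cast hP
  rw [mem_XX] at hx hy
  have h1 : 1 / 576 ≤ vv P y := vv_ge_of (vv_lt hP (by omega)).le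
  have h2 : vv P x = vv P y * vv P (x - y) := by rw [← vv_add]; congr 1; ring
  have h3 : 6 / P + 1 ≤ vv P (x - y) := by
    refine le_trans ?_ (Real.add_one_le_exp _)
    have a1 : (1 : ℝ) ≤ ((x - y : ℤ) : ℝ) := by exact_mod_cast (by omega : 1 ≤ x - y)
    have a2 := Real.pi_gt_three
    rw [← mul_div_assoc]
    gcongr
    nlinarith
  refine le_trans ?_ (le_abs_self _)
  have h4 : 1 / (100 * (P : ℝ)) ≤ 1 / 576 * (6 / P) := by
    rw [div_mul_div_comm, div_le_div_iff₀ (by positivity) (by positivity)]; linarith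
  have h5 : 1 / 576 * (6 / (P : ℝ)) ≤ vv P y * (vv P (x - y) - 1) := by gcongr; linarith
  rw [h2]; linarith

noncomputable def gh (P : ℕ) (g : ℤ → ℝ) (ξ : ℤ) : ℂ := ∑ x ∈ XX P, (g x : ℂ) * ee (ξ * vv P x)

noncomputable def Ag (P M : ℕ) (g : ℤ → ℝ) (k : ℤ) : ℂ := ∑ m ∈ Ms M, gh P g (k * m)

lemma bessel {Λ B : ℝ} (hL : Loss Λ B) {P K : ℕ} (hP : 0 < P) (hK : K ≤ P)
    (hB : 100 * (P : ℝ) ≤ B) (g : ℤ → ℝ) :
    ∑ ξ ∈ Icc (-(K : ℤ)) K, ‖gh P g ξ‖ ^ 2 ≤ 120000 * Λ * P * ∑ x ∈ XX P, g x ^ 2 := by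
  have hP' : (1 : ℝ) ≤ P := by exact_mod_cast hP
  have hK' : (K : ℝ) ≤ P := by exact_mod_cast hK
  have hΛ := hL.big
  have h := dual1 (XX P) (vv P) (1 / (100 * (P : ℝ))) (by positivity)
    (by rw [div_le_div_iff₀ (by positivity) (by positivity)]; linarith)
    (fun x hx y hy h => vv_sep hP hx hy h) 1152
    (fun x hx => ⟨(vv_pos _ _).le, by
      have := vv_lt hP (j := x) (by rw [mem_XX] at hx; omega)
      push_cast; linarith⟩) (-K) (2 * K) (fun x => (g x : ℂ))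
  rw [show -(K : ℤ) + ((2 * K : ℕ) : ℤ) = K by push_cast; ring] at h
  simp only [Complex.norm_real, Real.norm_eq_abs, sq_abs, one_div_one_div] at h
  refine h.trans (mul_le_mul_of_nonneg_right ?_ (by positivity))
  have h1 := hL.log_le (x := 100 * (P : ℝ)) (by positivity) hB
  have h2 : 100 * (P : ℝ) * (1 + Real.log (100 * P)) ≤ 100 * P * Λ := by gcongr
  push_cast
  nlinarith

lemma card_int_fiber (s t : Finset ℤ) (ξ : ℤ) (hξ : ξ ≠ 0) :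
    #((s ×ˢ t).filter fun x => x.1 * x.2 = ξ) ≤ 2 * #ξ.natAbs.divisors := by
  have : 2 * #ξ.natAbs.divisors = #(ξ.natAbs.divisors ×ˢ (univ : Finset Bool)) := by
    simp [mul_comm]
  rw [this]
  apply card_le_card_of_injOn (fun x => (x.1.natAbs, decide (0 < x.1)))
  · intro x hx
    have := (mem_filter.1 (mem_coe.1 hx)).2
    simp only [coe_product, Set.mem_prod, mem_coe, Nat.mem_divisors, mem_univ, and_true]
    exact ⟨Int.natAbs_dvd_natAbs.2 ⟨x.2, this.symm⟩, by omega⟩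
  · intro x hx y hy h
    have h1 := (mem_filter.1 (mem_coe.1 hx)).2
    have h2 := (mem_filter.1 (mem_coe.1 hy)).2
    simp only [Prod.mk.injEq, decide_eq_decide] at h
    have h3 : x.1 = y.1 := by omega
    refine Prod.ext h3 ?_
    have h4 : x.1 ≠ 0 := by rintro h0; rw [h0] at h1; omega
    rw [← h3] at h2
    exact mul_left_cancel₀ h4 (h1.trans h2.symm)

lemma Ag_sq {Λ B : ℝ} (hL : Loss Λ B) {P N M : ℕ} (hP : 0 < P) (hK : N * M ≤ P)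
    (hB : 100 * (P : ℝ) ≤ B) (g : ℤ → ℝ) :
    ∑ k ∈ Ms N, ‖Ag P M g k‖ ^ 2 ≤ Λ ^ 4 * M * P * ∑ x ∈ XX P, g x ^ 2 := by
  have hΛ := hL.big
  have h1 : ∀ k, ‖Ag P M g k‖ ^ 2 ≤ 2 * M * ∑ m ∈ Ms M, ‖gh P g (k * m)‖ ^ 2 := by
    intro k
    refine (pow_le_pow_left₀ (norm_nonneg _) (norm_sum_le _ _) 2).trans ?_
    refine (sq_sum_le_card_mul_sum_sq).trans ?_
    gcongr
    exact card_Ms M
  refine (sum_le_sum fun k _ => h1 k).trans ?_
  rw [← mul_sum, ← sum_product']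
  have hmap : ∀ x ∈ Ms N ×ˢ Ms M, x.1 * x.2 ∈ Ms (N * M) := by
    intro x hx
    obtain ⟨a1, a2⟩ := mem_product.1 hx
    rw [mem_Ms] at a1 a2 ⊢
    refine ⟨mul_ne_zero a1.1 a2.1, ?_⟩
    rw [← abs_le, abs_mul]; push_cast
    exact mul_le_mul (abs_le.2 a1.2) (abs_le.2 a2.2) (abs_nonneg _) (by positivity)
  rw [← sum_fiberwise_of_maps_to hmap]
  have h2 : ∑ ξ ∈ Ms (N * M), ∑ x ∈ Ms N ×ˢ Ms M with x.1 * x.2 = ξ, ‖gh P g (x.1 * x.2)‖ ^ 2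
      ≤ 2 * Λ * ∑ ξ ∈ Icc (-((N * M : ℕ) : ℤ)) (N * M : ℕ), ‖gh P g ξ‖ ^ 2 := by
    rw [mul_sum]
    refine le_trans (sum_le_sum fun ξ hξ => ?_) (sum_le_sum_of_subset_of_nonneg (erase_subset 0 _)
      fun _ _ _ => by positivity)
    rw [sum_congr rfl (g := fun _ => ‖gh P g ξ‖ ^ 2) fun x hx => by rw [(mem_filter.1 hx).2],
      sum_const, nsmul_eq_mul]
    refine mul_le_mul_of_nonneg_right ?_ (by positivity)
    rw [mem_Ms] at hξ
    have a1 := card_int_fiber (Ms N) (Ms M) ξ hξ.1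
    have a2 := hL.dv ξ.natAbs (by
      have : ξ.natAbs ≤ P := by omega
      have : (ξ.natAbs : ℝ) ≤ P := by exact_mod_cast this
      linarith [(by positivity : (0 : ℝ) ≤ P)])
    have a3 : (#((Ms N ×ˢ Ms M).filter fun x => x.1 * x.2 = ξ) : ℝ)
        ≤ 2 * #ξ.natAbs.divisors := by exact_mod_cast a1
    linarith
  have h3 := bessel hL hP hK hB g
  have h4 : (0 : ℝ) ≤ M * P * ∑ x ∈ XX P, g x ^ 2 := by positivity
  calc _ ≤ 2 * M * (2 * Λ * (120000 * Λ * P * ∑ x ∈ XX P, g x ^ 2)) := by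
        refine mul_le_mul_of_nonneg_left (h2.trans ?_) (by positivity)
        gcongr
    _ = 480000 * Λ ^ 2 * (M * P * ∑ x ∈ XX P, g x ^ 2) := by ring
    _ ≤ Λ ^ 2 * Λ ^ 2 * (M * P * ∑ x ∈ XX P, g x ^ 2) := by gcongr; nlinarith
    _ = _ := by ring

lemma Ag_zero (P M : ℕ) (g : ℤ → ℝ) (hg : ∀ x, 0 ≤ g x) :
    ‖Ag P M g 0‖ ≤ 2 * M * ∑ x ∈ XX P, g x := by
  have : Ag P M g 0 = ((#(Ms M) * ∑ x ∈ XX P, g x : ℝ) : ℂ) := by
    simp [Ag, gh, ee_zero]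
  have h0 : 0 ≤ ∑ x ∈ XX P, g x := sum_nonneg fun x _ => hg x
  rw [this, Complex.norm_real, Real.norm_eq_abs, abs_of_nonneg (by positivity)]
  gcongr
  exact card_Ms M

lemma normsq_range (L : ℕ) (β : ℝ) : ((‖∑ l ∈ range L, ee (l * β)‖ ^ 2 : ℝ) : ℂ)
    = ∑ l ∈ range L, ∑ l' ∈ range L, ee ((((l : ℤ) - l' : ℤ) : ℝ) * β) := by
  push_cast
  rw [← Complex.mul_conj']
  simp only [map_sum, conj_ee, Finset.sum_mul_sum]
  refine sum_congr rfl fun u _ => sum_congr rfl fun v _ => ?_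
  rw [show ((u : ℝ) - v) * β = u * β + -(v * β) by ring, ee_add]

lemma BL_one {Λ B : ℝ} (hL : Loss Λ B) {P N M : ℕ} (hP : 0 < P) (hK : N * M ≤ P)
    (hB : 100 * (P : ℝ) ≤ B) (g h : ℤ → ℝ) (hg : ∀ x, 0 ≤ g x) (hh : ∀ x, 0 ≤ h x) (L : ℕ)
    (hLN : L ≤ N) :
    ∑ z ∈ (Ms M ×ˢ XX P) ×ˢ (Ms M ×ˢ XX P), g z.1.2 * h z.2.2
        * ‖∑ l ∈ range L, ee (l * (z.1.1 * vv P z.1.2 + z.2.1 * vv P z.2.2))‖ ^ 2
      ≤ L * (4 * M ^ 2 * ((∑ x ∈ XX P, g x) * ∑ x ∈ XX P, h x)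
        + Λ ^ 4 * M * P * (√(∑ x ∈ XX P, g x ^ 2) * √(∑ x ∈ XX P, h x ^ 2))) := by
  have e : ((∑ z ∈ (Ms M ×ˢ XX P) ×ˢ (Ms M ×ˢ XX P), g z.1.2 * h z.2.2
        * ‖∑ l ∈ range L, ee (l * (z.1.1 * vv P z.1.2 + z.2.1 * vv P z.2.2))‖ ^ 2 : ℝ) : ℂ)
      = ∑ l' ∈ range L, ∑ l ∈ range L, Ag P M g (l - l') * Ag P M h (l - l') := by
    rw [sum_comm (s := range L)]
    simp only [Complex.ofReal_sum, Complex.ofReal_mul, normsq_range, mul_sum]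
    rw [sum_comm]
    refine sum_congr rfl fun l _ => ?_
    rw [sum_comm]
    refine sum_congr rfl fun l' _ => ?_
    simp only [Ag, gh]
    rw [← sum_product', ← sum_product', sum_mul_sum, ← sum_product']
    refine sum_congr rfl fun z _ => ?_
    rw [mul_add, ee_add]
    push_cast
    simp only [mul_assoc]
    ring
  have h3 := congrArg norm e
  rw [Complex.norm_real, Real.norm_eq_abs] at h3
  refine (le_abs_self _).trans (h3.le.trans ((norm_sum_le _ _).trans ?_))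
  have key : ∀ l' ∈ range L, ‖∑ l ∈ range L, Ag P M g (l - l') * Ag P M h (l - l')‖
      ≤ 4 * M ^ 2 * ((∑ x ∈ XX P, g x) * ∑ x ∈ XX P, h x)
        + Λ ^ 4 * M * P * (√(∑ x ∈ XX P, g x ^ 2) * √(∑ x ∈ XX P, h x ^ 2)) := by
    intro l' hl'
    refine (norm_sum_le _ _).trans ?_
    have a1 := sum_le_of_inj (range L) (insert 0 (Ms N)) (fun l : ℕ => (l : ℤ) - l')
      (fun l => ‖Ag P M g (l - l') * Ag P M h (l - l')‖) (fun k => ‖Ag P M g k‖ * ‖Ag P M h k‖)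
      (by intro a _ b _ h; simpa using h)
      (by
        intro l hl
        rw [mem_range] at hl hl'
        rw [mem_insert, mem_Ms]; omega)
      (fun l _ => (norm_mul _ _).le) (fun _ _ => by positivity)
    refine a1.trans ?_
    rw [sum_insert (by simp [Ms])]
    refine add_le_add ?_ ?_
    · have b1 := Ag_zero P M g hg
      have b2 := Ag_zero P M h hh
      calc _ ≤ (2 * M * ∑ x ∈ XX P, g x) * (2 * M * ∑ x ∈ XX P, h x) :=
            mul_le_mul b1 b2 (norm_nonneg _) ((norm_nonneg _).trans b1)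
        _ = _ := by ring
    · have b1 := Ag_sq hL hP hK hB g
      have b2 := Ag_sq hL hP hK hB h
      have b3 := sum_mul_sq_le_sq_mul_sq (Ms N) (fun k => ‖Ag P M g k‖) (fun k => ‖Ag P M h k‖)
      refine (le_abs_self _).trans (abs_le_of_sq_le_sq (b3.trans ?_) (by positivity))
      rw [mul_pow, mul_pow (√_), Real.sq_sqrt (by positivity), Real.sq_sqrt (by positivity)]
      calc _ ≤ (Λ ^ 4 * M * P * ∑ x ∈ XX P, g x ^ 2) * (Λ ^ 4 * M * P * ∑ x ∈ XX P, h x ^ 2) := by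
            gcongr
        _ = _ := by ring
  have := sum_le_card_nsmul _ _ _ key
  rwa [card_range, nsmul_eq_mul] at this

noncomputable def MMM (M : ℕ) : Finset (ℤ × ℤ × ℤ) := Ms M ×ˢ Ms M ×ˢ Ms M

/-- The full bilinear sum. -/
noncomputable def BLs (P N M : ℕ) (g h : ℤ → ℝ) : ℝ :=
  ∑ z ∈ MMM M ×ˢ (XX P ×ˢ XX P), g z.2.1 * h z.2.2
    * kap N (z.1.1 * vv P z.2.1 + z.1.2.1 * vv P z.2.2 + z.1.2.2)

lemma BL {Λ B : ℝ} (hL : Loss Λ B) {P N M : ℕ} (hN : 0 < N) (hM : 0 < M) (hK : 2000 * (N * M) ≤ P)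
    (hB : 100 * (P : ℝ) ≤ B) (g h : ℤ → ℝ) (hg : ∀ x, 0 ≤ g x) (hh : ∀ x, 0 ≤ h x) :
    BLs P N M g h ≤ Λ ^ 7 / N * (M ^ 2 * ((∑ x ∈ XX P, g x) * ∑ x ∈ XX P, h x)
        + M * P * (√(∑ x ∈ XX P, g x ^ 2) * √(∑ x ∈ XX P, h x ^ 2))) := by
  have hΛ := hL.big
  have hNM : 0 < N * M := Nat.mul_pos hN hM
  have hP : 0 < P := by omega
  have hMN : M ≤ N * M := Nat.le_mul_of_pos_left M hN
  have hNN : N ≤ N * M := Nat.le_mul_of_pos_right N hM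
  have hP' : (0 : ℝ) ≤ P := by positivity
  have e : BLs P N M g h = ∑ z ∈ (Ms M ×ˢ XX P) ×ˢ (Ms M ×ˢ XX P), g z.1.2 * h z.2.2
      * ∑ m ∈ Ms M, kap N (z.1.1 * vv P z.1.2 + z.2.1 * vv P z.2.2 + m) := by
    simp only [mul_sum]
    rw [← sum_product', BLs]
    apply sum_nbij' (fun z => (((z.1.1, z.2.1), (z.1.2.1, z.2.2)), z.1.2.2))
      (fun w => ((w.1.1.1, w.1.2.1, w.2), (w.1.1.2, w.1.2.2)))
    · intro z hz; simp only [MMM, mem_product] at hz ⊢; tauto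
    · intro z hz; simp only [MMM, mem_product] at hz ⊢; tauto
    · intro z _; rfl
    · intro z _; rfl
    · intro z _; rfl
  rw [e]
  have h1 : ∀ z ∈ (Ms M ×ˢ XX P) ×ˢ (Ms M ×ˢ XX P),
      ∑ m ∈ Ms M, kap N (z.1.1 * vv P z.1.2 + z.2.1 * vv P z.2.2 + m)
        ≤ 7 * Λ / N * FF N (z.1.1 * vv P z.1.2 + z.2.1 * vv P z.2.2) := by
    intro z hz
    simp only [mem_product, mem_Ms, mem_XX] at hz
    refine periodize hL hN M (1152 * M) ?_ ?_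
    · have a : ∀ (m x : ℤ), -(M : ℤ) ≤ m ∧ m ≤ M → x < P → |m * vv P x| ≤ 576 * M := by
        intro m x b1 b2
        have c1 : |(m : ℝ)| ≤ M := by exact_mod_cast abs_le.2 b1
        rw [abs_mul, abs_of_pos (vv_pos _ _), mul_comm]
        gcongr
        exact (vv_lt hP b2.le).le
      refine (abs_add_le _ _).trans ?_
      have := a _ _ hz.1.1.2 hz.1.2.2
      have := a _ _ hz.2.1.2 hz.2.2.2
      push_cast; linarith
    · have : ((1152 * M + M + 1 : ℕ) : ℝ) ≤ P := by exact_mod_cast (by omega)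
      linarith
  refine (sum_le_sum fun z hz => mul_le_mul_of_nonneg_left (h1 z hz)
    (mul_nonneg (hg _) (hh _))).trans ?_
  set S1 := (∑ x ∈ XX P, g x) * ∑ x ∈ XX P, h x
  set S2 := √(∑ x ∈ XX P, g x ^ 2) * √(∑ x ∈ XX P, h x ^ 2)
  have hS1 : 0 ≤ S1 := mul_nonneg (sum_nonneg fun x _ => hg x) (sum_nonneg fun x _ => hh x)
  have hS2 : 0 ≤ S2 := by positivity
  have h2 : ∑ z ∈ (Ms M ×ˢ XX P) ×ˢ (Ms M ×ˢ XX P), g z.1.2 * h z.2.2
      * (7 * Λ / N * FF N (z.1.1 * vv P z.1.2 + z.2.1 * vv P z.2.2))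
      = 7 * Λ / N * ∑ L ∈ Icc 1 N, (∑ z ∈ (Ms M ×ˢ XX P) ×ˢ (Ms M ×ˢ XX P), g z.1.2 * h z.2.2
        * ‖∑ l ∈ range L, ee (l * (z.1.1 * vv P z.1.2 + z.2.1 * vv P z.2.2))‖ ^ 2)
          / (L : ℝ) ^ 2 := by
    simp only [FF, sum_div, mul_sum]
    rw [sum_comm]
    refine sum_congr rfl fun L _ => sum_congr rfl fun z _ => ?_
    ring
  rw [h2]
  set S := 4 * M ^ 2 * S1 + Λ ^ 4 * M * P * S2 with hS
  have hS0 : 0 ≤ S := by positivity
  have h3 : ∀ L ∈ Icc 1 N, (∑ z ∈ (Ms M ×ˢ XX P) ×ˢ (Ms M ×ˢ XX P), g z.1.2 * h z.2.2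
        * ‖∑ l ∈ range L, ee (l * (z.1.1 * vv P z.1.2 + z.2.1 * vv P z.2.2))‖ ^ 2)
          / (L : ℝ) ^ 2 ≤ 1 / L * S := by
    intro L hL'
    have a1 : (1 : ℝ) ≤ L := by exact_mod_cast (mem_Icc.1 hL').1
    have := BL_one hL hP (N := N) (M := M) (by omega) hB g h hg hh L (mem_Icc.1 hL').2
    rw [div_le_iff₀ (by positivity)]
    refine this.trans (le_of_eq ?_)
    change (L : ℝ) * S = _
    field_simp
  have h4 : ∑ L ∈ Icc 1 N, (1 : ℝ) / L ≤ Λ := by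
    refine (harm_le N).trans (hL.log_le (by exact_mod_cast hN) ?_)
    have : (N : ℝ) ≤ P := by exact_mod_cast (by omega)
    linarith
  have h5 : S ≤ Λ ^ 4 * (M ^ 2 * S1 + M * P * S2) := by
    have : 4 ≤ Λ ^ 4 := by nlinarith [sq_nonneg (Λ ^ 2 - 2), sq_nonneg Λ]
    have : 0 ≤ (M : ℝ) ^ 2 * S1 := by positivity
    nlinarith
  calc _ ≤ 7 * Λ / N * ∑ L ∈ Icc 1 N, 1 / (L : ℝ) * S := by
        gcongr with L hL'; exact h3 L hL'
    _ = 7 * Λ / N * ((∑ L ∈ Icc 1 N, 1 / (L : ℝ)) * S) := by rw [sum_mul]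
    _ ≤ Λ * Λ / N * (Λ * (Λ ^ 4 * (M ^ 2 * S1 + M * P * S2))) := by gcongr; linarith
    _ = _ := by ring

/-- Pairs whose difference is also in range. -/
noncomputable def Dm (P : ℕ) : Finset (ℤ × ℤ) := (XX P ×ˢ XX P).filter fun p => p.2 - p.1 ∈ XX P

noncomputable def Tri (P N M : ℕ) (F : ℤ → ℤ → ℝ) : ℝ :=
  ∑ z ∈ MMM M ×ˢ Dm P, F z.2.1 z.2.2
    * kap N (z.1.1 * vv P z.2.1 + z.1.2.1 * vv P z.2.2 + z.1.2.2)

lemma Tri_mono (P N M : ℕ) {F G : ℤ → ℤ → ℝ} (h : ∀ x y, F x y ≤ G x y) :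
    Tri P N M F ≤ Tri P N M G :=
  sum_le_sum fun _ _ => mul_le_mul_of_nonneg_right (h _ _) (kap_nonneg _ _)

lemma Tri_add (P N M : ℕ) (F G : ℤ → ℤ → ℝ) :
    Tri P N M (fun x y => F x y + G x y) = Tri P N M F + Tri P N M G := by
  simp only [Tri, add_mul, sum_add_distrib]

lemma triA (P N M : ℕ) (g h : ℤ → ℝ) (hg : ∀ x, 0 ≤ g x) (hh : ∀ x, 0 ≤ h x) :
    Tri P N M (fun x y => g x * h y) ≤ BLs P N M g h :=
  sum_le_sum_of_subset_of_nonneg (product_subset_product_right (filter_subset _ _))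
    fun _ _ _ => mul_nonneg (mul_nonneg (hg _) (hh _)) (kap_nonneg _ _)

lemma triB {P : ℕ} (hP : 0 < P) (N M : ℕ) (g h : ℤ → ℝ) (hg : ∀ x, 0 ≤ g x) (hh : ∀ x, 0 ≤ h x)
    (he : ∀ x, g (-x) = g x) :
    Tri P N M (fun x y => g x * h (y - x)) ≤ 576 * BLs P N M g h := by
  rw [BLs, mul_sum]
  refine sum_le_of_inj _ _ (fun z => ((z.1.2.2, z.1.2.1, z.1.1), (-z.2.1, z.2.2 - z.2.1))) _ _
    ?_ ?_ ?_ ?_
  · rintro ⟨⟨a1, a2, a3⟩, x, y⟩ _ ⟨⟨b1, b2, b3⟩, x', y'⟩ _ h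
    simp only [Prod.mk.injEq] at h ⊢
    omega
  · rintro ⟨⟨a1, a2, a3⟩, x, y⟩ hz
    simp only [MMM, Dm, mem_product, mem_filter, mem_XX] at hz ⊢
    refine ⟨by tauto, by omega⟩
  · rintro ⟨⟨a1, a2, a3⟩, x, y⟩ hz
    simp only [MMM, Dm, mem_product, mem_filter, mem_XX] at hz
    simp only [he]
    have h1 : 1 / 576 ≤ vv P x := vv_ge_of (vv_lt hP (by omega)).le
    have h2 := kap_scale N h1 (a3 * vv P (-x) + a2 * vv P (y - x) + a1)
    have h3 : vv P x * (a3 * vv P (-x) + a2 * vv P (y - x) + a1)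
        = a1 * vv P x + a2 * vv P y + a3 := by
      have b1 := vv_neg_mul P x
      have b2 : vv P x * vv P (y - x) = vv P y := by rw [← vv_add]; congr 1; ring
      linear_combination a3 * b1 + a2 * b2
    rw [h3] at h2
    have := mul_le_mul_of_nonneg_left h2 (mul_nonneg (hg x) (hh (y - x)))
    linarith
  · intro _ _
    exact mul_nonneg (by norm_num) (mul_nonneg (mul_nonneg (hg _) (hh _)) (kap_nonneg _ _))

lemma triC {P : ℕ} (hP : 0 < P) (N M : ℕ) (g h : ℤ → ℝ) (hg : ∀ x, 0 ≤ g x) (hh : ∀ x, 0 ≤ h x)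
    (he : ∀ x, g (-x) = g x) (he' : ∀ x, h (-x) = h x) :
    Tri P N M (fun x y => g y * h (y - x)) ≤ 576 * BLs P N M g h := by
  refine le_trans (le_of_eq ?_) (triB hP N M g h hg hh he)
  simp only [Tri]
  apply sum_nbij' (fun z => ((z.1.2.1, z.1.1, z.1.2.2), (z.2.2, z.2.1)))
    (fun z => ((z.1.2.1, z.1.1, z.1.2.2), (z.2.2, z.2.1)))
  · intro z hz
    simp only [MMM, Dm, mem_product, mem_filter, mem_XX] at hz ⊢
    refine ⟨by tauto, by omega⟩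
  · intro z hz
    simp only [MMM, Dm, mem_product, mem_filter, mem_XX] at hz ⊢
    refine ⟨by tauto, by omega⟩
  · intro z _; rfl
  · intro z _; rfl
  · intro z _
    simp only
    rw [← he' (z.2.1 - z.2.2), neg_sub, add_comm ((z.1.1 : ℝ) * vv P z.2.1)]

end Pool.Agent.Lib.MP_a93a41_nt.GM
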