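import Pool.Agent.Lib.MP_a93a41_nt.GMK

/-! The second moment term. -/

namespace Pool.Agent.Lib.MP_a93a41_nt.GM

open Finset Real Pool.Agent.Lib.LargeSieve

lemma exp_sub_exp (α β : ℝ) :
    Real.exp ((α + β) / 2) * |α - β| ≤ |Real.exp α - Real.exp β| := by
  have e : Real.exp α - Real.exp β = Real.exp ((α + β) / 2) * (2 * Real.sinh ((α - β) / 2)) := by
    rw [Real.sinh_eq, mul_div_cancel₀ _ (by norm_num : (2 : ℝ) ≠ 0), mul_sub, ← Real.exp_add,
      ← Real.exp_add]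
    congr 2 <;> ring
  rw [e, abs_mul, abs_of_pos (Real.exp_pos _), abs_mul, Real.abs_sinh]
  gcongr
  have := (Real.self_le_sinh_iff (x := |(α - β) / 2|)).2 (abs_nonneg _)
  rw [abs_two]
  have h2 : |(α - β) / 2| = |α - β| / 2 := by rw [abs_div, abs_two]
  linarith

lemma kap_near {P N M : ℕ} (hN : 0 < N) (hK : N * M ≤ P) {p q : ℕ} (hp : p ∈ Icc 1 M)
    (hq : q ∈ Icc 1 M) {x : ℤ} (hx : x ∈ XX P) :
    kap N (q * vv P x - p) ≤ 8 * (P / N) * (wt p * wt q)
      * (1 / max (1 : ℝ) |((x - round (P * (Lg p - Lg q)) : ℤ) : ℝ)|) := by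
  rw [mem_Icc] at hp hq
  have hM : 0 < M := by omega
  have hP : 0 < P := lt_of_lt_of_le (Nat.mul_pos hN hM) hK
  have hN' : (0 : ℝ) < N := by exact_mod_cast hN
  have hP' : (0 : ℝ) < P := by exact_mod_cast hP
  have hM' : (0 : ℝ) < M := by exact_mod_cast hM
  have hp' : (0 : ℝ) < p := by exact_mod_cast hp.1
  have hq' : (0 : ℝ) < q := by exact_mod_cast hq.1
  set j := round (P * (Lg p - Lg q)) with hj
  have hw := wt_mul_ge (K := M) hp.1 hq.1 (by exact_mod_cast hp.2) (by exact_mod_cast hq.2)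
  have hw0 : 0 < wt p * wt q := lt_of_lt_of_le (by positivity) hw
  by_cases h0 : x - j = 0
  · rw [h0]
    simp only [Int.cast_zero, abs_zero, zero_le_one, max_eq_left, div_one, mul_one]
    refine (kap_le_one _ _).trans ?_
    have h1 : (M : ℝ) ≤ P / N := by
      rw [le_div_iff₀ hN', mul_comm]; exact_mod_cast hK
    calc (1 : ℝ) ≤ 8 * M * (1 / M) := by field_simp; norm_num
      _ ≤ _ := by gcongr
  have a1 : (1 : ℝ) ≤ |((x - j : ℤ) : ℝ)| := by exact_mod_cast Int.one_le_abs h0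
  rw [max_eq_right a1]
  set i : ℝ := ((x - j : ℤ) : ℝ) with hi
  set α := Real.log q + 2 * π * ((x : ℝ) / P) with hα
  set β := Real.log p with hβ
  have e1 : Real.exp α = q * vv P x := by rw [hα, Real.exp_add, Real.exp_log hq', vv]
  have e2 : Real.exp β = p := Real.exp_log hp'
  have h1 := exp_sub_exp α β
  rw [e1, e2] at h1
  set r := Real.exp ((α + β) / 2) with hr
  have hr0 : 0 < r := Real.exp_pos _
  have h2 : r ^ 2 = q * vv P x * p := by
    rw [hr, ← Real.exp_nat_mul, ← e1, ← e2, ← Real.exp_add]; congr 1; push_cast; ring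
  have h3 : 1 / 576 ≤ vv P x := vv_ge_of (vv_lt hP (by rw [mem_XX] at hx; omega)).le
  have h4 : 1 / 24 ≤ r * (wt p * wt q) := by
    refine (le_abs_self _).trans (abs_le_of_sq_le_sq ?_ (by positivity))
    have : (wt p * wt q) ^ 2 = 1 / (p * q) := by
      rw [← wt_mul, wt, div_pow, Real.sq_sqrt (by positivity)]; push_cast; ring
    rw [mul_pow, h2, this]
    have : (q : ℝ) * vv P x * p * (1 / (p * q)) = vv P x := by field_simp
    rw [this]; linarith
  have h5 : 3 * |i| / P ≤ |α - β| := by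
    have b1 : α - β = 2 * π / P * (i - (P * (Lg p - Lg q) - j)) := by
      simp only [hα, hβ, hi, Lg]; push_cast; field_simp; ring
    have b2 : |P * (Lg p - Lg q) - j| ≤ 1 / 2 := abs_sub_round _
    have b3 := abs_sub_abs_le_abs_sub i (P * (Lg p - Lg q) - j)
    rw [b1, abs_mul, abs_of_pos (by positivity : 0 < 2 * π / P)]
    have b4 := Real.pi_gt_three
    calc 3 * |i| / P = 2 * 3 / P * (|i| / 2) := by ring
      _ ≤ _ := by gcongr; linarith
  refine (kap_le_of (D := N * (r * (3 * |i| / P))) (by positivity) ?_).trans ?_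
  · gcongr
    exact le_trans (by gcongr) h1
  · rw [div_le_iff₀ (by positivity)]
    calc (1 : ℝ) = 24 * (1 / 24) := by norm_num
      _ ≤ 24 * (r * (wt p * wt q)) := by gcongr
      _ = _ := by field_simp; ring

lemma sq_sum_le_Qf (U : Finset ℤ) (c : ℤ → ℝ) (hc : ∀ u ∈ U, 0 ≤ c u) {M : ℕ} (hM : 0 < M) :
    (∑ u ∈ U, c u) ^ 2 ≤ Qf U c M := by
  have h1 : (1 : ℕ) ∈ Icc 1 M := mem_Icc.2 ⟨le_rfl, hM⟩
  have hn : ∀ p q : ℕ, 0 ≤ wt p * wt q * fr U c (Lg p - Lg q) ^ 2 := fun p q =>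
    mul_nonneg (mul_nonneg (wt_nonneg p) (wt_nonneg q)) (sq_nonneg _)
  refine le_trans ?_ (single_le_sum (f := fun p => ∑ q ∈ Icc 1 M,
    wt p * wt q * fr U c (Lg p - Lg q) ^ 2) (fun p _ => sum_nonneg fun q _ => hn p q) h1)
  refine le_trans (le_of_eq ?_) (single_le_sum (f := fun q =>
    wt 1 * wt q * fr U c (Lg 1 - Lg q) ^ 2) (fun q _ => hn 1 q) h1)
  simp [wt, fr_zero U c hc]

lemma wt_le_one {p : ℕ} (hp : 1 ≤ p) : wt p ≤ 1 := by
  have : (1 : ℝ) ≤ p := by exact_mod_cast hp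
  rw [wt, div_le_one (Real.sqrt_pos.2 (by linarith))]
  exact Real.one_le_sqrt.2 this

lemma S2k {Λ B : ℝ} (hL : Loss Λ B) {P N M T : ℕ} (hN : 0 < N) (hM : 0 < M) (hK : N * M ≤ P)
    (hT : 4 * T * M ≤ P) (hB : ((P * (M + 2) : ℕ) : ℝ) ≤ B) (A : ℤ) (U : Finset ℤ)
    (hU : U ⊆ Icc A (A + T)) (c : ℤ → ℝ) (hc : ∀ u ∈ U, 0 ≤ c u) :
    ∑ x ∈ XX P, fr U c ((x : ℝ) / P) ^ 2
        * ∑ z ∈ Icc 1 M ×ˢ Icc 1 M, kap N (z.2 * vv P x - z.1)
      ≤ Λ ^ 2 * (P / N) * Qf U c M := by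
  have hP : 0 < P := lt_of_lt_of_le (Nat.mul_pos hN hM) hK
  have hN' : (0 : ℝ) < N := by exact_mod_cast hN
  have hP' : (0 : ℝ) < P := by exact_mod_cast hP
  have hM' : (1 : ℝ) ≤ M := by exact_mod_cast hM
  have hΛ := hL.big
  set I := P * (M + 2) with hI
  set a := ∑ u ∈ U, c u with ha
  have ha0 : 0 ≤ a := sum_nonneg hc
  have hQ := Qf_nonneg U c M
  simp only [mul_sum]
  rw [sum_comm]
  have h1 : ∀ z ∈ Icc 1 M ×ˢ Icc 1 M,
      ∑ x ∈ XX P, fr U c ((x : ℝ) / P) ^ 2 * kap N (z.2 * vv P x - z.1)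
      ≤ ∑ i ∈ Icc (-(I : ℤ)) I, 16 * (P / N) * (1 / max (1 : ℝ) |(i : ℝ)|)
        * (wt z.1 * wt z.2 * fr U c (Lg z.1 - Lg z.2 + (i : ℝ) / P) ^ 2 + (a / M) ^ 2) := by
    intro z hz
    obtain ⟨hp, hq⟩ := mem_product.1 hz
    set j := round (P * (Lg z.1 - Lg z.2)) with hj
    have b2 : |P * (Lg z.1 - Lg z.2) - j| ≤ 1 / 2 := abs_sub_round _
    have hw0 := mul_nonneg (wt_nonneg z.1) (wt_nonneg z.2)
    refine sum_le_of_inj _ _ (fun x => x - j) _ _ (by intro a _ b _ h; simpa using h) ?_ ?_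
      (fun i _ => by positivity)
    · intro x hx
      have c1 : ∀ n ∈ Icc 1 M, 0 ≤ Lg n ∧ Lg n ≤ M := by
        intro n hn
        rw [mem_Icc] at hn
        have d1 : (1 : ℝ) ≤ n := by exact_mod_cast hn.1
        have d2 : (n : ℝ) ≤ M := by exact_mod_cast hn.2
        have d3 := Real.log_nonneg d1
        have d4 := Real.log_le_sub_one_of_pos (by linarith : (0 : ℝ) < n)
        have d5 := Real.pi_gt_three
        refine ⟨by unfold Lg; positivity, ?_⟩
        rw [Lg, div_le_iff₀ (by positivity)]; nlinarith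
      have c2 := c1 _ hp
      have c3 := c1 _ hq
      have c4 : |(j : ℝ)| ≤ P * M + 1 := by
        rw [abs_le] at b2 ⊢
        constructor <;> nlinarith
      have c5 : |j| ≤ P * M + 1 := by exact_mod_cast c4
      rw [mem_XX] at hx
      rw [abs_le] at c5
      rw [mem_Icc, hI]; push_cast
      constructor <;> nlinarith
    · intro x hx
      have c1 := kap_near hN hK hp hq hx
      rw [← hj] at c1
      have c2 := fr_lip A T U hU c hc (Lg z.1 - Lg z.2 + ((x - j : ℤ) : ℝ) / P)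
        ((j - P * (Lg z.1 - Lg z.2)) / P)
      rw [show Lg z.1 - Lg z.2 + ((x - j : ℤ) : ℝ) / P + (j - P * (Lg z.1 - Lg z.2)) / P
        = (x : ℝ) / P by push_cast; field_simp; ring, ← ha] at c2
      have c3 : 7 * T * |(j - P * (Lg z.1 - Lg z.2)) / P| * a ≤ a / M := by
        rw [abs_div, abs_of_pos hP', abs_sub_comm]
        have d1 : (4 : ℝ) * T * M ≤ P := by exact_mod_cast hT
        calc _ ≤ 7 * T * (1 / 2 / P) * a := by gcongr
          _ ≤ 1 / M * a := by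
              gcongr
              rw [← mul_div_assoc, div_le_div_iff₀ hP' (by linarith)]
              nlinarith [(by positivity : (0 : ℝ) ≤ T * M)]
          _ = _ := by ring
      set f := fr U c (Lg z.1 - Lg z.2 + ((x - j : ℤ) : ℝ) / P)
      have c4 : fr U c ((x : ℝ) / P) ^ 2 ≤ 2 * (f ^ 2 + (a / M) ^ 2) := by
        have := pow_le_pow_left₀ (fr_nonneg _ _ _) (c2.trans (add_le_add le_rfl c3)) 2
        nlinarith [sq_nonneg (f - a / M)]
      have c5 : wt z.1 * wt z.2 ≤ 1 :=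
        mul_le_one₀ (wt_le_one (mem_Icc.1 hp).1) (wt_nonneg _) (wt_le_one (mem_Icc.1 hq).1)
      calc _ ≤ 2 * (f ^ 2 + (a / M) ^ 2) * (8 * (P / N) * (wt z.1 * wt z.2)
            * (1 / max (1 : ℝ) |((x - j : ℤ) : ℝ)|)) :=
            mul_le_mul c4 c1 (kap_nonneg _ _) (by positivity)
        _ = 16 * (P / N) * (1 / max (1 : ℝ) |((x - j : ℤ) : ℝ)|)
            * (wt z.1 * wt z.2 * f ^ 2 + wt z.1 * wt z.2 * (a / M) ^ 2) := by ring
        _ ≤ _ := by
            gcongr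
            exact mul_le_of_le_one_left (by positivity) c5
  refine (sum_le_sum h1).trans ?_
  rw [sum_comm]
  have h2 : ∀ i ∈ Icc (-(I : ℤ)) I, ∑ z ∈ Icc 1 M ×ˢ Icc 1 M,
      16 * (P / N) * (1 / max (1 : ℝ) |(i : ℝ)|)
        * (wt z.1 * wt z.2 * fr U c (Lg z.1 - Lg z.2 + (i : ℝ) / P) ^ 2 + (a / M) ^ 2)
      ≤ 32 * (P / N) * Qf U c M * (1 / max (1 : ℝ) |(i : ℝ)|) := by
    intro i _
    rw [← mul_sum, sum_add_distrib, sum_const, sum_product, card_product, Nat.card_Icc,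
      add_tsub_cancel_right, nsmul_eq_mul]
    have c1 := form_shift U c hc (Icc 1 M) wt ((i : ℝ) / P)
    have c2 := sq_sum_le_Qf U c hc hM
    have c3 : ((M * M : ℕ) : ℝ) * (a / M) ^ 2 = a ^ 2 := by push_cast; field_simp
    rw [c3]
    calc _ ≤ 16 * (P / N) * (1 / max (1 : ℝ) |(i : ℝ)|) * (Qf U c M + Qf U c M) := by
          gcongr
          exact c1
      _ = _ := by ring
  refine (sum_le_sum h2).trans ?_
  rw [← mul_sum]
  have h3 := (harm_int I).trans (mul_le_mul_of_nonneg_left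
    (hL.log_le (by rw [hI]; positivity) hB) (by norm_num))
  calc _ ≤ 32 * (P / N) * Qf U c M * (3 * Λ) := by gcongr
    _ = 96 * Λ * (P / N) * Qf U c M := by ring
    _ ≤ Λ * Λ * (P / N) * Qf U c M := by gcongr; linarith
    _ = _ := by ring

/-- Fejer coefficients. -/
noncomputable def cm (M : ℕ) (m : ℤ) : ℝ :=
  #((range M ×ˢ range M).filter fun x => (x.1 : ℤ) - x.2 = m) / M

lemma cm_nonneg (M : ℕ) (m : ℤ) : 0 ≤ cm M m := by unfold cm; positivity

lemma cm_le_one (M : ℕ) (m : ℤ) : cm M m ≤ 1 := by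
  unfold cm
  apply div_le_one_of_le₀ _ (by positivity)
  have : #((range M ×ˢ range M).filter fun x => (x.1 : ℤ) - x.2 = m) ≤ #(range M) := by
    apply card_le_card_of_injOn (fun x => x.1)
    · intro x hx
      exact (mem_product.1 (mem_filter.1 (mem_coe.1 hx)).1).1
    · intro x hx y hy h
      have h1 := (mem_filter.1 (mem_coe.1 hx)).2
      have h2 := (mem_filter.1 (mem_coe.1 hy)).2
      simp only at h
      exact Prod.ext h (by omega)
  rw [card_range] at this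
  exact_mod_cast this

lemma cm_zero {M : ℕ} (hM : 0 < M) : cm M 0 = 1 := by
  unfold cm
  have : #((range M ×ˢ range M).filter fun x => (x.1 : ℤ) - x.2 = 0) = #(range M) := by
    apply card_bij (fun x _ => x.1)
    · intro x hx
      exact (mem_product.1 (mem_filter.1 hx).1).1
    · intro x hx y hy h
      have h1 := (mem_filter.1 hx).2
      have h2 := (mem_filter.1 hy).2
      exact Prod.ext h (by omega)
    · intro l hl
      exact ⟨(l, l), mem_filter.2 ⟨mem_product.2 ⟨hl, hl⟩, by simp⟩, rfl⟩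
  rw [this, card_range, div_self (by positivity)]

noncomputable def ph (P N M : ℕ) (j : ℤ) : ℂ :=
  ∑ m ∈ Ms M, (cm M m : ℂ) * ee (m * (N * vv P j))

lemma Phi_eq {M : ℕ} (hM : 0 < M) (y : ℝ) :
    (Phi M y : ℂ) = 1 + ∑ m ∈ Ms M, (cm M m : ℂ) * ee (m * y) := by
  have hmap : ∀ x ∈ range M ×ˢ range M, (x.1 : ℤ) - x.2 ∈ Icc (-(M : ℤ)) M := by
    intro x hx
    simp only [mem_product, mem_range] at hx
    rw [mem_Icc]; omega
  have e : (Phi M y : ℂ) = ∑ m ∈ Icc (-(M : ℤ)) M, (cm M m : ℂ) * ee (m * y) := by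
    rw [Phi, Complex.ofReal_div, normsq_range, ← sum_product', ← sum_fiberwise_of_maps_to hmap,
      sum_div]
    refine sum_congr rfl fun m _ => ?_
    rw [sum_congr rfl (g := fun _ => ee (m * y)) fun x hx => by rw [(mem_filter.1 hx).2],
      sum_const, nsmul_eq_mul, cm]
    push_cast; ring
  rw [e, ← add_sum_erase _ _ (by simp : (0 : ℤ) ∈ Icc (-(M : ℤ)) M), cm_zero hM]
  simp [ee_zero, Ms]

lemma ZZ_eq {P N M : ℕ} (hP : 0 < P) (hM : 0 < M) {t : ℤ} (ht : |t| < P) :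
    ZZ P N M t = (N / P : ℂ) * ∑ j ∈ JJ P, ph P N M j * ee (t * ((j : ℝ) / P)) := by
  have h := orth P hP (-((P / 2 : ℕ) : ℤ)) t
  have hP' : (P : ℂ) ≠ 0 := by exact_mod_cast hP.ne'
  have e : GG P N M t = (N / P : ℂ) * ∑ j ∈ JJ P, ee (t * ((j : ℝ) / P))
      + (N / P : ℂ) * ∑ j ∈ JJ P, ph P N M j * ee (t * ((j : ℝ) / P)) := by
    rw [GG, mul_sum, mul_sum, ← sum_add_distrib]
    refine sum_congr rfl fun j _ => ?_
    rw [mu, Complex.ofReal_mul, Phi_eq hM, ph]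
    push_cast; ring
  rw [ZZ, e, JJ, h]
  by_cases h0 : t = 0
  · rw [if_pos h0, if_pos (by simp [h0])]; field_simp; ring
  · rw [if_neg h0, if_neg (fun h => h0 (Int.eq_zero_of_abs_lt_dvd h ht))]; ring

lemma conj_ZZ (P N M : ℕ) (t : ℤ) : (starRingEnd ℂ) (ZZ P N M t) = ZZ P N M (-t) := by
  simp only [ZZ, GG, map_sub, map_sum, map_mul, Complex.conj_ofReal, conj_ee, neg_eq_zero]
  congr 1
  · refine sum_congr rfl fun j _ => ?_
    congr 2; push_cast; ring
  · split_ifs <;> simp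

lemma trace_id (P N M : ℕ) (W : Finset ℤ) (u : ℤ) :
    ((∑ j ∈ JJ P, mu P N M j * ‖gam P N M W u j‖ ^ 2 : ℝ) : ℂ)
      = ∑ t ∈ W, ∑ t' ∈ W, ZZ P N M (u - t) * ZZ P N M (t - t') * ZZ P N M (t' - u)
        + ((N * ∑ t ∈ W, ‖ZZ P N M (u - t)‖ ^ 2 : ℝ) : ℂ) := by
  have e1 : ∀ j : ℤ, ((‖gam P N M W u j‖ ^ 2 : ℝ) : ℂ) = ∑ t ∈ W, ∑ t' ∈ W,
      ZZ P N M (u - t) * ZZ P N M (t' - u) * ee (((t - t' : ℤ) : ℝ) * ((j : ℝ) / P)) := by
    intro j
    have := normsq_ft W (fun t => ZZ P N M (u - t)) ((j : ℝ) / P)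
    simp only [conj_ZZ, neg_sub] at this
    exact this
  rw [Complex.ofReal_sum]
  simp only [Complex.ofReal_mul, e1, mul_sum]
  rw [sum_comm, Complex.ofReal_sum, ← sum_add_distrib]
  refine sum_congr rfl fun t ht => ?_
  rw [sum_comm]
  have e2 : ∀ t' ∈ W, ∑ j ∈ JJ P, (mu P N M j : ℂ) * (ZZ P N M (u - t) * ZZ P N M (t' - u)
      * ee (((t - t' : ℤ) : ℝ) * ((j : ℝ) / P)))
      = ZZ P N M (u - t) * ZZ P N M (t - t') * ZZ P N M (t' - u)
        + if t = t' then N * (ZZ P N M (u - t) * ZZ P N M (t' - u)) else 0 := by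
    intro t' _
    have : GG P N M (t - t') = ZZ P N M (t - t') + if t = t' then (N : ℂ) else 0 := by
      simp [ZZ, sub_eq_zero]
    calc _ = ZZ P N M (u - t) * ZZ P N M (t' - u) * GG P N M (t - t') := by
          rw [GG, mul_sum]; exact sum_congr rfl fun j _ => by ring
      _ = _ := by rw [this]; split_ifs <;> ring
  rw [sum_congr rfl e2, sum_add_distrib, sum_ite_eq, if_pos ht]
  congr 1
  push_cast
  rw [← Complex.mul_conj', conj_ZZ, neg_sub]

end Pool.Agent.Lib.MP_a93a41_nt.GM
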