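import Pool.Agent.Lib.MP_a93a41_nt.GMK

/-! The majorant bound for the cubic norm and the structure of a block. -/

namespace Pool.Agent.Lib.MP_a93a41_nt.GM

open Finset Real Pool.Agent.Lib.LargeSieve

namespace Bl

lemma two {ι : Type*} {P : ℕ} (hP : 0 < P) (I : Finset ι) (c : ι → ℂ) (φ : ι → ℤ) (b : ℤ) :
    ((∑ t ∈ Ico b (b + P), ‖∑ i ∈ I, c i * ee (φ i * ((t : ℝ) / P))‖ ^ 2 : ℝ) : ℂ) =
      ∑ i ∈ I, ∑ k ∈ I, c i * (starRingEnd ℂ) (c k) * if (P : ℤ) ∣ φ i - φ k then (P : ℂ) else 0 := by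
  push_cast
  simp only [← Complex.mul_conj', map_sum, map_mul, conj_ee, sum_mul_sum]
  simp only [← orth P hP b, mul_sum]
  rw [sum_comm]
  refine sum_congr rfl fun i _ => sum_comm.trans (sum_congr rfl fun k _ => sum_congr rfl fun t _ => ?_)
  rw [Int.cast_sub, sub_mul, sub_eq_add_neg, ee_add]
  ring

lemma maj {ι : Type*} {P : ℕ} (hP : 0 < P) (I : Finset ι) {c : ι → ℂ} {d : ι → ℝ}
    (h : ∀ i, ‖c i‖ ≤ d i) (φ : ι → ℤ) (b b' : ℤ) :
    ∑ t ∈ Ico b (b + P), ‖∑ i ∈ I, c i * ee (φ i * ((t : ℝ) / P))‖ ^ 2 ≤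
      ∑ t ∈ Ico b' (b' + P), ‖∑ i ∈ I, d i * ee (φ i * ((t : ℝ) / P))‖ ^ 2 := by
  have h1 := congrArg Complex.re (two hP I c φ b)
  have h2 := congrArg Complex.re (two hP I (fun i => d i) φ b')
  rw [Complex.ofReal_re] at h1 h2
  rw [h1, h2]
  simp only [Complex.re_sum]
  refine sum_le_sum fun i _ => sum_le_sum fun k _ => (Complex.re_le_norm _).trans ?_
  split_ifs
  · rw [norm_mul, norm_mul, RCLike.norm_conj, Complex.conj_ofReal, ← Complex.ofReal_mul,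
      ← Complex.ofReal_natCast, ← Complex.ofReal_mul, Complex.ofReal_re, Complex.norm_real,
      Real.norm_natCast]
    gcongr
    · exact (norm_nonneg _).trans (h i)
    · exact h i
    · exact h k
  · simp

lemma four (P : ℕ) (I : Finset ℤ) (c : ℤ → ℂ) (t : ℤ) :
    ‖∑ j ∈ I, c j * ee (t * ((j : ℝ) / P))‖ ^ 4 = ‖∑ p ∈ I ×ˢ I, c p.1 * c p.2 *
      ee ((p.1 + p.2 : ℤ) * ((t : ℝ) / P))‖ ^ 2 := by
  rw [show 4 = 2 * 2 from rfl, pow_mul, ← norm_pow, sq (∑ _ ∈ _, _), sum_mul_sum, sum_product]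
  congr 2
  refine sum_congr rfl fun i _ => sum_congr rfl fun k _ => ?_
  rw [mul_mul_mul_comm, ← ee_add]
  congr 2
  push_cast
  ring

lemma period {P T : ℕ} (hP : 2 * T < P) {W : Finset ℤ} {A : ℤ} (hW : W ⊆ Icc A (A + T)) (a : ℤ) :
    (∑ x ∈ Ico a (a + P), fr W (fun _ => 1) ((x : ℝ) / P) ^ 3) ^ 4 ≤
      P ^ 4 * (#W : ℝ) ^ 3 * E4 W T := by
  have P0 : 0 < P := by omega
  set ρ : ℤ → ℝ := fun x => fr W (fun _ => 1) ((x : ℝ) / P) with hρ
  set R : ℤ → ℂ := fun x => ∑ t ∈ W, ee (t * ((x : ℝ) / P))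
  have e : ∀ x, ‖R x‖ = ρ x := fun x => by simp [hρ, fr, ft, R]
  set c : ℤ → ℂ := fun x => (starRingEnd ℂ) (R x) * ρ x
  have hc : ∀ x, ‖c x‖ = ρ x ^ 2 := fun x => by
    rw [norm_mul, RCLike.norm_conj, e, Complex.norm_real, Real.norm_of_nonneg (fr_nonneg _ _ _), sq]
  have h1 : ∑ x ∈ Ico a (a + P), ρ x ^ 3 ≤
      ∑ t ∈ W, ‖∑ j ∈ Ico a (a + P), c j * ee (t * ((j : ℝ) / P))‖ := by
    refine le_trans ?_ (norm_sum_le _ _)
    rw [sum_comm]
    refine le_trans (le_of_eq ?_) (Complex.re_le_norm _)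
    rw [Complex.re_sum]
    refine sum_congr rfl fun x _ => ?_
    rw [← mul_sum, mul_right_comm, Complex.conj_mul', e, ← Complex.ofReal_pow, ← Complex.ofReal_mul,
      Complex.ofReal_re, pow_succ]
  have h2 : ∀ t ∈ Ico (-(T : ℤ)) (-T + P), ∑ j ∈ Ico a (a + P), ((ρ j ^ 2 : ℝ) : ℂ) *
      ee (t * ((j : ℝ) / P)) = (P * rr W t : ℝ) := fun t ht => by
    simp only [hρ, ← rr_ft W _ (diff_mem hW), ft, sum_mul, mul_assoc, ← ee_add, ← add_mul,
      ← Int.cast_add]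
    rw [sum_comm]
    simp only [← mul_sum, orth P P0]
    rw [mem_Ico] at ht
    rw [sum_eq_single (-t) (fun s hs hne => ?_) fun h => by
      rw [rr_eq_zero W _ (diff_mem hW) _ h, Complex.ofReal_zero, zero_mul]]
    · simp [rr_neg, mul_comm]
    · rw [mem_Icc] at hs
      rw [if_neg fun h => by
        have := Int.eq_zero_of_abs_lt_dvd h (by rw [abs_lt]; omega)
        omega, mul_zero]
  calc _ ≤ (∑ t ∈ W, ‖∑ j ∈ Ico a (a + P), c j * ee (t * ((j : ℝ) / P))‖) ^ 4 :=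
        pow_le_pow_left₀ (sum_nonneg fun _ _ => pow_nonneg (fr_nonneg _ _ _) _) h1 _
    _ ≤ (#W : ℝ) ^ 3 * ∑ t ∈ W, ‖∑ j ∈ Ico a (a + P), c j * ee (t * ((j : ℝ) / P))‖ ^ 4 :=
        pow_sum_le_card_mul_sum_pow (fun _ _ => norm_nonneg _) 3
    _ ≤ (#W : ℝ) ^ 3 * ∑ t ∈ Ico (-(T : ℤ)) (-T + P),
        ‖∑ j ∈ Ico a (a + P), ((ρ j ^ 2 : ℝ) : ℂ) * ee (t * ((j : ℝ) / P))‖ ^ 4 := by
        refine mul_le_mul_of_nonneg_left ((sum_le_sum_of_subset_of_nonneg (t := Ico A (A + P))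
          (fun t ht => by have := mem_Icc.1 (hW ht); rw [mem_Ico]; omega)
          fun _ _ _ => by positivity).trans ?_) (by positivity)
        simp only [four, ← Complex.ofReal_mul]
        exact maj P0 _ (fun p => by rw [norm_mul, hc, hc]) _ _ _
    _ = _ := by
        rw [sum_congr rfl fun t ht => by rw [h2 t ht, Complex.norm_real,
          Real.norm_of_nonneg (mul_nonneg P.cast_nonneg (rr_nonneg _ _)), mul_pow], ← mul_sum,
          E4, ← sum_subset (s₁ := Icc (-(T : ℤ)) T) (fun t ht => by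
            rw [mem_Icc] at ht; rw [mem_Ico]; omega) fun t _ ht => by
            rw [rr_eq_zero W _ (diff_mem hW) _ ht]; simp]
        ring

lemma rr_mono {W W' : Finset ℤ} (h : W ⊆ W') (s : ℤ) : rr W s ≤ rr W' s :=
  (sum_le_sum fun t _ => by
    by_cases e : t - s ∈ W
    · rw [if_pos e, if_pos (h e)]
    · rw [if_neg e]; split_ifs <;> norm_num).trans
    (sum_le_sum_of_subset_of_nonneg h fun _ _ _ => by split_ifs <;> norm_num)

lemma one_le_rr {W : Finset ℤ} {t t' : ℤ} (h : t ∈ W) (h' : t' ∈ W) : 1 ≤ rr W (t - t') :=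
  le_trans (by rw [if_pos (by simpa using h')]) (single_le_sum
    (f := fun u => if u - (t - t') ∈ W then (1 : ℝ) else 0)
    (fun _ _ => by split_ifs <;> norm_num) h)

lemma E4_eq {W : Finset ℤ} {A : ℤ} {T : ℕ} (hW : W ⊆ Icc A (A + T)) :
    E4 W T = ∑ t ∈ W, ∑ t' ∈ W, rr W (t - t') ^ 3 := by
  rw [← rr_sum W _ (diff_mem hW) fun s => rr W s ^ 3, E4]
  exact sum_congr rfl fun _ _ => pow_succ' _ _

lemma one_le_E4 {W : Finset ℤ} {A : ℤ} {T : ℕ} (hW : W ⊆ Icc A (A + T)) (h : W.Nonempty) :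
    1 ≤ E4 W T := by
  obtain ⟨t, ht⟩ := h
  exact (one_le_pow₀ (one_le_rr ht ht)).trans (single_le_sum (f := fun s => rr W s ^ 4)
    (fun _ _ => by positivity) (diff_mem hW t ht t ht))

lemma E4_le {W : Finset ℤ} {A : ℤ} {T : ℕ} (hW : W ⊆ Icc A (A + T)) : E4 W T ≤ (#W : ℝ) ^ 5 := by
  rw [E4_eq hW]
  refine (sum_le_card_nsmul _ _ _ fun t _ => sum_le_card_nsmul _ _ ((#W : ℝ) ^ 3) fun t' _ =>
    pow_le_pow_left₀ (rr_nonneg _ _) (rr_le _ _) 3).trans_eq ?_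
  rw [nsmul_eq_mul, nsmul_eq_mul]
  ring

lemma select {B : Finset ℤ} {A : ℤ} {Δ : ℕ} (hB : B ⊆ Icc A (A + Δ)) (h0 : B.Nonempty) :
    ∃ W ⊆ B, #B ≤ 2 * #W ∧ (#W : ℝ) ≤ 10 * (Nat.log 2 #B + 1 : ℕ) *
      #{t ∈ W | E4 W Δ ≤ 2 * #W * ∑ t' ∈ W, rr W (t - t') ^ 3} := by
  set K := 5 * (Nat.log 2 #B + 1) with hK
  obtain ⟨W, hW, hm⟩ := exists_min_image {W ∈ B.powerset | W.Nonempty}
    (fun W => E4 W Δ / (#W : ℝ) ^ K) ⟨B, by simpa using h0⟩
  simp only [mem_filter, mem_powerset, and_imp] at hW hm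
  have w0 : (0 : ℝ) < #W := by exact_mod_cast hW.2.card_pos
  have b0 : (0 : ℝ) < #B := by exact_mod_cast h0.card_pos
  have e1 := one_le_E4 (hW.1.trans hB) hW.2
  refine ⟨W, hW.1, not_lt.1 fun h => ?_, ?_⟩
  · have h1 := hm B subset_rfl h0
    rw [div_le_div_iff₀ (by positivity) (by positivity)] at h1
    have h2 : (2 * #W : ℝ) ^ K ≤ #B ^ K := pow_le_pow_left₀ (by positivity) (by exact_mod_cast h.le) _
    have h3 : (#B : ℝ) ^ 5 < 2 ^ K := by
      rw [hK, mul_comm, pow_mul]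
      exact pow_lt_pow_left₀ (by exact_mod_cast Nat.lt_pow_succ_log_self one_lt_two _) b0.le
        (by norm_num)
    have h4 := mul_lt_mul_of_pos_right ((E4_le hB).trans_lt h3) (pow_pos w0 K)
    rw [mul_pow] at h2
    nlinarith [pow_pos b0 K]
  set G := {t ∈ W | E4 W Δ ≤ 2 * #W * ∑ t' ∈ W, rr W (t - t') ^ 3}
  have g1 : G ⊆ W := filter_subset _ _
  have h1 : 2 * (#(W \ G) : ℝ) ^ K ≤ #W ^ K := by
    rcases (W \ G).eq_empty_or_nonempty with e | e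
    · simp [e, hK]
    have v0 : (0 : ℝ) < #(W \ G) := by exact_mod_cast e.card_pos
    have h1 := hm _ (sdiff_subset.trans hW.1) e
    rw [div_le_div_iff₀ (by positivity) (by positivity)] at h1
    have h2 : 2 * #W * E4 (W \ G) Δ ≤ #W * E4 W Δ := by
      rw [E4_eq (sdiff_subset.trans (hW.1.trans hB)), mul_sum]
      refine (sum_le_card_nsmul _ _ (E4 W Δ) fun t ht => le_trans ?_
        (not_le.1 fun c => (mem_sdiff.1 ht).2 (mem_filter.2 ⟨(mem_sdiff.1 ht).1, c⟩)).le).trans ?_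
      · exact mul_le_mul_of_nonneg_left ((sum_le_sum fun u _ => pow_le_pow_left₀ (rr_nonneg _ _)
          (rr_mono sdiff_subset _) 3).trans (sum_le_sum_of_subset_of_nonneg sdiff_subset
          fun _ _ _ => pow_nonneg (rr_nonneg _ _) _)) (by positivity)
      · rw [nsmul_eq_mul]
        gcongr
        exact sdiff_subset
    have h3 : 2 * E4 (W \ G) Δ ≤ E4 W Δ := le_of_mul_le_mul_left (by linarith) w0
    refine le_of_mul_le_mul_left ?_ (one_pos.trans_le e1)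
    nlinarith [pow_pos w0 K]
  have g2 : (#G : ℝ) ≤ #W := by exact_mod_cast card_le_card g1
  have h2 := one_add_mul_le_pow (a := -(#G / #W : ℝ))
    (by linarith [(div_le_one w0).2 g2]) K
  rw [card_sdiff_of_subset g1, Nat.cast_sub (card_le_card g1)] at h1
  rw [show 1 + -(#G / #W : ℝ) = (#W - #G) / #W by field_simp; ring, div_pow] at h2
  have h3 : ((#W : ℝ) - #G) ^ K / #W ^ K ≤ 1 / 2 := by
    rw [div_le_iff₀ (by positivity)]
    linarith
  have h4 : 1 / 2 ≤ (K : ℝ) * #G / #W := by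
    rw [mul_div_assoc]
    linarith
  rw [le_div_iff₀ w0, hK, Nat.cast_mul, Nat.cast_ofNat] at h4
  linarith

/-- The level sets of the difference function. -/
noncomputable def lev (W : Finset ℤ) (Δ l : ℕ) : Finset ℤ :=
  {s ∈ Icc (-(Δ : ℤ)) Δ | 2 ^ l ≤ rr W s ∧ rr W s < 2 ^ (l + 1)}

/-- Their indicator functions. -/
noncomputable def ind (W : Finset ℤ) (Δ l : ℕ) (s : ℤ) : ℝ := if s ∈ lev W Δ l then 1 else 0

lemma ind_nonneg (W : Finset ℤ) (Δ l : ℕ) (s : ℤ) : 0 ≤ ind W Δ l s := by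
  unfold ind
  split_ifs <;> norm_num

lemma ind_le_one (W : Finset ℤ) (Δ l : ℕ) (s : ℤ) : ind W Δ l s ≤ 1 := by
  unfold ind
  split_ifs <;> norm_num

lemma ind_le (W : Finset ℤ) (Δ l : ℕ) (s : ℤ) : 2 ^ l * ind W Δ l s ≤ rr W s := by
  unfold ind
  split_ifs with h
  · rw [mul_one]; exact (mem_filter.1 h).2.1
  · rw [mul_zero]; exact rr_nonneg _ _

lemma ind_zero (W : Finset ℤ) (Δ l : ℕ) : ∀ s ∉ Icc (-(Δ : ℤ)) Δ, ind W Δ l s = 0 :=
  fun _ h => if_neg fun c => h (mem_filter.1 c).1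

lemma ind_sum (W : Finset ℤ) (Δ l : ℕ) (X : ℤ → ℝ) :
    ∑ s ∈ Icc (-(Δ : ℤ)) Δ, ind W Δ l s * X s = ∑ s ∈ lev W Δ l, X s := by
  simp only [ind, ite_mul, one_mul, zero_mul]
  rw [sum_ite_mem, inter_eq_right.2 (show lev W Δ l ⊆ _ from filter_subset _ _)]

lemma lev_card (W : Finset ℤ) (Δ l : ℕ) : #(lev W Δ l) * (2 ^ l) ^ 4 ≤ E4 W Δ := by
  rw [← nsmul_eq_mul]
  exact (card_nsmul_le_sum _ _ _ fun s hs => pow_le_pow_left₀ (by positivity)
    (mem_filter.1 hs).2.1 4).trans (sum_le_sum_of_subset_of_nonneg (filter_subset _ _)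
    fun _ _ _ => by positivity)

lemma level {W : Finset ℤ} {A : ℤ} {Δ m : ℕ} (hW : W ⊆ Icc A (A + Δ)) (hm : #W ≤ m) {t : ℤ}
    (ht : t ∈ W) : ∑ t' ∈ W, rr W (t - t') ^ 3 ≤
      ∑ l ∈ range (Nat.log 2 m + 1), 8 * (2 ^ l) ^ 3 * ∑ t' ∈ W, ind W Δ l (t - t') := by
  simp only [mul_sum]
  rw [sum_comm]
  refine sum_le_sum fun u hu => ?_
  obtain ⟨l, h1, h2⟩ := exists_nat_pow_near (one_le_rr ht hu) one_lt_two
  refine le_trans ?_ (single_le_sum (f := fun l => 8 * (2 ^ l) ^ 3 * ind W Δ l (t - u))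
    (fun l _ => mul_nonneg (by positivity) (ind_nonneg _ _ _ _)) (a := l) (mem_range.2
      (Nat.lt_succ_of_le (Nat.le_log_of_pow_le one_lt_two ?_))))
  · rw [ind, if_pos (show _ ∈ lev W Δ l from mem_filter.2 ⟨diff_mem hW t ht u hu, h1, h2⟩)]
    exact (pow_le_pow_left₀ (rr_nonneg _ _) h2.le 3).trans_eq (by ring)
  · exact_mod_cast h1.trans ((rr_le _ _).trans (Nat.cast_le.2 hm))

lemma sq_sum {W : Finset ℤ} {A : ℤ} {Δ : ℕ} (hW : W ⊆ Icc A (A + Δ)) (l : ℕ) :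
    (∑ u ∈ Icc (A - Δ) (A + 2 * Δ), conv W (fun _ => 1) (ind W Δ l) u ^ 2) * (2 ^ l) ^ 7 ≤
      2 * E4 W Δ ^ 2 := by
  have h0 := lev_card W Δ l
  simp only [sq (conv _ _ _ _)]
  rw [conv_sum W _ _ _ _ (ind_zero W Δ l) (r3_mem hW), sum_comm]
  simp only [one_mul, ← mul_sum, ind_sum]
  set y : ℝ := 2 ^ l
  have y0 : 0 < y := by positivity
  have h1 : ∀ s ∈ lev W Δ l, ∑ t ∈ W, conv W (fun _ => 1) (ind W Δ l) (t + s) ≤
      2 * E4 W Δ / y ^ 3 := fun s _ => by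
    simp only [conv, one_mul, add_sub_right_comm]
    rw [← rr_sum W _ (diff_mem hW) fun d => ind W Δ l (d + s), le_div_iff₀ (by positivity), sum_mul]
    have h2 : ∑ d ∈ Icc (-(Δ : ℤ)) Δ, ind W Δ l (d + s) ≤ #(lev W Δ l) := by
      simp only [ind, sum_boole, Nat.cast_le]
      exact card_le_card_of_injOn (· + s) (fun d hd => (mem_filter.1 hd).2)
        fun _ _ _ _ e => add_right_cancel e
    calc _ ≤ ∑ d ∈ Icc (-(Δ : ℤ)) Δ, (ind W Δ l (d + s) * y ^ 4 + rr W d ^ 4) :=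
          sum_le_sum fun d _ => by
            have a := ind_nonneg W Δ l (d + s)
            have b := ind_le_one W Δ l (d + s)
            have c := rr_nonneg W d
            rcases le_total (rr W d) y with e | e
            · refine le_add_of_le_of_nonneg ?_ (by positivity)
              calc _ ≤ y * ind W Δ l (d + s) * y ^ 3 := by gcongr
                _ = _ := by ring
            · refine le_add_of_nonneg_of_le (by positivity) ?_
              calc _ ≤ rr W d * 1 * rr W d ^ 3 := by gcongr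
                _ = _ := by ring
      _ ≤ E4 W Δ + E4 W Δ := by
          rw [sum_add_distrib, ← sum_mul]
          exact add_le_add ((mul_le_mul_of_nonneg_right h2 (by positivity)).trans h0) le_rfl
      _ = _ := by ring
  have E0 : 0 ≤ E4 W Δ := le_trans (by positivity) h0
  calc _ ≤ #(lev W Δ l) * (2 * E4 W Δ / y ^ 3) * y ^ 7 := by
        gcongr
        exact (sum_le_card_nsmul _ _ _ h1).trans_eq (nsmul_eq_mul _ _)
    _ = #(lev W Δ l) * y ^ 4 * (2 * E4 W Δ) := by field_simp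
    _ ≤ E4 W Δ * (2 * E4 W Δ) := by gcongr
    _ = _ := by ring

end Bl

open Bl

theorem L3_bound {P T : ℕ} (hP : 2 * T < P) {W : Finset ℤ} {A : ℤ} (hW : W ⊆ Icc A (A + T)) :
    (∑ x ∈ XX P, fr W (fun _ => 1) ((x : ℝ) / P) ^ 3) ^ 4
      ≤ (2 * P) ^ 4 * (#W : ℝ) ^ 3 * E4 W T := by
  have h1 := period hP hW (-P)
  have h2 := period hP hW 0
  have n : ∀ x : ℤ, 0 ≤ fr W (fun _ => 1) ((x : ℝ) / P) ^ 3 := fun _ => pow_nonneg (fr_nonneg _ _ _) _
  refine (pow_le_pow_left₀ (sum_nonneg fun _ _ => n _) ((sum_le_sum_of_subset_of_nonneg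
    (t := Ico (-(P : ℤ)) (-P + P) ∪ Ico 0 (0 + P)) (fun x hx => by
      rw [mem_XX] at hx; rw [mem_union, mem_Ico, mem_Ico]; omega) fun _ _ _ => n _).trans_eq
    (sum_union (disjoint_left.2 fun x a b => by rw [mem_Ico] at a b; omega))) 4).trans
    ((add_pow_le (sum_nonneg fun _ _ => n _) (sum_nonneg fun _ _ => n _) 4).trans ?_)
  rw [mul_pow]
  norm_num at h1 h2 ⊢
  linarith

theorem block (B : Finset ℤ) (A : ℤ) (Δ m : ℕ) (hB : B ⊆ Icc A (A + Δ)) (hm : #B = m)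
    (hm2 : 2 ≤ m) (Lm F e e6 : ℝ) (hL : ((Nat.log 2 m + 1 : ℕ) : ℝ) ≤ Lm) (hF : 0 < F)
    (h4 : ∀ W ⊆ B, m ≤ 2 * #W → F ≤ E4 W Δ) (he : ∀ W ⊆ B, En W Δ ≤ e)
    (he6 : ∀ W ⊆ B, ∑ u ∈ Icc (A - Δ) (A + 2 * Δ), r3 W u ^ 2 ≤ e6) :
    ∃ (l : ℕ) (W' : Finset ℤ) (ω : ℤ → ℝ), W' ⊆ B ∧ (∀ u, 0 ≤ ω u) ∧ (∀ u ∈ W', 1 ≤ ω u) ∧
      (∀ u ∉ Icc (A - Δ) (A + 2 * Δ), ω u = 0) ∧ (m : ℝ) ≤ 20 * Lm ^ 2 * #W' ∧ 2 ^ l ≤ m ∧
      F ≤ 16 * Lm * m ^ 2 * (2 ^ l) ^ 3 ∧ F ≤ 640 * Lm ^ 3 * (2 ^ l) ^ 2 * e ∧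
      (∑ u ∈ Icc (A - Δ) (A + 2 * Δ), ω u) * 2 ^ l ≤ 16 * Lm * m ^ 2 ∧
      (∑ u ∈ Icc (A - Δ) (A + 2 * Δ), ω u ^ 2) * 2 ^ l ≤ 512 * Lm ^ 2 * m ^ 2 ∧
      (∑ u ∈ Icc (A - Δ) (A + 2 * Δ), ω u ^ 2) * F ^ 2 ≤ 256 * Lm ^ 2 * m ^ 2 * (2 ^ l) ^ 4 * e6 ∧
      ∀ P : ℕ, 2 * Δ < P →
        (∑ x ∈ XX P, fr (Icc (A - Δ) (A + 2 * Δ)) ω ((x : ℝ) / P)) ^ 2 * F
          ≤ 1024 * Lm ^ 2 * (P : ℝ) ^ 2 * m ^ 3 * (2 ^ l) ^ 2 := by
  subst hm
  obtain ⟨W, hW, w1, w2⟩ := select hB (card_pos.1 (by omega))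
  have hI := hW.trans hB
  have hE := h4 W hW w1
  have E0 := hF.trans_le hE
  have wm : (#W : ℝ) ≤ #B := by exact_mod_cast card_le_card hW
  have w1' : (#B : ℝ) ≤ 2 * #W := by exact_mod_cast w1
  have b0 : (2 : ℝ) ≤ #B := by exact_mod_cast hm2
  have w0 : (0 : ℝ) < #W := by linarith
  have L0 : 0 < Lm := lt_of_lt_of_le (by positivity) hL
  set L := Nat.log 2 #B
  set G : ℕ → Finset ℤ := fun l =>
    {t ∈ W | E4 W Δ ≤ 16 * Lm * #W * (2 ^ l) ^ 3 * ∑ t' ∈ W, ind W Δ l (t - t')}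
  obtain ⟨l, hl, hg⟩ : ∃ l ∈ range (L + 1), (#B : ℝ) ≤ 20 * Lm ^ 2 * #(G l) := by
    by_contra! c
    have c1 := card_le_card (show {t ∈ W | E4 W Δ ≤ 2 * #W * ∑ t' ∈ W, rr W (t - t') ^ 3} ⊆
      (range (L + 1)).biUnion G from fun t ht => by
        obtain ⟨t1, t2⟩ := mem_filter.1 ht
        by_contra d
        have d1 := sum_lt_sum_of_nonempty nonempty_range_add_one fun l hl => not_le.1 fun k =>
          d (mem_biUnion.2 ⟨l, hl, mem_filter.2 ⟨t1, k⟩⟩)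
        have d2 := mul_le_mul_of_nonneg_left (level hI (card_le_card hW) t1)
          (show 0 ≤ 2 * Lm * #W by positivity)
        rw [mul_sum (range _), sum_congr rfl fun l _ => show _ = 16 * Lm * #W * (2 ^ l) ^ 3 *
          ∑ t' ∈ W, ind W Δ l (t - t') by ring] at d2
        rw [sum_const, card_range, nsmul_eq_mul] at d1
        nlinarith [mul_le_mul_of_nonneg_left t2 L0.le, mul_le_mul_of_nonneg_right hL E0.le])
    have c2 := sum_lt_sum_of_nonempty nonempty_range_add_one c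
    have c3 := (Nat.cast_le (α := ℝ)).2 (c1.trans card_biUnion_le)
    rw [sum_const, card_range, nsmul_eq_mul, ← mul_sum, ← Nat.cast_sum] at c2
    have c4 : (#B : ℝ) ≤ 20 * Lm * (∑ l ∈ range (L + 1), #(G l) : ℕ) :=
      w1'.trans ((mul_le_mul_of_nonneg_left (w2.trans (mul_le_mul (mul_le_mul_of_nonneg_left hL
        (by norm_num)) c3 (by positivity) (by positivity))) two_pos.le).trans_eq (by ring))
    nlinarith [mul_le_mul_of_nonneg_left c4 L0.le, mul_le_mul_of_nonneg_right hL (w0.trans_le wm).le]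
  have s4 := lev_card W Δ l
  have s2 := sq_sum hI l
  have il := ind_le W Δ l
  set y : ℝ := 2 ^ l
  have y0 : 0 < y := by positivity
  set E := E4 W Δ
  obtain ⟨c, c0, hc⟩ : ∃ c : ℝ, 0 < c ∧ c * E = 16 * Lm * #W * y ^ 3 :=
    ⟨_, by positivity, div_mul_cancel₀ _ E0.ne'⟩
  have hc' : c * E ≤ 16 * Lm * #B * y ^ 3 := hc.trans_le (by gcongr)
  have hc2 : (c * E) ^ 2 ≤ (16 * Lm * #B * y ^ 3) ^ 2 := by gcongr
  have o : ∀ u, conv W (fun _ => c) (ind W Δ l) u = c * conv W (fun _ => 1) (ind W Δ l) u :=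
    fun u => by simp only [conv, mul_sum, one_mul]
  have n0 : ∀ u, 0 ≤ conv W (fun _ => 1) (ind W Δ l) u := fun u =>
    sum_nonneg fun _ _ => mul_nonneg zero_le_one (ind_nonneg _ _ _ _)
  have o1 : ∀ u ∈ G l, 1 ≤ c * conv W (fun _ => 1) (ind W Δ l) u := fun u hu => by
    have := (mem_filter.1 hu).2
    rw [← hc, mul_right_comm] at this
    simpa only [conv, one_mul] using (le_mul_iff_one_le_left E0).1 this
  refine ⟨l, G l, conv W (fun _ => c) (ind W Δ l), (filter_subset _ _).trans hW,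
    fun u => o u ▸ mul_nonneg c0.le (n0 u), fun u hu => o u ▸ o1 u hu, fun u hu => ?_, hg,
    (Nat.pow_le_pow_right two_pos (Nat.le_of_lt_succ (mem_range.1 hl))).trans
      (Nat.pow_log_le_self 2 (by omega)), ?_, ?_, ?_, ?_, ?_, fun P hP => ?_⟩
  · exact sum_eq_zero fun t ht => mul_eq_zero_of_right _ (ind_zero _ _ _ _ fun k =>
      hu (by simpa using r3_mem hI t ht _ k))
  · obtain ⟨t, ht⟩ := card_pos.1 (Nat.cast_pos.1 (pos_of_mul_pos_right
      ((w0.trans_le wm).trans_le hg) (by positivity)))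
    calc F ≤ _ := hE.trans (mem_filter.1 ht).2
      _ ≤ 16 * Lm * #B * y ^ 3 * #B := by
          refine mul_le_mul (by gcongr) ?_ (sum_nonneg fun _ _ => ind_nonneg _ _ _ _) (by positivity)
          exact ((sum_le_card_nsmul _ _ 1 fun _ _ => ind_le_one _ _ _ _).trans_eq (by simp)).trans wm
      _ = _ := by ring
  · have h1 : (#(G l) : ℝ) * y ≤ c * e := by
      calc _ ≤ (∑ u ∈ W, c * conv W (fun _ => 1) (ind W Δ l) u) * y := by
            gcongr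
            exact ((show _ = _ by simp).trans_le (card_nsmul_le_sum _ _ 1 o1)).trans
              (sum_le_sum_of_subset_of_nonneg (filter_subset _ _)
                fun u _ _ => mul_nonneg c0.le (n0 u))
        _ ≤ c * En W Δ := by
            simp only [← mul_sum, conv, one_mul]
            rw [← rr_sum W _ (diff_mem hI), mul_assoc, sum_mul, En]
            gcongr with s
            rw [mul_assoc, mul_comm _ y, sq]
            exact mul_le_mul_of_nonneg_left (il s) (rr_nonneg _ _)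
        _ ≤ _ := by gcongr; exact he W hW
    have e0 : 0 ≤ e := le_trans (sum_nonneg fun _ _ => sq_nonneg _) (he W hW)
    refine hE.trans (le_of_mul_le_mul_left ?_ (show 0 < #B * y by positivity))
    calc #B * y * E ≤ 20 * Lm ^ 2 * #(G l) * y * E := by gcongr
      _ = 20 * Lm ^ 2 * (#(G l) * y) * E := by ring
      _ ≤ 20 * Lm ^ 2 * (c * e) * E := by gcongr
      _ = 20 * Lm ^ 2 * e * (c * E) := by ring
      _ ≤ 40 * Lm ^ 2 * e * (16 * Lm * #B * y ^ 3) := by gcongr; norm_num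
      _ = _ := by ring
  · have := conv_sum W _ _ (fun _ => c) _ (ind_zero W Δ l) (r3_mem hI) fun _ => 1
    simp only [mul_assoc, ← mul_sum, ind_sum, sum_const, nsmul_eq_mul] at this
    simp only [mul_one] at this
    rw [this]
    refine le_of_mul_le_mul_right ?_ (show 0 < y ^ 3 by positivity)
    calc _ = #W * c * (#(lev W Δ l) * y ^ 4) := by ring
      _ ≤ #B * c * E := by gcongr
      _ ≤ #B * (16 * Lm * #B * y ^ 3) := by rw [mul_assoc]; gcongr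
      _ = _ := by ring
  · simp only [o, mul_pow, ← mul_sum]
    refine le_of_mul_le_mul_right ?_ (show 0 < y ^ 6 by positivity)
    calc _ = c ^ 2 * ((∑ u ∈ Icc (A - Δ) (A + 2 * Δ), conv W (fun _ => 1) (ind W Δ l) u ^ 2) *
          y ^ 7) := by ring
      _ ≤ c ^ 2 * (2 * E ^ 2) := by gcongr
      _ = 2 * (c * E) ^ 2 := by ring
      _ ≤ 2 * (16 * Lm * #B * y ^ 3) ^ 2 := by gcongr
      _ = _ := by ring
  · simp only [o, mul_pow, ← mul_sum]
    have h1 : (∑ u ∈ Icc (A - Δ) (A + 2 * Δ), conv W (fun _ => 1) (ind W Δ l) u ^ 2) * y ^ 2 ≤ e6 := by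
      refine le_trans ?_ (he6 W hW)
      rw [sum_mul]
      refine sum_le_sum fun u _ => ?_
      rw [← mul_pow]
      refine pow_le_pow_left₀ (mul_nonneg (n0 u) y0.le) ?_ 2
      simp only [r3, conv, one_mul, sum_mul]
      exact sum_le_sum fun t _ => mul_comm y _ ▸ il _
    have h2 : 0 ≤ ∑ u ∈ Icc (A - Δ) (A + 2 * Δ), conv W (fun _ => 1) (ind W Δ l) u ^ 2 :=
      sum_nonneg fun _ _ => sq_nonneg _
    refine le_of_mul_le_mul_right ?_ (show 0 < y ^ 2 by positivity)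
    calc _ = (c * F) ^ 2 * ((∑ u ∈ Icc (A - Δ) (A + 2 * Δ),
          conv W (fun _ => 1) (ind W Δ l) u ^ 2) * y ^ 2) := by ring
      _ ≤ (16 * Lm * #B * y ^ 3) ^ 2 * e6 :=
          mul_le_mul (le_trans (by gcongr) hc2) h1 (by positivity) (by positivity)
      _ = _ := by ring
  · simp only [conv_ft W _ _ _ _ (ind_zero W Δ l) (r3_mem hI)]
    have h1 := parseval2 P A Δ (by omega) W hI fun _ => (c : ℂ)
    have h2 := parseval2 P (-Δ) (2 * Δ) hP (Icc (-(Δ : ℤ)) Δ)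
      (Icc_subset_Icc le_rfl (by push_cast; omega)) fun s => (ind W Δ l s : ℂ)
    have h3 : ∑ s ∈ Icc (-(Δ : ℤ)) Δ, ‖(ind W Δ l s : ℂ)‖ ^ 2 = #(lev W Δ l) := by
      rw [card_eq_sum_ones, Nat.cast_sum, Nat.cast_one, ← ind_sum]
      refine sum_congr rfl fun s _ => ?_
      unfold ind
      split_ifs <;> simp
    rw [h3] at h2
    rw [sum_const, nsmul_eq_mul, Complex.norm_real, Real.norm_of_nonneg c0.le] at h1
    have h5 := (sum_mul_sq_le_sq_mul_sq (XX P) (fun x => fr W (fun _ => c) ((x : ℝ) / P))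
      fun x => fr (Icc (-(Δ : ℤ)) Δ) (ind W Δ l) ((x : ℝ) / P)).trans
      (mul_le_mul h1 h2 (sum_nonneg fun _ _ => sq_nonneg _) (by positivity))
    refine le_of_mul_le_mul_right ?_ (show 0 < y ^ 4 by positivity)
    calc _ ≤ 2 * P * (#W * c ^ 2) * (2 * P * #(lev W Δ l)) * E * y ^ 4 := by gcongr
      _ = 4 * P ^ 2 * #W * c ^ 2 * E * (#(lev W Δ l) * y ^ 4) := by ring
      _ ≤ 4 * P ^ 2 * #B * c ^ 2 * E * E := by gcongr
      _ = 4 * P ^ 2 * #B * (c * E) ^ 2 := by ring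
      _ ≤ 4 * P ^ 2 * #B * (16 * Lm * #B * y ^ 3) ^ 2 := by gcongr
      _ = _ := by ring

end Pool.Agent.Lib.MP_a93a41_nt.GM
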