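import Pool.Agent.Lib.MP_a93a41_nt.GMK

/-! Lower bound for the trace. -/

namespace Pool.Agent.Lib.MP_a93a41_nt.GM

open Finset Real Pool.Agent.Lib.LargeSieve

namespace TL

lemma cs_c {ι : Type*} (s : Finset ι) (x y : ι → ℂ) :
    ‖∑ i ∈ s, x i * y i‖ ^ 2 ≤ (∑ i ∈ s, ‖x i‖ ^ 2) * ∑ i ∈ s, ‖y i‖ ^ 2 := by
  have h1 : ‖∑ i ∈ s, x i * y i‖ ≤ ∑ i ∈ s, ‖x i‖ * ‖y i‖ :=
    (norm_sum_le _ _).trans (le_of_eq (sum_congr rfl fun i _ => norm_mul _ _))
  exact (pow_le_pow_left₀ (norm_nonneg _) h1 2).trans (sum_mul_sq_le_sq_mul_sq _ _ _)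

lemma cs_w {ι : Type*} (s : Finset ι) (m : ι → ℝ) (hm : ∀ i, 0 ≤ m i) (x y : ι → ℂ) :
    ‖∑ i ∈ s, (m i : ℂ) * (x i * (starRingEnd ℂ) (y i))‖ ^ 2
      ≤ (∑ i ∈ s, m i * ‖x i‖ ^ 2) * ∑ i ∈ s, m i * ‖y i‖ ^ 2 := by
  have h := cs_c s (fun i => (√(m i) : ℝ) * x i) (fun i => (√(m i) : ℝ) * (starRingEnd ℂ) (y i))
  have e1 : ∀ i, ((√(m i) : ℝ) : ℂ) * x i * ((√(m i) : ℝ) * (starRingEnd ℂ) (y i))
      = (m i : ℂ) * (x i * (starRingEnd ℂ) (y i)) := by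
    intro i
    have : ((√(m i) : ℝ) : ℂ) * (√(m i) : ℝ) = (m i : ℂ) := by
      rw [← Complex.ofReal_mul, Real.mul_self_sqrt (hm i)]
    rw [← this]; ring
  have e2 : ∀ i (z : ℂ), ‖((√(m i) : ℝ) : ℂ) * z‖ ^ 2 = m i * ‖z‖ ^ 2 := by
    intro i z
    rw [norm_mul, mul_pow, Complex.norm_real, Real.norm_eq_abs, sq_abs, Real.sq_sqrt (hm i)]
  simp only [e1, e2, Complex.norm_conj] at h
  exact h

lemma form (P N M : ℕ) (W : Finset ℤ) (v y : ℤ → ℂ) :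
    ∑ j ∈ JJ P, (mu P N M j : ℂ) * (ft W v ((j : ℝ) / P) * (starRingEnd ℂ) (ft W y ((j : ℝ) / P)))
      = ∑ t ∈ W, ((∑ u ∈ W, v u * ZZ P N M (u - t)) + N * v t) * (starRingEnd ℂ) (y t) := by
  have e1 : ∀ t ∈ W, (∑ u ∈ W, v u * ZZ P N M (u - t)) + N * v t
      = ∑ u ∈ W, v u * GG P N M (u - t) := by
    intro t ht
    simp only [ZZ, mul_sub, sum_sub_distrib, sub_eq_zero, mul_ite, mul_zero]
    rw [sum_ite_eq' W t, if_pos ht]; ring
  have e2 : ∑ t ∈ W, ((∑ u ∈ W, v u * ZZ P N M (u - t)) + N * v t) * (starRingEnd ℂ) (y t)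
      = ∑ t ∈ W, (∑ u ∈ W, v u * GG P N M (u - t)) * (starRingEnd ℂ) (y t) :=
    sum_congr rfl fun t ht => by rw [e1 t ht]
  rw [e2]
  simp only [ft, GG, map_sum, map_mul, conj_ee, sum_mul, mul_sum]
  rw [sum_comm]
  refine sum_congr rfl fun t _ => ?_
  rw [sum_comm]
  refine sum_congr rfl fun u _ => sum_congr rfl fun j _ => ?_
  have : ee (((u - t : ℤ) : ℝ) * ((j : ℝ) / P))
      = ee (u * ((j : ℝ) / P)) * ee (-(t * ((j : ℝ) / P))) := by
    rw [← ee_add]; congr 1; push_cast; ring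
  rw [this]; ring

lemma real_sum {ι : Type*} (s : Finset ι) (x : ι → ℂ) :
    ∑ i ∈ s, x i * (starRingEnd ℂ) (x i) = ((∑ i ∈ s, ‖x i‖ ^ 2 : ℝ) : ℂ) := by
  push_cast
  exact sum_congr rfl fun i _ => Complex.mul_conj' _

/-- The Cauchy-Schwarz chain. -/
lemma chain (P N M : ℕ) (W : Finset ℤ) (v : ℤ → ℂ) {A0 : ℝ} (hW : 0 < (#W : ℝ))
    (hv : ∀ t ∈ W, ‖v t‖ ≤ 1) (h0 : 2 * N * (#W : ℝ) ≤ A0) (hA0 : 0 < A0)
    (hA : A0 ≤ ∑ j ∈ JJ P, mu P N M j * ‖ft W v ((j : ℝ) / P)‖ ^ 2) :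
    (A0 / #W) ^ 3 / 16 ≤ ∑ u ∈ W, ∑ j ∈ JJ P, mu P N M j * ‖gam P N M W u j‖ ^ 2 := by
  set w : ℤ → ℂ := fun t => ∑ u ∈ W, v u * ZZ P N M (u - t) with hw
  set A := ∑ j ∈ JJ P, mu P N M j * ‖ft W v ((j : ℝ) / P)‖ ^ 2 with hAd
  set C := ∑ j ∈ JJ P, mu P N M j * ‖ft W w ((j : ℝ) / P)‖ ^ 2 with hC
  set R := ∑ u ∈ W, ∑ j ∈ JJ P, mu P N M j * ‖gam P N M W u j‖ ^ 2 with hR
  set s := ∑ t ∈ W, ‖v t‖ ^ 2 with hs
  set o := ∑ t ∈ W, ‖w t‖ ^ 2 with ho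
  have hs0 : 0 ≤ s := sum_nonneg fun _ _ => sq_nonneg _
  have ho0 : 0 ≤ o := sum_nonneg fun _ _ => sq_nonneg _
  have hR0 : 0 ≤ R := sum_nonneg fun _ _ => sum_nonneg fun j _ =>
    mul_nonneg (mu_nonneg _ _ _ _) (sq_nonneg _)
  have hsW : s ≤ #W := by
    have := sum_le_card_nsmul W (fun t => ‖v t‖ ^ 2) 1
      (fun t ht => pow_le_one₀ (norm_nonneg _) (hv t ht))
    simpa using this
  have hN0 : (0 : ℝ) ≤ N := Nat.cast_nonneg _
  have h1 : C ≤ s * R := by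
    rw [hR, sum_comm, mul_sum]
    refine sum_le_sum fun j _ => ?_
    rw [← mul_sum, mul_left_comm]
    refine mul_le_mul_of_nonneg_left ?_ (mu_nonneg _ _ _ _)
    have e : ft W w ((j : ℝ) / P) = ∑ u ∈ W, v u * gam P N M W u j := by
      simp only [ft, hw, gam, sum_mul, mul_sum]
      rw [sum_comm]
      exact sum_congr rfl fun u _ => sum_congr rfl fun t _ => by ring
    rw [e]
    exact cs_c _ _ _
  have h2 : ∑ t ∈ W, w t * (starRingEnd ℂ) (v t) = ((A - N * s : ℝ) : ℂ) := by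
    have h := form P N M W v v
    have e : ∑ j ∈ JJ P, (mu P N M j : ℂ)
        * (ft W v ((j : ℝ) / P) * (starRingEnd ℂ) (ft W v ((j : ℝ) / P))) = (A : ℂ) := by
      rw [hAd]; push_cast
      exact sum_congr rfl fun j _ => by rw [Complex.mul_conj']
    rw [e] at h
    simp only [add_mul, sum_add_distrib, mul_assoc, ← mul_sum] at h
    rw [real_sum] at h
    push_cast at h ⊢
    rw [h, hs]; push_cast; ring
  have hAs : A / 2 ≤ A - N * s := by nlinarith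
  have hA1 : 0 < A := by linarith
  have h3 : (A / 2) ^ 2 ≤ o * s := by
    have h := cs_c W w (fun t => (starRingEnd ℂ) (v t))
    simp only [Complex.norm_conj] at h
    rw [h2, Complex.norm_real, Real.norm_eq_abs, sq_abs] at h
    exact (pow_le_pow_left₀ (by linarith) hAs 2).trans h
  have h4 : o ^ 2 ≤ A * C := by
    have h := cs_w (JJ P) (mu P N M) (mu_nonneg P N M) (fun j => ft W v ((j : ℝ) / P))
      (fun j => ft W w ((j : ℝ) / P))
    rw [form P N M W v w] at h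
    have e : ∑ t ∈ W, ((∑ u ∈ W, v u * ZZ P N M (u - t)) + N * v t) * (starRingEnd ℂ) (w t)
        = ((o + N * (A - N * s) : ℝ) : ℂ) := by
      have h5 := congrArg (starRingEnd ℂ) h2
      simp only [map_sum, map_mul, Complex.conj_conj, Complex.conj_ofReal] at h5
      have h6 := real_sum W w
      rw [Complex.ofReal_add, Complex.ofReal_mul, ← h5, ho, ← h6, mul_sum, ← sum_add_distrib]
      refine sum_congr rfl fun t _ => ?_
      simp only [hw]; push_cast; ring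
    rw [e, Complex.norm_real, Real.norm_eq_abs, sq_abs] at h
    refine le_trans (pow_le_pow_left₀ ho0 ?_ 2) h
    have : 0 ≤ (N : ℝ) * (A - N * s) := mul_nonneg hN0 (by linarith)
    linarith
  have h5 : A ^ 3 / 16 ≤ s ^ 3 * R := by
    have a1 : ((A / 2) ^ 2) ^ 2 ≤ (o * s) ^ 2 := pow_le_pow_left₀ (sq_nonneg _) h3 2
    have a2 : o ^ 2 * s ^ 2 ≤ A * (s * R) * s ^ 2 :=
      mul_le_mul_of_nonneg_right (h4.trans (mul_le_mul_of_nonneg_left h1 hA1.le)) (sq_nonneg _)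
    have a3 : A * (A ^ 3 / 16) ≤ A * (s ^ 3 * R) := by nlinarith
    exact le_of_mul_le_mul_left a3 hA1
  have h6 : A0 ^ 3 ≤ A ^ 3 := pow_le_pow_left₀ hA0.le hA 3
  have h7 : s ^ 3 * R ≤ (#W : ℝ) ^ 3 * R :=
    mul_le_mul_of_nonneg_right (pow_le_pow_left₀ hs0 hsW 3) hR0
  rw [div_pow, div_div, div_le_iff₀ (by positivity)]
  nlinarith

/-- First grid point after the logarithm of `n / N`. -/
noncomputable def jn (P N n : ℕ) : ℤ := ⌈(P : ℝ) * (Lg n - Lg N)⌉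

lemma jn_close {P : ℕ} (hP : 0 < P) (N n k : ℕ) :
    0 ≤ ((jn P N n + k : ℤ) : ℝ) / P - (Lg n - Lg N) ∧
      ((jn P N n + k : ℤ) : ℝ) / P - (Lg n - Lg N) ≤ (k + 1) / P := by
  have hP' : (0 : ℝ) < P := by exact_mod_cast hP
  have h1 : (P : ℝ) * (Lg n - Lg N) ≤ jn P N n := Int.le_ceil _
  have h2 : (jn P N n : ℝ) < (P : ℝ) * (Lg n - Lg N) + 1 := Int.ceil_lt_add_one _
  have hk : (0 : ℝ) ≤ k := Nat.cast_nonneg _
  push_cast
  constructor
  · rw [sub_nonneg, le_div_iff₀ hP']; linarith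
  · rw [sub_le_iff_le_add, div_le_iff₀ hP', add_mul, div_mul_cancel₀ _ hP'.ne']; linarith

lemma win {N M H P : ℕ} (hP : P = 80 * N * M * H) (hN : 0 < N) (hM : 0 < M) {n k : ℕ}
    (hn : n ∈ Ioc (N / 2) N) (hk : k < H) :
    jn P N n + k ∈ JJ P ∧ 0 ≤ N * vv P (jn P N n + k) - n ∧
      N * vv P (jn P N n + k) - n ≤ 1 / (6 * M) := by
  have hH : 0 < H := by omega
  have hP0 : 0 < P := by rw [hP]; positivity
  have hP' : (0 : ℝ) < P := by exact_mod_cast hP0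
  have hN' : (1 : ℝ) ≤ N := by exact_mod_cast hN
  have hM' : (1 : ℝ) ≤ M := by exact_mod_cast hM
  have hH' : (1 : ℝ) ≤ H := by exact_mod_cast hH
  obtain ⟨hn1, hn2⟩ := mem_Ioc.1 hn
  have hn0 : (0 : ℝ) < n := by exact_mod_cast (by omega : 0 < n)
  have hnN : (n : ℝ) ≤ N := by exact_mod_cast hn2
  obtain ⟨c1, c2⟩ := jn_close hP0 N n k
  have hk' : (k : ℝ) + 1 ≤ H := by exact_mod_cast hk
  have hPe : (P : ℝ) = 80 * N * M * H := by rw [hP]; push_cast; ring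
  have c3 : ((k : ℝ) + 1) / P ≤ 1 / (80 * N * M) := by
    rw [div_le_div_iff₀ hP' (by positivity), hPe]
    have : (0 : ℝ) < 80 * N * M := by positivity
    nlinarith
  have hNM : (1 : ℝ) ≤ N * M := by nlinarith
  have c4 : 1 / (80 * (N : ℝ) * M) ≤ 1 / 80 := one_div_le_one_div_of_le (by norm_num) (by nlinarith)
  have hL := abs_le.1 (Lg_close (P := N) (n := n) (m := N) ⟨by omega, hn2⟩ ⟨by omega, le_rfl⟩ hN)
  set η := ((jn P N n + k : ℤ) : ℝ) / P - (Lg n - Lg N) with hη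
  refine ⟨?_, ?_⟩
  · have h2 : ((P / 2 : ℕ) : ℤ) * 2 = P := by
      have : P / 2 * 2 = P := by
        have : P = 2 * (40 * N * M * H) := by rw [hP]; ring
        omega
      exact_mod_cast this
    have a1 : -(1 / 2 : ℝ) ≤ ((jn P N n + k : ℤ) : ℝ) / P := by linarith
    have a2 : ((jn P N n + k : ℤ) : ℝ) / P < 1 / 2 := by linarith
    rw [le_div_iff₀ hP'] at a1
    rw [div_lt_iff₀ hP'] at a2
    have a3 : -(P : ℤ) ≤ 2 * (jn P N n + k) := by
      have : (-(P : ℝ)) ≤ 2 * ((jn P N n + k : ℤ) : ℝ) := by linarith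
      exact_mod_cast this
    have a4 : 2 * (jn P N n + k) < (P : ℤ) := by
      have : 2 * ((jn P N n + k : ℤ) : ℝ) < P := by linarith
      exact_mod_cast this
    rw [JJ, mem_Ico]; omega
  · have e : N * vv P (jn P N n + k) = n * Real.exp (2 * π * η) := by
      have e1 : 2 * π * (((jn P N n + k : ℤ) : ℝ) / P)
          = Real.log n - Real.log N + 2 * π * η := by
        rw [hη]; simp only [Lg]; field_simp; ring
      rw [vv, e1, Real.exp_add, Real.exp_sub, Real.exp_log hn0, Real.exp_log (by linarith)]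
      field_simp
    rw [e]
    have hpi := Real.pi_lt_d2
    have hpi0 := Real.pi_pos
    have b0 : 0 ≤ 2 * π * η := by positivity
    have b1 : 2 * π * η ≤ 1 := by nlinarith
    have b2 := Real.abs_exp_sub_one_le (x := 2 * π * η) (by rw [abs_of_nonneg b0]; exact b1)
    rw [abs_of_nonneg b0] at b2
    have b3 := (abs_le.1 b2).2
    have b4 := Real.one_le_exp b0
    refine ⟨by nlinarith, ?_⟩
    have b5 : η ≤ 1 / (80 * N * M) := c2.trans c3
    have b6 : N * η ≤ 1 / (80 * M) := by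
      calc N * η ≤ N * (1 / (80 * N * M)) := by gcongr
        _ = 1 / (80 * M) := by field_simp
    have b7 : n * Real.exp (2 * π * η) - n ≤ N * (2 * (2 * π * η)) := by
      rw [← mul_sub_one]
      exact mul_le_mul hnN b3 (by linarith) (by linarith)
    have b8 : (1 : ℝ) / (6 * M) = 40 / 3 * (1 / (80 * M)) := by field_simp; norm_num
    have b9 : 0 ≤ N * η := by positivity
    rw [b8]
    nlinarith

lemma mu_low {N M H P : ℕ} (hP : P = 80 * N * M * H) (hN : 0 < N) (hM : 0 < M) {n k : ℕ}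
    (hn : n ∈ Ioc (N / 2) N) (hk : k < H) : 1 / (320 * (H : ℝ)) ≤ mu P N M (jn P N n + k) := by
  obtain ⟨-, h1, h2⟩ := win hP hN hM hn hk
  have hN' : (0 : ℝ) < N := by exact_mod_cast hN
  have hM' : (0 : ℝ) < M := by exact_mod_cast hM
  have hH' : (0 : ℝ) < H := by exact_mod_cast (by omega : 0 < H)
  set δ := N * vv P (jn P N n + k) - n with hδ
  have h3 := fejer_low M (θ := δ) (by
    rw [abs_of_nonneg h1]
    calc M * δ ≤ M * (1 / (6 * M)) := by gcongr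
      _ = 1 / 6 := by field_simp)
  have e : ∑ l ∈ range M, ee (l * (N * vv P (jn P N n + k))) = ∑ l ∈ range M, ee (l * δ) := by
    refine sum_congr rfl fun l _ => ?_
    have : (l : ℝ) * (N * vv P (jn P N n + k)) = ((l * n : ℤ) : ℝ) + l * δ := by
      rw [hδ]; push_cast; ring
    rw [this, ee_add, ee_int, one_mul]
  have h4 : ((M : ℝ) / 2) ^ 2 ≤ ‖∑ l ∈ range M, ee (l * δ)‖ ^ 2 :=
    pow_le_pow_left₀ (by positivity) h3 2
  have hPe : (P : ℝ) = 80 * N * M * H := by rw [hP]; push_cast; ring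
  rw [mu, Phi, e]
  calc 1 / (320 * (H : ℝ)) = N / P * (((M : ℝ) / 2) ^ 2 / M) := by rw [hPe]; field_simp; norm_num
    _ ≤ _ := by gcongr

lemma win_sum {N M H P : ℕ} (hP : P = 80 * N * M * H) (hN : 0 < N) (hM : 0 < M) (F : ℤ → ℝ)
    (hF : ∀ j, 0 ≤ F j) :
    1 / (320 * (H : ℝ)) * ∑ n ∈ Ioc (N / 2) N, ∑ k ∈ range H, F (jn P N n + k)
      ≤ ∑ j ∈ JJ P, mu P N M j * F j := by
  have hM' : (1 : ℝ) ≤ M := by exact_mod_cast hM
  rw [← sum_product', mul_sum]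
  have hinj : Set.InjOn (fun x : ℕ × ℕ => jn P N x.1 + (x.2 : ℤ))
      ((Ioc (N / 2) N ×ˢ range H : Finset (ℕ × ℕ)) : Set (ℕ × ℕ)) := by
    intro x hx y hy h
    obtain ⟨x1, x2⟩ := mem_product.1 (mem_coe.1 hx)
    obtain ⟨y1, y2⟩ := mem_product.1 (mem_coe.1 hy)
    obtain ⟨-, a1, a2⟩ := win hP hN hM x1 (mem_range.1 x2)
    obtain ⟨-, b1, b2⟩ := win hP hN hM y1 (mem_range.1 y2)
    simp only at h
    rw [h] at a1 a2
    have c : (1 : ℝ) / (6 * M) ≤ 1 / 6 := one_div_le_one_div_of_le (by norm_num) (by linarith)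
    have d1 : (x.1 : ℝ) < y.1 + 1 := by linarith
    have d2 : (y.1 : ℝ) < x.1 + 1 := by linarith
    have e1 : x.1 < y.1 + 1 := by exact_mod_cast d1
    have e2 : y.1 < x.1 + 1 := by exact_mod_cast d2
    have e3 : x.1 = y.1 := by omega
    rw [e3] at h
    exact Prod.ext e3 (by omega)
  calc ∑ x ∈ Ioc (N / 2) N ×ˢ range H, 1 / (320 * (H : ℝ)) * F (jn P N x.1 + x.2)
      ≤ ∑ x ∈ Ioc (N / 2) N ×ˢ range H,
          mu P N M (jn P N x.1 + x.2) * F (jn P N x.1 + x.2) := by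
        refine sum_le_sum fun x hx => ?_
        obtain ⟨x1, x2⟩ := mem_product.1 hx
        exact mul_le_mul_of_nonneg_right (mu_low hP hN hM x1 (mem_range.1 x2)) (hF _)
    _ = ∑ j ∈ (Ioc (N / 2) N ×ˢ range H).image (fun x : ℕ × ℕ => jn P N x.1 + (x.2 : ℤ)),
          mu P N M j * F j := by rw [sum_image hinj]
    _ ≤ _ := by
        refine sum_le_sum_of_subset_of_nonneg ?_ fun j _ _ => mul_nonneg (mu_nonneg _ _ _ _) (hF _)
        intro j hj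
        obtain ⟨x, hx, rfl⟩ := mem_image.1 hj
        obtain ⟨x1, x2⟩ := mem_product.1 hx
        exact (win hP hN hM x1 (mem_range.1 x2)).1

/-- Discrete Sobolev inequality. -/
lemma sob (f : ℤ → ℂ) (j : ℤ) (H : ℕ) :
    H * ‖f j‖ ^ 2 ≤ 2 * ∑ k ∈ range H, ‖f (j + k)‖ ^ 2
      + 2 * ∑ k ∈ range H, ‖(H : ℂ) * (f (j + k + 1) - f (j + k))‖ ^ 2 := by
  set D := ∑ k ∈ range H, ‖f (j + k + 1) - f (j + k)‖ with hD
  have h1 : ∀ k ∈ range H, ‖f j‖ ^ 2 ≤ 2 * ‖f (j + k)‖ ^ 2 + 2 * D ^ 2 := by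
    intro k hk
    have e := sum_range_sub (fun i : ℕ => f (j + i)) k
    have a1 : ‖f (j + k) - f j‖ ≤ D := by
      simp only [Nat.cast_zero, add_zero] at e
      rw [← e]
      refine (norm_sum_le _ _).trans ?_
      simp only [Nat.cast_add, Nat.cast_one, ← add_assoc]
      exact sum_le_sum_of_subset_of_nonneg (range_mono (mem_range.1 hk).le)
        fun _ _ _ => norm_nonneg _
    have a2 : ‖f j‖ ≤ ‖f (j + k)‖ + D := by
      have := norm_sub_le (f (j + k)) (f (j + k) - f j)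
      rw [sub_sub_cancel] at this
      linarith
    have a3 := pow_le_pow_left₀ (norm_nonneg _) a2 2
    nlinarith [sq_nonneg (‖f (j + k)‖ - D)]
  have h2 := sum_le_sum h1
  rw [sum_const, card_range, nsmul_eq_mul, sum_add_distrib, ← mul_sum, sum_const, card_range,
    nsmul_eq_mul] at h2
  have h3 : D ^ 2 ≤ H * ∑ k ∈ range H, ‖f (j + k + 1) - f (j + k)‖ ^ 2 := by
    have := sq_sum_le_card_mul_sum_sq (s := range H) (f := fun k : ℕ => ‖f (j + k + 1) - f (j + k)‖)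
    rwa [card_range] at this
  have h4 : ∑ k ∈ range H, ‖(H : ℂ) * (f (j + k + 1) - f (j + k))‖ ^ 2
      = H * (H * ∑ k ∈ range H, ‖f (j + k + 1) - f (j + k)‖ ^ 2) := by
    rw [mul_sum, mul_sum]
    refine sum_congr rfl fun k _ => ?_
    rw [norm_mul, Complex.norm_natCast]; ring
  have h5 : (H : ℝ) * D ^ 2 ≤ H * (H * ∑ k ∈ range H, ‖f (j + k + 1) - f (j + k)‖ ^ 2) :=
    mul_le_mul_of_nonneg_left h3 (Nat.cast_nonneg _)
  rw [h4]; linarith

/-- The transform centred at `A`. -/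
noncomputable def fA (P : ℕ) (W : Finset ℤ) (A : ℤ) (c : ℤ → ℂ) (j : ℤ) : ℂ :=
  ∑ t ∈ W, c t * ee (((t - A : ℤ) : ℝ) * ((j : ℝ) / P))

lemma norm_fA (P : ℕ) (W : Finset ℤ) (A : ℤ) (c : ℤ → ℂ) (j : ℤ) :
    ‖fA P W A c j‖ = ‖ft W c ((j : ℝ) / P)‖ := by
  have : fA P W A c j = ee (-(A * ((j : ℝ) / P))) * ft W c ((j : ℝ) / P) := by
    simp only [fA, ft, mul_sum]
    refine sum_congr rfl fun t _ => ?_
    rw [mul_left_comm, ← ee_add]; congr 2; push_cast; ring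
  rw [this, norm_mul, norm_ee, one_mul]

lemma large {N M H P T : ℕ} (hP : P = 80 * N * M * H) (hN : 0 < N) (hM : 0 < M)
    (hH : 0 < H) (hPT : 20 * N * T ≤ P) {V : ℝ} (hV : 1 ≤ V) {a : ℕ → ℂ}
    {W : Finset ℤ} (h : LV N V a W) {A : ℤ} (hW : W ⊆ Icc A (A + T)) :
    ∃ y : ℤ → ℂ, (∀ t, ‖y t‖ = 1) ∧
      (#W * V / 2) ^ 2 ≤ N * ∑ n ∈ Ioc (N / 2) N, ‖fA P W A y (jn P N n)‖ ^ 2 := by
  have hP0 : 0 < P := by rw [hP]; positivity
  have hP' : (0 : ℝ) < P := by exact_mod_cast hP0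
  set b : ℕ → ℂ := fun n => a n * ee (A * (Lg n - Lg N)) with hb
  have hb1 : ∀ n, ‖b n‖ ≤ 1 := fun n => by rw [hb, norm_mul, norm_ee, mul_one]; exact h.1 n
  set D : ℤ → ℂ := fun t => ∑ n ∈ Ioc (N / 2) N,
    b n * ee (((t - A : ℤ) : ℝ) * ((jn P N n : ℝ) / P)) with hD
  have hc : (#(Ioc (N / 2) N) : ℝ) ≤ N := by
    rw [Nat.card_Ioc]; exact_mod_cast Nat.sub_le _ _
  have h1 : ∀ t ∈ W, V / 2 ≤ ‖D t‖ := by
    intro t ht
    obtain ⟨t1, t2⟩ := mem_Icc.1 (hW ht)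
    have e : ee (-(t * Lg N)) * DP N a t = ∑ n ∈ Ioc (N / 2) N,
        b n * ee (((t - A : ℤ) : ℝ) * (Lg n - Lg N)) := by
      simp only [DP, mul_sum, hb]
      refine sum_congr rfl fun n _ => ?_
      rw [mul_left_comm, mul_assoc, ← ee_add, ← ee_add]; congr 2; push_cast; ring
    have a1 : ‖ee (-(t * Lg N)) * DP N a t - D t‖ ≤ 7 * N * T / P := by
      rw [e, hD, ← sum_sub_distrib]
      refine (norm_sum_le _ _).trans ?_
      have a2 : ∀ n ∈ Ioc (N / 2) N, ‖b n * ee (((t - A : ℤ) : ℝ) * (Lg n - Lg N))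
          - b n * ee (((t - A : ℤ) : ℝ) * ((jn P N n : ℝ) / P))‖ ≤ 7 * T / P := by
        intro n _
        obtain ⟨c1, c2⟩ := jn_close hP0 N n 0
        simp only [Nat.cast_zero, add_zero, zero_add] at c1 c2
        have d1 : (0 : ℝ) ≤ ((t - A : ℤ) : ℝ) := by exact_mod_cast (by omega : 0 ≤ t - A)
        have d2 : ((t - A : ℤ) : ℝ) ≤ T := by exact_mod_cast (by omega : t - A ≤ T)
        rw [← mul_sub, norm_mul]
        have d3 := norm_ee_sub (((t - A : ℤ) : ℝ) * (Lg n - Lg N))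
          (((t - A : ℤ) : ℝ) * ((jn P N n : ℝ) / P))
        rw [← mul_sub, abs_mul, abs_of_nonneg d1, abs_sub_comm, abs_of_nonneg c1] at d3
        have d4 : ((t - A : ℤ) : ℝ) * ((jn P N n : ℝ) / P - (Lg n - Lg N)) ≤ T * (1 / P) := by
          gcongr
        refine (mul_le_mul (hb1 n) (d3.trans (mul_le_mul_of_nonneg_left d4 (by norm_num)))
          (norm_nonneg _) zero_le_one).trans (le_of_eq ?_)
        ring
      have a3 := sum_le_card_nsmul _ _ _ a2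
      rw [nsmul_eq_mul] at a3
      refine a3.trans ?_
      calc (#(Ioc (N / 2) N) : ℝ) * (7 * T / P) ≤ N * (7 * T / P) := by gcongr
        _ = 7 * N * T / P := by ring
    have a4 : 7 * (N : ℝ) * T / P ≤ 1 / 2 := by
      have : (20 : ℝ) * N * T ≤ P := by exact_mod_cast hPT
      have : (0 : ℝ) ≤ N * T := by positivity
      rw [div_le_iff₀ hP']; linarith
    have a5 := norm_sub_norm_le (ee (-(t * Lg N)) * DP N a t) (D t)
    rw [norm_mul, norm_ee, one_mul] at a5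
    have := h.2 t ht
    linarith
  choose y hy1 hy2 using fun t => Complex.exists_norm_eq_mul_self (D t)
  refine ⟨y, hy1, ?_⟩
  have e : ∑ n ∈ Ioc (N / 2) N, b n * fA P W A y (jn P N n) = ((∑ t ∈ W, ‖D t‖ : ℝ) : ℂ) := by
    rw [Complex.ofReal_sum, sum_congr rfl fun t _ => hy2 t]
    simp only [fA, hD, mul_sum]
    rw [sum_comm]
    exact sum_congr rfl fun t _ => sum_congr rfl fun n _ => by ring
  have h2 := cs_c (Ioc (N / 2) N) b (fun n => fA P W A y (jn P N n))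
  rw [e, Complex.norm_real, Real.norm_eq_abs, sq_abs] at h2
  have h3 := card_nsmul_le_sum _ _ _ h1
  rw [nsmul_eq_mul] at h3
  have h4 : ∑ n ∈ Ioc (N / 2) N, ‖b n‖ ^ 2 ≤ N := by
    have := sum_le_card_nsmul (Ioc (N / 2) N) (fun n => ‖b n‖ ^ 2) 1
      (fun n _ => pow_le_one₀ (norm_nonneg _) (hb1 n))
    rw [nsmul_eq_mul, mul_one] at this
    exact this.trans hc
  calc (#W * V / 2) ^ 2 ≤ (∑ t ∈ W, ‖D t‖) ^ 2 :=
        pow_le_pow_left₀ (by positivity) (by linarith) 2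
    _ ≤ _ := h2
    _ ≤ _ := mul_le_mul_of_nonneg_right h4 (sum_nonneg fun _ _ => sq_nonneg _)

lemma vec {N M H P T : ℕ} (hP : P = 80 * N * M * H) (hN : 0 < N) (hM : 0 < M)
    (hH : 0 < H) (hT : T + 1 ≤ N * M) (hPT : 20 * N * T ≤ P) {V : ℝ} (hV : 1 ≤ V) {a : ℕ → ℂ}
    {W : Finset ℤ} (h : LV N V a W) {A : ℤ} (hW : W ⊆ Icc A (A + T)) :
    ∃ v : ℤ → ℂ, (∀ t ∈ W, ‖v t‖ ≤ 1) ∧ (#W : ℝ) ^ 2 * V ^ 2 / (5120 * N)
      ≤ ∑ j ∈ JJ P, mu P N M j * ‖ft W v ((j : ℝ) / P)‖ ^ 2 := by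
  obtain ⟨y, hy, h1⟩ := large hP hN hM hH hPT hV h hW
  have hN' : (0 : ℝ) < N := by exact_mod_cast hN
  have hM' : (0 : ℝ) < M := by exact_mod_cast hM
  have hH' : (0 : ℝ) < H := by exact_mod_cast hH
  have hPe : (P : ℝ) = 80 * N * M * H := by rw [hP]; push_cast; ring
  have hP' : (0 : ℝ) < P := by rw [hPe]; positivity
  set y' : ℤ → ℂ := fun t => H * (y t * (ee (((t - A : ℤ) : ℝ) * (1 / P)) - 1)) with hy'
  have h2 : ∀ t ∈ W, ‖y' t‖ ≤ 1 := by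
    intro t ht
    obtain ⟨t1, t2⟩ := mem_Icc.1 (hW ht)
    have d1 : (0 : ℝ) ≤ ((t - A : ℤ) : ℝ) := by exact_mod_cast (by omega : 0 ≤ t - A)
    have d2 : ((t - A : ℤ) : ℝ) ≤ T := by exact_mod_cast (by omega : t - A ≤ T)
    have d3 : (T : ℝ) + 1 ≤ N * M := by exact_mod_cast hT
    have d4 := norm_ee_sub_one_le (((t - A : ℤ) : ℝ) * (1 / P))
    rw [abs_of_nonneg (by positivity)] at d4
    simp only [hy', norm_mul, Complex.norm_natCast, hy, one_mul]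
    calc (H : ℝ) * ‖ee (((t - A : ℤ) : ℝ) * (1 / P)) - 1‖
        ≤ H * (7 * ((N * M) * (1 / P))) := by
          refine mul_le_mul_of_nonneg_left (d4.trans ?_) hH'.le
          have : ((t - A : ℤ) : ℝ) ≤ N * M := by linarith
          gcongr
      _ = 7 / 80 := by rw [hPe]; field_simp
      _ ≤ 1 := by norm_num
  have h3 : ∀ j : ℤ, (H : ℂ) * (fA P W A y (j + 1) - fA P W A y j) = fA P W A y' j := by
    intro j
    simp only [fA, hy', ← sum_sub_distrib, mul_sum]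
    refine sum_congr rfl fun t _ => ?_
    have : ee (((t - A : ℤ) : ℝ) * (((j + 1 : ℤ) : ℝ) / P))
        = ee (((t - A : ℤ) : ℝ) * (1 / P)) * ee (((t - A : ℤ) : ℝ) * ((j : ℝ) / P)) := by
      rw [← ee_add]; congr 1; push_cast; ring
    rw [this]; ring
  have h4 := sum_le_sum fun n (_ : n ∈ Ioc (N / 2) N) => sob (fA P W A y) (jn P N n) H
  simp only [h3, norm_fA] at h4 h1
  rw [sum_add_distrib, ← mul_sum, ← mul_sum, ← mul_sum] at h4
  have h5 := win_sum hP hN hM (fun j => ‖ft W y ((j : ℝ) / P)‖ ^ 2) fun _ => sq_nonneg _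
  have h6 := win_sum hP hN hM (fun j => ‖ft W y' ((j : ℝ) / P)‖ ^ 2) fun _ => sq_nonneg _
  set S0 := ∑ n ∈ Ioc (N / 2) N, ‖ft W y ((jn P N n : ℝ) / P)‖ ^ 2
  set S1 := ∑ n ∈ Ioc (N / 2) N, ∑ k ∈ range H, ‖ft W y (((jn P N n + k : ℤ) : ℝ) / P)‖ ^ 2
  set S2 := ∑ n ∈ Ioc (N / 2) N, ∑ k ∈ range H, ‖ft W y' (((jn P N n + k : ℤ) : ℝ) / P)‖ ^ 2
  have key : ∀ S : ℝ, H * S0 ≤ 4 * S →
      (#W : ℝ) ^ 2 * V ^ 2 / (5120 * N) ≤ 1 / (320 * (H : ℝ)) * S := by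
    intro S hS
    have a1 : H * (#W * V / 2) ^ 2 ≤ N * (4 * S) := by
      calc H * (#W * V / 2) ^ 2 ≤ H * (N * S0) := by gcongr
        _ = N * (H * S0) := by ring
        _ ≤ _ := by gcongr
    rw [one_div_mul_eq_div, div_le_div_iff₀ (by positivity) (by positivity)]
    nlinarith
  rcases le_total S1 S2 with c | c
  · exact ⟨y', h2, (key S2 (by linarith)).trans h6⟩
  · exact ⟨y, fun t _ => (hy t).le, (key S1 (by linarith)).trans h5⟩

end TL

theorem trace_lower {N M H P T : ℕ} (hP : P = 80 * N * M * H) (hN : 0 < N) (hM : 0 < M)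
    (hH : 0 < H) (hT : T + 1 ≤ N * M) (hPT : 20 * N * T ≤ P) {V : ℝ} (hV : 1 ≤ V) {a : ℕ → ℂ}
    {W : Finset ℤ} (h : LV N V a W) {A : ℤ} (hW : W ⊆ Icc A (A + T))
    (hWV : 10240 * (N : ℝ) ^ 2 ≤ #W * V ^ 2) :
    (#W * V ^ 2 / (5120 * N)) ^ 3 / 16
      ≤ ∑ u ∈ W, ∑ j ∈ JJ P, mu P N M j * ‖gam P N M W u j‖ ^ 2 := by
  obtain ⟨v, hv, hA⟩ := TL.vec hP hN hM hH hT hPT hV h hW
  have hN' : (0 : ℝ) < N := by exact_mod_cast hN
  have hW0 : (0 : ℝ) < #W := by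
    rcases (Nat.cast_nonneg (α := ℝ) #W).eq_or_lt with c | c
    · rw [← c, zero_mul] at hWV
      have : (0 : ℝ) < 10240 * (N : ℝ) ^ 2 := by positivity
      linarith
    · exact c
  have h1 := TL.chain P N M W v hW0 hv (by
    rw [le_div_iff₀ (by positivity)]
    nlinarith [mul_le_mul_of_nonneg_left hWV hW0.le]) (by positivity) hA
  have e : (#W : ℝ) ^ 2 * V ^ 2 / (5120 * N) / #W = #W * V ^ 2 / (5120 * N) := by field_simp
  rwa [e] at h1

end Pool.Agent.Lib.MP_a93a41_nt.GM
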