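import Pool.Agent.Lib.MP_a93a41_nt.GM6
import Pool.Agent.Lib.MP_a93a41_nt.GMTL
import Pool.Agent.Lib.MP_a93a41_nt.GMBl

/-! The weighted trace inequality. -/

namespace Pool.Agent.Lib.MP_a93a41_nt.GM

open Finset Real Pool.Agent.Lib.LargeSieve

lemma mem_JJ {P : ℕ} {j : ℤ} :
    j ∈ JJ P ↔ -((P / 2 : ℕ) : ℤ) ≤ j ∧ j < -((P / 2 : ℕ) : ℤ) + P := by simp [JJ]

noncomputable def I2 (P : ℕ) (x : ℤ) : Finset ℤ :=
  Ico (max (-((P / 2 : ℕ) : ℤ)) (-((P / 2 : ℕ) : ℤ) - x))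
    (min (-((P / 2 : ℕ) : ℤ) + P) (-((P / 2 : ℕ) : ℤ) + P - x))

noncomputable def I3 (P : ℕ) (x y : ℤ) : Finset ℤ :=
  Ico (max (max (-((P / 2 : ℕ) : ℤ)) (-((P / 2 : ℕ) : ℤ) - x)) (-((P / 2 : ℕ) : ℤ) - y))
    (min (min (-((P / 2 : ℕ) : ℤ) + P) (-((P / 2 : ℕ) : ℤ) + P - x))
      (-((P / 2 : ℕ) : ℤ) + P - y))

lemma reindex2 (P : ℕ) (f : ℤ → ℤ → ℂ) :
    ∑ j ∈ JJ P ×ˢ JJ P, f j.1 j.2 = ∑ x ∈ XX P, ∑ z ∈ I2 P x, f (z + x) z := by
  rw [sum_sigma']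
  apply sum_nbij' (fun j => ⟨j.1 - j.2, j.2⟩) (fun w => (w.2 + w.1, w.2))
  · intro j hj
    simp only [mem_product, mem_JJ, mem_sigma, mem_XX, I2, mem_Ico] at hj ⊢
    omega
  · intro j hj
    simp only [mem_product, mem_JJ, mem_sigma, mem_XX, I2, mem_Ico] at hj ⊢
    omega
  · intro j _; simp
  · intro j _; simp
  · intro j _; simp

lemma reindex3 (P : ℕ) (f : ℤ → ℤ → ℤ → ℂ) :
    ∑ j ∈ JJ P ×ˢ JJ P ×ˢ JJ P, f j.1 j.2.1 j.2.2
      = ∑ p ∈ Dm P, ∑ z ∈ I3 P p.1 p.2, f (z + p.1) (z + p.2) z := by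
  rw [sum_sigma']
  apply sum_nbij' (fun j => ⟨(j.1 - j.2.2, j.2.1 - j.2.2), j.2.2⟩)
    (fun w => (w.2 + w.1.1, w.2 + w.1.2, w.2))
  · intro j hj
    simp only [mem_product, mem_JJ, mem_sigma, mem_XX, I3, mem_Ico, Dm, mem_filter] at hj ⊢
    omega
  · intro j hj
    simp only [mem_product, mem_JJ, mem_sigma, mem_XX, I3, mem_Ico, Dm, mem_filter] at hj ⊢
    omega
  · intro j _; simp
  · intro j _; simp
  · intro j _; simp

lemma Kkap {P N M : ℕ} (hN : 0 < N) (hM : 0 < M) (hK : (2000 * (N * M)) ^ 2 ≤ P) (hE : 2 ∣ P)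
    {β : ℝ} (hβ : |β| ≤ 2000 * M) (z0 z1 : ℤ) (h0 : -((P / 2 : ℕ) : ℤ) ≤ z0)
    (h1 : z1 ≤ -((P / 2 : ℕ) : ℤ) + P) :
    ‖∑ z ∈ Ico z0 z1, ee (N * β * vv P z)‖ ≤ 2000 * P * kap N β := by
  have hNM : 1 ≤ N * M := Nat.mul_pos hN hM
  have h := Kbound (P := P) (le_trans (by nlinarith) hK) (ξ := N * β) (by
    have a1 : ((2000 * (N * M) : ℝ)) ^ 2 ≤ P := by exact_mod_cast hK
    refine le_trans ?_ a1
    rw [← sq_abs, abs_mul, Nat.abs_cast]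
    refine pow_le_pow_left₀ (by positivity) ?_ 2
    calc (N : ℝ) * |β| ≤ N * (2000 * M) := by gcongr
      _ = _ := by ring) z0 z1 (by omega) (by omega)
  rw [abs_mul, Nat.abs_cast] at h
  rw [kap, mul_one_div]; exact h

lemma abs_mul_vv {P M : ℕ} (hP : 0 < P) {m x : ℤ} (h1 : -(M : ℤ) ≤ m ∧ m ≤ M) (h2 : x < P) :
    |m * vv P x| ≤ 576 * M := by
  have c1 : |(m : ℝ)| ≤ M := by exact_mod_cast abs_le.2 h1
  rw [abs_mul, abs_of_pos (vv_pos _ _), mul_comm]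
  gcongr
  exact (vv_lt hP h2.le).le

lemma mul3 {α : Type*} (s t r : Finset α) (f g h : α → ℂ) :
    (∑ a ∈ s, f a) * (∑ b ∈ t, g b) * ∑ c ∈ r, h c
      = ∑ x ∈ s ×ˢ t ×ˢ r, f x.1 * g x.2.1 * h x.2.2 := by
  rw [mul_assoc, sum_mul_sum t r, ← sum_product', sum_mul_sum, ← sum_product']
  exact sum_congr rfl fun x _ => by ring

lemma mul3' {α : Type*} (s t r : Finset α) (f g h : α → ℂ) :
    (∑ a ∈ s, f a) * ((∑ b ∈ t, g b) * ∑ c ∈ r, h c)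
      = ∑ x ∈ s ×ˢ t ×ˢ r, f x.1 * g x.2.1 * h x.2.2 := by
  rw [← mul_assoc, mul3]

lemma S3_bound {P N M T : ℕ} (hN : 0 < N) (hM : 0 < M) (hK : (2000 * (N * M)) ^ 2 ≤ P)
    (hE : 2 ∣ P) (hT : 2 * T < P) {A : ℤ} {W U : Finset ℤ} (hW : W ⊆ Icc A (A + T))
    (hU : U ⊆ Icc (A - T) (A + 2 * T)) (ω : ℤ → ℝ) :
    ‖∑ u ∈ U, (ω u : ℂ) * ∑ t ∈ W, ∑ t' ∈ W,
        ZZ P N M (u - t) * ZZ P N M (t - t') * ZZ P N M (t' - u)‖
      ≤ (N / P) ^ 3 * (2000 * P) * Tri P N M (fun x y => fr U ω ((x : ℝ) / P)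
        * (fr W (fun _ => 1) (((y - x : ℤ) : ℝ) / P) * fr W (fun _ => 1) ((y : ℝ) / P))) := by
  have hP : 0 < P := by omega
  set R := ft W (fun _ => ((1 : ℝ) : ℂ)) with hR
  have e1 : ∑ u ∈ U, (ω u : ℂ) * ∑ t ∈ W, ∑ t' ∈ W,
        ZZ P N M (u - t) * ZZ P N M (t - t') * ZZ P N M (t' - u)
      = (N / P : ℂ) ^ 3 * ∑ j ∈ JJ P ×ˢ JJ P ×ˢ JJ P, ph P N M j.1 * ph P N M j.2.1 * ph P N M j.2.2
        * (ft U (fun u => (ω u : ℂ)) (((j.1 - j.2.2 : ℤ) : ℝ) / P)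
          * (R (((j.2.1 - j.1 : ℤ) : ℝ) / P) * R (((j.2.2 - j.2.1 : ℤ) : ℝ) / P))) := by
    have l1 : ∑ u ∈ U, (ω u : ℂ) * ∑ t ∈ W, ∑ t' ∈ W,
        ZZ P N M (u - t) * ZZ P N M (t - t') * ZZ P N M (t' - u)
        = ∑ w ∈ U ×ˢ W ×ˢ W, (ω w.1 : ℂ) *
          (ZZ P N M (w.1 - w.2.1) * ZZ P N M (w.2.1 - w.2.2) * ZZ P N M (w.2.2 - w.1)) := by
      simp only [sum_product, mul_sum]
    rw [l1]
    simp only [hR, ft, mul3']
    simp only [mul_sum]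
    rw [sum_comm (s := JJ P ×ˢ JJ P ×ˢ JJ P)]
    refine sum_congr rfl fun w hw => ?_
    obtain ⟨u, t, t'⟩ := w
    simp only [mem_product] at hw
    have a1 := mem_Icc.1 (hU hw.1)
    have a2 := mem_Icc.1 (hW hw.2.1)
    have a3 := mem_Icc.1 (hW hw.2.2)
    simp only at a1 a2 a3 ⊢
    rw [ZZ_eq hP hM (t := u - t) (by rw [abs_lt]; omega),
      ZZ_eq hP hM (t := t - t') (by rw [abs_lt]; omega),
      ZZ_eq hP hM (t := t' - u) (by rw [abs_lt]; omega),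
      show ∀ c x y z : ℂ, c * x * (c * y) * (c * z) = c ^ 3 * (x * y * z) by intros; ring,
      mul3, mul_sum, mul_sum]
    refine sum_congr rfl fun j _ => ?_
    obtain ⟨j1, j2, j3⟩ := j
    simp only
    have b : ee (((u - t : ℤ) : ℝ) * ((j1 : ℝ) / P)) * ee (((t - t' : ℤ) : ℝ) * ((j2 : ℝ) / P))
        * ee (((t' - u : ℤ) : ℝ) * ((j3 : ℝ) / P))
        = ee (u * (((j1 - j3 : ℤ) : ℝ) / P)) * (ee (t * (((j2 - j1 : ℤ) : ℝ) / P))
          * ee (t' * (((j3 - j2 : ℤ) : ℝ) / P))) := by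
      simp only [← ee_add]; congr 1; push_cast; ring
    push_cast at b ⊢
    linear_combination (ω u * (N / P) ^ 3 * ph P N M j1 * ph P N M j2 * ph P N M j3) * b
  rw [e1, reindex3 P (fun j1 j2 j3 => ph P N M j1 * ph P N M j2 * ph P N M j3
        * (ft U (fun u => (ω u : ℂ)) (((j1 - j3 : ℤ) : ℝ) / P)
          * (R (((j2 - j1 : ℤ) : ℝ) / P) * R (((j3 - j2 : ℤ) : ℝ) / P)))), norm_mul, mul_assoc]
  refine mul_le_mul (le_of_eq (by simp)) ?_ (norm_nonneg _) (by positivity)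
  rw [Tri, sum_product_right, mul_sum]
  refine (norm_sum_le _ _).trans (sum_le_sum fun p hp => ?_)
  have hp' := hp
  simp only [Dm, mem_filter, mem_product, mem_XX] at hp'
  have e2 : ∑ z ∈ I3 P p.1 p.2, ph P N M (z + p.1) * ph P N M (z + p.2) * ph P N M z
        * (ft U (fun u => (ω u : ℂ)) (((z + p.1 - z : ℤ) : ℝ) / P)
          * (R (((z + p.2 - (z + p.1) : ℤ) : ℝ) / P) * R (((z - (z + p.2) : ℤ) : ℝ) / P)))
      = ∑ m ∈ MMM M, (ft U (fun u => (ω u : ℂ)) ((p.1 : ℝ) / P)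
          * (R (((p.2 - p.1 : ℤ) : ℝ) / P) * R (-((p.2 : ℝ) / P))))
        * ((cm M m.1 * cm M m.2.1 * cm M m.2.2 : ℝ) * ∑ z ∈ I3 P p.1 p.2,
          ee (N * (m.1 * vv P p.1 + m.2.1 * vv P p.2 + m.2.2) * vv P z)) := by
    simp only [mul_sum]
    rw [sum_comm]
    refine sum_congr rfl fun z _ => ?_
    rw [show z + p.1 - z = p.1 by ring, show z + p.2 - (z + p.1) = p.2 - p.1 by ring,
      show ((z - (z + p.2) : ℤ) : ℝ) / P = -((p.2 : ℝ) / P) by push_cast; ring, mul_comm,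
      ← mul_sum]
    congr 1
    simp only [ph, MMM, mul3]
    refine sum_congr rfl fun m _ => ?_
    obtain ⟨m1, m2, m3⟩ := m
    simp only
    have b : ee (N * (m1 * vv P p.1 + m2 * vv P p.2 + m3) * vv P z)
        = ee (m1 * (N * vv P (z + p.1))) * ee (m2 * (N * vv P (z + p.2)))
          * ee (m3 * (N * vv P z)) := by
      simp only [← ee_add, vv_add]; congr 1; ring
    rw [b]; push_cast; ring
  rw [e2, mul_sum]
  refine (norm_sum_le _ _).trans (sum_le_sum fun m hm => ?_)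
  simp only [MMM, mem_product, mem_Ms] at hm
  simp only
  have k := Kkap hN hM hK hE (β := m.1 * vv P p.1 + m.2.1 * vv P p.2 + m.2.2) (by
    have c1 := abs_mul_vv hP hm.1.2 hp'.1.1.2
    have c2 := abs_mul_vv hP hm.2.1.2 hp'.1.2.2
    have c3 : |(m.2.2 : ℝ)| ≤ M := by exact_mod_cast abs_le.2 hm.2.2.2
    have c4 := abs_add_three (m.1 * vv P p.1) (m.2.1 * vv P p.2) m.2.2
    have : (0 : ℝ) ≤ M := by positivity
    linarith) _ _ ((le_max_left _ (-((P / 2 : ℕ) : ℤ) - p.1)).trans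
        (le_max_left _ (-((P / 2 : ℕ) : ℤ) - p.2)))
      ((min_le_left _ (-((P / 2 : ℕ) : ℤ) + P - p.2)).trans
        (min_le_left _ (-((P / 2 : ℕ) : ℤ) + P - p.1)))
  have c : ‖((cm M m.1 * cm M m.2.1 * cm M m.2.2 : ℝ) : ℂ)‖ ≤ 1 := by
    have := cm_nonneg M m.1
    have := cm_nonneg M m.2.1
    have := cm_nonneg M m.2.2
    rw [Complex.norm_real, Real.norm_eq_abs, abs_of_nonneg (by positivity)]
    exact mul_le_one₀ (mul_le_one₀ (cm_le_one _ _) (cm_nonneg _ _) (cm_le_one _ _))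
      (cm_nonneg _ _) (cm_le_one _ _)
  rw [norm_mul, norm_mul, norm_mul, norm_mul]
  have d : ‖R (-((p.2 : ℝ) / P))‖ = fr W (fun _ => 1) ((p.2 : ℝ) / P) := fr_neg W _ _
  rw [d]
  have := fr_nonneg U ω ((p.1 : ℝ) / P)
  have := fr_nonneg W (fun _ => 1) (((p.2 - p.1 : ℤ) : ℝ) / P)
  have := fr_nonneg W (fun _ => 1) ((p.2 : ℝ) / P)
  calc _ ≤ fr U ω ((p.1 : ℝ) / P) * (fr W (fun _ => 1) (((p.2 - p.1 : ℤ) : ℝ) / P)
        * fr W (fun _ => 1) ((p.2 : ℝ) / P)) * (1 * (2000 * P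
          * kap N (m.1 * vv P p.1 + m.2.1 * vv P p.2 + m.2.2))) :=
        mul_le_mul_of_nonneg_left (mul_le_mul c k (norm_nonneg _) zero_le_one) (by positivity)
    _ = _ := by ring

lemma S2_half {Λ B : ℝ} (hL : Loss Λ B) {P N M T : ℕ} (hN : 0 < N) (hM : 0 < M)
    (hK : (2000 * (N * M)) ^ 2 ≤ P) (hE : 2 ∣ P) (hT : 12 * T * M ≤ P)
    (hB : ((P * (M + 2) : ℕ) : ℝ) ≤ B) {A : ℤ} {W U : Finset ℤ} (hW : W ⊆ Icc A (A + T))
    (hU : U ⊆ Icc (A - T) (A + 2 * T)) (ω : ℤ → ℝ) (hω : ∀ u ∈ U, 0 ≤ ω u) (σ : ℝ) (hσ : |σ| = 1)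
    (c : ℕ → ℝ) (hc : ∀ p, |c p| ≤ 1) :
    ∑ u ∈ U, ω u * ∑ t ∈ W, ‖(N / P : ℂ) * ∑ j ∈ JJ P,
        (∑ p ∈ Icc 1 M, (c p : ℂ) * ee (σ * p * (N * vv P j)))
          * ee (((u - t : ℤ) : ℝ) * ((j : ℝ) / P))‖ ^ 2
      ≤ 2000 * Λ ^ 2 * N * (√(Qf U ω M) * √(Qf W (fun _ => 1) M)) := by
  have hNM : 1 ≤ N * M := Nat.mul_pos hN hM
  have hK' : N * M ≤ P := le_trans (by nlinarith) hK
  have hP : 0 < P := by omega
  have hN' : (0 : ℝ) < N := by exact_mod_cast hN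
  have hP' : (0 : ℝ) < P := by exact_mod_cast hP
  set ψ : ℤ → ℂ := fun j => ∑ p ∈ Icc 1 M, (c p : ℂ) * ee (σ * p * (N * vv P j)) with hψ
  set R := ft W (fun _ => ((1 : ℝ) : ℂ)) with hR
  have e1 : ((∑ u ∈ U, ω u * ∑ t ∈ W, ‖(N / P : ℂ) * ∑ j ∈ JJ P,
        ψ j * ee (((u - t : ℤ) : ℝ) * ((j : ℝ) / P))‖ ^ 2 : ℝ) : ℂ)
      = (N / P : ℂ) ^ 2 * ∑ j ∈ JJ P ×ˢ JJ P, ψ j.1 * (starRingEnd ℂ) (ψ j.2)
        * (ft U (fun u => (ω u : ℂ)) (((j.1 - j.2 : ℤ) : ℝ) / P)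
          * R (-(((j.1 - j.2 : ℤ) : ℝ) / P))) := by
    have l1 : ∀ s : ℤ, ((‖(N / P : ℂ) * ∑ j ∈ JJ P, ψ j * ee ((s : ℝ) * ((j : ℝ) / P))‖ ^ 2 : ℝ) : ℂ)
        = (N / P : ℂ) ^ 2 * ∑ j ∈ JJ P ×ˢ JJ P, ψ j.1 * (starRingEnd ℂ) (ψ j.2)
          * ee ((s : ℝ) * (((j.1 - j.2 : ℤ) : ℝ) / P)) := by
      intro s
      push_cast
      rw [← Complex.mul_conj', map_mul, map_sum, map_div₀, map_natCast, map_natCast,
        show ∀ c x y : ℂ, c * x * (c * y) = c ^ 2 * (x * y) by intros; ring, sum_mul_sum,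
        ← sum_product']
      congr 1
      refine sum_congr rfl fun j _ => ?_
      rw [map_mul, conj_ee, show (s : ℝ) * ((j.1 - j.2) / P) = s * (j.1 / P) + -(s * (j.2 / P)) by
        ring, ee_add]
      ring
    simp only [Complex.ofReal_sum, Complex.ofReal_mul, l1]
    simp only [hR, ft, sum_mul_sum]
    simp only [mul_sum]
    rw [sum_comm (s := JJ P ×ˢ JJ P)]
    refine sum_congr rfl fun u _ => ?_
    rw [sum_comm (s := JJ P ×ˢ JJ P)]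
    refine sum_congr rfl fun t _ => sum_congr rfl fun j _ => ?_
    rw [show ((u - t : ℤ) : ℝ) * (((j.1 - j.2 : ℤ) : ℝ) / P) = u * (((j.1 - j.2 : ℤ) : ℝ) / P)
      + t * -(((j.1 - j.2 : ℤ) : ℝ) / P) by push_cast; ring, ee_add]
    push_cast; ring
  rw [reindex2 P (fun j1 j2 => ψ j1 * (starRingEnd ℂ) (ψ j2)
        * (ft U (fun u => (ω u : ℂ)) (((j1 - j2 : ℤ) : ℝ) / P)
          * R (-(((j1 - j2 : ℤ) : ℝ) / P))))] at e1
  have h3 := congrArg norm e1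
  rw [Complex.norm_real, Real.norm_eq_abs] at h3
  refine (le_abs_self _).trans (h3.le.trans ?_)
  set k : ℤ → ℝ := fun x => ∑ z ∈ Icc 1 M ×ˢ Icc 1 M, kap N (z.2 * vv P x - z.1) with hk
  have hk0 : ∀ x, 0 ≤ k x := fun x => sum_nonneg fun _ _ => kap_nonneg _ _
  have h4 : ∀ x ∈ XX P, ‖∑ z ∈ I2 P x, ψ (z + x) * (starRingEnd ℂ) (ψ z)
        * (ft U (fun u => (ω u : ℂ)) (((z + x - z : ℤ) : ℝ) / P)
          * R (-(((z + x - z : ℤ) : ℝ) / P)))‖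
      ≤ 2000 * P * (fr U ω ((x : ℝ) / P) * fr W (fun _ => 1) ((x : ℝ) / P) * k x) := by
    intro x hx
    rw [mem_XX] at hx
    simp only [add_sub_cancel_left]
    rw [← sum_mul, norm_mul, norm_mul]
    have d : ‖R (-((x : ℝ) / P))‖ = fr W (fun _ => 1) ((x : ℝ) / P) := fr_neg W _ _
    rw [d]
    have e2 : ∑ z ∈ I2 P x, ψ (z + x) * (starRingEnd ℂ) (ψ z)
        = ∑ w ∈ Icc 1 M ×ˢ Icc 1 M, ((c w.1 * c w.2 : ℝ) : ℂ)
          * ∑ z ∈ I2 P x, ee (N * (σ * (w.2 * vv P x - w.1)) * vv P z) := by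
      simp only [mul_sum]
      rw [sum_comm]
      refine sum_congr rfl fun z _ => ?_
      simp only [hψ, map_sum, map_mul, conj_ee, Complex.conj_ofReal]
      rw [mul_comm, sum_mul_sum, ← sum_product']
      refine sum_congr rfl fun w _ => ?_
      rw [show N * (σ * (w.2 * vv P x - w.1)) * vv P z = -(σ * w.1 * (N * vv P z))
        + σ * w.2 * (N * vv P (z + x)) by rw [vv_add]; ring, ee_add]
      push_cast; ring
    have e3 : ‖∑ z ∈ I2 P x, ψ (z + x) * (starRingEnd ℂ) (ψ z)‖ ≤ 2000 * P * k x := by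
      rw [e2, hk, mul_sum]
      refine (norm_sum_le _ _).trans (sum_le_sum fun w hw => ?_)
      simp only [mem_product, mem_Icc] at hw
      have k1 := Kkap hN hM hK hE (β := σ * (w.2 * vv P x - w.1)) (by
        have c1 := abs_mul_vv (M := M) hP (m := w.2) (x := x) (by omega) hx.2
        have c2 : (w.1 : ℝ) ≤ M := by exact_mod_cast hw.1.2
        have c3 := abs_sub ((w.2 : ℝ) * vv P x) w.1
        rw [Nat.abs_cast] at c3
        rw [abs_mul, hσ, one_mul]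
        push_cast at c1
        have : (0 : ℝ) ≤ M := by positivity
        linarith) _ _ (le_max_left _ (-((P / 2 : ℕ) : ℤ) - x))
        (min_le_left _ (-((P / 2 : ℕ) : ℤ) + P - x))
      have k2 : kap N (σ * (w.2 * vv P x - w.1)) = kap N (w.2 * vv P x - w.1) := by
        simp only [kap, abs_mul, hσ, one_mul]
      rw [k2] at k1
      rw [norm_mul, Complex.norm_real, Real.norm_eq_abs, abs_mul]
      exact (mul_le_mul (mul_le_one₀ (hc _) (abs_nonneg _) (hc _)) k1 (norm_nonneg _)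
        zero_le_one).trans (le_of_eq (one_mul _))
    have := fr_nonneg U ω ((x : ℝ) / P)
    have := fr_nonneg W (fun _ => 1) ((x : ℝ) / P)
    calc _ ≤ 2000 * P * k x * (fr U ω ((x : ℝ) / P) * fr W (fun _ => 1) ((x : ℝ) / P)) :=
          mul_le_mul_of_nonneg_right e3 (by positivity)
      _ = _ := by ring
  have h5 := (norm_sum_le _ _).trans (sum_le_sum h4)
  rw [← mul_sum] at h5
  have s1 := S2k hL (T := 3 * T) hN hM hK' (by nlinarith) hB (A - T) U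
    (hU.trans (Icc_subset_Icc le_rfl (by push_cast; omega))) ω hω
  have s2 := S2k hL (T := T) hN hM hK' (by nlinarith) hB A W hW (fun _ => 1)
    (fun _ _ => zero_le_one)
  have s3 := sum_sq_le_sum_mul_sum_of_sq_le_mul (XX P)
    (r := fun x => fr U ω ((x : ℝ) / P) * fr W (fun _ => 1) ((x : ℝ) / P) * k x)
    (f := fun x => fr U ω ((x : ℝ) / P) ^ 2 * k x)
    (g := fun x => fr W (fun _ => 1) ((x : ℝ) / P) ^ 2 * k x)
    (fun x _ => mul_nonneg (sq_nonneg _) (hk0 x)) (fun x _ => mul_nonneg (sq_nonneg _) (hk0 x))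
    (fun x _ => le_of_eq (by ring))
  have hQ1 := Qf_nonneg U ω M
  have hQ2 := Qf_nonneg W (fun _ => 1) M
  have s4 : ∑ x ∈ XX P, fr U ω ((x : ℝ) / P) * fr W (fun _ => 1) ((x : ℝ) / P) * k x
      ≤ Λ ^ 2 * (P / N) * (√(Qf U ω M) * √(Qf W (fun _ => 1) M)) := by
    refine (le_abs_self _).trans (abs_le_of_sq_le_sq (s3.trans ?_) (by positivity))
    rw [mul_pow, mul_pow (√_), Real.sq_sqrt hQ1, Real.sq_sqrt hQ2]
    calc _ ≤ (Λ ^ 2 * (P / N) * Qf U ω M) * (Λ ^ 2 * (P / N) * Qf W (fun _ => 1) M) :=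
          mul_le_mul s1 s2 (sum_nonneg fun x _ => mul_nonneg (sq_nonneg _) (hk0 x)) (by positivity)
      _ = _ := by ring
  rw [norm_mul]
  calc _ ≤ ((N : ℝ) / P) ^ 2 * (2000 * P * (Λ ^ 2 * (P / N)
        * (√(Qf U ω M) * √(Qf W (fun _ => 1) M)))) :=
        mul_le_mul (le_of_eq (by simp)) (h5.trans (by gcongr)) (norm_nonneg _) (by positivity)
    _ = _ := by field_simp

lemma ph_split (P N M : ℕ) (j : ℤ) : ph P N M j
    = ∑ p ∈ Icc 1 M, (cm M p : ℂ) * ee (1 * p * (N * vv P j))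
      + ∑ p ∈ Icc 1 M, (cm M (-p) : ℂ) * ee (-1 * p * (N * vv P j)) := by
  have hs : Ms M = (Icc 1 M).image (fun d : ℕ => (d : ℤ)) ∪ (Icc 1 M).image (fun d : ℕ => -(d : ℤ)) := by
    ext i
    simp only [mem_Ms, mem_Icc, mem_union, mem_image]
    constructor
    · intro hi
      rcases lt_or_gt_of_ne hi.1 with h | h
      · right; exact ⟨(-i).toNat, by omega, by omega⟩
      · left; exact ⟨i.toNat, by omega, by omega⟩
    · rintro (⟨a, h1, rfl⟩ | ⟨a, h1, rfl⟩) <;> omega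
  rw [ph, hs, sum_union, sum_image (by intro a _ b _ h; simpa using h),
    sum_image (by intro a _ b _ h; simpa using h)]
  · simp
  · rw [disjoint_left]
    intro i h1 h2
    simp only [mem_image, mem_Icc] at h1 h2
    omega

lemma S2_bound {Λ B : ℝ} (hL : Loss Λ B) {P N M T : ℕ} (hN : 0 < N) (hM : 0 < M)
    (hK : (2000 * (N * M)) ^ 2 ≤ P) (hE : 2 ∣ P) (hT : 12 * T * M ≤ P) (hT' : 2 * T < P)
    (hB : ((P * (M + 2) : ℕ) : ℝ) ≤ B) {A : ℤ} {W U : Finset ℤ} (hW : W ⊆ Icc A (A + T))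
    (hU : U ⊆ Icc (A - T) (A + 2 * T)) (ω : ℤ → ℝ) (hω : ∀ u ∈ U, 0 ≤ ω u) :
    ∑ u ∈ U, ω u * ∑ t ∈ W, ‖ZZ P N M (u - t)‖ ^ 2
      ≤ Λ ^ 3 * N * (√(Qf U ω M) * √(Qf W (fun _ => 1) M)) := by
  have hP : 0 < P := by omega
  have h1 := S2_half hL hN hM hK hE hT hB hW hU ω hω 1 (by simp) (fun p => cm M p)
    (fun p => by rw [abs_of_nonneg (cm_nonneg _ _)]; exact cm_le_one _ _)
  have h2 := S2_half hL hN hM hK hE hT hB hW hU ω hω (-1) (by simp) (fun p => cm M (-p))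
    (fun p => by rw [abs_of_nonneg (cm_nonneg _ _)]; exact cm_le_one _ _)
  have hΛ := hL.big
  refine le_trans ?_ (le_trans (mul_le_mul_of_nonneg_left (add_le_add h1 h2) zero_le_two) ?_)
  · rw [← sum_add_distrib, mul_sum]
    refine sum_le_sum fun u hu => ?_
    rw [← mul_add, mul_left_comm, ← sum_add_distrib, mul_sum W _ 2]
    refine mul_le_mul_of_nonneg_left (sum_le_sum fun t ht => ?_) (hω u hu)
    have a1 := mem_Icc.1 (hU hu)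
    have a2 := mem_Icc.1 (hW ht)
    rw [ZZ_eq hP hM (t := u - t) (by rw [abs_lt]; omega)]
    simp only [ph_split, add_mul, sum_add_distrib, mul_add]
    refine (pow_le_pow_left₀ (norm_nonneg _) (norm_add_le _ _) 2).trans ?_
    exact (add_sq_le).trans (le_of_eq (by ring))
  · have : 0 ≤ Λ ^ 2 * N * (√(Qf U ω M) * √(Qf W (fun _ => 1) M)) := by positivity
    nlinarith

/-- Side conditions on the parameters of the kernel. -/
structure Par (B : ℝ) (P N M H T : ℕ) : Prop where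
  hP : P = 80 * N * M * H
  hN : 0 < N
  hM : 0 < M
  hT : T + 1 ≤ N * M
  hK : (2000 * (N * M)) ^ 2 ≤ P
  hB : ((100 * P * (M + 2) : ℕ) : ℝ) ≤ B

lemma Par.basic {B : ℝ} {P N M H T : ℕ} (h : Par B P N M H T) :
    0 < H ∧ 20 * N * T ≤ P ∧ 2 ∣ P ∧ 12 * T * M ≤ P ∧ 3 * T < P ∧ 2000 * (N * M) ≤ P ∧
      ((P * (M + 2) : ℕ) : ℝ) ≤ B ∧ 100 * (P : ℝ) ≤ B := by
  obtain ⟨hP, hN, hM, hT, hK, hB⟩ := h
  have hNM : 1 ≤ N * M := Nat.mul_pos hN hM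
  have h1 : N ≤ N * M := Nat.le_mul_of_pos_right N hM
  have h2 : M ≤ N * M := Nat.le_mul_of_pos_left M hN
  have h3 : T ≤ N * M := by omega
  have h4 : N * T ≤ (N * M) * (N * M) := Nat.mul_le_mul h1 h3
  have h5 : T * M ≤ (N * M) * (N * M) := Nat.mul_le_mul h3 h2
  have h6 : N * M ≤ (N * M) * (N * M) := Nat.le_mul_of_pos_left _ hNM
  have h7 : 4000000 * ((N * M) * (N * M)) ≤ P := le_trans (le_of_eq (by ring)) hK
  refine ⟨?_, by nlinarith, ⟨40 * N * M * H, by rw [hP]; ring⟩, by nlinarith, by omega, by omega,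
    le_trans ?_ hB, le_trans ?_ hB⟩
  · rcases Nat.eq_zero_or_pos H with h0 | h0
    · rw [h0] at hP; omega
    · exact h0
  · exact_mod_cast (by nlinarith : P * (M + 2) ≤ 100 * P * (M + 2))
  · exact_mod_cast (by nlinarith : 100 * P ≤ 100 * P * (M + 2))

lemma T2gen {Λ B : ℝ} (hL : Loss Λ B) {P N M H T : ℕ} (hp : Par B P N M H T) {V : ℝ} (hV : 1 ≤ V)
    {a : ℕ → ℂ} {W U : Finset ℤ} (h : LV N V a W) {A : ℤ} (hW : W ⊆ Icc A (A + T))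
    (hU : U ⊆ Icc (A - T) (A + 2 * T)) (hWU : W ⊆ U) (ω : ℤ → ℝ) (hω : ∀ u ∈ U, 0 ≤ ω u)
    (hω1 : ∀ u ∈ W, 1 ≤ ω u) (hWV : 10240 * (N : ℝ) ^ 2 ≤ #W * V ^ 2) (Z : ℝ)
    (hZ : Tri P N M (fun x y => fr U ω ((x : ℝ) / P)
        * (fr W (fun _ => 1) (((y - x : ℤ) : ℝ) / P) * fr W (fun _ => 1) ((y : ℝ) / P)))
        ≤ Λ ^ 8 / N * (P ^ 2 * Z)) :
    (#W : ℝ) ^ 3 * V ^ 6 ≤ Λ ^ 13 * N ^ 5 * (√(Qf U ω M) * √(Qf W (fun _ => 1) M) + Z) := by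
  obtain ⟨b1, b2, b3, b4, b5, b6, b7, b8⟩ := hp.basic
  have hΛ := hL.big
  have hN' : (0 : ℝ) < N := by exact_mod_cast hp.hN
  have hP' : (0 : ℝ) < P := by exact_mod_cast (by omega : 0 < P)
  have t1 := trace_lower hp.hP hp.hN hp.hM b1 hp.hT b2 hV h hW hWV
  have t2 := S2_bound hL hp.hN hp.hM hp.hK b3 b4 (by omega) b7 hW hU ω hω
  have t3 := S3_bound hp.hN hp.hM hp.hK b3 (by omega) hW hU ω
  set X : ℤ → ℝ := fun u => ∑ j ∈ JJ P, mu P N M j * ‖gam P N M W u j‖ ^ 2 with hX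
  have hX0 : ∀ u, 0 ≤ X u := fun u =>
    sum_nonneg fun j _ => mul_nonneg (mu_nonneg _ _ _ _) (sq_nonneg _)
  have t4 : ∑ u ∈ W, X u ≤ ∑ u ∈ U, ω u * X u :=
    (sum_le_sum fun u hu => le_mul_of_one_le_left (hX0 u) (hω1 u hu)).trans
      (sum_le_sum_of_subset_of_nonneg hWU fun u hu _ => mul_nonneg (hω u hu) (hX0 u))
  have t5 : ((∑ u ∈ U, ω u * X u : ℝ) : ℂ) = ∑ u ∈ U, (ω u : ℂ) * ∑ t ∈ W, ∑ t' ∈ W,
        ZZ P N M (u - t) * ZZ P N M (t - t') * ZZ P N M (t' - u)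
      + ((N * ∑ u ∈ U, ω u * ∑ t ∈ W, ‖ZZ P N M (u - t)‖ ^ 2 : ℝ) : ℂ) := by
    rw [mul_sum U, Complex.ofReal_sum, Complex.ofReal_sum, ← sum_add_distrib]
    refine sum_congr rfl fun u _ => ?_
    rw [Complex.ofReal_mul, hX, trace_id]
    push_cast; ring
  have t6 := congrArg norm t5
  rw [Complex.norm_real, Real.norm_eq_abs] at t6
  have t7 := (le_abs_self _).trans (t6.le.trans (norm_add_le _ _))
  rw [Complex.norm_real, Real.norm_eq_abs, abs_of_nonneg (mul_nonneg hN'.le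
    (sum_nonneg fun u hu => mul_nonneg (hω u hu) (by positivity)))] at t7
  set q := √(Qf U ω M) * √(Qf W (fun _ => 1) M) with hq
  have hq0 : 0 ≤ q := by positivity
  have hZ0 : 0 ≤ Z := by
    have a1 : 0 ≤ Tri P N M (fun x y => fr U ω ((x : ℝ) / P)
        * (fr W (fun _ => 1) (((y - x : ℤ) : ℝ) / P) * fr W (fun _ => 1) ((y : ℝ) / P))) :=
      sum_nonneg fun _ _ => mul_nonneg (mul_nonneg (fr_nonneg _ _ _)
        (mul_nonneg (fr_nonneg _ _ _) (fr_nonneg _ _ _))) (kap_nonneg _ _)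
    have a2 := a1.trans hZ
    by_contra hc
    push Not at hc
    have : Λ ^ 8 / N * (P ^ 2 * Z) < 0 :=
      mul_neg_of_pos_of_neg (by positivity) (mul_neg_of_pos_of_neg (by positivity) hc)
    linarith
  have t8 : (#W * V ^ 2 / (5120 * N)) ^ 3 / 16 ≤ 2000 * Λ ^ 8 * N ^ 2 * Z + N * (Λ ^ 3 * N * q) := by
    refine t1.trans (t4.trans (t7.trans (add_le_add (t3.trans ?_) (by gcongr))))
    calc _ ≤ ((N : ℝ) / P) ^ 3 * (2000 * P) * (Λ ^ 8 / N * (P ^ 2 * Z)) := by gcongr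
      _ = _ := by field_simp
  have t9 : (#W : ℝ) ^ 3 * V ^ 6
      = 2147483648000 * N ^ 3 * ((#W * V ^ 2 / (5120 * N)) ^ 3 / 16) := by
    field_simp; ring
  have u1 : (2147483648000 : ℝ) ≤ Λ ^ 4 :=
    le_trans (by norm_num) (pow_le_pow_left₀ (by norm_num) hΛ 4)
  have u2 : Λ ^ 3 ≤ Λ ^ 9 := pow_le_pow_right₀ (by linarith) (by norm_num)
  calc _ ≤ Λ ^ 4 * N ^ 3 * (2000 * Λ ^ 8 * N ^ 2 * Z + N * (Λ ^ 3 * N * q)) := by
        rw [t9]; gcongr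
    _ ≤ Λ ^ 4 * N ^ 3 * (Λ * Λ ^ 8 * N ^ 2 * Z + N * (Λ ^ 9 * N * q)) := by gcongr; linarith
    _ = _ := by ring

end Pool.Agent.Lib.MP_a93a41_nt.GM
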