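import Pool.Agent.Lib.MP_a93a41_nt.GM7

/-! The two forms of the trace inequality. -/

namespace Pool.Agent.Lib.MP_a93a41_nt.GM

open Finset Real Pool.Agent.Lib.LargeSieve

lemma pars_fr {P T : ℕ} (hT : T < P) {A : ℤ} {U : Finset ℤ} (hU : U ⊆ Icc A (A + T)) (c : ℤ → ℝ) :
    ∑ x ∈ XX P, fr U c ((x : ℝ) / P) ^ 2 ≤ 2 * P * ∑ u ∈ U, c u ^ 2 := by
  have := parseval2 P A T hT U hU (fun u => (c u : ℂ))
  simpa [fr, XX] using this

lemma fr_even (P : ℕ) (U : Finset ℤ) (c : ℤ → ℝ) (x : ℤ) :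
    fr U c (((-x : ℤ) : ℝ) / P) = fr U c ((x : ℝ) / P) := by
  rw [← fr_neg]; congr 1; push_cast; ring

theorem T2 {Λ B : ℝ} (hL : Loss Λ B) {P N M H T : ℕ} (hp : Par B P N M H T) {V : ℝ} (hV : 1 ≤ V)
    {a : ℕ → ℂ} {W U : Finset ℤ} (h : LV N V a W) {A : ℤ} (hW : W ⊆ Icc A (A + T))
    (hU : U ⊆ Icc (A - T) (A + 2 * T)) (hWU : W ⊆ U) (ω : ℤ → ℝ) (hω : ∀ u ∈ U, 0 ≤ ω u)
    (hω1 : ∀ u ∈ W, 1 ≤ ω u) (hWV : 10240 * (N : ℝ) ^ 2 ≤ #W * V ^ 2) (A1 : ℝ)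
    (hA1 : ∑ x ∈ XX P, fr U ω ((x : ℝ) / P) ≤ P * A1) :
    (#W : ℝ) ^ 3 * V ^ 6 ≤ Λ ^ 13 * N ^ 5 * (√(Qf U ω M) * √(Qf W (fun _ => 1) M)
      + (M ^ 2 * (A1 * #W) + M * (√(∑ u ∈ U, ω u ^ 2) * √(En W T)))) := by
  obtain ⟨b1, b2, b3, b4, b5, b6, b7, b8⟩ := hp.basic
  have hP : 0 < P := by omega
  have hΛ := hL.big
  refine T2gen hL hp hV h hW hU hWU ω hω hω1 hWV _ ?_
  set f : ℤ → ℝ := fun x => fr U ω ((x : ℝ) / P) with hf
  set b : ℤ → ℝ := fun x => fr W (fun _ => 1) ((x : ℝ) / P) with hb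
  have hf0 : ∀ x, 0 ≤ f x := fun x => fr_nonneg _ _ _
  have h1 : Tri P N M (fun x y => f x * (b (y - x) * b y))
      ≤ Tri P N M (fun x y => f x * b y ^ 2 + f x * b (y - x) ^ 2) := by
    refine Tri_mono _ _ _ fun x y => ?_
    rw [← mul_add]
    exact mul_le_mul_of_nonneg_left (by nlinarith [sq_nonneg (b y - b (y - x))]) (hf0 x)
  rw [Tri_add] at h1
  have h2 := triA P N M f (fun x => b x ^ 2) hf0 fun _ => sq_nonneg _
  have h3 := triB hP N M f (fun x => b x ^ 2) hf0 (fun _ => sq_nonneg _) (fr_even P U ω)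
  have h4 := BL hL hp.hN hp.hM b6 b8 f (fun x => b x ^ 2) hf0 fun _ => sq_nonneg _
  have s1 : ∑ x ∈ XX P, b x ^ 2 ≤ 2 * P * #W := by
    simpa using pars_fr (P := P) (T := T) (by omega) hW (fun _ => 1)
  have s2 : ∑ x ∈ XX P, f x ^ 2 ≤ 2 * P * ∑ u ∈ U, ω u ^ 2 :=
    pars_fr (T := 3 * T) b5 (A := A - T) (hU.trans (Icc_subset_Icc le_rfl (by push_cast; omega))) ω
  have s3 : ∑ x ∈ XX P, (b x ^ 2) ^ 2 ≤ 2 * P * En W T := by
    have := pars_fr (P := P) (T := 2 * T) (by omega) (A := -T) (U := Icc (-(T : ℤ)) T)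
      (Icc_subset_Icc le_rfl (by push_cast; omega)) (rr W)
    simp only [rr_fr W _ (diff_mem hW)] at this
    exact this
  have s4 : √(∑ x ∈ XX P, f x ^ 2) * √(∑ x ∈ XX P, (b x ^ 2) ^ 2)
      ≤ 2 * P * (√(∑ u ∈ U, ω u ^ 2) * √(En W T)) := by
    calc _ ≤ √(2 * P * ∑ u ∈ U, ω u ^ 2) * √(2 * P * En W T) := by gcongr
      _ = (√(2 * P) * √(2 * P)) * (√(∑ u ∈ U, ω u ^ 2) * √(En W T)) := by
          rw [Real.sqrt_mul (by positivity : (0 : ℝ) ≤ 2 * P),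
            Real.sqrt_mul (by positivity : (0 : ℝ) ≤ 2 * P) (En W T)]; ring
      _ = _ := by rw [Real.mul_self_sqrt (by positivity)]
  have s5 : (∑ x ∈ XX P, f x) * ∑ x ∈ XX P, b x ^ 2 ≤ (P * A1) * (2 * P * #W) :=
    mul_le_mul hA1 s1 (by positivity) ((sum_nonneg fun x _ => hf0 x).trans hA1)
  have hA0 : 0 ≤ A1 := by
    have := (sum_nonneg fun x _ => hf0 x).trans hA1
    have hP' : (0 : ℝ) < P := by exact_mod_cast hP
    exact nonneg_of_mul_nonneg_right this hP'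
  have h5 : BLs P N M f (fun x => b x ^ 2) ≤ Λ ^ 7 / N * (M ^ 2 * ((P * A1) * (2 * P * #W))
      + M * P * (2 * P * (√(∑ u ∈ U, ω u ^ 2) * √(En W T)))) := h4.trans (by gcongr)
  calc _ ≤ 577 * BLs P N M f (fun x => b x ^ 2) := by linarith
    _ ≤ 577 * (Λ ^ 7 / N * (M ^ 2 * ((P * A1) * (2 * P * #W))
      + M * P * (2 * P * (√(∑ u ∈ U, ω u ^ 2) * √(En W T))))) := by gcongr
    _ = 1154 * Λ ^ 7 / N * (P ^ 2 * (M ^ 2 * (A1 * #W)
        + M * (√(∑ u ∈ U, ω u ^ 2) * √(En W T)))) := by ring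
    _ ≤ Λ * Λ ^ 7 / N * (P ^ 2 * (M ^ 2 * (A1 * #W)
        + M * (√(∑ u ∈ U, ω u ^ 2) * √(En W T)))) := by gcongr; linarith
    _ = _ := by ring

lemma cube3 {x y z : ℝ} (hx : 0 ≤ x) (hy : 0 ≤ y) (hz : 0 ≤ z) :
    x * y * z ≤ x ^ 3 + y ^ 3 + z ^ 3 := by
  nlinarith [mul_nonneg hx (sq_nonneg (y - z)), mul_nonneg hy (sq_nonneg (x - z)),
    mul_nonneg hz (sq_nonneg (x - y)), mul_nonneg hx (sq_nonneg (x - y)),
    mul_nonneg hy (sq_nonneg (y - z)), mul_nonneg hz (sq_nonneg (z - x)),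
    mul_nonneg hx (sq_nonneg (x - z)), mul_nonneg hy (sq_nonneg (y - x)),
    mul_nonneg hz (sq_nonneg (z - y)), pow_nonneg hx 3, pow_nonneg hy 3, pow_nonneg hz 3]

theorem T1 {Λ B : ℝ} (hL : Loss Λ B) {P N M H T : ℕ} (hp : Par B P N M H T) {V : ℝ} (hV : 1 ≤ V)
    {a : ℕ → ℂ} {W : Finset ℤ} (h : LV N V a W) {A : ℤ} (hW : W ⊆ Icc A (A + T))
    (hWV : 10240 * (N : ℝ) ^ 2 ≤ #W * V ^ 2) (ρ S : ℝ) (hρ : 0 < ρ) (hρ4 : #W ≤ ρ ^ 4)
    (hS : 0 ≤ S) (hS4 : (#W : ℝ) ^ 3 * E4 W T ≤ S ^ 4) :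
    (#W : ℝ) ^ 3 * V ^ 6 ≤ Λ ^ 13 * N ^ 5 * (Qf W (fun _ => 1) M
      + 2 * (M ^ 2 * ρ ^ 6 + M * S)) := by
  obtain ⟨b1, b2, b3, b4, b5, b6, b7, b8⟩ := hp.basic
  have hP : 0 < P := by omega
  have hΛ := hL.big
  rw [← Real.mul_self_sqrt (Qf_nonneg W (fun _ => 1) M)]
  refine T2gen hL hp hV h hW (hW.trans (Icc_subset_Icc (by omega) (by omega))) subset_rfl
    (fun _ => 1) (fun _ _ => zero_le_one) (fun _ _ => le_rfl) hWV _ ?_
  set b : ℤ → ℝ := fun x => fr W (fun _ => 1) ((x : ℝ) / P) with hb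
  have hb0 : ∀ x, 0 ≤ b x := fun x => fr_nonneg _ _ _
  set g : ℤ → ℝ := fun x => √(b x) ^ 3 with hg
  have hg0 : ∀ x, 0 ≤ g x := fun x => by positivity
  have hge : ∀ x, g (-x) = g x := fun x => by simp only [hg, hb, fr_even]
  have hsq : ∀ x, √(b x) ^ 2 = b x := fun x => Real.sq_sqrt (hb0 x)
  have h1 : Tri P N M (fun x y => b x * (b (y - x) * b y))
      ≤ Tri P N M (fun x y => (g x * g y + g x * g (y - x)) + g y * g (y - x)) := by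
    refine Tri_mono _ _ _ fun x y => ?_
    have := cube3 (x := √(b x) * √(b y)) (y := √(b x) * √(b (y - x)))
      (z := √(b y) * √(b (y - x))) (by positivity) (by positivity) (by positivity)
    simp only [hg]
    calc _ = √(b x) ^ 2 * (√(b (y - x)) ^ 2 * √(b y) ^ 2) := by rw [hsq, hsq, hsq]
      _ ≤ _ := by linarith
  rw [Tri_add, Tri_add] at h1
  have h2 := triA P N M g g hg0 hg0
  have h3 := triB hP N M g g hg0 hg0 hge
  have h3' := triC hP N M g g hg0 hg0 hge hge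
  have h4 := BL hL hp.hN hp.hM b6 b8 g g hg0 hg0
  have s1 : ∑ x ∈ XX P, b x ^ 2 ≤ 2 * P * #W := by
    simpa using pars_fr (P := P) (T := T) (by omega) hW (fun _ => 1)
  have s2 : ∑ x ∈ XX P, g x ≤ 4 * P * ρ ^ 3 := by
    have a1 : ∀ x ∈ XX P, g x ≤ b x ^ 2 / ρ + ρ ^ 3 := by
      intro x _
      simp only [hg]
      rcases le_total (√(b x)) ρ with c | c
      · exact le_add_of_nonneg_of_le (by positivity) (by gcongr)
      · refine le_add_of_le_of_nonneg ?_ (by positivity)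
        rw [le_div_iff₀ hρ, ← hsq x]
        calc _ ≤ √(b x) ^ 3 * √(b x) := by rw [hsq x]; gcongr
          _ = _ := by ring
    refine (sum_le_sum a1).trans ?_
    rw [sum_add_distrib, ← sum_div, sum_const, nsmul_eq_mul]
    have a2 : (#(XX P) : ℝ) ≤ 2 * P := by
      have : #(XX P) ≤ 2 * P := by rw [XX, Int.card_Ioo]; omega
      exact_mod_cast this
    have a3 : (∑ x ∈ XX P, b x ^ 2) / ρ ≤ 2 * P * ρ ^ 3 := by
      rw [div_le_iff₀ hρ]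
      calc _ ≤ 2 * P * ρ ^ 4 := s1.trans (by gcongr)
        _ = _ := by ring
    have a4 : (#(XX P) : ℝ) * ρ ^ 3 ≤ 2 * P * ρ ^ 3 := by gcongr
    linarith
  have s3 : ∑ x ∈ XX P, g x ^ 2 ≤ 2 * P * S := by
    have a1 : ∀ x, g x ^ 2 = b x ^ 3 := fun x => by
      simp only [hg]; rw [← pow_mul, mul_comm, pow_mul, hsq]
    simp only [a1]
    have a2 := L3_bound (P := P) (T := T) (by omega) hW
    refine le_of_pow_le_pow_left₀ (n := 4) (by norm_num) (by positivity) (a2.trans ?_)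
    rw [mul_pow (2 * (P : ℝ)), mul_assoc]
    gcongr
  rw [Real.mul_self_sqrt (by positivity)] at h4
  have s5 : (∑ x ∈ XX P, g x) * ∑ x ∈ XX P, g x ≤ (4 * P * ρ ^ 3) * (4 * P * ρ ^ 3) :=
    mul_le_mul s2 s2 (sum_nonneg fun x _ => hg0 x) (by positivity)
  have h5 : BLs P N M g g ≤ Λ ^ 7 / N * (M ^ 2 * ((4 * P * ρ ^ 3) * (4 * P * ρ ^ 3))
      + M * P * (16 * P * S)) := h4.trans (by
        gcongr
        exact s3.trans (by gcongr; norm_num))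
  calc _ ≤ 1153 * BLs P N M g g := by linarith
    _ ≤ 1153 * (Λ ^ 7 / N * (M ^ 2 * ((4 * P * ρ ^ 3) * (4 * P * ρ ^ 3))
      + M * P * (16 * P * S))) := by gcongr
    _ = 9224 * Λ ^ 7 / N * (P ^ 2 * (2 * (M ^ 2 * ρ ^ 6 + M * S))) := by ring
    _ ≤ Λ * Λ ^ 7 / N * (P ^ 2 * (2 * (M ^ 2 * ρ ^ 6 + M * S))) := by gcongr; linarith
    _ = _ := by ring

end Pool.Agent.Lib.MP_a93a41_nt.GM
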