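import Pool.Agent.Lib.MP_a93a41_nt.GM8

/-! The estimates in terms of exponents. -/

namespace Pool.Agent.Lib.MP_a93a41_nt.GM

open Finset Real Pool.Agent.Lib.LargeSieve

noncomputable def pw (N : ℕ) (x : ℝ) : ℝ := (N : ℝ) ^ x

structure Env (N : ℕ) (η : ℝ) : Prop where
  hN : 100 ≤ N
  hη : 0 < η
  hη1 : η ≤ 1 / 100000
  hL : Loss (pw N η) (pw N 20)

lemma exists_env {η : ℝ} (hη : 0 < η) (hη1 : η ≤ 1 / 100000) :
    ∃ N0 : ℕ, ∀ N, N0 ≤ N → Env N η := by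
  obtain ⟨C, hC1, hC⟩ := Pool.Agent.Lib.SW.divisor_bound (ε := η / 40) (by linarith)
  have h1 : Filter.Tendsto (fun N : ℕ => (N : ℝ) ^ (η / 2)) Filter.atTop Filter.atTop :=
    (tendsto_rpow_atTop (by linarith)).comp tendsto_natCast_atTop_atTop
  obtain ⟨N0, hN0⟩ := Filter.eventually_atTop.1
    (h1.eventually_ge_atTop (max (max C 10000) (1 + 40 / η)))
  refine ⟨max N0 100, fun N hN => ?_⟩
  have a1 := hN0 N (le_trans (le_max_left _ _) hN)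
  have a2 : 100 ≤ N := le_trans (le_max_right _ _) hN
  have a3 : (1 : ℝ) ≤ N := by exact_mod_cast (by omega : 1 ≤ N)
  simp only [ge_iff_le, max_le_iff] at a1
  have a4 : pw N η = (N : ℝ) ^ (η / 2) * (N : ℝ) ^ (η / 2) := by
    rw [pw, ← Real.rpow_add (by linarith)]; congr 1; ring
  have a5 : 1 ≤ (N : ℝ) ^ (η / 2) := Real.one_le_rpow a3 (by linarith)
  refine ⟨a2, hη, hη1, fun n hn => ?_, ?_, ?_, Real.one_le_rpow a3 (by norm_num)⟩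
  · refine (hC n).trans ?_
    have : (n : ℝ) ^ (η / 40) ≤ (N : ℝ) ^ (η / 2) := by
      refine (Real.rpow_le_rpow (by positivity) hn (by linarith)).trans (le_of_eq ?_)
      rw [pw, ← Real.rpow_mul (by linarith)]; congr 1; ring
    rw [a4]; gcongr; exact a1.1.1
  · rw [pw, pw, Real.log_rpow (by linarith), ← pw, a4]
    have b1 := Real.log_le_rpow_div (x := (N : ℝ)) (ε := η / 2) (by linarith) (by linarith)
    have b2 : (N : ℝ) ^ (η / 2) / (η / 2) * 20 = 40 / η * (N : ℝ) ^ (η / 2) := by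
      field_simp; ring
    nlinarith [a1.2]
  · rw [a4]; nlinarith [a1.1.2]

namespace Env

variable {N : ℕ} {η : ℝ} (E : Env N η)
include E

lemma one_lt : (1 : ℝ) < N := by exact_mod_cast (by have := E.hN; omega : 1 < N)

lemma pos (x : ℝ) : 0 < pw N x := Real.rpow_pos_of_pos (by linarith [E.one_lt]) x

lemma add_eq (x y : ℝ) : pw N (x + y) = pw N x * pw N y := Real.rpow_add (by linarith [E.one_lt]) x y

lemma pow_eq (x : ℝ) (k : ℕ) : pw N x ^ k = pw N (k * x) := by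
  rw [pw, pw, ← Real.rpow_natCast, ← Real.rpow_mul (by positivity), mul_comm]

lemma le_iff {x y : ℝ} : pw N x ≤ pw N y ↔ x ≤ y := Real.rpow_le_rpow_left_iff E.one_lt

lemma mono {X x y : ℝ} (h : X ≤ pw N x) (h' : x ≤ y) : X ≤ pw N y := h.trans (E.le_iff.2 h')

lemma lmono {X x y : ℝ} (h : pw N x ≤ X) (h' : y ≤ x) : pw N y ≤ X := (E.le_iff.2 h').trans h

lemma mul {X Y x y : ℝ} (h : X ≤ pw N x) (h' : Y ≤ pw N y) (h0 : 0 ≤ Y) :
    X * Y ≤ pw N (x + y) := by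
  rw [E.add_eq]; exact mul_le_mul h h' h0 (E.pos x).le

lemma lmul {X Y x y : ℝ} (h : pw N x ≤ X) (h' : pw N y ≤ Y) : pw N (x + y) ≤ X * Y := by
  rw [E.add_eq]; exact mul_le_mul h h' (E.pos y).le ((E.pos x).le.trans h)

lemma pow {X x : ℝ} (h : X ≤ pw N x) (h0 : 0 ≤ X) (k : ℕ) : X ^ k ≤ pw N (k * x) := by
  rw [← E.pow_eq]; exact pow_le_pow_left₀ h0 h k

lemma lpow {X x : ℝ} (h : pw N x ≤ X) (k : ℕ) : pw N (k * x) ≤ X ^ k := by
  rw [← E.pow_eq]; exact pow_le_pow_left₀ (E.pos x).le h k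

lemma c {c : ℝ} (h : c ≤ 10000) : c ≤ pw N η := h.trans E.hL.big

lemma n : (N : ℝ) ≤ pw N 1 := le_of_eq (Real.rpow_one _).symm

lemma one_le {x : ℝ} (h : 0 ≤ x) : 1 ≤ pw N x := Real.one_le_rpow E.one_lt.le h

lemma add {X Y x y z : ℝ} (h : X ≤ pw N x) (h' : Y ≤ pw N y) (h1 : x + η ≤ z) (h2 : y + η ≤ z) :
    X + Y ≤ pw N z := by
  have a1 := E.mono h (y := z - η) (by linarith)
  have a2 := E.mono h' (y := z - η) (by linarith)
  have a3 := E.mul (E.c (c := 2) (by norm_num)) (le_refl (pw N (z - η))) (E.pos _).le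
  rw [add_sub_cancel] at a3
  linarith

lemma sqrt {X x : ℝ} (h : X ≤ pw N x) : √X ≤ pw N (x / 2) := by
  rw [Real.sqrt_le_left (E.pos _).le, E.pow_eq]
  exact E.mono h (by push_cast; linarith)

lemma div {X Y y z : ℝ} (h : X * Y ≤ pw N z) (h' : pw N y ≤ Y) : X ≤ pw N (z - y) := by
  by_contra hc
  push Not at hc
  have a1 := E.pos y
  have a2 := E.add_eq (z - y) y
  rw [sub_add_cancel] at a2
  nlinarith [mul_le_mul_of_nonneg_left h' ((E.pos _).le.trans hc.le)]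

lemma ldiv {X Y y z : ℝ} (h : pw N z ≤ Y * X) (h' : Y ≤ pw N y) (h0 : 0 ≤ X) :
    pw N (z - y) ≤ X := by
  by_contra hc
  push Not at hc
  have a1 := E.pos y
  have a2 := E.add_eq (z - y) y
  rw [sub_add_cancel] at a2
  nlinarith [mul_le_mul_of_nonneg_right h' h0]

lemma root {X x : ℝ} (h : X ^ 2 ≤ pw N x) : X ≤ pw N (x / 2) :=
  (Real.le_sqrt_of_sq_le le_rfl).trans (E.sqrt h)

lemma ceil {x : ℝ} (h : 0 ≤ x) : pw N x ≤ ⌈pw N x⌉₊ ∧ (⌈pw N x⌉₊ : ℝ) ≤ pw N (x + η) := by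
  refine ⟨Nat.le_ceil _, ?_⟩
  have a1 := (Nat.ceil_lt_add_one (E.pos x).le).le
  exact a1.trans (E.add le_rfl (E.one_le h) le_rfl le_rfl)

lemma floor {x : ℝ} (h : 0 ≤ x) : pw N (x - η) ≤ ⌊pw N x⌋₊ ∧ (⌊pw N x⌋₊ : ℝ) ≤ pw N x := by
  refine ⟨?_, Nat.floor_le (E.pos x).le⟩
  refine E.ldiv (Y := 2) ?_ (E.c (by norm_num)) (by positivity)
  have a1 := Nat.lt_floor_add_one (pw N x)
  have a2 : (1 : ℝ) ≤ ⌊pw N x⌋₊ := by
    exact_mod_cast Nat.le_floor (by simpa using E.one_le h)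
  linarith

lemma HB1 (A : ℤ) (T : ℕ) (U : Finset ℤ) (hU : U ⊆ Icc A (A + T)) (c : ℤ → ℝ)
    (hc : ∀ u ∈ U, 0 ≤ c u) (X : ℕ) {α β τ ξ q : ℝ} (ha : ∑ u ∈ U, c u ≤ pw N α)
    (hb : ∑ u ∈ U, c u ^ 2 ≤ pw N β) (hT : (T : ℝ) + 1 ≤ pw N τ) (hX : (X : ℝ) ≤ pw N ξ)
    (h1 : ξ ≤ 9) (h2 : 0 ≤ τ / 2 + β / 4 - α / 2) (h3 : τ / 2 + β / 4 - α / 2 ≤ 4)
    (h4 : 2 * α ≤ q) (h5 : ξ + β ≤ q) (h6 : α / 2 + 3 * β / 4 + τ / 2 ≤ q) :
    Qf U c X ≤ pw N (q + 14 * η) := by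
  have hη := E.hη
  have hη1 := E.hη1
  obtain ⟨y1, y2⟩ := E.ceil h2
  set Y := ⌈pw N (τ / 2 + β / 4 - α / 2)⌉₊
  have hY : 0 < Y := by
    have := (E.pos _).trans_le y1
    exact_mod_cast this
  have := HB E.hL A T U hU c hc X Y hY
    (E.mono (E.mul (E.c (by norm_num)) (E.pow hX (by positivity) 2) (by positivity))
      (by push_cast; linarith))
    (E.mono (E.mul (E.c (by norm_num)) (E.pow y2 (by positivity) 4) (by positivity))
      (by push_cast; linarith)) (pw N α) (pw N β) (pw N (q + η)) ha hb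
    (E.mono (E.pow le_rfl (E.pos _).le 2) (by push_cast; linarith))
    (E.mono (E.mul hX le_rfl (E.pos _).le) (by linarith))
    ((E.mul hT le_rfl (E.pos _).le).trans (E.lmono (E.lmul le_rfl y1) (by linarith)))
    ((E.mul (E.mul (E.pow le_rfl (E.pos _).le 2) le_rfl (E.pos _).le)
      (E.pow y2 (by positivity) 2) (by positivity)).trans
      (E.lmono (E.lpow le_rfl 2) (by push_cast; linarith)))
  exact this.trans (E.mono (E.mul (E.pow le_rfl (E.pos _).le 13) le_rfl (E.pos _).le)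
    (by push_cast; linarith))

lemma Qpow (U : Finset ℤ) (c : ℤ → ℝ) (hc : ∀ u ∈ U, 0 ≤ c u) (X : ℕ) {α ξ q : ℝ}
    (ha : ∑ u ∈ U, c u ≤ pw N α) (hX : (X : ℝ) ≤ pw N ξ) (h1 : ξ ≤ 9)
    (hq : Qf U c (X ^ 2) ≤ pw N q) : Qf U c X ≤ pw N (α + q / 2 + η) := by
  have := power E.hL U c hc X (E.mono (E.pow hX (by positivity) 2) (by push_cast; linarith))
  refine E.mono (E.root (this.trans (E.mul (E.mul (E.pow le_rfl (E.pos _).le 2)
    (E.pow ha (sum_nonneg hc) 2) (sq_nonneg _)) hq (Qf_nonneg _ _ _)))) (by push_cast; linarith)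

lemma HB2 (A : ℤ) (T : ℕ) (U : Finset ℤ) (hU : U ⊆ Icc A (A + T)) (c : ℤ → ℝ)
    (hc : ∀ u ∈ U, 0 ≤ c u) (X : ℕ) {α β τ ξ q : ℝ} (ha : ∑ u ∈ U, c u ≤ pw N α)
    (hb : ∑ u ∈ U, c u ^ 2 ≤ pw N β) (hT : (T : ℝ) + 1 ≤ pw N τ) (hX : (X : ℝ) ≤ pw N ξ)
    (h0 : 0 ≤ ξ) (h1 : 2 * ξ ≤ 9) (h2 : 0 ≤ τ / 2 + β / 4 - α / 2) (h3 : τ / 2 + β / 4 - α / 2 ≤ 4)
    (h4 : 2 * α ≤ q) (h5 : 2 * ξ + β ≤ q) (h6 : α / 2 + 3 * β / 4 + τ / 2 ≤ q) :
    Qf U c X ≤ pw N (α + q / 2 + 8 * η) := by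
  have := E.HB1 A T U hU c hc (X ^ 2) (ξ := 2 * ξ) ha hb hT
    (by push_cast; exact_mod_cast E.pow hX (by positivity) 2) h1 h2 h3 h4 h5 h6
  exact E.mono (E.Qpow U c hc X ha hX (by linarith) this) (by linarith)

lemma HB4 (A : ℤ) (T : ℕ) (U : Finset ℤ) (hU : U ⊆ Icc A (A + T)) (c : ℤ → ℝ)
    (hc : ∀ u ∈ U, 0 ≤ c u) (X : ℕ) {α β τ ξ q : ℝ} (ha : ∑ u ∈ U, c u ≤ pw N α)
    (hb : ∑ u ∈ U, c u ^ 2 ≤ pw N β) (hT : (T : ℝ) + 1 ≤ pw N τ) (hX : (X : ℝ) ≤ pw N ξ)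
    (h0 : 0 ≤ ξ) (h1 : 4 * ξ ≤ 9) (h2 : 0 ≤ τ / 2 + β / 4 - α / 2) (h3 : τ / 2 + β / 4 - α / 2 ≤ 4)
    (h4 : 2 * α ≤ q) (h5 : 4 * ξ + β ≤ q) (h6 : α / 2 + 3 * β / 4 + τ / 2 ≤ q) :
    Qf U c X ≤ pw N (3 * α / 2 + q / 4 + 5 * η) := by
  have := E.HB2 A T U hU c hc (X ^ 2) (ξ := 2 * ξ) ha hb hT
    (by push_cast; exact_mod_cast E.pow hX (by positivity) 2) (by linarith) (by linarith) h2 h3 h4
    (by linarith) h6
  exact E.mono (E.Qpow U c hc X ha hX (by linarith) this) (by linarith)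

lemma par {τ : ℝ} (h1 : 1 ≤ τ) (h2 : τ ≤ 3) : ∃ P M H : ℕ, (M : ℝ) ≤ pw N (τ - 1 + η) ∧
    ∀ T : ℕ, (T : ℝ) + 1 ≤ pw N τ → Par (pw N 20) P N M H T := by
  have hη := E.hη
  have hη1 := E.hη1
  obtain ⟨y1, y2⟩ := E.ceil (x := τ - 1) (by linarith)
  set M := ⌈pw N (τ - 1)⌉₊
  have hM : 0 < M := by
    have := (E.pos _).trans_le y1
    exact_mod_cast this
  refine ⟨(2000 * (N * M)) ^ 2, M, 50000 * (N * M), y2, fun T hT =>
    ⟨by ring, by have := E.hN; omega, hM, ?_, le_rfl, ?_⟩⟩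
  · have a1 := E.lmul (x := 1) (X := N) (le_of_eq (Real.rpow_one _)) y1
    rw [add_sub_cancel] at a1
    exact_mod_cast hT.trans a1
  · have a1 : ((100 * (2000 * (N * M)) ^ 2 * (M + 2) : ℕ) : ℝ) ≤ 10000 ^ 3 * N ^ 2 * M ^ 3 := by
      have : 100 * (2000 * (N * M)) ^ 2 * (M + 2) ≤ 10000 ^ 3 * N ^ 2 * M ^ 3 := by
        calc _ ≤ 100 * (2000 * (N * M)) ^ 2 * (2500 * M) := by gcongr; omega
          _ = _ := by ring
      exact_mod_cast this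
    exact a1.trans (E.mono (E.mul (E.mul (E.pow (E.c le_rfl) (by norm_num) 3)
      (E.pow E.n (by positivity) 2) (by positivity)) (E.pow y2 (by positivity) 3) (by positivity))
      (by push_cast; linarith))

lemma en {V X a b x y s z : ℝ} (h : V ^ 4 * X ≤ a + 2 * V ^ 2 * b) (ha : a ≤ pw N x)
    (hb : b ≤ pw N y) (hV : pw N s ≤ V) (h1 : x - 4 * s + η ≤ z) (h2 : y - 2 * s + 2 * η ≤ z) :
    X ≤ pw N z := by
  have hV0 : 0 < V := (E.pos _).trans_le hV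
  have a1 : X ≤ a / V ^ 4 + 2 * (b / V ^ 2) := by
    have : a / V ^ 4 + 2 * (b / V ^ 2) = (a + 2 * V ^ 2 * b) / V ^ 4 := by field_simp
    rw [this, le_div_iff₀ (by positivity)]; linarith
  have a2 : a / V ^ 4 ≤ pw N (x - 4 * s) :=
    E.div (by rw [div_mul_cancel₀ _ (by positivity)]; exact ha) (by exact_mod_cast E.lpow hV 4)
  have a3 : b / V ^ 2 ≤ pw N (y - 2 * s) :=
    E.div (by rw [div_mul_cancel₀ _ (by positivity)]; exact hb) (by exact_mod_cast E.lpow hV 2)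
  have a4 : 2 * (b / V ^ 2) ≤ pw N (η + (y - 2 * s)) :=
    le_trans (by gcongr) (E.mul (E.c (c := 2) (by norm_num)) le_rfl (E.pos _).le)
  exact a1.trans (E.add a2 a4 h1 (by linarith))

lemma seven : 7 * (N : ℝ) ^ 2 ≤ pw N 20 :=
  E.mono (E.mul (E.c (by norm_num)) (E.pow E.n (by positivity) 2) (by positivity))
    (by push_cast; linarith [E.hη1])

lemma en1 {P M H T : ℕ} (hp : Par (pw N 20) P N M H T) {V σ ρ q e : ℝ} (hV : pw N (σ - η) ≤ V)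
    {a : ℕ → ℂ} {W : Finset ℤ} (h : LV N V a W) {A : ℤ} (hW : W ⊆ Icc A (A + T))
    (hρ : (#W : ℝ) ≤ pw N ρ) (hq : Qf W (fun _ => 1) M ≤ pw N q)
    (h1 : ρ + 4 - 4 * σ + 10 * η ≤ e) (h2 : ρ + 1 + q - 2 * σ + 4 * η ≤ e) : En W T ≤ pw N e :=
  E.en (energy1 E.hL hp.hN hp.hM hp.hT E.seven ((E.pos _).le.trans hV) h hW)
    (E.mul (E.mul (E.mul (E.c (by norm_num)) (E.pow le_rfl (E.pos _).le 4) (by have := E.pos η; positivity))
      (E.pow E.n (by positivity) 4) (by positivity)) hρ (by positivity))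
    (E.mul (E.mul hρ E.n (by positivity)) hq (Qf_nonneg _ _ _)) hV
    (by push_cast; linarith) (by linarith)

lemma en2 {P M H T : ℕ} (hp : Par (pw N 20) P N M H T) {V σ ρ q e e6 : ℝ} (hV : pw N (σ - η) ≤ V)
    {a : ℕ → ℂ} {W : Finset ℤ} (h : LV N V a W) {A : ℤ} (hW : W ⊆ Icc A (A + T))
    (hρ : (#W : ℝ) ≤ pw N ρ) (hq : Qf W (fun _ => 1) M ≤ pw N q) (he : En W T ≤ pw N e)
    (h1 : e + 4 - 4 * σ + 10 * η ≤ e6) (h2 : 3 * ρ + 1 + q - 2 * σ + 4 * η ≤ e6) :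
    ∑ u ∈ Icc (A - T) (A + 2 * T), r3 W u ^ 2 ≤ pw N e6 :=
  E.en (energy2 E.hL hp.hN hp.hM hp.hT E.seven ((E.pos _).le.trans hV) h hW)
    (E.mul (E.mul (E.mul (E.c (by norm_num)) (E.pow le_rfl (E.pos _).le 4) (by have := E.pos η; positivity))
      (E.pow E.n (by positivity) 4) (by positivity)) he (by unfold En; positivity))
    (E.mul (E.mul (E.pow hρ (by positivity) 3) E.n (by positivity)) hq (Qf_nonneg _ _ _)) hV
    (by push_cast; linarith) (by push_cast; linarith)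

end Env

end Pool.Agent.Lib.MP_a93a41_nt.GM
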