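import Pool.Agent.Lib.MP_a93a41_nt.GM5

/-! The positive kernel. -/

namespace Pool.Agent.Lib.MP_a93a41_nt.GM

open Finset Real Pool.Agent.Lib.LargeSieve

noncomputable def JJ (P : ℕ) : Finset ℤ := Ico (-((P / 2 : ℕ) : ℤ)) (-((P / 2 : ℕ) : ℤ) + P)

noncomputable def Phi (M : ℕ) (y : ℝ) : ℝ := ‖∑ l ∈ range M, ee (l * y)‖ ^ 2 / M

noncomputable def mu (P N M : ℕ) (j : ℤ) : ℝ := N / P * Phi M (N * vv P j)

noncomputable def GG (P N M : ℕ) (t : ℤ) : ℂ :=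
  ∑ j ∈ JJ P, (mu P N M j : ℂ) * ee (t * ((j : ℝ) / P))

noncomputable def ZZ (P N M : ℕ) (t : ℤ) : ℂ := GG P N M t - if t = 0 then (N : ℂ) else 0

noncomputable def gam (P N M : ℕ) (W : Finset ℤ) (u j : ℤ) : ℂ :=
  ∑ t ∈ W, ZZ P N M (u - t) * ee (t * ((j : ℝ) / P))

/-- Fourth moment of the difference function. -/
noncomputable def E4 (W : Finset ℤ) (T : ℕ) : ℝ := ∑ s ∈ Icc (-(T : ℤ)) T, rr W s ^ 4

lemma mu_nonneg (P N M : ℕ) (j : ℤ) : 0 ≤ mu P N M j := by unfold mu Phi; positivity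

end Pool.Agent.Lib.MP_a93a41_nt.GM
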