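import Pool.Agent.Lib.MP_a93a41_nt.Basic

set_option autoImplicit false

open Finset Real

namespace Pool.Agent.Lib.MP_a93a41_nt

lemma block_large (n H l : ℕ) (hn : 0 < n) (u θ : ℝ) (hu : u = 2 * π * n * l + θ) (h0 : 0 ≤ θ)
    (h1 : θ * H ≤ n) (h2 : u * H ^ 2 ≤ (n : ℝ) ^ 2) :
    (H : ℝ) / 2 ≤ ‖∑ h ∈ range H, Complex.exp (-(u * Real.log (n + h : ℕ) : ℝ) * Complex.I)‖ := by
  have hn' : (0 : ℝ) < n := by exact_mod_cast hn
  have hu0 : 0 ≤ u := by rw [hu]; positivity
  have e1 : ‖∑ h ∈ range H, Complex.exp (-(u * Real.log (n + h : ℕ) : ℝ) * Complex.I)‖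
      = ‖∑ h ∈ range H,
        Complex.exp ((u * Real.log n - u * Real.log (n + h : ℕ) : ℝ) * Complex.I)‖ := by
    have : ∀ h : ℕ, Complex.exp ((u * Real.log n - u * Real.log (n + h : ℕ) : ℝ) * Complex.I)
        = Complex.exp ((u * Real.log n : ℝ) * Complex.I)
          * Complex.exp (-(u * Real.log (n + h : ℕ) : ℝ) * Complex.I) := fun h => by
      rw [← Complex.exp_add]
      congr 1
      rw [Complex.ofReal_sub]
      ring
    simp only [this]
    rw [← mul_sum, norm_mul, Complex.norm_exp_ofReal_mul_I, one_mul]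
  rw [e1]
  refine le_trans ?_ (Complex.re_le_norm _)
  rw [Complex.re_sum]
  have : (H : ℝ) / 2 = ∑ _h ∈ range H, (1 / 2 : ℝ) := by simp; ring
  rw [this]
  refine sum_le_sum fun h hh => ?_
  rw [Complex.exp_ofReal_mul_I_re]
  have hh' : (h : ℝ) ≤ H := by exact_mod_cast (mem_range.1 hh).le
  have hh0 : (0 : ℝ) ≤ h := Nat.cast_nonneg _
  set x : ℝ := h / n with hx
  have hx0 : 0 ≤ x := by positivity
  have e2 : Real.log (n + h : ℕ) = Real.log n + Real.log (1 + x) := by
    rw [← Real.log_mul hn'.ne' (by positivity)]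
    congr 1
    push_cast
    rw [hx]
    field_simp
  have b1 : Real.log (1 + x) ≤ x := by
    have := Real.log_le_sub_one_of_pos (show 0 < 1 + x by positivity)
    linarith
  have b2 : x - x ^ 2 ≤ Real.log (1 + x) := by
    have h3 := Real.one_sub_inv_le_log_of_pos (show 0 < 1 + x by positivity)
    have h4 : (1 + x)⁻¹ ≤ 1 - x + x ^ 2 := by
      rw [inv_le_iff_one_le_mul₀ (by positivity)]
      nlinarith [pow_nonneg hx0 3]
    linarith
  have e3 : u * Real.log n - u * Real.log (n + h : ℕ)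
      = (u * (x - Real.log (1 + x)) - θ * x) - ((l * h : ℕ) : ℝ) * (2 * π) := by
    rw [e2]
    have : u * x = 2 * π * l * h + θ * x := by
      rw [hu, hx]
      field_simp
    push_cast
    linarith
  rw [e3, Real.cos_sub_nat_mul_two_pi]
  have c1 : θ * x ≤ 1 := by
    rw [hx, ← mul_div_assoc, div_le_one hn']
    nlinarith
  have c2 : u * x ^ 2 ≤ 1 := by
    rw [hx, div_pow, ← mul_div_assoc, div_le_one (by positivity)]
    have : (h : ℝ) ^ 2 ≤ (H : ℝ) ^ 2 := by gcongr
    nlinarith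
  have c3 : 0 ≤ u * (x - Real.log (1 + x)) := mul_nonneg hu0 (by linarith)
  have c4 : u * (x - Real.log (1 + x)) ≤ u * x ^ 2 := mul_le_mul_of_nonneg_left (by linarith) hu0
  have c5 : 0 ≤ θ * x := by positivity
  have c6 := Real.one_sub_sq_div_two_le_cos (x := u * (x - Real.log (1 + x)) - θ * x)
  nlinarith

lemma sum_blocks (N H J : ℕ) (hH : 0 < H) (hJ : 0 < J) (hN : 2 * J * H ≤ N) (g : ℕ → ℂ) :
    ∑ n ∈ Icc 1 N, (if J ≤ n / H ∧ n / H < 2 * J then g n else 0)
      = ∑ j ∈ Ico J (2 * J), ∑ h ∈ range H, g (j * H + h) := by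
  rw [← sum_filter, ← sum_product']
  symm
  refine sum_nbij' (fun q => q.1 * H + q.2) (fun n => (n / H, n % H)) ?_ ?_ ?_ ?_ ?_
  · rintro ⟨j, h⟩ hq
    obtain ⟨h1, h2⟩ := mem_product.1 hq
    obtain ⟨h3, h4⟩ := mem_Ico.1 h1
    have h5 := mem_range.1 h2
    have h6 : (j * H + h) / H = j := by
      rw [add_comm, Nat.add_mul_div_right _ _ hH, Nat.div_eq_of_lt h5, zero_add]
    simp only at h3 h4 h5 ⊢
    refine mem_filter.2 ⟨mem_Icc.2 ⟨?_, ?_⟩, by rw [h6]; exact ⟨h3, h4⟩⟩
    · nlinarith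
    · nlinarith
  · intro n hn
    obtain ⟨-, h1, h2⟩ := mem_filter.1 hn
    exact mem_product.2 ⟨mem_Ico.2 ⟨h1, h2⟩, mem_range.2 (Nat.mod_lt _ hH)⟩
  · rintro ⟨j, h⟩ hq
    have h5 := mem_range.1 (mem_product.1 hq).2
    simp only at h5 ⊢
    rw [add_comm, Nat.add_mul_div_right _ _ hH, Nat.div_eq_of_lt h5, zero_add,
      Nat.add_mul_mod_self_right, Nat.mod_eq_of_lt h5]
  · intro n _
    simp only
    rw [mul_comm]
    exact Nat.div_add_mod _ _
  · intro q _
    rfl

theorem core (H k N : ℕ) (δ : ℝ) (x : ℕ → ℕ) (hx : ∀ d, x d < H)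
    (hA : ∀ l < k, (((range H).image fun d => x d + l * d).card : ℝ) ≤ H * δ) (hk : 1 ≤ k)
    (hδ : (k : ℝ) ^ 2 * δ ≤ 1) (hN : 26 * k * H ^ 2 ≤ N) :
    ∃ a : ℕ → ℂ, (∀ n, ‖a n‖ ≤ 1) ∧ ∃ v : ℝ, ∃ S : Finset ℕ,
      (∀ t ∈ S, t ≤ 7 * k * N ∧
        v ≤ ‖∑ n ∈ Icc 1 N, a n * (n : ℂ) ^ (-(((t : ℝ) : ℂ) * Complex.I))‖ ^ 2) ∧
      (N : ℝ) ≤ 6656 * k * δ * v ∧
      (k : ℝ) * (N : ℝ) ^ 2 ≤ 512 * (1 + Real.log (13 * N)) * (v * S.card) := by
  classical
  have hH0 : 0 < H := (Nat.zero_le _).trans_lt (hx 0)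
  have hN1 : 26 * H ≤ N := by nlinarith [Nat.mul_le_mul hk (Nat.le_self_pow two_ne_zero H)]
  set J := N / (2 * H) with hJ
  set L := N / (8 * H) with hL
  have j1 : 2 * J * H ≤ N := by
    have := Nat.div_mul_le_self N (2 * H)
    nlinarith
  have j2 : N ≤ 4 * (J * H) := by
    have := Nat.lt_div_mul_add (a := N) (b := 2 * H) (by omega)
    nlinarith
  have l1 : 8 * (L * H) ≤ N := by
    have := Nat.div_mul_le_self N (8 * H)
    nlinarith
  have l2 : N ≤ 16 * (L * H) := by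
    have := Nat.lt_div_mul_add (a := N) (b := 8 * H) (by omega)
    nlinarith
  have hJ0 : 0 < J := Nat.pos_of_ne_zero fun h => by rw [h] at j2; omega
  have hL0 : 0 < L := Nat.pos_of_ne_zero fun h => by rw [h] at l2; omega
  have hL0' : (0 : ℝ) < L := by exact_mod_cast hL0
  have hH0' : (0 : ℝ) < H := by exact_mod_cast hH0
  have hN0' : (0 : ℝ) < N := by exact_mod_cast (show 0 < N by omega)
  have hk' : (1 : ℝ) ≤ k := by exact_mod_cast hk
  have j2' : (N : ℝ) ≤ 4 * (J * H) := by exact_mod_cast j2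
  have l1' : 8 * ((L : ℝ) * H) ≤ N := by exact_mod_cast l1
  have l2' : (N : ℝ) ≤ 16 * (L * H) := by exact_mod_cast l2
  have hN' : 26 * (k : ℝ) * (H : ℝ) ^ 2 ≤ N := by exact_mod_cast hN
  have hH1 : (1 : ℝ) ≤ H := by exact_mod_cast hH0
  have pi1 := Real.pi_gt_three
  have pi2 := Real.pi_lt_d2
  set d : ℕ → ℕ := fun j => ⌊2 * π * (j * H : ℕ) / L⌋₊ with hd
  set s : ℕ → ℕ := fun j => L * x (d j % H) with hs
  set f : ℕ → ℕ → ℂ := fun j t => ∑ h ∈ range H,
    Complex.exp (-((((t : ℝ) - s j)) * Real.log (j * H + h : ℕ) : ℝ) * Complex.I) with hf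
  set C : Finset ℕ := (range k).biUnion fun l =>
    (((range H).image fun d => x d + l * d) ×ˢ range 102).image fun q => q.1 + H * (l * q.2)
    with hC
  set W : Finset ℕ := ((C ×ˢ range (L * k)).image fun q => L * q.1 + q.2).filter
    fun t => t ≤ 7 * k * N with hW
  have hδ0 : 0 ≤ δ := by
    have := (Nat.cast_nonneg _).trans (hA 0 hk)
    exact nonneg_of_mul_nonneg_right this hH0'
  have hCc : (C.card : ℝ) ≤ k * (H * δ * 102) := by
    refine le_trans (Nat.cast_le.2 card_biUnion_le) ?_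
    rw [Nat.cast_sum]
    refine le_trans (sum_le_sum (g := fun _ => H * δ * 102) fun l hl => ?_) (by simp)
    refine le_trans (Nat.cast_le.2 card_image_le) ?_
    rw [card_product, card_range, Nat.cast_mul]
    exact mul_le_mul_of_nonneg_right (hA l (mem_range.1 hl)) (by positivity)
  have hWc : (W.card : ℝ) ≤ 13 * N * ((k : ℝ) ^ 2 * δ) := by
    have h1 : (W.card : ℝ) ≤ C.card * (L * k) := by
      have := (card_filter_le _ fun t => t ≤ 7 * k * N).trans
        (card_image_le (s := C ×ˢ range (L * k)) (f := fun q => L * q.1 + q.2))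
      rw [card_product, card_range] at this
      exact_mod_cast this
    have h2 : (C.card : ℝ) * (L * k) ≤ k * (H * δ * 102) * (L * k) := by gcongr
    have h3 : (0 : ℝ) ≤ (k : ℝ) ^ 2 * δ := by positivity
    nlinarith
  have hmass : ∀ j ∈ Ico J (2 * J), (k : ℝ) * L * (H / 2) ^ 2 ≤ ∑ t ∈ W, ‖f j t‖ ^ 2 := by
    intro j hj
    obtain ⟨h3, h4⟩ := mem_Ico.1 hj
    set n := j * H with hn
    have n1 : (N : ℝ) ≤ 4 * n := by
      exact_mod_cast j2.trans (Nat.mul_le_mul_left 4 (Nat.mul_le_mul_right H h3))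
    have n2 : (n : ℝ) ≤ N := by
      exact_mod_cast (Nat.mul_le_mul_right H h4.le).trans j1
    have n0 : (0 : ℝ) < n := by linarith
    have nL : (L : ℝ) ≤ n / 2 := by nlinarith
    have d1 : (d j : ℝ) * L ≤ 2 * π * n := by
      rw [← le_div_iff₀ hL0']
      exact Nat.floor_le (by positivity)
    have d2 : 2 * π * n < ((d j : ℝ) + 1) * L := by
      rw [← div_lt_iff₀ hL0']
      exact Nat.lt_floor_add_one _
    have d3 : d j ≤ 101 * H := by
      have : (d j : ℝ) * L ≤ 101 * H * L := by nlinarith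
      exact_mod_cast le_of_mul_le_mul_right this hL0'
    set g : ℕ × ℕ → ℕ := fun q => s j + ⌈2 * π * n * q.1⌉₊ + q.2 with hg
    have h11 : ∀ q, (g q : ℝ) - s j = ⌈2 * π * n * q.1⌉₊ + q.2 := fun q => by
      simp only [hg]
      push_cast
      ring
    have gb : ∀ q ∈ range k ×ˢ range L, (g q : ℝ) - s j ≤ 6.3 * k * n := fun q hq => by
      have h5 : (q.1 : ℝ) + 1 ≤ k := by exact_mod_cast mem_range.1 (mem_product.1 hq).1
      have h6 : (q.2 : ℝ) + 1 ≤ L := by exact_mod_cast mem_range.1 (mem_product.1 hq).2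
      have h7 := Nat.ceil_lt_add_one (show 0 ≤ 2 * π * n * q.1 by positivity)
      have h12 : 2 * π * n * (q.1 + 1) ≤ 2 * π * n * k := by gcongr
      have h13 : 2 * π * n * k ≤ 2 * 3.15 * n * k := by gcongr
      have h14 : 3 * (n : ℝ) ≤ π * n := by gcongr
      rw [h11]
      linarith
    have ginj : Set.InjOn g ↑(range k ×ˢ range L) := by
      have key : ∀ q ∈ range k ×ˢ range L, ∀ q' ∈ range k ×ˢ range L, g q = g q' → q'.1 ≤ q.1 := by
        intro q hq q' _ h
        by_contra hlt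
        have h5 : (q.1 : ℝ) + 1 ≤ q'.1 := by exact_mod_cast not_le.1 hlt
        have h6 : (q.2 : ℝ) + 1 ≤ L := by exact_mod_cast mem_range.1 (mem_product.1 hq).2
        have h7 := Nat.ceil_lt_add_one (show 0 ≤ 2 * π * n * q.1 by positivity)
        have h8 := Nat.le_ceil (2 * π * n * q'.1)
        have h9 : ((⌈2 * π * n * q.1⌉₊ + q.2 : ℕ) : ℝ) = (⌈2 * π * n * q'.1⌉₊ + q'.2 : ℕ) := by
          simp only [hg] at h
          congr 1
          omega
        push_cast at h9
        have h10 : (0 : ℝ) ≤ q'.2 := Nat.cast_nonneg _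
        have h11 : 2 * π * n * (q.1 + 1) ≤ 2 * π * n * q'.1 := by gcongr
        nlinarith
      intro q hq q' hq' h
      have h5 := le_antisymm (key q' hq' q hq h.symm) (key q hq q' hq' h)
      refine Prod.ext h5 ?_
      simp only [hg, h5] at h
      omega
    have gW : (range k ×ˢ range L).image g ⊆ W := by
      intro t ht
      obtain ⟨⟨l, i⟩, hq, rfl⟩ := mem_image.1 ht
      have h5 := mem_range.1 (mem_product.1 hq).1
      have h6 := mem_range.1 (mem_product.1 hq).2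
      simp only at h5 h6
      have h7 : L * (l * d j) ≤ ⌈2 * π * n * l⌉₊ := by
        have : ((L * (l * d j) : ℕ) : ℝ) ≤ 2 * π * n * l := by
          push_cast
          nlinarith [mul_le_mul_of_nonneg_right d1 (Nat.cast_nonneg (α := ℝ) l)]
        exact_mod_cast this.trans (Nat.le_ceil _)
      have h8 : ⌈2 * π * n * l⌉₊ ≤ L * (l * d j) + L * l := by
        rw [Nat.ceil_le]
        push_cast
        nlinarith [mul_le_mul_of_nonneg_right d2.le (Nat.cast_nonneg (α := ℝ) l)]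
      refine mem_filter.2 ⟨mem_image.2
        ⟨(x (d j % H) + l * d j, ⌈2 * π * n * l⌉₊ - L * (l * d j) + i),
        mem_product.2 ⟨mem_biUnion.2 ⟨l, mem_range.2 h5, mem_image.2
          ⟨(x (d j % H) + l * (d j % H), d j / H), mem_product.2 ⟨mem_image.2
            ⟨d j % H, mem_range.2 (Nat.mod_lt _ hH0), rfl⟩, mem_range.2 ?_⟩, ?_⟩⟩,
          mem_range.2 ?_⟩, ?_⟩, ?_⟩
      · exact Nat.div_lt_of_lt_mul (by omega)
      · simp only
        conv_rhs => rw [← Nat.mod_add_div (d j) H]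
        rw [Nat.add_mul_mod_self_left, Nat.mod_mod]
        ring
      · have h9 : L * (l + 1) ≤ L * k := Nat.mul_le_mul_left _ h5
        simp only
        rw [mul_add] at h9
        omega
      · simp only [hg, hs]
        rw [mul_add]
        omega
      · have h9 : s j ≤ L * H := Nat.mul_le_mul_left _ (hx _).le
        have h10 : (g (l, i) : ℝ) ≤ 7 * k * N := by
          have : (s j : ℝ) ≤ L * H := by exact_mod_cast h9
          have h11 := gb (l, i) hq
          have h12 : (k : ℝ) * n ≤ k * N := by gcongr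
          nlinarith
        exact_mod_cast h10
    refine le_trans ?_ (sum_le_sum_of_subset_of_nonneg gW fun _ _ _ => by positivity)
    rw [sum_image ginj]
    have : (k : ℝ) * L * (H / 2) ^ 2 = ∑ _q ∈ range k ×ˢ range L, ((H : ℝ) / 2) ^ 2 := by simp
    rw [this]
    refine sum_le_sum fun q hq => pow_le_pow_left₀ (by positivity) ?_ 2
    have h5 : (q.1 : ℝ) + 1 ≤ k := by exact_mod_cast mem_range.1 (mem_product.1 hq).1
    have h6 : (q.2 : ℝ) + 1 ≤ L := by exact_mod_cast mem_range.1 (mem_product.1 hq).2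
    have h7 := Nat.ceil_lt_add_one (show 0 ≤ 2 * π * n * q.1 by positivity)
    have h8 := Nat.le_ceil (2 * π * n * q.1)
    have h10 : (0 : ℝ) ≤ q.2 := Nat.cast_nonneg _
    refine block_large n H q.1 (by exact_mod_cast n0) _
      (⌈2 * π * n * q.1⌉₊ + q.2 - 2 * π * n * q.1) (by rw [h11]; ring) (by linarith) ?_ ?_
    · have : (⌈2 * π * n * q.1⌉₊ + q.2 - 2 * π * n * q.1) * (H : ℝ) ≤ L * H := by
        gcongr
        linarith
      linarith
    · have h13 := gb q hq
      have h14 : ((g q : ℝ) - s j) * H ^ 2 ≤ 6.3 * k * n * H ^ 2 := by gcongr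
      nlinarith
  obtain ⟨ε, hε, hε2⟩ := exists_signs (Ico J (2 * J)) W f
  have hM : (k : ℝ) * N ^ 2 / 256 ≤ ∑ t ∈ W, ‖∑ j ∈ Ico J (2 * J), ε j * f j t‖ ^ 2 := by
    refine le_trans ?_ ((sum_le_sum hmass).trans hε2)
    rw [sum_const, Nat.card_Ico, show 2 * J - J = J by omega, nsmul_eq_mul]
    have : (N : ℝ) * N ≤ (4 * (J * H)) * (16 * (L * H)) := by gcongr
    nlinarith
  obtain ⟨v, v1, v2⟩ := exists_level _ W _ (by positivity) hM
  have hW0 : (0 : ℝ) < W.card := by
    rcases (Nat.cast_nonneg (α := ℝ) W.card).eq_or_lt with h | h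
    · rw [← h] at v1
      have : 0 < (k : ℝ) * N ^ 2 / 256 := by positivity
      linarith
    · exact h
  have hv : 0 < v := by
    by_contra h
    have : 0 < (k : ℝ) * N ^ 2 / 256 := by positivity
    nlinarith [mul_nonneg hW0.le (neg_nonneg.2 (not_lt.1 h))]
  have hW1 : (W.card : ℝ) ≤ 13 * N := by nlinarith
  refine ⟨fun n => if J ≤ n / H ∧ n / H < 2 * J then
    ε (n / H) * Complex.exp ((s (n / H) * Real.log n : ℝ) * Complex.I) else 0, fun n => ?_, v,
    W.filter fun u => v ≤ ‖∑ j ∈ Ico J (2 * J), ε j * f j u‖ ^ 2, fun t ht => ⟨?_, ?_⟩, ?_, ?_⟩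
  · beta_reduce
    split_ifs
    · rw [norm_mul, hε, Complex.norm_exp_ofReal_mul_I, one_mul]
    · simp
  · exact (mem_filter.1 (mem_filter.1 ht).1).2
  · refine (mem_filter.1 ht).2.trans_eq ?_
    congr 2
    simp only [ite_mul, zero_mul]
    rw [sum_blocks N H J hH0 hJ0 j1]
    refine sum_congr rfl fun j hj => ?_
    rw [hf, mul_sum]
    refine sum_congr rfl fun h hh => ?_
    have h6 : (j * H + h) / H = j := by
      rw [add_comm, Nat.add_mul_div_right _ _ hH0, Nat.div_eq_of_lt (mem_range.1 hh), zero_add]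
    have h7 : 0 < j * H + h :=
      Nat.add_pos_left (Nat.mul_pos (hJ0.trans_le (mem_Ico.1 hj).1) hH0) _
    rw [h6, mul_assoc, Complex.cpow_def_of_ne_zero (Nat.cast_ne_zero.2 h7.ne'), ← Complex.exp_add,
      ← Complex.natCast_log]
    congr 2
    rw [Complex.ofReal_mul, Complex.ofReal_mul, Complex.ofReal_sub]
    ring
  · have h1 : (W.card : ℝ) * v ≤ 13 * N * ((k : ℝ) ^ 2 * δ) * v := by gcongr
    have h2 : (N : ℝ) * (k * N) ≤ 6656 * k * δ * v * (k * N) := by nlinarith
    exact le_of_mul_le_mul_right h2 (by positivity)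
  · have : Real.log W.card ≤ Real.log (13 * N) := Real.log_le_log hW0 hW1
    have h2 : 2 * (1 + Real.log W.card) * (v * (W.filter fun u =>
        v ≤ ‖∑ j ∈ Ico J (2 * J), ε j * f j u‖ ^ 2).card) ≤ 2 * (1 + Real.log (13 * N))
        * (v * (W.filter fun u => v ≤ ‖∑ j ∈ Ico J (2 * J), ε j * f j u‖ ^ 2).card) := by
      gcongr
    linarith

end Pool.Agent.Lib.MP_a93a41_nt
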