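import Pool.Agent.Lib.MP_a93a41_nt.GM10
import Pool.Agent.Lib.MP_a93a41_nt.GMRed

/-! Definitions for the trace inequality with signed weights. -/

namespace Pool.Agent.Lib.MP_a93a41_nt.GM

open Finset Real Pool.Agent.Lib.LargeSieve

/-- Pairs with a large common divisor. -/
def Lo (X Y : ℕ) : Finset (ℕ × ℕ) := (Ioc (X / 2) X ×ˢ Ioc (X / 2) X).filter (lowP X Y)

/-- Pairs with a small common divisor. -/
def Hi (X Y : ℕ) : Finset (ℕ × ℕ) :=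
  (Ioc (X / 2) X ×ˢ Ioc (X / 2) X).filter fun x => ¬ lowP X Y x

/-- The part of the squared modulus coming from a set of pairs. -/
noncomputable def PS (S : Finset (ℕ × ℕ)) (a : ℕ → ℂ) (u : ℤ) : ℂ :=
  ∑ x ∈ S, a x.1 * (starRingEnd ℂ) (a x.2) * ee (u * (Lg x.1 - Lg x.2))

/-- The support of the triangle weight. -/
noncomputable def UU (L : ℕ) (A : ℤ) : Finset ℤ := Icc (A - L) (A + L)

/-- The signed weight. -/
noncomputable def fw (X Y L : ℕ) (A : ℤ) (a : ℕ → ℂ) (u : ℤ) : ℝ :=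
  cm L (u - A) * (PS (Hi X Y) a u).re

noncomputable def kk (P N M : ℕ) (x : ℤ) : ℝ :=
  ∑ z ∈ Icc 1 M ×ˢ Icc 1 M, kap N (z.2 * vv P x - z.1)

noncomputable def wv (P N M : ℕ) (W : Finset ℤ) (v : ℤ → ℂ) (t : ℤ) : ℂ :=
  ∑ u ∈ W, v u * ZZ P N M (u - t)

noncomputable def gm (P N M : ℕ) (U : Finset ℤ) (f : ℤ → ℝ) (s j : ℤ) : ℂ :=
  ∑ t ∈ U, (f t : ℂ) * ZZ P N M (s - t) * ee (t * ((j : ℝ) / P))

/-- The quadratic form of the positive kernel. -/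
noncomputable def QA (P N M : ℕ) (W : Finset ℤ) (v : ℤ → ℂ) : ℝ :=
  ∑ j ∈ JJ P, mu P N M j * ‖ft W v ((j : ℝ) / P)‖ ^ 2

/-- A large values estimate at integer points with exponent `g` on the region `R`. -/
def CoreG (R : ℝ → ℝ → Prop) (g : ℝ → ℝ → ℝ) : Prop := ∀ ε : ℝ, 0 < ε → ∃ N0 : ℕ, ∀ N : ℕ, N0 ≤ N →
  ∀ (σ τ V : ℝ) (T : ℕ) (A : ℤ) (a : ℕ → ℂ) (W : Finset ℤ), R σ τ → (T : ℝ) + 1 ≤ pw N τ →
    pw N σ ≤ V → LV N V a W → W ⊆ Icc A (A + T) → (#W : ℝ) ≤ pw N (g σ τ + ε)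

end Pool.Agent.Lib.MP_a93a41_nt.GM
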