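import Pool.Agent.Lib.MP_a93a41_nt.NF0

/-! Counting lemmas for Fejer kernels at logarithms. -/

namespace Pool.Agent.Lib.MP_a93a41_nt.GM

open Finset Real Pool.Agent.Lib.LargeSieve

lemma Phi_nonneg (L : ℕ) (α : ℝ) : 0 ≤ Phi L α := by unfold Phi; positivity

lemma Phi_neg (L : ℕ) (α : ℝ) : Phi L (-α) = Phi L α := by
  unfold Phi
  congr 2
  rw [← RCLike.norm_conj (K := ℂ), map_sum]
  congr 1
  refine sum_congr rfl fun l _ => ?_
  rw [conj_ee]; congr 1; ring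

lemma psi_ft {L : ℕ} (hL : 0 < L) (A : ℤ) (α : ℝ) :
    ∑ u ∈ UU L A, (cm L (u - A) : ℂ) * ee (u * α) = ee (A * α) * (Phi L α : ℝ) := by
  have e : (Phi L α : ℂ) = ∑ m ∈ Icc (-(L : ℤ)) L, (cm L m : ℂ) * ee (m * α) := by
    rw [Phi_eq hL, ← add_sum_erase _ _ (by simp : (0 : ℤ) ∈ Icc (-(L : ℤ)) L), cm_zero hL]
    simp [ee_zero, Ms]
  rw [e, mul_sum, UU]
  apply sum_bij (fun u _ => u - A)
  · intro u hu; rw [mem_Icc] at hu ⊢; omega
  · intro u _ u' _ h; omega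
  · intro m hm
    exact ⟨m + A, by rw [mem_Icc] at hm ⊢; omega, by ring⟩
  · intro u _
    rw [show (u : ℝ) * α = A * α + ((u - A : ℤ) : ℝ) * α by push_cast; ring, ee_add]
    ring

lemma cm_half {L : ℕ} (hL : 0 < L) {m : ℤ} (h0 : 0 ≤ m) (h : 2 * m ≤ L) : 1 / 2 ≤ cm L m := by
  obtain ⟨k, rfl⟩ := Int.eq_ofNat_of_zero_le h0
  have hk : 2 * k ≤ L := by exact_mod_cast h
  have h1 : #(range (L - k))
      ≤ #((range L ×ˢ range L).filter fun x => (x.1 : ℤ) - x.2 = (k : ℤ)) := by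
    apply card_le_card_of_injOn (fun l => (l + k, l))
    · intro l hl
      have := mem_range.1 (mem_coe.1 hl)
      simp only [coe_filter, mem_product, mem_range, Set.mem_ofPred_eq]
      refine ⟨⟨by omega, by omega⟩, by push_cast; ring⟩
    · intro x _ y _ h
      exact (Prod.mk.inj h).2
  rw [card_range] at h1
  have h2 : L ≤ 2 * #((range L ×ˢ range L).filter fun x => (x.1 : ℤ) - x.2 = (k : ℤ)) := by omega
  have h3 : (L : ℝ) ≤ 2 * #((range L ×ˢ range L).filter fun x => (x.1 : ℤ) - x.2 = (k : ℤ)) := by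
    exact_mod_cast h2
  have hL' : (0 : ℝ) < L := by exact_mod_cast hL
  rw [cm, le_div_iff₀ hL']
  linarith

lemma Phi_ft (L : ℕ) (θ α : ℝ) :
    Phi L (θ + α) = ‖ft (Ico 0 (0 + (L : ℤ))) (fun u => ee (u * θ)) α‖ ^ 2 / L := by
  rw [Phi, ft, sum_Ico_eq_range]
  congr 3
  refine sum_congr rfl fun l _ => ?_
  rw [← ee_add]; congr 1; push_cast; ring

lemma sum_ee_sq (L : ℕ) (θ : ℝ) : ∑ u ∈ Ico 0 (0 + (L : ℤ)), ‖ee (u * θ)‖ ^ 2 = L := by
  simp [norm_ee]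

lemma Ico_sub {L : ℕ} (hL : 0 < L) : Ico 0 (0 + (L : ℤ)) ⊆ Icc 0 (0 + ((L - 1 : ℕ) : ℤ)) := by
  intro u hu
  rw [mem_Ico] at hu
  rw [mem_Icc]; omega

lemma Phi_zero (α : ℝ) : Phi 0 α = 0 := by simp [Phi]

lemma Phi_JJ {L P : ℕ} (h : L ≤ P) (θ : ℝ) : ∑ j ∈ JJ P, Phi L (θ + (j : ℝ) / P) ≤ P := by
  rcases Nat.eq_zero_or_pos L with rfl | hL
  · simp [Phi_zero]
  have hL' : (0 : ℝ) < L := by exact_mod_cast hL
  have := parseval P (-((P / 2 : ℕ) : ℤ)) 0 (L - 1) (by omega) _ (Ico_sub hL) (fun u => ee (u * θ))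
  simp only [Phi_ft]
  rw [← sum_div, JJ, this, sum_ee_sq, mul_div_assoc, div_self hL'.ne', mul_one]

lemma Phi_XX {L P : ℕ} (h : L ≤ P) (θ : ℝ) : ∑ j ∈ XX P, Phi L (θ + (j : ℝ) / P) ≤ 2 * P := by
  rcases Nat.eq_zero_or_pos L with rfl | hL
  · simp [Phi_zero]
  have hL' : (0 : ℝ) < L := by exact_mod_cast hL
  have := parseval2 P 0 (L - 1) (by omega) _ (Ico_sub hL) (fun u => ee (u * θ))
  simp only [Phi_ft]
  rw [sum_ee_sq] at this
  rw [← sum_div, XX, div_le_iff₀ hL']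
  exact this

lemma Phi_LS {R : Type} [DecidableEq R] (s : Finset R) (α : R → ℝ) (δ : ℝ) (hδ : 0 < δ)
    (hδ1 : δ ≤ 1 / 2) (hsep : ∀ i ∈ s, ∀ j ∈ s, i ≠ j → δ ≤ |α i - α j|)
    (hr : ∀ i ∈ s, ∀ j ∈ s, |α i - α j| ≤ 1 / 2) (L : ℕ) (θ : ℝ) :
    ∑ i ∈ s, Phi L (θ + α i) ≤ L + 1 / δ * (1 + Real.log (1 / δ)) := by
  rcases Nat.eq_zero_or_pos L with rfl | hL
  · have h1 : 1 ≤ 1 / δ := by rw [le_div_iff₀ hδ]; linarith
    have := Real.log_nonneg h1
    simp only [Phi_zero, sum_const_zero, Nat.cast_zero, zero_add]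
    positivity
  have hL' : (0 : ℝ) < L := by exact_mod_cast hL
  have := ls1 s α δ hδ hδ1 hsep hr 0 (L - 1) _ (Ico_sub hL) (fun u => ee (u * θ))
  rw [sum_ee_sq, Nat.cast_pred hL, sub_add_cancel] at this
  simp only [Phi_ft]
  rw [← sum_div, div_le_iff₀ hL']
  exact this

lemma Lg_nonneg (n : ℕ) : 0 ≤ Lg n := by
  have := Real.log_natCast_nonneg n
  unfold Lg; positivity

lemma LS1 {Λ B : ℝ} (hL : Loss Λ B) (L Z : ℕ) (hB : 7 * (Z : ℝ) ≤ B) (θ : ℝ) :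
    ∑ m ∈ Icc 1 Z, Phi L (θ + Lg m) ≤ Λ * (L + 7 * Z * Λ) := by
  have hΛ := hL.big
  rcases Nat.eq_zero_or_pos Z with rfl | hZ
  · simp only [zero_lt_one, Icc_eq_empty_of_lt, sum_empty]; positivity
  have hZ' : (1 : ℝ) ≤ Z := by exact_mod_cast hZ
  have hpi := Real.pi_gt_three
  have hpi2 := Real.pi_lt_d2
  set cl : ℕ → ℕ := fun m => ⌊2 * Lg m⌋₊ with hcl
  have hmap : ∀ m ∈ Icc 1 Z, cl m ∈ range (cl Z + 1) := by
    intro m hm
    rw [mem_Icc] at hm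
    rw [mem_range, Nat.lt_succ_iff]
    apply Nat.floor_le_floor
    have : Real.log m ≤ Real.log Z :=
      Real.log_le_log (by exact_mod_cast hm.1) (by exact_mod_cast hm.2)
    unfold Lg; gcongr
  rw [← sum_fiberwise_of_maps_to hmap]
  have h1 : ∀ k ∈ range (cl Z + 1), ∑ m ∈ Icc 1 Z with cl m = k, Phi L (θ + Lg m)
      ≤ L + 7 * Z * Λ := by
    intro k _
    have h := Phi_LS ((Icc 1 Z).filter fun m => cl m = k) Lg (1 / (7 * (Z : ℝ))) (by positivity)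
      (by rw [div_le_div_iff₀ (by positivity) (by positivity)]; linarith) ?_ ?_ L θ
    · rw [one_div_one_div] at h
      have := hL.log_le (x := 7 * (Z : ℝ)) (by positivity) hB
      refine h.trans ?_
      gcongr
    · intro i hi j hj hne
      have a1 := mem_Icc.1 (mem_filter.1 hi).1
      have a2 := mem_Icc.1 (mem_filter.1 hj).1
      have h1 := log_sep (a := (i : ℝ)) (b := (j : ℝ)) (K := Z) (D := 1)
        (by exact_mod_cast a1.1) (by exact_mod_cast a2.1) (by exact_mod_cast a1.2)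
        (by exact_mod_cast a2.2) (by
          have h3 : (1 : ℤ) ≤ |(i : ℤ) - j| := Int.one_le_abs (by omega)
          exact_mod_cast h3)
      simp only [Lg]
      rw [← sub_div, abs_div, abs_of_pos (by positivity : (0 : ℝ) < 2 * π),
        le_div_iff₀ (by positivity)]
      refine le_trans ?_ h1
      rw [div_mul_eq_mul_div, div_le_div_iff₀ (by positivity) (by positivity)]
      nlinarith
    · intro i hi j hj
      have a1 := Nat.floor_le (a := 2 * Lg i) (by linarith [Lg_nonneg i])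
      have a2 := Nat.lt_floor_add_one (2 * Lg i)
      have a3 := Nat.floor_le (a := 2 * Lg j) (by linarith [Lg_nonneg j])
      have a4 := Nat.lt_floor_add_one (2 * Lg j)
      have a5 : ⌊2 * Lg i⌋₊ = k := (mem_filter.1 hi).2
      have a6 : ⌊2 * Lg j⌋₊ = k := (mem_filter.1 hj).2
      rw [a5] at a1 a2; rw [a6] at a3 a4
      rw [abs_le]; constructor <;> linarith
  have h2 := sum_le_card_nsmul _ _ _ h1
  rw [card_range, nsmul_eq_mul] at h2
  refine h2.trans (mul_le_mul_of_nonneg_right ?_ (by positivity))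
  have a1 : (cl Z : ℝ) ≤ 2 * Lg Z := Nat.floor_le (by linarith [Lg_nonneg Z])
  have a2 := hL.log_le (x := (Z : ℝ)) (by positivity) (by linarith)
  have a3 := Real.log_nonneg hZ'
  have a4 : 2 * Lg Z ≤ Real.log Z := by
    rw [Lg, ← mul_div_assoc, div_le_iff₀ (by positivity)]; nlinarith
  push_cast; linarith

lemma LSD {Λ B : ℝ} (hL : Loss Λ B) (L Y K : ℕ) (hB : 7 * ((Y : ℝ) * K) ≤ B) (θ : ℝ) :
    ∑ z ∈ Icc 1 Y ×ˢ Icc 1 K, Phi L (θ + Lg z.1 + Lg z.2) ≤ Λ ^ 4 * (L + Y * K) := by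
  have hΛ := hL.big
  have hYK : (0 : ℝ) ≤ Y * K := by positivity
  have hmap : ∀ z ∈ Icc 1 Y ×ˢ Icc 1 K, z.1 * z.2 ∈ Icc 1 (Y * K) := by
    intro x hx
    obtain ⟨a1, a2⟩ := mem_product.1 hx
    rw [mem_Icc] at a1 a2 ⊢
    exact ⟨Nat.mul_pos a1.1 a2.1, Nat.mul_le_mul a1.2 a2.2⟩
  rw [← sum_fiberwise_of_maps_to hmap]
  have h1 : ∀ m ∈ Icc 1 (Y * K),
      ∑ z ∈ Icc 1 Y ×ˢ Icc 1 K with z.1 * z.2 = m, Phi L (θ + Lg z.1 + Lg z.2)
        ≤ Λ * Phi L (θ + Lg m) := by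
    intro m hm
    rw [mem_Icc] at hm
    rw [sum_congr rfl (g := fun _ => Phi L (θ + Lg m)), sum_const, nsmul_eq_mul]
    · refine mul_le_mul_of_nonneg_right (le_trans ?_ (hL.dv m ?_)) (Phi_nonneg _ _)
      · exact_mod_cast card_mul_fiber _ _ m (by omega)
      · have : (m : ℝ) ≤ Y * K := by exact_mod_cast hm.2
        linarith
    · intro x hx
      obtain ⟨a1, a2⟩ := mem_filter.1 hx
      obtain ⟨a3, a4⟩ := mem_product.1 a1
      rw [mem_Icc] at a3 a4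
      rw [← a2, Lg_mul (by omega) (by omega), add_assoc]
  refine (sum_le_sum h1).trans ?_
  rw [← mul_sum]
  have h2 := LS1 hL L (Y * K) (by push_cast; exact hB) θ
  push_cast at h2
  have hL0 : (0 : ℝ) ≤ L := by positivity
  calc _ ≤ Λ * (Λ * (L + 7 * (Y * K) * Λ)) := by gcongr
    _ = Λ ^ 2 * (1 * L + 7 * Λ * (Y * K)) := by ring
    _ ≤ Λ ^ 2 * (Λ ^ 2 * L + Λ ^ 2 * (Y * K)) := by gcongr <;> nlinarith
    _ = _ := by ring

lemma Phi_lip (L : ℕ) (a e : ℝ) (h : 7 * (L : ℝ) ^ 2 * |e| ≤ 1) :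
    Phi L (a + e) ≤ 2 * (Phi L a + 1) := by
  rcases Nat.eq_zero_or_pos L with rfl | hL
  · simp [Phi_zero]
  have hL' : (1 : ℝ) ≤ L := by exact_mod_cast hL
  have h1 : ‖∑ l ∈ range L, ee (l * (a + e))‖ ≤ ‖∑ l ∈ range L, ee (l * a)‖ + 1 := by
    have e1 : ∑ l ∈ range L, ee (l * (a + e))
        = ∑ l ∈ range L, ee (l * a) + ∑ l ∈ range L, (ee (l * (a + e)) - ee (l * a)) := by
      rw [sum_sub_distrib]; ring
    rw [e1]
    refine (norm_add_le _ _).trans (add_le_add le_rfl ((norm_sum_le _ _).trans ?_))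
    have h2 : ∀ l ∈ range L, ‖ee (l * (a + e)) - ee (l * a)‖ ≤ 7 * L * |e| := by
      intro l hl
      have : (l : ℝ) ≤ L := by exact_mod_cast (mem_range.1 hl).le
      refine (norm_ee_sub _ _).trans ?_
      rw [show (l : ℝ) * (a + e) - l * a = l * e by ring, abs_mul, Nat.abs_cast, mul_assoc]
      gcongr
    have h3 := sum_le_card_nsmul _ _ _ h2
    rw [card_range, nsmul_eq_mul] at h3
    nlinarith
  have h2 := pow_le_pow_left₀ (norm_nonneg _) h1 2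
  simp only [Phi]
  set x := ‖∑ l ∈ range L, ee (l * a)‖
  rw [div_le_iff₀ (by linarith)]
  have e2 : 2 * (x ^ 2 / L + 1) * L = 2 * x ^ 2 + 2 * L := by field_simp
  rw [e2]
  nlinarith [sq_nonneg (x - 1)]

lemma Phi_round {B : ℝ} {P N M H T : ℕ} (hp : Par B P N M H T) (a y : ℝ) :
    Phi (2 * (N * M)) (a + (round (P * y) : ℝ) / P) ≤ 2 * (Phi (2 * (N * M)) (a + y) + 1) := by
  have hK := hp.hK
  have hNM : 0 < N * M := Nat.mul_pos hp.hN hp.hM
  have hP : 0 < P := lt_of_lt_of_le (by positivity) hK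
  have hP' : (0 : ℝ) < P := by exact_mod_cast hP
  have h := Phi_lip (2 * (N * M)) (a + y) ((round (P * y) - P * y) / P) (by
    rw [abs_div, abs_of_pos hP', abs_sub_comm]
    have b : |P * y - round (P * y)| ≤ 1 / 2 := abs_sub_round _
    have c : ((2000 * (N * M) : ℕ) : ℝ) ^ 2 ≤ P := by exact_mod_cast hK
    calc _ ≤ 7 * ((2 * (N * M) : ℕ) : ℝ) ^ 2 * (1 / 2 / P) := by gcongr
      _ ≤ 1 := by
          rw [← mul_div_assoc, div_le_one hP']
          push_cast at c ⊢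
          nlinarith [sq_nonneg ((N : ℝ) * M)])
  rwa [show a + y + (round (P * y) - P * y) / P = a + (round (P * y) : ℝ) / P by
    field_simp; ring] at h

lemma Phi_kap {M : ℕ} (hM : 0 < M) (y : ℝ) : Phi M y ≤ M * kap M (y - round y) := by
  have hM' : (0 : ℝ) < M := by exact_mod_cast hM
  set β := y - round y with hβ
  have hb : |β| ≤ 1 / 2 := abs_sub_round y
  have e : ∑ l ∈ range M, ee (l * y) = ∑ l ∈ range M, ee (l * β) := by
    refine sum_congr rfl fun l _ => ?_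
    rw [show (l : ℝ) * y = l * β + ((l * round y : ℤ) : ℝ) by rw [hβ]; push_cast; ring, ee_add,
      ee_int, mul_one]
  rw [Phi, e]
  set D := ‖∑ l ∈ range M, ee (l * β)‖ with hD
  have hD0 : 0 ≤ D := norm_nonneg _
  have h1 : D ≤ M := by
    refine (norm_sum_le _ _).trans ?_
    simp [norm_ee]
  have h2 : D ^ 2 / M ≤ D := by rw [div_le_iff₀ hM']; nlinarith
  refine h2.trans ?_
  rw [kap, mul_one_div, le_div_iff₀ (by positivity)]
  rcases le_total (M * |β|) 1 with h | h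
  · rw [max_eq_left h]; linarith
  · rw [max_eq_right h]
    have hb0 : 0 < |β| := by
      rcases (abs_nonneg β).eq_or_lt with h0 | h0
      · rw [← h0] at h; linarith
      · exact h0
    have f1 := fract_sep (x := β) le_rfl hb hb hb0
    have f2 := fract_sep (x := -β) (δ := |β|) (by rw [abs_neg]) (by rwa [abs_neg]) hb hb0
    have g := geom_bound β (by linarith) M
    have g1 : 1 / (2 * Int.fract β) ≤ 1 / (2 * |β|) := by gcongr
    have g2 : 1 / (2 * Int.fract (-β)) ≤ 1 / (2 * |β|) := by gcongr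
    have g3 : D ≤ 1 / |β| := by
      have : 1 / |β| = 1 / (2 * |β|) + 1 / (2 * |β|) := by field_simp; norm_num
      linarith
    rw [le_div_iff₀ hb0] at g3
    nlinarith

lemma Lg_sub_le {a b : ℕ} (ha : 0 < a) (hb : 0 < b) (h : a ≤ 48 * b) : Lg a - Lg b ≤ 8 := by
  have ha' : (0 : ℝ) < a := by exact_mod_cast ha
  have hb' : (0 : ℝ) < b := by exact_mod_cast hb
  have h' : (a : ℝ) ≤ 48 * b := by exact_mod_cast h
  have h1 := Real.log_le_sub_one_of_pos (x := (a : ℝ) / b) (by positivity)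
  rw [Real.log_div ha'.ne' hb'.ne'] at h1
  have h2 : (a : ℝ) / b ≤ 48 := by rw [div_le_iff₀ hb']; exact h'
  have := Real.pi_gt_three
  simp only [Lg]
  rw [← sub_div, div_le_iff₀ (by positivity)]
  linarith

/-- The spectral weight is concentrated near the logarithms of integers of size `N`. -/
lemma mu_near {B : ℝ} {P N M H T : ℕ} (hp : Par B P N M H T) (hN : 100 ≤ N) {j : ℤ}
    (hj : j ∈ JJ P) : ∃ k ∈ Icc 1 (25 * N), N ≤ 48 * k ∧
      mu P N M j ≤ 56 * (1 / max (1 : ℝ) |((j - round (P * (Lg k - Lg N)) : ℤ) : ℝ)|) := by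
  obtain ⟨-, -, hE, -, -, hK, -, -⟩ := hp.basic
  have hM := hp.hM
  have hNM : 0 < N * M := Nat.mul_pos hp.hN hM
  have hP : 0 < P := by omega
  have hP' : (0 : ℝ) < P := by exact_mod_cast hP
  have hM' : (0 : ℝ) < M := by exact_mod_cast hM
  have hN' : (100 : ℝ) ≤ N := by exact_mod_cast hN
  rw [mem_JJ] at hj
  have v1 : 1 / 24 ≤ vv P j := vv_ge_of (vv_le_half hP (by omega))
  have v2 : vv P j ≤ 24 := vv_le_half hP (by omega)
  set r := round (N * vv P j) with hr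
  have b : |N * vv P j - r| ≤ 1 / 2 := abs_sub_round _
  rw [abs_le] at b
  have r1 : (N : ℝ) ≤ 48 * r := by nlinarith
  have r2 : (r : ℝ) ≤ 25 * N := by nlinarith
  have r1' : (N : ℤ) ≤ 48 * r := by exact_mod_cast r1
  have r2' : r ≤ 25 * (N : ℤ) := by exact_mod_cast r2
  obtain ⟨k, hk⟩ := Int.eq_ofNat_of_zero_le (by omega : 0 ≤ r)
  have hk1 : k ∈ Icc 1 (25 * N) := by rw [mem_Icc]; omega
  refine ⟨k, hk1, by omega, ?_⟩
  have c1 := kap_near (P := P) (N := M) (M := 25 * N) hM (by nlinarith) hk1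
    (q := N) (by rw [mem_Icc]; omega) (x := j) (by rw [mem_XX]; omega)
  have c2 := Phi_kap hM (N * vv P j)
  rw [← hr, hk, Int.cast_natCast] at c2
  have c3 : wt k * wt N ≤ 7 / N := by
    rw [← wt_mul, wt, div_le_div_iff₀ (Real.sqrt_pos.2 (by
      exact_mod_cast Nat.mul_pos (mem_Icc.1 hk1).1 (by omega))) (by linarith), one_mul]
    have : (N : ℝ) / 7 ≤ √((k * N : ℕ) : ℝ) := by
      apply Real.le_sqrt_of_sq_le
      rw [hk, Int.cast_natCast] at r1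
      push_cast; nlinarith
    linarith
  set w := 1 / max (1 : ℝ) |((j - round (P * (Lg k - Lg N)) : ℤ) : ℝ)|
  have hw : 0 ≤ w := by positivity
  calc mu P N M j ≤ N / P * (M * (8 * (P / M) * (7 / N) * w)) := by
        rw [mu]
        refine mul_le_mul_of_nonneg_left (c2.trans (mul_le_mul_of_nonneg_left (c1.trans ?_)
          hM'.le)) (by positivity)
        gcongr
    _ = 56 * w := by field_simp; ring

lemma mass {Λ B : ℝ} (hL : Loss Λ B) {P N M H T : ℕ} (hp : Par B P N M H T) (hN : 100 ≤ N)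
    {Y : ℕ} (hY : Y ≤ N) (θ : ℝ) :
    ∑ r ∈ Icc 1 Y, ∑ j ∈ JJ P, (mu P N M j + N / P) * Phi (2 * (N * M)) (θ + Lg r + (j : ℝ) / P)
      ≤ Λ ^ 7 * (N * (M + Y)) := by
  obtain ⟨-, -, -, -, -, hK, -, hB⟩ := hp.basic
  have hΛ := hL.big
  have hM := hp.hM
  have hNM : 0 < N * M := Nat.mul_pos hp.hN hM
  have hP : 0 < P := by omega
  have hP' : (0 : ℝ) < P := by exact_mod_cast hP
  have hM' : (1 : ℝ) ≤ M := by exact_mod_cast hM
  have hN' : (100 : ℝ) ≤ N := by exact_mod_cast hN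
  have hY' : (Y : ℝ) ≤ N := by exact_mod_cast hY
  have hY0 : (0 : ℝ) ≤ Y := by positivity
  set L := 2 * (N * M) with hLd
  simp only [add_mul, sum_add_distrib]
  have h1 : ∑ r ∈ Icc 1 Y, ∑ j ∈ JJ P, (N : ℝ) / P * Phi L (θ + Lg r + (j : ℝ) / P) ≤ N * Y := by
    have : ∀ r ∈ Icc 1 Y, ∑ j ∈ JJ P, (N : ℝ) / P * Phi L (θ + Lg r + (j : ℝ) / P) ≤ N := by
      intro r _
      rw [← mul_sum]
      calc _ ≤ (N : ℝ) / P * P := by gcongr; exact Phi_JJ (by omega) _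
        _ = _ := by field_simp
    have h := sum_le_card_nsmul _ _ _ this
    rw [Nat.card_Icc, add_tsub_cancel_right, nsmul_eq_mul] at h
    linarith
  choose! kf hk1 hk2 hk3 using fun j (hj : j ∈ JJ P) => mu_near hp hN hj
  set I := 10 * P with hI
  have h2 : ∀ r ∈ Icc 1 Y, ∑ j ∈ JJ P, mu P N M j * Phi L (θ + Lg r + (j : ℝ) / P)
      ≤ ∑ z ∈ Icc (-(I : ℤ)) I ×ˢ Icc 1 (25 * N), 112 * (1 / max (1 : ℝ) |(z.1 : ℝ)|)
        * (Phi L (θ - Lg N + (z.1 : ℝ) / P + Lg r + Lg z.2) + 1) := by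
    intro r _
    refine sum_le_of_inj _ _ (fun j => (j - round (P * (Lg (kf j) - Lg N)), kf j)) _ _ ?_ ?_ ?_
      (fun z _ => by have := Phi_nonneg L (θ - Lg N + (z.1 : ℝ) / P + Lg r + Lg z.2); positivity)
    · intro a _ b _ h
      simp only [Prod.mk.injEq] at h
      obtain ⟨a1, a2⟩ := h
      rw [a2] at a1; omega
    · intro j hj
      refine mem_product.2 ⟨?_, hk1 j hj⟩
      have a1 := mem_Icc.1 (hk1 j hj)
      have a2 := Lg_sub_le (a := kf j) (b := N) (by omega) (by omega) (by omega)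
      have a3 := Lg_sub_le (a := N) (b := kf j) (by omega) (by omega) (hk2 j hj)
      set x := round (P * (Lg (kf j) - Lg N))
      have b : |P * (Lg (kf j) - Lg N) - x| ≤ 1 / 2 := abs_sub_round _
      have c4 : |(x : ℝ)| ≤ 8 * P + 1 := by
        rw [abs_le] at b ⊢
        constructor <;> nlinarith
      have c5 : |x| ≤ 8 * P + 1 := by exact_mod_cast c4
      rw [mem_JJ] at hj
      rw [abs_le] at c5
      rw [mem_Icc, hI]; push_cast
      omega
    · intro j hj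
      have a1 := hk3 j hj
      set x := round (P * (Lg (kf j) - Lg N)) with hx
      have a2 := Phi_round hp (θ + Lg r + ((j - x : ℤ) : ℝ) / P) (Lg (kf j) - Lg N)
      rw [← hx, show θ + Lg r + ((j - x : ℤ) : ℝ) / P + (x : ℝ) / P = θ + Lg r + (j : ℝ) / P by
        push_cast; ring, show θ + Lg r + ((j - x : ℤ) : ℝ) / P + (Lg (kf j) - Lg N)
          = θ - Lg N + ((j - x : ℤ) : ℝ) / P + Lg r + Lg (kf j) by ring] at a2
      refine (mul_le_mul a1 a2 (Phi_nonneg _ _) (by positivity)).trans (le_of_eq ?_)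
      ring
  have hB2 : 7 * ((Y : ℝ) * (25 * N : ℕ)) ≤ B := by
    have c : ((2000 * (N * M) : ℕ) : ℝ) ^ 2 ≤ P := by exact_mod_cast hp.hK
    push_cast at c ⊢
    have d1 : (N : ℝ) ≤ N * M := by nlinarith
    have d2 : (Y : ℝ) * N ≤ (N * M) * (N * M) := by gcongr; linarith
    nlinarith
  have h3 : ∑ r ∈ Icc 1 Y, ∑ j ∈ JJ P, mu P N M j * Phi L (θ + Lg r + (j : ℝ) / P)
      ≤ ∑ i ∈ Icc (-(I : ℤ)) I, 112 * (50 * Λ ^ 4 * (N * (M + Y)))
        * (1 / max (1 : ℝ) |(i : ℝ)|) := by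
    refine (sum_le_sum h2).trans ?_
    simp only [sum_product]
    rw [sum_comm]
    refine sum_le_sum fun i _ => ?_
    simp only [← mul_sum]
    rw [← sum_product', sum_add_distrib, sum_const, card_product, Nat.card_Icc, Nat.card_Icc,
      add_tsub_cancel_right, add_tsub_cancel_right, nsmul_eq_mul, mul_one, mul_right_comm]
    have a1 := LSD hL L Y (25 * N) hB2 (θ - Lg N + (i : ℝ) / P)
    have a2 : 1 ≤ Λ ^ 4 := one_le_pow₀ (by linarith)
    gcongr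
    rw [hLd] at a1 ⊢
    push_cast at a1 ⊢
    have a3 : (0 : ℝ) ≤ N * Y := by positivity
    have a4 : (0 : ℝ) ≤ N * M := by positivity
    nlinarith [mul_le_mul_of_nonneg_right a2 a3, mul_le_mul_of_nonneg_right a2 a4]
  rw [← mul_sum] at h3
  have h4 := (harm_int I).trans (mul_le_mul_of_nonneg_left
    (hL.log_le (by rw [hI]; positivity) (by rw [hI]; push_cast; linarith)) (by norm_num))
  have h5 : (0 : ℝ) ≤ N * (M + Y) := by positivity
  have h6 : 1 ≤ Λ ^ 5 := one_le_pow₀ (by linarith)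
  calc _ ≤ 112 * (50 * Λ ^ 4 * (N * (M + Y))) * (3 * Λ) + Λ ^ 5 * (N * (M + Y)) := by
        refine add_le_add (h3.trans (by gcongr)) (h1.trans ?_)
        have : (N : ℝ) * Y ≤ N * (M + Y) := by gcongr; linarith
        nlinarith
    _ = 16801 * Λ ^ 5 * (N * (M + Y)) := by ring
    _ ≤ Λ ^ 2 * Λ ^ 5 * (N * (M + Y)) := by gcongr; nlinarith
    _ = _ := by ring

lemma wt_am {p q : ℕ} : wt p * wt q ≤ (1 / (p : ℝ) + 1 / q) / 2 := by
  have h : ∀ n : ℕ, wt n ^ 2 = 1 / (n : ℝ) := fun n => by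
    rw [wt, div_pow, Real.sq_sqrt (by positivity), one_pow]
  rw [← h, ← h]
  nlinarith [sq_nonneg (wt p - wt q)]

lemma quad {Λ B : ℝ} (hL : Loss Λ B) {N M : ℕ} (hM : 0 < M) (hMB : (M : ℝ) ≤ B)
    (hB : 7 * ((M : ℝ) * N) ≤ B) (θ : ℝ) :
    ∑ z ∈ Icc 1 M ×ˢ Icc 1 M, wt z.1 * wt z.2 * ∑ k ∈ Icc 1 N ×ˢ Icc 1 N,
      (Phi (2 * (N * M)) (Lg k.1 - Lg k.2 + θ + (Lg z.1 - Lg z.2)) + 1)
      ≤ 4 * Λ ^ 5 * (N ^ 2 * M) := by
  have hΛ := hL.big
  set L := 2 * (N * M) with hLd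
  set G : ℕ → ℕ → ℝ := fun p q => ∑ k ∈ Icc 1 N ×ˢ Icc 1 N,
      (Phi L (Lg k.1 - Lg k.2 + θ + (Lg p - Lg q)) + 1) with hG
  have hG0 : ∀ p q, 0 ≤ G p q := fun p q => sum_nonneg fun k _ => by
    have := Phi_nonneg L (Lg k.1 - Lg k.2 + θ + (Lg p - Lg q)); linarith
  have a2 : 1 ≤ Λ ^ 4 := one_le_pow₀ (by linarith)
  have key : ∀ θ' : ℝ, ∑ z ∈ Icc 1 M ×ˢ Icc 1 N, (Phi L (θ' + Lg z.1 + Lg z.2) + 1)
      ≤ 4 * Λ ^ 4 * (N * M) := by
    intro θ'
    have a1 := LSD hL L M N hB θ'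
    rw [sum_add_distrib, sum_const, card_product, Nat.card_Icc, Nat.card_Icc,
      add_tsub_cancel_right, add_tsub_cancel_right, nsmul_eq_mul, mul_one]
    rw [hLd] at a1 ⊢
    push_cast at a1 ⊢
    have a4 : (0 : ℝ) ≤ N * M := by positivity
    nlinarith [mul_le_mul_of_nonneg_right a2 a4]
  have tot : ∀ f : ℕ → ℝ, (∀ n, f n ≤ 4 * Λ ^ 4 * (N * M)) →
      ∑ n ∈ Icc 1 N, f n ≤ 4 * Λ ^ 4 * (N ^ 2 * M) := by
    intro f hf
    have h := sum_le_card_nsmul (Icc 1 N) f _ fun n _ => hf n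
    rw [Nat.card_Icc, add_tsub_cancel_right, nsmul_eq_mul] at h
    exact h.trans (le_of_eq (by ring))
  have h1 : ∀ q, ∑ p ∈ Icc 1 M, G p q ≤ 4 * Λ ^ 4 * (N ^ 2 * M) := by
    intro q
    simp only [hG, sum_product_right]
    rw [sum_comm]
    refine tot _ fun n => ?_
    refine le_trans (le_of_eq ?_) (key (θ - Lg n - Lg q))
    rw [sum_product]
    refine sum_congr rfl fun p _ => sum_congr rfl fun k _ => ?_
    congr 2; ring
  have h2 : ∀ p, ∑ q ∈ Icc 1 M, G p q ≤ 4 * Λ ^ 4 * (N ^ 2 * M) := by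
    intro p
    simp only [hG, sum_product]
    rw [sum_comm]
    refine tot _ fun n => ?_
    refine le_trans (le_of_eq ?_) (key (-θ - Lg n - Lg p))
    rw [sum_product]
    refine sum_congr rfl fun q _ => sum_congr rfl fun k _ => ?_
    rw [← Phi_neg]
    congr 2; ring
  have h3 : ∑ d ∈ Icc 1 M, (1 : ℝ) / d ≤ Λ :=
    (harm_le M).trans (hL.log_le (by exact_mod_cast hM) hMB)
  set C := 4 * Λ ^ 4 * ((N : ℝ) ^ 2 * M) with hC
  have hC0 : 0 ≤ C := by positivity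
  have h4 : ∑ z ∈ Icc 1 M ×ˢ Icc 1 M, 1 / (z.1 : ℝ) * G z.1 z.2 ≤ Λ * C := by
    rw [sum_product]
    calc _ ≤ ∑ p ∈ Icc 1 M, 1 / (p : ℝ) * C := sum_le_sum fun p _ => by
          simp only [← mul_sum]; gcongr; exact h2 p
      _ ≤ _ := by rw [← sum_mul]; gcongr
  have h5 : ∑ z ∈ Icc 1 M ×ˢ Icc 1 M, 1 / (z.2 : ℝ) * G z.1 z.2 ≤ Λ * C := by
    rw [sum_product_right]
    calc _ ≤ ∑ q ∈ Icc 1 M, 1 / (q : ℝ) * C := sum_le_sum fun q _ => by
          simp only [← mul_sum]; gcongr; exact h1 q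
      _ ≤ _ := by rw [← sum_mul]; gcongr
  calc _ ≤ ∑ z ∈ Icc 1 M ×ˢ Icc 1 M,
        (1 / (z.1 : ℝ) * G z.1 z.2 + 1 / (z.2 : ℝ) * G z.1 z.2) / 2 := sum_le_sum fun z _ => by
        refine (mul_le_mul_of_nonneg_right wt_am (hG0 z.1 z.2)).trans (le_of_eq (by ring))
    _ ≤ (Λ * C + Λ * C) / 2 := by rw [← sum_div, sum_add_distrib]; gcongr
    _ = _ := by rw [hC]; ring

lemma S2count {Λ B : ℝ} (hL : Loss Λ B) {P N M H T : ℕ} (hp : Par B P N M H T) :
    ∑ x ∈ XX P, (∑ k ∈ Icc 1 N ×ˢ Icc 1 N, Phi (2 * (N * M)) (Lg k.1 - Lg k.2 + (x : ℝ) / P))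
      * kk P N M x ≤ Λ ^ 8 * (P * N * M) := by
  obtain ⟨-, -, -, -, -, hK, hB1, hB⟩ := hp.basic
  have hΛ := hL.big
  have hN := hp.hN
  have hM := hp.hM
  have hNM : 0 < N * M := Nat.mul_pos hN hM
  have hP : 0 < P := by omega
  have hP' : (0 : ℝ) < P := by exact_mod_cast hP
  have hM' : (1 : ℝ) ≤ M := by exact_mod_cast hM
  have hN' : (1 : ℝ) ≤ N := by exact_mod_cast hN
  have hK' : 2000 * ((N : ℝ) * M) ≤ P := by exact_mod_cast hK
  set L := 2 * (N * M) with hLd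
  set I := P * (M + 2) with hI
  simp only [kk, mul_sum]
  rw [sum_comm]
  have h1 : ∀ z ∈ Icc 1 M ×ˢ Icc 1 M,
      ∑ x ∈ XX P, (∑ k ∈ Icc 1 N ×ˢ Icc 1 N, Phi L (Lg k.1 - Lg k.2 + (x : ℝ) / P))
        * kap N (z.2 * vv P x - z.1)
      ≤ ∑ i ∈ Icc (-(I : ℤ)) I, 16 * (P / N) * (1 / max (1 : ℝ) |(i : ℝ)|)
        * (wt z.1 * wt z.2 * ∑ k ∈ Icc 1 N ×ˢ Icc 1 N,
          (Phi L (Lg k.1 - Lg k.2 + (i : ℝ) / P + (Lg z.1 - Lg z.2)) + 1)) := by
    intro z hz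
    obtain ⟨hp1, hq⟩ := mem_product.1 hz
    set j := round (P * (Lg z.1 - Lg z.2)) with hj
    have b2 : |P * (Lg z.1 - Lg z.2) - j| ≤ 1 / 2 := abs_sub_round _
    have hw0 := mul_nonneg (wt_nonneg z.1) (wt_nonneg z.2)
    have hs0 : ∀ i : ℤ, 0 ≤ ∑ k ∈ Icc 1 N ×ˢ Icc 1 N,
        (Phi L (Lg k.1 - Lg k.2 + (i : ℝ) / P + (Lg z.1 - Lg z.2)) + 1) := fun i =>
      sum_nonneg fun k _ => by
        have := Phi_nonneg L (Lg k.1 - Lg k.2 + (i : ℝ) / P + (Lg z.1 - Lg z.2)); linarith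
    refine sum_le_of_inj _ _ (fun x => x - j) _ _ (by intro a _ b _ h; simpa using h) ?_ ?_
      (fun i _ => by have := hs0 i; positivity)
    · intro x hx
      have c1 : ∀ n ∈ Icc 1 M, Lg n ≤ M := by
        intro n hn
        rw [mem_Icc] at hn
        have d1 : (1 : ℝ) ≤ n := by exact_mod_cast hn.1
        have d2 : (n : ℝ) ≤ M := by exact_mod_cast hn.2
        have d4 := Real.log_le_sub_one_of_pos (by linarith : (0 : ℝ) < n)
        have d5 := Real.pi_gt_three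
        rw [Lg, div_le_iff₀ (by positivity)]; nlinarith
      have c2 := c1 _ hp1
      have c3 := c1 _ hq
      have c2' := Lg_nonneg z.1
      have c3' := Lg_nonneg z.2
      have c4 : |(j : ℝ)| ≤ P * M + 1 := by
        rw [abs_le] at b2 ⊢
        constructor <;> nlinarith
      have c5 : |j| ≤ P * M + 1 := by exact_mod_cast c4
      rw [mem_XX] at hx
      rw [abs_le] at c5
      rw [mem_Icc, hI]; push_cast
      constructor <;> nlinarith
    · intro x hx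
      have c1 := kap_near hN (by omega : N * M ≤ P) hp1 hq hx
      rw [← hj] at c1
      have c2 : ∑ k ∈ Icc 1 N ×ˢ Icc 1 N, Phi L (Lg k.1 - Lg k.2 + (x : ℝ) / P)
          ≤ 2 * ∑ k ∈ Icc 1 N ×ˢ Icc 1 N,
            (Phi L (Lg k.1 - Lg k.2 + ((x - j : ℤ) : ℝ) / P + (Lg z.1 - Lg z.2)) + 1) := by
        rw [mul_sum]
        refine sum_le_sum fun k _ => ?_
        have a2 := Phi_round hp (Lg k.1 - Lg k.2 + ((x - j : ℤ) : ℝ) / P) (Lg z.1 - Lg z.2)
        rwa [← hj, show Lg k.1 - Lg k.2 + ((x - j : ℤ) : ℝ) / P + (j : ℝ) / P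
          = Lg k.1 - Lg k.2 + (x : ℝ) / P by push_cast; ring] at a2
      have := hs0 (x - j)
      refine (mul_le_mul c2 c1 (kap_nonneg _ _) (by positivity)).trans (le_of_eq ?_)
      ring
  refine (sum_le_sum h1).trans ?_
  rw [sum_comm]
  have h2 : ∀ i ∈ Icc (-(I : ℤ)) I, ∑ z ∈ Icc 1 M ×ˢ Icc 1 M,
      16 * (P / N) * (1 / max (1 : ℝ) |(i : ℝ)|)
        * (wt z.1 * wt z.2 * ∑ k ∈ Icc 1 N ×ˢ Icc 1 N,
          (Phi L (Lg k.1 - Lg k.2 + (i : ℝ) / P + (Lg z.1 - Lg z.2)) + 1))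
      ≤ 16 * (P / N) * (4 * Λ ^ 5 * (N ^ 2 * M)) * (1 / max (1 : ℝ) |(i : ℝ)|) := by
    intro i _
    rw [← mul_sum, mul_right_comm]
    gcongr
    exact quad hL hM (by nlinarith) (by nlinarith) _
  refine (sum_le_sum h2).trans ?_
  rw [← mul_sum]
  have h3 := (harm_int I).trans (mul_le_mul_of_nonneg_left
    (hL.log_le (by rw [hI]; positivity) hB1) (by norm_num))
  calc _ ≤ 16 * (P / N) * (4 * Λ ^ 5 * (N ^ 2 * M)) * (3 * Λ) := by gcongr
    _ = 192 * Λ ^ 6 * (P * N * M) := by field_simp; ring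
    _ ≤ Λ ^ 2 * Λ ^ 6 * (P * N * M) := by gcongr; nlinarith
    _ = _ := by ring

end Pool.Agent.Lib.MP_a93a41_nt.GM
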