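import Pool.Agent.Lib.MP_a93a41_nt.NF1

/-! Upper bounds for the trace with signed weights. -/

namespace Pool.Agent.Lib.MP_a93a41_nt.GM

open Finset Real Pool.Agent.Lib.LargeSieve

lemma trace_id2 (P N M : ℕ) (U : Finset ℤ) (f : ℤ → ℝ) (s : ℤ) :
    ((∑ j ∈ JJ P, mu P N M j * ‖gm P N M U f s j‖ ^ 2 : ℝ) : ℂ)
      = ∑ t ∈ U, ∑ t' ∈ U, ((f t * f t' : ℝ) : ℂ)
          * (ZZ P N M (s - t) * ZZ P N M (t - t') * ZZ P N M (t' - s))
        + ((N * ∑ t ∈ U, f t ^ 2 * ‖ZZ P N M (s - t)‖ ^ 2 : ℝ) : ℂ) := by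
  have e1 : ∀ j : ℤ, ((‖gm P N M U f s j‖ ^ 2 : ℝ) : ℂ) = ∑ t ∈ U, ∑ t' ∈ U,
      (f t : ℂ) * ZZ P N M (s - t) * ((f t' : ℂ) * ZZ P N M (t' - s))
        * ee (((t - t' : ℤ) : ℝ) * ((j : ℝ) / P)) := by
    intro j
    have := normsq_ft U (fun t => (f t : ℂ) * ZZ P N M (s - t)) ((j : ℝ) / P)
    simp only [map_mul, Complex.conj_ofReal, conj_ZZ, neg_sub] at this
    exact this
  rw [Complex.ofReal_sum]
  simp only [Complex.ofReal_mul, e1, mul_sum]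
  rw [sum_comm, Complex.ofReal_sum, ← sum_add_distrib]
  refine sum_congr rfl fun t ht => ?_
  rw [sum_comm]
  have e2 : ∀ t' ∈ U, ∑ j ∈ JJ P, (mu P N M j : ℂ) * ((f t : ℂ) * ZZ P N M (s - t)
      * ((f t' : ℂ) * ZZ P N M (t' - s)) * ee (((t - t' : ℤ) : ℝ) * ((j : ℝ) / P)))
      = (f t : ℂ) * f t' * (ZZ P N M (s - t) * ZZ P N M (t - t') * ZZ P N M (t' - s))
        + if t = t' then N * ((f t : ℂ) * f t' * (ZZ P N M (s - t) * ZZ P N M (t' - s)))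
          else 0 := by
    intro t' _
    have : GG P N M (t - t') = ZZ P N M (t - t') + if t = t' then (N : ℂ) else 0 := by
      simp [ZZ, sub_eq_zero]
    calc _ = (f t : ℂ) * f t' * (ZZ P N M (s - t) * ZZ P N M (t' - s)) * GG P N M (t - t') := by
          rw [GG, mul_sum]; exact sum_congr rfl fun j _ => by ring
      _ = _ := by rw [this]; split_ifs <;> ring
  rw [sum_congr rfl e2, sum_add_distrib, sum_ite_eq, if_pos ht]
  congr 1
  push_cast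
  rw [← Complex.mul_conj', conj_ZZ, neg_sub]
  ring

lemma S3_gen {P N M : ℕ} (hN : 0 < N) (hM : 0 < M) (hK : (2000 * (N * M)) ^ 2 ≤ P) (hE : 2 ∣ P)
    {W U : Finset ℤ} (h1 : ∀ s ∈ W, ∀ t ∈ U, |s - t| < P) (h2 : ∀ t ∈ U, ∀ t' ∈ U, |t - t'| < P)
    (f : ℤ → ℝ) :
    ‖∑ s ∈ W, ∑ t ∈ U, ∑ t' ∈ U, ((f t * f t' : ℝ) : ℂ)
        * (ZZ P N M (s - t) * ZZ P N M (t - t') * ZZ P N M (t' - s))‖
      ≤ (N / P) ^ 3 * (2000 * P) * Tri P N M (fun x y => fr W (fun _ => 1) ((x : ℝ) / P)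
        * (fr U f (((y - x : ℤ) : ℝ) / P) * fr U f ((y : ℝ) / P))) := by
  have hNM : 1 ≤ N * M := Nat.mul_pos hN hM
  have hP : 0 < P := lt_of_lt_of_le (by positivity) hK
  set R := ft U (fun u => ((f u : ℝ) : ℂ)) with hR
  set Q := ft W (fun _ => ((1 : ℝ) : ℂ)) with hQ
  have e1 : ∑ s ∈ W, ∑ t ∈ U, ∑ t' ∈ U, ((f t * f t' : ℝ) : ℂ)
        * (ZZ P N M (s - t) * ZZ P N M (t - t') * ZZ P N M (t' - s))
      = (N / P : ℂ) ^ 3 * ∑ j ∈ JJ P ×ˢ JJ P ×ˢ JJ P, ph P N M j.1 * ph P N M j.2.1 * ph P N M j.2.2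
        * (Q (((j.1 - j.2.2 : ℤ) : ℝ) / P)
          * (R (((j.2.1 - j.1 : ℤ) : ℝ) / P) * R (((j.2.2 - j.2.1 : ℤ) : ℝ) / P))) := by
    have l1 : ∑ s ∈ W, ∑ t ∈ U, ∑ t' ∈ U, ((f t * f t' : ℝ) : ℂ)
        * (ZZ P N M (s - t) * ZZ P N M (t - t') * ZZ P N M (t' - s))
        = ∑ w ∈ W ×ˢ U ×ˢ U, ((f w.2.1 * f w.2.2 : ℝ) : ℂ) *
          (ZZ P N M (w.1 - w.2.1) * ZZ P N M (w.2.1 - w.2.2) * ZZ P N M (w.2.2 - w.1)) := by
      simp only [sum_product]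
    rw [l1]
    simp only [hR, hQ, ft, mul3']
    simp only [mul_sum]
    rw [sum_comm (s := JJ P ×ˢ JJ P ×ˢ JJ P)]
    refine sum_congr rfl fun w hw => ?_
    obtain ⟨u, t, t'⟩ := w
    simp only [mem_product] at hw
    simp only
    rw [ZZ_eq hP hM (t := u - t) (h1 _ hw.1 _ hw.2.1),
      ZZ_eq hP hM (t := t - t') (h2 _ hw.2.1 _ hw.2.2),
      ZZ_eq hP hM (t := t' - u) (by rw [abs_sub_comm]; exact h1 _ hw.1 _ hw.2.2),
      show ∀ c x y z : ℂ, c * x * (c * y) * (c * z) = c ^ 3 * (x * y * z) by intros; ring,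
      mul3, mul_sum, mul_sum]
    refine sum_congr rfl fun j _ => ?_
    obtain ⟨j1, j2, j3⟩ := j
    simp only
    have b : ee (((u - t : ℤ) : ℝ) * ((j1 : ℝ) / P)) * ee (((t - t' : ℤ) : ℝ) * ((j2 : ℝ) / P))
        * ee (((t' - u : ℤ) : ℝ) * ((j3 : ℝ) / P))
        = ee (u * (((j1 - j3 : ℤ) : ℝ) / P)) * (ee (t * (((j2 - j1 : ℤ) : ℝ) / P))
          * ee (t' * (((j3 - j2 : ℤ) : ℝ) / P))) := by
      simp only [← ee_add]; congr 1; push_cast; ring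
    push_cast at b ⊢
    linear_combination (f t * f t' * (N / P) ^ 3 * ph P N M j1 * ph P N M j2 * ph P N M j3) * b
  rw [e1, reindex3 P (fun j1 j2 j3 => ph P N M j1 * ph P N M j2 * ph P N M j3
        * (Q (((j1 - j3 : ℤ) : ℝ) / P)
          * (R (((j2 - j1 : ℤ) : ℝ) / P) * R (((j3 - j2 : ℤ) : ℝ) / P)))), norm_mul, mul_assoc]
  refine mul_le_mul (le_of_eq (by simp)) ?_ (norm_nonneg _) (by positivity)
  rw [Tri, sum_product_right, mul_sum]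
  refine (norm_sum_le _ _).trans (sum_le_sum fun p hp => ?_)
  have hp' := hp
  simp only [Dm, mem_filter, mem_product, mem_XX] at hp'
  have e2 : ∑ z ∈ I3 P p.1 p.2, ph P N M (z + p.1) * ph P N M (z + p.2) * ph P N M z
        * (Q (((z + p.1 - z : ℤ) : ℝ) / P)
          * (R (((z + p.2 - (z + p.1) : ℤ) : ℝ) / P) * R (((z - (z + p.2) : ℤ) : ℝ) / P)))
      = ∑ m ∈ MMM M, (Q ((p.1 : ℝ) / P)
          * (R (((p.2 - p.1 : ℤ) : ℝ) / P) * R (-((p.2 : ℝ) / P))))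
        * ((cm M m.1 * cm M m.2.1 * cm M m.2.2 : ℝ) * ∑ z ∈ I3 P p.1 p.2,
          ee (N * (m.1 * vv P p.1 + m.2.1 * vv P p.2 + m.2.2) * vv P z)) := by
    simp only [mul_sum]
    rw [sum_comm]
    refine sum_congr rfl fun z _ => ?_
    rw [show z + p.1 - z = p.1 by ring, show z + p.2 - (z + p.1) = p.2 - p.1 by ring,
      show ((z - (z + p.2) : ℤ) : ℝ) / P = -((p.2 : ℝ) / P) by push_cast; ring, mul_comm,
      ← mul_sum]
    congr 1
    simp only [ph, MMM, mul3]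
    refine sum_congr rfl fun m _ => ?_
    obtain ⟨m1, m2, m3⟩ := m
    simp only
    have b : ee (N * (m1 * vv P p.1 + m2 * vv P p.2 + m3) * vv P z)
        = ee (m1 * (N * vv P (z + p.1))) * ee (m2 * (N * vv P (z + p.2)))
          * ee (m3 * (N * vv P z)) := by
      simp only [← ee_add, vv_add]; congr 1; ring
    rw [b]; push_cast; ring
  rw [e2, mul_sum]
  refine (norm_sum_le _ _).trans (sum_le_sum fun m hm => ?_)
  simp only [MMM, mem_product, mem_Ms] at hm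
  simp only
  have k := Kkap hN hM hK hE (β := m.1 * vv P p.1 + m.2.1 * vv P p.2 + m.2.2) (by
    have c1 := abs_mul_vv hP hm.1.2 hp'.1.1.2
    have c2 := abs_mul_vv hP hm.2.1.2 hp'.1.2.2
    have c3 : |(m.2.2 : ℝ)| ≤ M := by exact_mod_cast abs_le.2 hm.2.2.2
    have c4 := abs_add_three (m.1 * vv P p.1) (m.2.1 * vv P p.2) m.2.2
    have : (0 : ℝ) ≤ M := by positivity
    linarith) _ _ ((le_max_left _ (-((P / 2 : ℕ) : ℤ) - p.1)).trans
        (le_max_left _ (-((P / 2 : ℕ) : ℤ) - p.2)))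
      ((min_le_left _ (-((P / 2 : ℕ) : ℤ) + P - p.2)).trans
        (min_le_left _ (-((P / 2 : ℕ) : ℤ) + P - p.1)))
  have c : ‖((cm M m.1 * cm M m.2.1 * cm M m.2.2 : ℝ) : ℂ)‖ ≤ 1 := by
    have := cm_nonneg M m.1
    have := cm_nonneg M m.2.1
    have := cm_nonneg M m.2.2
    rw [Complex.norm_real, Real.norm_eq_abs, abs_of_nonneg (by positivity)]
    exact mul_le_one₀ (mul_le_one₀ (cm_le_one _ _) (cm_nonneg _ _) (cm_le_one _ _))
      (cm_nonneg _ _) (cm_le_one _ _)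
  rw [norm_mul, norm_mul, norm_mul, norm_mul]
  have d : ‖R (-((p.2 : ℝ) / P))‖ = fr U f ((p.2 : ℝ) / P) := fr_neg U _ _
  rw [d]
  have := fr_nonneg W (fun _ => 1) ((p.1 : ℝ) / P)
  have := fr_nonneg U f (((p.2 - p.1 : ℤ) : ℝ) / P)
  have := fr_nonneg U f ((p.2 : ℝ) / P)
  calc _ ≤ fr W (fun _ => 1) ((p.1 : ℝ) / P) * (fr U f (((p.2 - p.1 : ℤ) : ℝ) / P)
        * fr U f ((p.2 : ℝ) / P)) * (1 * (2000 * P
          * kap N (m.1 * vv P p.1 + m.2.1 * vv P p.2 + m.2.2))) :=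
        mul_le_mul_of_nonneg_left (mul_le_mul c k (norm_nonneg _) zero_le_one) (by positivity)
    _ = _ := by ring

lemma S2_half2 {P N M : ℕ} (hN : 0 < N) (hM : 0 < M)
    (hK : (2000 * (N * M)) ^ 2 ≤ P) (hE : 2 ∣ P) (U : Finset ℤ) (s : ℤ) (ω : ℤ → ℝ)
    (σ : ℝ) (hσ : |σ| = 1) (c : ℕ → ℝ) (hc : ∀ p, |c p| ≤ 1) :
    ∑ u ∈ U, ω u * ‖(N / P : ℂ) * ∑ j ∈ JJ P,
        (∑ p ∈ Icc 1 M, (c p : ℂ) * ee (σ * p * (N * vv P j)))
          * ee (((u - s : ℤ) : ℝ) * ((j : ℝ) / P))‖ ^ 2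
      ≤ 2000 * ((N : ℝ) ^ 2 / P) * ∑ x ∈ XX P, fr U ω ((x : ℝ) / P) * kk P N M x := by
  have hNM : 1 ≤ N * M := Nat.mul_pos hN hM
  have hP : 0 < P := lt_of_lt_of_le (by positivity) hK
  have hN' : (0 : ℝ) < N := by exact_mod_cast hN
  have hP' : (0 : ℝ) < P := by exact_mod_cast hP
  set ψ : ℤ → ℂ := fun j => ∑ p ∈ Icc 1 M, (c p : ℂ) * ee (σ * p * (N * vv P j)) with hψ
  set R : ℝ → ℂ := fun α => ee (s * α) with hR
  have e1 : ((∑ u ∈ U, ω u * ‖(N / P : ℂ) * ∑ j ∈ JJ P,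
        ψ j * ee (((u - s : ℤ) : ℝ) * ((j : ℝ) / P))‖ ^ 2 : ℝ) : ℂ)
      = (N / P : ℂ) ^ 2 * ∑ j ∈ JJ P ×ˢ JJ P, ψ j.1 * (starRingEnd ℂ) (ψ j.2)
        * (ft U (fun u => (ω u : ℂ)) (((j.1 - j.2 : ℤ) : ℝ) / P)
          * R (-(((j.1 - j.2 : ℤ) : ℝ) / P))) := by
    have l1 : ∀ s : ℤ, ((‖(N / P : ℂ) * ∑ j ∈ JJ P, ψ j * ee ((s : ℝ) * ((j : ℝ) / P))‖ ^ 2 : ℝ) : ℂ)
        = (N / P : ℂ) ^ 2 * ∑ j ∈ JJ P ×ˢ JJ P, ψ j.1 * (starRingEnd ℂ) (ψ j.2)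
          * ee ((s : ℝ) * (((j.1 - j.2 : ℤ) : ℝ) / P)) := by
      intro s
      push_cast
      rw [← Complex.mul_conj', map_mul, map_sum, map_div₀, map_natCast, map_natCast,
        show ∀ c x y : ℂ, c * x * (c * y) = c ^ 2 * (x * y) by intros; ring, sum_mul_sum,
        ← sum_product']
      congr 1
      refine sum_congr rfl fun j _ => ?_
      rw [map_mul, conj_ee, show (s : ℝ) * ((j.1 - j.2) / P) = s * (j.1 / P) + -(s * (j.2 / P)) by
        ring, ee_add]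
      ring
    simp only [Complex.ofReal_sum, Complex.ofReal_mul, l1]
    simp only [hR, ft, sum_mul]
    simp only [mul_sum]
    rw [sum_comm (s := JJ P ×ˢ JJ P)]
    refine sum_congr rfl fun u _ => sum_congr rfl fun j _ => ?_
    rw [show ((u - s : ℤ) : ℝ) * (((j.1 - j.2 : ℤ) : ℝ) / P) = u * (((j.1 - j.2 : ℤ) : ℝ) / P)
      + s * -(((j.1 - j.2 : ℤ) : ℝ) / P) by push_cast; ring, ee_add]
    push_cast; ring
  rw [reindex2 P (fun j1 j2 => ψ j1 * (starRingEnd ℂ) (ψ j2)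
        * (ft U (fun u => (ω u : ℂ)) (((j1 - j2 : ℤ) : ℝ) / P)
          * R (-(((j1 - j2 : ℤ) : ℝ) / P))))] at e1
  have h3 := congrArg norm e1
  rw [Complex.norm_real, Real.norm_eq_abs] at h3
  refine (le_abs_self _).trans (h3.le.trans ?_)
  have h4 : ∀ x ∈ XX P, ‖∑ z ∈ I2 P x, ψ (z + x) * (starRingEnd ℂ) (ψ z)
        * (ft U (fun u => (ω u : ℂ)) (((z + x - z : ℤ) : ℝ) / P)
          * R (-(((z + x - z : ℤ) : ℝ) / P)))‖
      ≤ 2000 * P * (fr U ω ((x : ℝ) / P) * kk P N M x) := by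
    intro x hx
    rw [mem_XX] at hx
    simp only [add_sub_cancel_left]
    rw [← sum_mul, norm_mul, norm_mul]
    have d : ‖R (-((x : ℝ) / P))‖ = 1 := norm_ee _
    rw [d]
    have e2 : ∑ z ∈ I2 P x, ψ (z + x) * (starRingEnd ℂ) (ψ z)
        = ∑ w ∈ Icc 1 M ×ˢ Icc 1 M, ((c w.1 * c w.2 : ℝ) : ℂ)
          * ∑ z ∈ I2 P x, ee (N * (σ * (w.2 * vv P x - w.1)) * vv P z) := by
      simp only [mul_sum]
      rw [sum_comm]
      refine sum_congr rfl fun z _ => ?_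
      simp only [hψ, map_sum, map_mul, conj_ee, Complex.conj_ofReal]
      rw [mul_comm, sum_mul_sum, ← sum_product']
      refine sum_congr rfl fun w _ => ?_
      rw [show N * (σ * (w.2 * vv P x - w.1)) * vv P z = -(σ * w.1 * (N * vv P z))
        + σ * w.2 * (N * vv P (z + x)) by rw [vv_add]; ring, ee_add]
      push_cast; ring
    have e3 : ‖∑ z ∈ I2 P x, ψ (z + x) * (starRingEnd ℂ) (ψ z)‖ ≤ 2000 * P * kk P N M x := by
      rw [e2, kk, mul_sum]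
      refine (norm_sum_le _ _).trans (sum_le_sum fun w hw => ?_)
      simp only [mem_product, mem_Icc] at hw
      have k1 := Kkap hN hM hK hE (β := σ * (w.2 * vv P x - w.1)) (by
        have c1 := abs_mul_vv (M := M) hP (m := w.2) (x := x) (by omega) hx.2
        have c2 : (w.1 : ℝ) ≤ M := by exact_mod_cast hw.1.2
        have c3 := abs_sub ((w.2 : ℝ) * vv P x) w.1
        rw [Nat.abs_cast] at c3
        rw [abs_mul, hσ, one_mul]
        push_cast at c1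
        have : (0 : ℝ) ≤ M := by positivity
        linarith) _ _ (le_max_left _ (-((P / 2 : ℕ) : ℤ) - x))
        (min_le_left _ (-((P / 2 : ℕ) : ℤ) + P - x))
      have k2 : kap N (σ * (w.2 * vv P x - w.1)) = kap N (w.2 * vv P x - w.1) := by
        simp only [kap, abs_mul, hσ, one_mul]
      rw [k2] at k1
      rw [norm_mul, Complex.norm_real, Real.norm_eq_abs, abs_mul]
      exact (mul_le_mul (mul_le_one₀ (hc _) (abs_nonneg _) (hc _)) k1 (norm_nonneg _)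
        zero_le_one).trans (le_of_eq (one_mul _))
    have := fr_nonneg U ω ((x : ℝ) / P)
    calc _ ≤ 2000 * P * kk P N M x * (fr U ω ((x : ℝ) / P) * 1) :=
          mul_le_mul_of_nonneg_right e3 (by positivity)
      _ = _ := by ring
  have h5 := (norm_sum_le _ _).trans (sum_le_sum h4)
  rw [← mul_sum] at h5
  rw [norm_mul]
  calc _ ≤ ((N : ℝ) / P) ^ 2 * (2000 * P * ∑ x ∈ XX P, fr U ω ((x : ℝ) / P) * kk P N M x) :=
        mul_le_mul (le_of_eq (by simp)) h5 (norm_nonneg _) (by positivity)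
    _ = _ := by field_simp

lemma S2_gen {P N M : ℕ} (hN : 0 < N) (hM : 0 < M) (hK : (2000 * (N * M)) ^ 2 ≤ P) (hE : 2 ∣ P)
    {U : Finset ℤ} {s : ℤ} (h1 : ∀ t ∈ U, |s - t| < P) (ω : ℤ → ℝ) (hω : ∀ u ∈ U, 0 ≤ ω u) :
    ∑ t ∈ U, ω t * ‖ZZ P N M (s - t)‖ ^ 2
      ≤ 8000 * ((N : ℝ) ^ 2 / P) * ∑ x ∈ XX P, fr U ω ((x : ℝ) / P) * kk P N M x := by
  have hNM : 1 ≤ N * M := Nat.mul_pos hN hM
  have hP : 0 < P := lt_of_lt_of_le (by positivity) hK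
  have a1 := S2_half2 hN hM hK hE U s ω 1 (by simp) (fun p => cm M p)
    (fun p => by rw [abs_of_nonneg (cm_nonneg _ _)]; exact cm_le_one _ _)
  have a2 := S2_half2 hN hM hK hE U s ω (-1) (by simp) (fun p => cm M (-p))
    (fun p => by rw [abs_of_nonneg (cm_nonneg _ _)]; exact cm_le_one _ _)
  refine le_trans ?_ (le_trans (mul_le_mul_of_nonneg_left (add_le_add a1 a2) zero_le_two)
    (le_of_eq (by ring)))
  rw [← sum_add_distrib, mul_sum]
  refine sum_le_sum fun u hu => ?_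
  rw [← mul_add, mul_left_comm]
  refine mul_le_mul_of_nonneg_left ?_ (hω u hu)
  rw [← Complex.norm_conj, conj_ZZ, neg_sub,
    ZZ_eq hP hM (t := u - s) (by rw [abs_sub_comm]; exact h1 u hu)]
  simp only [ph_split, add_mul, sum_add_distrib, mul_add]
  refine (pow_le_pow_left₀ (norm_nonneg _) (norm_add_le _ _) 2).trans ?_
  exact (add_sq_le).trans (le_of_eq (by ring))

lemma PS_real (X Y : ℕ) (a : ℕ → ℂ) (u : ℤ) :
    (((PS (Hi X Y) a u).re : ℝ) : ℂ) = PS (Hi X Y) a u := by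
  apply Complex.conj_eq_iff_re.1
  simp only [PS, map_sum, map_mul, conj_ee, Complex.conj_conj]
  have hs : ∀ x ∈ Hi X Y, x.swap ∈ Hi X Y := by
    intro x hx
    simp only [Hi, mem_filter, mem_product, Prod.fst_swap, Prod.snd_swap] at hx ⊢
    exact ⟨⟨hx.1.2, hx.1.1⟩, by
      simp only [lowP, Prod.fst_swap, Prod.snd_swap] at hx ⊢; rw [Nat.gcd_comm]; exact hx.2⟩
  apply sum_nbij' Prod.swap Prod.swap hs hs (fun _ _ => rfl) (fun _ _ => rfl)
  intro x _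
  simp only [Prod.fst_swap, Prod.snd_swap]
  rw [show -((u : ℝ) * (Lg x.1 - Lg x.2)) = u * (Lg x.2 - Lg x.1) by ring]
  ring

lemma PS_split (X Y : ℕ) (a : ℕ → ℂ) (u : ℤ) :
    ((‖DP X a u‖ ^ 2 : ℝ) : ℂ) = PS (Hi X Y) a u + PS (Lo X Y) a u := by
  rw [add_comm, PS, PS, Hi, Lo, sum_filter_add_sum_filter_not]
  push_cast
  rw [← Complex.mul_conj', DP, map_sum, sum_mul_sum, ← sum_product']
  refine sum_congr rfl fun x _ => ?_
  rw [map_mul, conj_ee]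
  rw [show (u : ℝ) * (Lg x.1 - Lg x.2) = u * Lg x.1 + -(u * Lg x.2) by ring, ee_add]
  ring

lemma psi_bd {ι : Type*} {L : ℕ} (hL : 0 < L) (A : ℤ) (S : Finset ι) (c : ι → ℂ)
    (hc : ∀ i, ‖c i‖ ≤ 1) (θ : ι → ℝ) (α : ℝ) (F : ℤ → ℝ)
    (hF : ∀ u, (F u : ℂ) = ∑ i ∈ S, c i * ee (u * θ i)) :
    fr (UU L A) (fun u => cm L (u - A) * F u) α ≤ ∑ i ∈ S, Phi L (α + θ i) := by
  have e : ft (UU L A) (fun u => ((cm L (u - A) * F u : ℝ) : ℂ)) α
      = ∑ i ∈ S, c i * (ee (A * (α + θ i)) * (Phi L (α + θ i) : ℝ)) := by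
    simp only [← psi_ft hL, ft, mul_sum]
    rw [sum_comm]
    refine sum_congr rfl fun u _ => ?_
    rw [Complex.ofReal_mul, hF, mul_sum, sum_mul]
    refine sum_congr rfl fun i _ => ?_
    rw [mul_add, ee_add]; ring
  rw [fr, e]
  refine (norm_sum_le _ _).trans (sum_le_sum fun i _ => ?_)
  rw [norm_mul, norm_mul, norm_ee, one_mul, Complex.norm_real, Real.norm_eq_abs,
    abs_of_nonneg (Phi_nonneg _ _)]
  exact mul_le_of_le_one_left (Phi_nonneg _ _) (hc i)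

lemma norm_aa {a : ℕ → ℂ} (ha : ∀ n, ‖a n‖ ≤ 1) (x : ℕ × ℕ) :
    ‖a x.1 * (starRingEnd ℂ) (a x.2)‖ ≤ 1 := by
  rw [norm_mul, RCLike.norm_conj]
  exact mul_le_one₀ (ha _) (norm_nonneg _) (ha _)

lemma f_ft {L : ℕ} (hL : 0 < L) (X Y : ℕ) (A : ℤ) {a : ℕ → ℂ} (ha : ∀ n, ‖a n‖ ≤ 1) (α : ℝ) :
    fr (UU L A) (fw X Y L A a) α ≤ ∑ x ∈ Hi X Y, Phi L (α + (Lg x.1 - Lg x.2)) :=
  psi_bd hL A (Hi X Y) (fun x => a x.1 * (starRingEnd ℂ) (a x.2)) (norm_aa ha)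
    (fun x => Lg x.1 - Lg x.2) α (fun u => (PS (Hi X Y) a u).re) (fun u => PS_real X Y a u)

lemma f_sup {Λ B : ℝ} (hL : Loss Λ B) (L : ℕ) {X Y : ℕ} (hX : 0 < X) (hY : 0 < Y)
    (hB : 7 * (X : ℝ) ^ 2 ≤ B) (α : ℝ) :
    ∑ x ∈ Hi X Y, Phi L (α + (Lg x.1 - Lg x.2)) ≤ 2 * (L * X / Y + 7 * Λ ^ 2 * X ^ 2) := by
  rcases L with _ | T
  · simp only [Phi, Nat.cast_zero, div_zero, sum_const_zero]; positivity
  have hA : ∀ n ∈ Ioc (X / 2) X, X ≤ 2 * n ∧ n ≤ X := by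
    intro n hn; rw [mem_Ioc] at hn; omega
  set U : Finset ℤ := Icc 0 (0 + T) with hU
  have g1 := G_high hL 0 T U subset_rfl (fun u => (ee (u * α)).re) X Y hX hY hB _ hA
  have g2 := G_high hL 0 T U subset_rfl (fun u => (ee (u * α)).im) X Y hX hY hB _ hA
  have hs : ∑ u ∈ U, (ee (u * α)).re ^ 2 + ∑ u ∈ U, (ee (u * α)).im ^ 2 = T + 1 := by
    rw [← sum_add_distrib, sum_congr rfl (g := fun _ => (1 : ℝ))]
    · simp [hU]
    · intro u _
      have := norm_ee (u * α)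
      have h2 := Complex.sq_norm (ee (u * α))
      rw [this, Complex.normSq_apply] at h2
      linarith
  have hp : ∀ β : ℝ, Phi (T + 1) (α + β) * (T + 1) ≤ 2 * (fr U (fun u => (ee (u * α)).re) β ^ 2
      + fr U (fun u => (ee (u * α)).im) β ^ 2) := by
    intro β
    have e : ∑ l ∈ range (T + 1), ee (l * (α + β))
        = ft U (fun u => (((ee (u * α)).re : ℝ) : ℂ)) β
          + Complex.I * ft U (fun u => (((ee (u * α)).im : ℝ) : ℂ)) β := by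
      simp only [ft, mul_sum, ← sum_add_distrib, hU]
      rw [sum_Icc_eq_range]
      refine sum_congr rfl fun l _ => ?_
      simp only [zero_add, Int.cast_natCast]
      rw [mul_add, ee_add]
      conv_lhs => rw [← Complex.re_add_im (ee (l * α))]
      ring
    rw [Phi, e]
    push_cast
    rw [div_mul_cancel₀ _ (by positivity)]
    refine (pow_le_pow_left₀ (norm_nonneg _) (norm_add_le _ _) 2).trans ?_
    rw [norm_mul, Complex.norm_I, one_mul]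
    exact add_sq_le
  have h3 : (∑ x ∈ Hi X Y, Phi (T + 1) (α + (Lg x.1 - Lg x.2))) * (T + 1)
      ≤ 2 * (((T + 1) * X / Y + 7 * Λ ^ 2 * X ^ 2) * (T + 1)) := by
    rw [sum_mul]
    refine (sum_le_sum fun x _ => hp _).trans ?_
    rw [← mul_sum, sum_add_distrib]
    refine mul_le_mul_of_nonneg_left ((add_le_add g1 g2).trans (le_of_eq ?_)) zero_le_two
    rw [← mul_add, hs]
  rw [← mul_assoc] at h3
  push_cast
  exact le_of_mul_le_mul_right h3 (by positivity)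

lemma fsq_ft {Λ B : ℝ} (hL : Loss Λ B) {L : ℕ} (hL0 : 0 < L) {X N : ℕ} (hX : X ^ 2 ≤ N)
    (hB : (N : ℝ) ≤ B) (Y : ℕ) (A : ℤ) {a : ℕ → ℂ} (ha : ∀ n, ‖a n‖ ≤ 1) (α : ℝ) :
    fr (UU L A) (fun u => cm L (u - A) * (PS (Hi X Y) a u).re ^ 2) α
      ≤ Λ ^ 2 * ∑ k ∈ Icc 1 N ×ˢ Icc 1 N, Phi L (Lg k.1 - Lg k.2 + α) := by
  have h1 := psi_bd hL0 A (Hi X Y ×ˢ Hi X Y)
    (fun z => a z.1.1 * (starRingEnd ℂ) (a z.1.2) * (a z.2.1 * (starRingEnd ℂ) (a z.2.2)))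
    (fun z => by
      rw [norm_mul]; exact mul_le_one₀ (norm_aa ha _) (norm_nonneg _) (norm_aa ha _))
    (fun z => (Lg z.1.1 - Lg z.1.2) + (Lg z.2.1 - Lg z.2.2)) α
    (fun u => (PS (Hi X Y) a u).re ^ 2) (fun u => by
      rw [Complex.ofReal_pow, PS_real, sq, PS, sum_mul_sum, ← sum_product']
      refine sum_congr rfl fun z _ => ?_
      rw [mul_add, ee_add]; ring)
  refine h1.trans ?_
  set J := Ioc (X / 2) X with hJ
  have hJ1 : ∀ n ∈ J, 1 ≤ n ∧ n ≤ X := by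
    intro n hn; rw [hJ, mem_Ioc] at hn; omega
  have h2 : ∑ z ∈ Hi X Y ×ˢ Hi X Y, Phi L (α + ((Lg z.1.1 - Lg z.1.2) + (Lg z.2.1 - Lg z.2.2)))
      ≤ ∑ w ∈ (J ×ˢ J) ×ˢ (J ×ˢ J), Phi L (Lg (w.1.1 * w.1.2) - Lg (w.2.1 * w.2.2) + α) := by
    refine sum_le_of_inj _ _ (fun z => ((z.1.1, z.2.1), (z.1.2, z.2.2))) _ _ ?_ ?_ ?_
      (fun _ _ => Phi_nonneg _ _)
    · rintro ⟨⟨a1, a2⟩, a3, a4⟩ _ ⟨⟨b1, b2⟩, b3, b4⟩ _ h
      simp only [Prod.mk.injEq] at h ⊢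
      tauto
    · intro z hz
      simp only [Hi, mem_product, mem_filter] at hz ⊢
      tauto
    · intro z hz
      simp only [Hi, mem_product, mem_filter] at hz
      have a1 := hJ1 _ hz.1.1.1
      have a2 := hJ1 _ hz.1.1.2
      have a3 := hJ1 _ hz.2.1.1
      have a4 := hJ1 _ hz.2.1.2
      refine le_of_eq ?_
      simp only
      rw [Lg_mul (by omega) (by omega), Lg_mul (by omega) (by omega)]
      congr 1; ring
  refine h2.trans ?_
  have hmap : ∀ x ∈ J ×ˢ J, x.1 * x.2 ∈ Icc 1 N := by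
    intro x hx
    obtain ⟨a1, a2⟩ := mem_product.1 hx
    have b1 := hJ1 _ a1
    have b2 := hJ1 _ a2
    rw [mem_Icc]
    exact ⟨Nat.mul_pos b1.1 b2.1, le_trans (by rw [sq]; exact Nat.mul_le_mul b1.2 b2.2) hX⟩
  have h3 : ∀ G : ℕ → ℝ, (∀ n, 0 ≤ G n) →
      ∑ x ∈ J ×ˢ J, G (x.1 * x.2) ≤ Λ * ∑ n ∈ Icc 1 N, G n := by
    intro G hG
    rw [← sum_fiberwise_of_maps_to hmap, mul_sum]
    refine sum_le_sum fun n hn => ?_
    rw [mem_Icc] at hn
    rw [sum_congr rfl (g := fun _ => G n) fun x hx => by rw [(mem_filter.1 hx).2], sum_const,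
      nsmul_eq_mul]
    refine mul_le_mul_of_nonneg_right (le_trans ?_ (hL.dv n (le_trans ?_ hB))) (hG n)
    · exact_mod_cast card_mul_fiber _ _ n (by omega)
    · exact_mod_cast hn.2
  have hΛ : 0 ≤ Λ := by linarith [hL.big]
  rw [sum_product (J ×ˢ J), sum_product (Icc 1 N)]
  refine (sum_le_sum fun x _ => h3 (fun n => Phi L (Lg (x.1 * x.2) - Lg n + α))
    (fun _ => Phi_nonneg _ _)).trans ?_
  rw [← mul_sum, sq, mul_assoc]
  exact mul_le_mul_of_nonneg_left (h3 (fun m => ∑ n ∈ Icc 1 N, Phi L (Lg m - Lg n + α))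
    (fun _ => sum_nonneg fun _ _ => Phi_nonneg _ _)) hΛ

lemma fw_sq (X Y L : ℕ) (A : ℤ) (a : ℕ → ℂ) (u : ℤ) :
    fw X Y L A a u ^ 2 ≤ cm L (u - A) * (PS (Hi X Y) a u).re ^ 2 := by
  rw [fw, mul_pow]
  refine mul_le_mul_of_nonneg_right ?_ (sq_nonneg _)
  rw [sq]
  exact mul_le_of_le_one_left (cm_nonneg _ _) (cm_le_one _ _)

lemma f_l2 {Λ B : ℝ} (hL : Loss Λ B) {L : ℕ} (hL0 : 0 < L) {X N : ℕ} (hX : X ^ 2 ≤ N)
    (hB : 7 * (N : ℝ) ≤ B) (Y : ℕ) (A : ℤ) {a : ℕ → ℂ} (ha : ∀ n, ‖a n‖ ≤ 1) :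
    ∑ u ∈ UU L A, fw X Y L A a u ^ 2 ≤ Λ ^ 6 * (N * (L + N)) := by
  have hN : (0 : ℝ) ≤ N := by positivity
  have h1 := fsq_ft hL hL0 hX (by linarith) Y A ha 0
  rw [fr_zero _ _ fun u _ => mul_nonneg (cm_nonneg _ _) (sq_nonneg _)] at h1
  refine (sum_le_sum fun u _ => fw_sq X Y L A a u).trans (h1.trans ?_)
  rw [sum_product_right]
  have h2 : ∀ k ∈ Icc 1 N, ∑ n ∈ Icc 1 N, Phi L (Lg n - Lg k + 0) ≤ Λ ^ 4 * (L + N) := by
    intro k _
    have := LSD hL L N 1 (by simpa using hB) (-Lg k)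
    rw [sum_product] at this
    simp only [Icc_self, sum_singleton, Nat.cast_one, mul_one] at this
    refine le_trans (le_of_eq (sum_congr rfl fun n _ => ?_)) this
    congr 1
    simp only [Lg, Nat.cast_one, Real.log_one, zero_div]; ring
  have h3 := sum_le_sum h2
  rw [sum_const, Nat.card_Icc, add_tsub_cancel_right, nsmul_eq_mul] at h3
  calc _ ≤ Λ ^ 2 * (N * (Λ ^ 4 * (L + N))) := by gcongr
    _ = _ := by ring

lemma Tri_smul (P N M : ℕ) (c : ℝ) (F : ℤ → ℤ → ℝ) :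
    Tri P N M (fun x y => c * F x y) = c * Tri P N M F := by
  simp only [Tri, mul_sum, mul_assoc]

lemma card_Hi {X Y N : ℕ} (hX : X ^ 2 ≤ N) : (#(Hi X Y) : ℝ) ≤ N := by
  have : #(Hi X Y) ≤ N := by
    refine (card_filter_le _ _).trans (le_trans ?_ hX)
    rw [card_product, Nat.card_Ioc, sq]
    exact Nat.mul_le_mul (Nat.sub_le _ _) (Nat.sub_le _ _)
  exact_mod_cast this

/-- The triple sum for a general even weight with given norms. -/
lemma tri_bound {Λ B : ℝ} (hL : Loss Λ B) {P N M : ℕ} (hN : 0 < N) (hM : 0 < M)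
    (hK : 2000 * (N * M) ≤ P) (hB : 100 * (P : ℝ) ≤ B) (R g : ℤ → ℝ) (hR : ∀ x, 0 ≤ R x)
    (hg : ∀ x, 0 ≤ g x) (he : ∀ x, g (-x) = g x) {w G : ℝ} (hw : 0 < w) (hG : ∀ x, g x ≤ G)
    (h1 : ∑ x ∈ XX P, g x ≤ 2 * P * N) (h2 : ∑ x ∈ XX P, g x ^ 2 ≤ 6 * P * Λ ^ 6 * N ^ 2 * M)
    (h3 : ∑ x ∈ XX P, R x ^ 2 ≤ 2 * P * w) :
    Tri P N M (fun x y => R x * (g (y - x) * g y))
      ≤ (5760 * Λ ^ 13 * N * M + 8 * Λ ^ 10 * G) * (P ^ 2 * M * √(M * w)) := by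
  have hΛ := hL.big
  have hNM : 0 < N * M := Nat.mul_pos hN hM
  have hP : 0 < P := by omega
  have hN' : (0 : ℝ) < N := by exact_mod_cast hN
  have hM' : (0 : ℝ) < M := by exact_mod_cast hM
  have hP' : (0 : ℝ) < P := by exact_mod_cast hP
  have hG0 : 0 ≤ G := (hg 0).trans (hG 0)
  set lam := √(M * w) with hlam
  have hl0 : 0 < lam := Real.sqrt_pos.2 (by positivity)
  have hl2 : lam ^ 2 = M * w := Real.sq_sqrt (by positivity)
  set h : ℤ → ℝ := fun x => if lam < R x then R x else 0 with hh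
  have hh0 : ∀ x, 0 ≤ h x := fun x => by
    simp only [hh]; split_ifs
    · exact hR x
    · exact le_rfl
  have hh1 : ∀ x, h x ≤ R x := fun x => by
    simp only [hh]; split_ifs
    · exact le_rfl
    · exact hR x
  have hh2 : ∀ x, h x * lam ≤ R x ^ 2 := fun x => by
    simp only [hh]; split_ifs with c
    · rw [sq]; exact mul_le_mul_of_nonneg_left c.le (hR x)
    · rw [zero_mul]; positivity
  have hh3 : ∀ x, R x ≤ lam + h x := fun x => by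
    simp only [hh]; split_ifs with c
    · linarith
    · linarith [not_lt.1 c]
  have t1 : Tri P N M (fun x y => R x * (g (y - x) * g y))
      ≤ Tri P N M (fun x y => lam * (g y * g (y - x)) + G * (h x * g y)) := by
    refine Tri_mono _ _ _ fun x y => ?_
    have a1 := hg y
    have a2 := hg (y - x)
    have a3 := hh0 x
    calc _ ≤ (lam + h x) * (g (y - x) * g y) := by gcongr; exact hh3 x
      _ = lam * (g y * g (y - x)) + g (y - x) * (h x * g y) := by ring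
      _ ≤ _ := by gcongr; exact hG _
  rw [Tri_add, Tri_smul, Tri_smul] at t1
  have t2 := triC hP N M g g hg hg he he
  have t3 := triA P N M h g hh0 hg
  have t4 := BL hL hN hM hK hB g g hg hg
  have t5 := BL hL hN hM hK hB h g hh0 hg
  have g0 : 0 ≤ ∑ x ∈ XX P, g x := sum_nonneg fun x _ => hg x
  have one6 : (1 : ℝ) ≤ Λ ^ 6 := one_le_pow₀ (by linarith)
  have one3 : (1 : ℝ) ≤ Λ ^ 3 := one_le_pow₀ (by linarith)
  rw [Real.mul_self_sqrt (by positivity)] at t4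
  have u1 : BLs P N M g g ≤ 10 * Λ ^ 13 * N * M * (P ^ 2 * M) := by
    refine t4.trans ?_
    calc _ ≤ Λ ^ 7 / N * (M ^ 2 * ((2 * P * N) * (Λ ^ 6 * (2 * P * N)))
          + M * P * (6 * P * Λ ^ 6 * N ^ 2 * M)) := by
          gcongr
          exact h1.trans (le_mul_of_one_le_left (by positivity) one6)
      _ = _ := by field_simp; ring
  have s1 : ∑ x ∈ XX P, h x ≤ 2 * P * lam / M := by
    rw [le_div_iff₀ hM']
    refine le_of_mul_le_mul_right ?_ hl0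
    calc _ = M * ∑ x ∈ XX P, h x * lam := by rw [← sum_mul]; ring
      _ ≤ M * (2 * P * w) := by gcongr; exact (sum_le_sum fun x _ => hh2 x).trans h3
      _ = 2 * P * lam ^ 2 := by rw [hl2]; ring
      _ = _ := by ring
  have s2 : ∑ x ∈ XX P, h x ^ 2 ≤ 2 * P * w :=
    (sum_le_sum fun x _ => pow_le_pow_left₀ (hh0 x) (hh1 x) 2).trans h3
  have s3 : √(∑ x ∈ XX P, h x ^ 2) * √(∑ x ∈ XX P, g x ^ 2) ≤ 4 * Λ ^ 3 * P * N * lam := by
    rw [← Real.sqrt_mul (by positivity)]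
    refine Real.sqrt_le_iff.2 ⟨by positivity, ?_⟩
    calc _ ≤ (2 * P * w) * (6 * P * Λ ^ 6 * N ^ 2 * M) := by gcongr
      _ = 12 * ((Λ ^ 3 * P * N) ^ 2 * (M * w)) := by ring
      _ ≤ 16 * ((Λ ^ 3 * P * N) ^ 2 * (M * w)) := by gcongr; norm_num
      _ = _ := by rw [← hl2]; ring
  have u2 : BLs P N M h g ≤ 8 * Λ ^ 10 * (P ^ 2 * M * lam) := by
    refine t5.trans ?_
    calc _ ≤ Λ ^ 7 / N * (M ^ 2 * ((2 * P * lam / M) * (Λ ^ 3 * (2 * P * N)))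
          + M * P * (4 * Λ ^ 3 * P * N * lam)) := by
          gcongr
          exact h1.trans (le_mul_of_one_le_left (by positivity) one3)
      _ = _ := by field_simp; ring
  calc _ ≤ lam * (576 * (10 * Λ ^ 13 * N * M * (P ^ 2 * M)))
        + G * (8 * Λ ^ 10 * (P ^ 2 * M * lam)) := by
        refine t1.trans (add_le_add ?_ ?_)
        · exact mul_le_mul_of_nonneg_left (t2.trans (by gcongr)) hl0.le
        · exact mul_le_mul_of_nonneg_left (t3.trans u2) hG0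
    _ = _ := by ring

/-- The complete upper bound. -/
lemma upper {Λ B : ℝ} (hL : Loss Λ B) {P N M H T : ℕ} (hp : Par B P N M H T) {X Y : ℕ}
    (hX : X ^ 2 ≤ N) (hY : 0 < Y) (hYX : Y ≤ X) {a : ℕ → ℂ} (ha : ∀ n, ‖a n‖ ≤ 1) {W : Finset ℤ}
    {A : ℤ} (hW : W ⊆ Icc A (A + T)) :
    ∑ s ∈ W, ∑ j ∈ JJ P, mu P N M j
        * ‖gm P N M (UU (2 * (N * M)) A) (fw X Y (2 * (N * M)) A a) s j‖ ^ 2
      ≤ Λ ^ 16 * N ^ 4 * (X / Y * M ^ 2 * √(M * #W) + M * #W) := by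
  obtain ⟨b1, b2, b3, b4, b5, b6, b7, b8⟩ := hp.basic
  have hΛ := hL.big
  rcases W.eq_empty_or_nonempty with rfl | hW0
  · simp
  have hw : (0 : ℝ) < #W := by exact_mod_cast hW0.card_pos
  have hN := hp.hN
  have hM := hp.hM
  have hT := hp.hT
  have hNM : 0 < N * M := Nat.mul_pos hN hM
  have hP : 0 < P := by omega
  have hN' : (1 : ℝ) ≤ N := by exact_mod_cast hN
  have hM' : (1 : ℝ) ≤ M := by exact_mod_cast hM
  have hP' : (0 : ℝ) < P := by exact_mod_cast hP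
  have hNP : 2000 * ((N : ℝ) * M) ≤ P := by exact_mod_cast b6
  have hNB : 7 * (N : ℝ) ≤ B := by nlinarith
  have hX' : (X : ℝ) ^ 2 ≤ N := by exact_mod_cast hX
  have hY' : (0 : ℝ) < Y := by exact_mod_cast hY
  have hXY : (1 : ℝ) ≤ X / Y := by rw [le_div_iff₀ hY', one_mul]; exact_mod_cast hYX
  set L := 2 * (N * M) with hLd
  have hL0 : 0 < L := by omega
  have hL' : (L : ℝ) = 2 * (N * M) := by rw [hLd]; push_cast; ring
  set U := UU L A with hU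
  set f := fw X Y L A a with hf
  have d1 : ∀ s ∈ W, ∀ t ∈ U, |s - t| < P := by
    intro s hs t ht
    have a1 := mem_Icc.1 (hW hs)
    have a2 := mem_Icc.1 ht
    rw [abs_lt]; omega
  have d2 : ∀ t ∈ U, ∀ t' ∈ U, |t - t'| < P := by
    intro s hs t ht
    have a1 := mem_Icc.1 hs
    have a2 := mem_Icc.1 ht
    rw [abs_lt]; omega
  have t3 := S3_gen hN hM hp.hK b3 d1 d2 f
  have t2 : ∀ s ∈ W, N * ∑ t ∈ U, f t ^ 2 * ‖ZZ P N M (s - t)‖ ^ 2 ≤ Λ ^ 16 * N ^ 4 * M := by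
    intro s hs
    have a1 := S2_gen hN hM hp.hK b3 (d1 s hs)
      (fun u => cm L (u - A) * (PS (Hi X Y) a u).re ^ 2)
      (fun u _ => mul_nonneg (cm_nonneg _ _) (sq_nonneg _))
    have a2 := S2count hL hp
    have a3 : ∑ x ∈ XX P, fr U (fun u => cm L (u - A) * (PS (Hi X Y) a u).re ^ 2) ((x : ℝ) / P)
        * kk P N M x ≤ Λ ^ 2 * (Λ ^ 8 * (P * N * M)) := by
      refine le_trans ?_ (mul_le_mul_of_nonneg_left a2 (sq_nonneg Λ))
      rw [mul_sum]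
      refine sum_le_sum fun x _ => ?_
      rw [← mul_assoc]
      exact mul_le_mul_of_nonneg_right (fsq_ft hL hL0 hX (by linarith) Y A ha _)
        (sum_nonneg fun _ _ => kap_nonneg _ _)
    have a4 : ∑ t ∈ U, f t ^ 2 * ‖ZZ P N M (s - t)‖ ^ 2
        ≤ 8000 * ((N : ℝ) ^ 2 / P) * (Λ ^ 2 * (Λ ^ 8 * (P * N * M))) :=
      (sum_le_sum fun t _ => mul_le_mul_of_nonneg_right (fw_sq X Y L A a t) (sq_nonneg _)).trans
        (a1.trans (by gcongr))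
    have a5 : Λ ^ 11 ≤ Λ ^ 16 := pow_le_pow_right₀ (by linarith) (by norm_num)
    calc _ ≤ N * (8000 * ((N : ℝ) ^ 2 / P) * (Λ ^ 2 * (Λ ^ 8 * (P * N * M)))) := by gcongr
      _ = 8000 * Λ ^ 10 * N ^ 4 * M := by field_simp
      _ ≤ Λ * Λ ^ 10 * N ^ 4 * M := by gcongr; linarith
      _ = Λ ^ 11 * N ^ 4 * M := by ring
      _ ≤ _ := by gcongr
  have t5 : ((∑ s ∈ W, ∑ j ∈ JJ P, mu P N M j * ‖gm P N M U f s j‖ ^ 2 : ℝ) : ℂ)
      = ∑ s ∈ W, ∑ t ∈ U, ∑ t' ∈ U, ((f t * f t' : ℝ) : ℂ)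
          * (ZZ P N M (s - t) * ZZ P N M (t - t') * ZZ P N M (t' - s))
        + ((∑ s ∈ W, N * ∑ t ∈ U, f t ^ 2 * ‖ZZ P N M (s - t)‖ ^ 2 : ℝ) : ℂ) := by
    rw [Complex.ofReal_sum, Complex.ofReal_sum, ← sum_add_distrib]
    exact sum_congr rfl fun s _ => trace_id2 P N M U f s
  have t6 := congrArg norm t5
  rw [Complex.norm_real, Real.norm_eq_abs] at t6
  have t7 := (le_abs_self _).trans (t6.le.trans (norm_add_le _ _))
  rw [Complex.norm_real, Real.norm_eq_abs, abs_of_nonneg (by positivity)] at t7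
  have t8 := sum_le_sum t2
  rw [sum_const, nsmul_eq_mul] at t8
  have t4 := tri_bound hL hN hM b6 b8 (fun x => fr W (fun _ => 1) ((x : ℝ) / P))
    (fun x => fr U f ((x : ℝ) / P)) (fun _ => fr_nonneg _ _ _) (fun _ => fr_nonneg _ _ _)
    (fr_even P U f) hw (G := 18 * Λ ^ 2 * (X / Y) * (N * M)) (fun x => by
      refine (f_ft hL0 X Y A ha _).trans ((f_sup hL L (by omega) hY (by linarith) _).trans ?_)
      have a1 : (1 : ℝ) ≤ Λ ^ 2 := one_le_pow₀ (by linarith)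
      have a2 : (X : ℝ) ^ 2 ≤ X / Y * (N * M) := by
        calc _ ≤ 1 * ((N : ℝ) * 1) := by linarith
          _ ≤ _ := by gcongr
      have a3 : (0 : ℝ) ≤ X / Y * (N * M) := by positivity
      rw [hL', show 2 * ((N : ℝ) * M) * X / Y = 2 * (X / Y * (N * M)) by ring]
      nlinarith [mul_le_mul_of_nonneg_left a2 (sq_nonneg Λ), mul_le_mul_of_nonneg_right a1 a3])
    (by
      refine (sum_le_sum fun x _ => f_ft hL0 X Y A ha _).trans ?_
      rw [sum_comm]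
      have a1 : ∀ z ∈ Hi X Y, ∑ x ∈ XX P, Phi L ((x : ℝ) / P + (Lg z.1 - Lg z.2)) ≤ 2 * P := by
        intro z _
        simp only [add_comm ((_ : ℝ) / P)]
        exact Phi_XX (by omega) _
      refine (sum_le_sum a1).trans ?_
      rw [sum_const, nsmul_eq_mul, mul_comm]
      exact mul_le_mul_of_nonneg_left (card_Hi hX) (by positivity))
    (by
      refine (pars_fr (T := 2 * L) (by omega) (A := A - L)
        (Icc_subset_Icc le_rfl (by push_cast; omega)) f).trans ?_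
      have a1 := f_l2 hL hL0 hX hNB Y A ha
      have a2 : (L : ℝ) + N ≤ 3 * (N * M) := by rw [hL']; nlinarith
      calc _ ≤ 2 * P * (Λ ^ 6 * (N * (3 * (N * M)))) := by
            gcongr
            exact a1.trans (by gcongr)
        _ = _ := by ring)
    (by simpa using pars_fr (P := P) (T := T) (by omega) hW (fun _ => 1))
  have u1 : 2000 * (5760 * Λ ^ 13 + 144 * Λ ^ 12) ≤ Λ ^ 16 := by
    have a1 : Λ ^ 12 ≤ Λ ^ 13 := pow_le_pow_right₀ (by linarith) (by norm_num)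
    have a2 : (10000 : ℝ) ^ 3 ≤ Λ ^ 3 := by gcongr
    have a3 : 0 ≤ Λ ^ 13 := by positivity
    calc _ ≤ (10000 : ℝ) ^ 3 * Λ ^ 13 := by linarith
      _ ≤ Λ ^ 3 * Λ ^ 13 := by gcongr
      _ = _ := by ring
  set lam := √((M : ℝ) * #W) with hlam
  have hl0 : 0 ≤ lam := Real.sqrt_nonneg _
  have t9 : ((N : ℝ) / P) ^ 3 * (2000 * P) * ((5760 * Λ ^ 13 * N * M
      + 8 * Λ ^ 10 * (18 * Λ ^ 2 * (X / Y) * (N * M))) * (P ^ 2 * M * lam))
      ≤ Λ ^ 16 * N ^ 4 * (X / Y * M ^ 2 * lam) := by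
    calc _ = 2000 * (5760 * Λ ^ 13 * 1 + 144 * Λ ^ 12 * (X / Y)) * (N ^ 4 * M ^ 2 * lam) := by
          field_simp; ring
      _ ≤ 2000 * (5760 * Λ ^ 13 * (X / Y) + 144 * Λ ^ 12 * (X / Y)) * (N ^ 4 * M ^ 2 * lam) := by
          gcongr
      _ = 2000 * (5760 * Λ ^ 13 + 144 * Λ ^ 12) * (N ^ 4 * (X / Y * M ^ 2 * lam)) := by ring
      _ ≤ Λ ^ 16 * (N ^ 4 * (X / Y * M ^ 2 * lam)) := by gcongr
      _ = _ := by ring
  have t10 := (t3.trans (mul_le_mul_of_nonneg_left t4 (by positivity))).trans t9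
  calc _ ≤ Λ ^ 16 * N ^ 4 * (X / Y * M ^ 2 * lam) + #W * (Λ ^ 16 * N ^ 4 * M) :=
        t7.trans (add_le_add t10 t8)
    _ = _ := by ring

end Pool.Agent.Lib.MP_a93a41_nt.GM
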