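import Pool.Agent.Lib.MP_a93a41_nt.NF1

/-! Lower bounds for the trace with signed weights. -/

namespace Pool.Agent.Lib.MP_a93a41_nt.GM

open Finset Real Pool.Agent.Lib.LargeSieve

lemma QA_eq (P N M : ℕ) (W : Finset ℤ) (v : ℤ → ℂ) :
    QA P N M W v = ∑ j ∈ JJ P, mu P N M j * ‖ft W v ((j : ℝ) / P)‖ ^ 2 := rfl

lemma QA_nonneg (P N M : ℕ) (W : Finset ℤ) (v : ℤ → ℂ) : 0 ≤ QA P N M W v :=
  sum_nonneg fun _ _ => mul_nonneg (mu_nonneg _ _ _ _) (sq_nonneg _)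

lemma sq_le_card {W : Finset ℤ} {v : ℤ → ℂ} (hv : ∀ t ∈ W, ‖v t‖ ≤ 1) :
    ∑ t ∈ W, ‖v t‖ ^ 2 ≤ #W := by
  have := sum_le_card_nsmul W (fun t => ‖v t‖ ^ 2) 1
    (fun t ht => pow_le_one₀ (norm_nonneg _) (hv t ht))
  simpa using this

lemma cs_chain (P N M : ℕ) {W U : Finset ℤ} (hWU : W ⊆ U) {v : ℤ → ℂ} (hv : ∀ t ∈ W, ‖v t‖ ≤ 1)
    (f : ℤ → ℝ) :
    ‖((∑ t ∈ U, f t * ‖wv P N M W v t‖ ^ 2 : ℝ) : ℂ)
        + N * ∑ t ∈ W, (f t : ℂ) * (v t * (starRingEnd ℂ) (wv P N M W v t))‖ ^ 2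
      ≤ QA P N M W v * (#W * ∑ s ∈ W, ∑ j ∈ JJ P, mu P N M j * ‖gm P N M U f s j‖ ^ 2) := by
  set w := wv P N M W v with hw
  set v' : ℤ → ℂ := fun t => if t ∈ W then v t else 0 with hv'
  have ext : ∀ F : ℤ → ℂ, ∑ t ∈ U, v' t * F t = ∑ t ∈ W, v t * F t := by
    intro F
    simp only [hv', ite_mul, zero_mul]
    rw [← sum_filter, filter_mem_eq_inter, inter_eq_right.2 hWU]
  have h := TL.cs_w (JJ P) (mu P N M) (mu_nonneg P N M) (fun j => ft U v' ((j : ℝ) / P))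
    (fun j => ft U (fun t => (f t : ℂ) * w t) ((j : ℝ) / P))
  rw [TL.form P N M U v' (fun t => (f t : ℂ) * w t)] at h
  have e1 : ∀ α, ft U v' α = ft W v α := fun α => ext _
  have e2 : ∑ t ∈ U, ((∑ u ∈ U, v' u * ZZ P N M (u - t)) + N * v' t)
      * (starRingEnd ℂ) ((f t : ℂ) * w t) = ((∑ t ∈ U, f t * ‖w t‖ ^ 2 : ℝ) : ℂ)
        + N * ∑ t ∈ W, (f t : ℂ) * (v t * (starRingEnd ℂ) (w t)) := by
    have a1 := ext fun t => (f t : ℂ) * (starRingEnd ℂ) (w t)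
    have a2 : ∑ t ∈ W, (f t : ℂ) * (v t * (starRingEnd ℂ) (w t))
        = ∑ t ∈ W, v t * ((f t : ℂ) * (starRingEnd ℂ) (w t)) := sum_congr rfl fun t _ => by ring
    rw [a2, ← a1, Complex.ofReal_sum, mul_sum, ← sum_add_distrib]
    refine sum_congr rfl fun t _ => ?_
    rw [ext]
    change (w t + _) * _ = _
    rw [map_mul, Complex.conj_ofReal]
    push_cast
    rw [← Complex.mul_conj']
    ring
  simp only [e1] at h
  rw [e2] at h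
  refine h.trans (mul_le_mul_of_nonneg_left ?_ (QA_nonneg _ _ _ _ _))
  rw [sum_comm, mul_sum]
  refine sum_le_sum fun j _ => ?_
  rw [← mul_sum, mul_left_comm]
  refine mul_le_mul_of_nonneg_left ?_ (mu_nonneg _ _ _ _)
  have e : ft U (fun t => (f t : ℂ) * w t) ((j : ℝ) / P) = ∑ s ∈ W, v s * gm P N M U f s j := by
    simp only [ft, hw, wv, gm, sum_mul, mul_sum]
    rw [sum_comm]
    exact sum_congr rfl fun u _ => sum_congr rfl fun t _ => by ring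
  rw [e]
  exact (TL.cs_c _ _ _).trans (mul_le_mul_of_nonneg_right (sq_le_card hv) (by positivity))

lemma o_lower (P N M : ℕ) {W : Finset ℤ} {v : ℤ → ℂ} (hv : ∀ t ∈ W, ‖v t‖ ≤ 1)
    (h : 2 * N * (#W : ℝ) ≤ QA P N M W v) :
    QA P N M W v ^ 2 ≤ 4 * #W * ∑ t ∈ W, ‖wv P N M W v t‖ ^ 2 := by
  set A := QA P N M W v with hA
  set s := ∑ t ∈ W, ‖v t‖ ^ 2 with hs
  set o := ∑ t ∈ W, ‖wv P N M W v t‖ ^ 2 with ho
  have hsW : s ≤ #W := sq_le_card hv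
  have hN0 : (0 : ℝ) ≤ N := Nat.cast_nonneg _
  have ho0 : 0 ≤ o := by positivity
  have hA0 : 0 ≤ A := QA_nonneg _ _ _ _ _
  have h2 : ∑ t ∈ W, wv P N M W v t * (starRingEnd ℂ) (v t) = ((A - N * s : ℝ) : ℂ) := by
    have h := TL.form P N M W v v
    have e : ∑ j ∈ JJ P, (mu P N M j : ℂ)
        * (ft W v ((j : ℝ) / P) * (starRingEnd ℂ) (ft W v ((j : ℝ) / P))) = (A : ℂ) := by
      rw [hA, QA_eq]; push_cast
      exact sum_congr rfl fun j _ => by rw [Complex.mul_conj']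
    rw [e] at h
    simp only [add_mul, sum_add_distrib, mul_assoc, ← mul_sum] at h
    rw [TL.real_sum] at h
    push_cast at h ⊢
    rw [h, hs]; push_cast; simp only [wv]; ring
  have hAs : A / 2 ≤ A - N * s := by nlinarith
  have h3 := TL.cs_c W (wv P N M W v) (fun t => (starRingEnd ℂ) (v t))
  simp only [Complex.norm_conj] at h3
  rw [h2, Complex.norm_real, Real.norm_eq_abs, sq_abs] at h3
  have h4 := (pow_le_pow_left₀ (by linarith) hAs 2).trans h3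
  nlinarith [mul_le_mul_of_nonneg_left hsW ho0]

lemma ZZ_eq2 {P : ℕ} (hP : 0 < P) (N M : ℕ) {t : ℤ} (ht : |t| < P) :
    ZZ P N M t = ∑ j ∈ JJ P, ((mu P N M j - N / P : ℝ) : ℂ) * ee (t * ((j : ℝ) / P)) := by
  have h := orth P hP (-((P / 2 : ℕ) : ℤ)) t
  have hP' : (P : ℂ) ≠ 0 := by exact_mod_cast hP.ne'
  push_cast
  simp only [sub_mul, sum_sub_distrib, ← mul_sum]
  rw [ZZ, GG, JJ, h]
  congr 1
  by_cases h0 : t = 0
  · rw [if_pos h0, if_pos (by simp [h0])]; field_simp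
  · rw [if_neg h0, if_neg (fun h => h0 (Int.eq_zero_of_abs_lt_dvd h ht))]; ring

lemma mem_Lo {X Y : ℕ} {x : ℕ × ℕ} : x ∈ Lo X Y ↔
    (X / 2 < x.1 ∧ x.1 ≤ X) ∧ (X / 2 < x.2 ∧ x.2 ≤ X) ∧ X < Nat.gcd x.1 x.2 * Y := by
  simp [Lo, lowP, and_assoc]

lemma Lo_sum {Λ B : ℝ} (hL : Loss Λ B) {X Y : ℕ} (hX : (X : ℝ) ≤ B) (h : ℝ → ℝ) (h0 : ∀ β, 0 ≤ h β)
    {K : ℝ} (hK : ∀ θ, ∑ r ∈ Icc 1 Y, h (θ + Lg r) ≤ K) (θ : ℝ) :
    ∑ x ∈ Lo X Y, h (θ + (Lg x.1 - Lg x.2)) ≤ Λ * X * K := by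
  have hK0 : 0 ≤ K := (sum_nonneg fun r _ => h0 _).trans (hK 0)
  have h1 := sum_le_of_inj (Lo X Y) ((Icc 1 X).sigma fun n => n.divisors ×ˢ Icc 1 Y)
    (fun x => (⟨x.2, (Nat.gcd x.1 x.2, x.1 / Nat.gcd x.1 x.2)⟩ : Σ _ : ℕ, ℕ × ℕ))
    (fun x => h (θ + (Lg x.1 - Lg x.2))) (fun y => h (θ + Lg y.2.1 - Lg y.1 + Lg y.2.2)) ?_ ?_ ?_
    (fun _ _ => h0 _)
  · refine h1.trans ?_
    rw [sum_sigma]
    have h2 : ∀ n ∈ Icc 1 X, ∑ y ∈ n.divisors ×ˢ Icc 1 Y, h (θ + Lg y.1 - Lg n + Lg y.2)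
        ≤ Λ * K := by
      intro n hn
      rw [sum_product]
      have := sum_le_card_nsmul n.divisors (fun g => ∑ r ∈ Icc 1 Y, h (θ + Lg g - Lg n + Lg r)) K
        fun g _ => hK _
      rw [nsmul_eq_mul] at this
      refine this.trans (mul_le_mul_of_nonneg_right (hL.dv n (le_trans ?_ hX)) hK0)
      exact_mod_cast (mem_Icc.1 hn).2
    have := sum_le_card_nsmul _ _ _ h2
    rw [Nat.card_Icc, add_tsub_cancel_right, nsmul_eq_mul] at this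
    linarith
  · intro x _ y _ e
    simp only [Sigma.mk.injEq, heq_eq_eq, Prod.mk.injEq] at e
    obtain ⟨e1, e2, e3⟩ := e
    refine Prod.ext ?_ e1
    rw [← Nat.mul_div_cancel' (Nat.gcd_dvd_left x.1 x.2), e3, e2,
      Nat.mul_div_cancel' (Nat.gcd_dvd_left y.1 y.2)]
  · intro x hx
    rw [mem_Lo] at hx
    have g0 : 0 < Nat.gcd x.1 x.2 := Nat.gcd_pos_of_pos_left _ (by omega)
    have e := Nat.mul_div_cancel' (Nat.gcd_dvd_left x.1 x.2)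
    simp only [mem_sigma, mem_product, mem_Icc, Nat.mem_divisors]
    refine ⟨by omega, ⟨Nat.gcd_dvd_right _ _, by omega⟩, ?_, ?_⟩
    · exact Nat.div_pos (Nat.le_of_dvd (by omega) (Nat.gcd_dvd_left _ _)) g0
    · generalize Nat.gcd x.1 x.2 = g at *
      generalize x.1 / g = r at *
      by_contra c
      nlinarith
  · intro x hx
    rw [mem_Lo] at hx
    have g0 : 0 < Nat.gcd x.1 x.2 := Nat.gcd_pos_of_pos_left _ (by omega)
    have r0 := Nat.div_pos (Nat.le_of_dvd (by omega) (Nat.gcd_dvd_left x.1 x.2)) g0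
    have e := Lg_mul g0.ne' r0.ne'
    rw [Nat.mul_div_cancel' (Nat.gcd_dvd_left x.1 x.2)] at e
    refine le_of_eq ?_
    simp only
    rw [e]; congr 1; ring

lemma Lo_swap (X Y : ℕ) (F : ℕ → ℕ → ℝ) : ∑ x ∈ Lo X Y, F x.1 x.2 = ∑ x ∈ Lo X Y, F x.2 x.1 := by
  apply sum_nbij' Prod.swap Prod.swap
  · intro x hx; rw [mem_Lo] at hx ⊢; simp only [Prod.fst_swap, Prod.snd_swap]; rw [Nat.gcd_comm]; tauto
  · intro x hx; rw [mem_Lo] at hx ⊢; simp only [Prod.fst_swap, Prod.snd_swap]; rw [Nat.gcd_comm]; tauto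
  · intro x _; rfl
  · intro x _; rfl
  · intro x _; rfl

lemma low_bound {Λ B : ℝ} (hL : Loss Λ B) {P N M H T : ℕ} (hp : Par B P N M H T) (hN : 100 ≤ N)
    {X Y : ℕ} (hX : X ≤ N) (hYX : Y ≤ X) {a : ℕ → ℂ} (ha : ∀ n, ‖a n‖ ≤ 1) {W : Finset ℤ}
    {A : ℤ} (hW : W ⊆ Icc A (A + T)) {v : ℤ → ℂ} (hv : ∀ t ∈ W, ‖v t‖ ≤ 1) :
    ‖∑ u ∈ UU (2 * (N * M)) A, ((cm (2 * (N * M)) (u - A) * ‖wv P N M W v u‖ ^ 2 : ℝ) : ℂ)
        * PS (Lo X Y) a u‖ ≤ Λ ^ 8 * (X * (N * (M + Y))) * (QA P N M W v + N * #W) := by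
  obtain ⟨b1, b2, b3, b4, b5, b6, b7, b8⟩ := hp.basic
  have hT := hp.hT
  have hNM : 0 < N * M := Nat.mul_pos hp.hN hp.hM
  have hNN : N ≤ N * M := Nat.le_mul_of_pos_right N hp.hM
  have hP : 0 < P := by omega
  have hP' : (0 : ℝ) < P := by exact_mod_cast hP
  set L := 2 * (N * M) with hLd
  set c : ℤ → ℂ := fun j => ft W v ((j : ℝ) / P) with hc
  set z : ℤ → ℝ := fun j => mu P N M j - N / P with hz
  set b : ℤ → ℝ := fun j => mu P N M j + N / P with hb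
  have hb0 : ∀ j, 0 ≤ b j := fun j => add_nonneg (mu_nonneg _ _ _ _) (by positivity)
  have hzb : ∀ j, |z j| ≤ b j := fun j => by
    have := mu_nonneg P N M j
    have : (0 : ℝ) ≤ N / P := by positivity
    rw [abs_le]; simp only [hz, hb]; constructor <;> linarith
  set K := Λ * X * (Λ ^ 7 * (N * (M + Y))) with hK
  set h : ℝ → ℝ := fun β => ∑ j ∈ JJ P, b j * Phi L (β + (j : ℝ) / P) with hh
  have k1 : ∀ θ, ∑ x ∈ Lo X Y, h (θ + (Lg x.1 - Lg x.2)) ≤ K := Lo_sum hL (by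
      have : (X : ℝ) ≤ P := by exact_mod_cast (by omega : X ≤ P)
      linarith) h (fun β => sum_nonneg fun j _ => mul_nonneg (hb0 j) (Phi_nonneg _ _))
    (fun θ => mass hL hp hN (hYX.trans hX) θ)
  have e1 : ∀ u ∈ UU L A, wv P N M W v u = ∑ j ∈ JJ P, (z j : ℂ) * c j * ee (-(u * ((j : ℝ) / P))) := by
    intro u hu
    simp only [wv, hc, ft, mul_sum, sum_mul]
    rw [sum_comm]
    refine sum_congr rfl fun s hs => ?_
    have a1 := mem_Icc.1 (hW hs)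
    have a2 := mem_Icc.1 hu
    rw [ZZ_eq2 hP N M (t := s - u) (by rw [abs_lt]; omega), mul_sum]
    refine sum_congr rfl fun j _ => ?_
    rw [show ((s - u : ℤ) : ℝ) * ((j : ℝ) / P) = s * ((j : ℝ) / P) + -(u * ((j : ℝ) / P)) by
      push_cast; ring, ee_add]
    simp only [hz]; ring
  have e2 : ∑ u ∈ UU L A, ((cm L (u - A) * ‖wv P N M W v u‖ ^ 2 : ℝ) : ℂ) * PS (Lo X Y) a u
      = ∑ y ∈ Lo X Y ×ˢ (JJ P ×ˢ JJ P), a y.1.1 * (starRingEnd ℂ) (a y.1.2)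
        * ((z y.2.1 : ℂ) * c y.2.1 * ((z y.2.2 : ℂ) * (starRingEnd ℂ) (c y.2.2)))
        * ∑ u ∈ UU L A, (cm L (u - A) : ℂ)
          * ee (u * (-((y.2.1 : ℝ) / P) + (Lg y.1.1 - Lg y.1.2) + (y.2.2 : ℝ) / P)) := by
    simp only [mul_sum (UU L A)]
    rw [sum_comm]
    refine sum_congr rfl fun u hu => ?_
    push_cast
    rw [← Complex.mul_conj', e1 u hu, map_sum, sum_mul_sum, ← sum_product', PS, mul_assoc, sum_mul_sum,
      sum_comm, ← sum_product', mul_sum]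
    refine sum_congr rfl fun y _ => ?_
    simp only [map_mul, conj_ee, Complex.conj_ofReal, neg_neg]
    rw [show (u : ℝ) * (-((y.2.1 : ℝ) / P) + (Lg y.1.1 - Lg y.1.2) + (y.2.2 : ℝ) / P)
      = -(u * ((y.2.1 : ℝ) / P)) + u * (Lg y.1.1 - Lg y.1.2) + u * ((y.2.2 : ℝ) / P) by ring,
      ee_add, ee_add]
    ring
  rw [e2]
  set Φ : (ℕ × ℕ) × ℤ × ℤ → ℝ := fun y =>
    Phi L (-((y.2.1 : ℝ) / P) + (Lg y.1.1 - Lg y.1.2) + (y.2.2 : ℝ) / P) with hΦ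
  have e3 : ∀ y ∈ Lo X Y ×ˢ (JJ P ×ˢ JJ P), ‖a y.1.1 * (starRingEnd ℂ) (a y.1.2)
        * ((z y.2.1 : ℂ) * c y.2.1 * ((z y.2.2 : ℂ) * (starRingEnd ℂ) (c y.2.2)))
        * ∑ u ∈ UU L A, (cm L (u - A) : ℂ)
          * ee (u * (-((y.2.1 : ℝ) / P) + (Lg y.1.1 - Lg y.1.2) + (y.2.2 : ℝ) / P))‖
      ≤ 1 / 2 * (b y.2.1 * ‖c y.2.1‖ ^ 2 * (b y.2.2 * Φ y))
        + 1 / 2 * (b y.2.2 * ‖c y.2.2‖ ^ 2 * (b y.2.1 * Φ y)) := by
    intro y _
    rw [psi_ft (by omega)]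
    have p0 : 0 ≤ Φ y := Phi_nonneg _ _
    simp only [norm_mul, norm_ee, RCLike.norm_conj, Complex.norm_real, Real.norm_eq_abs, one_mul]
    rw [abs_of_nonneg p0]
    have a1 := mul_le_one₀ (ha y.1.1) (norm_nonneg _) (ha y.1.2)
    have a2 := hb0 y.2.1
    have a3 := hb0 y.2.2
    calc _ ≤ 1 * (b y.2.1 * ‖c y.2.1‖ * (b y.2.2 * ‖c y.2.2‖)) * Φ y := by
          gcongr
          · exact hzb _
          · exact hzb _
      _ ≤ _ := by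
          have : 0 ≤ b y.2.1 * b y.2.2 * Φ y * (‖c y.2.1‖ - ‖c y.2.2‖) ^ 2 := by positivity
          nlinarith
  refine (norm_sum_le _ _).trans ((sum_le_sum e3).trans ?_)
  set S := ∑ j ∈ JJ P, b j * ‖c j‖ ^ 2 with hS
  have s1 : S ≤ QA P N M W v + N * #W := by
    have a1 := parseval P (-((P / 2 : ℕ) : ℤ)) A T (by omega) W hW v
    have a2 := sq_le_card hv
    simp only [hS, hb, add_mul, sum_add_distrib, ← mul_sum]
    refine add_le_add le_rfl ?_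
    rw [JJ, a1]
    calc _ = (N : ℝ) * ∑ u ∈ W, ‖v u‖ ^ 2 := by field_simp
      _ ≤ _ := by gcongr
  have s2 : ∑ y ∈ Lo X Y ×ˢ (JJ P ×ˢ JJ P), b y.2.1 * ‖c y.2.1‖ ^ 2 * (b y.2.2 * Φ y) ≤ S * K := by
    rw [sum_product_right, sum_product, hS, sum_mul]
    refine sum_le_sum fun j _ => ?_
    rw [sum_comm]
    simp only [← mul_sum]
    refine mul_le_mul_of_nonneg_left (le_trans (le_of_eq ?_) (k1 (-((j : ℝ) / P))))
      (mul_nonneg (hb0 j) (sq_nonneg _))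
    exact sum_congr rfl fun x _ => sum_congr rfl fun i _ => rfl
  have s3 : ∑ y ∈ Lo X Y ×ˢ (JJ P ×ˢ JJ P), b y.2.2 * ‖c y.2.2‖ ^ 2 * (b y.2.1 * Φ y) ≤ S * K := by
    rw [sum_product_right, sum_product_right, hS, sum_mul]
    refine sum_le_sum fun j _ => ?_
    rw [sum_comm]
    simp only [← mul_sum]
    refine mul_le_mul_of_nonneg_left (le_trans (le_of_eq ?_) (k1 (-((j : ℝ) / P))))
      (mul_nonneg (hb0 j) (sq_nonneg _))
    rw [Lo_swap X Y fun p q => h (-((j : ℝ) / P) + (Lg p - Lg q))]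
    refine sum_congr rfl fun x _ => sum_congr rfl fun i _ => ?_
    simp only [hΦ]
    rw [← Phi_neg]; congr 2; ring
  rw [sum_add_distrib, ← mul_sum, ← mul_sum]
  have hΛ := hL.big
  calc _ ≤ S * K := by linarith
    _ ≤ (QA P N M W v + N * #W) * K := by gcongr
    _ = _ := by rw [hK]; ring

end Pool.Agent.Lib.MP_a93a41_nt.GM
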