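import Pool.Agent.Lib.MP_a93a41_nt.NF0

/-! Powers, mean values, the Guth-Maynard range, and the passage to real points. -/

namespace Pool.Agent.Lib.MP_a93a41_nt.GM

open Finset Real Pool.Agent.Lib.LargeSieve

lemma DP_pow {Λ B : ℝ} (hL : Loss Λ B) {X : ℕ} (hX : 1 ≤ X) {a : ℕ → ℂ} (ha : ∀ n, ‖a n‖ ≤ 1)
    (i : ℕ) (hB : ((X ^ (i + 1) : ℕ) : ℝ) ≤ B) : ∃ c : ℕ → ℂ, (∀ m, ‖c m‖ ≤ Λ ^ i) ∧
      ∀ t : ℤ, DP X a t ^ (i + 1) = ∑ m ∈ Icc 1 (X ^ (i + 1)), c m * ee (t * Lg m) := by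
  have hΛ := hL.big
  induction i with
  | zero =>
    refine ⟨fun m => if m ∈ Ioc (X / 2) X then a m else 0, fun m => ?_, fun t => ?_⟩
    · dsimp only
      split_ifs
      · simpa using ha m
      · simp
    · simp only [zero_add, pow_one, ite_mul, zero_mul, DP]
      rw [← sum_filter, filter_mem_eq_inter, inter_eq_right.2]
      intro n hn
      rw [mem_Ioc] at hn
      rw [mem_Icc]
      omega
  | succ i ih =>
    obtain ⟨c, c1, c2⟩ := ih (le_trans (by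
      exact_mod_cast Nat.pow_le_pow_right hX (by omega)) hB)
    set s := Icc 1 (X ^ (i + 1)) ×ˢ Ioc (X / 2) X with hs
    have hmap : ∀ x ∈ s, x.1 * x.2 ∈ Icc 1 (X ^ (i + 1 + 1)) := by
      intro x hx
      obtain ⟨a1, a2⟩ := mem_product.1 hx
      rw [mem_Icc] at a1 ⊢
      rw [mem_Ioc] at a2
      exact ⟨Nat.mul_pos a1.1 (by omega), by rw [pow_succ]; exact Nat.mul_le_mul a1.2 a2.2⟩
    refine ⟨fun k => ∑ x ∈ s with x.1 * x.2 = k, c x.1 * a x.2, fun k => ?_, fun t => ?_⟩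
    · by_cases hk : k ∈ Icc 1 (X ^ (i + 1 + 1))
      · have h1 := card_mul_fiber (Icc 1 (X ^ (i + 1))) (Ioc (X / 2) X) k
          (by have := (mem_Icc.1 hk).1; omega)
        have h2 := hL.dv k (le_trans (by exact_mod_cast (mem_Icc.1 hk).2) hB)
        have h3 : (#(s.filter fun x => x.1 * x.2 = k) : ℝ) ≤ Λ :=
          le_trans (by exact_mod_cast h1) h2
        refine (norm_sum_le _ _).trans ((sum_le_card_nsmul _ _ (Λ ^ i) fun x _ => ?_).trans ?_)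
        · rw [norm_mul]
          exact (mul_le_of_le_one_right (norm_nonneg _) (ha _)).trans (c1 _)
        · rw [nsmul_eq_mul, pow_succ, mul_comm]
          gcongr
      · dsimp only
        rw [sum_eq_zero, norm_zero]
        · positivity
        · intro x hx
          obtain ⟨a1, rfl⟩ := mem_filter.1 hx
          exact absurd (hmap x a1) hk
    · rw [pow_succ, c2, DP, sum_mul_sum, ← sum_product', ← sum_fiberwise_of_maps_to hmap]
      refine sum_congr rfl fun k _ => ?_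
      rw [sum_mul]
      refine sum_congr rfl fun x hx => ?_
      obtain ⟨a0, rfl⟩ := mem_filter.1 hx
      obtain ⟨a1, a2⟩ := mem_product.1 a0
      rw [mem_Icc] at a1
      rw [mem_Ioc] at a2
      rw [Lg_mul (by omega) (by omega), mul_add, ee_add]
      ring

lemma LV_pow {Λ B : ℝ} (hL : Loss Λ B) {X j : ℕ} (hX : 1 ≤ X) (hj : 1 ≤ j)
    (hB : ((X ^ j : ℕ) : ℝ) ≤ B) {V : ℝ} (hV : 0 ≤ V) {a : ℕ → ℂ} {W : Finset ℤ} (h : LV X V a W) :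
    ∃ (a' : ℕ → ℂ) (W' : Finset ℤ), W' ⊆ W ∧ (#W : ℝ) ≤ 2 * Λ * #W' ∧
      LV (X ^ j) (V ^ j / (2 * Λ ^ j)) a' W' := by
  obtain ⟨i, rfl⟩ : ∃ i, j = i + 1 := ⟨j - 1, by omega⟩
  obtain ⟨c, c1, c2⟩ := DP_pow hL hX h.1 i hB
  have hΛ := hL.big
  have hΛ0 : 0 < Λ := by linarith
  set N := X ^ (i + 1) with hN
  set L := Nat.log 2 N + 1 with hLd
  have hL2 : (L : ℝ) ≤ 2 * Λ := hL.nlog_le hB
  set b : ℕ → ℕ → ℂ := fun l m => if 2 ^ l ∣ m then c (m / 2 ^ l) / (Λ ^ i : ℝ) else 0 with hb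
  have b1 : ∀ l m, ‖b l m‖ ≤ 1 := by
    intro l m
    simp only [hb]
    split_ifs
    · rw [norm_div, Complex.norm_real, Real.norm_eq_abs, abs_of_pos (by positivity),
        div_le_one (by positivity)]
      exact c1 _
    · simp
  have b2 : ∀ t ∈ W, V ^ (i + 1) ≤ ∑ l ∈ range L, Λ ^ i * ‖DP N (b l) t‖ := by
    intro t ht
    refine (pow_le_pow_left₀ hV (h.2 t ht) _).trans ?_
    rw [← norm_pow, c2, Red.dyad]
    refine (norm_sum_le _ _).trans (le_of_eq (sum_congr rfl fun l _ => ?_))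
    have e : ‖((Λ ^ i : ℝ) : ℂ)‖ = Λ ^ i := by
      rw [Complex.norm_real, Real.norm_eq_abs, abs_of_pos (by positivity)]
    rw [← one_mul ‖∑ m ∈ _, _‖, ← norm_ee (t * Lg (2 ^ l)), ← norm_mul, mul_sum, ← e, ← norm_mul,
      DP, mul_sum]
    refine congrArg _ (sum_congr rfl fun m hm => ?_)
    simp only [hb]
    split_ifs with hd
    · obtain ⟨n, rfl⟩ := hd
      have n0 : n ≠ 0 := by
        rintro rfl
        simp at hm
      have : ((Λ ^ i : ℝ) : ℂ) ≠ 0 := by exact_mod_cast (by positivity : Λ ^ i ≠ 0)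
      rw [Nat.mul_div_cancel_left n (by positivity), Lg_mul (by positivity) n0, mul_add, ee_add]
      field_simp
    · simp
  set F : ℕ → Finset ℤ := fun l => W.filter fun t => V ^ (i + 1) / (2 * Λ ^ (i + 1)) ≤
    ‖DP N (b l) t‖ with hF
  have b3 : W ⊆ (range L).biUnion F := by
    intro t ht
    by_contra hc
    have d1 : ∀ l ∈ range L, Λ ^ i * ‖DP N (b l) t‖ < V ^ (i + 1) / (2 * Λ) := by
      intro l hl
      have : ‖DP N (b l) t‖ < V ^ (i + 1) / (2 * Λ ^ (i + 1)) :=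
        not_le.1 fun d => hc (mem_biUnion.2 ⟨l, hl, mem_filter.2 ⟨ht, d⟩⟩)
      calc _ < Λ ^ i * (V ^ (i + 1) / (2 * Λ ^ (i + 1))) := by gcongr
        _ = _ := by field_simp; ring
    have d2 := sum_lt_sum_of_nonempty ⟨0, by simp [hLd]⟩ d1
    rw [sum_const, card_range, nsmul_eq_mul] at d2
    have d3 : (L : ℝ) * (V ^ (i + 1) / (2 * Λ)) ≤ 2 * Λ * (V ^ (i + 1) / (2 * Λ)) := by gcongr
    have d4 : 2 * Λ * (V ^ (i + 1) / (2 * Λ)) = V ^ (i + 1) := by field_simp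
    linarith [b2 t ht]
  obtain ⟨l, -, hl⟩ := exists_max_image (range L) (fun l => #(F l)) ⟨0, by simp [hLd]⟩
  refine ⟨b l, F l, filter_subset _ _, ?_, b1 l, fun t ht => (mem_filter.1 ht).2⟩
  have d1 : #W ≤ L * #(F l) := by
    have := sum_le_card_nsmul _ _ _ hl
    rw [card_range, smul_eq_mul] at this
    exact ((card_le_card b3).trans card_biUnion_le).trans this
  calc (#W : ℝ) ≤ L * #(F l) := by exact_mod_cast d1
    _ ≤ _ := by gcongr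

lemma mvt {Λ B : ℝ} (hL : Loss Λ B) {N : ℕ} (hN : 1 ≤ N) (hB : 7 * (N : ℝ) ≤ B) {V : ℝ}
    (hV : 0 ≤ V) {a : ℕ → ℂ} {W : Finset ℤ} (h : LV N V a W) {A : ℤ} {T : ℕ}
    (hW : W ⊆ Icc A (A + T)) : #W * V ^ 2 ≤ 2 * Λ * (T + 1 + 7 * N * Λ) * N := by
  have n1 : (1 : ℝ) ≤ N := by exact_mod_cast hN
  have hΛ := hL.big
  have hπ := Real.pi_pos
  have h1 := dual1 (Ioc (N / 2) N) Lg (1 / (7 * N)) (by positivity)
    (one_div_le_one_div_of_le (by norm_num) (by linarith)) (fun n hn m hm hne => by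
      rw [mem_Ioc] at hn hm
      have a1 : (1 : ℝ) ≤ |(n : ℝ) - m| := by
        have : 1 ≤ |(n : ℤ) - m| := Int.one_le_abs (by omega)
        exact_mod_cast this
      have a2 := log_sep (K := N) (a := n) (b := m) (by exact_mod_cast (by omega : 0 < n))
        (by exact_mod_cast (by omega : 0 < m)) (by exact_mod_cast hn.2) (by exact_mod_cast hm.2) a1
      rw [Lg, Lg, ← sub_div, abs_div, abs_of_pos (by positivity : 0 < 2 * π),
        le_div_iff₀ (by positivity)]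
      refine le_trans ?_ a2
      rw [div_mul_eq_mul_div, div_le_div_iff₀ (by positivity) (by positivity)]
      nlinarith [Real.pi_lt_d2]) (Nat.log 2 N + 1) (fun n hn => by
      rw [mem_Ioc] at hn
      have a0 : (1 : ℝ) ≤ n := by exact_mod_cast (by omega : 1 ≤ n)
      have a1 : (n : ℝ) ≤ 2 ^ (Nat.log 2 N + 1) := by
        exact_mod_cast hn.2.trans (Nat.lt_pow_succ_log_self one_lt_two N).le
      have a2 := Real.log_le_log (by linarith) a1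
      rw [Real.log_pow] at a2
      have a3 := Real.log_nonneg a0
      refine ⟨by unfold Lg; positivity, ?_⟩
      have a4 : 2 * Lg n = Real.log n / π := by unfold Lg; field_simp
      have a5 : (0 : ℝ) < ((Nat.log 2 N + 1 : ℕ) : ℝ) := by positivity
      rw [a4, div_lt_iff₀ hπ]
      nlinarith [Real.log_two_lt_d9, Real.pi_gt_three]) A T a
  have h2 : ∑ n ∈ Ioc (N / 2) N, ‖a n‖ ^ 2 ≤ N := by
    refine (sum_le_card_nsmul _ _ 1 fun n _ => pow_le_one₀ (norm_nonneg _) (h.1 n)).trans ?_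
    rw [nsmul_eq_mul, mul_one, Nat.card_Ioc]
    exact_mod_cast Nat.sub_le _ _
  have h3 := hL.nlog_le (X := N) (by linarith)
  have h4 := hL.log_le (x := 7 * N) (by positivity) hB
  have h5 := Real.log_nonneg (show 1 ≤ 7 * (N : ℝ) by linarith)
  rw [one_div_one_div] at h1
  calc #W * V ^ 2 ≤ ∑ t ∈ W, ‖DP N a t‖ ^ 2 := by
        have := card_nsmul_le_sum W (fun t => ‖DP N a t‖ ^ 2) (V ^ 2)
          fun t ht => pow_le_pow_left₀ hV (h.2 t ht) 2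
        rwa [nsmul_eq_mul] at this
    _ ≤ ∑ t ∈ Icc A (A + T), ‖DP N a t‖ ^ 2 :=
        sum_le_sum_of_subset_of_nonneg hW fun _ _ _ => by positivity
    _ ≤ _ := h1.trans (by gcongr)

lemma core_mvt : CoreG (fun _ _ => True) (fun σ τ => max 1 τ + 1 - 2 * σ) := by
  intro ε hε
  have hη : 0 < min (ε / 10) (1 / 100000) := lt_min (by linarith) (by norm_num)
  obtain ⟨N0, hN0⟩ := exists_env hη (min_le_right _ _)
  refine ⟨N0, fun N hN σ τ V T A a W _ hT hV h hW => ?_⟩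
  have E := hN0 N hN
  have hη2 := min_le_left (ε / 10) (1 / 100000)
  set η := min (ε / 10) (1 / 100000)
  have hη1 := E.hη1
  have a7 : 7 * (N : ℝ) ≤ pw N (η + 1) := E.mul (E.c (by norm_num)) E.n (by positivity)
  have h1 := mvt E.hL (by have := E.hN; omega) (E.mono a7 (by linarith))
    ((E.pos _).le.trans hV) h hW
  have h2 := E.add (z := max 1 τ + 3 * η) hT (E.mul a7 (le_refl (pw N η)) (E.pos _).le)
    (by linarith [le_max_right 1 τ]) (by linarith [le_max_left 1 τ])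
  have h3 := E.mul (E.mul (E.mul (E.c (c := 2) (by norm_num)) (le_refl (pw N η)) (E.pos _).le) h2
    (by have := E.pos η; positivity)) E.n (by positivity)
  exact E.mono (E.div (h1.trans h3) (E.lpow hV 2)) (by push_cast; linarith)

lemma pw_pow (N j : ℕ) (x : ℝ) : pw (N ^ j) x = pw N (j * x) := by
  rw [pw, pw, Nat.cast_pow, ← Real.rpow_natCast, ← Real.rpow_mul (by positivity)]

lemma CoreG.pow {R R' : ℝ → ℝ → Prop} {g g' : ℝ → ℝ → ℝ} (h : CoreG R g) {j : ℕ} (hj : 1 ≤ j)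
    {δ0 C : ℝ} (h0 : 0 < δ0) (hR : ∀ σ τ δ, R' σ τ → 0 ≤ δ → δ ≤ δ0 →
      R (σ - δ) (τ / j) ∧ j * g (σ - δ) (τ / j) ≤ g' σ τ + C * δ) : CoreG R' g' := by
  intro ε hε
  have j1 : (1 : ℝ) ≤ j := by exact_mod_cast hj
  obtain ⟨η, hη, hη1, hη2, hη3⟩ : ∃ η : ℝ, 0 < η ∧ η ≤ 1 / 100000 ∧ (j + 1) * η ≤ δ0 ∧
      (|C| + 3) * ((j + 1) * η) ≤ ε := by
    refine ⟨min (1 / 100000) (min (δ0 / (j + 1)) (ε / ((|C| + 3) * (j + 1)))), by positivity,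
      min_le_left _ _, ?_, ?_⟩
    · rw [mul_comm, ← le_div_iff₀ (by positivity)]
      exact (min_le_right _ _).trans (min_le_left _ _)
    · rw [← mul_assoc, mul_comm, ← le_div_iff₀ (by positivity)]
      exact (min_le_right _ _).trans (min_le_right _ _)
  obtain ⟨N0, hN0⟩ := exists_env hη hη1
  obtain ⟨N1, hN1⟩ := h η hη
  refine ⟨max N0 N1, fun N hN σ τ V T A a W hr hT hV hL hW => ?_⟩
  have E := hN0 N (le_of_max_le_left hN)
  have hp : N ≤ N ^ j := Nat.le_self_pow (by omega) N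
  have E' := hN0 (N ^ j) ((le_of_max_le_left hN).trans hp)
  obtain ⟨r1, r2⟩ := hR σ τ ((j + 1) * η) hr (by positivity) hη2
  obtain ⟨a', W', w1, w2, w3⟩ := LV_pow E'.hL (X := N) (by have := E.hN; omega) hj
    (E'.mono E'.n (by norm_num)) ((E.pos _).le.trans hV) hL
  have h1 := hN1 (N ^ j) ((le_of_max_le_right hN).trans hp) _ _ _ T A a' W' r1
    (by rw [pw_pow, mul_div_cancel₀ _ (by positivity)]; exact hT) (by
      rw [le_div_iff₀ (by have := E'.pos η; positivity)]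
      refine le_trans ?_ (E.lpow hV j)
      rw [← pw_pow]
      exact E'.mono (E'.mul le_rfl (E'.Lam j (c := 2) (by norm_num))
        (by have := E'.pos η; positivity)) (by linarith)) w3 (w1.trans hW)
  have h2 := w2.trans (E'.mul (E'.mul (E'.c (c := 2) (by norm_num)) (le_refl _) (E'.pos _).le) h1
    (by positivity))
  rw [pw_pow] at h2
  refine E.mono h2 ?_
  have h3 : C * ((j + 1) * η) ≤ |C| * ((j + 1) * η) := by gcongr; exact le_abs_self C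
  nlinarith

lemma CoreG.or {R R' : ℝ → ℝ → Prop} {g : ℝ → ℝ → ℝ} (h : CoreG R g) (h' : CoreG R' g) :
    CoreG (fun σ τ => R σ τ ∨ R' σ τ) g := by
  intro ε hε
  obtain ⟨N0, h0⟩ := h ε hε
  obtain ⟨N1, h1⟩ := h' ε hε
  refine ⟨max N0 N1, fun N hN σ τ V T A a W hr => ?_⟩
  rcases hr with hr | hr
  · exact h0 N (le_of_max_le_left hN) σ τ V T A a W hr
  · exact h1 N (le_of_max_le_right hN) σ τ V T A a W hr

lemma CoreG.mono {R R' : ℝ → ℝ → Prop} {g g' : ℝ → ℝ → ℝ} (h : CoreG R g)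
    (hR : ∀ σ τ, R' σ τ → R σ τ ∧ g σ τ ≤ g' σ τ) : CoreG R' g' := by
  intro ε hε
  obtain ⟨N0, h0⟩ := h ε hε
  refine ⟨max N0 1, fun N hN σ τ V T A a W hr hT hV hL hW => ?_⟩
  refine (h0 N (le_of_max_le_left hN) σ τ V T A a W (hR σ τ hr).1 hT hV hL hW).trans ?_
  exact Real.rpow_le_rpow_of_exponent_le (by exact_mod_cast le_of_max_le_right hN)
    (by linarith [(hR σ τ hr).2])

lemma En_le {W : Finset ℤ} {A : ℤ} {T : ℕ} (hW : W ⊆ Icc A (A + T)) : En W T ≤ (#W : ℝ) ^ 3 := by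
  have h1 := rr_sum W _ (diff_mem hW) fun _ => (#W : ℝ)
  simp only [sum_const, nsmul_eq_mul] at h1
  calc En W T ≤ ∑ s ∈ Icc (-(T : ℤ)) T, rr W s * #W := sum_le_sum fun s _ => by
        rw [sq]
        exact mul_le_mul_of_nonneg_left (rr_le W s) (rr_nonneg W s)
    _ = _ := by rw [h1]; ring

lemma fr_l1 {P T : ℕ} (hT : T < P) {A : ℤ} {W : Finset ℤ} (hW : W ⊆ Icc A (A + T)) :
    ∑ x ∈ XX P, fr W (fun _ => 1) ((x : ℝ) / P) ≤ P * (2 * √(#W : ℝ)) := by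
  have h1 := pars_fr hT hW fun _ => 1
  have h2 := sq_sum_le_card_mul_sum_sq (s := XX P) (f := fun x => fr W (fun _ => 1) ((x : ℝ) / P))
  have h3 : (#(XX P) : ℝ) ≤ 2 * P := by
    have : #(XX P) ≤ 2 * P := by rw [XX, Int.card_Ioo]; omega
    exact_mod_cast this
  simp only [one_pow, sum_const, nsmul_eq_mul, mul_one] at h1
  refine abs_le_of_sq_le_sq' ?_ (by positivity) |>.2
  calc _ ≤ 2 * (P : ℝ) * (2 * P * #W) := h2.trans (by gcongr)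
    _ = _ := by rw [mul_pow, mul_pow, Real.sq_sqrt (by positivity)]; ring

lemma Env.gm0 {N : ℕ} {η : ℝ} (E : Env N η) {V σ τ w q e : ℝ} (hV : pw N (σ - η) ≤ V) (hσ : η ≤ σ)
    {a : ℕ → ℂ} {W : Finset ℤ} (h : LV N V a W) {A : ℤ} {T : ℕ} (hW : W ⊆ Icc A (A + T))
    (hT : (T : ℝ) + 1 ≤ pw N τ) (t1 : 1 ≤ τ) (t2 : τ ≤ 2) (w1 : pw N w ≤ #W)
    (w2 : (#W : ℝ) ≤ pw N (w + η)) (w3 : 0 ≤ w) (w4 : w + η ≤ 2 * τ) (k1 : 2 * (w + η) ≤ q)
    (k2 : τ - 1 + η + (w + η) ≤ q) (k3 : 5 * (w + η) / 4 + τ / 2 ≤ q)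
    (k4 : 3 * (w + η) ≤ e ∨ w + 4 - 4 * σ + 11 * η ≤ e ∧ w + 1 + q - 2 * σ + 19 * η ≤ e)
    (k5 : 2 + 4 * η ≤ w + 2 * σ) (k6 : q + 5 + 50 * η ≤ 3 * w + 6 * σ)
    (k7 : 2 * τ + 3 + 3 * w / 2 + 50 * η ≤ 3 * w + 6 * σ)
    (k8 : τ + 4 + w / 2 + e / 2 + 50 * η ≤ 3 * w + 6 * σ) : False := by
  have hη := E.hη
  have hη1 := E.hη1
  have hV1 : 1 ≤ V := (E.one_le (by linarith)).trans hV
  obtain ⟨P, M, H, hM, hp⟩ := E.par t1 (by linarith)
  have hp := hp T hT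
  obtain ⟨b1, b2, b3, b4, b5, b6, b7, b8⟩ := hp.basic
  have hQ := E.HB1 A T W hW (fun _ => 1) (fun _ _ => zero_le_one) M (α := w + η) (β := w + η)
    (q := q) (by simpa using w2) (by simpa using w2) hT hM (by linarith) (by linarith)
    (by linarith) k1 k2 (by linarith)
  have hE : En W T ≤ pw N e := by
    rcases k4 with k | k
    · exact E.mono ((En_le hW).trans (E.pow w2 (by positivity) 3)) (by push_cast; linarith)
    · exact E.en1 hp hV h hW w2 hQ (by linarith [k.1]) (by linarith [k.2])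
  have a2 := T2 E.hL hp hV1 h hW (hW.trans (Icc_subset_Icc (by omega) (by omega))) subset_rfl
    (fun _ => 1) (fun _ _ => zero_le_one) (fun _ _ => le_rfl) (E.thr hV w1 k5) _
    (fr_l1 (T := T) (by omega) hW)
  simp only [one_pow, sum_const, nsmul_eq_mul, mul_one] at a2
  have a3 := E.add (z := 3 * w + 6 * σ - 5 - 30 * η)
    (E.mul (E.pow hM (by positivity) 2) (E.mul
      (E.mul (E.c (c := 2) (by norm_num)) (E.sqrt w2) (by positivity)) w2 (by positivity))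
      (by positivity))
    (E.mul hM (E.mul (E.sqrt w2) (E.sqrt hE) (by positivity)) (by positivity))
    (by push_cast; linarith) (by linarith)
  have a4 := E.add (z := 3 * w + 6 * σ - 5 - 29 * η)
    (E.mul (E.sqrt hQ) (E.sqrt hQ) (by positivity)) a3 (by linarith) (by linarith)
  have a5 := E.mul (E.mul (E.pow (le_refl (pw N η)) (E.pos _).le 13)
    (E.pow E.n (by positivity) 5) (by positivity)) a4 (by positivity)
  have a6 := E.le_iff.1 ((E.lmul (E.lpow w1 3) (E.lpow hV 6)).trans (a2.trans a5))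
  push_cast at a6
  linarith

lemma core_triv : CoreG (fun _ _ => True) (fun _ τ => τ) := by
  intro ε hε
  refine ⟨1, fun N hN σ τ V T A a W _ hT _ _ hW => ?_⟩
  have h1 := card_le_card hW
  rw [Int.card_Icc] at h1
  have h2 : (#W : ℝ) ≤ T + 1 := by exact_mod_cast (by omega : #W ≤ T + 1)
  exact (h2.trans hT).trans (Real.rpow_le_rpow_of_exponent_le (by exact_mod_cast hN) (by linarith))

lemma core_gm : CoreG (fun σ τ => σ ≤ 1 ∧ 1 ≤ τ ∧ (4 / 5 ≤ σ ∧ τ ≤ 4 / 3 ∨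
    5 / 7 ≤ σ ∧ σ ≤ 4 / 5 ∧ τ ≤ 6 / 5 ∧ 8 * σ - 4 ≤ τ * (9 * σ - 5)))
    (fun σ τ => 9 / 4 * τ * (1 - σ)) := by
  intro ε hε
  have hη : 0 < min (ε / 10) (1 / 100000) := lt_min (by linarith) (by norm_num)
  obtain ⟨N0, hN0⟩ := exists_env hη (min_le_right _ _)
  refine ⟨N0, fun N hN σ τ V T A a W ⟨s1, t1, hr⟩ hT hV h hW => ?_⟩
  have E := hN0 N hN
  have hη2 := min_le_left (ε / 10) (1 / 100000)
  set η := min (ε / 10) (1 / 100000)
  have hη1 := E.hη1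
  clear_value η
  obtain ⟨w, hw⟩ : ∃ w, w = 9 / 4 * (τ - σ * τ) + 4 * η := ⟨_, rfl⟩
  have p0 := mul_nonneg (sub_nonneg.2 s1) (sub_nonneg.2 t1)
  have w0 : 0 ≤ w := by nlinarith
  obtain ⟨m1, m2⟩ := E.ceil w0
  by_contra hc
  have hc1 : ⌈pw N w⌉₊ ≤ #W := by
    have := (E.mono m2 (y := 9 / 4 * τ * (1 - σ) + ε) (by linarith)).trans (not_le.1 hc).le
    exact_mod_cast this
  obtain ⟨W', hW', hm⟩ := exists_subset_card_eq hc1
  rw [← hm] at m1 m2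
  obtain ⟨q, k1, k2, k3, k0⟩ : ∃ q, 2 * (w + η) ≤ q ∧ τ - 1 + η + (w + η) ≤ q ∧
      5 * (w + η) / 4 + τ / 2 ≤ q ∧
      (q = 2 * (w + η) ∨ q = τ - 1 + η + (w + η) ∨ q = 5 * (w + η) / 4 + τ / 2) :=
    ⟨max (2 * (w + η)) (max (τ - 1 + η + (w + η)) (5 * (w + η) / 4 + τ / 2)), le_max_left _ _,
      le_max_of_le_right (le_max_left _ _), le_max_of_le_right (le_max_right _ _), by
        rcases max_choice (2 * (w + η)) (max (τ - 1 + η + (w + η)) (5 * (w + η) / 4 + τ / 2))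
          with e | e <;> rw [e]
        · exact .inl rfl
        · exact .inr (max_choice _ _)⟩
  have hV' : pw N (σ - η) ≤ V := E.lmono hV (by linarith)
  rcases hr with ⟨s2, t2⟩ | ⟨s2, s3, t2, hq⟩
  · have p1 := mul_nonneg (sub_nonneg.2 s2) (sub_nonneg.2 t2)
    have p2 := mul_nonneg (sub_nonneg.2 s2) (sub_nonneg.2 t1)
    refine E.gm0 hV' (by linarith) (h.mono hW') (hW'.trans hW) hT t1 (by linarith) m1 m2 w0
      (by linarith) k1 k2 k3 (.inl le_rfl) (by linarith) ?_ (by linarith) (by linarith)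
    rcases k0 with e | e | e <;> linarith
  · have p1 := mul_nonneg (sub_nonneg.2 s2) (sub_nonneg.2 t2)
    have p2 := mul_nonneg (sub_nonneg.2 s2) (sub_nonneg.2 t1)
    have p3 := mul_nonneg (sub_nonneg.2 s3) (sub_nonneg.2 t1)
    refine E.gm0 hV' (by linarith) (h.mono hW') (hW'.trans hW) hT t1 (by linarith) m1 m2 w0
      (by linarith) k1 k2 k3 (.inr ⟨le_max_left _ _, le_max_right _ _⟩) (by linarith) ?_
      (by linarith) ?_
    · rcases k0 with e | e | e <;> linarith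
    · rcases max_choice (w + 4 - 4 * σ + 11 * η) (w + 1 + q - 2 * σ + 19 * η) with e' | e' <;>
        rw [e']
      · linarith
      · rcases k0 with e | e | e <;> linarith

/-- Long polynomials: mean value theorem and the Guth-Maynard inequality `T2`. -/
lemma coreA : CoreG (fun σ τ => σ ≤ 1 ∧ 8 / 9 ≤ τ ∧ (τ ≤ 6 / 5 ∨ (4 / 5 ≤ σ ∧ τ ≤ 4 / 3)))
    (fun σ τ => 9 / 4 * τ * (1 - σ)) := by
  have h1 : CoreG (fun σ τ => σ ≤ 5 / 9 ∧ 0 ≤ τ) (fun σ τ => 9 / 4 * τ * (1 - σ)) :=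
    core_triv.mono fun σ τ h => ⟨trivial, by nlinarith [h.1, h.2]⟩
  have h2 : CoreG (fun σ τ => σ ≤ 1 ∧ 8 / 9 ≤ τ ∧ τ * (9 * σ - 5) ≤ 8 * σ - 4 ∨
      σ ≤ 1 ∧ 8 / 9 ≤ τ ∧ τ ≤ 1) (fun σ τ => 9 / 4 * τ * (1 - σ)) :=
    core_mvt.mono fun σ τ h => ⟨trivial, by
      have h3 : σ ≤ 1 ∧ 8 / 9 ≤ τ := h.elim (fun h => ⟨h.1, h.2.1⟩) fun h => ⟨h.1, h.2.1⟩
      have h4 := mul_nonneg (sub_nonneg.2 h3.1) (sub_nonneg.2 h3.2)
      rcases le_total τ 1 with t | t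
      · rw [max_eq_left t]; linarith
      · rw [max_eq_right t]
        rcases h with h | h
        · linarith [h.2.2]
        · obtain rfl : τ = 1 := le_antisymm h.2.2 t
          linarith⟩
  refine ((h1.or h2).or core_gm).mono fun σ τ ⟨s1, t1, hr⟩ => ⟨?_, le_rfl⟩
  rcases le_total σ (5 / 9) with s | s
  · exact .inl (.inl ⟨s, by linarith⟩)
  rcases le_total τ 1 with t | t
  · exact .inl (.inr (.inr ⟨s1, t1, t⟩))
  rcases le_total (τ * (9 * σ - 5)) (8 * σ - 4) with u | u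
  · exact .inl (.inr (.inl ⟨s1, t1, u⟩))
  refine .inr ⟨s1, t, ?_⟩
  rcases le_total σ (4 / 5) with s2 | s2
  · have t2 : τ ≤ 6 / 5 ∨ 4 / 5 ≤ σ ∧ τ ≤ 4 / 3 := hr
    rcases t2 with t2 | t2
    · exact .inr ⟨by nlinarith, s2, t2, u⟩
    · exact .inl t2
  · exact .inl ⟨s2, hr.elim (fun h => by linarith) fun h => h.2⟩

open Red in
/-- Passage to real points and to polynomials supported on `[1, N]`. -/
lemma CoreG.real {R R' : ℝ → ℝ → Prop} {g g' : ℝ → ℝ → ℝ} (h : CoreG R g)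
    {δ0 C : ℝ} (h0 : 0 < δ0) (hR : ∀ σ τ δ, R' σ τ → 0 ≤ δ → δ ≤ δ0 →
      R (σ - δ) (τ + δ) ∧ g (σ - δ) (τ + δ) ≤ g' σ τ + C * δ) (ε : ℝ) (hε : 0 < ε) :
    ∃ N0 : ℕ, ∀ N : ℕ, N0 ≤ N → ∀ (σ τ : ℝ) (a : ℕ → ℂ) (S : Finset ℝ), R' σ τ → 0 ≤ σ → 0 ≤ τ →
      (∀ n, ‖a n‖ ≤ 1) → (∀ t ∈ S, 0 ≤ t ∧ t ≤ (N : ℝ) ^ τ) →
      (∀ t ∈ S, ∀ t' ∈ S, t ≠ t' → 1 ≤ |t - t'|) →
      (∀ t ∈ S, (N : ℝ) ^ σ ≤ ‖∑ n ∈ Icc 1 N, a n * (n : ℂ) ^ (-((t : ℂ) * Complex.I))‖) →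
      (#S : ℝ) ≤ (N : ℝ) ^ (g' σ τ + ε) := by
  obtain ⟨δ, hδ, hδ1, hδ2, hδ3⟩ : ∃ δ : ℝ, 0 < δ ∧ δ ≤ 1 / 100000 ∧ δ ≤ δ0 ∧
      (|C| + 2) * δ ≤ ε := by
    refine ⟨min (1 / 100000) (min δ0 (ε / (|C| + 2))), by positivity, min_le_left _ _,
      (min_le_right _ _).trans (min_le_left _ _), ?_⟩
    rw [mul_comm, ← le_div_iff₀ (by positivity)]
    exact (min_le_right _ _).trans (min_le_right _ _)
  obtain ⟨N0, hN0⟩ := exists_env hδ hδ1
  obtain ⟨N1, hN1⟩ := h δ hδ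
  obtain ⟨N2, hN2⟩ := cl_le hδ
  refine ⟨max N0 (max N1 N2), fun N hN σ τ a S hr s0 t0 ha hS hs hD => ?_⟩
  have E := hN0 N (le_of_max_le_left hN)
  have k1 : 2 * (#(cl N) : ℝ) ≤ pw N δ := hN2 N (le_of_max_le_right (le_of_max_le_right hN))
  obtain ⟨r1, r2⟩ := hR σ τ δ hr hδ.le hδ2
  have hT : (⌈(N : ℝ) ^ τ⌉₊ : ℝ) + 1 ≤ pw N (τ + δ) := by
    have a1 := Nat.ceil_lt_add_one (E.pos τ).le
    have a2 := E.one_le t0
    have a3 := E.mul (le_refl (pw N τ)) (E.c (c := 3) (by norm_num)) (by norm_num)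
    change (⌈pw N τ⌉₊ : ℝ) + 1 ≤ _
    linarith
  have b1 : ∀ p ∈ cl N, (#{t ∈ S | pw N (σ - δ) ≤ ‖DP N (co N a p) ⌊t⌋‖} : ℝ)
      ≤ pw N (g (σ - δ) (τ + δ) + δ) := fun p _ => by
    rw [← card_image_of_injOn ((floor_inj hs).mono (coe_subset.2 (filter_subset _ _)))]
    refine hN1 N (le_of_max_le_left (le_of_max_le_right hN)) _ _ _ _ 0 (co N a p) _ r1 hT le_rfl
      ⟨cf_le (ite_le ha _) _, fun k hk => ?_⟩
      (by rw [zero_add]; exact floor_mem fun t ht => hS t (mem_filter.1 ht).1)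
    obtain ⟨t, ht, rfl⟩ := mem_image.1 hk
    exact (mem_filter.1 ht).2
  have b2 : S ⊆ (cl N).biUnion fun p => {t ∈ S | pw N (σ - δ) ≤ ‖DP N (co N a p) ⌊t⌋‖} :=
    fun t ht => by
      by_contra c
      have c1 : ∀ p ∈ cl N, ‖DP N (co N a p) ⌊t⌋‖ < pw N (σ - δ) := fun p hp =>
        not_le.1 fun d => c (mem_biUnion.2 ⟨p, hp, mem_filter.2 ⟨ht, d⟩⟩)
      have c2 := sum_lt_sum_of_nonempty ⟨(0, 0), by simp [cl]⟩ c1
      rw [sum_const, nsmul_eq_mul] at c2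
      have c3 := E.mul k1 (le_refl (pw N (σ - δ))) (E.pos _).le
      rw [add_sub_cancel] at c3
      have c4 : pw N σ ≤ _ := (hD t ht).trans (split (by have := E.hN; omega) ha t)
      linarith [E.one_le s0]
  have b3 : (#S : ℝ) ≤ #(cl N) * pw N (g (σ - δ) (τ + δ) + δ) :=
    le_trans (by exact_mod_cast (card_le_card b2).trans card_biUnion_le)
      ((sum_le_card_nsmul _ _ _ b1).trans_eq (nsmul_eq_mul _ _))
  have b4 : (#(cl N) : ℝ) ≤ pw N δ := by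
    have : (0 : ℝ) ≤ #(cl N) := by positivity
    linarith
  have h3 : C * δ ≤ |C| * δ := by gcongr; exact le_abs_self C
  exact E.mono (b3.trans (E.mul b4 le_rfl (E.pos _).le)) (by linarith)

lemma card_triv {S : Finset ℝ} {T : ℝ} (hT : 1 ≤ T) (hS : ∀ t ∈ S, 0 ≤ t ∧ t ≤ T)
    (hs : ∀ t ∈ S, ∀ u ∈ S, t ≠ u → 1 ≤ |t - u|) : (#S : ℝ) ≤ 3 * T := by
  have h2 := card_le_card (Red.floor_mem hS)
  rw [card_image_of_injOn (Red.floor_inj hs), Int.card_Icc] at h2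
  have h3 : (#S : ℝ) ≤ ⌈T⌉₊ + 1 := by exact_mod_cast (by omega : #S ≤ ⌈T⌉₊ + 1)
  linarith [Nat.ceil_lt_add_one (zero_le_one.trans hT)]

lemma norm_triv (N : ℕ) {a : ℕ → ℂ} (ha : ∀ n, ‖a n‖ ≤ 1) (t : ℝ) :
    ‖∑ n ∈ Icc 1 N, a n * (n : ℂ) ^ (-((t : ℂ) * Complex.I))‖ ≤ N := by
  refine (norm_sum_le _ _).trans ((sum_le_card_nsmul _ _ 1 fun n hn => ?_).trans (by simp))
  rw [Red.cpow_eq t (by have := mem_Icc.1 hn; omega), norm_mul, norm_ee, mul_one]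
  exact ha n

/-- The new estimate at integer points. -/
def CoreB : Prop := CoreG (fun σ τ => σ ≤ 1 ∧ 2 ≤ τ ∧ τ ≤ 31 / 10)
  (fun σ τ => max (τ / 3 + 10 / 3 - 4 * σ) ((5 * τ + 30 - 44 * σ) / 7))

theorem thmB (h : CoreB) : ∀ ε : ℝ, 0 < ε → ∃ C : ℝ,
    ∀ (N : ℕ) (a : ℕ → ℂ) (T V : ℝ) (S : Finset ℝ),
      1 ≤ N → (∀ n, ‖a n‖ ≤ 1) → (N : ℝ) ^ 2 ≤ T → T ≤ (N : ℝ) ^ 3 → 0 < V →
      (∀ t ∈ S, 0 ≤ t ∧ t ≤ T) → (∀ t ∈ S, ∀ u ∈ S, t ≠ u → 1 ≤ |t - u|) →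
      (∀ t ∈ S, V ≤ ‖∑ n ∈ Finset.Icc 1 N, a n * (n : ℂ) ^ (-((t : ℂ) * Complex.I))‖) →
      (S.card : ℝ) ≤ C * (N : ℝ) ^ ε *
        (T ^ (1 / 3 : ℝ) * (N : ℝ) ^ (10 / 3 : ℝ) * V ^ (-4 : ℝ)
          + T ^ (5 / 7 : ℝ) * (N : ℝ) ^ (30 / 7 : ℝ) * V ^ (-(44 / 7) : ℝ)) := by
  intro ε hε
  obtain ⟨N0, h0⟩ := CoreG.real h (R' := fun σ τ => σ ≤ 1 ∧ 2 ≤ τ ∧ τ ≤ 3)
    (g' := fun σ τ => max (τ / 3 + 10 / 3 - 4 * σ) ((5 * τ + 30 - 44 * σ) / 7)) (δ0 := 1 / 10)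
    (C := 7) (by norm_num) (fun σ τ δ hr d0 d1 => ⟨⟨by linarith [hr.1], by linarith [hr.2.1],
      by linarith [hr.2.2]⟩, max_le (by linarith [le_max_left (τ / 3 + 10 / 3 - 4 * σ) ((5 * τ + 30 - 44 * σ) / 7)])
      (by linarith [le_max_right (τ / 3 + 10 / 3 - 4 * σ) ((5 * τ + 30 - 44 * σ) / 7)])⟩) ε hε
  set K := max N0 2
  have K1 : (1 : ℝ) ≤ K := by exact_mod_cast one_le_two.trans (le_max_right _ _)
  have K3 : (1 : ℝ) ≤ (K : ℝ) ^ 3 := one_le_pow₀ K1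
  refine ⟨3 * (K : ℝ) ^ 3, fun N a T V S hN ha hT hT' hV hS hs hD => ?_⟩
  have n1 : (1 : ℝ) ≤ N := by exact_mod_cast hN
  have n0 : (0 : ℝ) < N := by positivity
  have T1 : 1 ≤ T := (one_le_pow₀ n1).trans hT
  have e1 := Real.one_le_rpow n1 hε.le
  have c1 := card_triv T1 hS hs
  rcases S.eq_empty_or_nonempty with rfl | ⟨t, ht⟩
  · rw [card_empty, Nat.cast_zero]; positivity
  have hVN := (hD t ht).trans (norm_triv N ha t)
  have low : ∀ x y : ℝ, 0 ≤ x → T ≤ (N : ℝ) ^ x → V ≤ (N : ℝ) ^ y → ∀ D : ℝ, 0 ≤ D →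
      (N : ℝ) ^ (2 / 3 * x + 4 * y - 10 / 3) ≤ D →
      T ≤ D * (T ^ (1 / 3 : ℝ) * (N : ℝ) ^ (10 / 3 : ℝ) * V ^ (-4 : ℝ)) := by
    intro x y _ h1 h2 D D0 h3
    calc T = T ^ (2 / 3 : ℝ) * T ^ (1 / 3 : ℝ) := by
          rw [← Real.rpow_add (by positivity)]; norm_num
      _ ≤ ((N : ℝ) ^ x) ^ (2 / 3 : ℝ) * T ^ (1 / 3 : ℝ) := by gcongr
      _ = (N : ℝ) ^ (2 / 3 * x + 4 * y - 10 / 3) * (T ^ (1 / 3 : ℝ) * (N : ℝ) ^ (10 / 3 : ℝ) *
          ((N : ℝ) ^ y) ^ (-4 : ℝ)) := by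
          rw [mul_assoc, mul_left_comm, mul_comm]
          simp only [← Real.rpow_mul n0.le, ← Real.rpow_add n0]
          congr 2
          ring
      _ ≤ _ := by
          gcongr ?_ * (_ * ?_)
          exact Real.rpow_le_rpow_of_nonpos hV h2 (by norm_num)
  have fin : ∀ y : ℝ, V ≤ (N : ℝ) ^ y → (N : ℝ) ^ (2 / 3 * 3 + 4 * y - 10 / 3) ≤ (K : ℝ) ^ 3 →
      (#S : ℝ) ≤ 3 * (K : ℝ) ^ 3 * (N : ℝ) ^ ε *
        (T ^ (1 / 3 : ℝ) * (N : ℝ) ^ (10 / 3 : ℝ) * V ^ (-4 : ℝ)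
          + T ^ (5 / 7 : ℝ) * (N : ℝ) ^ (30 / 7 : ℝ) * V ^ (-(44 / 7) : ℝ)) := by
    intro y h1 h2
    have := low 3 y (by norm_num) (by exact_mod_cast hT') h1 _ (by positivity) h2
    calc (#S : ℝ) ≤ 3 * (K : ℝ) ^ 3 * 1 *
          (T ^ (1 / 3 : ℝ) * (N : ℝ) ^ (10 / 3 : ℝ) * V ^ (-4 : ℝ) + 0) := by linarith
      _ ≤ _ := by gcongr; positivity
  rcases le_total V 1 with V1 | V1
  · exact fin 0 (by simpa using V1)
      ((Real.rpow_le_one_of_one_le_of_nonpos n1 (by norm_num)).trans K3)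
  by_cases hK : K ≤ N
  swap
  · refine fin 1 (by simpa using hVN) ((Real.rpow_le_rpow_of_exponent_le n1
      (by norm_num : (2 / 3 * 3 + 4 * 1 - 10 / 3 : ℝ) ≤ (3 : ℕ))).trans ?_)
    rw [Real.rpow_natCast]
    gcongr
    exact (not_le.1 hK).le
  have n2 : (1 : ℝ) < N := by exact_mod_cast one_lt_two.trans_le (le_of_max_le_right hK)
  obtain ⟨σ, rfl⟩ : ∃ σ : ℝ, V = (N : ℝ) ^ σ := ⟨_, (Real.rpow_logb n0 n2.ne' (by positivity)).symm⟩
  obtain ⟨τ, rfl⟩ : ∃ τ : ℝ, T = (N : ℝ) ^ τ := ⟨_, (Real.rpow_logb n0 n2.ne' (by positivity)).symm⟩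
  rw [← Real.rpow_natCast, Real.rpow_le_rpow_left_iff n2] at hT hT'
  push_cast at hT hT'
  have s0 : 0 ≤ σ := (Real.rpow_le_rpow_left_iff n2).1 (by simpa using V1)
  have s1 : σ ≤ 1 := (Real.rpow_le_rpow_left_iff n2).1 (by simpa using hVN)
  refine (h0 N (le_of_max_le_left hK) σ τ a S ⟨s1, hT, hT'⟩ s0 (by linarith) ha hS hs hD).trans ?_
  rw [Real.rpow_add n0, mul_comm, ← one_mul ((N : ℝ) ^ ε * _), ← mul_assoc]
  gcongr ?_ * _ * ?_
  · linarith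
  simp only [← Real.rpow_mul n0.le, ← Real.rpow_add n0]
  rcases max_choice (τ / 3 + 10 / 3 - 4 * σ) ((5 * τ + 30 - 44 * σ) / 7) with e | e <;> rw [e]
  · exact le_add_of_le_of_nonneg (le_of_eq (by congr 1; ring)) (by positivity)
  · exact le_add_of_nonneg_of_le (by positivity) (le_of_eq (by congr 1; ring))

lemma coreA_pow {j : ℕ} (hj : 1 ≤ j) : CoreG (fun σ τ => σ ≤ 1 ∧ 8 / 9 * j ≤ τ ∧
    (τ ≤ 6 / 5 * j ∨ (17 / 20 ≤ σ ∧ τ ≤ 4 / 3 * j))) (fun σ τ => 9 / 4 * τ * (1 - σ)) := by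
  have j1 : (1 : ℝ) ≤ j := by exact_mod_cast hj
  have j0 : (0 : ℝ) < j := by positivity
  refine coreA.pow hj (δ0 := 1 / 20) (C := 3 * j) (by norm_num)
    fun σ τ δ ⟨s1, t1, hr⟩ d0 d1 => ⟨⟨by linarith, (le_div_iff₀ j0).2 t1, ?_⟩, ?_⟩
  · exact hr.imp (div_le_iff₀ j0).2 fun h => ⟨by linarith [h.1], (div_le_iff₀ j0).2 h.2⟩
  · have t2 : τ ≤ 4 / 3 * j := hr.elim (fun h => by linarith) fun h => h.2
    have e : j * (9 / 4 * (τ / j) * (1 - (σ - δ))) = 9 / 4 * τ * (1 - σ) + 9 / 4 * τ * δ := by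
      field_simp; ring
    rw [e]
    nlinarith

lemma coreC (h : CoreB) (K : ℝ) : CoreG (fun σ τ => σ ≤ 1 ∧ 16 / 9 ≤ τ ∧ τ ≤ K)
    (fun σ τ => 9 / 4 * τ * (1 - σ)) := by
  have h4 : CoreG (fun σ τ => 2 ≤ τ ∧ τ ≤ 8 - 8 * σ) (fun σ τ => 9 / 4 * τ * (1 - σ)) :=
    core_mvt.pow (j := 2) (by norm_num) (δ0 := 1) (C := 4) one_pos
      fun σ τ δ ⟨t1, t2⟩ d0 d1 => ⟨trivial, by
        push_cast
        rw [max_eq_right (by linarith)]
        nlinarith [mul_nonneg (sub_nonneg.2 t2) (show 0 ≤ 9 * τ - 16 by linarith),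
          sq_nonneg (3 * τ - 8)]⟩
  have hB : CoreG (fun σ τ => σ ≤ 17 / 20 ∧ 2 ≤ τ ∧ τ ≤ 8 / 3 ∧ 8 - 8 * σ ≤ τ)
      (fun σ τ => 9 / 4 * τ * (1 - σ)) :=
    CoreG.mono h fun σ τ ⟨s1, t1, t2, t3⟩ => ⟨⟨by linarith, t1, by linarith⟩, max_le
      (by nlinarith [mul_nonneg (sub_nonneg.2 s1) (show 0 ≤ 27 * τ - 48 by linarith)])
      (by nlinarith [mul_nonneg (sub_nonneg.2 t3) (show 0 ≤ 176 - 63 * τ by linarith),
        sq_nonneg (3 * τ - 8)])⟩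
  have key : ∀ J : ℕ, CoreG (fun σ τ => σ ≤ 1 ∧ 16 / 9 ≤ τ ∧ τ ≤ 6 / 5 * (J + 3))
      (fun σ τ => 9 / 4 * τ * (1 - σ)) := by
    intro J
    induction J with
    | zero =>
      refine (((coreA_pow (j := 2) (by norm_num)).or (coreA_pow (j := 3) (by norm_num))).or
        (h4.or hB)).mono fun σ τ ⟨s1, t1, t2⟩ => ⟨?_, le_rfl⟩
      push_cast at t2 ⊢
      rcases le_total τ (12 / 5) with t | t
      · exact .inl (.inl ⟨s1, by linarith, .inl (by linarith)⟩)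
      rcases le_total (8 / 3) τ with t' | t'
      · exact .inl (.inr ⟨s1, by linarith, .inl (by linarith)⟩)
      rcases le_total (17 / 20) σ with s | s
      · exact .inl (.inl ⟨s1, by linarith, .inr ⟨s, by linarith⟩⟩)
      rcases le_total τ (8 - 8 * σ) with u | u
      · exact .inr (.inl ⟨by linarith, u⟩)
      · exact .inr (.inr ⟨s, by linarith, t', u⟩)
    | succ J ih =>
      refine (ih.or (coreA_pow (j := J + 4) (by omega))).mono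
        fun σ τ ⟨s1, t1, t2⟩ => ⟨?_, le_rfl⟩
      push_cast at t2 ⊢
      have : (0 : ℝ) ≤ J := by positivity
      rcases le_total τ (6 / 5 * (J + 3)) with t | t
      · exact .inl ⟨s1, t1, t⟩
      · exact .inr ⟨s1, by linarith, .inl (by linarith)⟩
  refine (key ⌈K⌉₊).mono fun σ τ ⟨s1, t1, t2⟩ => ⟨⟨s1, t1, ?_⟩, le_rfl⟩
  have : (0 : ℝ) ≤ ⌈K⌉₊ := by positivity
  linarith [Nat.le_ceil K]

theorem thmC (h : CoreB) : ∀ ε K : ℝ, 0 < ε → ∃ C : ℝ,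
    ∀ (N : ℕ) (a : ℕ → ℂ) (T σ : ℝ) (S : Finset ℝ),
      1 ≤ N → (∀ n, ‖a n‖ ≤ 1) → (N : ℝ) ^ (16 / 9 : ℝ) ≤ T → T ≤ (N : ℝ) ^ K →
      (∀ t ∈ S, 0 ≤ t ∧ t ≤ T) → (∀ t ∈ S, ∀ u ∈ S, t ≠ u → 1 ≤ |t - u|) →
      (∀ t ∈ S, (N : ℝ) ^ σ ≤ ‖∑ n ∈ Finset.Icc 1 N, a n * (n : ℂ) ^ (-((t : ℂ) * Complex.I))‖) →
      (S.card : ℝ) ≤ C * T ^ (9 / 4 * (1 - σ) + ε) := by
  intro ε K hε
  obtain ⟨N0, h0⟩ := (coreC h (K + 1)).real (R' := fun σ τ => 0 ≤ σ ∧ σ ≤ 1 ∧ 16 / 9 ≤ τ ∧ τ ≤ K)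
    (g' := fun σ τ => 9 / 4 * τ * (1 - σ)) (δ0 := 1) (C := 9 / 4 * (K + 2)) one_pos
    (fun σ τ δ ⟨s0, s1, t1, t2⟩ d0 d1 => ⟨⟨by linarith, by linarith, by linarith⟩, by
      nlinarith [mul_nonneg d0 s0, mul_nonneg d0 (sub_nonneg.2 t2),
        mul_nonneg d0 (sub_nonneg.2 d1)]⟩) ε hε
  set L := max N0 2
  have L1 : (1 : ℝ) ≤ L := by exact_mod_cast one_le_two.trans (le_max_right _ _)
  have L2 : (1 : ℝ) ≤ (L : ℝ) ^ |K| := Real.one_le_rpow L1 (abs_nonneg K)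
  refine ⟨3 * (L : ℝ) ^ |K|, fun N a T σ S hN ha hT hT' hS hs hD => ?_⟩
  have n1 : (1 : ℝ) ≤ N := by exact_mod_cast hN
  have n0 : (0 : ℝ) < N := by positivity
  have T1 : 1 ≤ T := (Real.one_le_rpow n1 (by norm_num)).trans hT
  have c1 := card_triv T1 hS hs
  rcases S.eq_empty_or_nonempty with rfl | ⟨t, ht⟩
  · rw [card_empty, Nat.cast_zero]; positivity
  have hVN := (hD t ht).trans (norm_triv N ha t)
  rcases hN.eq_or_lt with rfl | n2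
  · obtain rfl : T = 1 := le_antisymm (by simpa using hT') T1
    rw [Real.one_rpow]
    linarith
  have n2 : (1 : ℝ) < N := by exact_mod_cast n2
  have s1 : σ ≤ 1 := (Real.rpow_le_rpow_left_iff n2).1 (by simpa using hVN)
  rcases le_total σ 0 with s0 | s0
  · have := Real.self_le_rpow_of_one_le T1 (show 1 ≤ 9 / 4 * (1 - σ) + ε by linarith)
    calc (#S : ℝ) ≤ 3 * 1 * T := by linarith
      _ ≤ _ := by gcongr
  by_cases hK : L ≤ N
  swap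
  · have a1 := Real.one_le_rpow T1 (show 0 ≤ 9 / 4 * (1 - σ) + ε by linarith)
    have a2 : T ≤ (L : ℝ) ^ |K| :=
      (hT'.trans (Real.rpow_le_rpow_of_exponent_le n1 (le_abs_self K))).trans (by
        gcongr
        exact (not_le.1 hK).le)
    calc (#S : ℝ) ≤ 3 * T * 1 := by linarith
      _ ≤ _ := by gcongr
  obtain ⟨τ, rfl⟩ : ∃ τ : ℝ, T = (N : ℝ) ^ τ := ⟨_, (Real.rpow_logb n0 n2.ne' (by positivity)).symm⟩
  rw [Real.rpow_le_rpow_left_iff n2] at hT hT'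
  refine (h0 N (le_of_max_le_left hK) σ τ a S ⟨s0, s1, hT, hT'⟩ s0 (by linarith) ha hS hs
    hD).trans ?_
  rw [← Real.rpow_mul n0.le, ← one_mul ((N : ℝ) ^ (_ + ε))]
  gcongr ?_ * ?_
  · linarith
  · exact Real.rpow_le_rpow_of_exponent_le n1 (by nlinarith)

end Pool.Agent.Lib.MP_a93a41_nt.GM
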