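import Pool.Agent.Lib.MP_a93a41_nt.NF2
import Pool.Agent.Lib.MP_a93a41_nt.NF3
import Pool.Agent.Lib.MP_a93a41_nt.NF5

/-! The trace inequality with signed weights and the new estimate at integer points. -/

namespace Pool.Agent.Lib.MP_a93a41_nt.GM

open Finset Real Pool.Agent.Lib.LargeSieve

theorem T3 {Λ B : ℝ} (hL : Loss Λ B) {P N M H T : ℕ} (hp : Par B P N M H T) (hN : 100 ≤ N)
    {X Y : ℕ} (hX : X ^ 2 ≤ N) (hY : 0 < Y) (hYX : Y ≤ X) {V V2 : ℝ} (hV : 0 ≤ V) (hV2 : 1 ≤ V2)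
    {a a2 : ℕ → ℂ} {W : Finset ℤ} (h : LV X V a W) (h2 : LV N V2 a2 W) {A : ℤ}
    (hW : W ⊆ Icc A (A + T)) (c0 : 10240 * (N : ℝ) ^ 2 ≤ #W * V2 ^ 2)
    (c1 : Λ ^ 10 * (X * N ^ 2 * (M + Y)) ≤ #W * V ^ 2 * V2 ^ 2)
    (c2 : Λ ^ 9 * N ^ 6 * M ≤ (#W : ℝ) ^ 3 * V ^ 4 * V2 ^ 4) :
    (#W : ℝ) ^ 3 * V ^ 4 * V2 ^ 6
      ≤ Λ ^ 20 * N ^ 7 * (X / Y * M ^ 2 * √(M * #W) + M * #W) := by
  obtain ⟨b1, b2, b3, b4, b5, b6, b7, b8⟩ := hp.basic
  have hT := hp.hT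
  have hΛ := hL.big
  have hNM : 0 < N * M := Nat.mul_pos hp.hN hp.hM
  have hNN : N ≤ N * M := Nat.le_mul_of_pos_right N hp.hM
  have hN' : (0 : ℝ) < N := by exact_mod_cast hp.hN
  have hM' : (1 : ℝ) ≤ M := by exact_mod_cast hp.hM
  have hXN : X ≤ N := (Nat.le_self_pow two_ne_zero X).trans hX
  have hW0 : (0 : ℝ) < #W := by
    rcases (Nat.cast_nonneg (α := ℝ) #W).eq_or_lt with c | c
    · rw [← c, zero_mul] at c0
      have : (0 : ℝ) < 10240 * (N : ℝ) ^ 2 := by positivity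
      linarith
    · exact c
  obtain ⟨v, hv, hA⟩ := TL.vec hp.hP hp.hN hp.hM b1 hp.hT b2 hV2 h2 hW
  rw [← QA_eq, div_le_iff₀ (by positivity)] at hA
  set L := 2 * (N * M) with hLd
  set Q := QA P N M W v with hQ
  set f := fw X Y L A a with hf
  set w := wv P N M W v with hw
  set o := ∑ t ∈ W, ‖w t‖ ^ 2 with ho
  have ho0 : 0 ≤ o := by positivity
  have hWU : W ⊆ UU L A := hW.trans (Icc_subset_Icc (by omega) (by omega))
  have q1 : 2 * N * (#W : ℝ) ≤ Q := by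
    refine le_of_mul_le_mul_right (a := 5120 * (N : ℝ)) ?_ (by positivity)
    nlinarith [mul_le_mul_of_nonneg_left c0 hW0.le]
  have hQ0 : 0 < Q := lt_of_lt_of_le (by positivity) q1
  have o1 : Q ^ 2 ≤ 4 * #W * o := o_lower P N M hv q1
  have t1 := cs_chain P N M hWU hv f
  have t2 := upper hL hp hX hY hYX h.1 hW
  have t3 := low_bound hL hp hN hXN hYX h.1 hW hv
  have t4 := f_l2 hL (L := L) (by omega) hX (by
    have : (N : ℝ) ≤ P := by exact_mod_cast (by omega : N ≤ P)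
    linarith) Y A h.1
  rw [← hLd, ← hf] at t2
  rw [← hLd, ← hw, ← hQ] at t3
  rw [← hw, ← hQ] at t1
  rw [← hf] at t4
  set Up := Λ ^ 16 * N ^ 4 * (X / Y * M ^ 2 * √(M * #W) + M * #W) with hUp
  set Lw := ∑ u ∈ UU L A, ((cm L (u - A) * ‖w u‖ ^ 2 : ℝ) : ℂ) * PS (Lo X Y) a u with hLw
  set Zc := ∑ t ∈ W, (f t : ℂ) * (v t * (starRingEnd ℂ) (w t)) with hZc
  set S := ∑ t ∈ UU L A, f t * ‖w t‖ ^ 2 with hS
  have m1 : V ^ 2 * o / 2 - ‖Lw‖ ≤ S := by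
    have a1 : S = ∑ u ∈ UU L A, cm L (u - A) * ‖w u‖ ^ 2 * ‖DP X a u‖ ^ 2 - Lw.re := by
      rw [hLw, Complex.re_sum, ← sum_sub_distrib]
      refine sum_congr rfl fun u _ => ?_
      have := congrArg Complex.re (PS_split X Y a u)
      rw [Complex.ofReal_re, Complex.add_re] at this
      rw [Complex.re_ofReal_mul, this, hf, fw]; ring
    have a2 : V ^ 2 * o / 2 ≤ ∑ u ∈ UU L A, cm L (u - A) * ‖w u‖ ^ 2 * ‖DP X a u‖ ^ 2 := by
      refine le_trans ?_ (sum_le_sum_of_subset_of_nonneg hWU fun u _ _ =>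
        mul_nonneg (mul_nonneg (cm_nonneg _ _) (sq_nonneg _)) (sq_nonneg _))
      rw [ho, mul_sum, sum_div]
      refine sum_le_sum fun u hu => ?_
      have d1 := mem_Icc.1 (hW hu)
      have d2 := cm_half (L := L) (by omega) (m := u - A) (by omega) (by omega)
      have d3 := pow_le_pow_left₀ hV (h.2 u hu) 2
      calc _ = 1 / 2 * ‖w u‖ ^ 2 * V ^ 2 := by ring
        _ ≤ _ := by gcongr
    linarith [Complex.re_le_norm Lw]
  have m2 : ‖Lw‖ ≤ V ^ 2 * o / 8 := by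
    refine t3.trans (le_of_mul_le_mul_right (a := 32 * (#W : ℝ) * (5120 * N)) ?_ (by positivity))
    have a1 : (245760 : ℝ) ≤ Λ ^ 2 := by nlinarith
    have a2 : (0 : ℝ) ≤ X * N ^ 2 * (M + Y) := by positivity
    calc _ ≤ Λ ^ 8 * (X * (N * (M + Y))) * (3 / 2 * Q) * (32 * #W * (5120 * N)) := by
          gcongr; linarith
      _ = 245760 * Λ ^ 8 * (X * N ^ 2 * (M + Y)) * (#W * Q) := by ring
      _ ≤ Λ ^ 2 * Λ ^ 8 * (X * N ^ 2 * (M + Y)) * (#W * Q) := by gcongr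
      _ ≤ #W * V ^ 2 * V2 ^ 2 * (#W * Q) :=
          mul_le_mul_of_nonneg_right ((le_of_eq (by ring)).trans c1) (by positivity)
      _ = V ^ 2 * Q * (#W ^ 2 * V2 ^ 2) := by ring
      _ ≤ V ^ 2 * Q * (Q * (5120 * N)) := by gcongr
      _ = V ^ 2 * Q ^ 2 * (5120 * N) := by ring
      _ ≤ V ^ 2 * (4 * #W * o) * (5120 * N) := by gcongr
      _ = _ := by ring
  have m3 : N * ‖Zc‖ ≤ V ^ 2 * o / 8 := by
    have a1 := TL.cs_c W (fun t => (f t : ℂ)) (fun t => v t * (starRingEnd ℂ) (w t))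
    have a2 : ∑ t ∈ W, ‖(f t : ℂ)‖ ^ 2 ≤ 3 * Λ ^ 6 * N ^ 2 * M := by
      simp only [Complex.norm_real, Real.norm_eq_abs, sq_abs]
      refine (sum_le_sum_of_subset_of_nonneg hWU fun _ _ _ => sq_nonneg _).trans (t4.trans ?_)
      have : ((L : ℕ) : ℝ) + N ≤ 3 * (N * M) := by exact_mod_cast (by omega : L + N ≤ 3 * (N * M))
      calc _ ≤ Λ ^ 6 * (N * (3 * (N * M))) := by gcongr
        _ = _ := by ring
    have a3 : ∑ t ∈ W, ‖v t * (starRingEnd ℂ) (w t)‖ ^ 2 ≤ o := sum_le_sum fun t ht => by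
      rw [norm_mul, RCLike.norm_conj]
      exact pow_le_pow_left₀ (by positivity) (mul_le_of_le_one_left (norm_nonneg _) (hv t ht)) 2
    have a4 : ‖Zc‖ ^ 2 ≤ 3 * Λ ^ 6 * N ^ 2 * M * o := a1.trans (by gcongr)
    have a5 : 192 * Λ ^ 6 * N ^ 4 * M ≤ V ^ 4 * o := by
      refine le_of_mul_le_mul_right (a := 4 * (#W : ℝ) * (5120 * N) ^ 2) ?_ (by positivity)
      have d1 : (20132659200 : ℝ) ≤ Λ ^ 3 :=
        le_trans (by norm_num) (pow_le_pow_left₀ (by norm_num) hΛ 3)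
      calc _ = 20132659200 * Λ ^ 6 * N ^ 6 * M * #W := by ring
        _ ≤ Λ ^ 3 * Λ ^ 6 * N ^ 6 * M * #W := by gcongr
        _ ≤ #W ^ 3 * V ^ 4 * V2 ^ 4 * #W :=
            mul_le_mul_of_nonneg_right ((le_of_eq (by ring)).trans c2) (by positivity)
        _ = V ^ 4 * (#W ^ 2 * V2 ^ 2) ^ 2 := by ring
        _ ≤ V ^ 4 * (Q * (5120 * N)) ^ 2 := by gcongr
        _ = V ^ 4 * Q ^ 2 * (5120 * N) ^ 2 := by ring
        _ ≤ V ^ 4 * (4 * #W * o) * (5120 * N) ^ 2 := by gcongr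
        _ = _ := by ring
    refine (le_abs_self _).trans (abs_le_of_sq_le_sq ?_ (by positivity))
    calc _ = N ^ 2 * ‖Zc‖ ^ 2 := by ring
      _ ≤ N ^ 2 * (3 * Λ ^ 6 * N ^ 2 * M * o) := by gcongr
      _ = 192 * Λ ^ 6 * N ^ 4 * M * o / 64 := by ring
      _ ≤ V ^ 4 * o * o / 64 := by gcongr
      _ = _ := by ring
  have m4 : V ^ 2 * o / 4 ≤ ‖(S : ℂ) + N * Zc‖ := by
    have a1 := norm_sub_le ((S : ℂ) + N * Zc) (N * Zc)
    rw [add_sub_cancel_right, Complex.norm_real, Real.norm_eq_abs, norm_mul,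
      Complex.norm_natCast] at a1
    linarith [le_abs_self S]
  have m5 : (V ^ 2 * o / 4) ^ 2 ≤ Q * (#W * Up) :=
    (pow_le_pow_left₀ (by positivity) m4 2).trans (t1.trans (by gcongr))
  have hUp0 : 0 ≤ Up := by positivity
  have m6 : V ^ 4 * Q ^ 3 ≤ 256 * #W ^ 3 * Up := by
    refine le_of_mul_le_mul_left (a := Q) ?_ hQ0
    calc _ = V ^ 4 * (Q ^ 2) ^ 2 := by ring
      _ ≤ V ^ 4 * (4 * #W * o) ^ 2 := by gcongr
      _ = 256 * #W ^ 2 * (V ^ 2 * o / 4) ^ 2 := by ring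
      _ ≤ 256 * #W ^ 2 * (Q * (#W * Up)) := by gcongr
      _ = _ := by ring
  refine le_of_mul_le_mul_left (a := (#W : ℝ) ^ 3) ?_ (by positivity)
  have d1 : (34359738368000 : ℝ) ≤ Λ ^ 4 :=
    le_trans (by norm_num) (pow_le_pow_left₀ (by norm_num) hΛ 4)
  calc _ = V ^ 4 * (#W ^ 2 * V2 ^ 2) ^ 3 := by ring
    _ ≤ V ^ 4 * (Q * (5120 * N)) ^ 3 := by gcongr
    _ = V ^ 4 * Q ^ 3 * (5120 * N) ^ 3 := by ring
    _ ≤ 256 * #W ^ 3 * Up * (5120 * N) ^ 3 := by gcongr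
    _ = #W ^ 3 * (34359738368000 * N ^ 3 * Up) := by ring
    _ ≤ #W ^ 3 * (Λ ^ 4 * N ^ 3 * Up) := by gcongr
    _ = _ := by rw [hUp]; ring

lemma coreT : CoreG (fun σ τ => σ ≤ 1 ∧ 2 ≤ τ ∧ τ ≤ 31 / 10 ∧ 8 - 8 * σ ≤ τ ∧
      max (τ / 3 + 10 / 3 - 4 * σ) ((5 * τ + 30 - 44 * σ) / 7) ≤ 6 - 6 * σ)
    (fun σ τ => max (τ / 3 + 10 / 3 - 4 * σ) ((5 * τ + 30 - 44 * σ) / 7)) := by
  intro ε hε
  set η := min (ε / 400) (1 / 100000) with hηd
  have hη : 0 < η := lt_min (by linarith) (by norm_num)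
  have hη1 : η ≤ 1 / 100000 := min_le_right _ _
  have hη2 : η ≤ ε / 400 := min_le_left _ _
  obtain ⟨N0, hN0⟩ := exists_env hη hη1
  refine ⟨N0, fun X hX σ τ V T A a W ⟨s1, t1, t2, t3, t4⟩ hT hV h hW => ?_⟩
  have E := hN0 (X ^ 2) (hX.trans (Nat.le_self_pow two_ne_zero X))
  clear_value η
  obtain ⟨g, hg⟩ : ∃ g, g = max (τ / 3 + 10 / 3 - 4 * σ) ((5 * τ + 30 - 44 * σ) / 7) := ⟨_, rfl⟩
  simp only [← hg] at t4 ⊢
  have g1 : τ / 3 + 10 / 3 - 4 * σ ≤ g := hg ▸ le_max_left _ _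
  have g2 : (5 * τ + 30 - 44 * σ) / 7 ≤ g := hg ▸ le_max_right _ _
  clear hg
  have cv : ∀ x, pw X x = pw (X ^ 2) (x / 2) := fun x => by
    simp only [pw]
    rw [Nat.cast_pow, ← Real.rpow_natCast, ← Real.rpow_mul (by positivity)]
    congr 1; push_cast; ring
  have hX1 : 1 ≤ X := by
    have := E.hN
    by_contra c
    have : X = 0 := by omega
    subst this; omega
  have xe : (X : ℝ) = pw (X ^ 2) (1 / 2) := by rw [← cv, pw, Real.rpow_one]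
  rw [cv] at hT hV ⊢
  set N := X ^ 2 with hNd
  by_contra hcon
  push Not at hcon
  have hV0 : 0 < V := (E.pos _).trans_le hV
  obtain ⟨a2, W', w1, w2, h2⟩ := LV_pow E.hL hX1 (j := 2) (by norm_num)
    (E.mono E.n (by norm_num)) hV0.le h
  have w3 : pw N ((g + ε) / 2 - 2 * η) ≤ #W' :=
    E.ldiv (hcon.le.trans w2) (E.mono (E.mul (E.c (by norm_num)) le_rfl (E.pos _).le) (by linarith))
      (by positivity)
  obtain ⟨r, hr⟩ : ∃ r, (#W' : ℝ) = pw N r :=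
    ⟨_, (Real.rpow_logb (by linarith [E.one_lt]) E.one_lt.ne' ((E.pos _).trans_le w3)).symm⟩
  rw [hr, E.le_iff] at w3
  have v2 : pw N (σ - 3 * η) ≤ V ^ 2 / (2 * pw N η ^ 2) := by
    refine E.ldiv (Y := 2 * pw N η ^ 2) ?_ (E.mono (E.Lam 2 (by norm_num)) (by push_cast; linarith))
      (by have := E.pos η; positivity)
    rw [mul_div_cancel₀ _ (by have := E.pos η; positivity)]
    exact E.lmono (E.lpow hV 2) (by push_cast; linarith)
  set V2 := V ^ 2 / (2 * pw N η ^ 2)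
  obtain ⟨P, M, H, hM, hp⟩ := E.par (τ := τ / 2) (by linarith) (by linarith)
  have hp := hp T hT
  obtain ⟨γ, hγ⟩ : ∃ γ, γ = 3 - 3 * σ - g / 2 := ⟨_, rfl⟩
  obtain ⟨y1, y2⟩ := E.floor (x := 1 / 2 - γ) (by linarith)
  set Y := ⌊pw N (1 / 2 - γ)⌋₊
  have hY : (0 : ℝ) < Y := (E.pos _).trans_le y1
  have hYX : Y ≤ X := by
    have := E.mono y2 (y := 1 / 2) (by linarith)
    rw [← xe] at this
    exact_mod_cast this
  have k := T3 E.hL hp E.hN le_rfl (by exact_mod_cast hY) hYX hV0.le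
    ((E.one_le (by linarith)).trans v2) (h.mono w1) h2 (w1.trans hW)
    (E.thr (σ := σ - 2 * η) (E.lmono v2 (by linarith)) hr.ge (by linarith))
    ((E.mul (E.pow le_rfl (E.pos _).le 10) (E.mul (E.mul xe.le (E.pow E.n (by positivity) 2)
      (by positivity)) (E.add (z := g / 2 + 3 * σ - 5 / 2 + 2 * η) hM y2 (by linarith) (by linarith))
      (by positivity)) (by positivity)).trans
      (E.lmono (E.lmul (E.lmul hr.ge (E.lpow hV 2)) (E.lpow v2 2)) (by push_cast; linarith)))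
    ((E.mul (E.mul (E.pow le_rfl (E.pos _).le 9) (E.pow E.n (by positivity) 6) (by positivity)) hM
      (by positivity)).trans
      (E.lmono (E.lmul (E.lmul (E.lpow hr.ge 3) (E.lpow hV 4)) (E.lpow v2 4)) (by push_cast; linarith)))
  have xy : (X : ℝ) / Y ≤ pw N (1 / 2 - (1 / 2 - γ - η)) :=
    E.div (by rw [div_mul_cancel₀ _ hY.ne']; exact xe.le) y1
  have mw := E.mul hM hr.le (by positivity)
  have k1 := (E.lmul (E.lmul (E.lpow hr.ge 3) (E.lpow hV 4)) (E.lpow v2 6)).trans (k.trans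
    (E.mul (E.mul (E.pow le_rfl (E.pos _).le 20) (E.pow E.n (by positivity) 7) (by positivity))
      (E.add (z := 3 * r + 8 * σ - 7 - 40 * η) (E.mul (E.mul xy (E.pow hM (by positivity) 2)
        (by positivity)) (E.sqrt mw) (by positivity)) mw (by push_cast; linarith) (by linarith))
      (by positivity)))
  rw [E.le_iff] at k1
  push_cast at k1
  linarith

theorem coreB : CoreB := by
  have m2 : CoreG (fun σ τ => 2 ≤ τ ∧ τ ≤ 8 - 8 * σ)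
      (fun σ τ => max (τ / 3 + 10 / 3 - 4 * σ) ((5 * τ + 30 - 44 * σ) / 7)) :=
    core_mvt.pow (j := 2) (δ0 := 1) (C := 4) (by norm_num) one_pos fun σ τ δ h _ _ => ⟨trivial, by
      have := le_max_right (τ / 3 + 10 / 3 - 4 * σ) ((5 * τ + 30 - 44 * σ) / 7)
      push_cast
      rw [max_eq_right (by linarith [h.1])]
      linarith [h.2]⟩
  have m3 : CoreG (fun σ τ => σ ≤ 1 ∧ τ ≤ 31 / 10 ∧
      6 - 6 * σ ≤ max (τ / 3 + 10 / 3 - 4 * σ) ((5 * τ + 30 - 44 * σ) / 7))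
      (fun σ τ => max (τ / 3 + 10 / 3 - 4 * σ) ((5 * τ + 30 - 44 * σ) / 7)) :=
    core_mvt.pow (j := 3) (δ0 := 1) (C := 6) (by norm_num) one_pos fun σ τ δ h _ _ => ⟨trivial, by
      have := le_max_right (τ / 3 + 10 / 3 - 4 * σ) ((5 * τ + 30 - 44 * σ) / 7)
      push_cast
      rcases max_choice 1 (τ / 3) with e | e <;> rw [e] <;> linarith [h.1, h.2.1, h.2.2]⟩
  refine ((coreT.or m2).or m3).mono fun σ τ h => ⟨?_, le_rfl⟩
  obtain ⟨h1, h2, h3⟩ := h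
  rcases le_total τ (8 - 8 * σ) with c | c
  · exact .inl (.inr ⟨h2, c⟩)
  rcases le_total (max (τ / 3 + 10 / 3 - 4 * σ) ((5 * τ + 30 - 44 * σ) / 7)) (6 - 6 * σ) with d | d
  · exact .inl (.inl ⟨h1, h2, h3, c, d⟩)
  · exact .inr ⟨h1, h3, d⟩

end Pool.Agent.Lib.MP_a93a41_nt.GM
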