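import Mathlib

open Finset Matrix
open scoped Kronecker

namespace Pool.Agent.Lib.MP_a93a41_nt.Bar

def HR (R ι κ : Type) [CommRing R] [Fintype ι] [Fintype κ] [DecidableEq κ] : Prop :=
  ∃ L : (ι → R) → Matrix κ κ R, (∀ a b, L (a - b) = L a - L b) ∧
    (∀ a, (L a)ᵀ * L a = (∑ i, a i ^ 2) • (1 : Matrix κ κ R)) ∧
    ∀ a, L a * (L a)ᵀ = (∑ i, a i ^ 2) • (1 : Matrix κ κ R)

variable {R : Type} [CommRing R]

def oct (a : Fin 8 → R) : Matrix (Fin 8) (Fin 8) R :=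
  !![a 0, -a 1, -a 2, -a 3, -a 4, -a 5, -a 6, -a 7;
    a 1, a 0, -a 3, a 2, -a 5, a 4, a 7, -a 6;
    a 2, a 3, a 0, -a 1, -a 6, -a 7, a 4, a 5;
    a 3, -a 2, a 1, a 0, -a 7, a 6, -a 5, a 4;
    a 4, a 5, a 6, a 7, a 0, -a 1, -a 2, -a 3;
    a 5, -a 4, a 7, -a 6, a 1, a 0, a 3, -a 2;
    a 6, -a 7, -a 4, a 5, a 2, -a 3, a 0, a 1;
    a 7, a 6, -a 5, -a 4, a 3, a 2, -a 1, a 0]

theorem HR_oct : HR R (Fin 8) (Fin 8) := by
  refine ⟨oct, fun a b => ?_, fun a => ?_, fun a => ?_⟩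
  · ext i j
    fin_cases i <;> fin_cases j <;> simp [oct] <;> ring
  · ext i j
    fin_cases i <;> fin_cases j <;> simp [oct, Matrix.mul_apply, Fin.sum_univ_eight] <;> ring
  · ext i j
    fin_cases i <;> fin_cases j <;> simp [oct, Matrix.mul_apply, Fin.sum_univ_eight] <;> ring

variable {ι κ ι' κ' : Type} [Fintype ι] [Fintype κ] [DecidableEq κ] [Fintype ι'] [Fintype κ']
  [DecidableEq κ']

theorem HR.equiv (h : HR R ι κ) (e : ι ≃ ι') (f : κ ≃ κ') : HR R ι' κ' := by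
  obtain ⟨L, h1, h2, h3⟩ := h
  refine ⟨fun a => (L (a ∘ e)).submatrix f.symm f.symm, fun a b => ?_, fun a => ?_, fun a => ?_⟩
  · simp only
    rw [show (a - b) ∘ e = a ∘ e - b ∘ e from rfl, h1]; rfl
  · rw [transpose_submatrix, submatrix_mul_equiv, h2, submatrix_smul, ← e.sum_comp]; simp
  · rw [transpose_submatrix, submatrix_mul_equiv, h3, submatrix_smul, ← e.sum_comp]; simp

theorem HR.sum (h : HR R ι κ) (h' : HR R ι' κ') : HR R (ι ⊕ ι') ((κ × κ') ⊕ (κ × κ')) := by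
  obtain ⟨A, a1, a2, a3⟩ := h
  obtain ⟨L, l1, l2, l3⟩ := h'
  refine ⟨fun a => fromBlocks (A (a ∘ Sum.inl) ⊗ₖ (1 : Matrix κ' κ' R)) ((1 : Matrix κ κ R) ⊗ₖ L (a ∘ Sum.inr))
    (-((1 : Matrix κ κ R) ⊗ₖ (L (a ∘ Sum.inr))ᵀ)) ((A (a ∘ Sum.inl))ᵀ ⊗ₖ (1 : Matrix κ' κ' R)),
    fun a b => ?_, fun a => ?_, fun a => ?_⟩
  · simp only
    rw [show (a - b) ∘ Sum.inl = a ∘ Sum.inl - b ∘ Sum.inl from rfl,
      show (a - b) ∘ Sum.inr = a ∘ Sum.inr - b ∘ Sum.inr from rfl, a1, l1]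
    ext (i | i) (j | j) <;> simp [kroneckerMap_apply] <;> ring
  · simp only [fromBlocks_transpose, fromBlocks_multiply, transpose_neg, ← kroneckerMap_transpose,
      transpose_one, transpose_transpose, Matrix.neg_mul, Matrix.mul_neg, neg_neg, ← mul_kronecker_mul,
      Matrix.mul_one, Matrix.one_mul, a2, a3, l2, l3, smul_kronecker, kronecker_smul, one_kronecker_one,
      add_neg_cancel, neg_add_cancel, Fintype.sum_sum_type, ← add_smul, Function.comp]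
    rw [← fromBlocks_one, fromBlocks_smul, add_comm (∑ i, a (Sum.inr i) ^ 2)]; simp
  · simp only [fromBlocks_transpose, fromBlocks_multiply, transpose_neg, ← kroneckerMap_transpose,
      transpose_one, transpose_transpose, Matrix.neg_mul, Matrix.mul_neg, neg_neg, ← mul_kronecker_mul,
      Matrix.mul_one, Matrix.one_mul, a2, a3, l2, l3, smul_kronecker, kronecker_smul, one_kronecker_one,
      add_neg_cancel, neg_add_cancel, Fintype.sum_sum_type, ← add_smul, Function.comp]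
    rw [← fromBlocks_one, fromBlocks_smul, add_comm (∑ i, a (Sum.inr i) ^ 2)]; simp

theorem HR_all (k : ℕ) : HR R (Fin (8 * (k + 1))) (Fin (8 * 16 ^ k)) := by
  induction k with
  | zero => exact HR_oct
  | succ k ih =>
    exact (ih.sum HR_oct).equiv (Fintype.equivFinOfCardEq (by simp; ring))
      (Fintype.equivFinOfCardEq (by simp; ring))

end Pool.Agent.Lib.MP_a93a41_nt.Bar
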