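import Pool.Agent.Lib.MP_a93a41_nt.Bar4
import Pool.Agent.Lib.MP_a93a41_nt.Oct1

open Finset Complex Matrix
open scoped Real

namespace Pool.Agent.Lib.MP_a93a41_nt.Bar

variable {p : ℕ} [Fact p.Prime] {d : ℕ}

def uu (x : Fin (d + d) → ZMod p) : Fin d → ZMod p := fun i => x (Fin.castAdd d i)
def vv (x : Fin (d + d) → ZMod p) : Fin d → ZMod p := fun i => x (Fin.natAdd d i)

noncomputable def ph (M : Matrix (Fin d) (Fin d) (ZMod p)) (x : Fin (d + d) → ZMod p) : ℂ :=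
  ZMod.stdAddChar (2 * (uu x ⬝ᵥ M *ᵥ vv x))

noncomputable def aq (s : ZMod p) (x : Fin (d + d) → ZMod p) : ℂ :=
  ZMod.stdAddChar (uu x ⬝ᵥ uu x + s * (vv x ⬝ᵥ vv x))

theorem ch_uv (y x : Fin (d + d) → ZMod p) :
    ch y x = ZMod.stdAddChar (uu y ⬝ᵥ uu x + vv y ⬝ᵥ vv x) := by
  rw [ch, Fin.sum_univ_add]; rfl

theorem sum_uv (f : (Fin d → ZMod p) → (Fin d → ZMod p) → ℂ) :
    ∑ x : Fin (d + d) → ZMod p, f (uu x) (vv x) = ∑ v, ∑ u, f u v := by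
  rw [Finset.sum_comm, ← Fintype.sum_prod_type']
  exact (Fin.appendEquiv d d).symm.sum_comp (fun z => f z.1 z.2)

theorem ph_sub (M M' : Matrix (Fin d) (Fin d) (ZMod p)) (x : Fin (d + d) → ZMod p) :
    ph M x * (starRingEnd ℂ) (ph M' x) = ph (M - M') x := by
  simp only [ph, ← AddChar.map_neg_eq_conj, ← AddChar.map_add_eq_mul, sub_mulVec, dotProduct_sub]
  congr 1; ring

theorem sum_dot (z : Fin d → ZMod p) :
    ∑ u : Fin d → ZMod p, ZMod.stdAddChar (u ⬝ᵥ z) = if z = 0 then (p:ℂ) ^ d else 0 := by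
  simp only [dotProduct, psi_sum]
  rw [← Fintype.prod_sum (fun i (t : ZMod p) => ZMod.stdAddChar (t * z i))]
  simp only [sum_psi]
  split_ifs with h
  · simp [h]
  · obtain ⟨i, hi⟩ := Function.ne_iff.1 h
    exact Finset.prod_eq_zero (mem_univ i) (if_neg hi)

theorem gauss1 (h2 : (2 : ZMod p) ≠ 0) (z : ZMod p) :
    ‖∑ t : ZMod p, ZMod.stdAddChar (t * t + z * t)‖ = √p := by
  have hp : (0:ℝ) < p := by exact_mod_cast (Fact.out : p.Prime).pos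
  have e : S2 1 (1 * 0) (1 * 0 ^ 2) z (z * 0) = p * ∑ t : ZMod p, ZMod.stdAddChar (t * t + z * t) := by
    simp [S2, Φ, Fintype.sum_prod_type, Finset.mul_sum, sq]
  have a := S2_ge h2 1 0 z one_ne_zero
  have b := S2_le h2 1 (1 * 0) (1 * 0 ^ 2) z (z * 0) (Or.inl one_ne_zero)
  rw [e, norm_mul, Complex.norm_natCast, show (p:ℝ) ^ 3 = p ^ 2 * p by ring,
    Real.sqrt_mul (by positivity), Real.sqrt_sq hp.le] at a b
  exact le_antisymm (le_of_mul_le_mul_left b hp) (le_of_mul_le_mul_left a hp)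

theorem gauss (h2 : (2 : ZMod p) ≠ 0) (z : Fin d → ZMod p) :
    ‖∑ u : Fin d → ZMod p, ZMod.stdAddChar (u ⬝ᵥ u + z ⬝ᵥ u)‖ = √p ^ d := by
  simp only [dotProduct, ← Finset.sum_add_distrib, psi_sum]
  rw [← Fintype.prod_sum (fun i (t : ZMod p) => ZMod.stdAddChar (t * t + z i * t)), norm_prod]
  simp [gauss1 h2]

theorem bd_ph (h2 : (2 : ZMod p) ≠ 0) (M : Matrix (Fin d) (Fin d) (ZMod p)) (s : ZMod p) (hs : s ≠ 0)
    (hM : Mᵀ * M = s • (1 : Matrix (Fin d) (Fin d) (ZMod p))) : Bd id (ph M) (p ^ d) := by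
  classical
  intro y
  simp only [id, ch_uv, ph]
  rw [sum_uv fun u v => ZMod.stdAddChar (uu y ⬝ᵥ u + vv y ⬝ᵥ v) * ZMod.stdAddChar (2 * (u ⬝ᵥ M *ᵥ v))]
  have e : ∀ u v : Fin d → ZMod p, ZMod.stdAddChar (uu y ⬝ᵥ u + vv y ⬝ᵥ v) *
      ZMod.stdAddChar (2 * (u ⬝ᵥ M *ᵥ v)) =
      ZMod.stdAddChar (vv y ⬝ᵥ v) * ZMod.stdAddChar (u ⬝ᵥ (uu y + (2 : ZMod p) • M *ᵥ v)) := by
    intro u v
    simp only [← AddChar.map_add_eq_mul, dotProduct_add, dotProduct_smul, smul_eq_mul, dotProduct_comm u (uu y)]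
    congr 1; ring
  simp only [e, ← Finset.mul_sum, sum_dot, mul_ite, mul_zero, ← Finset.sum_filter]
  refine (norm_sum_le _ _).trans ?_
  simp only [norm_mul, norm_psi, norm_pow, Complex.norm_natCast, one_mul, sum_const, nsmul_eq_mul]
  refine mul_le_of_le_one_left (by positivity) ?_
  rw [Nat.cast_le_one, Finset.card_le_one]
  intro v hv w hw
  have h := (mem_filter.1 hv).2.trans (mem_filter.1 hw).2.symm
  have h := congrArg (Mᵀ *ᵥ ·) (smul_right_injective _ h2 (add_left_cancel h))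
  simp only [mulVec_mulVec, hM, smul_mulVec, one_mulVec] at h
  exact smul_right_injective _ hs h

theorem bd_aq (h2 : (2 : ZMod p) ≠ 0) (M : Matrix (Fin d) (Fin d) (ZMod p)) (s : ZMod p) :
    Bd id (fun x => aq s x * ph M x) (p ^ d * √p ^ d) := by
  intro y
  simp only [id, ch_uv, ph, aq]
  rw [sum_uv fun u v => ZMod.stdAddChar (uu y ⬝ᵥ u + vv y ⬝ᵥ v) *
    (ZMod.stdAddChar (u ⬝ᵥ u + s * (v ⬝ᵥ v)) * ZMod.stdAddChar (2 * (u ⬝ᵥ M *ᵥ v)))]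
  have e : ∀ u v : Fin d → ZMod p, ZMod.stdAddChar (uu y ⬝ᵥ u + vv y ⬝ᵥ v) *
      (ZMod.stdAddChar (u ⬝ᵥ u + s * (v ⬝ᵥ v)) * ZMod.stdAddChar (2 * (u ⬝ᵥ M *ᵥ v))) =
      ZMod.stdAddChar (vv y ⬝ᵥ v + s * (v ⬝ᵥ v)) *
        ZMod.stdAddChar (u ⬝ᵥ u + (uu y + (2 : ZMod p) • M *ᵥ v) ⬝ᵥ u) := by
    intro u v
    simp only [← AddChar.map_add_eq_mul, add_dotProduct, smul_dotProduct, smul_eq_mul,
      dotProduct_comm u (M *ᵥ v)]
    congr 1; ring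
  simp only [e, ← Finset.mul_sum]
  refine (norm_sum_le _ _).trans (le_of_eq ?_)
  simp only [norm_mul, norm_psi, gauss h2]
  simp

theorem eq_aq (h2 : (2 : ZMod p) ≠ 0) (M : Matrix (Fin d) (Fin d) (ZMod p)) (s : ZMod p)
    (hM : Mᵀ * M = s • (1 : Matrix (Fin d) (Fin d) (ZMod p))) (y : Fin d → ZMod p) :
    ‖∑ x, ch (Fin.append y (Mᵀ *ᵥ y)) x * (aq s x * ph M x)‖ = p ^ d * √p ^ d := by
  have e1 : uu (Fin.append y (Mᵀ *ᵥ y)) = y := by funext i; simp [uu]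
  have e2 : vv (Fin.append y (Mᵀ *ᵥ y)) = Mᵀ *ᵥ y := by funext i; simp [vv, -Fin.natAdd_eq_addNat]
  simp only [ch_uv, ph, aq, e1, e2]
  rw [sum_uv fun u v => ZMod.stdAddChar (y ⬝ᵥ u + (Mᵀ *ᵥ y) ⬝ᵥ v) *
    (ZMod.stdAddChar (u ⬝ᵥ u + s * (v ⬝ᵥ v)) * ZMod.stdAddChar (2 * (u ⬝ᵥ M *ᵥ v)))]
  have e : ∀ v : Fin d → ZMod p, ∑ u, ZMod.stdAddChar (y ⬝ᵥ u + (Mᵀ *ᵥ y) ⬝ᵥ v) *
      (ZMod.stdAddChar (u ⬝ᵥ u + s * (v ⬝ᵥ v)) * ZMod.stdAddChar (2 * (u ⬝ᵥ M *ᵥ v))) =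
      ∑ u, ZMod.stdAddChar (u ⬝ᵥ u + y ⬝ᵥ u) := by
    intro v
    rw [← Equiv.sum_comp (Equiv.addRight (M *ᵥ v)) (fun u => ZMod.stdAddChar (u ⬝ᵥ u + y ⬝ᵥ u))]
    refine Finset.sum_congr rfl fun u _ => ?_
    have a : (M *ᵥ v) ⬝ᵥ (M *ᵥ v) = s * (v ⬝ᵥ v) := by
      rw [dotProduct_mulVec, ← mulVec_transpose, mulVec_mulVec, hM, smul_mulVec, one_mulVec,
        smul_dotProduct, smul_eq_mul]
    have b : (Mᵀ *ᵥ y) ⬝ᵥ v = y ⬝ᵥ (M *ᵥ v) := by rw [dotProduct_mulVec, mulVec_transpose]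
    simp only [← AddChar.map_add_eq_mul, Equiv.coe_addRight, add_dotProduct, dotProduct_add, a, b,
      dotProduct_comm (M *ᵥ v) u]
    congr 1; ring
  simp [e, gauss h2]

theorem exists_shift2 {V α : Type} [Fintype V] [DecidableEq V] [AddCommGroup V] (T : Finset α)
    (W : α → Finset V) (g : α → V) (n : ℝ) (hn : ∀ a ∈ T, n ≤ #(W a)) :
    ∃ y0, #T * n ≤ Fintype.card V * #(T.filter fun a => g a + y0 ∈ W a) := by
  have : ∑ _y0 : V, (#T * n) ≤ ∑ y0 : V, (Fintype.card V * #(T.filter fun a => g a + y0 ∈ W a) : ℝ) := by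
    rw [sum_const, card_univ, nsmul_eq_mul, ← Finset.mul_sum]
    refine mul_le_mul_of_nonneg_left ?_ (Nat.cast_nonneg _)
    simp only [Finset.card_filter]
    push_cast
    rw [Finset.sum_comm, ← nsmul_eq_mul, ← sum_const]
    refine Finset.sum_le_sum fun a ha => (hn a ha).trans (le_of_eq (Eq.symm ?_))
    exact (Equiv.sum_comp (Equiv.addLeft (g a)) (fun y => if y ∈ W a then (1:ℝ) else 0)).trans (by simp)
  obtain ⟨y, -, h⟩ := Finset.exists_le_of_sum_le univ_nonempty this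
  exact ⟨y, h⟩

def dg {c : ℕ} (q : ℕ) (a : Fin c → ℕ) : ℕ := ∑ i, a i * q ^ (i:ℕ)

theorem dg_lt {c q : ℕ} {a : Fin c → ℕ} (ha : ∀ i, a i < q) : dg q a < q ^ c :=
  (finFunctionFinEquiv fun i => (⟨a i, ha i⟩ : Fin q)).2

theorem dg_inj {c q : ℕ} {a b : Fin c → ℕ} (ha : ∀ i, a i < q) (hb : ∀ i, b i < q)
    (h : dg q a = dg q b) : a = b := by
  have : (fun i => (⟨a i, ha i⟩ : Fin q)) = fun i => ⟨b i, hb i⟩ :=
    finFunctionFinEquiv.injective (Fin.ext h)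
  exact funext fun i => congrArg Fin.val (congrFun this i)

theorem dg_add {c q : ℕ} (a b : Fin c → ℕ) : dg q (a + b) = dg q a + dg q b := by
  simp [dg, add_mul, Finset.sum_add_distrib]

theorem sphere (c B : ℕ) : ∃ s : ℕ, (B:ℝ) ^ c ≤ (c * B ^ 2 + 1) *
    #(univ.filter fun j : Fin c → Fin B => ∑ i, (j i : ℕ) ^ 2 = s) := by
  have h := Finset.card_eq_sum_card_fiberwise (s := (univ : Finset (Fin c → Fin B)))
    (t := range (c * B ^ 2 + 1)) (f := fun j => ∑ i, (j i : ℕ) ^ 2) (fun j _ => by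
      simp only [coe_range, Set.mem_Iio, Nat.lt_succ_iff]
      calc _ ≤ ∑ _i : Fin c, B ^ 2 := Finset.sum_le_sum fun i _ => by gcongr; exact (j i).2.le
        _ = _ := by simp)
  have : ∑ _s ∈ range (c * B ^ 2 + 1), (B:ℝ) ^ c ≤ ∑ s ∈ range (c * B ^ 2 + 1), ((c * B ^ 2 + 1 : ℝ) *
      #(univ.filter fun j : Fin c → Fin B => ∑ i, (j i : ℕ) ^ 2 = s)) := by
    rw [← Finset.mul_sum, ← Nat.cast_sum, ← h]; simp
  obtain ⟨s, -, hs⟩ := Finset.exists_le_of_sum_le (by simp) this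
  exact ⟨s, hs⟩

theorem sq_ne {c B : ℕ} (hB : c * B ^ 2 < p) (a b : Fin c → Fin B) (h : a ≠ b) :
    ∑ i, (((a i : ℕ) : ZMod p) - (b i : ℕ)) ^ 2 ≠ 0 := by
  intro e
  have e' : ((∑ i, (((a i : ℕ) : ℤ) - (b i : ℕ)) ^ 2 : ℤ) : ZMod p) = 0 := by push_cast; exact e
  rw [ZMod.intCast_zmod_eq_zero_iff_dvd] at e'
  obtain ⟨i, hi⟩ := Function.ne_iff.1 h
  have h1 : 0 < ∑ i, (((a i : ℕ) : ℤ) - (b i : ℕ)) ^ 2 :=
    Finset.sum_pos' (fun _ _ => sq_nonneg _) ⟨i, mem_univ _, by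
      have : (a i : ℕ) ≠ b i := fun e => hi (Fin.ext e)
      have : ((a i : ℕ) : ℤ) - (b i : ℕ) ≠ 0 := by omega
      positivity⟩
  have h2 : ∑ i, (((a i : ℕ) : ℤ) - (b i : ℕ)) ^ 2 ≤ ∑ _i : Fin c, (B:ℤ) ^ 2 :=
    Finset.sum_le_sum fun i _ => by
      have := (a i).2
      have := (b i).2
      exact sq_le_sq' (by omega) (by omega)
  have h3 := Int.le_of_dvd h1 e'
  simp only [sum_const, card_univ, Fintype.card_fin, nsmul_eq_mul] at h2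
  have : ((c * B ^ 2 : ℕ) : ℤ) < p := by exact_mod_cast hB
  push_cast at this
  omega

end Pool.Agent.Lib.MP_a93a41_nt.Bar
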