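import Pool.Agent.Lib.MP_a93a41_nt.Oct2

open Finset Complex Matrix
open scoped Real

namespace Pool.Agent.Lib.MP_a93a41_nt.Bar

theorem core2 (p c d B : ℕ) [Fact p.Prime] (h2 : (2 : ZMod p) ≠ 0) (hHR : HR (ZMod p) (Fin c) (Fin d))
    (hB : c * (2 * B) ^ 2 < p) (β η : ℝ) (hβ : 0 ≤ β) (hβ1 : β < 1) (hη : η ≤ 1)
    (hs : (1 + 2 * η * (2 + Real.log p)) ^ (d + d) - 1 ≤ 1 / 2) :
    ∃ (θ : (Fin c → Fin (2 * B)) → ℕ → ℂ) (μ : (Fin c → Fin (2 * B)) → ℕ) (b : ℕ → ℂ) (R : Finset ℕ),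
      Function.Injective μ ∧ (∀ a k, ‖θ a k‖ = 1) ∧ (∀ k, ‖b k‖ ≤ 1) ∧
      (∀ a a', a ≠ a' → ∀ K ≤ p ^ (d + d), ∀ s : ℂ, 0 ≤ s.re → s.re * p ^ (d + d) ≤ 1 →
        ‖∑ k ∈ range K, θ a k * (starRingEnd ℂ) (θ a' k) * exp (s * k)‖ ≤
          2 * (2 + Real.log (p ^ (d + d) : ℕ)) * (1 + 4 * (2 + Real.log p)) ^ (d + d) * p ^ d) ∧
      (∀ a a', ∀ s : ℂ, 0 ≤ s.re → s.re * p ^ (d + d) ≤ 1 →
        ‖∑ k ∈ range (p ^ (d + d)), b k * (θ a k * (starRingEnd ℂ) (θ a' k)) * exp (s * k)‖ ≤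
          (1 + 4 * (2 + Real.log p)) ^ (d + d) * (p ^ d * √p ^ d)) ∧
      (B:ℝ) ^ c * p ^ d * β ^ (d + d) ≤ (c * B ^ 2 + 1) * #R ∧
      ∀ n ∈ R, ∃ ν r : ℕ, n = p ^ (d + d) * ν + r ∧ (r:ℝ) ≤ (d + d : ℕ) * β * p ^ (d + d) ∧
        ν < (4 * B) ^ c ∧ B ^ c ≤ #(univ.filter fun x : (Fin c → Fin (2 * B)) × (Fin c → Fin (2 * B)) =>
          μ x.1 = μ x.2 + ν) ∧ ∀ ρ : ℝ, 0 ≤ ρ → ρ * p ^ (d + d) + 7 * (d + d : ℕ) * β ≤ η →
          ∃ Z : ℂ, p ^ d * √p ^ d / 2 ≤ ‖Z‖ ∧ ∀ a a', μ a = μ a' + ν →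
            ∑ k ∈ range (p ^ (d + d)), b k * (θ a k * (starRingEnd ℂ) (θ a' k)) *
              exp ((ρ + 2 * π * I * r / p ^ (d + d)) * k) = Z := by
  classical
  obtain ⟨L, l1, l2, -⟩ := hHR
  obtain ⟨s, hsph⟩ := sphere c B
  have hp1 : (1:ℝ) ≤ p := by exact_mod_cast (Fact.out : p.Prime).pos
  set Sph := univ.filter fun j : Fin c → Fin B => ∑ i, (j i : ℕ) ^ 2 = s with hSph
  set Z := univ.filter fun z : Fin (d + d) → ZMod p => ∀ j, ((z j).val : ℝ) ≤ β * p with hZ
  let M : (Fin c → Fin B) → Matrix (Fin d) (Fin d) (ZMod p) := fun j => L fun i => ((j i : ℕ) : ZMod p)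
  let W : (Fin c → Fin B) → Finset (Fin (d + d) → ZMod p) := fun j =>
    univ.image fun y => Fin.append y ((M j)ᵀ *ᵥ y)
  obtain ⟨y0, hy0⟩ := exists_shift2 (Sph ×ˢ Z) (fun x => W x.1) (fun x => x.2 ∘ Fin.rev) (p ^ d)
    (fun x _ => by
      simp only [W]
      rw [Finset.card_image_of_injective _ fun y y' h => funext fun i => by
        simpa using congrFun h (Fin.castAdd d i)]
      simp)
  let dig : ℕ → Fin (d + d) → ZMod p := Function.invFun kk
  have hd : ∀ x, dig (kk x) = x := Function.leftInverse_invFun kk_inj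
  let T : (Fin c → Fin (2 * B)) → Matrix (Fin d) (Fin d) (ZMod p) := fun a => L fun i => ((a i : ℕ) : ZMod p)
  have hμ : ∀ (a a' : Fin c → Fin (2 * B)) (j : Fin c → Fin B), dg (4 * B) (fun i => (a i : ℕ)) =
      dg (4 * B) (fun i => (a' i : ℕ)) + dg (4 * B) (fun i => (j i : ℕ)) → T a - T a' = M j := by
    intro a a' j h
    rw [← dg_add] at h
    have := dg_inj (fun i => by have := (a i).2; omega) (fun i => by
      have := (a' i).2; have := (j i).2; simp only [Pi.add_apply]; omega) h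
    simp only [T, M, ← l1]
    congr 1; funext i
    have := congrFun this i
    simp only [Pi.add_apply] at this
    simp [this]
  refine ⟨fun a k => ph (T a) (dig k), fun a => dg (4 * B) fun i => a i,
    fun k => ch y0 (dig k) * aq s (dig k),
    ((Sph ×ˢ Z).filter fun x => x.2 ∘ Fin.rev + y0 ∈ W x.1).image
      fun x => p ^ (d + d) * dg (4 * B) (fun i => x.1 i) + kk x.2, fun a a' h => ?_,
    fun a k => norm_psi _, fun k => ?_, fun a a' h K hK s s0 s1 => ?_, fun a a' w s0 s1 => ?_, ?_,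
    fun n hn => ?_⟩
  · have := dg_inj (fun i => by have := (a i).2; omega) (fun i => by have := (a' i).2; omega) h
    exact funext fun i => Fin.ext (congrFun this i)
  · rw [norm_mul, norm_ch, one_mul]; exact (norm_psi _).le
  · have := cut_upper s s0 s1 K hK _ _ (bd_ph h2 (T a - T a') _ (sq_ne hB a a' h)
      (by simp only [T, ← l1]; exact l2 _)) 0
    simp only [id, ch_zero, one_mul] at this
    rw [show range K = (range (p ^ (d + d))).filter (· < K) by
      ext k; simp only [mem_filter, mem_range]; omega, Finset.sum_filter, ← sum_kk]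
    simp only [hd, ph_sub]
    convert this using 3 with x
    split_ifs <;> ring
  · have := geo_upper w s0 s1 _ _ (nm_ch y0 _ _ (bd_aq h2 (T a - T a') s)) 0
    simp only [id, ch_zero, one_mul] at this
    rw [← sum_kk]
    simp only [hd, ph_sub]
    convert this using 3 with x
    ring
  · rw [Finset.card_image_of_injective _ fun x x' h => ?_]
    · have hb := box_card p (d + d) β hβ hβ1
      rw [← hZ] at hb
      simp only [Fintype.card_fun, ZMod.card, Fintype.card_fin, Nat.cast_pow, card_product,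
        Nat.cast_mul] at hy0
      refine le_of_mul_le_mul_left ?_ (show (0:ℝ) < p ^ (d + d) by positivity)
      calc _ = B ^ c * (β * p) ^ (d + d) * (p:ℝ) ^ d := by ring
        _ ≤ ((c * B ^ 2 + 1) * #Sph) * #Z * (p:ℝ) ^ d := by gcongr
        _ = (c * B ^ 2 + 1) * (#Sph * #Z * (p:ℝ) ^ d) := by ring
        _ ≤ (c * B ^ 2 + 1) * _ := mul_le_mul_of_nonneg_left hy0 (by positivity)
        _ = _ := by ring
    · have a := kk_lt x.2
      have a' := kk_lt x'.2
      have e1 := congrArg (· / p ^ (d + d)) h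
      have e2 := congrArg (· % p ^ (d + d)) h
      simp only [Nat.mul_add_div (show 0 < p ^ (d + d) by omega), Nat.div_eq_of_lt a,
        Nat.div_eq_of_lt a', add_zero] at e1
      simp only [Nat.mul_add_mod, Nat.mod_eq_of_lt a, Nat.mod_eq_of_lt a'] at e2
      have := dg_inj (fun i => by have := (x.1 i).2; omega) (fun i => by have := (x'.1 i).2; omega) e1
      exact Prod.ext (funext fun i => Fin.ext (congrFun this i)) (kk_inj e2)
  · obtain ⟨⟨j, z⟩, hz, rfl⟩ := mem_image.1 hn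
    obtain ⟨hz1, hz2⟩ := mem_filter.1 hz
    obtain ⟨hj, hz1⟩ := mem_product.1 hz1
    have hz1 := (mem_filter.1 hz1).2
    have hj := (mem_filter.1 hj).2
    simp only at hz1 hz2 hj
    refine ⟨_, _, rfl, ?_, dg_lt fun i => by have := (j i).2; omega, ?_, fun ρ r0 r1 => ?_⟩
    · rw [kk]; push_cast
      calc _ ≤ ∑ _j : Fin (d + d), β * (p:ℝ) ^ (d + d) := Finset.sum_le_sum fun j _ => by
            calc _ ≤ (β * p) * (p:ℝ) ^ (j:ℕ) := by gcongr; exact hz1 j
              _ = β * p ^ (j + 1 : ℕ) := by ring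
              _ ≤ _ := by
                have : (j:ℕ) + 1 ≤ d + d := j.2
                gcongr
        _ = _ := by simp; ring
    · have : B ^ c = #(univ : Finset (Fin c → Fin B)) := by simp
      rw [this]
      refine Finset.card_le_card_of_injOn (fun b => (fun i => ⟨b i + j i, by
        have := (b i).2; have := (j i).2; omega⟩, fun i => ⟨b i, by have := (b i).2; omega⟩))
        (fun b _ => ?_) fun b _ b' _ h => funext fun i => Fin.val_inj.1 ?_
      · simp only [coe_filter, mem_univ, true_and, Set.mem_ofPred_eq]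
        exact dg_add (fun i => b i) fun i => j i
      · simpa using congrFun (congrArg Prod.snd h) i
    · obtain ⟨y, -, hy⟩ := mem_image.1 hz2
      have g1 := nm_ch y0 _ _ (bd_aq h2 (M j) s)
      have g2 := (geo_lower z β ρ η hβ hz1 r0 r1 hη).mono hs _ _ g1 0
      have g3 := eq_aq h2 (M j) s (by simp only [M, l2, ← hj]; push_cast; rfl) y
      rw [hy] at g3
      refine ⟨∑ x, exp ((ρ + 2 * π * I * kk z / p ^ (d + d)) * kk x) *
        (ch y0 x * (aq s x * ph (M j) x)), ?_, fun a a' h => ?_⟩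
      · simp only [id, ch_zero, one_mul, sub_mul, Finset.sum_sub_distrib] at g2
        simp only [ch_add, mul_assoc (ch _ _)] at g3
        have := norm_sub_norm_le (∑ x, ch (z ∘ Fin.rev) x * (ch y0 x * (aq s x * ph (M j) x)))
          (∑ x, exp ((ρ + 2 * π * I * kk z / p ^ (d + d)) * kk x) * (ch y0 x * (aq s x * ph (M j) x)))
        rw [norm_sub_rev] at this
        linarith
      · rw [← sum_kk]
        simp only [hd, ph_sub, hμ a a' j h]
        exact Finset.sum_congr rfl fun x _ => by ring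

end Pool.Agent.Lib.MP_a93a41_nt.Bar
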