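import Pool.Agent.Lib.MP_a93a41_nt.Bar5

open Finset Complex MeasureTheory
open scoped Real

namespace Pool.Agent.Lib.MP_a93a41_nt.Bar

noncomputable def om (τ : ℝ) : ℂ := ∫ s in (0:ℝ)..1, exp (I * (τ * s : ℝ))

theorem norm_expI (x : ℝ) : ‖exp (I * x)‖ = 1 := by rw [mul_comm, Complex.norm_exp_ofReal_mul_I]

theorem om_le (τ : ℝ) : ‖om τ‖ ≤ 1 := by
  simpa [om] using intervalIntegral.norm_integral_le_of_norm_le_const (a := 0) (b := 1)
    fun s _ => (norm_expI (τ * s)).le

theorem om_ge {τ : ℝ} (h : |τ| ≤ 1 / 2) : 1 / 2 ≤ ‖om τ‖ := by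
  have h1 : ‖∫ s in (0:ℝ)..1, (exp (I * (τ * s : ℝ)) - 1)‖ ≤ 1 / 2 * |(1:ℝ) - 0| := by
    refine intervalIntegral.norm_integral_le_of_norm_le_const fun s hs => ?_
    rw [Set.uIoc_of_le zero_le_one] at hs
    refine Real.norm_exp_I_mul_ofReal_sub_one_le.trans ?_
    rw [Real.norm_eq_abs, abs_mul, abs_of_pos hs.1]
    nlinarith [hs.2, abs_nonneg τ]
  rw [intervalIntegral.integral_sub (Continuous.intervalIntegrable (by fun_prop) _ _) (by simp)] at h1
  have h2 := norm_sub_norm_le (1:ℂ) (om τ)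
  rw [norm_sub_rev] at h2
  simp only [intervalIntegral.integral_const, sub_zero, one_smul, abs_one, norm_one] at h1 h2
  unfold om at *
  linarith

theorem om_bound {η : ℝ} (hη : |η| ≤ π) {ν : ℤ} (hν : ν ≠ 0) :
    ‖om (η + 2 * π * ν)‖ ≤ |η| / π * (1 / |(ν:ℝ)|) := by
  have hpi := Real.pi_pos
  have h1 : (1:ℝ) ≤ |(ν:ℝ)| := by exact_mod_cast Int.one_le_abs hν
  have h2 : π * |(ν:ℝ)| ≤ |η + 2 * π * ν| := by
    have := abs_sub (η + 2 * π * ν) η
    rw [add_sub_cancel_left, abs_mul, abs_of_pos (by positivity : 0 < 2 * π)] at this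
    nlinarith
  have h3 : 0 < π * |(ν:ℝ)| := by positivity
  have h4 : (I * (η + 2 * π * ν : ℝ) : ℂ) ≠ 0 :=
    mul_ne_zero I_ne_zero (by exact_mod_cast abs_pos.1 (h3.trans_le h2))
  have e : om (η + 2 * π * ν) = (exp (I * η) - 1) / (I * (η + 2 * π * ν : ℝ)) := by
    have := integral_exp_mul_complex (a := 0) (b := 1) h4
    simp only [Complex.ofReal_one, mul_one, Complex.ofReal_zero, mul_zero, Complex.exp_zero] at this
    have e2 : exp (I * (η + 2 * π * ν : ℝ)) = exp (I * η) := by
      rw [← mul_one (exp (I * η)), ← Complex.exp_int_mul_two_pi_mul_I ν, ← Complex.exp_add]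
      congr 1; push_cast; ring
    rw [← e2, ← this, om]
    congr 1; funext s; congr 1; push_cast; ring
  rw [e, norm_div, norm_mul, norm_I, one_mul, Complex.norm_real, Real.norm_eq_abs]
  calc _ ≤ |η| / (π * |(ν:ℝ)|) := by
        gcongr; exact Real.norm_exp_I_mul_ofReal_sub_one_le
    _ = _ := by field_simp

theorem sum_Icc_inv (n : ℕ) : ∑ ν ∈ Icc (-n : ℤ) n, 1 / |(ν:ℝ)| = 2 * harmonic n := by
  induction n with
  | zero => simp
  | succ n ih =>
    have : Icc (-(n + 1 : ℕ) : ℤ) (n + 1 : ℕ) = insert (n + 1 : ℤ) (insert (-(n + 1) : ℤ) (Icc (-n : ℤ) n)) := by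
      ext x; simp only [mem_Icc, mem_insert]; omega
    rw [this, sum_insert (by simp only [mem_Icc, mem_insert]; omega),
      sum_insert (by simp only [mem_Icc]; omega), ih, harmonic_succ]
    push_cast
    rw [abs_neg, abs_of_pos (by positivity)]; ring

theorem inv_sum {ι : Type} [Fintype ι] [Nonempty ι] (f : ι → ℤ) (hf : Function.Injective f) :
    ∑ a, 1 / |(f a : ℝ)| ≤ 3 + 2 * Real.log (Fintype.card ι) := by
  classical
  set n := Fintype.card ι with hn
  have hn0 : (0:ℝ) < n := by exact_mod_cast Fintype.card_pos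
  calc _ ≤ ∑ a, ((if f a ∈ Icc (-n : ℤ) n then 1 / |(f a : ℝ)| else 0) + 1 / n) := by
        refine Finset.sum_le_sum fun a _ => ?_
        split_ifs with h
        · exact le_add_of_nonneg_right (by positivity)
        · rw [zero_add]
          gcongr
          have : (n:ℤ) ≤ |f a| := by
            simp only [mem_Icc] at h
            rcases abs_cases (f a) with h | h <;> omega
          exact_mod_cast this
    _ = ∑ ν ∈ (univ.filter fun a => f a ∈ Icc (-n : ℤ) n).image f, 1 / |(ν:ℝ)| + 1 := by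
        rw [Finset.sum_add_distrib, Finset.sum_image fun _ _ _ _ h => hf h, Finset.sum_filter]
        simp [← hn, hn0.ne']
    _ ≤ ∑ ν ∈ Icc (-n : ℤ) n, 1 / |(ν:ℝ)| + 1 := by
        gcongr
        intro ν h
        obtain ⟨a, ha, rfl⟩ := mem_image.1 h
        exact (mem_filter.1 ha).2
    _ ≤ _ := by rw [sum_Icc_inv]; linarith [harmonic_le_one_add_log n]

theorem om_sum {ι : Type} [Fintype ι] [Nonempty ι] (f : ι → ℤ) (hf : Function.Injective f) (τ : ℝ) :
    ∑ a, ‖om (τ + 2 * π * f a)‖ ≤ 4 + 2 * Real.log (Fintype.card ι) := by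
  classical
  have hpi := Real.pi_pos
  set ν := round (τ / (2 * π)) with hν
  have hη : |τ - 2 * π * ν| ≤ π := by
    have h := abs_sub_round (τ / (2 * π))
    have : τ - 2 * π * ν = (2 * π) * (τ / (2 * π) - ν) := by field_simp
    rw [this, abs_mul, abs_of_pos (by positivity)]
    nlinarith
  have hg : Function.Injective fun a => f a + ν := fun a b h => hf (add_right_cancel h)
  calc _ ≤ ∑ a, ((if f a + ν = 0 then 1 else 0) + 1 / |((f a + ν : ℤ) : ℝ)|) := by
        refine Finset.sum_le_sum fun a _ => ?_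
        split_ifs with h
        · exact (om_le _).trans (le_add_of_nonneg_right (by positivity))
        · rw [show τ + 2 * π * f a = τ - 2 * π * ν + 2 * π * (f a + ν : ℤ) by push_cast; ring, zero_add]
          exact (om_bound hη h).trans (mul_le_of_le_one_left (by positivity) ((div_le_one hpi).2 hη))
    _ ≤ 1 + (3 + 2 * Real.log (Fintype.card ι)) := by
        rw [Finset.sum_add_distrib]
        refine add_le_add ?_ (inv_sum _ hg)
        rw [Finset.sum_boole, Nat.cast_le_one, Finset.card_le_one]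
        exact fun a ha b hb => hg ((mem_filter.1 ha).2.trans (mem_filter.1 hb).2.symm)
    _ = _ := by ring

variable {N lam : ℝ}

noncomputable def GG (N lam t : ℝ) (ν : ℤ) (k : ℕ) (u : ℝ) : ℂ :=
  ((cc N lam k / u : ℝ) : ℂ) * exp (I * (2 * π * ν * (Real.log (u / N) / lam) : ℝ)) * E t u

theorem GG_int (hN : 0 < N) (hl : 0 < lam) (t : ℝ) (ν : ℤ) (k : ℕ) :
    IntervalIntegrable (GG N lam t ν k) volume (cc N lam k) (cc N lam (k + 1)) := by
  refine ContinuousOn.intervalIntegrable fun u hu => ContinuousAt.continuousWithinAt ?_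
  rw [Set.uIcc_of_le (cc_mono hN hl (Nat.le_succ k))] at hu
  have h0 : u ≠ 0 := (hN.trans_le ((cc_ge hN hl k).trans hu.1)).ne'
  have h1 : u / N ≠ 0 := div_ne_zero h0 hN.ne'
  unfold GG E
  fun_prop (disch := assumption)

theorem cellG (hN : 0 < N) (hl : 0 < lam) (t : ℝ) (ν : ℤ) (k : ℕ) :
    ∫ u in cc N lam k..cc N lam (k + 1), GG N lam t ν k u =
      E t N * (N * lam) * exp ((lam + I * t * lam) * k) * om (t * lam + 2 * π * ν) := by
  have := intervalIntegral.integral_deriv_smul_comp_of_deriv_nonneg (a := 0) (b := 1)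
    (f := fun s => N * Real.exp (lam * (k + s))) (f' := fun s => N * (Real.exp (lam * (k + s)) * lam))
    (g := GG N lam t ν k) (by fun_prop) (fun s _ => by
      simpa using (((hasDerivAt_id s).const_add (k:ℝ)).const_mul lam).exp.const_mul N)
    fun s _ => by positivity
  simp only [add_zero] at this
  rw [cc, cc, Nat.cast_add, Nat.cast_one, ← this, om, ← intervalIntegral.integral_const_mul]
  congr 1; funext s
  have e : Real.log (N * Real.exp (lam * (k + s)) / N) / lam = k + s := by
    rw [mul_div_cancel_left₀ _ hN.ne', Real.log_exp, mul_div_cancel_left₀ _ hl.ne']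
  simp only [Function.comp, GG, e, E_mul t hN, cc, Complex.real_smul]
  have a1 : exp (I * (2 * π * ν * (k + s) : ℝ)) * exp (I * t * (lam * (k + s) : ℝ)) * exp (lam * k) =
      exp ((lam + I * t * lam) * k) * exp (I * ((t * lam + 2 * π * ν) * s : ℝ)) := by
    rw [← mul_one (exp _ * exp (I * ((t * lam + 2 * π * ν) * s : ℝ))),
      ← Complex.exp_int_mul_two_pi_mul_I (ν * k)]
    simp only [← Complex.exp_add]
    congr 1; push_cast; ring
  have a2 : (N:ℂ) ≠ 0 := by exact_mod_cast hN.ne'
  have a3 := Complex.exp_ne_zero (lam * (k + s))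
  push_cast at a1 ⊢
  generalize exp (lam * (k + s)) = x1 at *
  generalize exp (I * (2 * π * ν * (k + s))) = x2 at *
  generalize exp (I * t * (lam * (k + s))) = x3 at *
  generalize exp ((lam + I * t * lam) * k) = x4 at *
  generalize exp (I * ((t * lam + 2 * π * ν) * s)) = x5 at *
  generalize exp (lam * k) = x6 at *
  field_simp
  linear_combination (lam * E t N) * a1

end Pool.Agent.Lib.MP_a93a41_nt.Bar
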