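import Pool.Agent.Lib.MP_a93a41_nt.Oct4

open Finset Complex MeasureTheory
open scoped Real

namespace Pool.Agent.Lib.MP_a93a41_nt.Bar

variable {ι : Type} [Fintype ι] [Nonempty ι] [DecidableEq ι] {N lam : ℝ} {P : ℕ}
  {θ : ι → ℕ → ℂ} {μ : ι → ℕ}

noncomputable def WW (N lam : ℝ) (θ : ι → ℕ → ℂ) (μ : ι → ℕ) (k : ℕ) (u : ℝ) : ℝ :=
  ‖∑ a, θ a k * exp (I * (-(2 * π * μ a * (Real.log (u / N) / lam)) : ℝ))‖ ^ 2 / Fintype.card ι

open Classical in
noncomputable def ww (N lam : ℝ) (P : ℕ) (θ : ι → ℕ → ℂ) (μ : ι → ℕ) (u : ℝ) : ℝ :=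
  if N ≤ u ∧ idx N lam u < P then
    1 + (WW N lam θ μ (idx N lam u) u - 1) * (cc N lam (idx N lam u) / u) else 1

omit [Nonempty ι] [DecidableEq ι] in
theorem meas_ww : Measurable (ww N lam P θ μ) := by
  have h1 : ∀ a, Measurable fun u => θ a (idx N lam u) := fun a =>
    (Measurable.of_discrete (f := θ a)).comp meas_idx
  have h2 : Measurable fun u => cc N lam (idx N lam u) :=
    (Measurable.of_discrete (f := cc N lam)).comp meas_idx
  refine Measurable.ite ((measurableSet_le measurable_const measurable_id).inter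
    (meas_idx (MeasurableSet.of_discrete (s := {k | k < P})))) ?_ measurable_const
  have h3 : Measurable fun u => ∑ a, θ a (idx N lam u) *
      exp (I * (-(2 * π * μ a * (Real.log (u / N) / lam)) : ℝ)) :=
    Finset.measurable_sum _ fun a _ => (h1 a).mul (by fun_prop)
  exact (((((h3.norm.pow_const 2).div_const _).sub_const _).mul (h2.div measurable_id')).const_add _)

omit [DecidableEq ι] in
theorem ww_bd (hN : 0 < N) (hl : 0 < lam) (hθ : ∀ a k, ‖θ a k‖ = 1) (u : ℝ) :
    0 ≤ ww N lam P θ μ u ∧ ww N lam P θ μ u ≤ 1 + Fintype.card ι := by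
  have hc : (0:ℝ) < Fintype.card ι := by exact_mod_cast Fintype.card_pos
  unfold ww
  split_ifs with h
  · have h0 : 0 < u := hN.trans_le h.1
    have a1 : 0 ≤ cc N lam (idx N lam u) / u := by unfold cc; positivity
    have a2 : cc N lam (idx N lam u) / u ≤ 1 := (div_le_one h0).2 ((le_idx hN hl h.1 _).1 le_rfl)
    have a3 : 0 ≤ WW N lam θ μ (idx N lam u) u := by unfold WW; positivity
    have a4 : WW N lam θ μ (idx N lam u) u ≤ Fintype.card ι := by
      rw [WW, div_le_iff₀ hc, ← sq]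
      gcongr
      refine (norm_sum_le _ _).trans ?_
      simp only [norm_mul, hθ, norm_expI]; simp
    constructor <;> nlinarith
  · constructor <;> linarith

omit [Nonempty ι] [DecidableEq ι] in
theorem WW_eq (t : ℝ) (k : ℕ) (u : ℝ) : ((cc N lam k / u * WW N lam θ μ k u : ℝ) : ℂ) * E t u =
    (Fintype.card ι : ℂ)⁻¹ * ∑ x : ι × ι, θ x.1 k * (starRingEnd ℂ) (θ x.2 k) *
      GG N lam t ((μ x.2 : ℤ) - μ x.1) k u := by
  rw [WW, ← Complex.normSq_eq_norm_sq, Complex.ofReal_mul, Complex.ofReal_div (normSq _),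
    ← Complex.mul_conj, map_sum, Finset.sum_mul_sum, ← Fintype.sum_prod_type', Finset.mul_sum,
    Finset.sum_div, Finset.mul_sum, Finset.sum_mul]
  refine Finset.sum_congr rfl fun x _ => ?_
  have : exp (I * (-(2 * π * μ x.1 * (Real.log (u / N) / lam)) : ℝ)) *
      (starRingEnd ℂ) (exp (I * (-(2 * π * μ x.2 * (Real.log (u / N) / lam)) : ℝ))) =
      exp (I * (2 * π * ((μ x.2 : ℤ) - μ x.1 : ℤ) * (Real.log (u / N) / lam) : ℝ)) := by
    rw [← Complex.exp_conj, ← Complex.exp_add, map_mul, conj_I, conj_ofReal]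
    congr 1; push_cast; ring
  rw [GG, ← this, map_mul]
  push_cast; ring

omit [Nonempty ι] [DecidableEq ι] in
theorem cellW (hN : 0 < N) (hl : 0 < lam) (t : ℝ) (k : ℕ) :
    ∫ u in cc N lam k..cc N lam (k + 1), ((cc N lam k / u * WW N lam θ μ k u : ℝ) : ℂ) * E t u =
      E t N * (N * lam) * (Fintype.card ι : ℂ)⁻¹ * ∑ x : ι × ι,
        om (t * lam + 2 * π * ((μ x.2 : ℤ) - μ x.1 : ℤ)) *
          (θ x.1 k * (starRingEnd ℂ) (θ x.2 k) * exp ((lam + I * t * lam) * k)) := by
  simp only [WW_eq]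
  rw [intervalIntegral.integral_const_mul, intervalIntegral.integral_finsetSum
    fun x _ => (GG_int hN hl t _ k).const_mul _]
  simp only [intervalIntegral.integral_const_mul, cellG hN hl, Finset.mul_sum]
  exact Finset.sum_congr rfl fun x _ => by ring

omit [Nonempty ι] [DecidableEq ι] in
theorem WW_int (hN : 0 < N) (hl : 0 < lam) (t : ℝ) (k : ℕ) : IntervalIntegrable
    (fun u => ((cc N lam k / u * WW N lam θ μ k u : ℝ) : ℂ) * E t u) volume
    (cc N lam k) (cc N lam (k + 1)) := by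
  simp only [WW_eq]
  refine IntervalIntegrable.const_mul ?_ _
  simpa only [Finset.sum_fn] using IntervalIntegrable.sum univ fun x _ => (GG_int hN hl t _ k).const_mul _

theorem cellD (hN : 0 < N) (hl : 0 < lam) (hθ : ∀ a k, ‖θ a k‖ = 1) (t : ℝ) (k : ℕ) (hk : k < P) :
    ∫ u in cc N lam k..cc N lam (k + 1), (E t u * ww N lam P θ μ u - E t u) =
      E t N * (N * lam) * (Fintype.card ι : ℂ)⁻¹ * ∑ x ∈ univ.offDiag,
        om (t * lam + 2 * π * ((μ x.2 : ℤ) - μ x.1 : ℤ)) *
          (θ x.1 k * (starRingEnd ℂ) (θ x.2 k) * exp ((lam + I * t * lam) * k)) := by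
  have hc : (Fintype.card ι : ℂ) ≠ 0 := by exact_mod_cast Fintype.card_pos.ne'
  rw [intervalIntegral.integral_congr_Ioo_of_le (cc_mono hN hl (Nat.le_succ k))
    (g := fun u => ((cc N lam k / u * WW N lam θ μ k u : ℝ) : ℂ) * E t u - GG N lam t 0 k u) fun u hu => ?_]
  · rw [intervalIntegral.integral_sub (WW_int hN hl t k) (GG_int hN hl t 0 k), cellW hN hl, cellG hN hl,
      ← Finset.univ_product_univ, ← Finset.diag_union_offDiag,
      Finset.sum_union (Finset.disjoint_diag_offDiag _), Finset.sum_diag]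
    simp only [sub_self, Complex.mul_conj, Complex.normSq_eq_norm_sq, hθ, sum_const, card_univ,
      nsmul_eq_mul]
    push_cast
    field_simp
    ring
  · have hi := idx_eq hN hl hu.1.le hu.2
    simp only [ww, hi, hk, (cc_ge hN hl k).trans hu.1.le, and_self, if_true, GG]
    push_cast
    simp; ring

omit [DecidableEq ι] in
theorem iint_Ew (hN : 0 < N) (hl : 0 < lam) (hθ : ∀ a k, ‖θ a k‖ = 1) {f : ℝ → ℂ} (hf : Measurable f)
    (h1 : ∀ u, ‖f u‖ ≤ 1) (a b : ℝ) :
    IntervalIntegrable (fun u => f u * ww N lam P θ μ u) volume a b :=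
  iint (f := fun u => f u * ww N lam P θ μ u) (hf.mul (Complex.measurable_ofReal.comp meas_ww))
    (1 + Fintype.card ι) (fun u => by
    obtain ⟨c, d⟩ := ww_bd (P := P) (μ := μ) hN hl hθ u
    rw [norm_mul, Complex.norm_real, Real.norm_eq_abs, abs_of_nonneg c]
    nlinarith [h1 u, norm_nonneg (f u)]) a b

omit [DecidableEq ι] in
theorem iint_w (hN : 0 < N) (hl : 0 < lam) (hθ : ∀ a k, ‖θ a k‖ = 1) (a b : ℝ) :
    IntervalIntegrable (ww N lam P θ μ) volume a b :=
  iint meas_ww (1 + Fintype.card ι) (fun u => by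
    obtain ⟨c, d⟩ := ww_bd (P := P) (μ := μ) hN hl hθ u
    rwa [Real.norm_eq_abs, abs_of_nonneg c]) a b

theorem cellsD (hN : 0 < N) (hl : 0 < lam) (hθ : ∀ a k, ‖θ a k‖ = 1) (t : ℝ) (K : ℕ) (hK : K ≤ P) :
    ∫ u in N..cc N lam K, (E t u * ww N lam P θ μ u - E t u) =
      E t N * (N * lam) * (Fintype.card ι : ℂ)⁻¹ * ∑ x ∈ univ.offDiag,
        om (t * lam + 2 * π * ((μ x.2 : ℤ) - μ x.1 : ℤ)) * ∑ k ∈ range K,
          θ x.1 k * (starRingEnd ℂ) (θ x.2 k) * exp ((lam + I * t * lam) * k) := by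
  have := intervalIntegral.sum_integral_adjacent_intervals (μ := volume) (a := cc N lam) (n := K)
    (fun k _ => (iint_Ew (P := P) (μ := μ) hN hl hθ (meas_E t measurable_id') (fun u => (norm_E t u).le) _ _).sub
      (iint_E t measurable_id' _ _))
  rw [show cc N lam 0 = N by simp [cc]] at this
  rw [← this, Finset.sum_congr rfl fun k hk => cellD hN hl hθ t k ((mem_range.1 hk).trans_le hK),
    ← Finset.mul_sum, Finset.sum_comm]
  simp only [Finset.mul_sum]

theorem mass (hN : 0 < N) (hl : 0 < lam) (hθ : ∀ a k, ‖θ a k‖ = 1) (hμ : Function.Injective μ)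
    (K : ℕ) (hK : K ≤ P) : ∫ u in N..cc N lam K, ww N lam P θ μ u = cc N lam K - N := by
  have := cellsD (μ := μ) hN hl hθ 0 K hK
  rw [Finset.sum_eq_zero fun x hx => ?_] at this
  · simp only [E, zero_mul, ofReal_zero, mul_zero, Complex.exp_zero, one_mul] at this
    have i := iint_Ew (P := P) (μ := μ) hN hl hθ (f := fun _ => 1) measurable_const (by simp) N (cc N lam K)
    simp only [one_mul] at i
    rw [intervalIntegral.integral_sub i (by simp),
      intervalIntegral.integral_ofReal, intervalIntegral.integral_const, sub_eq_zero] at this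
    simpa using congrArg Complex.re this
  · have h : ((μ x.2 : ℤ) - μ x.1 : ℤ) ≠ 0 := fun e => (mem_offDiag.1 hx).2.2 (hμ (by omega))
    have := om_bound (η := 0) (by simpa using Real.pi_pos.le) h
    simp only [abs_zero, zero_div, zero_mul, norm_le_zero_iff] at this
    rw [zero_mul, this, zero_mul]

omit [Nonempty ι] [DecidableEq ι] in
theorem ww_out (hN : 0 < N) (hl : 0 < lam) {u : ℝ} (hu : cc N lam P ≤ u) : ww N lam P θ μ u = 1 :=
  if_neg fun h => not_lt.2 ((le_idx hN hl h.1 P).2 hu) h.2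

theorem cc_len (hN : 0 < N) (hl : 0 < lam) (hQ : lam * P ≤ 1 / 2) (hδ : N * lam ≤ 1 / 8) {k : ℕ}
    (hk : k < P) : cc N lam (k + 1) - cc N lam k ≤ 1 / 2 := by
  have hP : (1:ℝ) ≤ P := by exact_mod_cast (show 1 ≤ P by omega)
  have b3 := cc_le hN hl hQ hk.le
  have b4 : cc N lam (k + 1) = cc N lam k * Real.exp lam := by
    simp only [cc]; push_cast; rw [mul_add, Real.exp_add]; ring
  have b5 := Real.abs_exp_sub_one_le (x := lam) (by rw [abs_of_pos hl]; nlinarith)
  rw [abs_of_pos hl] at b5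
  have b6 := (abs_le.1 b5).2
  have : cc N lam k * (Real.exp lam - 1) ≤ (2 * N) * (2 * lam) := by
    gcongr
    linarith [Real.one_le_exp hl.le]
  nlinarith

omit [DecidableEq ι] in
theorem int_mono (hN : 0 < N) (hl : 0 < lam) (hθ : ∀ a k, ‖θ a k‖ = 1) {a b : ℝ} (h : a ≤ b) :
    ∫ u in N..a, ww N lam P θ μ u ≤ ∫ u in N..b, ww N lam P θ μ u := by
  rw [← intervalIntegral.integral_add_adjacent_intervals (iint_w hN hl hθ N a) (iint_w hN hl hθ a b)]
  exact le_add_of_nonneg_right (intervalIntegral.integral_nonneg h fun u _ => (ww_bd hN hl hθ u).1)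

theorem close (hN : 0 < N) (hl : 0 < lam) (hθ : ∀ a k, ‖θ a k‖ = 1) (hμ : Function.Injective μ)
    (hQ : lam * P ≤ 1 / 2) (hδ : N * lam ≤ 1 / 8) (M : ℝ) (hM : N ≤ M) :
    |(∫ u in N..M, ww N lam P θ μ u) - (M - N)| ≤ 1 / 2 := by
  rcases le_or_gt P (idx N lam M) with h | h
  · have h' := (le_idx hN hl hM P).1 h
    rw [← intervalIntegral.integral_add_adjacent_intervals (iint_w hN hl hθ N (cc N lam P))
      (iint_w hN hl hθ _ _), mass hN hl hθ hμ P le_rfl,
      intervalIntegral.integral_congr (g := fun _ => 1) fun u hu => ?_]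
    · simp
    · rw [Set.uIcc_of_le h'] at hu
      exact ww_out hN hl hu.1
  · have b1 := (le_idx hN hl hM _).1 le_rfl
    have b2 := (not_le.1 ((le_idx hN hl hM (idx N lam M + 1)).not.1 (by omega))).le
    have c1 := int_mono (P := P) (μ := μ) hN hl hθ b1
    have c2 := int_mono (P := P) (μ := μ) hN hl hθ b2
    rw [mass hN hl hθ hμ _ h.le] at c1
    rw [mass hN hl hθ hμ _ h] at c2
    have := cc_len hN hl hQ hδ h
    rw [abs_le]; constructor <;> linarith

theorem dens_LH (hN : 0 < N) (hl : 0 < lam) (hθ : ∀ a k, ‖θ a k‖ = 1) (hμ : Function.Injective μ)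
    (hQ : lam * P ≤ 1 / 2) (hδ : N * lam ≤ 1 / 8) (B : ℝ) (hB0 : 0 ≤ B)
    (hB : ∀ a a', a ≠ a' → ∀ K ≤ P, ∀ s : ℂ, 0 ≤ s.re → s.re * P ≤ 1 →
      ‖∑ k ∈ range K, θ a k * (starRingEnd ℂ) (θ a' k) * exp (s * k)‖ ≤ B)
    (M : ℝ) (hM : N ≤ M) (t : ℝ) :
    ‖(∫ u in N..M, E t u * ww N lam P θ μ u) - ∫ u in N..M, E t u‖ ≤
      2 + N * lam * ((4 + 2 * Real.log (Fintype.card ι)) * B) := by
  have hc : (0:ℝ) < Fintype.card ι := by exact_mod_cast Fintype.card_pos
  have i1 := iint_Ew (P := P) (μ := μ) hN hl hθ (meas_E t measurable_id') (fun u => (norm_E t u).le)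
  have i2 := iint_E t measurable_id'
  obtain ⟨K, hK, hK3⟩ : ∃ K ≤ P, ‖∫ u in cc N lam K..M, (E t u * ww N lam P θ μ u - E t u)‖ ≤ 2 := by
    rcases le_or_gt P (idx N lam M) with h | h
    · refine ⟨P, le_rfl, ?_⟩
      rw [intervalIntegral.integral_congr (g := fun _ => 0) fun u hu => ?_]
      · simp
      · rw [Set.uIcc_of_le ((le_idx hN hl hM P).1 h)] at hu
        simp [ww_out hN hl hu.1]
    · refine ⟨_, h.le, ?_⟩
      have b1 := (le_idx hN hl hM _).1 le_rfl
      have b2 := (not_le.1 ((le_idx hN hl hM (idx N lam M + 1)).not.1 (by omega))).le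
      have b3 := cc_len hN hl hQ hδ h
      have b4 := abs_le.1 (close hN hl hθ hμ hQ hδ M hM)
      rw [← intervalIntegral.integral_add_adjacent_intervals (iint_w hN hl hθ N (cc N lam (idx N lam M)))
        (iint_w hN hl hθ _ _), mass hN hl hθ hμ _ h.le] at b4
      refine (intervalIntegral.norm_integral_le_of_norm_le b1 (g := fun u => ww N lam P θ μ u + 1)
        (.of_forall fun u _ => (norm_sub_le _ _).trans ?_) ((iint_w hN hl hθ _ _).add (by simp))).trans ?_
      · rw [norm_mul, norm_E, one_mul, Complex.norm_real, Real.norm_eq_abs,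
          abs_of_nonneg (ww_bd hN hl hθ u).1]
      · rw [intervalIntegral.integral_add (iint_w hN hl hθ _ _) (by simp)]
        simp only [intervalIntegral.integral_const, smul_eq_mul, mul_one]
        linarith [b4.2]
  rw [← intervalIntegral.integral_sub (i1 _ _) (i2 _ _), ← intervalIntegral.integral_add_adjacent_intervals
    ((i1 N (cc N lam K)).sub (i2 _ _)) ((i1 _ _).sub (i2 _ _)), add_comm]
  refine (norm_add_le _ _).trans (add_le_add hK3 ?_)
  rw [cellsD hN hl hθ t K hK, norm_mul, norm_mul, norm_mul, norm_E, one_mul, ← Complex.ofReal_mul,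
    Complex.norm_real, Real.norm_eq_abs, abs_of_pos (by positivity), norm_inv, Complex.norm_natCast,
    mul_assoc, inv_mul_eq_div]
  gcongr
  rw [div_le_iff₀ hc]
  calc _ ≤ ∑ x ∈ univ.offDiag, ‖om (t * lam + 2 * π * ((μ x.2 : ℤ) - μ x.1 : ℤ))‖ * B := by
        refine (norm_sum_le _ _).trans (Finset.sum_le_sum fun x hx => ?_)
        rw [norm_mul]
        gcongr
        exact hB _ _ (mem_offDiag.1 hx).2.2 K hK _ (by simpa using hl.le) (by simp; linarith)
    _ ≤ ∑ x : ι × ι, ‖om (t * lam + 2 * π * ((μ x.2 : ℤ) - μ x.1 : ℤ))‖ * B :=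
        Finset.sum_le_sum_of_subset_of_nonneg (subset_univ _) fun _ _ _ => by positivity
    _ ≤ ∑ _a : ι, (4 + 2 * Real.log (Fintype.card ι)) * B := by
        rw [Fintype.sum_prod_type]
        refine Finset.sum_le_sum fun a _ => ?_
        rw [← Finset.sum_mul]
        gcongr
        exact om_sum (fun b => (μ b : ℤ) - μ a) (fun b b' h => hμ (by simp only at h; omega)) _
    _ = _ := by simp; ring

theorem dens_LV (hN : 0 < N) (hl : 0 < lam) (hθ : ∀ a k, ‖θ a k‖ = 1) (hμ : Function.Injective μ)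
    (hQ : lam * P ≤ 1 / 2) (hδ : N * lam ≤ 1 / 8) (b : ℕ → ℂ) (hb : ∀ k, ‖b k‖ ≤ 1) (t η B B' q : ℝ)
    (ν : ℕ) (ht : t * lam = η + 2 * π * ν) (hη : |η| ≤ 1 / 2) (Z : ℂ) (hB : B ≤ ‖Z‖) (hB0 : 0 ≤ B)
    (hq : q * Fintype.card ι ≤ #(univ.filter fun x : ι × ι => μ x.1 = μ x.2 + ν))
    (hZ : ∀ a a', μ a = μ a' + ν → ∑ k ∈ range P, b k * (θ a k * (starRingEnd ℂ) (θ a' k)) *
      exp ((lam + I * t * lam) * k) = Z)
    (hU : ∀ a a', ‖∑ k ∈ range P, b k * (θ a k * (starRingEnd ℂ) (θ a' k)) *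
      exp ((lam + I * t * lam) * k)‖ ≤ B') :
    N * lam * (q * B / 2 - |η| * (3 + 2 * Real.log (Fintype.card ι)) * B') - 1 ≤ ‖∫ u in N..2 * N,
      (if idx N lam u < P then b (idx N lam u) else 0) * E t u * ww N lam P θ μ u‖ := by
  have hc : (0:ℝ) < Fintype.card ι := by exact_mod_cast Fintype.card_pos
  have hB' : 0 ≤ B' := (norm_nonneg _).trans (hU (Classical.arbitrary ι) (Classical.arbitrary ι))
  let g : ℕ → ℂ := fun k => if k < P then b k else 0
  have hg : ∀ k, ‖g k‖ ≤ 1 := fun k => by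
    simp only [g]; split_ifs
    · exact hb k
    · simp
  have i1 := iint_Ew (P := P) (μ := μ) hN hl hθ (f := fun u => g (idx N lam u) * E t u)
    (((Measurable.of_discrete (f := g)).comp meas_idx).mul (meas_E t measurable_id'))
    (fun u => by rw [norm_mul, norm_E, mul_one]; exact hg _)
  have z : ∫ u in cc N lam P..2 * N, g (idx N lam u) * E t u * ww N lam P θ μ u = 0 := by
    rw [intervalIntegral.integral_congr (g := fun _ => 0) fun u hu => ?_]
    · simp
    · rw [Set.uIcc_of_le (cc_le hN hl hQ le_rfl)] at hu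
      have := (le_idx hN hl ((cc_ge hN hl P).trans hu.1) P).2 hu.1
      simp [g, not_lt.2 this]
  change _ ≤ ‖∫ u in N..2 * N, g (idx N lam u) * E t u * ww N lam P θ μ u‖
  rw [← intervalIntegral.integral_add_adjacent_intervals (i1 N (cc N lam P)) (i1 _ _), z, add_zero]
  have s1 := intervalIntegral.sum_integral_adjacent_intervals (μ := volume) (a := cc N lam) (n := P)
    (fun k _ => i1 _ _)
  rw [show cc N lam 0 = N by simp [cc]] at s1
  set X : ℕ → ℂ := fun k => b k * ∫ u in cc N lam k..cc N lam (k + 1),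
    ((cc N lam k / u * WW N lam θ μ k u : ℝ) : ℂ) * E t u with hX
  have s2 : ‖(∫ u in N..cc N lam P, g (idx N lam u) * E t u * ww N lam P θ μ u) - ∑ k ∈ range P, X k‖ ≤ 1 := by
    rw [← s1, ← Finset.sum_sub_distrib]
    calc _ ≤ ∑ k ∈ range P, lam * (cc N lam (k + 1) - cc N lam k) := by
          refine (norm_sum_le _ _).trans (Finset.sum_le_sum fun k hk => ?_)
          have hk := mem_range.1 hk
          have hm := cc_mono hN hl (Nat.le_succ k)
          rw [hX]; simp only
          rw [← intervalIntegral.integral_const_mul,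
            ← intervalIntegral.integral_sub (i1 _ _) ((WW_int hN hl t k).const_mul _),
            intervalIntegral.integral_congr_Ioo_of_le hm
              (g := fun u => b k * E t u * ((1 - cc N lam k / u : ℝ) : ℂ)) fun u hu => ?_]
          · refine (intervalIntegral.norm_integral_le_of_norm_le_const (C := lam) fun u hu => ?_).trans
              (by rw [abs_of_nonneg (sub_nonneg.2 hm)])
            rw [Set.uIoc_of_le hm] at hu
            have h0 : 0 < cc N lam k := hN.trans_le (cc_ge hN hl k)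
            have h1 : 0 < u := h0.trans hu.1
            have a2 : cc N lam k / u ≤ 1 := (div_le_one h1).2 hu.1.le
            have a3 : 1 - lam ≤ cc N lam k / u := by
              have e : cc N lam k = cc N lam (k + 1) * Real.exp (-lam) := by
                simp only [cc]; push_cast; rw [mul_assoc, ← Real.exp_add]; ring_nf
              rw [le_div_iff₀ h1, e]
              have := Real.add_one_le_exp (-lam)
              nlinarith [Real.exp_pos (-lam), hu.2]
            rw [norm_mul, norm_mul, norm_E, mul_one, Complex.norm_real, Real.norm_eq_abs,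
              abs_of_nonneg (by linarith)]
            nlinarith [hb k, norm_nonneg (b k)]
          · have hi := idx_eq hN hl hu.1.le hu.2
            simp only [ww, hi, hk, (cc_ge hN hl k).trans hu.1.le, and_self, if_true, g]
            push_cast; ring
      _ = lam * (cc N lam P - N) := by
          rw [← Finset.mul_sum, Finset.sum_range_sub (cc N lam)]; simp [cc]
      _ ≤ 1 := by nlinarith [cc_le hN hl hQ (le_refl P)]
  set S : ι × ι → ℂ := fun x => ∑ k ∈ range P, b k * (θ x.1 k * (starRingEnd ℂ) (θ x.2 k)) *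
    exp ((lam + I * t * lam) * k) with hS
  have s3 : ∑ k ∈ range P, X k = E t N * (N * lam) * (Fintype.card ι : ℂ)⁻¹ * ∑ x : ι × ι,
      om (η + 2 * π * ((μ x.2 : ℤ) - μ x.1 + ν : ℤ)) * S x := by
    simp only [hX, hS, cellW hN hl, Finset.mul_sum]
    rw [Finset.sum_comm]
    refine Finset.sum_congr rfl fun x _ => Finset.sum_congr rfl fun k _ => ?_
    rw [ht, show η + 2 * π * ν + 2 * π * ((μ x.2 : ℤ) - μ x.1 : ℤ) =
      η + 2 * π * ((μ x.2 : ℤ) - μ x.1 + ν : ℤ) by push_cast; ring]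
    ring
  have s4 : q * B / 2 * Fintype.card ι ≤ ‖∑ x ∈ univ.filter (fun x : ι × ι => μ x.1 = μ x.2 + ν),
      om (η + 2 * π * ((μ x.2 : ℤ) - μ x.1 + ν : ℤ)) * S x‖ := by
    rw [Finset.sum_congr rfl (g := fun _ => om η * Z) fun x hx => by
      have := (mem_filter.1 hx).2
      rw [show ((μ x.2 : ℤ) - μ x.1 + ν : ℤ) = 0 by omega, hS]
      simp [hZ _ _ this], sum_const, nsmul_eq_mul, norm_mul, norm_mul, Complex.norm_natCast]
    calc _ = (q * Fintype.card ι) * (1 / 2 * B) := by ring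
      _ ≤ _ := by gcongr; exact om_ge hη
  have s5 : ‖∑ x ∈ univ.filter (fun x : ι × ι => ¬ μ x.1 = μ x.2 + ν),
      om (η + 2 * π * ((μ x.2 : ℤ) - μ x.1 + ν : ℤ)) * S x‖ ≤
      |η| * (3 + 2 * Real.log (Fintype.card ι)) * B' * Fintype.card ι := by
    calc _ ≤ ∑ x ∈ univ.filter (fun x : ι × ι => ¬ μ x.1 = μ x.2 + ν),
          |η| * (1 / |(((μ x.2 : ℤ) - μ x.1 + ν : ℤ) : ℝ)|) * B' := by
          refine (norm_sum_le _ _).trans (Finset.sum_le_sum fun x hx => ?_)
          have := (mem_filter.1 hx).2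
          rw [norm_mul]
          refine mul_le_mul ((om_bound (by linarith [Real.pi_gt_three]) (by omega)).trans ?_) (hU _ _)
            (norm_nonneg _) (by positivity)
          gcongr
          exact div_le_self (abs_nonneg _) (by linarith [Real.pi_gt_three])
      _ ≤ ∑ x : ι × ι, |η| * (1 / |(((μ x.2 : ℤ) - μ x.1 + ν : ℤ) : ℝ)|) * B' :=
          Finset.sum_le_sum_of_subset_of_nonneg (subset_univ _) fun _ _ _ => by positivity
      _ ≤ ∑ _a : ι, |η| * (3 + 2 * Real.log (Fintype.card ι)) * B' := by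
          rw [Fintype.sum_prod_type]
          refine Finset.sum_le_sum fun a _ => ?_
          rw [← Finset.sum_mul, ← Finset.mul_sum]
          gcongr
          exact inv_sum (fun b => (μ b : ℤ) - μ a + ν) fun b b' h => hμ (by simp only at h; omega)
      _ = _ := by simp; ring
  have s6 : N * lam * (q * B / 2 - |η| * (3 + 2 * Real.log (Fintype.card ι)) * B') ≤ ‖∑ k ∈ range P, X k‖ := by
    rw [s3, norm_mul, norm_mul, norm_mul, norm_E, one_mul, ← Complex.ofReal_mul,
      Complex.norm_real, Real.norm_eq_abs, abs_of_pos (mul_pos hN hl), norm_inv, Complex.norm_natCast,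
      mul_assoc (N * lam), inv_mul_eq_div,
      ← Finset.sum_filter_add_sum_filter_not univ (fun x : ι × ι => μ x.1 = μ x.2 + ν)]
    gcongr
    rw [le_div_iff₀ hc]
    linarith [norm_le_add_norm_add (∑ x ∈ univ.filter (fun x : ι × ι => μ x.1 = μ x.2 + ν),
      om (η + 2 * π * ((μ x.2 : ℤ) - μ x.1 + ν : ℤ)) * S x)
      (∑ x ∈ univ.filter (fun x : ι × ι => ¬ μ x.1 = μ x.2 + ν),
      om (η + 2 * π * ((μ x.2 : ℤ) - μ x.1 + ν : ℤ)) * S x)]
  have := norm_sub_norm_le (∑ k ∈ range P, X k)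
    (∫ u in N..cc N lam P, g (idx N lam u) * E t u * ww N lam P θ μ u)
  rw [norm_sub_rev] at this
  linarith

end Pool.Agent.Lib.MP_a93a41_nt.Bar
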