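import Pool.Agent.Lib.MP_a93a41_nt.Bar6

open Finset Complex MeasureTheory

namespace Pool.Agent.Lib.MP_a93a41_nt.Bar

theorem exists_nonpos' {f w : ℝ → ℝ} {a b : ℝ} (hab : a ≤ b) (hw : ∀ u, 0 ≤ w u)
    (h1 : ∫ u in a..b, w u = 1) (hf : IntervalIntegrable (fun u => f u * w u) volume a b)
    (h : ∫ u in a..b, f u * w u = 0) : ∃ u, a ≤ u ∧ u ≤ b ∧ f u ≤ 0 := by
  by_contra! hc
  have hm : ∀ᵐ u ∂volume.restrict (Set.Ioc a b), u ∈ Set.Ioc a b := ae_restrict_mem measurableSet_Ioc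
  rw [intervalIntegral.integral_eq_zero_iff_of_le_of_nonneg_ae hab
    (hm.mono fun u hu => mul_nonneg (hc u hu.1.le hu.2).le (hw u)) hf] at h
  have : w =ᵐ[volume.restrict (Set.Ioc a b)] 0 := by
    filter_upwards [hm, h] with u hu h0
    exact (mul_eq_zero.1 h0).resolve_left (hc u hu.1.le hu.2).ne'
  rw [intervalIntegral.integral_of_le hab, integral_congr_ae this] at h1
  simp at h1

theorem select_real' {ι : Type} (J : Finset ι) (g : ι → ℕ → ℝ → ℝ) (D : ℕ → ℝ → Prop)
    (hb : ∀ j n u, |g j n u| ≤ 2) (lam : ℝ) (h0 : 0 ≤ lam) (h1 : lam ≤ 1 / 2) (S : Finset ℕ)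
    (hz : ∀ n ∈ S, ∀ w : ι → ℝ, ∃ u, D n u ∧ ∑ j ∈ J, w j * g j n u ≤ 0) :
    ∃ U : ℕ → ℝ, (∀ n ∈ S, D n (U n)) ∧
      ∑ j ∈ J, Real.exp (lam * ∑ n ∈ S, g j n (U n)) ≤ #J * Real.exp (4 * lam ^ 2 * #S) := by
  induction S using Finset.induction_on with
  | empty => exact ⟨fun n => n, by simp, by simp⟩
  | insert a S ha ih =>
    obtain ⟨U, hU, h⟩ := ih fun n hn => hz n (mem_insert_of_mem hn)
    set w : ι → ℝ := fun j => Real.exp (lam * ∑ n ∈ S, g j n (U n)) with hw
    obtain ⟨u, u1, u3⟩ := hz a (mem_insert_self _ _) w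
    refine ⟨Function.update U a u, fun n hn => ?_, ?_⟩
    · rcases eq_or_ne n a with rfl | hn'
      · simpa using u1
      · simpa [hn'] using hU n ((mem_insert.1 hn).resolve_left hn')
    · have e : ∀ j, ∑ n ∈ insert a S, g j n (Function.update U a u n) =
          g j a u + ∑ n ∈ S, g j n (U n) := by
        intro j
        rw [sum_insert ha, Function.update_self]
        congr 1
        exact Finset.sum_congr rfl fun n hn => by
          rw [Function.update_of_ne (ne_of_mem_of_not_mem hn ha)]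
      simp only [e, mul_add, Real.exp_add, card_insert_of_notMem ha, Nat.cast_add, Nat.cast_one, mul_one]
      calc _ ≤ ∑ j ∈ J, ((1 + 4 * lam ^ 2) * w j + lam * (w j * g j a u)) := by
            refine Finset.sum_le_sum fun j _ => ?_
            have b := hb j a u
            have b1 : |lam * g j a u| ≤ 1 := by
              rw [abs_mul, abs_of_nonneg h0]; nlinarith [abs_nonneg (g j a u)]
            have b2 := (abs_le.1 (Real.abs_exp_sub_one_sub_id_le b1)).2
            have b3 : (g j a u) ^ 2 ≤ 2 ^ 2 := by rw [← sq_abs]; gcongr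
            have b4 : Real.exp (lam * g j a u) ≤ 1 + 4 * lam ^ 2 + lam * g j a u := by nlinarith
            have : 0 ≤ w j := (Real.exp_pos _).le
            calc _ ≤ (1 + 4 * lam ^ 2 + lam * g j a u) * w j := by gcongr
              _ = _ := by ring
        _ = (1 + 4 * lam ^ 2) * ∑ j ∈ J, w j + lam * ∑ j ∈ J, w j * g j a u := by
            rw [Finset.sum_add_distrib, Finset.mul_sum, Finset.mul_sum]
        _ ≤ Real.exp (4 * lam ^ 2) * (#J * Real.exp (4 * lam ^ 2 * #S)) + 0 := by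
            gcongr
            · linarith [Real.add_one_le_exp (4 * lam ^ 2)]
            · exact mul_nonpos_of_nonneg_of_nonpos h0 u3
        _ = _ := by ring

variable {w : ℝ → ℝ} {C : ℝ}

theorem iint_fw (hm : Measurable w) (hw : ∀ u, 0 ≤ w u ∧ w u ≤ C) {f : ℝ → ℂ} (hf : Measurable f)
    (h1 : ∀ u, ‖f u‖ ≤ 1) (a b : ℝ) : IntervalIntegrable (fun u => f u * w u) volume a b :=
  iint (f := fun u => f u * w u) (hf.mul (Complex.measurable_ofReal.comp hm)) C (fun u => by
    obtain ⟨c, d⟩ := hw u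
    rw [norm_mul, Complex.norm_real, Real.norm_eq_abs, abs_of_nonneg c]
    nlinarith [h1 u, norm_nonneg (f u)]) a b

theorem iint_w' (hm : Measurable w) (hw : ∀ u, 0 ≤ w u ∧ w u ≤ C) (a b : ℝ) :
    IntervalIntegrable w volume a b :=
  iint hm C (fun u => by rw [Real.norm_eq_abs, abs_of_nonneg (hw u).1]; exact (hw u).2) a b

theorem norm_fw (hm : Measurable w) (hw : ∀ u, 0 ≤ w u ∧ w u ≤ C) {f : ℝ → ℂ} {a b c : ℝ} (hc : 0 ≤ c)
    (h1 : ∀ u ∈ Set.uIoc a b, ‖f u‖ ≤ c) : ‖∫ u in a..b, f u * w u‖ ≤ c * |∫ u in a..b, w u| := by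
  refine (intervalIntegral.norm_integral_le_abs_of_norm_le (g := fun u => c * w u)
    ((ae_restrict_mem measurableSet_uIoc).mono fun u hu => ?_) ((iint_w' hm hw a b).const_mul c)).trans ?_
  · rw [norm_mul, Complex.norm_real, Real.norm_eq_abs, abs_of_nonneg (hw u).1]
    exact mul_le_mul_of_nonneg_right (h1 u hu) (hw u).1
  · rw [intervalIntegral.integral_const_mul, abs_mul, abs_of_nonneg hc]

theorem select' (hm : Measurable w) (hw : ∀ u, 0 ≤ w u ∧ w u ≤ C) {ι : Type} (J : Finset ι)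
    (f : ι → ℕ → ℝ → ℂ) (hf : ∀ j n, Measurable (f j n)) (hb : ∀ j n u, ‖f j n u‖ ≤ 1) (S : Finset ℕ)
    (hS : S.Nonempty) (α : ℕ → ℝ) (hα : ∀ n ∈ S, α n ≤ α (n + 1) ∧ ∫ u in α n..α (n + 1), w u = 1) :
    ∃ U : ℕ → ℝ, (∀ n ∈ S, α n ≤ U n ∧ U n ≤ α (n + 1)) ∧ ∀ j ∈ J,
      ‖∑ n ∈ S, (f j n (U n) - ∫ u in α n..α (n + 1), f j n u * w u)‖ ≤
        4 * √(#S) * (1 + Real.log (4 * #J)) := by
  classical
  have hS1 : (1:ℝ) ≤ #S := by exact_mod_cast hS.card_pos
  have hq : 1 ≤ √(#S : ℝ) := Real.one_le_sqrt.2 hS1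
  let m : ι → ℕ → ℂ := fun j n => if n ∈ S then ∫ u in α n..α (n + 1), f j n u * w u else 0
  have hI : ∀ j n, ‖m j n‖ ≤ 1 := fun j n => by
    simp only [m]; split_ifs with h
    · simpa [(hα n h).2] using norm_fw hm hw (a := α n) (b := α (n + 1)) zero_le_one fun u _ => hb j n u
    · simp
  let g : ι × Fin 4 → ℕ → ℝ → ℝ := fun j n u => (I ^ (j.2 : ℕ) * (f j.1 n u - m j.1 n)).re
  have hg : ∀ j n u, |g j n u| ≤ 2 := fun j n u => by
    refine (Complex.abs_re_le_norm _).trans ?_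
    rw [norm_mul, norm_pow, norm_I, one_pow, one_mul]
    linarith [norm_sub_le (f j.1 n u) (m j.1 n), hb j.1 n u, hI j.1 n]
  have hgi : ∀ j n a b, IntervalIntegrable (fun u => g j n u * w u) volume a b := fun j n =>
    iint (f := fun u => g j n u * w u) (Measurable.mul (by have := hf j.1 n; fun_prop) hm) (2 * C) fun u => by
      rw [norm_mul, Real.norm_eq_abs, Real.norm_eq_abs, abs_of_nonneg (hw u).1]
      exact mul_le_mul (hg j n u) (hw u).2 (hw u).1 zero_le_two
  obtain ⟨U, hU, h⟩ := select_real' (J ×ˢ (univ : Finset (Fin 4))) g (fun n u => α n ≤ u ∧ u ≤ α (n + 1))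
    hg (1 / (2 * √(#S))) (by positivity) (by gcongr; linarith) S (fun n hn wt => by
      obtain ⟨u, u1, u2, u3⟩ := exists_nonpos' (f := fun u => ∑ j ∈ J ×ˢ univ, wt j * g j n u) (hα n hn).1
        (fun u => (hw u).1) (hα n hn).2 (by
          simpa only [Finset.sum_fn, Finset.sum_mul, mul_assoc] using
            IntervalIntegrable.sum (J ×ˢ univ) fun j _ => (hgi j n _ _).const_mul (wt j)) (by
          simp only [Finset.sum_mul, mul_assoc]
          rw [intervalIntegral.integral_finsetSum fun j _ => (hgi j n _ _).const_mul (wt j)]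
          refine Finset.sum_eq_zero fun j _ => ?_
          rw [intervalIntegral.integral_const_mul]
          refine mul_eq_zero_of_right _ ?_
          have i := iint_fw hm hw (hf j.1 n) (hb j.1 n) (α n) (α (n + 1))
          have i2 := iint_fw hm hw (f := fun _ => m j.1 n) measurable_const (fun _ => hI j.1 n)
            (α n) (α (n + 1))
          have := intervalIntegral.intervalIntegral_re ((i.sub i2).const_mul (I ^ (j.2 : ℕ)))
          rw [intervalIntegral.integral_const_mul, intervalIntegral.integral_sub i i2,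
            intervalIntegral.integral_const_mul, intervalIntegral.integral_ofReal, (hα n hn).2] at this
          simp only [m, if_pos hn, ofReal_one, mul_one, sub_self, mul_zero, map_zero] at this
          refine Eq.trans ?_ this
          congr 1; funext u
          simp only [g, m, if_pos hn, RCLike.re_to_complex, ← sub_mul, ← mul_assoc, mul_re (_ * _),
            ofReal_re, ofReal_im, mul_zero, sub_zero])
      exact ⟨u, ⟨u1, u2⟩, u3⟩)
  refine ⟨U, hU, fun j hj => ?_⟩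
  have hJ : 0 < #J := card_pos.2 ⟨j, hj⟩
  rw [Finset.sum_congr rfl (g := fun n => f j n (U n) - m j n) fun n hn => by simp only [m, if_pos hn]]
  set z := ∑ n ∈ S, (f j n (U n) - m j n) with hz
  have key : ∀ k : Fin 4, (I ^ (k:ℕ) * z).re ≤ 2 * √(#S) * (1 + Real.log (4 * #J)) := by
    intro k
    have := (Finset.single_le_sum (f := fun j : ι × Fin 4 => Real.exp (1 / (2 * √(#S)) * ∑ n ∈ S, g j n (U n)))
      (fun _ _ => (Real.exp_pos _).le) (mem_product.2 ⟨hj, mem_univ k⟩ : (j, k) ∈ _)).trans h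
    simp only [g, ← Complex.re_sum, ← Finset.mul_sum, ← hz, card_product, card_univ, Fintype.card_fin] at this
    have e : 4 * (1 / (2 * √(#S : ℝ))) ^ 2 * #S = 1 := by
      field_simp; rw [Real.sq_sqrt (by positivity)]; norm_num
    rw [e, ← Real.le_log_iff_exp_le (by positivity), Real.log_mul (by positivity) (by positivity),
      Real.log_exp, one_div_mul_eq_div, div_le_iff₀ (by positivity)] at this
    push_cast at this
    rw [mul_comm (#J : ℝ)] at this
    linarith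
  have k0 := key 0
  have k1 := key 1
  have k2 := key 2
  have k3 := key 3
  simp [pow_succ] at k0 k1 k2 k3
  have := Complex.norm_le_abs_re_add_abs_im z
  have a : |z.re| ≤ 2 * √(#S) * (1 + Real.log (4 * #J)) := abs_le.2 ⟨by linarith, by linarith⟩
  have b : |z.im| ≤ 2 * √(#S) * (1 + Real.log (4 * #J)) := abs_le.2 ⟨by linarith, by linarith⟩
  linarith

theorem exists_alpha (hm : Measurable w) (hw : ∀ u, 0 ≤ w u ∧ w u ≤ C) (N : ℕ)
    (hc : ∀ M : ℝ, N ≤ M → |(∫ u in (N:ℝ)..M, w u) - (M - N)| ≤ 1 / 2) :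
    ∃ α : ℕ → ℝ, ∀ n, N ≤ n → (N:ℝ) ≤ α n ∧ ∫ u in (N:ℝ)..α n, w u = n - N := by
  have : ∀ n : ℕ, ∃ a : ℝ, N ≤ n → (N:ℝ) ≤ a ∧ ∫ u in (N:ℝ)..a, w u = n - N := by
    intro n
    by_cases h : N ≤ n
    · have h' : (N:ℝ) ≤ n := by exact_mod_cast h
      have := intermediate_value_Icc (show (N:ℝ) ≤ n + 1 by linarith)
        (intervalIntegral.continuous_primitive (iint_w' hm hw) N).continuousOn
      obtain ⟨a, ha, e⟩ := this (show (n:ℝ) - N ∈ _ from ⟨by simpa using h', by
        linarith [(abs_le.1 (hc (n + 1) (by linarith))).1]⟩)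
      exact ⟨a, fun _ => ⟨ha.1, e⟩⟩
    · exact ⟨0, fun h' => absurd h' h⟩
  choose α h using this
  exact ⟨α, h⟩

theorem log_card {J m : ℕ} (h0 : 0 < J) (hJ : J ≤ 2 ^ (5 + m * (m + 3))) :
    1 + Real.log (4 * J) ≤ 8 * (m + 1) ^ 2 := by
  have hJ' : (4 * J : ℝ) ≤ 2 ^ (7 + m * (m + 3)) := by
    have : (J : ℝ) ≤ 2 ^ (5 + m * (m + 3)) := by exact_mod_cast hJ
    calc _ ≤ 4 * (2:ℝ) ^ (5 + m * (m + 3)) := by gcongr
      _ = _ := by ring
  have l1 := Real.log_le_log (by positivity) hJ'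
  rw [Real.log_pow] at l1
  have l2 : Real.log 2 ≤ 1 := by linarith [Real.log_two_lt_d9]
  have l3 : Real.log (4 * J) ≤ 7 + m * (m + 3) := by
    refine l1.trans ?_
    push_cast
    exact mul_le_of_le_one_right (by positivity) l2
  nlinarith [Nat.cast_nonneg (α := ℝ) m]

theorem block_sel' (hm : Measurable w) (hw : ∀ u, 0 ≤ w u ∧ w u ≤ C) (m : ℕ) (A : ℝ → ℂ)
    (hA : Measurable A) (hA1 : ∀ u, ‖A u‖ ≤ 1)
    (hc : ∀ M : ℝ, (2 ^ m : ℕ) ≤ M → |(∫ u in ((2 ^ m : ℕ) : ℝ)..M, w u) - (M - (2 ^ m : ℕ))| ≤ 1 / 2)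
    (S : Finset ℝ) (hS : #S ≤ 2 * (2 ^ m) ^ 2) :
    ∃ U : ℕ → ℝ, (∀ n, 2 ^ m ≤ n → n < 2 * 2 ^ m → 1 ≤ U n ∧ |U n - n| ≤ 2) ∧
      (∀ M, 2 ^ m ≤ M → M ≤ 2 * 2 ^ m → ∀ t : ℝ, |t| ≤ ((2 ^ m : ℕ) : ℝ) ^ m →
        ‖∑ n ∈ Ico (2 ^ m) M, E t (U n) - ∫ u in (2 ^ m : ℕ)..M, E t u * w u‖ ≤
          41 * (m + 1) ^ 2 * √(2 ^ m : ℕ)) ∧
      ∀ t ∈ S, ‖∑ n ∈ Ico (2 ^ m) (2 * 2 ^ m), A (U n) * E t (U n) -
        ∫ u in (2 ^ m : ℕ)..(2 * 2 ^ m : ℕ), A u * E t u * w u‖ ≤ 41 * (m + 1) ^ 2 * √(2 ^ m : ℕ) := by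
  classical
  obtain ⟨α, hα⟩ := exists_alpha hm hw _ hc
  set N := 2 ^ m with hN
  have hN1 : 1 ≤ N := Nat.one_le_two_pow
  have hN1' : (1:ℝ) ≤ N := by exact_mod_cast hN1
  have hq : 1 ≤ √(N : ℝ) := Real.one_le_sqrt.2 hN1'
  have iw := iint_w' hm hw
  have hα1 : ∀ n, N ≤ n → |α n - n| ≤ 1 / 2 := fun n h => by
    have := hc _ (hα n h).1
    rw [(hα n h).2, abs_sub_comm] at this
    convert this using 2; ring
  have hα2 : ∀ n, N ≤ n → α n ≤ α (n + 1) ∧ ∫ u in α n..α (n + 1), w u = 1 := fun n h => by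
    have a := abs_le.1 (hα1 n h)
    have b := abs_le.1 (hα1 (n + 1) (by omega))
    push_cast at b
    refine ⟨by linarith, ?_⟩
    rw [← intervalIntegral.integral_interval_sub_left (iw N _) (iw N _), (hα n h).2,
      (hα (n + 1) (by omega)).2]
    push_cast; ring
  let G : Finset ℝ := (Icc (-(N ^ (m + 2) + 1 : ℕ) : ℤ) (N ^ (m + 2) + 1 : ℕ)).image fun j : ℤ => (j:ℝ) / N ^ 2
  let J : Finset (Bool × ℕ × ℝ) := univ ×ˢ Icc N (2 * N) ×ˢ (G ∪ S)
  let f : Bool × ℕ × ℝ → ℕ → ℝ → ℂ := fun j n u =>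
    if n < j.2.1 then (if j.1 then A u else 1) * E j.2.2 u else 0
  have m1 : ∀ (c : Bool) t, Measurable fun u => (if c then A u else 1) * E t u := fun c t => by
    refine Measurable.mul ?_ (meas_E t measurable_id')
    cases c <;> simp [hA]
  have b1 : ∀ (c : Bool) t u, ‖(if c then A u else 1) * E t u‖ ≤ 1 := fun c t u => by
    rw [norm_mul, norm_E, mul_one]
    cases c <;> simp [hA1]
  obtain ⟨U, hU, h⟩ := select' hm hw J f (fun j n => by
    simp only [f]; split_ifs <;> first | exact m1 true _ | exact m1 false _ | simp)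
    (fun j n u => by
      simp only [f]
      by_cases h : n < j.2.1
      · rw [if_pos h]; exact b1 _ _ _
      · simp [h]) (Ico N (2 * N)) ⟨N, by simp; omega⟩ α fun n hn => hα2 n (mem_Ico.1 hn).1
  have hU2 : ∀ n, N ≤ n → n < 2 * N → (N:ℝ) ≤ U n ∧ |U n - n| ≤ 2 := fun n a b => by
    obtain ⟨c, d⟩ := hU n (mem_Ico.2 ⟨a, b⟩)
    have e := abs_le.1 (hα1 n a)
    have f := abs_le.1 (hα1 (n + 1) (by omega))
    push_cast at f
    exact ⟨(hα n a).1.trans c, abs_le.2 ⟨by linarith, by linarith⟩⟩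
  have hJ : #J ≤ 2 ^ (5 + m * (m + 3)) := by
    have a : #G ≤ 5 * N ^ (m + 2) := by
      refine Finset.card_image_le.trans ?_
      rw [Int.card_Icc]
      have : 1 ≤ N ^ (m + 2) := Nat.one_le_pow _ _ hN1
      omega
    have a2 : N ^ 2 ≤ N ^ (m + 2) := Nat.pow_le_pow_right hN1 (by omega)
    have a3 := Finset.card_union_le G S
    calc #J = 2 * ((N + 1) * #(G ∪ S)) := by
          simp only [J, card_product, card_univ, Fintype.card_bool, Nat.card_Icc]
          congr 2; omega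
      _ ≤ 2 * ((2 * N) * (8 * N ^ (m + 2))) := by gcongr <;> omega
      _ = _ := by rw [hN, ← pow_mul]; ring
  have hm1 : (1:ℝ) ≤ (m + 1) ^ 2 * √N := by
    have : (1:ℝ) ≤ (m + 1) ^ 2 := by nlinarith [Nat.cast_nonneg (α := ℝ) m]
    nlinarith
  have key : ∀ (c : Bool) M, N ≤ M → M ≤ 2 * N → ∀ t ∈ G ∪ S,
      ‖∑ n ∈ Ico N M, (if c then A (U n) else 1) * E t (U n) -
        ∫ u in (N:ℝ)..M, (if c then A u else 1) * E t u * w u‖ ≤ 33 * (m + 1) ^ 2 * √N := by
    intro c M h1 h2 t ht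
    have hj : (c, M, t) ∈ J := by simp only [J, mem_product, mem_univ, mem_Icc]; tauto
    have := h _ hj
    have e : ∑ n ∈ Ico N (2 * N), (f (c, M, t) n (U n) - ∫ u in α n..α (n + 1), f (c, M, t) n u * w u) =
        ∑ n ∈ Ico N M, ((if c then A (U n) else 1) * E t (U n) -
          ∫ u in α n..α (n + 1), (if c then A u else 1) * E t u * w u) := by
      rw [← Finset.sum_subset (Finset.Ico_subset_Ico_right h2) fun n h3 h4 => ?_]
      · exact Finset.sum_congr rfl fun n hn => by simp only [f, if_pos (mem_Ico.1 hn).2]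
      · have : ¬ n < M := by simp only [mem_Ico] at h3 h4; omega
        simp [f, this]
    have i := iint_fw hm hw (m1 c t) (b1 c t)
    rw [e, Finset.sum_sub_distrib, intervalIntegral.sum_integral_adjacent_intervals_Ico h1
      fun k _ => i _ _] at this
    have e1 := norm_fw hm hw (a := N) (b := α N) zero_le_one fun u _ => b1 c t u
    have e2 := norm_fw hm hw (a := α M) (b := M) zero_le_one fun u _ => b1 c t u
    rw [(hα N le_rfl).2, sub_self, abs_zero, mul_zero, norm_le_zero_iff] at e1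
    rw [← intervalIntegral.integral_interval_sub_left (iw N _) (iw N _), (hα M h1).2, one_mul] at e2
    have e3 := e2.trans (hc M (by exact_mod_cast h1))
    rw [← intervalIntegral.integral_add_adjacent_intervals (i N (α N)) (i _ _), e1, zero_add,
      ← intervalIntegral.integral_add_adjacent_intervals (i _ (α M)) (i _ _), ← sub_sub]
    refine (norm_sub_le _ _).trans ((add_le_add this e3).trans ?_)
    rw [Nat.card_Ico, show 2 * N - N = N by omega]
    have := log_card (card_pos.2 ⟨_, hj⟩) hJ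
    have : 4 * √N * (1 + Real.log (4 * #J)) ≤ 4 * √N * (8 * (m + 1) ^ 2) := by gcongr
    linarith
  refine ⟨U, fun n a b => ⟨hN1'.trans (hU2 n a b).1, (hU2 n a b).2⟩, fun M h1 h2 t ht => ?_, fun t ht => ?_⟩
  · set t' : ℝ := ⌊t * N ^ 2⌋ / N ^ 2 with ht'
    have g1 : t' ∈ G := by
      refine mem_image.2 ⟨⌊t * N ^ 2⌋, mem_Icc.2 ?_, rfl⟩
      obtain ⟨a, b⟩ := abs_le.1 ht
      have c : (0:ℝ) < N ^ 2 := by positivity
      constructor
      · rw [Int.le_floor]; push_cast; rw [pow_add]; nlinarith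
      · rw [Int.floor_le_iff]; push_cast; rw [pow_add]; nlinarith
    have g2 : |t - t'| ≤ 1 / N ^ 2 := by
      have : t - t' = (t * N ^ 2 - ⌊t * N ^ 2⌋) / N ^ 2 := by rw [ht']; field_simp
      rw [this, abs_div, abs_of_pos (show (0:ℝ) < N ^ 2 by positivity)]
      gcongr
      rw [abs_le]; constructor <;> linarith [Int.floor_le (t * N ^ 2), Int.lt_floor_add_one (t * N ^ 2)]
    have g3 : ∀ u : ℝ, N ≤ u → u ≤ 2 * N + 1 → ‖E t u - E t' u‖ ≤ 3 / N := by
      intro u u1 u2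
      refine (expI_lip _ _).trans ?_
      have c := Real.log_nonneg (hN1'.trans u1)
      have d := Real.log_le_self (x := u) (by linarith)
      rw [← sub_mul, abs_mul, abs_of_nonneg c]
      calc _ ≤ 1 / N ^ 2 * (3 * N : ℝ) := by gcongr; linarith
        _ = _ := by field_simp
    have k := key false M h1 h2 t' (mem_union_left _ g1)
    simp only [Bool.false_eq_true, if_false, one_mul] at k
    have M1 : (N:ℝ) ≤ M := by exact_mod_cast h1
    have M2 : (M:ℝ) ≤ 2 * N := by exact_mod_cast h2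
    have s1 : ‖∑ n ∈ Ico N M, (E t (U n) - E t' (U n))‖ ≤ 3 := by
      refine (norm_sum_le_of_le _ (n := fun _ => 3 / (N:ℝ)) fun n hn => ?_).trans ?_
      · obtain ⟨a, b⟩ := mem_Ico.1 hn
        have b' : (n:ℝ) + 1 ≤ M := by exact_mod_cast b
        obtain ⟨c, d⟩ := hU2 n a (by omega)
        exact g3 _ c (by linarith [(abs_le.1 d).2])
      · rw [sum_const, Nat.card_Ico, nsmul_eq_mul, Nat.cast_sub h1, mul_div_assoc', div_le_iff₀ (by positivity)]
        linarith
    have s2 : ‖∫ u in (N:ℝ)..M, (E t u - E t' u) * w u‖ ≤ 5 := by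
      refine (norm_fw hm hw (c := 3 / N) (by positivity) fun u hu => ?_).trans ?_
      · rw [Set.uIoc_of_le M1] at hu
        exact g3 u hu.1.le (by linarith [hu.2])
      · have := abs_le.1 (hc M M1)
        rw [div_mul_eq_mul_div, div_le_iff₀ (by positivity)]
        have : |∫ u in (N:ℝ)..M, w u| ≤ N + 1 / 2 := abs_le.2 ⟨by linarith, by linarith⟩
        linarith
    have i := fun t => iint_fw hm hw (meas_E t measurable_id') (fun u => (norm_E t u).le) N M
    rw [Finset.sum_sub_distrib] at s1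
    simp only [sub_mul] at s2
    rw [intervalIntegral.integral_sub (i t) (i t')] at s2
    generalize ∑ n ∈ Ico N M, E t (U n) = a at *
    generalize ∑ n ∈ Ico N M, E t' (U n) = b at *
    generalize ∫ u in (N:ℝ)..M, E t u * w u = c at *
    generalize ∫ u in (N:ℝ)..M, E t' u * w u = d at *
    calc _ = ‖(b - d) + ((a - b) - (c - d))‖ := by congr 1; ring
      _ ≤ 33 * (m + 1) ^ 2 * √N + (3 + 5) := (norm_add_le _ _).trans (by
          gcongr
          exact (norm_sub_le _ _).trans (add_le_add s1 s2))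
      _ ≤ _ := by linarith
  · have k := key true (2 * N) (by omega) le_rfl t (mem_union_right _ ht)
    simp only [if_true] at k
    linarith

end Pool.Agent.Lib.MP_a93a41_nt.Bar
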