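import Pool.Agent.Lib.MP_a93a41_nt.Bar8
import Pool.Agent.Lib.MP_a93a41_nt.Oct3
import Pool.Agent.Lib.MP_a93a41_nt.Oct5
import Pool.Agent.Lib.MP_a93a41_nt.Oct6

open Finset Complex MeasureTheory Filter
open scoped Real

namespace Pool.Agent.Lib.MP_a93a41_nt.Bar

theorem transfer2 {ι : Type} [Fintype ι] [Nonempty ι] [DecidableEq ι] (m P : ℕ) (θ : ι → ℕ → ℂ)
    (μ : ι → ℕ) (b : ℕ → ℂ) (R : Finset ℕ) (L B1 B2 B3 q η : ℝ) (hL : 2 ≤ L) (hP : 0 < P)
    (hδ : (2 ^ m : ℕ) * (1 / (L * P)) ≤ 1 / 8) (hμ : Function.Injective μ) (hθ : ∀ a k, ‖θ a k‖ = 1)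
    (hb : ∀ k, ‖b k‖ ≤ 1) (hB1 : 0 ≤ B1) (hB2 : 0 ≤ B2) (hη : η ≤ 1 / 2)
    (h1 : ∀ a a', a ≠ a' → ∀ K ≤ P, ∀ s : ℂ, 0 ≤ s.re → s.re * P ≤ 1 →
      ‖∑ k ∈ range K, θ a k * (starRingEnd ℂ) (θ a' k) * exp (s * k)‖ ≤ B1)
    (h3 : ∀ a a', ∀ s : ℂ, 0 ≤ s.re → s.re * P ≤ 1 →
      ‖∑ k ∈ range P, b k * (θ a k * (starRingEnd ℂ) (θ a' k)) * exp (s * k)‖ ≤ B3)
    (hR : ∀ n ∈ R, n ≤ (2 ^ m) ^ 2 ∧ ∃ ν r : ℕ, n = P * ν + r ∧ 2 * π * r / P ≤ η ∧
      q * Fintype.card ι ≤ #(univ.filter fun x : ι × ι => μ x.1 = μ x.2 + ν) ∧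
      ∃ Z : ℂ, B2 ≤ ‖Z‖ ∧ ∀ a a', μ a = μ a' + ν → ∑ k ∈ range P, b k * (θ a k * (starRingEnd ℂ) (θ a' k)) *
        exp (((1 / (L * P) : ℝ) + 2 * π * I * r / P) * k) = Z) :
    ∃ z, Near m z ∧ Good m z (41 * (m + 1) ^ 2 * √(2 ^ m : ℕ) +
      (2 + (2 ^ m : ℕ) * (1 / (L * P)) * ((4 + 2 * Real.log (Fintype.card ι)) * B1))) ∧
      ∃ a : ℕ → ℂ, (∀ n, ‖a n‖ ≤ 1) ∧ ∀ n ∈ R, (2 ^ m : ℕ) * (1 / (L * P)) *
        (q * B2 / 2 - η * (3 + 2 * Real.log (Fintype.card ι)) * B3) - 1 -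
        41 * (m + 1) ^ 2 * √(2 ^ m : ℕ) ≤ ‖∑ j ∈ Ico (2 ^ m) (2 * 2 ^ m), a j * E (2 * π * L * n) (z j)‖ := by
  classical
  have hN : (0:ℝ) < (2 ^ m : ℕ) := by positivity
  have hP' : (0:ℝ) < P := by exact_mod_cast hP
  have hL0 : 0 < L := by linarith
  set lam : ℝ := 1 / (L * P) with hlam
  have hl : 0 < lam := by positivity
  have hlQ : lam * P ≤ 1 / 2 := by
    rw [hlam, div_mul_eq_mul_div, one_mul, div_le_div_iff₀ (by positivity) two_pos]; nlinarith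
  set N : ℝ := ((2 ^ m : ℕ) : ℝ) with hNdef
  let g : ℕ → ℂ := fun k => if k < P then b k else 0
  have hg : ∀ k, ‖g k‖ ≤ 1 := fun k => by
    simp only [g]; split_ifs
    · exact hb k
    · simp
  obtain ⟨U, hU, k1, k2⟩ := block_sel' (meas_ww (N := N) (lam := lam) (P := P) (θ := θ) (μ := μ))
    (ww_bd hN hl hθ) m (fun u => g (idx N lam u)) ((Measurable.of_discrete (f := g)).comp meas_idx)
    (fun u => hg _) (close hN hl hθ hμ hlQ hδ) (R.image fun n : ℕ => 2 * π * L * n) (by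
      refine Finset.card_image_le.trans ?_
      have : R ⊆ range ((2 ^ m) ^ 2 + 1) := fun r hr => mem_range.2 (Nat.lt_succ_of_le (hR r hr).1)
      have := Finset.card_le_card this
      rw [card_range] at this
      have : 0 < (2 ^ m) ^ 2 := by positivity
      omega)
  refine ⟨U, hU, fun M a b t ht => ?_, fun n => g (idx N lam (U n)), fun n => hg _, fun n hn => ?_⟩
  · exact (norm_sub_le_norm_sub_add_norm_sub _ _ _).trans (add_le_add (k1 M a b t ht)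
      (dens_LH hN hl hθ hμ hlQ hδ B1 hB1 h1 M (by rw [hNdef]; exact_mod_cast a) t))
  · obtain ⟨-, ν, r, r1, r2, r3, Z, r4, r5⟩ := hR n hn
    have k3 := k2 _ (mem_image_of_mem _ hn)
    have e : 2 * π * L * n * lam = 2 * π * r / P + 2 * π * ν := by
      rw [r1, hlam]; push_cast; field_simp; ring
    have r0 : 0 ≤ 2 * π * r / P := by positivity
    have u3 := fun a a' => h3 a a' (lam + I * (2 * π * L * n : ℝ) * lam) (by simpa using hl.le)
      (by simp; linarith)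
    have k4 := dens_LV hN hl hθ hμ hlQ hδ b hb (2 * π * L * n) _ B2 B3 q ν e
      (by rw [abs_of_nonneg r0]; linarith) Z r4 hB2 r3 (fun a a' h => by
        rw [← r5 a a' h]
        refine Finset.sum_congr rfl fun k _ => ?_
        rw [← mul_one (exp ((lam + 2 * π * I * r / P) * k)), ← Complex.exp_int_mul_two_pi_mul_I (ν * k),
          ← Complex.exp_add, mul_assoc I, ← Complex.ofReal_mul, e]
        congr 2; push_cast; ring) u3
    rw [Nat.cast_mul, Nat.cast_ofNat, norm_sub_rev] at k3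
    have := norm_sub_norm_le (∫ u in N..2 * N, g (idx N lam u) * E (2 * π * L * n) u * ww N lam P θ μ u)
      (∑ j ∈ Ico (2 ^ m) (2 * 2 ^ m), g (idx N lam (U j)) * E (2 * π * L * n) (U j))
    change _ ≤ ‖∫ u in N..2 * N, g (idx N lam u) * E (2 * π * L * n) u * ww N lam P θ μ u‖ at k4
    rw [abs_of_nonneg r0] at k4
    have hB3 : 0 ≤ B3 := (norm_nonneg _).trans (u3 (Classical.arbitrary ι) (Classical.arbitrary ι))
    have : N * lam * (q * B2 / 2 - η * (3 + 2 * Real.log (Fintype.card ι)) * B3) ≤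
        N * lam * (q * B2 / 2 - 2 * π * r / P * (3 + 2 * Real.log (Fintype.card ι)) * B3) := by
      have := Real.log_natCast_nonneg (Fintype.card ι)
      gcongr
    linarith

theorem num_B {Y w L p : ℝ} {c : ℕ} (hc : 2 ≤ c) (hw : 448 ≤ w) (hcw : 64 * c < w) (hY : w ≤ Y)
    (hYp : Y ^ 2 ≤ 4 * p) (hLw : L ≤ w) : ∃ B : ℕ, 0 < B ∧ Y / w ≤ B ∧
      c * (2 * (B:ℝ)) ^ 2 < p ∧ 7 * L * (4 * (B:ℝ)) ^ c ≤ Y ^ c := by
  have hw0 : 0 < w := by linarith
  have h1 : 1 ≤ Y / w := (one_le_div hw0).2 hY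
  have h2 : ((⌊Y / w⌋₊ + 1 : ℕ) : ℝ) ≤ 2 * (Y / w) := by
    push_cast; linarith [Nat.floor_le (show 0 ≤ Y / w by linarith)]
  refine ⟨⌊Y / w⌋₊ + 1, by omega, by push_cast; exact (Nat.lt_floor_add_one _).le, ?_, ?_⟩
  · have hp : 0 < p := by nlinarith
    calc _ ≤ c * (2 * (2 * (Y / w))) ^ 2 := by gcongr
      _ = 16 * c * Y ^ 2 / w ^ 2 := by field_simp; ring
      _ ≤ 16 * c * (4 * p) / w ^ 2 := by gcongr
      _ < p := by
        rw [div_lt_iff₀ (by positivity)]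
        have : 64 * c < w ^ 2 := by nlinarith
        nlinarith
  · calc _ ≤ 7 * w * (4 * (2 * (Y / w))) ^ c := by gcongr
      _ = 7 * w / (w / 8) ^ c * Y ^ c := by
        rw [show 4 * (2 * (Y / w)) = Y / (w / 8) by field_simp; ring, div_pow Y]; ring
      _ ≤ 1 * Y ^ c := by
        have : 0 ≤ Y := by linarith
        gcongr
        rw [div_le_one (by positivity)]
        calc _ ≤ (w / 8) ^ 2 := by nlinarith
          _ ≤ _ := by gcongr; linarith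
      _ = _ := one_mul _

theorem num_eta {w η l A g q L : ℝ} {c D : ℕ} (hw : 8 ≤ w) (hη : η ≤ w * (1 / w ^ (D + c + 3)))
    (hl0 : 0 ≤ l) (hl : l ≤ w) (hA0 : 0 ≤ A) (hA : A ≤ w) (hg : 0 ≤ g) (hL : 0 < L) (hLw : L ≤ w)
    (hq : 1 / L ≤ q) :
    1 / w ^ (c + 2) * (g / 4) ≤ q * (1 / 2 ^ c * (g / 2) / 2 - η * l * (A ^ D * g)) := by
  have hw0 : 0 < w := by linarith
  have h2 : (2:ℝ) ^ c ≤ w ^ c := by gcongr; linarith
  have h1 : η * l * (A ^ D * g) ≤ 1 / 2 ^ c * (g / 8) := by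
    calc _ ≤ (w * (1 / w ^ (D + c + 3))) * w * (w ^ D * g) := by gcongr
      _ = 1 / w ^ c * (g / w) := by field_simp; ring
      _ ≤ _ := by gcongr
  calc _ = 1 / w * (1 / w ^ c * (g / (4 * w))) := by field_simp; ring
    _ ≤ 1 / L * (1 / 2 ^ c * (g / 8)) := by gcongr; linarith
    _ ≤ q * (1 / 2 ^ c * (g / 8)) := by gcongr
    _ ≤ _ := by
      have : 0 ≤ q := le_trans (by positivity) hq
      gcongr; linarith

theorem num_card {Y w B x β R : ℝ} {c e : ℕ} (hw : 1 ≤ w) (hcw : (c + 2 : ℕ) + 1 ≤ w) (hY : 0 ≤ Y)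
    (hB : Y / w ≤ B) (hB1 : 1 ≤ B) (hx : 0 ≤ x) (hβ : β = 1 / w ^ e) (hR : 0 ≤ R)
    (h : B ^ (c + 2) * x * β ≤ ((c + 2 : ℕ) * B ^ 2 + 1) * R) : x * Y ^ c / w ^ (c + e + 1) ≤ R := by
  have h1 : ((c + 2 : ℕ) * B ^ 2 + 1) * R ≤ (w * B ^ 2) * R := by
    gcongr; nlinarith
  refine le_of_mul_le_mul_left (le_trans ?_ (h.trans h1)) (by positivity)
  calc _ = (Y / w) ^ c * B ^ 2 * x * β := by rw [hβ, div_pow]; field_simp; ring
    _ ≤ B ^ c * B ^ 2 * x * β := by rw [hβ]; gcongr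
    _ = _ := by ring

theorem num_w {D c m l : ℝ} (hD : 2 ≤ D) (hc : 2 ≤ c) (hm : 0 ≤ m) (hl0 : 0 ≤ l) (hl : l ≤ m) :
    448 ≤ 64 * D * c * (m + 3) ∧ 64 * c < 64 * D * c * (m + 3) ∧
    16 * D * (2 + l) ≤ 64 * D * c * (m + 3) ∧ 4 + 2 * (c * m) ≤ 64 * D * c * (m + 3) ∧
    2 * (2 + D * l) ≤ 64 * D * c * (m + 3) ∧ 1 + 4 * (2 + l) ≤ 64 * D * c * (m + 3) ∧
    7 * D ≤ 64 * D * c * (m + 3) ∧ 2 * m + 1 + 1 ≤ 64 * D * c * (m + 3) ∧ 32 * D ≤ 16 * D * (2 + l) := by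
  have a1 : 2 * (m + 3) ≤ c * (m + 3) := by gcongr
  have a2 : 2 * (c * (m + 3)) ≤ D * (c * (m + 3)) := by gcongr
  have a3 : D * (2 * (m + 3)) ≤ D * (c * (m + 3)) := by gcongr
  have a4 : D * l ≤ D * m := by gcongr
  have a5 : 0 ≤ D * l := by positivity
  have a6 : 0 ≤ c * m := by positivity
  have a7 : 0 ≤ D * m := by positivity
  refine ⟨?_, ?_, ?_, ?_, ?_, ?_, ?_, ?_, ?_⟩ <;> nlinarith

theorem special2 (c d : ℕ) (hc : 2 ≤ c) (hd : 1 ≤ d) (hcd : c ≤ 4 * d)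
    (hHR : ∀ p, HR (ZMod p) (Fin c) (Fin d)) (θ : ℝ) (h0 : 0 < θ) (h1 : θ ≤ c / (4 * d))
    (ε : ℝ) (hε : 0 < ε) (m0 : ℕ) : ∃ m ≥ m0, ∃ z, Near m z ∧
    Good m z (((2 ^ m : ℕ) : ℝ) ^ (1 / 2 + ε)) ∧ Fail (1 + θ) (1 / 2 + (1 - 2 / c) * θ) ε m z := by
  classical
  obtain ⟨e, he⟩ := Nat.exists_eq_add_of_le' hc
  have hc2 : (2:ℝ) ≤ c := by exact_mod_cast hc
  have hc0 : (0:ℝ) < c := by linarith
  have hd0 : (1:ℝ) ≤ d := by exact_mod_cast hd
  have hθ1 : θ ≤ 1 := h1.trans ((div_le_one (by positivity)).2 (by exact_mod_cast hcd))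
  obtain ⟨D, hD⟩ : ∃ D, D = d + d := ⟨_, rfl⟩
  have hD2 : (2:ℝ) ≤ D := by exact_mod_cast (show 2 ≤ D by omega)
  obtain ⟨K, hK⟩ : ∃ K, K = (c + 2) * 5 + (2 * (D + 1) + 5) + (e + (D + c + 3) * D + 1 + 1) := ⟨_, rfl⟩
  obtain ⟨m1, hm1⟩ := poly_le (64 * D * c) K
    (lt_min (lt_min hε (show (0:ℝ) < 1 / 4 by norm_num)) (div_pos h0 hc0))
  obtain ⟨p, m, hp2, hp3, hm2, N1, N2, hlog2⟩ := exists_pm D (by omega) (m0 + m1)
  have : Fact p.Prime := ⟨hp2⟩
  have hw := hm1 m (by omega)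
  clear hm1
  have hp00 := hp2.pos
  have hp0 : (1:ℝ) ≤ p := by exact_mod_cast hp00
  have hlog : 0 ≤ Real.log p := Real.log_nonneg hp0
  have hm0 : (0:ℝ) ≤ m := by positivity
  obtain ⟨w1, w2, w3, w4, w5, w6, w7, w8, w9⟩ := num_w hD2 hc2 hm0 hlog hlog2
  obtain ⟨L, hL⟩ : ∃ L : ℝ, L = 16 * D * (2 + Real.log p) := ⟨_, rfl⟩
  generalize 64 * (D:ℝ) * c * (m + 3) = w at *
  rw [← hL] at w3 w9
  have hL0 : 0 < L := by linarith
  have hw0 : 1 ≤ w := by linarith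
  have hX : ((2 * 2 ^ m : ℕ) : ℝ) = 2 * (2 ^ m : ℕ) := by push_cast; ring
  have hN1 : (1:ℝ) ≤ (2 ^ m : ℕ) := by exact_mod_cast Nat.one_le_two_pow
  have N1' : (p:ℝ) ^ D ≤ (2 ^ m : ℕ) := by exact_mod_cast N1
  have N2' : ((2 ^ m : ℕ) : ℝ) ≤ 2 * p ^ D := by exact_mod_cast N2
  have hwε := hw.trans (Real.rpow_le_rpow_of_exponent_le hN1 ((min_le_left _ _).trans (min_le_left _ _)))
  have hw4 := hw.trans (Real.rpow_le_rpow_of_exponent_le hN1 ((min_le_left _ _).trans (min_le_right _ _)))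
  have hwY := hw.trans (Real.rpow_le_rpow_of_exponent_le hN1 (min_le_right _ _))
  clear hw
  have hY1 : (((2 ^ m : ℕ) : ℝ) ^ (θ / c)) ^ 2 ≤ 4 * p := by
    rw [← Real.rpow_natCast, ← Real.rpow_mul (by positivity)]
    have a : θ / c * (2 : ℕ) ≤ 1 / D := by
      rw [le_div_iff₀ (by positivity)] at h1
      rw [hD, div_mul_eq_mul_div, div_le_div_iff₀ hc0 (by positivity)]; push_cast; linarith
    calc _ ≤ ((2 ^ m : ℕ) : ℝ) ^ (1 / D : ℝ) := Real.rpow_le_rpow_of_exponent_le hN1 a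
      _ ≤ (2 * (2 ^ m : ℕ) : ℝ) ^ (1 / D : ℝ) := by gcongr; linarith
      _ ≤ 4 * ((p:ℝ) ^ D) ^ (1 / D : ℝ) := rpow_four (by positivity) N2' (by positivity)
          ((div_le_one (by positivity)).2 (by linarith))
      _ = _ := by rw [one_div, Real.pow_rpow_inv_natCast (by positivity) (by omega)]
  have hY2 : (((2 ^ m : ℕ) : ℝ) ^ (θ / c)) ^ c = ((2 ^ m : ℕ) : ℝ) ^ θ := by
    rw [← Real.rpow_natCast, ← Real.rpow_mul (by positivity), div_mul_cancel₀ _ hc0.ne']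
  have hY3 : (2 * (2 ^ m : ℕ) : ℝ) ^ (1 / 2 + (1 - 2 / c) * θ) ≤
      4 * (p ^ d * (((2 ^ m : ℕ) : ℝ) ^ (θ / c)) ^ e) := by
    have e1 : (1 - 2 / c) * θ = θ / c * e := by
      have : (c:ℝ) = e + 2 := by exact_mod_cast he
      field_simp; rw [this]; ring
    have e2 : θ / c * e ≤ 1 := by
      rw [← e1]; nlinarith [div_pos two_pos hc0]
    rw [Real.rpow_add (by positivity), e1, Real.mul_rpow (z := θ / c * e) (by norm_num) (by positivity),
      Real.rpow_mul (x := (2 ^ m : ℕ)) (by positivity), Real.rpow_natCast, ← Real.sqrt_eq_rpow]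
    calc _ ≤ (2 * (p:ℝ) ^ d) * (2 ^ (1:ℝ) * (((2 ^ m : ℕ) : ℝ) ^ (θ / c)) ^ e) := by
          gcongr
          · exact Real.sqrt_le_iff.2 ⟨by positivity, by rw [mul_pow, ← pow_mul, mul_two d, ← hD]; linarith⟩
          · norm_num
      _ = _ := by rw [Real.rpow_one]; ring
  have hY0 : 0 ≤ ((2 ^ m : ℕ) : ℝ) ^ (θ / c) := by positivity
  generalize ((2 ^ m : ℕ) : ℝ) ^ (θ / c) = Y at *
  obtain ⟨B, B0, B1, B2, B3⟩ := num_B hc w1 w2 ((le_self_pow₀ hw0 (by omega)).trans hwY) hY1 w3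
  have B0' : (1:ℝ) ≤ B := by exact_mod_cast B0
  have hβ : 7 * D * (1 / w ^ (D + c + 3)) ≤ 1 / L := by
    rw [mul_one_div, div_le_div_iff₀ (by positivity) hL0]
    calc _ ≤ w * w := by gcongr
      _ = w ^ 2 := by ring
      _ ≤ _ := by rw [one_mul]; gcongr; omega
  have hL1 : 1 / L ≤ 1 / 64 := by gcongr; linarith
  obtain ⟨φ, μ, b, R, c1, c2, c3, c4, c5, c6, c7⟩ := core2 p c d B (fun h => by
      have : p ∣ 2 := (ZMod.natCast_eq_zero_iff 2 p).1 (by exact_mod_cast h)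
      have := Nat.le_of_dvd two_pos this
      omega) (hHR p) (by exact_mod_cast B2) (1 / w ^ (D + c + 3)) (2 / L) (by positivity)
    (by rw [div_lt_one (by positivity)]; exact one_lt_pow₀ (by linarith) (by omega))
    (by rw [div_le_one hL0]; linarith) (by
      rw [← hD, show 2 * (2 / L) * (2 + Real.log p) = 1 / (4 * D) by rw [hL]; field_simp; norm_num]
      exact num_s (by omega))
  clear hL
  rw [← hD] at c4 c5 c6 c7
  have : Nonempty (Fin c → Fin (2 * B)) := ⟨fun _ => ⟨0, by omega⟩⟩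
  have hcard : (Fintype.card (Fin c → Fin (2 * B)) : ℝ) = (2 * B) ^ c := by simp
  have hlc : Real.log (Fintype.card (Fin c → Fin (2 * B))) ≤ c * m := by
    rw [hcard, Real.log_pow]
    gcongr
    refine (Real.log_le_log (by positivity) ?_).trans hlog2
    calc (2 * B : ℝ) ≤ 1 * (2 * B) ^ 2 := by rw [one_mul]; exact le_self_pow₀ (by linarith) two_ne_zero
      _ ≤ c * (2 * B) ^ 2 := by gcongr; linarith
      _ ≤ _ := B2.le
  have hlc0 := Real.log_natCast_nonneg (Fintype.card (Fin c → Fin (2 * B)))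
  have k1 : (2 ^ m : ℕ) * (1 / (L * (p ^ D : ℕ))) ≤ 2 / L := by
    rw [Nat.cast_pow p, mul_one_div, div_le_div_iff₀ (by positivity) hL0]
    calc _ ≤ (2 * p ^ D) * L := by gcongr
      _ = _ := by ring
  have k2 : 1 / L ≤ (2 ^ m : ℕ) * (1 / (L * (p ^ D : ℕ))) := by
    rw [Nat.cast_pow p, mul_one_div, div_le_div_iff₀ hL0 (by positivity)]
    calc _ = (p ^ D) * L := by ring
      _ ≤ _ := by gcongr
  have k3 : ∀ n ∈ R, 7 * L * n ≤ ((2 ^ m : ℕ) : ℝ) ^ (1 + θ) := fun n hn => by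
    obtain ⟨ν, r, r1, r2, r3, -⟩ := c7 n hn
    have r3' : (ν:ℝ) + 1 ≤ (4 * B) ^ c := by exact_mod_cast r3
    have r4 : (r:ℝ) ≤ p ^ D := r2.trans (mul_le_of_le_one_left (by positivity) (by linarith))
    calc 7 * L * n ≤ 7 * L * (p ^ D * (ν + 1)) := by rw [r1]; push_cast; gcongr; linarith
      _ ≤ 7 * L * ((2 ^ m : ℕ) * (4 * B) ^ c) := by gcongr
      _ = (2 ^ m : ℕ) * (7 * L * (4 * B) ^ c) := by ring
      _ ≤ (2 ^ m : ℕ) * Y ^ c := by gcongr
      _ = _ := by rw [hY2, Real.rpow_add (by positivity), Real.rpow_one]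
  have b0 : 0 ≤ Real.log ((p:ℝ) ^ D) := by rw [Real.log_pow]; positivity
  obtain ⟨z, z1, z2, a, a1, a2⟩ := transfer2 m (p ^ D) φ μ b R L
    (2 * (2 + Real.log ((p:ℝ) ^ D)) * (1 + 4 * (2 + Real.log p)) ^ D * p ^ d) (p ^ d * √p ^ d / 2) _ (1 / 2 ^ c)
    (7 * D * (1 / w ^ (D + c + 3))) (by linarith) (by positivity)
    (k1.trans (by rw [div_le_div_iff₀ hL0 (by norm_num)]; linarith)) c1 c2 c3 (by positivity)
    (by positivity) (by linarith) (by simpa only [Nat.cast_pow] using c4)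
    (by simpa only [Nat.cast_pow] using c5) (fun n hn => ⟨by
      have : (n:ℝ) ≤ ((2 ^ m : ℕ) : ℝ) ^ (2:ℕ) := by
        rw [← Real.rpow_natCast]
        refine le_trans (le_mul_of_one_le_left (by positivity) (by linarith)) ((k3 n hn).trans
          (Real.rpow_le_rpow_of_exponent_le hN1 (by push_cast; linarith)))
      exact_mod_cast this, by
      obtain ⟨ν, r, r1, r2, r3, r4, r5⟩ := c7 n hn
      refine ⟨ν, r, r1, ?_, ?_, ?_⟩
      · rw [div_le_iff₀ (by positivity)]; push_cast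
        calc 2 * π * r ≤ 7 * r := by gcongr; linarith [Real.pi_lt_d2]
          _ ≤ 7 * (D * (1 / w ^ (D + c + 3)) * p ^ D) := by gcongr
          _ = _ := by ring
      · rw [hcard, mul_pow, one_div, inv_mul_cancel_left₀ (by positivity)]
        exact_mod_cast r4
      · have := r5 (1 / (L * (p ^ D : ℕ))) (by positivity) (by
          rw [show 1 / (L * (p ^ D : ℕ)) * (p:ℝ) ^ D = 1 / L by push_cast; field_simp]
          linarith [show 2 / L = 1 / L + 1 / L by ring])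
        simpa only [Nat.cast_pow] using this⟩)
  have hs : 0 ≤ ((m:ℝ) + 1) ^ 2 * √(2 ^ m : ℕ) := by positivity
  refine ⟨m, by omega, z, z1, fun M a b t ht => (z2 M a b t ht).trans ?_, a,
    R.image fun r : ℕ => 2 * π * L * r, a1, fun t ht => ?_,
    spaced R (by nlinarith only [Real.pi_gt_three, w9, hD2]), ?_⟩
  · have := num_good (g := p ^ d) (D := D + 1) (A := (4 + 2 * Real.log (Fintype.card (Fin c → Fin (2 * B)))) *
      (2 * (2 + Real.log ((p:ℝ) ^ D)) * (1 + 4 * (2 + Real.log p)) ^ D)) (m := 2 * m + 1) (ε := ε) hN1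
      (by linarith) (by linarith) (by positivity) w8 (by positivity) k1 (by positivity)
      (Real.le_sqrt_of_sq_le (by rw [← pow_mul, mul_two, ← hD]; exact N1')) (by positivity) (by
        rw [pow_succ' w D, Real.log_pow]; gcongr; linarith)
      (le_trans (pow_le_pow_right₀ hw0 (by omega)) hwε)
    refine le_trans ?_ this
    have : 0 ≤ (2 ^ m : ℕ) * (1 / (L * (p ^ D : ℕ))) * ((4 + 2 * Real.log (Fintype.card (Fin c → Fin (2 * B)))) *
      (2 * (2 + Real.log ((p:ℝ) ^ D)) * (1 + 4 * (2 + Real.log p)) ^ D * p ^ d)) := by positivity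
    linarith
  · obtain ⟨r, hr, rfl⟩ := mem_image.1 ht
    refine ⟨by positivity, ?_, le_trans ?_ (a2 r hr)⟩
    · calc 2 * π * L * r ≤ 7 * L * r := by gcongr; linarith [Real.pi_lt_d2]
        _ ≤ _ := k3 r hr
        _ ≤ _ := by rw [hX]; gcongr; linarith
    · rw [hX]
      have v1 := num_V (g := p ^ d * √p ^ d) (m := 2 * m + 1) (k := 5) (w := w ^ (c + 2)) (ε := ε) hN1
        (by positivity) le_rfl (le_trans (by linarith) (le_self_pow₀ hw0 (by omega))) (by positivity)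
        (w8.trans (le_self_pow₀ hw0 (by omega))) le_rfl (by
          refine (rpow_four (by positivity) N2' (by norm_num) (by norm_num)).trans (le_of_eq ?_)
          rw [Real.sqrt_eq_rpow, ← Real.rpow_natCast, ← Real.rpow_natCast, ← Real.rpow_natCast,
            ← Real.rpow_mul (by positivity), ← Real.rpow_mul (by positivity),
            ← Real.rpow_add (by positivity), hD]
          congr 2; push_cast; ring) le_rfl
        (by rw [← pow_mul]; exact le_trans (pow_le_pow_right₀ hw0 (by omega)) hwε)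
        (by rw [← pow_mul]; exact le_trans (pow_le_pow_right₀ hw0 (by omega)) hw4) hε
      have v2 := num_eta (η := 7 * D * (1 / w ^ (D + c + 3))) (g := p ^ d * √p ^ d)
        (l := 3 + 2 * Real.log (Fintype.card (Fin c → Fin (2 * B)))) (c := c) (D := D) (by linarith)
        (by gcongr) (by positivity) (by linarith) (by positivity) w6 (by positivity) hL0 w3 k2
      linarith
  · rw [hX, Finset.card_image_of_injective _ fun r r' h => by
      exact_mod_cast mul_left_cancel₀ (show 2 * π * L ≠ 0 by positivity) h]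
    subst he
    refine (num_R hN1 (by linarith) le_rfl (by linarith) hY3 (by omega) hwε hε).trans
      (num_card (e := (D + (e + 2) + 3) * D) hw0 (by linarith) hY0 B1 B0' (by positivity) ?_
        (by positivity) c6)
    rw [one_div_pow, ← pow_mul]

end Pool.Agent.Lib.MP_a93a41_nt.Bar
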