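import Pool.Agent.Lib.MP_a93a41_nt.Tensor

theorem Pool.Agent.Lib.MP_a93a41_nt.OldMeanValueAttained.result :
    ∃ c : ℝ, 0 < c ∧ ∃ K₀ : ℝ, ∀ (T : ℝ) (N : ℕ), 1 ≤ N → K₀ * N ≤ T →
      Real.exp (Real.log (T / N) * Real.log (Real.log (T / N)) / c) ≤ N →
      ∃ (V : ℝ) (a : ℕ → ℂ) (S : Finset ℝ), 0 < V ∧ (∀ n, ‖a n‖ ≤ 1) ∧
        (N : ℝ) * T ^ (c / Real.log (Real.log (T / N))) ≤ V ^ 2 ∧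
        (∀ t ∈ S, 0 ≤ t ∧ t ≤ T ∧
          V ≤ ‖∑ n ∈ Finset.Icc 1 N, a n * (n : ℂ) ^ (-((t : ℂ) * Complex.I))‖) ∧
        (∀ t ∈ S, ∀ u ∈ S, t ≠ u → 1 ≤ |t - u|) ∧
        c * T * N / (V ^ 2 * Real.log N) ≤ S.card :=
  ⟨1 / 15000, by norm_num, Real.exp 100, fun T N h1 h2 h3 =>
    Pool.Agent.Lib.MP_a93a41_nt.mean_value_attained T N h1 h2 h3⟩
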