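import Mathlib

/-! Definitions and statements for the large values bound below the threshold. -/

namespace Pool.Agent.Lib.MP_a93a41_nt.TH

open Finset Complex
open scoped Real Pointwise ComplexConjugate

def Sep (S : Finset ℝ) : Prop := ∀ t ∈ S, ∀ u ∈ S, t ≠ u → 1 ≤ |t - u|

noncomputable def ex (x : ℝ) : ℂ := exp (x * I)

noncomputable def ph (x : ℝ) : ℝ := x * Real.log x

/-- the resonance kernel -/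
noncomputable def kk (x : ℝ) : ℂ := ex (ph x)

noncomputable def SW (W : Finset ℝ) (α : ℝ → ℂ) (s : ℝ) : ℂ := ∑ t ∈ W, α t * kk (t - s)

/-- number of points in a closed interval -/
noncomputable def cnt (W : Finset ℝ) (x L : ℝ) : ℝ := #(W.filter fun t => x ≤ t ∧ t ≤ x + L)

def Ib (W : Finset ℝ) (L ν : ℝ) : Prop := ∀ x, cnt W x L ≤ ν

def Fr (W : Finset ℝ) (κ L0 : ℝ) : Prop := ∀ L, L0 ≤ L → Ib W L (κ * √L)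

def FrZ (Z : Finset ℤ) (κ : ℝ) : Prop := ∀ x L : ℝ, 1 ≤ L →
  (#(Z.filter fun z : ℤ => x ≤ z ∧ (z : ℝ) ≤ x + L) : ℝ) ≤ κ * √L

noncomputable def cell (W : Finset ℝ) (L t : ℝ) : Finset ℝ := W.filter fun u => ⌊u / L⌋ = ⌊t / L⌋

def Un (W : Finset ℝ) (L n : ℝ) : Prop := ∀ t ∈ W, n ≤ #(cell W L t) ∧ (#(cell W L t) : ℝ) ≤ 2 * n

def Rg (W1 W2 : Finset ℝ) (T K : ℝ) : Prop := ∀ t ∈ W1, ∀ s ∈ W2, T ≤ t - s ∧ t - s ≤ K * T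

def U1 (α : ℝ → ℂ) : Prop := ∀ t, ‖α t‖ ≤ 1

/-! ### tools -/

def HsSt : Prop := ∀ (A : Finset ℝ) (g : ℝ → ℝ) (t0 L ν M b : ℝ), 0 < L → 1 ≤ M → 0 ≤ b →
  Ib A L ν → (∀ t ∈ A, |t - t0| ≤ M * L ∧ g t ≤ b ∧ g t * |t - t0| ≤ b * L) →
  ∑ t ∈ A, g t ≤ 4 * ν * b * (1 + Real.log M)

def LvSt : Prop := ∀ (F : ℝ → ℝ) (Y : Finset ℝ) (lo hi lam w e ν : ℝ), lo ≤ hi → 0 ≤ w → 0 ≤ e →
  lam * w ≤ e / 2 → (∀ x ∈ Set.Icc lo hi, ∀ y ∈ Set.Icc lo hi, |F x - F y| ≤ lam * |x - y|) →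
  (∀ y ∈ Y, lo ≤ y ∧ y + w ≤ hi ∧ e ≤ F y) → Ib Y w ν →
  #Y * w * e ^ 2 / 4 ≤ ν * ∫ x in lo..hi, F x ^ 2

def LipSt : Prop := ∀ (A : Finset ℝ) (α : ℝ → ℂ) (T L x y : ℝ), 0 < T → U1 α →
  (∀ t ∈ A, ∀ u ∈ A, |t - u| ≤ L) → (∀ t ∈ A, T ≤ t - x ∧ T ≤ t - y) →
  |‖SW A α x‖ - ‖SW A α y‖| ≤ #A * (L / T) * |x - y|

noncomputable def k4 (t1 t2 t3 t4 s : ℝ) : ℂ :=
  kk (t1 - s) * conj (kk (t2 - s)) * (kk (t3 - s) * conj (kk (t4 - s)))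

def In4 (t1 t2 t3 t4 a b T θ : ℝ) : Prop := ∀ t ∈ ({t1, t2, t3, t4} : Set ℝ), T ≤ t - b ∧ t - a ≤ θ * T

def OscSt : Prop := ∀ t1 t2 t3 t4 a b T θ lam : ℝ, a ≤ b → 0 < T → 1 ≤ θ → 0 < lam →
  In4 t1 t2 t3 t4 a b T θ →
  (∀ s ∈ Set.Icc a b, lam ≤ |(t1 - s) * (t3 - s) - (t2 - s) * (t4 - s)|) →
  ‖∫ s in a..b, k4 t1 t2 t3 t4 s‖ ≤ 5 * θ ^ 6 * T ^ 2 / lam

/-- mean square of a resonance sum -/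
def SqSt : Prop := ∀ (A : Finset ℝ) (α : ℝ → ℂ) (a b T θ L ν : ℝ), a ≤ b → 0 < T → 1 ≤ θ → U1 α →
  0 < L → L ≤ θ * T → (b - a) * L ≤ 5 * θ ^ 6 * T → (∀ t ∈ A, T ≤ t - b ∧ t - a ≤ θ * T) → Ib A L ν →
  ∫ s in a..b, ‖SW A α s‖ ^ 2 ≤ #A * (20 * ν * θ ^ 6 * (T / L) * (1 + Real.log (θ * T / L)))

/-- four point integrals with a far pair -/
def FarSt : Prop := ∀ t1 t2 t3 t4 a b T θ D G : ℝ, a ≤ b → 0 < T → 1 ≤ θ → 1 ≤ D → √D ≤ G →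
  In4 t1 t2 t3 t4 a b T θ → 2 * θ * T * D ≤ |t1 - t2| * |t3 - t2| →
  2 * (|t1 - t2| * |t3 - t2|) ≤ G * T →
  ‖∫ s in a..b, k4 t1 t2 t3 t4 s‖ ≤ 12 * θ ^ 6 * T / √D ∧
    ‖∫ s in a..b, k4 t1 t2 t3 t4 s‖ * |t4 - (t1 - t2 + t3)| ≤ 12 * θ ^ 6 * T / √D * G

/-! ### additive combinatorics -/

def BsgSt : Prop := ∃ c : ℕ, ∀ (X Y : Finset ℤ) (G : Finset (ℤ × ℤ)) (n κ : ℝ), 2 ≤ κ → 0 < n →
  G ⊆ X ×ˢ Y → #X ≤ κ * n → #Y ≤ κ * n → n ^ 2 / κ ≤ #G →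
  #(G.image fun p => p.1 + p.2) ≤ κ * n →
  ∃ X' ⊆ X, ∃ Y' ⊆ Y, n ^ 2 / κ ^ c ≤ #(G.filter fun p => p.1 ∈ X' ∧ p.2 ∈ Y') ∧
    #(X' + Y') ≤ κ ^ c * n

def SpzSt : Prop := ∃ c : ℕ, ∀ (Z Z' : Finset ℤ) (n κ : ℝ), 2 ≤ κ → 1 ≤ n →
  #(Z + Z') ≤ κ * n → (∀ z ∈ Z', n ^ 2 / κ ≤ |(z : ℝ)| ∧ |(z : ℝ)| ≤ κ * n ^ 2) →
  FrZ Z κ → FrZ Z' κ →
  n ^ 3 / κ ≤ #(((Z ×ˢ Z') ×ˢ (Z ×ˢ Z')).filter fun p =>
    |((p.1.1 * p.2.2 - p.2.1 * p.1.2 : ℤ) : ℝ)| ≤ κ * n ^ 2) → n ≤ κ ^ c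

/-- three base points with small spectrum are impossible -/
def TriSt : Prop := ∃ c : ℕ, ∀ (W : Finset ℝ) (E : Finset (ℝ × ℝ)) (a : Fin 3 → ℝ) (T H κ : ℝ),
  2 ≤ κ → 1 ≤ H → 0 < T → #W ≤ κ * √T → Fr W κ (T / H) → E ⊆ W ×ˢ W →
  (∀ i, ∀ s ∈ W, T ≤ a i - s ∧ a i - s ≤ κ * T) → (∀ i j, i ≠ j → T / κ ≤ |a i - a j|) →
  (∀ p ∈ E, T / κ ≤ |p.1 - p.2|) → T / κ ≤ #E →
  (∀ i, #(E.image fun p => ⌊H * Real.log ((a i - p.1) / (a i - p.2))⌋) ≤ κ * √H) → H ≤ κ ^ c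

def LinSt : Prop := ∃ c : ℕ, ∀ (W1 W2 : Finset ℝ) (α : ℝ → ℂ) (T H κ : ℝ), 2 ≤ κ → 1 ≤ H →
  H ^ 3 ≤ T → 1 + Real.log H ≤ κ → U1 α → Sep W1 → Rg W1 W2 T κ → #W1 ≤ κ * √T → #W2 ≤ κ * √T →
  Fr W1 κ (T / H) → Fr W2 κ (T / H) → (∀ t ∈ W1, √H / κ ≤ #(cell W1 H t)) →
  T / κ ≤ ∑ s ∈ W2, ‖SW W1 α s‖ → H ≤ κ ^ c

/-! ### the uncertainty principle -/

def S3St : Prop := ∀ (W Y : Finset ℝ) (α : ℝ → ℂ) (T K L ν : ℝ), 2 ≤ K → 1 ≤ L → L ≤ T →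
  1 + Real.log (4 * K * T) ≤ K → U1 α → Sep Y → Rg W Y T K → #W ≤ K * √T → Ib W L ν →
  (∀ s ∈ Y, √T / K ≤ ‖SW W α s‖) → Ib Y (T / L) (K ^ 30 * ν * √T / L)

def S4St : Prop := ∀ (W Y : Finset ℝ) (α : ℝ → ℂ) (T K B D L0 L1' L1 L2' L2 ν n1 n2 : ℝ) (q : ℕ),
  2 ≤ K → K ^ 100 ≤ B → 1 + Real.log (4 * K * T) ≤ K → U1 α → Sep W → Sep Y → Rg W Y T K →
  #W ≤ K * √T → √T / K ≤ #Y → (∀ s ∈ Y, √T / K ≤ ‖SW W α s‖) →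
  1 ≤ L0 → 1 ≤ L1' → L1' ≤ L1 → L1 ≤ L2' → L2' ≤ L2 → L2 ≤ T → 1 ≤ D → √D ≤ q * L0 →
  2 * K * T * D ≤ L1' * L2' → 12 * (L1 * L2) ≤ q * L0 * T →
  Un W L1 n1 → Un W L2 n2 → Ib W L1' (4 * n1 / B) → Ib W L2' (4 * n2 / B) → Ib W L0 ν →
  √D ≤ K ^ 100 * q * ν

def UniSt : Prop := ∀ (f : Finset ℝ → ℝ) (W : Finset ℝ) (Q J : ℕ), 1 ≤ Q → f ∅ = 0 →
  (∀ A B, Disjoint A B → f (A ∪ B) ≤ f A + f B) →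
  ∃ A ⊆ W, f W ≤ ((Nat.log 2 #W : ℝ) + 1) ^ J * f A ∧ ∀ j < J, ∃ n, Un A ((Q : ℝ) ^ j) n

def CoreSt : Prop := ∃ k : ℝ, 0 < k ∧ k ≤ 1 / 10 ∧ ∃ T0 : ℝ, ∀ T : ℝ, T0 ≤ T →
  ∀ (W1 W2 : Finset ℝ) (α : ℝ → ℂ), U1 α → Sep W1 → Sep W2 → Rg W1 W2 T (T ^ k) →
  #W1 ≤ T ^ k * √T → #W2 ≤ T ^ k * √T → Fr W1 (T ^ k) (T ^ (4 / 5 : ℝ)) →
  Fr W2 (T ^ k) (T ^ (4 / 5 : ℝ)) → ∑ s ∈ W2, ‖SW W1 α s‖ ≤ T / T ^ k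

/-! ### Dirichlet polynomials -/

noncomputable def DP (N : ℕ) (a : ℕ → ℂ) (t : ℝ) : ℂ :=
  ∑ n ∈ Ico N (2 * N), a n * ex (-(t * Real.log n))

/-- `S` is a separated set of large values in `[0, T]` -/
def LV (N : ℕ) (a : ℕ → ℂ) (T V : ℝ) (S : Finset ℝ) : Prop :=
  (∀ n, ‖a n‖ ≤ 1) ∧ Sep S ∧ ∀ t ∈ S, 0 ≤ t ∧ t ≤ T ∧ V ≤ ‖DP N a t‖

noncomputable def gam (τ : ℝ) : ℂ := Gamma (3 / 2 - τ * I) * (Real.exp (π * τ / 2) : ℝ)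

noncomputable def zt (N τ x : ℝ) : ℂ :=
  (1 / N - 2 * π * x * I : ℂ) ^ (-(3 / 2) + τ * I : ℂ) * (Real.exp (-(π * τ / 2)) : ℝ)

/-- the dual part of the Gram kernel -/
noncomputable def Gm (N τ : ℝ) : ℂ := gam τ / (√N : ℝ) * ∑' m : ℕ, zt N τ (m + 1)

noncomputable def Gk (N τ : ℝ) : ℂ :=
  ∑' n : ℕ, (√(n / N) * Real.exp (-(n / N)) : ℝ) * ex (-(τ * Real.log n))

def KerSt : Prop := ∃ C : ℝ, ∀ N τ : ℝ, 1 ≤ N → 0 ≤ τ → ‖Gk N τ - Gm N τ‖ ≤ C * N / (1 + τ) ^ 2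

def ZtSt : Prop := (∀ τ : ℝ, 0 ≤ τ → ‖gam τ‖ ≤ 3 * (1 + τ)) ∧ ∀ N x : ℝ, 1 ≤ N → 1 ≤ x →
  ∃ (c : ℂ) (b θ : ℝ), ‖c‖ ≤ x ^ (-(3 / 2) : ℝ) ∧ 1 / (13 * N * x) ≤ θ ∧ θ ≤ 1 / (N * x) ∧
    ∀ τ : ℝ, zt N τ x = c * ex (b * τ) * (Real.exp (-(θ * τ)) : ℝ)

def HmSt : Prop := ∃ C : ℝ, 1 ≤ C ∧ ∀ (N : ℕ) (a : ℕ → ℂ) (T V : ℝ) (S : Finset ℝ), 1 ≤ N → 0 ≤ V →
  LV N a T V S → ∃ v : ℝ → ℂ, U1 v ∧ (#S * V) ^ 2 ≤ C * N ^ 2 * #S +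
    C * N * ‖∑ t ∈ S, ∑ s ∈ S.filter (· < t), v t * conj (v s) * Gm N (t - s)‖

def StirSt : Prop := ∃ (C : ℝ) (c : ℂ), ‖c‖ ≤ 3 ∧ ∀ τ : ℝ, 1 ≤ τ →
  ‖gam τ - c * τ * ex τ * conj (kk τ)‖ ≤ C

def BilSt : Prop := ∃ C : ℝ, ∀ (W1 W2 : Finset ℝ) (α β : ℝ → ℂ) (N τ H B : ℝ), 1 ≤ N → 1 ≤ H →
  H ≤ N → 1 ≤ τ - H → U1 α → U1 β → (∀ t ∈ W1, ∀ s ∈ W2, |t - s - τ| ≤ H) →
  (∀ γ, U1 γ → ∑ s ∈ W2, ‖SW W1 γ s‖ ≤ B) →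
  ‖∑ t ∈ W1, ∑ s ∈ W2, α t * β s * Gm N (t - s)‖ ≤ C * (τ * B + H * (#W1 * #W2)) / √N

def TrivSt : Prop := ∃ C : ℝ, ∀ N τ : ℝ, 1 ≤ N → 0 ≤ τ → ‖Gm N τ‖ ≤ C * (1 + τ) / √N

def PtSt : Prop := ∀ δ : ℝ, 0 < δ → ∃ η : ℝ, 0 < η ∧ ∃ C : ℝ, ∀ N T τ : ℝ, 1 ≤ N →
  N ^ (1 + δ) ≤ T → T ≤ N ^ 3 → 0 ≤ τ → τ ≤ T → ‖Gm N τ‖ ≤ C * T ^ (1 / 2 - η)

def LsSt : Prop := ∃ C : ℝ, ∀ (N : ℕ) (W : Finset ℝ) (v : ℝ → ℂ) (x T : ℝ), 1 ≤ N → 1 ≤ T → Sep W →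
  (∀ t ∈ W, x ≤ t ∧ t ≤ x + T) →
  ∑ n ∈ Ico N (2 * N), ‖∑ t ∈ W, v t * ex (-(t * Real.log n))‖ ^ 2 ≤
    C * (N + T) * (1 + Real.log T) * ∑ t ∈ W, ‖v t‖ ^ 2

def MvSt : Prop := ∃ C : ℝ, 1 ≤ C ∧ ∀ (N : ℕ) (W : Finset ℝ) (a : ℕ → ℂ) (T : ℝ), 1 ≤ N → 1 ≤ T →
  Sep W → (∀ t ∈ W, 0 ≤ t ∧ t ≤ T) →
  ∑ t ∈ W, ‖DP N a t‖ ^ 2 ≤ C * (N + T) * (1 + Real.log T) * ∑ n ∈ Ico N (2 * N), ‖a n‖ ^ 2

/-- sets of large values covered by few cells -/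
def ConcSt : Prop := ∃ C : ℝ, 1 ≤ C ∧ ∀ (N : ℕ) (a : ℕ → ℂ) (T V L : ℝ) (S : Finset ℝ), 1 ≤ L →
  16 * L ≤ N → N ≤ T → 0 ≤ V → LV N a T V S → C * N ^ 3 ≤ V ^ 2 * L ^ 2 →
  #S * V ^ 2 ≤ C * (1 + Real.log T) *
    (N ^ 2 + T ^ 2 / N * (#(S.image fun t => ⌊t / L⌋) : ℝ) ^ 2 * L)

def R3St : Prop := ∃ δ : ℝ, 0 < δ ∧ ∃ (C : ℝ) (N0 : ℕ), ∀ (N : ℕ) (a : ℕ → ℂ) (T V : ℝ)
  (S : Finset ℝ), N0 ≤ N → N ≤ T → T ≤ (N : ℝ) ^ (1 + δ) → 0 ≤ V → N * T ^ (1 / 2 - δ) ≤ V ^ 2 →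
  LV N a T V S → #S * V ^ 2 ≤ C * (1 + Real.log T) ^ 2 * N ^ 2

def DySt : Prop := ∃ c : ℝ, 0 < c ∧ ∃ C T0 : ℝ, ∀ (N : ℕ) (a : ℕ → ℂ) (T V : ℝ) (S : Finset ℝ),
  1 ≤ N → T0 ≤ T → 0 ≤ V → N * T ^ (1 / 2 - c) ≤ V ^ 2 → LV N a T V S →
  #S * V ^ 2 ≤ C * (1 + Real.log T) ^ 2 * N ^ 2

def MainSt : Prop := ∃ c : ℝ, 0 < c ∧ ∀ ε : ℝ, 0 < ε → ∃ C : ℝ, 0 < C ∧
  ∀ (N : ℕ) (T V : ℝ) (a : ℕ → ℂ) (S : Finset ℝ), 1 ≤ N → 1 ≤ T → 0 < V → (∀ n, ‖a n‖ ≤ 1) →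
    (N : ℝ) * T ^ (1 / 2 - c) ≤ V ^ 2 →
    (∀ t ∈ S, 0 ≤ t ∧ t ≤ T ∧
      V ≤ ‖∑ n ∈ Finset.Icc 1 N, a n * (n : ℂ) ^ (-((t : ℂ) * Complex.I))‖) →
    (∀ t ∈ S, ∀ u ∈ S, t ≠ u → 1 ≤ |t - u|) →
    (S.card : ℝ) ≤ C * (N : ℝ) ^ 2 / V ^ 2 * T ^ ε

/-! ### basic facts -/

lemma ex_add (x y : ℝ) : ex (x + y) = ex x * ex y := by
  rw [ex, ex, ex, ← exp_add]; push_cast; ring_nf

@[simp] lemma norm_ex (x : ℝ) : ‖ex x‖ = 1 := norm_exp_ofReal_mul_I x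

@[simp] lemma norm_kk (x : ℝ) : ‖kk x‖ = 1 := norm_ex _

lemma conj_ex (x : ℝ) : conj (ex x) = ex (-x) := by
  rw [ex, ex, ← exp_conj]; simp

lemma ex_mul_conj (x y : ℝ) : ex x * conj (ex y) = ex (x - y) := by
  rw [conj_ex, ← ex_add, sub_eq_add_neg]

lemma ex_sub (x y : ℝ) : ‖ex x - ex y‖ ≤ |x - y| := by
  have : ex x - ex y = ex y * (ex (x - y) - 1) := by
    rw [mul_sub, ← ex_add, mul_one, add_sub_cancel]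
  rw [this, norm_mul, norm_ex, one_mul, ex, mul_comm]
  exact Real.norm_exp_I_mul_ofReal_sub_one_le

lemma cont_ex : Continuous ex := by unfold ex; fun_prop

lemma cont_kk : Continuous kk := cont_ex.comp Real.continuous_mul_log

lemma cont_SW (W : Finset ℝ) (α : ℝ → ℂ) : Continuous (SW W α) :=
  continuous_finsetSum _ fun _ _ => continuous_const.mul (cont_kk.comp (by fun_prop))

lemma norm_SW (W : Finset ℝ) {α : ℝ → ℂ} (h : U1 α) (s : ℝ) : ‖SW W α s‖ ≤ #W :=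
  (norm_sum_le _ _).trans <| (sum_le_card_nsmul _ _ 1 fun t _ => by simpa using h t).trans (by simp)

lemma Sep.mono {A B : Finset ℝ} (h : Sep B) (s : A ⊆ B) : Sep A :=
  fun t ht u hu => h t (s ht) u (s hu)

lemma Ib.mono {A B : Finset ℝ} {L M ν μ : ℝ} (h : Ib B M μ) (s : A ⊆ B) (l : L ≤ M) (n : μ ≤ ν) :
    Ib A L ν := fun x => le_trans (Nat.cast_le.2 (card_le_card fun t ht => by
  rw [mem_filter] at ht ⊢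
  exact ⟨s ht.1, ht.2.1, by linarith [ht.2.2]⟩)) ((h x).trans n)

lemma Ib.nonneg {A : Finset ℝ} {L ν : ℝ} (h : Ib A L ν) : 0 ≤ ν := (Nat.cast_nonneg _).trans (h 0)

lemma Fr.mono {A B : Finset ℝ} {κ κ' L M : ℝ} (h : Fr B κ L) (s : A ⊆ B) (k : κ ≤ κ') (l : L ≤ M) :
    Fr A κ' M := fun x hx => (h x (l.trans hx)).mono s le_rfl (by gcongr)

/-- points within `L` of a centre -/
lemma Ib.near {A B : Finset ℝ} {L ν c : ℝ} (h : Ib A (2 * L) ν) (s : B ⊆ A)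
    (b : ∀ t ∈ B, |t - c| ≤ L) : (#B : ℝ) ≤ ν :=
  le_trans (Nat.cast_le.2 (card_le_card fun t ht => mem_filter.2 ⟨s ht, by
    have := abs_le.1 (b t ht); constructor <;> linarith⟩)) (h (c - L))

lemma Ib.add {A : Finset ℝ} {L M ν μ : ℝ} (h : Ib A L ν) (g : Ib A M μ) : Ib A (L + M) (ν + μ) :=
  fun x => by
    refine le_trans ?_ (add_le_add (h x) (g (x + L)))
    unfold cnt
    norm_cast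
    refine le_trans (card_le_card fun t ht => ?_) (card_union_le _ _)
    simp only [mem_union, mem_filter] at ht ⊢
    rcases le_total t (x + L) with c | c
    · exact .inl ⟨ht.1, ht.2.1, c⟩
    · exact .inr ⟨ht.1, c, by linarith [ht.2.2]⟩

lemma Ib.mul {A : Finset ℝ} {L ν : ℝ} (h : Ib A L ν) {q : ℕ} (hq : 1 ≤ q) : Ib A (q * L) (q * ν) := by
  induction q, hq using Nat.le_induction with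
  | base => simpa using h
  | succ q _ ih => simpa [add_mul] using ih.add h

lemma cell_near {W : Finset ℝ} {L t u : ℝ} (hL : 0 < L) (h : u ∈ cell W L t) : |u - t| ≤ L := by
  have := Int.abs_sub_lt_one_of_floor_eq_floor (mem_filter.1 h).2
  rw [← sub_div, abs_div, abs_of_pos hL, div_lt_one hL] at this
  exact this.le

lemma mem_cell {W : Finset ℝ} {t : ℝ} (L : ℝ) (h : t ∈ W) : t ∈ cell W L t := mem_filter.2 ⟨h, rfl⟩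

lemma cell_sub (W : Finset ℝ) (L t : ℝ) : cell W L t ⊆ W := filter_subset _ _

lemma cell_eq {W : Finset ℝ} {L t u : ℝ} (h : u ∈ cell W L t) : cell W L u = cell W L t := by
  unfold cell; rw [(mem_filter.1 h).2]

/-- a bound for all cells gives a bound for all intervals -/
lemma ib_of_cell {W : Finset ℝ} {L n : ℝ} (hL : 0 < L) (h0 : 0 ≤ n)
    (h : ∀ t ∈ W, (#(cell W L t) : ℝ) ≤ n) : Ib W L (2 * n) := fun x => by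
  have c : ∀ i : ℤ, (#(W.filter fun u => ⌊u / L⌋ = i) : ℝ) ≤ n := fun i => by
    rcases (W.filter fun u => ⌊u / L⌋ = i).eq_empty_or_nonempty with e | ⟨t, ht⟩
    · simpa [e] using h0
    · rw [← (mem_filter.1 ht).2]; exact h t (mem_filter.1 ht).1
  rw [two_mul]
  refine le_trans ?_ (add_le_add (c ⌊x / L⌋) (c (⌊x / L⌋ + 1)))
  unfold cnt
  norm_cast
  refine le_trans (card_le_card fun t ht => ?_) (card_union_le _ _)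
  simp only [mem_union, mem_filter] at ht ⊢
  have a : ⌊x / L⌋ ≤ ⌊t / L⌋ := Int.floor_mono (by gcongr; exact ht.2.1)
  have b : ⌊t / L⌋ ≤ ⌊x / L⌋ + 1 := by
    rw [← Int.floor_add_one]
    exact Int.floor_mono (by rw [div_add_one hL.ne']; gcongr; exact ht.2.2)
  by_cases e : ⌊t / L⌋ = ⌊x / L⌋
  · exact .inl ⟨ht.1, e⟩
  · exact .inr ⟨ht.1, by omega⟩

lemma Un.ib {W : Finset ℝ} {L n : ℝ} (h : Un W L n) (hL : 0 < L) (h0 : 0 ≤ n) : Ib W L (4 * n) := by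
  simpa [show (4 : ℝ) = 2 * 2 by norm_num, mul_assoc] using
    ib_of_cell hL (by linarith) fun t ht => (h t ht).2

lemma Sep.ib {W : Finset ℝ} (h : Sep W) : Ib W 1 2 := by
  simpa using ib_of_cell (W := W) (n := 1) one_pos zero_le_one fun t ht => by
    norm_cast
    refine card_le_one.2 fun a ha b hb => ?_
    by_contra c
    have := Int.abs_sub_lt_one_of_floor_eq_floor ((mem_filter.1 ha).2.trans (mem_filter.1 hb).2.symm)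
    have := h a (cell_sub _ _ _ ha) b (cell_sub _ _ _ hb) c
    simp at *; linarith

/-- averaging over cells -/
lemma cell_avg {M : Type*} [AddCommMonoid M] [Module ℝ M] (W : Finset ℝ) (L : ℝ) (φ : ℝ → M) :
    ∑ a ∈ W, (#(cell W L a) : ℝ)⁻¹ • ∑ t ∈ cell W L a, φ t = ∑ t ∈ W, φ t := by
  simp only [smul_sum]
  rw [sum_comm' (t' := W) (s' := fun t => cell W L t)]
  · refine sum_congr rfl fun t ht => ?_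
    rw [sum_congr rfl fun a ha => by rw [cell_eq ha], sum_const, ← Nat.cast_smul_eq_nsmul ℝ, smul_smul,
      mul_inv_cancel₀ (by exact_mod_cast (card_pos.2 ⟨t, mem_cell L ht⟩).ne'), one_smul]
  · intro a t
    simp only [cell, mem_filter]
    constructor <;> rintro ⟨a, b⟩ <;> grind

end Pool.Agent.Lib.MP_a93a41_nt.TH
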