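import Pool.Agent.Lib.MP_a93a41_nt.TH0

/-! The graph form of the theorem of Balog, Szemeredi and Gowers, by paths of length three. -/

namespace Pool.Agent.Lib.MP_a93a41_nt.TH

open Finset
open scoped Pointwise

lemma bsg_prune (s : Finset ℤ) (f : ℤ → ℝ) {θ : ℝ} (h : 0 ≤ θ) :
    ∑ i ∈ s, f i ≤ ∑ i ∈ s.filter (fun i => θ ≤ f i), f i + θ * #s := by
  rw [← sum_filter_add_sum_filter_not s (fun i => θ ≤ f i)]
  gcongr
  refine (sum_le_card_nsmul _ _ θ fun i hi => (not_le.1 (mem_filter.1 hi).2).le).trans ?_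
  rw [nsmul_eq_mul, mul_comm]
  gcongr
  exact filter_subset _ _

lemma bsg_dc (r : ℤ → ℤ → Prop) [∀ a b, Decidable (r a b)] (s t : Finset ℤ) :
    ∑ a ∈ s, (#(t.filter (r a)) : ℝ) = ∑ b ∈ t, (#(s.filter (r · b)) : ℝ) := by
  simp only [card_filter]
  push_cast
  exact sum_comm

lemma bsg_bad (r q : ℤ → ℤ → Prop) [∀ a b, Decidable (r a b)] [∀ a b, Decidable (q a b)]
    (X Y : Finset ℤ) {δ : ℝ} (h0 : 0 ≤ δ)
    (h : ∀ a a', q a a' → (#(Y.filter fun b => r a b ∧ r a' b) : ℝ) ≤ δ) :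
    ∑ b ∈ Y, ∑ a ∈ X.filter (r · b), (#((X.filter (r · b)).filter (q a)) : ℝ) ≤ #X * (#X * δ) := by
  simp only [sum_filter, filter_filter]
  rw [sum_comm, ← nsmul_eq_mul]
  refine sum_le_card_nsmul _ _ _ fun a _ => ?_
  have : ∀ b ∈ Y, (if r a b then (#(X.filter fun a' => r a' b ∧ q a a') : ℝ) else 0) =
      #(X.filter fun a' => q a a' ∧ r a b ∧ r a' b) := fun b _ => by
    by_cases c : r a b <;> simp [c, and_comm]
  rw [sum_congr rfl this, ← bsg_dc (fun a' b => q a a' ∧ r a b ∧ r a' b), ← nsmul_eq_mul]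
  refine sum_le_card_nsmul _ _ _ fun a' _ => ?_
  by_cases c : q a a'
  · simpa [c] using h a a' c
  · simpa [c] using h0

lemma bsg_path (X Y : Finset ℤ) (r : ℤ → ℤ → Prop) [∀ a b, Decidable (r a b)] {p : ℝ} (p0 : 0 < p)
    (hX : X.Nonempty) (hY : Y.Nonempty) (h : p * #X * #Y ≤ ∑ a ∈ X, (#(Y.filter (r a)) : ℝ)) :
    ∃ X' ⊆ X, ∃ Y' ⊆ Y, p ^ 2 * (#X * #Y) / 24 ≤ ∑ b ∈ Y', (#(X'.filter (r · b)) : ℝ) ∧
      ∀ a ∈ X', ∀ b ∈ Y', p ^ 5 * (#X * #Y) / 12288 ≤
        ∑ a' ∈ X.filter (r · b), (#(Y.filter fun b' => r a b' ∧ r a' b') : ℝ) := by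
  have x0 : (0 : ℝ) < #X := by exact_mod_cast hX.card_pos
  have y0 : (0 : ℝ) < #Y := by exact_mod_cast hY.card_pos
  have h1 := bsg_prune X (fun a => #(Y.filter (r a))) (θ := p * #Y / 2) (by positivity)
  set X1 := X.filter fun a => p * #Y / 2 ≤ #(Y.filter (r a))
  have s1 : X1 ⊆ X := filter_subset _ _
  have c1 : (#X1 : ℝ) ≤ #X := by gcongr
  rw [bsg_dc r X1] at h1
  have h3 := sq_sum_le_card_mul_sum_sq (s := Y) (f := fun b => (#(X1.filter (r · b)) : ℝ))
  set q := fun a a' => (#(Y.filter fun b => r a b ∧ r a' b) : ℝ) ≤ p ^ 3 * #Y / 256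
  have h4 := bsg_bad r q X1 Y (by positivity) fun _ _ => id
  obtain ⟨b0, -, hb⟩ := exists_le_of_sum_le hY (f := fun b => p ^ 3 * #X ^ 2 / 8 + 32 *
      ∑ a ∈ X1.filter (r · b), (#((X1.filter (r · b)).filter (q a)) : ℝ))
      (g := fun b => p * (#(X1.filter (r · b)) : ℝ) ^ 2) (by
    rw [sum_add_distrib, ← mul_sum, ← mul_sum, sum_const, nsmul_eq_mul]
    have a : (p * #X * #Y / 2) ^ 2 ≤ _ := (pow_le_pow_left₀ (by positivity) (by linarith) 2).trans h3
    have b : (p * #X) ^ 2 * #Y / 4 ≤ ∑ b ∈ Y, (#(X1.filter (r · b)) : ℝ) ^ 2 :=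
      le_of_mul_le_mul_left (by linarith) y0
    have c : (#X1 : ℝ) * (#X1 * (p ^ 3 * #Y / 256)) ≤ #X * (#X * (p ^ 3 * #Y / 256)) := by gcongr
    have := mul_le_mul_of_nonneg_left b p0.le
    linarith)
  set A := X1.filter (r · b0)
  have B0 : 0 ≤ ∑ a ∈ A, (#(A.filter (q a)) : ℝ) := by positivity
  have a1 : p * #X / 3 ≤ #A := le_of_sq_le_sq (le_of_mul_le_mul_left (a := p) (by
    have : 0 ≤ p ^ 3 * #X ^ 2 := by positivity
    linarith) p0) (by positivity)
  have a0 : (0 : ℝ) < #A := lt_of_lt_of_le (by positivity) a1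
  have h5 := bsg_prune A (fun a => p * #A / 16 - #(A.filter (q a))) le_rfl
  set X' := A.filter fun a => 0 ≤ p * #A / 16 - #(A.filter (q a))
  have s2 : X' ⊆ A := filter_subset _ _
  have s3 : A ⊆ X1 := filter_subset _ _
  have h6 : ∑ a ∈ X', (p * #A / 16 - #(A.filter (q a))) ≤ #X' * (p * #A / 16) := by
    rw [← nsmul_eq_mul]
    exact sum_le_card_nsmul _ _ _ fun a _ => sub_le_self _ (by positivity)
  rw [sum_sub_distrib, sum_const, nsmul_eq_mul] at h5
  have a2 : (#A : ℝ) / 2 ≤ #X' := le_of_mul_le_mul_right (a := p * #A / 16) (by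
    have : 0 ≤ p ^ 3 * #X ^ 2 := by positivity
    linarith) (by positivity)
  have h7 := bsg_prune Y (fun b => #(X'.filter (r · b))) (θ := p * #X' / 4) (by positivity)
  have h8 : #X' * (p * #Y / 2) ≤ ∑ a ∈ X', (#(Y.filter (r a)) : ℝ) := by
    rw [← nsmul_eq_mul]
    exact card_nsmul_le_sum _ _ _ fun a ha => (mem_filter.1 (s3 (s2 ha))).2
  rw [bsg_dc] at h8
  refine ⟨X', s2.trans (s3.trans s1), _, filter_subset (fun b => p * #X' / 4 ≤ #(X'.filter (r · b))) _,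
    ?_, fun a ha b hb => ?_⟩
  · have : p * #Y * (p * #X / 6) ≤ p * #Y * #X' := by gcongr; linarith
    linarith
  · set Z := (X'.filter (r · b)).filter fun a' => ¬ q a a'
    have z1 : (#(X'.filter (r · b)) : ℝ) ≤ #(A.filter (q a)) + #Z := by
      rw [← card_filter_add_card_filter_not (q a)]
      push_cast
      gcongr
      exact (filter_subset _ _).trans s2
    have z2 := (mem_filter.1 ha).2
    have z3 := (mem_filter.1 hb).2
    have z4 : p * (p * #X / 3) / 16 ≤ #Z := by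
      have : p * (#A / 2) ≤ p * #X' := by gcongr
      have : p * (p * #X / 3) ≤ p * #A := by gcongr
      linarith
    calc _ = p * (p * #X / 3) / 16 * (p ^ 3 * #Y / 256) := by ring
      _ ≤ #Z * (p ^ 3 * #Y / 256) := by gcongr
      _ ≤ ∑ a' ∈ Z, (#(Y.filter fun b' => r a b' ∧ r a' b') : ℝ) := by
        rw [← nsmul_eq_mul]
        exact card_nsmul_le_sum _ _ _ fun a' h => (not_le.1 (mem_filter.1 h).2).le
      _ ≤ _ := sum_le_sum_of_subset_of_nonneg ((filter_subset _ _).trans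
        (filter_subset_filter _ (s2.trans (s3.trans s1)))) fun _ _ _ => by positivity

theorem bsg : BsgSt := by
  refine ⟨33, fun X Y G n κ k2 n0 hG hX hY hg hS => ?_⟩
  have k0 : 0 < κ := by linarith
  have g0 : 0 < n ^ 2 / κ := by positivity
  obtain ⟨e, he⟩ : G.Nonempty := card_pos.1 (by exact_mod_cast g0.trans_le hg)
  have ed : ∀ X' Y' : Finset ℤ, (#(G.filter fun p => p.1 ∈ X' ∧ p.2 ∈ Y') : ℝ) =
      ∑ b ∈ Y', (#(X'.filter fun a => (a, b) ∈ G) : ℝ) := fun X' Y' => by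
    have : (G.filter fun p => p.1 ∈ X' ∧ p.2 ∈ Y') = (X' ×ˢ Y').filter (· ∈ G) := by
      ext; simp [and_comm]
    simp only [this, card_filter, sum_product_right]
    push_cast
    rfl
  have g1 : (#G : ℝ) ≤ #X * #Y := by exact_mod_cast (card_le_card hG).trans (card_product _ _).le
  obtain ⟨X', sX, Y', sY, h1, h2⟩ := bsg_path X Y (fun a b => (a, b) ∈ G) (p := (κ ^ 3)⁻¹)
    (by positivity) ⟨_, (mem_product.1 (hG he)).1⟩ ⟨_, (mem_product.1 (hG he)).2⟩ (by
      rw [bsg_dc, ← ed, filter_true_of_mem fun p hp => mem_product.1 (hG hp)]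
      refine le_trans ?_ hg
      calc _ ≤ (κ ^ 3)⁻¹ * (κ * n) * (κ * n) := by gcongr
        _ = _ := by field_simp)
  have g2 := hg.trans g1
  refine ⟨X', sX, Y', sY, ?_, ?_⟩
  · rw [ed]
    refine le_trans ?_ h1
    have : (24 : ℝ) ≤ κ ^ 26 := le_trans (by norm_num) (pow_le_pow_left₀ two_pos.le k2 26)
    calc _ = (κ ^ 3)⁻¹ ^ 2 * (n ^ 2 / κ) / κ ^ 26 := by field_simp
      _ ≤ _ := by gcongr
  · set S := G.image fun p => p.1 + p.2
    have c : (#(X' + Y') : ℝ) * ((κ ^ 3)⁻¹ ^ 5 * (#X * #Y) / 12288) ≤ #S * (#S * #S) := by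
      rw [← nsmul_eq_mul]
      refine (card_nsmul_le_sum _ (fun s => (#((S ×ˢ S ×ˢ S).filter fun t =>
        t.1 - t.2.1 + t.2.2 = s) : ℝ)) _ fun s hs => ?_).trans ?_
      · obtain ⟨a, ha, b, hb, rfl⟩ := mem_add.1 hs
        refine (h2 a ha b hb).trans ?_
        norm_cast
        rw [← card_sigma]
        refine card_le_card_of_injOn (fun u => (a + u.2, u.1 + u.2, u.1 + b)) (fun u hu => ?_)
          fun u _ v _ e => ?_
        · simp only [coe_sigma, coe_filter, Set.mem_sigma_iff, Set.mem_ofPred_eq, mem_product] at hu ⊢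
          exact ⟨⟨mem_image.2 ⟨_, hu.2.2.1, rfl⟩, mem_image.2 ⟨_, hu.2.2.2, rfl⟩,
            mem_image.2 ⟨_, hu.1.2, rfl⟩⟩, by ring⟩
        · simp only [Prod.mk.injEq, add_right_inj, add_left_inj] at e
          exact Sigma.ext e.2.2 (heq_of_eq e.1)
      · norm_cast
        rw [sum_card_fiberwise_eq_card_filter, ← card_product, ← card_product]
        exact card_filter_le _ _
    have : (12288 : ℝ) ≤ κ ^ 14 := le_trans (by norm_num) (pow_le_pow_left₀ two_pos.le k2 14)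
    refine le_of_mul_le_mul_right (a := (κ ^ 3)⁻¹ ^ 5 * (n ^ 2 / κ) / κ ^ 14) ?_ (by positivity)
    calc _ ≤ _ := by gcongr
      _ ≤ _ := c
      _ ≤ κ * n * (κ * n * (κ * n)) := by gcongr
      _ = _ := by field_simp

end Pool.Agent.Lib.MP_a93a41_nt.TH
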