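import Pool.Agent.Lib.MP_a93a41_nt.TH0

namespace Pool.Agent.Lib.MP_a93a41_nt.TH

open Finset Complex Filter
open scoped Real ComplexConjugate

lemma core_chain {n : ℕ → ℝ} {c : ℝ} {l : ℕ} (h0 : ∀ j ≤ 5 * l, 0 < n j) (hc : 0 ≤ c)
    (h : ∀ i < 2 * l, n (l + i + 1) * n (5 * l - i) ≤ c * (n (l + i) * n (5 * l - (i + 1)))) :
    n (5 * l) ≤ c ^ (2 * l) * n l := by
  have k : ∀ i ≤ 2 * l, n (l + i) * n (5 * l) ≤ c ^ i * (n l * n (5 * l - i)) := fun i hi => by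
    induction i with
    | zero => simp
    | succ i ih =>
      have p := h0 (l + i) (by omega)
      have q := h0 (5 * l - i) (by omega)
      refine le_of_mul_le_mul_right ?_ (mul_pos p q)
      calc _ = n (l + i + 1) * n (5 * l - i) * (n (l + i) * n (5 * l)) := by rw [add_assoc]; ring
        _ ≤ c * (n (l + i) * n (5 * l - (i + 1))) * (c ^ i * (n l * n (5 * l - i))) :=
          mul_le_mul (h i (by omega)) (ih (by omega)) (mul_pos p (h0 _ le_rfl)).le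
            (mul_nonneg hc (mul_pos p (h0 _ (by omega))).le)
        _ = _ := by ring
  have := k _ le_rfl
  rw [show l + 2 * l = 3 * l by ring, show 5 * l - 2 * l = 3 * l by omega] at this
  exact le_of_mul_le_mul_left (this.trans_eq (by ring)) (h0 (3 * l) (by omega))

lemma core_low (s4 : S4St) {A Y : Finset ℝ} {α : ℝ → ℂ} {T K : ℝ} {Q l : ℕ} {n : ℕ → ℝ} (hl : 3 ≤ l)
    (hK : 2 ≤ K) (hQ : K ^ (250 * l) ≤ Q) (h1 : (Q : ℝ) ^ (5 * l) ≤ T) (h2 : T ≤ (Q : ℝ) ^ (5 * l + 1))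
    (hL : 1 + Real.log (4 * K * T) ≤ K) (hα : U1 α) (sA : Sep A) (sY : Sep Y) (hR : Rg A Y T K)
    (cA : #A ≤ K * √T) (cY : √T / K ≤ #Y) (hY : ∀ s ∈ Y, √T / K ≤ ‖SW A α s‖)
    (hn : ∀ j ≤ 5 * l, Un A ((Q : ℝ) ^ j) (n j)) : √((Q : ℝ) ^ l) / (Q : ℝ) ^ 5 ≤ n l := by
  have K1 : 1 ≤ K := by linarith
  have kq : ∀ a b : ℕ, a + b ≤ 250 * l → 2 ^ a * K ^ b ≤ Q := fun a b h =>
    le_trans (le_trans (by rw [pow_add]; gcongr) (pow_le_pow_right₀ K1 h)) hQ
  have Q1 : (16 : ℝ) ≤ Q := le_trans (by norm_num) (kq 4 0 (by omega))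
  have Q0 : (1 : ℝ) ≤ Q := by linarith
  have qn : 1 ≤ Q := by exact_mod_cast Q0
  have pq : ∀ j : ℕ, (1 : ℝ) ≤ (Q : ℝ) ^ j := fun j => one_le_pow₀ Q0
  have T0 : 0 < T := by linarith [pq (5 * l)]
  have sp : 0 < √T / K := by positivity
  obtain ⟨s, hs⟩ : Y.Nonempty := card_pos.1 (by exact_mod_cast sp.trans_le cY)
  have rA := (hY s hs).trans (norm_SW A hα s)
  obtain ⟨t, ht⟩ : A.Nonempty := card_pos.1 (by exact_mod_cast sp.trans_le rA)
  have n0 : ∀ j ≤ 5 * l, 0 < n j := fun j hj => by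
    have : (0 : ℝ) < #(cell A ((Q : ℝ) ^ j) t) := by exact_mod_cast card_pos.2 ⟨t, mem_cell _ ht⟩
    linarith [(hn j hj t ht).2]
  have ib : ∀ j ≤ 5 * l, Ib A ((Q : ℝ) ^ j) (4 * n j) := fun j hj =>
    (hn j hj).ib (by positivity) (n0 j hj).le
  have nl := n0 l (by omega)
  have sq : ∀ a b : ℕ, √((Q : ℝ) ^ (a + 2 * b)) = √((Q : ℝ) ^ a) * (Q : ℝ) ^ b := fun a b => by
    rw [pow_add, Real.sqrt_mul (by positivity), mul_comm 2, pow_mul, Real.sqrt_sq (by positivity)]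
  rw [div_le_iff₀ (by positivity)]
  by_cases hb : ∃ i < 2 * l, K ^ 100 * n (l + i) ≤ n (l + i + 1) ∧
      K ^ 100 * n (5 * l - (i + 1)) ≤ n (5 * l - i)
  · obtain ⟨i, hi, b1, b2⟩ := hb
    have mono : ∀ {a b : ℕ}, a ≤ b → (Q : ℝ) ^ a ≤ (Q : ℝ) ^ b := pow_le_pow_right₀ Q0
    have := s4 A Y α T K (K ^ 100) (Q ^ (l - 3)) (Q ^ l) (Q ^ (l + i)) (Q ^ (l + i + 1))
      (Q ^ (5 * l - (i + 1))) (Q ^ (5 * l - i)) (4 * n l) (n (l + i + 1)) (n (5 * l - i)) (Q ^ 2)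
      hK le_rfl hL hα sA sY hR cA cY hY (pq _) (pq _) (mono (by omega)) (mono (by omega))
      (mono (by omega)) ((mono (by omega)).trans h1) (pq _)
      (by push_cast; rw [← pow_add]; exact (Real.sqrt_le_self_iff.2 (.inr (pq _))).trans (mono (by omega)))
      (by
        calc _ ≤ Q * (Q : ℝ) ^ (5 * l + 1) * (Q : ℝ) ^ (l - 3) := by
              gcongr; simpa using kq 1 1 (by omega)
          _ = _ := by rw [← pow_succ', ← pow_add, ← pow_add]; congr 1; omega)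
      (by
        calc _ ≤ Q * ((Q : ℝ) ^ (l + i + 1) * (Q : ℝ) ^ (5 * l - i)) := by gcongr; linarith
          _ = (Q : ℝ) ^ 2 * (Q : ℝ) ^ l * (Q : ℝ) ^ (5 * l) := by
              rw [← pow_add, ← pow_succ', ← pow_add, ← pow_add]; congr 1; omega
          _ ≤ _ := by push_cast; gcongr)
      (hn _ (by omega)) (hn _ (by omega))
      ((ib _ (by omega)).mono Subset.rfl le_rfl (by rw [le_div_iff₀ (by positivity)]; linarith))
      ((ib _ (by omega)).mono Subset.rfl le_rfl (by rw [le_div_iff₀ (by positivity)]; linarith))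
      (ib _ (by omega))
    have e := kq 2 100 (by omega)
    calc _ ≤ √((Q : ℝ) ^ (l - 3 + 2 * 2)) := Real.sqrt_le_sqrt (mono (by omega))
      _ ≤ K ^ 100 * (Q ^ 2 : ℕ) * (4 * n l) * (Q : ℝ) ^ 2 := by rw [sq]; gcongr
      _ = n l * (2 ^ 2 * K ^ 100 * (Q : ℝ) ^ 4) := by push_cast; ring
      _ ≤ n l * (Q * (Q : ℝ) ^ 4) := by gcongr
      _ = _ := by ring
  push Not at hb
  have up : ∀ j < 5 * l, n (j + 1) ≤ Q * (4 * n j) := fun j hj => by
    refine (hn _ hj t ht).1.trans (le_trans (Nat.cast_le.2 (card_le_card fun u hu => ?_))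
      ((ib j hj.le).mul qn (⌊t / (Q : ℝ) ^ (j + 1)⌋ * (Q : ℝ) ^ (j + 1))))
    rw [← (mem_filter.1 hu).2, ← pow_succ']
    refine mem_filter.2 ⟨cell_sub _ _ _ hu, (le_div_iff₀ (by positivity)).1 (Int.floor_le _), ?_⟩
    rw [← add_one_mul]
    exact (div_le_iff₀ (by positivity)).1 (Int.lt_floor_add_one _).le
  have ch := core_chain (c := 4 * Q * K ^ 100) n0 (by positivity) fun i hi => by
    have p1 := n0 (l + i) (by omega)
    have p2 := n0 (5 * l - (i + 1)) (by omega)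
    have u1 := up (l + i) (by omega)
    have u2 := up (5 * l - (i + 1)) (by omega)
    rw [show 5 * l - (i + 1) + 1 = 5 * l - i by omega] at u2
    rcases le_or_gt (K ^ 100 * n (l + i)) (n (l + i + 1)) with c | c
    · exact (mul_le_mul u1 (hb i hi c).le (n0 _ (by omega)).le (by positivity)).trans_eq (by ring)
    · exact (mul_le_mul c.le u2 (n0 _ (by omega)).le (by positivity)).trans_eq (by ring)
  have top : (#A : ℝ) ≤ (Q ^ 2 : ℕ) * (4 * n (5 * l)) := by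
    refine le_trans (Nat.cast_le.2 (card_le_card fun u hu => mem_filter.2 ⟨hu, ?_, ?_⟩))
      ((ib _ le_rfl).mul (q := Q ^ 2) (Nat.one_le_pow _ _ qn) s)
    · linarith [(hR u hu s hs).1]
    · have : K * T ≤ Q * (Q : ℝ) ^ (5 * l + 1) := by gcongr; simpa using kq 0 1 (by omega)
      push_cast
      nlinarith [(hR u hu s hs).2, pow_succ (Q : ℝ) (5 * l)]
  refine le_of_mul_le_mul_right ?_ (show 0 < (Q : ℝ) ^ (2 * l) by positivity)
  have e1 := kq (4 * l) (200 * l) (by omega)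
  have e2 := kq 2 1 (by omega)
  calc _ = √((Q : ℝ) ^ (5 * l)) := by rw [← sq]; congr 2; ring
    _ ≤ √T / K * K := by rw [div_mul_cancel₀ _ (by positivity)]; gcongr
    _ ≤ (Q ^ 2 : ℕ) * (4 * ((4 * Q * K ^ 100) ^ (2 * l) * n l)) * K := by
        gcongr; exact rA.trans (top.trans (by gcongr))
    _ = n l * (Q : ℝ) ^ 2 * (2 ^ 2 * K ^ 1) * (2 ^ (4 * l) * K ^ (200 * l)) * (Q : ℝ) ^ (2 * l) := by
        push_cast
        rw [mul_pow, mul_pow, ← pow_mul, show (4 : ℝ) ^ (2 * l) = 2 ^ (4 * l) by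
          rw [show 4 * l = 2 * (2 * l) by ring, pow_mul 2]; norm_num]
        ring
    _ ≤ n l * (Q : ℝ) ^ 2 * Q * Q * (Q : ℝ) ^ (2 * l) := by gcongr
    _ = n l * (Q : ℝ) ^ 4 * (Q : ℝ) ^ (2 * l) := by ring
    _ ≤ _ := by gcongr; norm_num

lemma core_sub (W : Finset ℝ) (α : ℝ → ℂ) (A B : Finset ℝ) (h : Disjoint A B) :
    ∑ s ∈ W, ‖SW (A ∪ B) α s‖ ≤ ∑ s ∈ W, ‖SW A α s‖ + ∑ s ∈ W, ‖SW B α s‖ := by
  rw [← sum_add_distrib]
  exact sum_le_sum fun s _ => by rw [SW, sum_union h]; exact norm_add_le _ _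

lemma core_aux (uni : UniSt) (s4 : S4St) (lin : LinSt) : ∃ l : ℕ, 3 ≤ l ∧
    ∀ (W1 W2 : Finset ℝ) (α : ℝ → ℂ) (T K : ℝ) (Q : ℕ), 2 ≤ K → K ^ (1000 * l) ≤ Q →
    (Q : ℝ) ^ (5 * l) ≤ T → T ≤ (Q : ℝ) ^ (5 * l + 1) → 1 + Real.log (4 * K ^ 4 * T) ≤ K →
    ((Nat.log 2 #W1 : ℝ) + 1) ^ (5 * l + 1) ≤ K → U1 α → Sep W1 → Sep W2 → Rg W1 W2 T K →
    #W1 ≤ K * √T → #W2 ≤ K * √T → Fr W1 K (T ^ (4 / 5 : ℝ)) → Fr W2 K (T ^ (4 / 5 : ℝ)) →
    ∑ s ∈ W2, ‖SW W1 α s‖ ≤ T / K := by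
  obtain ⟨c, lin⟩ := lin
  refine ⟨5 * c + 3, by omega, ?_⟩
  generalize hl : 5 * c + 3 = l
  intro W1 W2 α T K Q hK hQ h1 h2 hL hJ hα s1 s2 hR c1 c2 f1 f2
  by_contra! hc
  have K1 : 1 ≤ K := by linarith
  have k4 : K ≤ K ^ 4 := le_self_pow₀ K1 (by norm_num)
  have kQ : K ^ 4 ≤ Q := (pow_le_pow_right₀ K1 (by omega)).trans hQ
  have Q2 : (2 : ℝ) ≤ Q := by linarith
  have Q0 : (1 : ℝ) ≤ Q := by linarith
  have q5 : (Q : ℝ) ≤ (Q : ℝ) ^ 5 := le_self_pow₀ Q0 (by norm_num)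
  have pq : ∀ j : ℕ, (1 : ℝ) ≤ (Q : ℝ) ^ j := fun j => one_le_pow₀ Q0
  have T1 : 1 ≤ T := (pq _).trans h1
  have T0 : 0 < T := by linarith
  have sT : √T * √T = T := Real.mul_self_sqrt T0.le
  have sp : 0 < √T := by positivity
  obtain ⟨A, hA, a1, a2⟩ := uni (fun A => ∑ s ∈ W2, ‖SW A α s‖) W1 Q (5 * l + 1)
    (by exact_mod_cast Q0) (by simp [SW]) (core_sub W2 α)
  choose! n hn using a2
  have a3 : T / K ^ 2 ≤ ∑ s ∈ W2, ‖SW A α s‖ := by
    have := hc.le.trans (a1.trans (mul_le_mul_of_nonneg_right hJ (by positivity)))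
    rw [div_le_iff₀ (by positivity)] at this ⊢
    linarith
  have cA : (#A : ℝ) ≤ K * √T := (Nat.cast_le.2 (card_le_card hA)).trans c1
  have rg : ∀ {B : Finset ℝ} {κ : ℝ}, B ⊆ W2 → K ≤ κ → Rg A B T κ := fun hB hκ t ht s hs =>
    ⟨(hR t (hA ht) s (hB hs)).1, (hR t (hA ht) s (hB hs)).2.trans (by gcongr)⟩
  set Y := W2.filter fun s => √T / K ^ 4 ≤ ‖SW A α s‖
  have cY : √T / K ^ 4 ≤ #Y := by
    rw [← sum_filter_add_sum_filter_not W2 fun s => √T / K ^ 4 ≤ ‖SW A α s‖] at a3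
    have b1 := sum_le_card_nsmul Y _ _ fun s _ => (norm_SW A hα s).trans cA
    have b2 := sum_le_card_nsmul (W2.filter fun s => ¬√T / K ^ 4 ≤ ‖SW A α s‖) _ _
      fun s hs => (not_le.1 (mem_filter.1 hs).2).le
    rw [nsmul_eq_mul] at b1 b2
    have b3 := b2.trans (mul_le_mul_of_nonneg_right
      ((Nat.cast_le.2 (card_filter_le _ _)).trans c2) (by positivity))
    have b4 : K * √T * (√T / K ^ 4) = T / K ^ 3 := by field_simp; nlinarith
    have b5 : 2 * (T / K ^ 3) ≤ T / K ^ 2 := by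
      rw [← mul_div_assoc, div_le_div_iff₀ (by positivity) (by positivity)]
      nlinarith [mul_pos T0 (pow_pos (by linarith : 0 < K) 2)]
    refine le_of_mul_le_mul_right ?_ (show 0 < K * √T by positivity)
    rw [mul_comm (√T / _), b4]
    linarith
  have lo := core_low s4 (A := A) (Y := Y) (K := K ^ 4) (Q := Q) (l := l) (n := n) (by omega)
    (by linarith) (by rw [← pow_mul]; exact (pow_le_pow_right₀ K1 (by omega)).trans hQ) h1 h2
    (hL.trans k4) hα (s1.mono hA) (s2.mono (filter_subset _ _)) (rg (filter_subset _ _) k4)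
    (cA.trans (by gcongr)) cY (fun s hs => (mem_filter.1 hs).2) fun j hj => hn j (by omega)
  have kq : K ≤ (Q : ℝ) ^ 5 := by linarith
  have th : T ^ (4 / 5 : ℝ) ≤ T / (Q : ℝ) ^ l := by
    rw [le_div_iff₀ (by positivity)]
    refine le_of_pow_le_pow_left₀ (n := 5) (by norm_num) T0.le ?_
    rw [mul_pow, ← Real.rpow_natCast (T ^ _), ← Real.rpow_mul T0.le, ← pow_mul, mul_comm l, pow_succ T 4]
    norm_num
    exact (mul_le_mul_iff_right₀ (by positivity)).2 h1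
  have hq : (Q : ℝ) ^ l ≤ T := (pow_le_pow_right₀ Q0 (by omega)).trans h1
  have := lin A W2 α T (Q ^ l) (Q ^ 5) (by linarith) (pq _)
    (by rw [← pow_mul]; exact (pow_le_pow_right₀ Q0 (by omega)).trans h1)
    (le_trans (add_le_add_right (Real.log_le_log (by positivity) (hq.trans (by
      nlinarith [mul_le_mul_of_nonneg_right (K1.trans k4) T0.le]))) 1) (hL.trans kq))
    hα (s1.mono hA) (rg Subset.rfl kq) (cA.trans (by gcongr)) (c2.trans (by gcongr))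
    (f1.mono hA kq th) (f2.mono Subset.rfl kq th)
    (fun t ht => lo.trans (hn l (by omega) t ht).1)
    (le_trans (by gcongr; linarith [pow_le_pow_right₀ K1 (show 2 ≤ 4 by norm_num)]) a3)
  rw [← pow_mul] at this
  exact absurd this (not_le.2 (pow_lt_pow_right₀ (by linarith) (by omega)))

lemma core_log (m : ℕ) {k : ℝ} (hk : 0 < k) : ∀ᶠ T : ℝ in atTop, (3 * Real.log T) ^ m ≤ T ^ k := by
  have h := ((isLittleO_log_rpow_rpow_atTop (m : ℝ) hk).const_mul_left (3 ^ m)).bound one_pos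
  filter_upwards [h, eventually_ge_atTop 1] with T h h1
  rw [Real.rpow_natCast, ← mul_pow, one_mul, Real.norm_of_nonneg (by have := Real.log_nonneg h1; positivity),
    Real.norm_of_nonneg (by positivity)] at h
  exact h

theorem core (uni : UniSt) (s4 : S4St) (lin : LinSt) : CoreSt := by
  obtain ⟨l, hl, h⟩ := core_aux uni s4 lin
  have l3 : (3 : ℝ) ≤ l := by exact_mod_cast hl
  set k : ℝ := 1 / (1000 * l * (5 * l + 1)) with hk
  have k0 : 0 < k := by positivity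
  have k1 : k ≤ 1 / 10 := by rw [hk]; gcongr; nlinarith
  obtain ⟨T0, hT⟩ := eventually_atTop.1 ((core_log (5 * l + 1) k0).and ((core_log 1 k0).and
    (((tendsto_rpow_atTop k0).eventually_ge_atTop 2).and ((Real.tendsto_log_atTop.eventually_ge_atTop 5).and
    ((eventually_ge_atTop 1).and ((tendsto_rpow_atTop (show (0 : ℝ) < ((5 * l : ℕ) : ℝ)⁻¹ by
      positivity)).eventually_ge_atTop ((2 ^ (5 * l) : ℕ) : ℝ)))))))
  refine ⟨k, k0, k1, T0, fun T hT0 W1 W2 α hα s1 s2 hR c1 c2 f1 f2 => ?_⟩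
  obtain ⟨e1, e2, e3, e4, T1, e5⟩ := hT T hT0
  have T0 : 0 < T := by linarith
  set x := T ^ (((5 * l : ℕ) : ℝ)⁻¹)
  have xp : x ^ (5 * l) = T := Real.rpow_inv_natCast_pow T0.le (by omega)
  have x0 : 0 ≤ x := by positivity
  have q1 : ((2 ^ (5 * l) : ℕ) : ℝ) ≤ ⌊x⌋₊ := Nat.cast_le.2 (Nat.le_floor e5)
  push_cast at q1
  have q2 : (1 : ℝ) ≤ ⌊x⌋₊ := (one_le_pow₀ one_le_two).trans q1
  have h2 : T ≤ (⌊x⌋₊ : ℝ) ^ (5 * l + 1) := by
    calc T ≤ (2 * ⌊x⌋₊) ^ (5 * l) := by rw [← xp]; gcongr; linarith [Nat.lt_floor_add_one x]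
      _ ≤ _ := by rw [mul_pow, pow_succ']; gcongr
  have lk : Real.log (T ^ k) ≤ Real.log T / 10 := by rw [Real.log_rpow T0]; nlinarith
  refine h W1 W2 α T (T ^ k) ⌊x⌋₊ e3 ?_ (xp ▸ pow_le_pow_left₀ (by positivity) (Nat.floor_le x0) _) h2
    ?_ (le_trans (pow_le_pow_left₀ (by positivity) ?_ _) e1) hα s1 s2 hR c1 c2 f1 f2
  · refine le_of_pow_le_pow_left₀ (n := 5 * l + 1) (by omega) (by positivity) (le_of_eq_of_le ?_ h2)
    rw [← pow_mul, ← Real.rpow_natCast, ← Real.rpow_mul T0.le, hk]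
    push_cast
    rw [one_div_mul_cancel (by positivity), Real.rpow_one]
  · rw [Real.log_mul (by positivity) T0.ne', Real.log_mul (by norm_num) (by positivity), Real.log_pow]
    have := Real.log_le_sub_one_of_pos (show (0 : ℝ) < 4 by norm_num)
    push_cast
    linarith [pow_one (3 * Real.log T)]
  · rcases Nat.eq_zero_or_pos #W1 with z | z
    · simp [z]; linarith
    have a : (2 : ℝ) ^ Nat.log 2 #W1 ≤ T ^ k * √T := le_trans (by exact_mod_cast Nat.pow_log_le_self 2 z.ne') c1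
    have b := Real.log_le_log (by positivity) a
    rw [Real.log_pow, Real.log_mul (by positivity) (by positivity), Real.log_sqrt T0.le] at b
    nlinarith [Real.log_two_gt_d9, (Nat.log 2 #W1).cast_nonneg (α := ℝ)]

end Pool.Agent.Lib.MP_a93a41_nt.TH
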