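import Pool.Agent.Lib.MP_a93a41_nt.TH0
import Pool.Agent.Lib.MP_31bf45_nt.Gam

/-! The Gram kernel and its dual form. -/

namespace Pool.Agent.Lib.MP_a93a41_nt.TH

open Finset Complex MeasureTheory Filter Topology
open scoped Real ComplexConjugate FourierTransform

lemma ker_lap {s z : ℂ} (hs : 0 < s.re) (hz : 0 < z.re) :
    ∫ x : ℝ in Set.Ioi 0, (x : ℂ) ^ (s - 1) * exp (-(z * x)) = z ^ (-s) * Gamma s := by
  have o : IsOpen {z : ℂ | 0 < z.re} := isOpen_lt continuous_const continuous_re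
  have c (w : ℂ) : ContinuousOn (fun x : ℝ => (x : ℂ) ^ (s - 1) * exp (-(w * x))) (Set.Ioi 0) :=
    fun x hx => ((continuousAt_ofReal_cpow_const x _ (.inr (ne_of_gt hx))).mul
      (by fun_prop)).continuousWithinAt
  have nm (w : ℂ) (x : ℝ) (hx : 0 < x) : ‖(x : ℂ) ^ (s - 1) * exp (-(w * x))‖ =
      x ^ (s.re - 1) * Real.exp (-w.re * x) := by
    rw [norm_mul, norm_cpow_eq_rpow_re_of_pos hx, norm_exp]
    simp
  have a : DifferentiableOn ℂ (fun z : ℂ => ∫ x : ℝ in Set.Ioi 0,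
      (x : ℂ) ^ (s - 1) * exp (-(z * x))) {z | 0 < z.re} := fun z (hz : 0 < z.re) => by
    refine (hasDerivAt_integral_of_dominated_loc_of_deriv_le (Metric.ball_mem_nhds z (half_pos hz))
      (F' := fun w x => (x : ℂ) ^ (s - 1) * exp (-(w * x)) * -x)
      (bound := fun x => x ^ s.re * Real.exp (-(z.re / 2) * x ^ (1 : ℝ)))
      (.of_forall fun w => (c w).aestronglyMeasurable measurableSet_Ioi) ?_
      (((c z).mul (by fun_prop)).aestronglyMeasurable measurableSet_Ioi) ?_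
      (integrableOn_rpow_mul_exp_neg_mul_rpow (by linarith) one_pos (half_pos hz))
      (.of_forall fun x w _ => ?_)).2.differentiableAt.differentiableWithinAt
    · refine (integrableOn_rpow_mul_exp_neg_mul_rpow (s := s.re - 1) (by linarith) one_pos hz).mono'
        ((c z).aestronglyMeasurable measurableSet_Ioi) ?_
      filter_upwards [ae_restrict_mem measurableSet_Ioi] with x hx
      rw [nm z x hx, Real.rpow_one]
    · filter_upwards [ae_restrict_mem measurableSet_Ioi] with x (hx : 0 < x) w hw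
      rw [norm_mul, nm w x hx, norm_neg, norm_real, Real.norm_of_nonneg hx.le, Real.rpow_one,
        mul_right_comm, ← Real.rpow_add_one hx.ne', sub_add_cancel]
      have := (abs_le.1 ((abs_re_le_norm (w - z)).trans (mem_ball_iff_norm.1 hw).le)).1
      rw [sub_re] at this
      gcongr
      linarith
    · simpa [mul_assoc] using (((hasDerivAt_id w).mul_const (x : ℂ)).neg.cexp).const_mul
        ((x : ℂ) ^ (s - 1))
  have b : DifferentiableOn ℂ (fun z : ℂ => z ^ (-s) * Gamma s) {z | 0 < z.re} := fun z hz =>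
    ((differentiableAt_id.cpow_const (.inl hz)).mul_const _).differentiableWithinAt
  refine (a.analyticOnNhd o).eqOn_of_preconnected_of_frequently_eq (b.analyticOnNhd o)
    (convex_halfSpace_re_gt 0).isPreconnected (z₀ := 1) (by simp) ?_ hz
  have t : Tendsto (fun r : ℝ => (r : ℂ)) (𝓝[>] 1) (𝓝[≠] 1) :=
    tendsto_nhdsWithin_iff.2 ⟨(continuous_ofReal.tendsto' 1 1 rfl).mono_left nhdsWithin_le_nhds,
      eventually_mem_nhdsWithin.mono fun r (hr : 1 < r) => by simpa using hr.ne'⟩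
  refine t.frequently (Eventually.frequently (eventually_mem_nhdsWithin.mono fun r (hr : 1 < r) => ?_))
  rw [integral_cpow_mul_exp_neg_mul_Ioi hs (by linarith), one_div, inv_cpow _ _ (by
    rw [arg_ofReal_of_nonneg (by linarith)]; exact Real.pi_pos.ne), cpow_neg]

lemma ker_gam {τ : ℝ} : ‖gam τ‖ ≤ 3 * (1 + |τ|) := by
  refine (sq_le_sq₀ (norm_nonneg _) (by positivity)).1 ?_
  have e := MP_31bf45_nt.gam_succ one_half_pos (-τ)
  rw [MP_31bf45_nt.gam_half, show ((1 / 2 + 1 : ℝ) + (-τ : ℝ) * I : ℂ) = 3 / 2 - τ * I by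
    push_cast; ring, mul_neg, Real.cosh_neg, Real.cosh_eq] at e
  rw [gam, norm_mul, mul_pow, e, norm_real, Real.norm_eq_abs, sq_abs, ← Real.exp_nat_mul,
    show (2 : ℕ) * (π * τ / 2) = π * τ by push_cast; ring, mul_assoc]
  have : π / ((Real.exp (π * τ) + Real.exp (-(π * τ))) / 2) * Real.exp (π * τ) ≤ 8 := by
    rw [div_mul_eq_mul_div, div_le_iff₀ (by positivity)]
    nlinarith [Real.pi_le_four, Real.exp_pos (π * τ), Real.exp_pos (-(π * τ))]
  nlinarith [abs_nonneg τ, sq_abs τ, mul_le_mul_of_nonneg_left this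
    (show 0 ≤ (1 / 2) ^ 2 + (-τ) ^ 2 by positivity)]

lemma ker_zt {N : ℝ} (hN : 0 < N) (τ x : ℝ) : zt N τ x =
    (1 / N - 2 * π * x * I : ℂ) ^ (-(3 / 2) : ℂ) * ex (Real.log ‖(1 / N - 2 * π * x * I : ℂ)‖ * τ) *
      (Real.exp (-((arg (1 / N - 2 * π * x * I) + π / 2) * τ)) : ℝ) := by
  have : (1 / N - 2 * π * x * I : ℂ) ≠ 0 := fun e => by
    simpa [hN.ne'] using congrArg re e
  rw [zt, cpow_add _ _ this, cpow_def_of_ne_zero this (τ * I), ex, log]
  simp only [ofReal_exp, mul_assoc, ← exp_add]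
  congr 2
  push_cast
  linear_combination (arg (1 / N - 2 * (π * (x * I))) * τ : ℂ) * I_mul_I

lemma ker_nc {z : ℂ} {x : ℝ} (x0 : 0 < x) (h : x ≤ ‖z‖) :
    ‖z ^ (-(3 / 2) : ℂ)‖ ≤ x ^ (-(3 / 2) : ℝ) := by
  rw [show (-(3 / 2) : ℂ) = (-(3 / 2) : ℝ) by simp, norm_cpow_real]
  exact Real.rpow_le_rpow_of_nonpos x0 h (by norm_num)

lemma ker_im (N x : ℝ) : 2 * π * |x| ≤ ‖(1 / N - 2 * π * x * I : ℂ)‖ := by
  simpa [abs_mul, abs_of_pos Real.pi_pos] using abs_im_le_norm (1 / N - 2 * π * x * I : ℂ)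

theorem zt_ok : ZtSt := by
  refine ⟨fun τ h => by simpa only [abs_of_nonneg h] using ker_gam (τ := τ), fun N x hN hx => ?_⟩
  have N0 : 0 < N := by linarith
  have p3 := Real.pi_gt_three
  have a := ker_im N x
  rw [abs_of_pos (by linarith)] at a
  refine ⟨_, _, _, ker_nc (by linarith) (by nlinarith), ?_, ?_, fun τ => ker_zt N0 τ x⟩
  all_goals
    have b : ‖(1 / N - 2 * π * x * I : ℂ)‖ ≤ 13 * x := by
      refine (norm_sub_le _ _).trans ?_
      have := inv_le_one_of_one_le₀ hN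
      simp only [norm_real, norm_mul, norm_I, norm_ofNat, Real.norm_eq_abs,
        abs_of_pos N0, abs_of_pos Real.pi_pos, abs_of_pos (one_pos.trans_le hx), one_div, norm_inv]
      nlinarith [Real.pi_le_four]
    have r : (1 / N - 2 * π * x * I : ℂ).re = 1 / N := by simp
    have i : (1 / N - 2 * π * x * I : ℂ).im < 0 := by simp; positivity
    generalize (1 / N - 2 * π * x * I : ℂ) = z at *
    have z0 : 0 < ‖z‖ := by nlinarith
    have c := cos_arg (norm_pos_iff.1 z0)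
    have l := neg_pi_div_two_le_arg_iff.2 (.inl (r ▸ by positivity : 0 ≤ z.re))
    have u := arg_neg_iff.2 i
    rw [← Real.sin_add_pi_div_two, r, div_div] at c
  · refine le_trans ?_ (c.ge.trans (Real.sin_le (by linarith)))
    rw [mul_right_comm, mul_comm]
    gcongr
  · have := Real.mul_le_sin (x := arg z + π / 2) (by linarith) (by linarith)
    rw [c, div_mul_eq_mul_div, div_le_div_iff₀ (by positivity) (by positivity)] at this
    rw [le_div_iff₀ (by positivity)]
    nlinarith [mul_le_mul_of_nonneg_left a (show 0 ≤ (arg z + π / 2) * N by nlinarith)]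

lemma ker_sm : Summable fun m : ℕ => ((m : ℝ) + 1) ^ (-(3 / 2) : ℝ) := by
  simpa using (summable_nat_add_iff 1).2 (Real.summable_nat_rpow.2 (show (-(3 / 2) : ℝ) < -1 by norm_num))

lemma ker_z1 (zt' : ZtSt) {N τ : ℝ} (hN : 1 ≤ N) (h : 0 ≤ τ) (m : ℕ) :
    ‖zt N τ (m + 1)‖ ≤ ((m : ℝ) + 1) ^ (-(3 / 2) : ℝ) := by
  obtain ⟨c, b, θ, h1, h2, -, e⟩ := zt'.2 N (m + 1) hN (by simp)
  rw [e, norm_mul, norm_mul, norm_ex, mul_one, norm_real, Real.norm_of_nonneg (Real.exp_pos _).le]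
  exact (mul_le_of_le_one_right (norm_nonneg _) (Real.exp_le_one_iff.2 (neg_nonpos.2
    (mul_nonneg (le_trans (by positivity) h2) h)))).trans h1

theorem triv (zt' : ZtSt) : TrivSt := by
  refine ⟨3 * ∑' m : ℕ, ((m : ℝ) + 1) ^ (-(3 / 2) : ℝ), fun N τ hN h => ?_⟩
  rw [Gm, norm_mul, norm_div, norm_real, Real.norm_of_nonneg (Real.sqrt_nonneg _),
    div_mul_eq_mul_div, mul_right_comm]
  gcongr
  exacts [zt'.1 τ h, tsum_of_norm_bounded ker_sm.hasSum (ker_z1 zt' hN h)]

lemma ker_z2 {N τ x y : ℝ} (hN : 0 < N) (h : 0 ≤ τ) (hx : 0 ≤ x) (y0 : 0 < y)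
    (hy : y ≤ ‖(1 / N - 2 * π * (-x : ℝ) * I : ℂ)‖) :
    ‖zt N τ (-x)‖ ≤ y ^ (-(3 / 2) : ℝ) * Real.exp (-τ) := by
  rw [ker_zt hN, norm_mul, norm_mul, norm_ex, mul_one, norm_real,
    Real.norm_of_nonneg (Real.exp_pos _).le]
  have : 0 ≤ arg (1 / N - 2 * π * (-x : ℝ) * I) := arg_nonneg_iff.2 (by simp; positivity)
  gcongr
  exacts [ker_nc y0 hy, by nlinarith [Real.pi_gt_three]]

lemma ker_w (y : ℝ) : √y * Real.exp (-y) * y ^ 2 ≤ 8 := by
  rcases le_total y 0 with h | h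
  · simp [Real.sqrt_eq_zero'.2 h]
  have a := Real.pow_div_factorial_le_exp y h 2
  have b := Real.pow_div_factorial_le_exp y h 3
  have c : √y ≤ 1 + y := Real.sqrt_le_iff.2 ⟨by positivity, by nlinarith⟩
  rw [Real.exp_neg, mul_right_comm, ← div_eq_mul_inv, div_le_iff₀ (Real.exp_pos _)]
  norm_num [Nat.factorial] at a b
  nlinarith [mul_le_mul_of_nonneg_right c (sq_nonneg y)]

theorem ker : KerSt := by
  refine ⟨3 * 18 * (1 + ∑' m : ℕ, ((m : ℝ) + 1) ^ (-(3 / 2) : ℝ)), fun N τ hN h => ?_⟩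
  have N0 : 0 < N := by linarith
  have s0 := Real.sqrt_pos.2 N0
  set f : ℝ → ℂ := fun x => (√(x / N) * Real.exp (-(x / N)) : ℝ) * ex (-(τ * Real.log x)) with hf
  have f0 x (hx : x ≤ 0) : f x = 0 := by
    simp [hf, Real.sqrt_eq_zero'.2 (div_nonpos_of_nonpos_of_nonneg hx N0.le)]
  have fn x : ‖f x‖ = √(x / N) * Real.exp (-(x / N)) := by
    rw [hf, norm_mul, norm_ex, mul_one, norm_real, Real.norm_of_nonneg (by positivity)]
  have fc : Continuous f := continuous_iff_continuousAt.2 fun x => by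
    rcases eq_or_ne x 0 with rfl | e
    · rw [ContinuousAt, f0 0 le_rfl, tendsto_zero_iff_norm_tendsto_zero]
      simp only [fn]
      exact Continuous.tendsto' (by fun_prop) _ _ (by simp)
    · exact .mul (by fun_prop) (cont_ex.continuousAt.comp
        ((Real.continuousAt_log e).const_mul τ).neg)
  have ft ξ : 𝓕 f ξ = gam τ / (√N : ℝ) * zt N τ (-ξ) := by
    have := ker_lap (s := 3 / 2 - τ * I) (z := 1 / N - 2 * π * (-ξ : ℝ) * I) (by simp) (by simpa)
    rw [Real.fourier_real_eq_integral_exp_smul, ← setIntegral_eq_integral_of_forall_compl_eq_zero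
      (s := Set.Ioi 0) fun x hx => by rw [f0 x (not_lt.1 hx), smul_zero],
      setIntegral_congr_fun measurableSet_Ioi (g := fun x : ℝ => ((√N : ℝ) : ℂ)⁻¹ *
        (x ^ (3 / 2 - τ * I - 1 : ℂ) * exp (-((1 / N - 2 * π * (-ξ : ℝ) * I) * x))))
        fun x (hx : 0 < x) => ?_, integral_const_mul, this, gam, zt, neg_sub', sub_neg_eq_add,
      Real.exp_neg]
    · have := (Real.exp_pos (π * τ / 2)).ne'
      push_cast
      field_simp
    · simp only [hf, smul_eq_mul, ex]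
      rw [Real.sqrt_div hx.le, Real.sqrt_eq_rpow x, Real.rpow_def_of_pos hx,
        cpow_def_of_ne_zero (ofReal_ne_zero.2 hx.ne'), ← ofReal_log hx.le]
      push_cast
      simp only [div_eq_mul_inv _ (√N : ℂ), mul_comm _ (√N : ℂ)⁻¹, mul_left_comm _ (√N : ℂ)⁻¹,
        mul_assoc, ← exp_add]
      congr 2
      ring
  have b2 (m : ℕ) : ‖zt N τ (-((m + 1 : ℕ) : ℝ))‖ ≤ (m + 1 : ℝ) ^ (-(3 / 2) : ℝ) * Real.exp (-τ) :=
    ker_z2 N0 h (by positivity) (by positivity) (le_trans (by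
      rw [abs_neg, abs_of_nonneg (by positivity)]
      push_cast
      nlinarith [Real.pi_gt_three, m.cast_nonneg (α := ℝ)]) (ker_im _ _))
  have s1 : Summable fun m : ℕ => zt N τ (-(m : ℝ)) :=
    (summable_nat_add_iff 1).1 (.of_norm_bounded (ker_sm.mul_right _) b2)
  have s2 : Summable fun m : ℕ => zt N τ (m + 1) := .of_norm_bounded ker_sm (ker_z1 zt_ok hN h)
  have hs : HasSum (fun n : ℤ => 𝓕 f n) (gam τ / (√N : ℝ) * ∑' m : ℕ, zt N τ (-(m : ℝ)) + Gm N τ) :=
    .of_nat_of_neg_add_one (by simpa only [ft, Int.cast_natCast] using s1.hasSum.mul_left _)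
      (by simpa [ft, add_comm, Gm] using s2.hasSum.mul_left (gam τ / (√N : ℝ)))
  have := Real.tsum_eq_tsum_fourier_of_rpow_decay_of_summable fc one_lt_two
    (.of_bound (8 * N ^ 2) (by
      filter_upwards [isCompact_singleton (x := (0 : ℝ)).compl_mem_cocompact] with x hx
      have x0 : 0 < |x| := abs_pos.2 hx
      rw [fn, Real.norm_of_nonneg (by positivity), Real.rpow_neg x0.le, Real.rpow_two, sq_abs,
        ← div_eq_mul_inv, le_div_iff₀ (sq_pos_of_ne_zero hx), ← div_le_iff₀ (by positivity),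
        mul_div_assoc, ← div_pow]
      exact ker_w _)) hs.summable 0
  simp only [zero_add, AddCircle.coe_zero, fourier_eval_zero, mul_one, hs.tsum_eq] at this
  rw [← Nat.cast_injective.tsum_eq (f := fun n : ℤ => f n) fun n hn => ⟨n.toNat, Int.toNat_of_nonneg
    (by_contra fun c => hn (f0 _ (by exact_mod_cast (not_le.1 c).le)))⟩] at this
  rw [show Gk N τ = _ from this, add_sub_cancel_right, s1.tsum_eq_zero_add, norm_mul, norm_div,
    norm_real, Real.norm_of_nonneg s0.le]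
  have b0 := ker_z2 (x := 0) (y := N⁻¹) N0 h le_rfl (by positivity) (by simp [abs_of_pos N0])
  have b1 := tsum_of_norm_bounded (ker_sm.hasSum.mul_right _) b2
  have Z0 : 0 ≤ ∑' m : ℕ, ((m : ℝ) + 1) ^ (-(3 / 2) : ℝ) := by positivity
  generalize ∑' m : ℕ, ((m : ℝ) + 1) ^ (-(3 / 2) : ℝ) = Z at *
  have e1 : N⁻¹ ^ (-(3 / 2) : ℝ) = √N * N := by
    rw [Real.inv_rpow N0.le, Real.rpow_neg N0.le, inv_inv, Real.sqrt_eq_rpow,
      ← Real.rpow_add_one N0.ne']
    norm_num
  have e2 : (1 + τ) ^ 3 * Real.exp (-τ) ≤ 18 := by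
    have a := Real.pow_div_factorial_le_exp (1 + τ) (by positivity) 3
    rw [Real.exp_neg, ← div_eq_mul_inv, div_le_iff₀ (Real.exp_pos _)]
    norm_num [Nat.factorial, Real.exp_add] at a
    nlinarith [Real.exp_one_lt_three, Real.exp_pos τ]
  have e3 : 1 ≤ √N * N := one_le_mul_of_one_le_of_one_le (Real.one_le_sqrt.2 hN) hN
  rw [Nat.cast_zero]
  calc _ ≤ 3 * (1 + τ) / √N * (√N * N * Real.exp (-τ) + √N * N * Z * Real.exp (-τ)) := by
        gcongr
        · exact zt_ok.1 τ h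
        · refine norm_add_le_of_le (e1 ▸ b0) (b1.trans ?_)
          gcongr
          exact le_mul_of_one_le_left Z0 e3
    _ = 3 * ((1 + τ) ^ 3 * Real.exp (-τ)) * (1 + Z) * N / (1 + τ) ^ 2 := by field_simp
    _ ≤ _ := by gcongr

lemma ker_sep {S : Finset ℝ} (h : Sep S) (t : ℝ) : ∑ s ∈ S.filter (· < t), 1 / (1 + (t - s)) ^ 2 ≤
    ∑' m : ℕ, ((m : ℝ) + 1) ^ (-(3 / 2) : ℝ) := by
  refine le_trans ?_ (ker_sm.sum_le_tsum ((S.filter (· < t)).image fun s => ⌊t - s⌋₊)
    fun _ _ => by positivity)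
  rw [sum_image fun a ha b hb e => ?_]
  · refine sum_le_sum fun s hs => ?_
    have a := sub_pos.2 (mem_filter.1 hs).2
    rw [one_div, ← Real.rpow_two, ← Real.rpow_neg (by positivity)]
    exact (Real.rpow_le_rpow_of_exponent_le (by linarith) (by norm_num)).trans
      (Real.rpow_le_rpow_of_nonpos (by positivity) (by linarith [Nat.floor_le a.le]) (by norm_num))
  · by_contra c
    have a := mem_filter.1 (mem_coe.1 ha)
    have b := mem_filter.1 (mem_coe.1 hb)
    have := h _ a.1 _ b.1 c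
    have := Int.abs_sub_lt_one_of_floor_eq_floor ((Int.natCast_floor_eq_floor (sub_pos.2 a.2).le).symm.trans
      ((congrArg _ e).trans (Int.natCast_floor_eq_floor (sub_pos.2 b.2).le)))
    rw [sub_sub_sub_cancel_left, abs_sub_comm] at this
    linarith

theorem hm (_hs : HsSt) (ker : KerSt) (triv : TrivSt) : HmSt := by
  obtain ⟨C, ker⟩ := ker
  obtain ⟨D, triv⟩ := triv
  have Z0 : 0 ≤ ∑' m : ℕ, ((m : ℝ) + 1) ^ (-(3 / 2) : ℝ) := by positivity
  have sp := @ker_sep
  generalize ∑' m : ℕ, ((m : ℝ) + 1) ^ (-(3 / 2) : ℝ) = Z at *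
  refine ⟨9 * (|C| + |D| + 2 * (|C| * Z) + 2), by nlinarith [abs_nonneg C, abs_nonneg D],
    fun N a T V S hN V0 ⟨a1, a2, a3⟩ => ?_⟩
  have N1 : (1 : ℝ) ≤ N := by exact_mod_cast hN
  have N0 : (0 : ℝ) < N := by linarith
  choose v v1 v2 using fun t => exists_norm_eq_mul_self (DP N a t)
  refine ⟨v, fun t => (v1 t).le, ?_⟩
  set w : ℕ → ℝ := fun n => √(n / N) * Real.exp (-(n / N)) with hw
  set B : ℕ → ℂ := fun n => ∑ t ∈ S, v t * ex (-(t * Real.log n)) with hB
  have w0 n : 0 ≤ w n := by positivity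
  have ws : Summable w := (summable_nat_add_iff 1).1 (.of_nonneg_of_le (fun _ => w0 _) (fun n => by
    have := ker_w ((n + 1 : ℕ) / N)
    rwa [div_pow, ← mul_div_assoc, div_le_iff₀ (by positivity), ← le_div_iff₀ (by positivity),
      ← mul_one_div (8 * _)] at this) (((summable_nat_add_iff 1).2
        (Real.summable_one_div_nat_pow.2 one_lt_two)).mul_left (8 * (N : ℝ) ^ 2)))
  have gs τ : HasSum (fun n : ℕ => (w n : ℂ) * ex (-(τ * Real.log n))) (Gk N τ) :=
    (Summable.of_norm_bounded ws fun n => by simp [abs_of_nonneg (w0 n)]).hasSum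
  have h1 : #S * V ≤ ∑ n ∈ Ico N (2 * N), ‖B n‖ := by
    have e : ((∑ t ∈ S, ‖DP N a t‖ : ℝ) : ℂ) = ∑ n ∈ Ico N (2 * N), a n * B n := by
      simp only [ofReal_sum, hB, mul_sum, mul_left_comm (a _)]
      rw [sum_comm]
      exact sum_congr rfl fun t _ => (v2 t).trans (by rw [DP, mul_sum])
    calc _ ≤ ∑ t ∈ S, ‖DP N a t‖ := by
          simpa using card_nsmul_le_sum S _ V fun t ht => (a3 t ht).2.2
      _ ≤ _ := (le_abs_self _).trans ((norm_real _).ge.trans (e ▸ norm_sum_le_of_le _ fun n _ =>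
          (norm_mul _ _).trans_le (mul_le_of_le_one_left (norm_nonneg _) (a1 n))))
  have h2 : HasSum (fun n => ((w n * ‖B n‖ ^ 2 : ℝ) : ℂ))
      (∑ t ∈ S, ∑ s ∈ S, v t * conj (v s) * Gk N (t - s)) := by
    refine (hasSum_sum fun t (_ : t ∈ S) => hasSum_sum fun s (_ : s ∈ S) =>
      (gs (t - s)).mul_left (v t * conj (v s))).congr_fun fun n => ?_
    rw [ofReal_mul, ofReal_pow, ← mul_conj', hB, map_sum, sum_mul_sum, mul_sum]
    refine sum_congr rfl fun t _ => (mul_sum ..).trans (sum_congr rfl fun s _ => ?_)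
    rw [map_mul, mul_mul_mul_comm, ex_mul_conj, mul_left_comm]
    congr 3
    ring
  have h3 : ∑ n ∈ Ico N (2 * N), ‖B n‖ ^ 2 ≤
      9 * ‖∑ t ∈ S, ∑ s ∈ S, v t * conj (v s) * Gk N (t - s)‖ := by
    refine le_trans ?_ (mul_le_mul_of_nonneg_left ((sum_le_hasSum (Ico N (2 * N))
      (fun n _ => by rw [ofReal_re]; exact mul_nonneg (w0 n) (sq_nonneg _)) (hasSum_re h2)).trans (re_le_norm _)) (by norm_num))
    rw [mul_sum]
    refine sum_le_sum fun n hn => ?_
    have u1 : (1 : ℝ) ≤ n / N := (one_le_div N0).2 (by exact_mod_cast (mem_Ico.1 hn).1)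
    have u2 : (n / N : ℝ) ≤ 1 + 1 := (div_le_iff₀ N0).2 (by exact_mod_cast (mem_Ico.1 hn).2.le)
    have u3 := Real.exp_le_exp.2 u2
    rw [Real.exp_add] at u3
    rw [ofReal_re, ← mul_assoc]
    refine le_mul_of_one_le_left (sq_nonneg _) ?_
    simp only [hw]
    rw [Real.exp_neg, ← mul_assoc, ← div_eq_mul_inv, one_le_div (Real.exp_pos _)]
    nlinarith [Real.one_le_sqrt.2 u1, Real.exp_one_lt_three, Real.exp_pos 1]
  have cj τ : Gk N (-τ) = conj (Gk N τ) := by
    simp only [Gk, conj_tsum, map_mul, conj_ofReal, conj_ex, neg_mul]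
  have h4 : ∑ t ∈ S, ∑ s ∈ S, v t * conj (v s) * Gk N (t - s) =
      ∑ t ∈ S, ∑ s ∈ S.filter (· < t), v t * conj (v s) * Gk N (t - s) +
      (∑ t ∈ S, v t * conj (v t) * Gk N 0 +
        conj (∑ t ∈ S, ∑ s ∈ S.filter (· < t), v t * conj (v s) * Gk N (t - s))) := by
    simp only [map_sum, map_mul, conj_conj, ← cj, sum_filter, apply_ite conj, map_zero]
    rw [sum_comm (f := fun t s => if s < t then conj (v t) * v s * _ else 0), ← sum_add_distrib,
      ← sum_add_distrib]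
    refine sum_congr rfl fun t ht => ?_
    rw [← (sum_ite_eq' S t fun _ => v t * conj (v t) * Gk N 0).trans (if_pos ht), ← sum_add_distrib,
      ← sum_add_distrib]
    refine sum_congr rfl fun s _ => ?_
    rcases lt_trichotomy s t with h | rfl | h
    · simp [h, h.ne, h.not_gt]
    · simp
    · simp [h, h.ne', h.not_gt, mul_comm (v t)]
  have h5 : ‖∑ t ∈ S, v t * conj (v t) * Gk N 0‖ ≤ #S * ((|C| + |D|) * N) := by
    refine (norm_sum_le_of_le _ fun t _ => ?_).trans_eq (by rw [sum_const, nsmul_eq_mul])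
    have b1 := ker N 0 N1 le_rfl
    have b2 := triv N 0 N1 le_rfl
    have b3 : D / √N ≤ |D| * N := (div_le_div_of_nonneg_right (le_abs_self D) (Real.sqrt_nonneg _)).trans
      ((div_le_self (abs_nonneg _) (Real.one_le_sqrt.2 N1)).trans (le_mul_of_one_le_right (abs_nonneg _) N1))
    simp only [norm_mul, RCLike.norm_conj, v1, add_zero, one_pow, div_one, mul_one, one_mul] at *
    nlinarith [norm_le_insert' (Gk N 0) (Gm N 0), le_abs_self C]
  have h6 : ‖∑ t ∈ S, ∑ s ∈ S.filter (· < t), v t * conj (v s) * Gk N (t - s)‖ ≤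
      ‖∑ t ∈ S, ∑ s ∈ S.filter (· < t), v t * conj (v s) * Gm N (t - s)‖ + #S * (|C| * N * Z) := by
    refine (norm_le_insert' _ _).trans (add_le_add_right ?_ _)
    rw [← sum_sub_distrib]
    refine (norm_sum_le_of_le _ fun t _ => ?_).trans_eq (by rw [sum_const, nsmul_eq_mul])
    rw [← sum_sub_distrib]
    refine (norm_sum_le_of_le _ fun s hs => ?_).trans
      ((mul_sum ..).ge.trans (mul_le_mul_of_nonneg_left (sp a2 t) (by positivity)))
    rw [← mul_sub, norm_mul, norm_mul, RCLike.norm_conj, v1, v1, one_mul, one_mul, mul_one_div]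
    refine (ker N _ N1 (sub_pos.2 (mem_filter.1 hs).2).le).trans ?_
    gcongr
    exact le_abs_self C
  have h7 := (pow_le_pow_left₀ (by positivity) h1 2).trans (sq_sum_le_card_mul_sum_sq.trans
    (mul_le_mul_of_nonneg_left h3 (Nat.cast_nonneg _)))
  have h8 := h4 ▸ norm_add_le_of_le h6 (norm_add_le_of_le h5 ((RCLike.norm_conj _).trans_le h6))
  rw [Nat.card_Ico, show 2 * N - N = N by omega] at h7
  refine h7.trans ((mul_le_mul_of_nonneg_left (mul_le_mul_of_nonneg_left h8 (by norm_num)) N0.le).trans ?_)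
  generalize ∑ t ∈ S, ∑ s ∈ S.filter (· < t), v t * conj (v s) * Gm N (t - s) = X
  have : 0 ≤ N ^ 2 * #S * 18 + (|C| + |D| + 2 * (|C| * Z)) * N * ‖X‖ * 9 := by positivity
  linarith

end Pool.Agent.Lib.MP_a93a41_nt.TH
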