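import Pool.Agent.Lib.MP_a93a41_nt.TH0

/-! Linearisation of the resonance phase on short cells. -/

namespace Pool.Agent.Lib.MP_a93a41_nt.TH

open Finset Complex
open scoped Real ComplexConjugate

/-- normalised correlation of two kernels on a cell -/
noncomputable def linF (W : Finset ℝ) (H a : ℝ) (p : ℝ × ℝ) : ℝ :=
  (#(cell W H a) : ℝ)⁻¹ * ‖∑ t ∈ cell W H a, kk (t - p.1) * conj (kk (t - p.2))‖

lemma linF_le (W : Finset ℝ) (H a : ℝ) (p : ℝ × ℝ) : linF W H a p ≤ 1 := by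
  refine inv_mul_le_one_of_le₀ ((norm_sum_le _ _).trans (by simp)) (Nat.cast_nonneg _)

lemma lin_sq {ι : Type} (A : Finset ι) (f : ι → ℂ) :
    ((‖∑ i ∈ A, f i‖ ^ 2 : ℝ) : ℂ) = ∑ p ∈ A ×ˢ A, f p.1 * conj (f p.2) := by
  rw [sum_product' (f := fun i j => f i * conj (f j)), ← sum_mul_sum, ← map_sum, mul_conj,
    normSq_eq_norm_sq]

lemma lin_a (W1 W2 : Finset ℝ) {α : ℝ → ℂ} (hα : U1 α) (H : ℝ) :
    (∑ s ∈ W2, ‖SW W1 α s‖) ^ 2 ≤ #W1 * ∑ p ∈ W2 ×ˢ W2, ∑ a ∈ W1, linF W1 H a p := by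
  choose β h1 h2 using fun s => exists_norm_eq_mul_self (SW W1 α s)
  have e1 : ((∑ s ∈ W2, ‖SW W1 α s‖ : ℝ) : ℂ) = ∑ t ∈ W1, α t * ∑ s ∈ W2, β s * kk (t - s) := by
    simp only [ofReal_sum, h2, mul_sum]
    rw [sum_comm]
    refine sum_congr rfl fun s _ => ?_
    rw [SW, mul_sum]
    exact sum_congr rfl fun t _ => by ring
  have l1 : ∑ s ∈ W2, ‖SW W1 α s‖ ≤ ∑ t ∈ W1, ‖∑ s ∈ W2, β s * kk (t - s)‖ := by
    refine (le_abs_self _).trans ?_
    rw [← Real.norm_eq_abs, ← norm_real, e1]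
    refine norm_sum_le_of_le _ fun t _ => ?_
    rw [norm_mul]
    exact mul_le_of_le_one_left (norm_nonneg _) (hα t)
  refine (pow_le_pow_left₀ (sum_nonneg fun _ _ => norm_nonneg _) l1 2).trans
    (sq_sum_le_card_mul_sum_sq.trans (mul_le_mul_of_nonneg_left ?_ (Nat.cast_nonneg _)))
  refine (le_abs_self _).trans ?_
  rw [← Real.norm_eq_abs, ← norm_real, ofReal_sum]
  simp only [lin_sq]
  rw [sum_comm]
  refine norm_sum_le_of_le _ fun p _ => ?_
  have e2 : ∑ t ∈ W1, β p.1 * kk (t - p.1) * conj (β p.2 * kk (t - p.2)) =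
      β p.1 * conj (β p.2) * ∑ t ∈ W1, kk (t - p.1) * conj (kk (t - p.2)) := by
    rw [mul_sum]
    exact sum_congr rfl fun t _ => by rw [map_mul]; ring
  rw [e2, norm_mul, norm_mul, norm_conj, h1, h1, one_mul, one_mul, ← cell_avg W1 H]
  refine norm_sum_le_of_le _ fun a _ => ?_
  rw [norm_smul, linF, norm_inv, Real.norm_natCast]

lemma lin_ph {x y : ℝ} (hx : 0 < x) (hy : 0 < y) :
    0 ≤ ph y - ph x - (1 + Real.log x) * (y - x) ∧
      ph y - ph x - (1 + Real.log x) * (y - x) ≤ (y - x) ^ 2 / x := by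
  have e : ph y - ph x - (1 + Real.log x) * (y - x) = y * Real.log (y / x) - (y - x) := by
    rw [Real.log_div hy.ne' hx.ne', ph, ph]; ring
  have h1 := mul_le_mul_of_nonneg_left (Real.log_le_sub_one_of_pos (div_pos hy hx)) hy.le
  have h2 := mul_le_mul_of_nonneg_left (Real.one_sub_inv_le_log_of_pos (div_pos hy hx)) hy.le
  have e1 : y * (1 - (y / x)⁻¹) = y - x := by field_simp
  have e2 : (y - x) ^ 2 / x = y * (y / x - 1) - (y - x) := by field_simp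
  rw [e, e2]
  constructor <;> linarith

lemma lin_b {C : Finset ℝ} {a H T : ℝ} {p : ℝ × ℝ} (hT : 0 < T) (h1 : ∀ t ∈ C, |t - a| ≤ H)
    (h2 : ∀ t ∈ insert a C, T ≤ t - p.1 ∧ T ≤ t - p.2) :
    ‖∑ t ∈ C, kk (t - p.1) * conj (kk (t - p.2))‖ ≤
      ‖∑ t ∈ C, ex ((t - a) * Real.log ((a - p.1) / (a - p.2)))‖ + #C * (H ^ 2 / T) := by
  have ha := h2 a (mem_insert_self _ _)
  rw [← one_mul ‖∑ t ∈ C, ex _‖, ← norm_ex (ph (a - p.1) - ph (a - p.2)), ← norm_mul, mul_sum]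
  refine (norm_le_insert' _ _).trans (add_le_add le_rfl ?_)
  rw [← sum_sub_distrib, ← nsmul_eq_mul]
  refine (norm_sum_le _ _).trans (sum_le_card_nsmul _ _ _ fun t ht => ?_)
  have hb := h2 t (mem_insert_of_mem ht)
  rw [kk, kk, ex_mul_conj, ← ex_add, Real.log_div (by linarith) (by linarith)]
  refine (ex_sub _ _).trans ?_
  have q : ∀ s, T ≤ a - s → (t - s - (a - s)) ^ 2 / (a - s) ≤ H ^ 2 / T := fun s hs => by
    rw [sub_sub_sub_cancel_right, ← sq_abs]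
    gcongr
    exact h1 t ht
  have k1 := lin_ph (x := a - p.1) (y := t - p.1) (by linarith) (by linarith)
  have k2 := lin_ph (x := a - p.2) (y := t - p.2) (by linarith) (by linarith)
  have := q _ ha.1
  have := q _ ha.2
  rw [abs_le]
  constructor <;> linarith [k1.1, k1.2, k2.1, k2.2]

lemma lin_int (h a b : ℝ) : ‖∫ u in a..b, ex (h * u)‖ * |h| ≤ 2 := by
  rcases eq_or_ne h 0 with rfl | h0
  · simp
  have e : ∀ u : ℝ, ex (h * u) = exp (h * I * u) := fun u => by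
    rw [ex]; push_cast; ring_nf
  simp only [e]
  rw [integral_exp_mul_complex (by simpa using h0), norm_div, ← e, ← e, norm_mul, norm_I,
    mul_one, norm_real, Real.norm_eq_abs, div_mul_cancel₀ _ (by simpa using h0)]
  exact (norm_sub_le _ _).trans (by norm_num)

lemma lin_ms (hs : HsSt) {C : Finset ℝ} {a H κ : ℝ} (hκ : 2 ≤ κ) (hH : 1 ≤ H)
    (hl : 1 + Real.log H ≤ κ) (sep : Sep C) (h1 : ∀ t ∈ C, ∀ u ∈ C, |t - u| ≤ H) :
    ∫ u in (-κ)..(κ + 1), ‖∑ t ∈ C, ex ((t - a) * u)‖ ^ 2 ≤ #C * (24 * κ ^ 2) := by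
  refine (le_abs_self _).trans ?_
  rw [← Real.norm_eq_abs, ← norm_real, ← intervalIntegral.integral_ofReal]
  have e : ∀ (p : ℝ × ℝ) (u : ℝ), ex ((p.1 - a) * u) * conj (ex ((p.2 - a) * u)) =
      ex ((p.1 - p.2) * u) := fun p u => by rw [ex_mul_conj]; congr 1; ring
  simp only [lin_sq, e]
  rw [intervalIntegral.integral_finsetSum (f := fun (p : ℝ × ℝ) u => ex ((p.1 - p.2) * u))
    fun p _ => (cont_ex.comp (by fun_prop)).intervalIntegrable _ _, sum_product_right,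
    ← nsmul_eq_mul]
  refine (norm_sum_le _ _).trans (sum_le_card_nsmul _ _ _ fun t' ht' => ?_)
  refine (norm_sum_le _ _).trans ((hs C (fun t => ‖∫ u in (-κ)..(κ + 1), ex ((t - t') * u)‖) t' 1 2
    H (3 * κ) one_pos hH (by linarith) sep.ib fun t ht => ⟨by simpa using h1 t ht t' ht', ?_,
      (lin_int _ _ _).trans (by linarith)⟩).trans (by nlinarith))
  refine (intervalIntegral.norm_integral_le_of_norm_le_const (C := 1) fun u _ => by simp).trans ?_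
  rw [one_mul, abs_of_nonneg (by linarith)]
  linarith

lemma lin_c (hs : HsSt) (lv : LvSt) {ι : Type} {C : Finset ℝ} {a H κ : ℝ} (hκ : 2 ≤ κ)
    (hH : 1 ≤ H) (hl : 1 + Real.log H ≤ κ) (sep : Sep C) (ha : a ∈ C)
    (h1 : ∀ t ∈ C, ∀ u ∈ C, |t - u| ≤ H) (hm : √H / κ ≤ #C) (E : Finset ι) (u : ι → ℝ)
    (hu : ∀ p ∈ E, |u p| ≤ κ ∧ #C / (4 * κ ^ 6) ≤ ‖∑ t ∈ C, ex ((t - a) * u p)‖) :
    (#(E.image fun p => ⌊H * u p⌋) : ℝ) ≤ κ ^ 50 * √H := by
  have H0 : 0 < H := by linarith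
  have k0 : 0 < κ := by linarith
  have m0 : (0 : ℝ) < #C := by exact_mod_cast card_pos.2 ⟨a, ha⟩
  obtain ⟨Y, hY, inj, im⟩ := exists_subset_injOn_image_eq_of_surjOn
    (f := fun y => ⌊H * y⌋) (E.image u : Set ℝ) (E.image fun p => ⌊H * u p⌋) (by
      intro i hi
      obtain ⟨p, hp, rfl⟩ := mem_image.1 (mem_coe.1 hi)
      exact ⟨u p, mem_coe.2 (mem_image_of_mem _ hp), rfl⟩)
  rw [← im, card_image_of_injOn inj]
  have k6 : 1 ≤ κ ^ 6 := one_le_pow₀ (by linarith)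
  have w1 : 1 / (8 * κ ^ 6 * H) ≤ 1 / H := by gcongr; nlinarith
  have w2 : 1 / H ≤ 1 := (div_le_one H0).2 hH
  have ib : Ib Y (1 / H) (2 * 1) := ib_of_cell (by positivity) zero_le_one fun t ht => by
    norm_cast
    refine card_le_one.2 fun x hx y hy => inj (cell_sub _ _ _ hx) (cell_sub _ _ _ hy) ?_
    have := (mem_filter.1 hx).2.trans (mem_filter.1 hy).2.symm
    simpa [mul_comm] using this
  have := lv (fun v => ‖∑ t ∈ C, ex ((t - a) * v)‖) Y (-κ) (κ + 1) (#C * H) (1 / (8 * κ ^ 6 * H))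
    (#C / (4 * κ ^ 6)) (2 * 1) (by linarith) (by positivity) (by positivity)
    (le_of_eq (by field_simp; norm_num)) (fun x _ y _ => ?_) (fun y hy => ?_)
    (ib.mono Subset.rfl w1 le_rfl)
  · have h2 := this.trans (mul_le_mul_of_nonneg_left (lin_ms hs hκ hH hl sep h1) (by norm_num))
    have s0 := Real.sqrt_pos.2 H0
    have s1 := Real.mul_self_sqrt H0.le
    rw [div_le_iff₀ k0] at hm
    have e : (#Y : ℝ) * (1 / (8 * κ ^ 6 * H)) * (#C / (4 * κ ^ 6)) ^ 2 / 4 =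
        #Y * #C / (512 * κ ^ 18 * H) * #C := by field_simp; ring
    rw [e, mul_left_comm, mul_comm (#C : ℝ), mul_le_mul_iff_left₀ m0,
      div_le_iff₀ (by positivity)] at h2
    have k29 : (24576 : ℝ) ≤ κ ^ 29 := le_trans (by norm_num) (pow_le_pow_left₀ (by norm_num) hκ 29)
    refine le_of_mul_le_mul_right ?_ s0
    calc (#Y : ℝ) * √H ≤ #Y * (#C * κ) := by gcongr
      _ = #Y * #C * κ := by ring
      _ ≤ 2 * 1 * (24 * κ ^ 2) * (512 * κ ^ 18 * H) * κ := by gcongr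
      _ = 24576 * (κ ^ 21 * H) := by ring
      _ ≤ κ ^ 29 * (κ ^ 21 * H) := by gcongr
      _ = _ := by rw [mul_assoc (κ ^ 50), s1]; ring
  · refine (abs_norm_sub_norm_le _ _).trans ?_
    rw [← sum_sub_distrib, mul_assoc, ← nsmul_eq_mul]
    refine (norm_sum_le _ _).trans (sum_le_card_nsmul _ _ _ fun t ht => (ex_sub _ _).trans ?_)
    rw [← mul_sub, abs_mul]
    exact mul_le_mul_of_nonneg_right (h1 t ht a ha) (abs_nonneg _)
  · obtain ⟨p, hp, rfl⟩ := mem_image.1 (mem_coe.1 (hY hy))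
    have := abs_le.1 (hu p hp).1
    exact ⟨this.1, by linarith [this.2], (hu p hp).2⟩

open Classical in
lemma lin_pick {ι : Type} {W D : Finset ℝ} {P : Finset ι} (R : ℝ → ι → Prop) {θ w x : ℝ}
    (hθ : 0 < θ) (hx : 0 < x) (hP : x ≤ #P) (h : ∀ p ∈ P, θ ≤ #(W.filter (R · p)))
    (hD : #D ≤ θ / 2) (hW : #W ≤ w) :
    ∃ a ∈ W, a ∉ D ∧ x * (θ / (2 * w)) ≤ #(P.filter (R a)) := by
  have l : ∀ p ∈ P, θ / 2 ≤ #((W \ D).filter (R · p)) := fun p hp => by
    have : #(W.filter (R · p)) ≤ #((W \ D).filter (R · p)) + #D :=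
      (card_le_card fun a ha => by
        by_cases c : a ∈ D <;> simp_all).trans (card_union_le _ _)
    have : (#(W.filter (R · p)) : ℝ) ≤ #((W \ D).filter (R · p)) + #D := by exact_mod_cast this
    linarith [h p hp]
  have s : x * (θ / 2) ≤ ∑ a ∈ W \ D, (#(P.filter (R a)) : ℝ) := by
    have e : ∑ a ∈ W \ D, (#(P.filter (R a)) : ℝ) = ∑ p ∈ P, (#((W \ D).filter (R · p)) : ℝ) := by
      simp only [card_filter, Nat.cast_sum]
      exact sum_comm
    rw [e]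
    exact (mul_le_mul_of_nonneg_right hP (by positivity)).trans
      (by simpa using card_nsmul_le_sum P _ _ l)
  by_contra c
  push Not at c
  have c1 : (#(W \ D) : ℝ) ≤ w := le_trans (by exact_mod_cast card_le_card sdiff_subset) hW
  rcases (W \ D).eq_empty_or_nonempty with e | ne
  · rw [e, sum_empty] at s
    exact absurd s (not_le.2 (by positivity))
  have w0 : 0 < w := lt_of_lt_of_le (by exact_mod_cast card_pos.2 ne) c1
  have := sum_lt_sum_of_nonempty ne fun a ha => c a (mem_sdiff.1 ha).1 (mem_sdiff.1 ha).2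
  rw [sum_const, nsmul_eq_mul] at this
  have c2 : #(W \ D) * (x * (θ / (2 * w))) ≤ w * (x * (θ / (2 * w))) := by gcongr
  have : w * (x * (θ / (2 * w))) = x * (θ / 2) := by field_simp
  linarith

lemma lin_near {W B : Finset ℝ} {κ q H c : ℝ} (hκ : 2 ≤ κ) (q0 : 0 < q) (hH : κ ^ 48 ≤ H)
    (f : Fr W κ (q ^ 2 / H)) (s : B ⊆ W) (b : ∀ t ∈ B, |t - c| ≤ q ^ 2 / κ ^ 50) :
    (#B : ℝ) ≤ q / κ ^ 23 := by
  have k0 : 0 < κ := by linarith
  refine Ib.near ((f (q ^ 2 / κ ^ 48) (by gcongr)).mono Subset.rfl ?_ (le_of_eq ?_)) s b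
  · rw [← mul_div_assoc, div_le_div_iff₀ (by positivity) (by positivity)]
    calc 2 * q ^ 2 * κ ^ 48 ≤ κ ^ 2 * q ^ 2 * κ ^ 48 := by gcongr; nlinarith
      _ = _ := by ring
  · rw [show q ^ 2 / κ ^ 48 = (q / κ ^ 24) ^ 2 by ring, Real.sqrt_sq (by positivity)]
    field_simp

lemma lin_log {x y T κ : ℝ} (hT : 0 < T) (hx : x ≤ κ * T) (hx' : T ≤ x) (hy : T ≤ y) :
    Real.log (x / y) ≤ κ := by
  have : x / y ≤ κ := (div_le_iff₀ (by linarith)).2 (hx.trans (by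
    have : 0 < κ := (mul_pos_iff_of_pos_right hT).1 (by linarith)
    gcongr))
  linarith [Real.log_le_sub_one_of_pos (div_pos (by linarith : 0 < x) (by linarith : 0 < y))]

open Classical in
lemma lin_many {W1 W2 : Finset ℝ} {α : ℝ → ℂ} {κ q H : ℝ} (hκ : 2 ≤ κ) (q0 : 0 < q) (hα : U1 α)
    (c1 : #W1 ≤ κ * q) (c2 : #W2 ≤ κ * q) (hS : q ^ 2 / κ ≤ ∑ s ∈ W2, ‖SW W1 α s‖) :
    q ^ 2 / (4 * κ ^ 4) ≤ #((W2 ×ˢ W2).filter fun p =>
      q / (4 * κ ^ 5) ≤ #(W1.filter fun a => 1 / (2 * κ ^ 6) ≤ linF W1 H a p)) := by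
  have k0 : 0 < κ := by linarith
  set Q := fun p : ℝ × ℝ => q / (4 * κ ^ 5) ≤ #(W1.filter fun a => 1 / (2 * κ ^ 6) ≤ linF W1 H a p)
  have b : ∀ p ∈ W2 ×ˢ W2, ∑ a ∈ W1, linF W1 H a p ≤
      (if Q p then κ * q else 0) + 3 * q / (4 * κ ^ 5) := fun p _ => by
    split_ifs with h
    · refine le_trans ?_ (le_add_of_nonneg_right (by positivity))
      exact (sum_le_card_nsmul _ _ 1 fun a _ => linF_le _ _ _ _).trans (by simpa using c1)
    · have : ∑ a ∈ W1, linF W1 H a p ≤ ∑ a ∈ W1,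
          ((if 1 / (2 * κ ^ 6) ≤ linF W1 H a p then 1 else 0) + 1 / (2 * κ ^ 6)) :=
        sum_le_sum fun a _ => by
          split_ifs with k
          · exact (linF_le _ _ _ _).trans (le_add_of_nonneg_right (by positivity))
          · linarith
      rw [sum_add_distrib, sum_boole, sum_const, nsmul_eq_mul] at this
      have e : 3 * q / (4 * κ ^ 5) = q / (4 * κ ^ 5) + κ * q * (1 / (2 * κ ^ 6)) := by
        field_simp; ring
      have : #W1 * (1 / (2 * κ ^ 6)) ≤ κ * q * (1 / (2 * κ ^ 6)) := by gcongr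
      linarith [not_le.1 h]
  have s := sum_le_sum b
  rw [sum_add_distrib, ← sum_filter, sum_const, sum_const, nsmul_eq_mul, nsmul_eq_mul,
    card_product, Nat.cast_mul] at s
  have s2 : (#W2 : ℝ) * #W2 * (3 * q / (4 * κ ^ 5)) ≤ κ * q * (κ * q) * (3 * q / (4 * κ ^ 5)) := by
    gcongr
  have s3 := (pow_le_pow_left₀ (by positivity) hS 2).trans (lin_a W1 W2 hα H)
  have s4 : (q ^ 2 / κ) ^ 2 ≤ κ * q * (#((W2 ×ˢ W2).filter Q) * (κ * q) +
      κ * q * (κ * q) * (3 * q / (4 * κ ^ 5))) :=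
    s3.trans (mul_le_mul c1 (by linarith) (sum_nonneg fun _ _ => sum_nonneg fun _ _ => by
      unfold linF; positivity) (by positivity))
  refine le_of_mul_le_mul_right ?_ (show 0 < (κ * q) ^ 2 by positivity)
  have e1 : q ^ 2 / (4 * κ ^ 4) * (κ * q) ^ 2 = (q ^ 2 / κ) ^ 2 -
      κ * q * (κ * q * (κ * q) * (3 * q / (4 * κ ^ 5))) := by field_simp; ring
  rw [e1]
  linarith

open Classical in
theorem lin (hs : HsSt) (lv : LvSt) (tri : TriSt) : LinSt := by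
  obtain ⟨c, tri⟩ := tri
  refine ⟨50 * c + 48, fun W1 W2 α T H κ hκ hH hT hl hα sep rg c1 c2 f1 f2 hm hS => ?_⟩
  have k0 : 0 < κ := by linarith
  have k1 : 1 ≤ κ := by linarith
  have H0 : 0 < H := by linarith
  by_contra hc
  have H48 : κ ^ 48 ≤ H := (pow_le_pow_right₀ k1 (by omega)).trans (not_le.1 hc).le
  have T0 : 0 < T := lt_of_lt_of_le (by positivity) hT
  obtain ⟨q, q0, rfl⟩ : ∃ q, 0 < q ∧ T = q ^ 2 := ⟨√T, Real.sqrt_pos.2 T0, (Real.sq_sqrt T0.le).symm⟩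
  rw [Real.sqrt_sq q0.le] at c1 c2
  have k18 : (16 : ℝ) ≤ κ ^ 18 := le_trans (by norm_num) (pow_le_pow_left₀ (by norm_num) hκ 18)
  have k28 : (4096 : ℝ) ≤ κ ^ 28 := le_trans (by norm_num) (pow_le_pow_left₀ (by norm_num) hκ 28)
  have k42 : (4 : ℝ) ≤ κ ^ 42 := le_trans (by norm_num) (pow_le_pow_left₀ (by norm_num) hκ 42)
  have k50 : κ ≤ κ ^ 50 := le_self_pow₀ k1 (by norm_num)
  set R := fun (a : ℝ) (p : ℝ × ℝ) => 1 / (2 * κ ^ 6) ≤ linF W1 H a p with hR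
  have m := lin_many (H := H) hκ q0 hα c1 c2 hS
  set P0 := (W2 ×ˢ W2).filter fun p => q / (4 * κ ^ 5) ≤ #(W1.filter fun a => R a p) with hP0
  set N := (W2 ×ˢ W2).filter fun p => |p.1 - p.2| ≤ q ^ 2 / κ ^ 50 with hN
  have n1 : (#N : ℝ) ≤ κ * q * (q / κ ^ 23) := by
    rw [hN, card_filter, sum_product_right, Nat.cast_sum]
    refine (sum_le_card_nsmul _ _ (q / κ ^ 23) fun s _ => ?_).trans ?_
    · rw [← card_filter]
      exact lin_near hκ q0 H48 f2 (filter_subset _ _) fun t ht => (mem_filter.1 ht).2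
    · rw [nsmul_eq_mul]; gcongr
  have n2 : q / κ ^ 23 ≤ q / (16 * κ ^ 5) := by
    gcongr
    calc 16 * κ ^ 5 ≤ κ ^ 18 * κ ^ 5 := by gcongr
      _ = _ := by ring
  have n3 : q ^ 2 / (8 * κ ^ 4) ≤ #(P0 \ N) := by
    have : (#P0 : ℝ) ≤ #(P0 \ N) + #N := by exact_mod_cast card_le_card_sdiff_add_card
    have e : q ^ 2 / (4 * κ ^ 4) = q ^ 2 / (8 * κ ^ 4) + 2 * (κ * q * (q / (16 * κ ^ 5))) := by
      field_simp; ring
    have : κ * q * (q / κ ^ 23) ≤ κ * q * (q / (16 * κ ^ 5)) := by gcongr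
    have : 0 ≤ κ * q * (q / (16 * κ ^ 5)) := by positivity
    linarith
  have θ0 : 0 < q / (4 * κ ^ 5) := by positivity
  have e2 : q / (4 * κ ^ 5) / 2 = 2 * (q / (16 * κ ^ 5)) := by field_simp; ring
  have e3 : q / (4 * κ ^ 5) / (2 * (κ * q)) = 1 / (8 * κ ^ 6) := by field_simp; ring
  have nr : ∀ a, (#(W1.filter fun t => |t - a| ≤ q ^ 2 / κ ^ 50) : ℝ) ≤ q / (16 * κ ^ 5) :=
    fun a => (lin_near hκ q0 H48 f1 (filter_subset _ _) fun t ht => (mem_filter.1 ht).2).trans n2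
  have hP : ∀ p ∈ P0 \ N, q / (4 * κ ^ 5) ≤ #(W1.filter (R · p)) := fun p hp =>
    (mem_filter.1 (mem_sdiff.1 hp).1).2
  obtain ⟨a1, m1, -, b1⟩ := lin_pick (D := ∅) R θ0 (by positivity) n3 hP
    (by rw [card_empty, Nat.cast_zero]; positivity) c1
  rw [e3] at b1
  obtain ⟨a2, m2, d2, b2⟩ := lin_pick (D := W1.filter fun t => |t - a1| ≤ q ^ 2 / κ ^ 50) R θ0
    (by positivity) b1 (fun p hp => hP p (filter_subset _ _ hp))
    (by linarith [nr a1, (Nat.cast_nonneg _).trans (nr a1)]) c1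
  rw [e3] at b2
  obtain ⟨a3, m3, d3, b3⟩ := lin_pick (D := (W1.filter fun t => |t - a1| ≤ q ^ 2 / κ ^ 50) ∪
    W1.filter fun t => |t - a2| ≤ q ^ 2 / κ ^ 50) R θ0 (by positivity) b2
    (fun p hp => hP p (filter_subset _ _ (filter_subset _ _ hp)))
    (le_trans (by exact_mod_cast card_union_le _ _) ((add_le_add (nr a1) (nr a2)).trans
      (by linarith))) c1
  rw [e3] at b3
  simp only [mem_union, mem_filter, m2, m3, true_and, not_or, not_le] at d2 d3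
  set E := (((P0 \ N).filter (R a1)).filter (R a2)).filter (R a3) with hE
  have hE' : ∀ p ∈ E, p ∈ W2 ×ˢ W2 ∧ q ^ 2 / κ ^ 50 ≤ |p.1 - p.2| ∧ ∀ i, R (![a1, a2, a3] i) p :=
    fun p hp => by
      simp only [hE, hP0, hN, mem_filter, mem_sdiff, not_and, not_le] at hp
      exact ⟨hp.1.1.1.1.1, (hp.1.1.1.2 hp.1.1.1.1.1).le, fun i => by
        fin_cases i
        exacts [hp.1.1.2, hp.1.2, hp.2]⟩
  have ma : ∀ i, ![a1, a2, a3] i ∈ W1 := fun i => by
    fin_cases i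
    exacts [m1, m2, m3]
  refine hc ((tri W2 E ![a1, a2, a3] (q ^ 2) H (κ ^ 50) (by linarith) hH T0
    (by rw [Real.sqrt_sq q0.le]; exact c2.trans (by gcongr)) (f2.mono Subset.rfl k50 le_rfl)
    (fun p hp => (hE' p hp).1) (fun i s h => ⟨(rg _ (ma i) s h).1, (rg _ (ma i) s h).2.trans
      (by gcongr)⟩) (fun i j ij => ?_) (fun p hp => (hE' p hp).2.1) (le_trans ?_ b3)
    fun i => ?_).trans ?_)
  · have := abs_sub_comm a1 a2
    have := abs_sub_comm a1 a3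
    have := abs_sub_comm a2 a3
    fin_cases i <;> fin_cases j <;> simp at ij ⊢ <;> linarith [d3.1, d3.2]
  · rw [show q ^ 2 / (8 * κ ^ 4) * (1 / (8 * κ ^ 6)) * (1 / (8 * κ ^ 6)) * (1 / (8 * κ ^ 6)) =
      q ^ 2 / (4096 * κ ^ 22) by field_simp; ring]
    gcongr
    calc 4096 * κ ^ 22 ≤ κ ^ 28 * κ ^ 22 := by gcongr
      _ = _ := by ring
  · have mi := ma i
    have ri := fun p hp => (hE' p hp).2.2 i
    generalize ![a1, a2, a3] i = a at mi ri
    refine lin_c hs lv hκ hH hl (sep.mono (cell_sub _ _ _)) (mem_cell H mi)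
      (fun t ht u hu => cell_near H0 (by rwa [cell_eq hu])) (hm a mi) E
      (fun p => Real.log ((a - p.1) / (a - p.2))) fun p hp => ?_
    obtain ⟨p1, p2⟩ := mem_product.1 (hE' p hp).1
    have r1 := rg a mi _ p1
    have r2 := rg a mi _ p2
    refine ⟨abs_le.2 ⟨?_, lin_log T0 r1.2 r1.1 r2.1⟩, ?_⟩
    · rw [← inv_div, Real.log_inv, neg_le_neg_iff]
      exact lin_log T0 r2.2 r2.1 r1.1
    have m0 : (0 : ℝ) < #(cell W1 H a) := by exact_mod_cast card_pos.2 ⟨a, mem_cell H mi⟩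
    have g1 := (le_inv_mul_iff₀ m0).1 (ri p hp)
    have g2 := lin_b (C := cell W1 H a) (a := a) (p := p) T0 (fun t ht => cell_near H0 ht)
      fun t ht => by
        have : t ∈ W1 := by
          rcases mem_insert.1 ht with rfl | h
          exacts [mi, cell_sub _ _ _ h]
        exact ⟨(rg t this _ p1).1, (rg t this _ p2).1⟩
    have g3 : H ^ 2 / q ^ 2 ≤ 1 / (4 * κ ^ 6) := by
      rw [div_le_div_iff₀ T0 (by positivity), one_mul]
      calc H ^ 2 * (4 * κ ^ 6) ≤ H ^ 2 * (κ ^ 42 * κ ^ 6) := by gcongr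
        _ = H ^ 2 * κ ^ 48 := by ring
        _ ≤ H ^ 2 * H := by gcongr
        _ ≤ _ := by rwa [← pow_succ]
    have g4 := mul_le_mul_of_nonneg_left g3 m0.le
    have g5 : (#(cell W1 H a) : ℝ) * (1 / (2 * κ ^ 6)) =
        #(cell W1 H a) / (4 * κ ^ 6) + #(cell W1 H a) * (1 / (4 * κ ^ 6)) := by field_simp; ring
    linarith
  · rw [← pow_mul]
    exact pow_le_pow_right₀ k1 (by omega)

end Pool.Agent.Lib.MP_a93a41_nt.TH
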