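import Pool.Agent.Lib.MP_a93a41_nt.TH0

namespace Pool.Agent.Lib.MP_a93a41_nt.TH

open Finset Complex Filter
open scoped Real ComplexConjugate

lemma main_triv {N : ℕ} {a : ℕ → ℂ} (ha : ∀ n, ‖a n‖ ≤ 1) (t : ℝ) : ‖DP N a t‖ ≤ N :=
  (norm_sum_le _ _).trans <| (sum_le_card_nsmul _ _ 1 fun n _ => by simpa using ha n).trans (by
    simp [two_mul])

theorem dy (r3 : R3St) (hm : HmSt) (pt : PtSt) (mv : MvSt) : DySt := by
  obtain ⟨δ, δ0, C3, N0, r3⟩ := r3
  obtain ⟨Ch, h1, hm⟩ := hm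
  obtain ⟨η, η0, Cp, pt⟩ := pt δ δ0
  obtain ⟨Cm, m1, mv⟩ := mv
  set c := min (min δ (η / 2)) (1 / 10)
  have c1 : c ≤ δ := (min_le_left _ _).trans (min_le_left _ _)
  have c2 : c ≤ η / 2 := (min_le_left _ _).trans (min_le_right _ _)
  have c3 : c ≤ 1 / 10 := min_le_right _ _
  obtain ⟨T0, hT⟩ := eventually_atTop.1 ((eventually_ge_atTop ((N0 : ℝ) ^ 3)).and
    ((eventually_gt_atTop 1).and ((tendsto_rpow_atTop (half_pos η0)).eventually_ge_atTop (2 * Ch * Cp))))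
  refine ⟨c, by positivity, max C3 0 + 2 * Ch + 2 * Cm, T0, fun N a T V S hN hT0 hV h hS => ?_⟩
  obtain ⟨e1, T1, e2⟩ := hT T hT0
  have T0 : 0 < T := by linarith
  have N1 : (1 : ℝ) ≤ N := by exact_mod_cast hN
  have l0 := Real.log_nonneg T1.le
  have l1 : 1 + Real.log T ≤ (1 + Real.log T) ^ 2 := by nlinarith
  have m0 := le_max_right C3 0
  rcases S.eq_empty_or_nonempty with rfl | ⟨t, ht⟩
  · simp only [card_empty, Nat.cast_zero, zero_mul]; positivity
  have vN : V ≤ N := (hS.2.2 t ht).2.2.trans (main_triv hS.1 t)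
  have t3 : T ≤ (N : ℝ) ^ 3 := by
    have a1 : T ^ (1 / 3 : ℝ) ≤ T ^ (1 / 2 - c) := Real.rpow_le_rpow_of_exponent_le T1.le (by linarith)
    have a2 : T ^ (1 / 2 - c) ≤ N := le_of_mul_le_mul_left (h.trans (by nlinarith)) (by linarith : (0 : ℝ) < N)
    have a3 := pow_le_pow_left₀ (by positivity) (a1.trans a2) 3
    rwa [← Real.rpow_natCast, ← Real.rpow_mul T0.le, show (1 / 3 * (3 : ℕ) : ℝ) = 1 by norm_num,
      Real.rpow_one] at a3
  have fin : ∀ C : ℝ, C ≤ max C3 0 + 2 * Ch + 2 * Cm → #S * V ^ 2 ≤ C * (1 + Real.log T) ^ 2 * N ^ 2 →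
      #S * V ^ 2 ≤ (max C3 0 + 2 * Ch + 2 * Cm) * (1 + Real.log T) ^ 2 * N ^ 2 :=
    fun C hC h => h.trans (by gcongr)
  rcases le_total T N with r | r
  · refine fin (2 * Cm) (by linarith) ?_
    have a1 := mv N S a T hN T1.le hS.2.1 fun t ht => ⟨(hS.2.2 t ht).1, (hS.2.2 t ht).2.1⟩
    have a2 := card_nsmul_le_sum S _ _ fun t ht => pow_le_pow_left₀ hV (hS.2.2 t ht).2.2 2
    have a3 : ∑ n ∈ Ico N (2 * N), ‖a n‖ ^ 2 ≤ N :=
      (sum_le_card_nsmul _ _ 1 fun n _ => pow_le_one₀ (norm_nonneg _) (hS.1 n)).trans (by simp [two_mul])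
    rw [nsmul_eq_mul] at a2
    calc _ ≤ Cm * (N + N) * (1 + Real.log T) ^ 2 * N := a2.trans (a1.trans (by gcongr))
      _ = _ := by ring
  rcases le_total T ((N : ℝ) ^ (1 + δ)) with r' | r'
  · refine fin C3 (by linarith [le_max_left C3 0]) (r3 N a T V S ?_ r r' hV (le_trans ?_ h) hS)
    · exact_mod_cast le_of_pow_le_pow_left₀ (by norm_num) N.cast_nonneg (e1.trans t3)
    · gcongr; exact T1.le
  refine fin (2 * Ch) (by linarith) ?_
  obtain ⟨v, hv, a1⟩ := hm N a T V S hN hV hS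
  have p0 : 0 ≤ Cp * T ^ (1 / 2 - η) := (norm_nonneg _).trans (pt N T 0 N1 r' t3 le_rfl T0.le)
  have a2 : ‖∑ t ∈ S, ∑ s ∈ S.filter (· < t), v t * conj (v s) * Gm N (t - s)‖ ≤
      #S * (#S * (Cp * T ^ (1 / 2 - η))) := by
    rw [← nsmul_eq_mul]
    refine (norm_sum_le _ _).trans (sum_le_card_nsmul _ _ _ fun t ht => (norm_sum_le _ _).trans
      ((sum_le_card_nsmul _ _ (Cp * T ^ (1 / 2 - η)) fun s hs => ?_).trans ?_))
    · obtain ⟨hs, st⟩ := mem_filter.1 hs
      rw [norm_mul, norm_mul, norm_conj]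
      exact (mul_le_of_le_one_left (norm_nonneg _) (mul_le_one₀ (hv t) (norm_nonneg _) (hv s))).trans
        (pt N T _ N1 r' t3 (by linarith) (by linarith [(hS.2.2 t ht).2.1, (hS.2.2 s hs).1]))
    · rw [nsmul_eq_mul]; gcongr; exact filter_subset _ _
  have a3 : 2 * Ch * (N * (Cp * T ^ (1 / 2 - η))) ≤ V ^ 2 := by
    calc _ = N * (2 * Ch * Cp * T ^ (1 / 2 - η)) := by ring
      _ ≤ N * (T ^ (η / 2) * T ^ (1 / 2 - η)) := by gcongr
      _ ≤ _ := le_trans (by rw [← Real.rpow_add T0]; gcongr; exacts [T1.le, by linarith]) h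
  have R0 : (0 : ℝ) < #S := by exact_mod_cast card_pos.2 ⟨t, ht⟩
  have a4 := mul_le_mul_of_nonneg_left a2 (show 0 ≤ Ch * N by positivity)
  have a5 := mul_le_mul_of_nonneg_left a3 (sq_nonneg (#S : ℝ))
  have a6 : #S * V ^ 2 ≤ 2 * Ch * N ^ 2 := le_of_mul_le_mul_left (by nlinarith) R0
  calc _ ≤ 2 * Ch * 1 * N ^ 2 := by linarith
    _ ≤ _ := by gcongr; linarith

lemma main_split (N : ℕ) (a : ℕ → ℂ) (t : ℝ) : ∑ n ∈ Icc 1 N, a n * (n : ℂ) ^ (-((t : ℂ) * I)) =
    ∑ l ∈ range (Nat.log 2 N + 1), DP (2 ^ l) (fun n => if n ≤ N then a n else 0) t := by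
  rw [← sum_fiberwise_of_maps_to (g := Nat.log 2) (t := range (Nat.log 2 N + 1)) fun n hn =>
    mem_range.2 (Nat.lt_succ_of_le (Nat.log_mono_right (mem_Icc.1 hn).2))]
  refine sum_congr rfl fun l _ => ?_
  simp only [DP, ite_mul, zero_mul]
  rw [← sum_filter]
  refine sum_congr ?_ fun n hn => ?_
  · ext n
    simp only [mem_filter, mem_Icc, mem_Ico, ← pow_succ']
    have := Nat.two_pow_pos l
    exact ⟨fun h => ⟨(Nat.log_eq_iff (.inr ⟨one_lt_two, by omega⟩)).1 h.2, h.1.2⟩,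
      fun h => ⟨⟨by omega, h.2⟩, (Nat.log_eq_iff (.inr ⟨one_lt_two, by omega⟩)).2 h.1⟩⟩
  · have : n ≠ 0 := by have := Nat.two_pow_pos l; have := (mem_Ico.1 (mem_filter.1 hn).1).1; omega
    rw [cpow_def_of_ne_zero (by exact_mod_cast this), ex, ← natCast_log]
    congr 2; push_cast; ring

lemma main_geo {r : ℝ} (h0 : 0 ≤ r) (h1 : r < 1) (L : ℕ) :
    ∑ l ∈ range (L + 1), r ^ (L - l) ≤ 1 / (1 - r) := by
  have := sum_range_reflect (fun i => r ^ i) (L + 1)
  simp only [Nat.add_sub_cancel] at this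
  rw [this, one_div]
  exact sum_le_hasSum _ (fun _ _ => by positivity) (hasSum_geometric_of_lt_one h0 h1)

theorem main (dy : DySt) : MainSt := by
  obtain ⟨c, c0, C, T0, dy⟩ := dy
  refine ⟨c / 2, by positivity, fun ε ε0 => ?_⟩
  obtain ⟨T1, hT⟩ := eventually_atTop.1 ((eventually_ge_atTop T0).and
    (((tendsto_rpow_atTop (half_pos c0)).eventually_ge_atTop 16).and
    ((((isLittleO_log_rpow_rpow_atTop (2 : ℝ) ε0).const_mul_left 4).bound one_pos).and
    (Real.tendsto_log_atTop.eventually_ge_atTop 1))))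
  have m0 := le_max_right C 0
  have m1 := le_max_right T1 0
  refine ⟨32 * max C 0 + 2 * (max T1 0 + 2), by positivity, fun N T V a S hN t1 hV ha h hS hsep => ?_⟩
  have T0 : 0 < T := by linarith
  have e1 : 1 ≤ T ^ ε := Real.one_le_rpow t1 ε0.le
  rw [div_mul_eq_mul_div, le_div_iff₀ (by positivity)]
  rcases le_total T T1 with r | r
  · rcases S.eq_empty_or_nonempty with rfl | ⟨t, ht⟩
    · simp only [card_empty, Nat.cast_zero, zero_mul]; positivity
    have vN : V ≤ N := (hS t ht).2.2.trans <| by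
      rw [main_split, ← main_split]
      refine (norm_sum_le _ _).trans <| (sum_le_card_nsmul _ _ 1 fun n hn => ?_).trans (by simp)
      rw [norm_mul, norm_natCast_cpow_of_pos (mem_Icc.1 hn).1]
      simpa using ha n
    have cS : (#S : ℝ) ≤ (⌈T⌉₊ : ℕ) * 2 := le_trans (Nat.cast_le.2 (card_le_card fun u hu =>
      mem_filter.2 ⟨hu, (hS u hu).1, by simpa using (hS u hu).2.1.trans (Nat.le_ceil T)⟩))
      ((Sep.ib hsep).mul (Nat.ceil_pos.2 T0) 0)
    have := Nat.ceil_lt_add_one T0.le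
    calc _ ≤ 2 * (max T1 0 + 2) * (N : ℝ) ^ 2 * 1 := by
          rw [mul_one]; gcongr; linarith [le_max_left T1 0]
      _ ≤ _ := by gcongr; linarith
  obtain ⟨d1, d2, d3, d4⟩ := hT T r
  rw [one_mul, Real.norm_of_nonneg (by positivity), Real.norm_of_nonneg (by positivity),
    Real.rpow_two] at d3
  set L := Nat.log 2 N
  set b : ℕ → ℂ := fun n => if n ≤ N then a n else 0
  set W : ℕ → ℝ := fun l => V / 4 * (3 / 4) ^ (L - l)
  have hL : (2 : ℝ) ^ L ≤ N := by exact_mod_cast Nat.pow_log_le_self 2 (by omega)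
  have cov : S ⊆ (range (L + 1)).biUnion fun l => S.filter fun t => W l ≤ ‖DP (2 ^ l) b t‖ := fun t ht => by
    by_contra hc
    simp only [mem_biUnion, mem_filter, not_exists, not_and, not_le] at hc
    have a1 := (hS t ht).2.2
    rw [main_split] at a1
    have a2 := (a1.trans (norm_sum_le _ _)).trans_lt (sum_lt_sum_of_nonempty (by simp) fun l hl => hc l hl ht)
    rw [← mul_sum] at a2
    have := mul_le_mul_of_nonneg_left (main_geo (r := 3 / 4) (by norm_num) (by norm_num) L)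
      (show 0 ≤ V / 4 by positivity)
    linarith
  have one : ∀ l ∈ range (L + 1), (#(S.filter fun t => W l ≤ ‖DP (2 ^ l) b t‖) : ℝ) * V ^ 2 ≤
      16 * max C 0 * (N : ℝ) ^ 2 * T ^ ε * (4 / 9) ^ (L - l) := fun l hl => by
    have sp : (2 : ℝ) ^ l * 2 ^ (L - l) ≤ N := by
      rwa [← pow_add, Nat.add_sub_cancel' (Nat.lt_succ_iff.1 (mem_range.1 hl))]
    generalize hi : L - l = i at sp
    have w2 : W l ^ 2 = V ^ 2 / 16 * (9 / 16) ^ i := by
      simp only [W, hi]; rw [mul_pow, ← pow_mul, mul_comm i, pow_mul]; norm_num [div_pow]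
    have := dy (2 ^ l) b T (W l) (S.filter fun t => W l ≤ ‖DP (2 ^ l) b t‖) Nat.one_le_two_pow d1
      (by positivity) ?_ ⟨fun n => by simp only [b]; split_ifs; exacts [ha n, by simp],
      Sep.mono hsep (filter_subset _ _), fun t ht => ⟨(hS t (mem_filter.1 ht).1).1,
      (hS t (mem_filter.1 ht).1).2.1, (mem_filter.1 ht).2⟩⟩
    · push_cast at this
      refine le_of_mul_le_mul_right ?_ (show (0 : ℝ) < (9 / 16) ^ i / 16 by positivity)
      calc _ = _ := by rw [w2]; ring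
        _ ≤ _ := this
        _ ≤ max C 0 * T ^ ε * (2 ^ l * 2 ^ i * (1 / 2) ^ i) ^ 2 := by
            rw [mul_assoc _ (2 ^ i), ← mul_pow, mul_one_div_cancel two_ne_zero, one_pow, mul_one]
            gcongr; exacts [le_max_left _ _, by nlinarith]
        _ ≤ max C 0 * T ^ ε * (N * (1 / 2) ^ i) ^ 2 := by gcongr
        _ = max C 0 * T ^ ε * N ^ 2 * ((4 / 9) ^ i * (9 / 16) ^ i) := by
            rw [← mul_pow, mul_pow, ← pow_mul, mul_comm i, pow_mul]; norm_num [mul_assoc]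
        _ = _ := by ring
    · push_cast
      have p : (1 : ℝ) ≤ 2 ^ i * (9 / 16) ^ i := by rw [← mul_pow]; exact one_le_pow₀ (by norm_num)
      calc _ ≤ 2 ^ l * (2 ^ i * (9 / 16) ^ i) * (T ^ (c / 2) / 16 * T ^ (1 / 2 - c)) :=
            mul_le_mul (le_mul_of_one_le_right (by positivity) p)
              (le_mul_of_one_le_left (by positivity) (by linarith)) (by positivity) (by positivity)
        _ = 2 ^ l * 2 ^ i * T ^ (1 / 2 - c / 2) / 16 * (9 / 16) ^ i := by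
            rw [show 1 / 2 - c / 2 = c / 2 + (1 / 2 - c) by ring, Real.rpow_add T0]; ring
        _ ≤ _ := by rw [w2]; gcongr; exact le_trans (by gcongr) h
  have a1 : (#S : ℝ) ≤ ∑ l ∈ range (L + 1), (#(S.filter fun t => W l ≤ ‖DP (2 ^ l) b t‖) : ℝ) := by
    exact_mod_cast (card_le_card cov).trans card_biUnion_le
  have a2 := (mul_le_mul_of_nonneg_right a1 (sq_nonneg V)).trans
    ((sum_mul _ _ _).trans_le ((sum_le_sum one).trans_eq (mul_sum _ _ _).symm))
  have a3 := mul_le_mul_of_nonneg_left (main_geo (r := 4 / 9) (by norm_num) (by norm_num) L)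
    (show 0 ≤ 16 * max C 0 * (N : ℝ) ^ 2 * T ^ ε by positivity)
  have : 0 ≤ max C 0 * (N : ℝ) ^ 2 * T ^ ε := by positivity
  have : 0 ≤ (max T1 0 + 2) * (N : ℝ) ^ 2 * T ^ ε := by positivity
  nlinarith

end Pool.Agent.Lib.MP_a93a41_nt.TH
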