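import Pool.Agent.Lib.MP_a93a41_nt.TH0

/-! Oscillatory integrals of products of resonance kernels. -/

namespace Pool.Agent.Lib.MP_a93a41_nt.TH

open Finset Complex
open scoped Real ComplexConjugate

lemma osc_parts {Φ ψ ψ' B B' : ℝ → ℝ} {a b : ℝ} (hab : a ≤ b) (c : Continuous Φ)
    (h : ∀ x ∈ Set.Icc a b, HasDerivAt Φ (ψ x) x ∧ HasDerivAt ψ (ψ' x) x ∧ ψ x ≠ 0 ∧
      HasDerivAt B (B' x) x ∧ |ψ' x| / ψ x ^ 2 ≤ B' x) :
    ‖∫ s in a..b, ex (Φ s)‖ ≤ |ψ a|⁻¹ + |ψ b|⁻¹ + (B b - B a) := by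
  have n : ∀ x, ‖ex (Φ x) * ((ψ x)⁻¹ : ℝ) * I‖ = |ψ x|⁻¹ := fun x => by simp
  have d : ∀ x ∈ Set.Icc a b, HasDerivAt (fun x => (∫ s in a..x, ex (Φ s)) +
      ex (Φ x) * ((ψ x)⁻¹ : ℝ) * I - ex (Φ a) * ((ψ a)⁻¹ : ℝ) * I)
      (ex (Φ x) * (-ψ' x / ψ x ^ 2 : ℝ) * I) x := fun x hx => by
    obtain ⟨h1, h2, h3, -⟩ := h x hx
    have e : HasDerivAt (fun x => ex (Φ x)) (ex (Φ x) * (ψ x * I)) x := (h1.ofReal_comp.mul_const I).cexp
    refine (((((cont_ex.comp c).integral_hasStrictDerivAt a x).hasDerivAt).add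
      ((e.mul (h2.inv h3).ofReal_comp).mul_const I)).sub_const _).congr_deriv ?_
    have : (ψ x : ℂ) * (ψ x : ℂ)⁻¹ = 1 := mul_inv_cancel₀ (ofReal_ne_zero.2 h3)
    simp only [Function.comp, Pi.inv_apply]
    push_cast
    linear_combination ex (Φ x) * (I * I) * this + ex (Φ x) * I_mul_I
  have := image_norm_le_of_norm_deriv_right_le_deriv_boundary'
    (fun x hx => (d x hx).continuousAt.continuousWithinAt)
    (fun x hx => (d x (Set.Ico_subset_Icc_self hx)).hasDerivWithinAt) (B := fun x => B x - B a)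
    (B' := B') (by simp) (fun x hx => ((h x hx).2.2.2.1.sub_const _).continuousAt.continuousWithinAt)
    (fun x hx => ((h x (Set.Ico_subset_Icc_self hx)).2.2.2.1.sub_const _).hasDerivWithinAt)
    (fun x hx => by
      refine le_trans (le_of_eq ?_) (h x (Set.Ico_subset_Icc_self hx)).2.2.2.2
      rw [norm_mul, norm_mul, norm_ex, norm_I, norm_real, Real.norm_eq_abs, abs_div, abs_neg, abs_sq,
        one_mul, mul_one]) ⟨hab, le_rfl⟩
  rw [← n, ← n]
  refine le_trans ?_ (add_le_add_right this _)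
  refine le_trans (le_of_eq ?_) ((norm_add_le _ _).trans (add_le_add_left (norm_sub_le _ _) _))
  congr 1
  ring

lemma osc_log {p q M : ℝ} (p0 : 0 < p) (q0 : 0 < q) (hp : p ≤ M) (hq : q ≤ M) :
    |p - q| ≤ M * |Real.log q - Real.log p| := by
  wlog h : p ≤ q generalizing p q
  · rw [abs_sub_comm, abs_sub_comm (Real.log q)]
    exact this q0 p0 hq hp (not_le.1 h).le
  have a := Real.one_sub_inv_le_log_of_pos (div_pos q0 p0)
  rw [Real.log_div q0.ne' p0.ne', inv_div, one_sub_div q0.ne', div_le_iff₀ q0] at a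
  have b := sub_nonneg.2 (Real.log_le_log p0 h)
  rw [abs_sub_comm, abs_of_nonneg (sub_nonneg.2 h), abs_of_nonneg b]
  nlinarith

lemma osc_ph {t s : ℝ} (h : 0 < t - s) :
    HasDerivAt (fun s => ph (t - s)) (-(Real.log (t - s) + 1)) s :=
  (Real.hasDerivAt_mul_log h.ne').comp_const_sub t s

lemma osc_k4 (t1 t2 t3 t4 s : ℝ) : k4 t1 t2 t3 t4 s =
    ex (ph (t1 - s) - ph (t2 - s) + (ph (t3 - s) - ph (t4 - s))) := by
  rw [k4, kk, kk, kk, kk, ex_mul_conj, ex_mul_conj, ex_add]

theorem osc : OscSt := by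
  intro t1 t2 t3 t4 a b T θ lam hab T0 θ1 l0 H hl
  have r : ∀ t ∈ ({t1, t2, t3, t4} : Set ℝ), ∀ s ∈ Set.Icc a b, T ≤ t - s ∧ t - s ≤ θ * T :=
    fun t ht s hs => ⟨by linarith [(H t ht).1, hs.2], by linarith [(H t ht).2, hs.1]⟩
  have cp : Continuous ph := Real.continuous_mul_log
  obtain ⟨l, el⟩ : ∃ l : ℝ → ℝ, l = fun s => (t1 - s) * (t3 - s) - (t2 - s) * (t4 - s) := ⟨_, rfl⟩
  obtain ⟨g, eg⟩ : ∃ g, g = t2 + t4 - t1 - t3 := ⟨_, rfl⟩
  obtain ⟨σ, σ1, σ2⟩ : ∃ σ : ℝ, |σ| = 1 ∧ σ * g = |g| := by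
    rcases le_total 0 g with h | h
    exacts [⟨1, by simp, by simp [abs_of_nonneg h]⟩, ⟨-1, by simp, by simp [abs_of_nonpos h]⟩]
  replace hl : ∀ s ∈ Set.Icc a b, lam ≤ |l s| := el ▸ hl
  have lg : ∀ s ∈ Set.Icc a b, |l s| ≤ (θ * T) ^ 2 *
      |Real.log ((t2 - s) * (t4 - s)) - Real.log ((t1 - s) * (t3 - s))| := fun s hs => by
    obtain ⟨a1, b1⟩ := r t1 (by simp) s hs
    obtain ⟨a2, b2⟩ := r t2 (by simp) s hs
    obtain ⟨a3, b3⟩ := r t3 (by simp) s hs
    obtain ⟨a4, b4⟩ := r t4 (by simp) s hs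
    rw [el, sq]
    exact osc_log (mul_pos (by linarith) (by linarith)) (mul_pos (by linarith) (by linarith))
      (mul_le_mul b1 b3 (by linarith) (by linarith)) (mul_le_mul b2 b4 (by linarith) (by linarith))
  have iv : ∀ s ∈ Set.Icc a b, |Real.log ((t2 - s) * (t4 - s)) - Real.log ((t1 - s) * (t3 - s))|⁻¹ ≤
      (θ * T) ^ 2 / |l s| := fun s hs => by
    have := l0.trans_le (hl s hs)
    have := pos_of_mul_pos_right (this.trans_le (lg s hs)) (by positivity)
    rw [inv_eq_one_div, div_le_div_iff₀ this ‹_›, one_mul]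
    exact lg s hs
  simp only [osc_k4]
  refine (osc_parts (ψ := fun s => Real.log ((t2 - s) * (t4 - s)) - Real.log ((t1 - s) * (t3 - s)))
    (ψ' := fun s => (-(t2 - s + (t4 - s)) * l s - g * ((t2 - s) * (t4 - s))) /
      ((t1 - s) * (t3 - s) * ((t2 - s) * (t4 - s))))
    (B := fun s => 2 * θ ^ 5 * T / lam * s - θ ^ 4 * T ^ 2 * σ * (l s)⁻¹)
    (B' := fun s => 2 * θ ^ 5 * T / lam + θ ^ 4 * T ^ 2 * (|g| / l s ^ 2)) hab (by fun_prop)
    fun s hs => ?_).trans ?_
  · obtain ⟨a1, b1⟩ := r t1 (by simp) s hs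
    obtain ⟨a2, b2⟩ := r t2 (by simp) s hs
    obtain ⟨a3, b3⟩ := r t3 (by simp) s hs
    obtain ⟨a4, b4⟩ := r t4 (by simp) s hs
    have p1 := T0.trans_le a1
    have p2 := T0.trans_le a2
    have p3 := T0.trans_le a3
    have p4 := T0.trans_le a4
    have l1 := l0.trans_le (hl s hs)
    have d : ∀ t, HasDerivAt (fun s => t - s) (-1) s := fun t => (hasDerivAt_id' s).const_sub t
    refine ⟨?_, ?_, fun e => ?_, ?_, ?_⟩
    · refine (((osc_ph p1).sub (osc_ph p2)).add ((osc_ph p3).sub (osc_ph p4))).congr_deriv ?_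
      rw [Real.log_mul p2.ne' p4.ne', Real.log_mul p1.ne' p3.ne']
      ring
    · refine ((((d t2).mul (d t4)).log (mul_pos p2 p4).ne').sub
        (((d t1).mul (d t3)).log (mul_pos p1 p3).ne')).congr_deriv ?_
      simp only [el, eg, Pi.mul_apply]
      field_simp
      ring
    · have := lg s hs
      rw [show _ - _ = (0 : ℝ) from e] at this
      simp only [abs_zero, mul_zero] at this
      linarith
    · have dl : HasDerivAt l g s := by
        rw [el]
        exact (((d t1).mul (d t3)).sub ((d t2).mul (d t4))).congr_deriv (by rw [eg]; ring)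
      refine (((hasDerivAt_id' s).const_mul (2 * θ ^ 5 * T / lam)).sub
        ((dl.inv (abs_pos.1 l1)).const_mul (θ ^ 4 * T ^ 2 * σ))).congr_deriv ?_
      rw [← σ2]; ring
    · have q1 : T ^ 2 ≤ (t1 - s) * (t3 - s) := by nlinarith
      have q2 : T ^ 2 ≤ (t2 - s) * (t4 - s) := by nlinarith
      have e : |(-(t2 - s + (t4 - s)) * l s - g * ((t2 - s) * (t4 - s))) /
          ((t1 - s) * (t3 - s) * ((t2 - s) * (t4 - s)))| ≤ 2 * θ * T * |l s| / T ^ 4 + |g| / T ^ 2 := by
        rw [sub_div, mul_div_mul_right _ _ (mul_pos p2 p4).ne']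
        refine (abs_sub _ _).trans (add_le_add ?_ ?_)
        · rw [abs_div, abs_mul, abs_neg, abs_of_pos (add_pos p2 p4),
            abs_of_pos (mul_pos (mul_pos p1 p3) (mul_pos p2 p4)),
            show T ^ 4 = T ^ 2 * T ^ 2 by ring]
          gcongr
          linarith
        · rw [abs_div, abs_of_pos (mul_pos p1 p3)]
          gcongr
      rw [← sq_abs, div_eq_mul_inv, ← inv_pow]
      calc _ ≤ (2 * θ * T * |l s| / T ^ 4 + |g| / T ^ 2) * ((θ * T) ^ 2 / |l s|) ^ 2 := by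
            have := iv s hs
            gcongr
        _ = 2 * θ ^ 5 * T / |l s| + θ ^ 4 * T ^ 2 * (|g| / |l s| ^ 2) := by field_simp
        _ ≤ _ := by
            have := hl s hs
            rw [sq_abs]
            gcongr
  · have i : ∀ s ∈ Set.Icc a b, (θ * T) ^ 2 / |l s| ≤ θ ^ 2 * (T ^ 2 / lam) ∧
        |θ ^ 4 * T ^ 2 * σ * (l s)⁻¹| ≤ θ ^ 4 * (T ^ 2 / lam) := fun s hs => by
      have := hl s hs
      rw [abs_mul, abs_mul, σ1, abs_inv, mul_one, abs_of_pos (a := θ ^ 4 * T ^ 2) (by positivity),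
        mul_pow, mul_div_assoc, mul_assoc, ← div_eq_mul_inv]
      constructor <;> gcongr
    have ha : a ∈ Set.Icc a b := ⟨le_rfl, hab⟩
    have hb : b ∈ Set.Icc a b := ⟨hab, le_rfl⟩
    have u : 2 * θ ^ 5 * T / lam * (b - a) ≤ 2 * θ ^ 5 * (θ - 1) * (T ^ 2 / lam) :=
      calc _ ≤ 2 * θ ^ 5 * T / lam * ((θ - 1) * T) := by
            gcongr
            linarith [H t1 (by simp)]
        _ = _ := by ring
    have v : (2 * θ ^ 2 + 2 * θ ^ 4 + 2 * θ ^ 5 * (θ - 1)) * (T ^ 2 / lam) ≤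
        5 * θ ^ 6 * (T ^ 2 / lam) := by
      gcongr
      nlinarith [pow_le_pow_right₀ θ1 (show 2 ≤ 6 by norm_num),
        pow_le_pow_right₀ θ1 (show 4 ≤ 5 by norm_num), pow_pos (one_pos.trans_le θ1) 6]
    rw [mul_div_assoc (5 * θ ^ 6)]
    linarith [iv a ha, iv b hb, i a ha, i b hb, abs_le.1 (i a ha).2, abs_le.1 (i b hb).2]

lemma osc_triv (t1 t2 t3 t4 : ℝ) {a b : ℝ} (h : a ≤ b) :
    ‖∫ s in a..b, k4 t1 t2 t3 t4 s‖ ≤ b - a := by
  simpa [abs_of_nonneg (sub_nonneg.2 h)] using intervalIntegral.norm_integral_le_of_norm_le_const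
    (C := 1) (a := a) (b := b) (f := k4 t1 t2 t3 t4) fun s _ => by simp [k4]

lemma osc_cont (t1 t2 t3 t4 : ℝ) : Continuous (k4 t1 t2 t3 t4) := by
  have := cont_kk
  unfold k4
  fun_prop

theorem sq (hs : HsSt) : SqSt := by
  intro A α a b T θ L ν hab T0 θ1 hα L0 hL hb hA hν
  have e : ∀ s, ((‖SW A α s‖ ^ 2 : ℝ) : ℂ) = ∑ t ∈ A, ∑ u ∈ A, α t * conj (α u) * k4 t u t t s :=
    fun s => by
      push_cast
      rw [← mul_conj', SW, map_sum, sum_mul_sum]
      refine sum_congr rfl fun t _ => sum_congr rfl fun u _ => ?_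
      rw [k4, mul_conj', norm_kk, map_mul]
      push_cast
      ring
  have c : ∀ t u, Continuous fun s => α t * conj (α u) * k4 t u t t s := fun t u =>
    continuous_const.mul (osc_cont ..)
  refine (le_abs_self _).trans ?_
  rw [← Real.norm_eq_abs, ← norm_real, ← intervalIntegral.integral_ofReal]
  simp only [e]
  rw [intervalIntegral.integral_finsetSum fun t _ =>
    (continuous_finsetSum _ fun u _ => c t u).intervalIntegrable _ _]
  refine (norm_sum_le _ _).trans ((sum_le_card_nsmul _ _ _ fun t ht => ?_).trans_eq (nsmul_eq_mul _ _))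
  rw [intervalIntegral.integral_finsetSum fun u _ => (c t u).intervalIntegrable _ _]
  refine (norm_sum_le _ _).trans ((sum_le_sum fun u _ => ?_).trans ((hs A
    (fun u => ‖∫ s in a..b, k4 t u t t s‖) t L ν (θ * T / L) (5 * θ ^ 6 * (T / L)) L0
    ((one_le_div L0).2 hL) (by positivity) hν fun u hu => ⟨?_, ?_, ?_⟩).trans_eq (by ring)))
  · rw [intervalIntegral.integral_const_mul, norm_mul, norm_mul, norm_conj]
    exact mul_le_of_le_one_left (norm_nonneg _) (mul_le_one₀ (hα t) (norm_nonneg _) (hα u))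
  · rw [div_mul_cancel₀ _ L0.ne', abs_le]
    constructor <;> linarith [hA t ht, hA u hu]
  · exact (osc_triv _ _ _ _ hab).trans (by rwa [← mul_div_assoc, le_div_iff₀ L0])
  · rcases eq_or_ne u t with rfl | h
    · simp only [sub_self, abs_zero, mul_zero]
      positivity
    have p := abs_pos.2 (sub_ne_zero.2 h)
    have := osc t u t t a b T θ (|u - t| * T) hab T0 θ1 (by positivity) (by
      rintro x (rfl | rfl | rfl | rfl) <;> first | exact hA _ ht | exact hA _ hu) fun s h => by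
        rw [← sub_mul, abs_mul, sub_sub_sub_cancel_right, abs_sub_comm]
        gcongr
        exact le_trans (by linarith [hA t ht, h.2]) (le_abs_self _)
    refine (mul_le_mul_of_nonneg_right this p.le).trans_eq ?_
    field_simp

theorem far : FarSt := by
  intro t1 t2 t3 t4 a b T θ D G hab T0 θ1 D1 hG H h1 h2
  obtain ⟨g, eg⟩ : ∃ g, g = t1 - t2 + t3 - t4 := ⟨_, rfl⟩
  have el : ∀ s, (t1 - s) * (t3 - s) - (t2 - s) * (t4 - s) = g * (t2 - s) + (t1 - t2) * (t3 - t2) :=
    fun s => by rw [eg]; ring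
  have r : ∀ s ∈ Set.Icc a b, |g| * T ≤ |g * (t2 - s)| ∧ |g * (t2 - s)| ≤ |g| * (θ * T) :=
    fun s hs => by
      have := H t2 (by simp)
      rw [abs_mul, abs_of_pos (a := t2 - s) (by linarith [hs.2])]
      constructor <;> gcongr <;> linarith [hs.1, hs.2]
  rw [← abs_mul] at h1 h2
  have s1 : 1 ≤ √D := Real.one_le_sqrt.2 D1
  have s2 : √D * √D = D := Real.mul_self_sqrt (by linarith)
  have θ6 : 1 ≤ θ ^ 6 := one_le_pow₀ θ1
  have A : ‖∫ s in a..b, k4 t1 t2 t3 t4 s‖ ≤ 12 * θ ^ 6 * T / √D := by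
    rcases le_total |g| D with c | c
    · refine (osc t1 t2 t3 t4 a b T θ (T * √D) hab T0 θ1 (by positivity) H fun s hs => ?_).trans ?_
      · have := abs_sub_abs_le_abs_add ((t1 - t2) * (t3 - t2)) (g * (t2 - s))
        have : |g| * (θ * T) ≤ D * (θ * T) := by gcongr
        have : T * √D ≤ θ * T * D := by
          rw [mul_comm θ, mul_assoc]
          gcongr
          nlinarith
        rw [el, add_comm]
        linarith [(r s hs).2]
      · rw [_root_.sq, ← mul_assoc, mul_comm T √D, mul_div_mul_right _ _ T0.ne']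
        gcongr
        norm_num
    obtain ⟨w, ew⟩ : ∃ w, w = T / √D := ⟨_, rfl⟩
    obtain ⟨z, ez⟩ : ∃ z, z = t2 + (t1 - t2) * (t3 - t2) / g := ⟨_, rfl⟩
    have w0 : 0 < w := by rw [ew]; positivity
    have g0 : g ≠ 0 := abs_pos.1 (by linarith)
    have P : ∀ x y, a ≤ x → x ≤ y → y ≤ b → (x = y ∨ ∀ s ∈ Set.Icc x y, w ≤ |z - s|) →
        ‖∫ s in x..y, k4 t1 t2 t3 t4 s‖ ≤ 5 * θ ^ 6 * w := by
      rintro x y hx hxy hy (rfl | h)
      · simp only [intervalIntegral.integral_same, norm_zero]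
        positivity
      refine (osc t1 t2 t3 t4 x y T θ (D * w) hxy T0 θ1 (by positivity) (fun t ht =>
        ⟨by linarith [H t ht], by linarith [H t ht]⟩) fun s hs => ?_).trans_eq ?_
      · rw [el, show g * (t2 - s) + (t1 - t2) * (t3 - t2) = g * (z - s) by rw [ez]; field_simp; ring,
          abs_mul]
        have := h s hs
        gcongr
      · rw [ew, ← s2, Real.sqrt_mul_self (by linarith)]
        field_simp
    have i := fun x y => (osc_cont t1 t2 t3 t4).intervalIntegrable (μ := MeasureTheory.volume) x y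
    have m : max a (min b (z - w)) ≤ max a (min b (z + w)) := by gcongr; linarith
    rw [← intervalIntegral.integral_add_adjacent_intervals (i a (max a (min b (z - w)))) (i _ b),
      ← intervalIntegral.integral_add_adjacent_intervals (i _ (max a (min b (z + w)))) (i _ b)]
    have p1 := P a (max a (min b (z - w))) le_rfl (le_max_left ..) (max_le hab (min_le_left ..)) (by
      rcases le_total a (z - w) with c | c
      · exact .inr fun s hs => le_trans (by
          linarith [hs.2.trans (max_le c (min_le_right b _))]) (le_abs_self _)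
      · exact .inl (max_eq_left ((min_le_right ..).trans c)).symm)
    have p3 := P (max a (min b (z + w))) b (le_max_left ..) (max_le hab (min_le_left ..)) le_rfl (by
      rcases le_total b (z + w) with c | c
      · exact .inl (by rw [min_eq_left c, max_eq_right hab])
      · exact .inr fun s hs => le_trans (by
          linarith [((le_min c le_rfl).trans (le_max_right a _)).trans hs.1]) (neg_le_abs _))
    have p2 := osc_triv t1 t2 t3 t4 m
    have p4 : max a (min b (z + w)) - max a (min b (z - w)) ≤ 2 * w := by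
      simp only [max_def, min_def]
      split_ifs <;> linarith
    rw [mul_div_assoc, ← ew]
    refine (norm_add_le _ _).trans ((add_le_add_right (norm_add_le _ _) _).trans ?_)
    nlinarith
  refine ⟨A, ?_⟩
  rw [abs_sub_comm, ← eg]
  rcases le_total |g| G with c | c
  · gcongr
  have g0 : 0 < |g| := by linarith
  have := osc t1 t2 t3 t4 a b T θ (|g| * T / 2) hab T0 θ1 (by positivity) H fun s hs => by
    have := abs_sub_abs_le_abs_add (g * (t2 - s)) ((t1 - t2) * (t3 - t2))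
    have : G * T ≤ |g| * T := by gcongr
    rw [el]
    linarith [(r s hs).1]
  calc _ ≤ 5 * θ ^ 6 * T ^ 2 / (|g| * T / 2) * |g| := by gcongr
    _ = 10 * θ ^ 6 * T / √D * √D := by field_simp; ring
    _ ≤ _ := by gcongr; norm_num

end Pool.Agent.Lib.MP_a93a41_nt.TH
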