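import Mathlib
import Pool.Agent.Lib.MP_a93a41_nt.TH0
import Pool.Agent.Lib.MP_b09185_nt.VinExp

/-! A pointwise power saving for the dual part of the Gram kernel. -/

namespace Pool.Agent.Lib.MP_a93a41_nt.TH

open Finset Complex
open scoped Real

lemma THPt_rpow {x : ℝ} (hx : 0 < x) : x ^ (-(3 / 2) : ℝ) = 1 / (x * √x) := by
  rw [Real.rpow_neg hx.le, Real.sqrt_eq_rpow, one_div,
    show (3 / 2 : ℝ) = 1 + 1 / 2 by norm_num, Real.rpow_add hx, Real.rpow_one]

lemma THPt_zt (hz : ZtSt) {N τ x : ℝ} (hN : 1 ≤ N) (hτ : 0 ≤ τ) (hx : 1 ≤ x) :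
    ‖zt N τ x‖ ≤ 1 / (x * √x) * Real.exp (-(τ / N / (13 * x))) := by
  obtain ⟨c, b, θ, h1, h2, -, h4⟩ := hz.2 N x hN hx
  rw [h4, norm_mul, norm_mul, norm_ex, mul_one, Complex.norm_real, Real.norm_eq_abs,
    abs_of_pos (Real.exp_pos _), ← THPt_rpow (by linarith)]
  refine mul_le_mul h1 (Real.exp_le_exp.2 ?_) (Real.exp_pos _).le (by positivity)
  have : τ / N / (13 * x) = 1 / (13 * N * x) * τ := by field_simp
  rw [this]
  exact neg_le_neg (mul_le_mul_of_nonneg_right h2 hτ)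

lemma THPt_zt1 (hz : ZtSt) {N τ x : ℝ} (hN : 1 ≤ N) (hτ : 0 ≤ τ) (hx : 1 ≤ x) :
    ‖zt N τ x‖ ≤ 1 / (x * √x) := by
  refine (THPt_zt hz hN hτ hx).trans (mul_le_of_le_one_right (by positivity) ?_)
  exact Real.exp_le_one_iff.2 (neg_nonpos.2 (by positivity))

lemma THPt_zt2 (hz : ZtSt) {N τ x : ℝ} (hN : 1 ≤ N) (hτ : 0 < τ) (hx : 1 ≤ x) :
    ‖zt N τ x‖ ≤ 338 * √x / (τ / N) ^ 2 := by
  refine (THPt_zt hz hN hτ.le hx).trans ?_
  have hM : 0 < τ / N := by positivity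
  generalize τ / N = M at *
  have hy : 0 < M / (13 * x) := by positivity
  have h1 : (M / (13 * x)) ^ 2 / 2 ≤ Real.exp (M / (13 * x)) := by
    have := Real.quadratic_le_exp_of_nonneg hy.le
    linarith
  have h2 : Real.exp (-(M / (13 * x))) ≤ 338 * x ^ 2 / M ^ 2 := by
    rw [Real.exp_neg]
    refine (inv_anti₀ (by positivity) h1).trans (le_of_eq ?_)
    field_simp
    norm_num
  have hs : 0 < √x := Real.sqrt_pos.2 (by linarith)
  have hss : √x * √x = x := Real.mul_self_sqrt (by linarith)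
  calc _ ≤ 1 / (x * √x) * (338 * x ^ 2 / M ^ 2) := by gcongr
    _ = _ := by
      generalize √x = s at *
      subst hss
      field_simp

lemma THPt_tele {y : ℝ} (hy : 0 < y) :
    1 / ((y + 1) * √(y + 1)) ≤ 2 / √y - 2 / √(y + 1) := by
  have ha : 0 < √y := Real.sqrt_pos.2 hy
  have hab : √y ≤ √(y + 1) := Real.sqrt_le_sqrt (by linarith)
  have h1 : √y * √y = y := Real.mul_self_sqrt hy.le
  have h2 : √(y + 1) * √(y + 1) = y + 1 := Real.mul_self_sqrt (by linarith)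
  generalize √(y + 1) = b at *
  generalize √y = a at *
  have hb : 0 < b := by linarith
  rw [← h2, div_sub_div _ _ ha.ne' hb.ne', div_le_div_iff₀ (by positivity) (by positivity)]
  have h3 : (b - a) * (b + a) = 1 := by nlinarith
  have h4 : 0 ≤ b - a := by linarith
  have h5 : 1 ≤ (b - a) * (2 * b) := by nlinarith
  have h6 : a * b ≤ b * b := by nlinarith
  nlinarith [mul_le_mul h6 h5 zero_le_one (by positivity : 0 ≤ b * b), mul_pos hb hb]

lemma THPt_tail_sum {B : ℝ} (hB : 0 < B) (n : ℕ) :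
    ∑ m ∈ range n, 1 / ((m + B + 1) * √(m + B + 1)) ≤ 2 / √B - 2 / √(n + B) := by
  induction n with
  | zero => simp
  | succ n ih =>
    rw [sum_range_succ]
    have := THPt_tele (y := n + B) (by positivity)
    push_cast
    rw [show (n : ℝ) + 1 + B = n + B + 1 by ring]
    linarith

lemma THPt_tail (hz : ZtSt) {N τ : ℝ} (hN : 1 ≤ N) (hτ : 0 ≤ τ) {B : ℕ} (hB : 1 ≤ B) :
    Summable (fun m : ℕ => zt N τ (m + 1)) ∧
      ‖∑' m : ℕ, zt N τ ((m + B : ℕ) + 1)‖ ≤ 2 / √B := by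
  have hB' : (0 : ℝ) < B := by exact_mod_cast hB
  have h1 : ∀ n, ∑ m ∈ range n, ‖zt N τ ((m + B : ℕ) + 1)‖ ≤ 2 / √B := fun n => by
    have h2 := THPt_tail_sum hB' n
    have h3 : 0 ≤ 2 / √(n + B : ℝ) := by positivity
    refine le_trans (sum_le_sum fun m _ => ?_) (h2.trans (by linarith))
    push_cast
    exact THPt_zt1 hz hN hτ (by linarith [Nat.cast_nonneg (α := ℝ) m])
  have h4 := summable_of_sum_range_le (fun m => norm_nonneg _) h1
  refine ⟨(summable_nat_add_iff B).1 h4.of_norm, (norm_tsum_le_tsum_norm h4).trans ?_⟩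
  exact Real.tsum_le_of_sum_range_le (fun m => norm_nonneg _) h1

lemma THPt_abel (c g : ℕ → ℂ) {A B : ℕ} {P D : ℝ} (hD : 0 ≤ D)
    (hP : ∀ u, A ≤ u → u ≤ B → ‖∑ n ∈ Ioc A u, g n‖ ≤ P)
    (hc : ∀ n, A ≤ n → ‖c (n + 1) - c n‖ ≤ D) (u : ℕ) (h1 : A ≤ u) (h2 : u ≤ B) :
    ‖∑ n ∈ Ioc A u, c n * g n - c u * ∑ n ∈ Ioc A u, g n‖ ≤ u * (D * P) := by
  induction u, h1 using Nat.le_induction with
  | base =>
    have : 0 ≤ P := (norm_nonneg _).trans (hP A le_rfl h2)
    simp only [Ioc_self, sum_empty, mul_zero, sub_zero, norm_zero]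
    positivity
  | succ u hu ih =>
    rw [sum_Ioc_succ_top hu, sum_Ioc_succ_top hu]
    have e : ∑ n ∈ Ioc A u, c n * g n + c (u + 1) * g (u + 1) -
        c (u + 1) * (∑ n ∈ Ioc A u, g n + g (u + 1)) =
        (∑ n ∈ Ioc A u, c n * g n - c u * ∑ n ∈ Ioc A u, g n) -
          (c (u + 1) - c u) * ∑ n ∈ Ioc A u, g n := by ring
    rw [e]
    refine (norm_sub_le _ _).trans ?_
    have h3 := ih (by omega)
    have h4 : ‖(c (u + 1) - c u) * ∑ n ∈ Ioc A u, g n‖ ≤ D * P := by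
      rw [norm_mul]
      exact mul_le_mul (hc u hu) (hP u hu (by omega)) (norm_nonneg _) hD
    push_cast
    linarith

/-- the slowly varying factor -/
noncomputable def THPt_c (N τ x : ℝ) : ℂ := zt N τ x * (x : ℂ) ^ (-((τ : ℂ) * I))

lemma THPt_c_norm (N τ : ℝ) {x : ℝ} (hx : 0 < x) : ‖THPt_c N τ x‖ = ‖zt N τ x‖ := by
  rw [THPt_c, norm_mul, norm_cpow_eq_rpow_re_of_pos hx]
  simp

lemma THPt_deriv {N τ x : ℝ} (hN : 1 ≤ N) (hτ : 0 ≤ τ) (hx : 0 < x) :
    ∃ d : ℂ, HasDerivAt (THPt_c N τ) (THPt_c N τ x * d) x ∧ ‖d‖ ≤ (2 + τ / N / x) / x := by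
  have hN0 : (N : ℂ) ≠ 0 := by exact_mod_cast (by linarith : N ≠ 0)
  have hx0 : (x : ℂ) ≠ 0 := by exact_mod_cast hx.ne'
  set z : ℂ := 1 / N - 2 * π * x * I with hzdef
  have hre : z.re = 1 / N := by
    have : (1 / N : ℂ) = ((1 / N : ℝ) : ℂ) := by push_cast; rfl
    rw [hzdef, this]; simp
  have him : z.im = -(2 * π * x) := by
    have : (1 / N : ℂ) = ((1 / N : ℝ) : ℂ) := by push_cast; rfl
    rw [hzdef, this]; simp
  have hsl : z ∈ slitPlane := Or.inl (by rw [hre]; positivity)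
  have hz0 : z ≠ 0 := slitPlane_ne_zero hsl
  have h1 : HasDerivAt (fun w : ℂ => (1 / N - 2 * π * w * I : ℂ)) (-(2 * π * I)) (x : ℂ) := by
    simpa using (((hasDerivAt_id (x : ℂ)).const_mul (2 * π : ℂ)).mul_const I).const_sub (1 / N : ℂ)
  have h2 := (h1.cpow_const (c := -(3 / 2) + τ * I) hsl).mul_const
    ((Real.exp (-(π * τ / 2)) : ℝ) : ℂ)
  have h3 := (hasDerivAt_id (x : ℂ)).cpow_const (c := -((τ : ℂ) * I))
    (show (x : ℂ) ∈ slitPlane from Or.inl (by simpa using hx))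
  have h4 := (h2.mul h3).comp_ofReal
  refine ⟨I * (3 * π * x - τ / N) / (x * z), ?_, ?_⟩
  · refine HasDerivAt.congr_deriv (f := THPt_c N τ) h4 (Eq.symm ?_)
    simp only [THPt_c, zt, id, ← hzdef]
    rw [cpow_sub _ _ hz0, cpow_sub _ _ hx0, cpow_one, cpow_one]
    have e : I * (3 * π * x - τ / N) =
        (-(3 / 2) + τ * I) * -(2 * π * I) * x + -(τ * I) * z := by
      rw [hzdef]
      linear_combination (0 : ℂ) * I_sq
    rw [e]
    field_simp
  · have hz1 : 2 * π * x ≤ ‖z‖ := by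
      have := abs_im_le_norm z
      rwa [him, abs_neg, abs_of_pos (by positivity)] at this
    have hM : 0 ≤ τ / N := by positivity
    have hn : ‖(3 * π * x - τ / N : ℂ)‖ ≤ 3 * π * x + τ / N := by
      have : (3 * π * x - τ / N : ℂ) = ((3 * π * x - τ / N : ℝ) : ℂ) := by push_cast; rfl
      rw [this, Complex.norm_real, Real.norm_eq_abs]
      exact abs_le.2 ⟨by nlinarith [Real.pi_pos], by linarith⟩
    rw [norm_div, norm_mul, norm_I, one_mul, norm_mul, Complex.norm_real, Real.norm_eq_abs,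
      abs_of_pos hx]
    calc _ ≤ (3 * π * x + τ / N) / (x * (2 * π * x)) := by gcongr
      _ ≤ _ := by
        generalize τ / N = M at *
        rw [div_le_div_iff₀ (by positivity) hx]
        have e : (2 + M / x) * (x * (2 * π * x)) = (2 * x + M) * (2 * π * x) := by field_simp
        rw [e]
        have := Real.pi_gt_three
        have h5 : 0 ≤ M * x := by positivity
        have h6 : 0 < x * x := by positivity
        nlinarith

lemma THPt_lip (hz : ZtSt) {N τ A x : ℝ} (hN : 1 ≤ N) (hτ : 0 ≤ τ) (hA : 1 ≤ A) (hx : A ≤ x) :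
    ‖THPt_c N τ (x + 1) - THPt_c N τ x‖ ≤ 1 / (A * √A) * ((2 + τ / N / A) / A) := by
  choose! d hd using fun y (hy : 0 < y) => THPt_deriv (x := y) hN hτ hy
  have := (convex_Ici A).norm_image_sub_le_of_norm_hasDerivWithin_le (f := THPt_c N τ)
    (f' := fun y => THPt_c N τ y * d y) (C := 1 / (A * √A) * ((2 + τ / N / A) / A))
    (fun y hy => (hd y (by linarith [Set.mem_Ici.1 hy])).1.hasDerivWithinAt)
    (fun y hy => by
      have hy' : A ≤ y := hy
      have hy0 : 0 < y := by linarith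
      rw [norm_mul, THPt_c_norm N τ hy0]
      refine mul_le_mul ((THPt_zt1 hz hN hτ (by linarith)).trans (by gcongr))
        ((hd y (by linarith)).2.trans (by gcongr)) (norm_nonneg _) (by positivity))
    (show x ∈ Set.Ici A from hx) (show x + 1 ∈ Set.Ici A from by simp only [Set.mem_Ici]; linarith)
  simpa using this

lemma THPt_est (hz : ZtSt) {N τ P : ℝ} (hN : 1 ≤ N) (hτ : 0 < τ) {A K : ℕ} (hA : 1 ≤ A)
    (hK : 1 ≤ K)
    (hP : ∀ u, A ≤ u → u ≤ K * A → ‖∑ n ∈ Ioc A u, (n : ℂ) ^ (-(((-τ : ℝ) : ℂ) * I))‖ ≤ P) :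
    ‖∑' m : ℕ, zt N τ (m + 1)‖ ≤ 338 * (A * √A) / (τ / N) ^ 2 +
      P / (A * √A) * (1 + K * (2 + τ / N / A)) + 2 / √(K * A) := by
  have hAB : A ≤ K * A := Nat.le_mul_of_pos_left _ hK
  have hA' : (1 : ℝ) ≤ A := by exact_mod_cast hA
  obtain ⟨hs, ht⟩ := THPt_tail hz hN hτ.le (hA.trans hAB)
  rw [← hs.sum_add_tsum_nat_add (K * A)]
  have e1 : ∑ m ∈ range (K * A), zt N τ (m + 1) =
      ∑ n ∈ Ioc 0 A, zt N τ n + ∑ n ∈ Ioc A (K * A), zt N τ n := by
    rw [sum_Ioc_consecutive _ (Nat.zero_le _) hAB, ← Finset.Ico_add_one_add_one_eq_Ioc,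
      sum_Ico_eq_sum_range]
    refine sum_congr (by simp) fun m _ => ?_
    push_cast
    congr 1
    ring
  have h1 : ‖∑ n ∈ Ioc 0 A, zt N τ n‖ ≤ 338 * (A * √A) / (τ / N) ^ 2 := by
    refine (norm_sum_le _ _).trans ((sum_le_card_nsmul _ _ (338 * √A / (τ / N) ^ 2)
      fun n hn => ?_).trans (le_of_eq ?_))
    · have h := mem_Ioc.1 hn
      refine (THPt_zt2 hz hN hτ (by exact_mod_cast h.1)).trans ?_
      have : (n : ℝ) ≤ A := by exact_mod_cast h.2
      gcongr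
    · simp only [Nat.card_Ioc, tsub_zero, nsmul_eq_mul]
      ring
  have hP0 : 0 ≤ P := (norm_nonneg _).trans (hP A le_rfl hAB)
  have h2 : ‖∑ n ∈ Ioc A (K * A), zt N τ n‖ ≤ P / (A * √A) * (1 + K * (2 + τ / N / A)) := by
    have e2 : ∑ n ∈ Ioc A (K * A), zt N τ n =
        ∑ n ∈ Ioc A (K * A), THPt_c N τ n * (n : ℂ) ^ (-(((-τ : ℝ) : ℂ) * I)) := by
      refine sum_congr rfl fun n hn => ?_
      have hn0 : (n : ℂ) ≠ 0 := by
        have := (mem_Ioc.1 hn).1
        exact_mod_cast (by omega : n ≠ 0)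
      rw [THPt_c, mul_assoc, ofReal_natCast, ← cpow_add _ _ hn0]
      simp
    have h3 := THPt_abel (fun n => THPt_c N τ n) (fun n => (n : ℂ) ^ (-(((-τ : ℝ) : ℂ) * I)))
      (D := 1 / (A * √A) * ((2 + τ / N / A) / A)) (by positivity) hP
      (fun n hn => by
        push_cast
        exact THPt_lip hz hN hτ.le hA' (by exact_mod_cast hn)) (K * A) hAB le_rfl
    have hB' : (A : ℝ) ≤ (K * A : ℕ) := by exact_mod_cast hAB
    have h4 : ‖THPt_c N τ (K * A : ℕ) *
        ∑ n ∈ Ioc A (K * A), (n : ℂ) ^ (-(((-τ : ℝ) : ℂ) * I))‖ ≤ 1 / (A * √A) * P := by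
      rw [norm_mul, THPt_c_norm N τ (by linarith)]
      exact mul_le_mul ((THPt_zt1 hz hN hτ.le (by linarith)).trans (by gcongr))
        (hP _ hAB le_rfl) (norm_nonneg _) (by positivity)
    rw [e2]
    refine (norm_le_norm_sub_add _ _).trans ((add_le_add h3 h4).trans (le_of_eq ?_))
    push_cast
    field_simp
    ring
  rw [e1]
  push_cast at ht ⊢
  exact (norm_add_le _ _).trans (add_le_add ((norm_add_le _ _).trans (add_le_add h1 h2)) ht)

lemma THPt_blocks (g : ℕ → ℂ) {A K : ℕ} {Q : ℝ} (hQ : 0 ≤ Q)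
    (h : ∀ a b, A ≤ a → a ≤ b → b ≤ 2 * a → b ≤ K * A → ‖∑ n ∈ Ioc a b, g n‖ ≤ Q) (k : ℕ) :
    ∀ u, A ≤ u → u ≤ K * A → u ≤ (k + 1) * A → ‖∑ n ∈ Ioc A u, g n‖ ≤ k * Q := by
  induction k with
  | zero =>
    intro u h1 _ h3
    obtain rfl : u = A := by omega
    simp
  | succ k ih =>
    intro u h1 h2 h3
    push_cast
    rcases le_total u ((k + 1) * A) with h4 | h4
    · linarith [ih u h1 h2 h4]
    · have h5 : A ≤ (k + 1) * A := Nat.le_mul_of_pos_left _ (by omega)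
      rw [← sum_Ioc_consecutive _ h5 h4]
      have h6 := ih _ h5 (h4.trans h2) le_rfl
      have h7 := h _ u h5 h4 (by nlinarith) h2
      linarith [norm_add_le (∑ n ∈ Ioc A ((k + 1) * A), g n) (∑ n ∈ Ioc ((k + 1) * A) u, g n)]

lemma THPt_gen (hz : ZtSt) {N τ : ℝ} (hN : 1 ≤ N) (hτ : N ≤ τ) :
    ‖∑' m : ℕ, zt N τ (m + 1)‖ ≤ 3000 / √(τ / N) := by
  have hM : 1 ≤ τ / N := by rw [le_div_iff₀ (by linarith)]; linarith
  have h1 := THPt_est hz (P := 0) hN (show 0 < τ by linarith) (A := ⌈τ / N⌉₊) (K := 1)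
    (Nat.one_le_ceil_iff.2 (by linarith)) le_rfl (fun u a b => by
      obtain rfl : u = ⌈τ / N⌉₊ := by omega
      simp)
  have a1 := Nat.le_ceil (τ / N)
  have a2 := Nat.ceil_lt_add_one (show 0 ≤ τ / N by linarith)
  generalize τ / N = M at *
  generalize (⌈M⌉₊ : ℝ) = A at *
  have r1 : √M ≤ √A := Real.sqrt_le_sqrt a1
  have r0 : 1 ≤ √M := Real.one_le_sqrt.2 hM
  have r2 : √A ≤ 2 * √M := by
    rw [Real.sqrt_le_left (by positivity), mul_pow, Real.sq_sqrt (by linarith)]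
    linarith
  have r3 : √M * √M = M := Real.mul_self_sqrt (by linarith)
  refine h1.trans ?_
  simp only [zero_div, zero_mul, add_zero, Nat.cast_one, one_mul]
  have b1 : 338 * (A * √A) / M ^ 2 ≤ 338 * (2 * M * (2 * √M)) / M ^ 2 := by
    gcongr; linarith
  have b2 : 2 / √A ≤ 2 / √M := by gcongr
  have b3 : 338 * (2 * M * (2 * √M)) / M ^ 2 = 1352 / √M := by
    generalize √M = r at *
    subst r3
    field_simp
    norm_num
  have b4 : 1352 / √M + 2 / √M ≤ 3000 / √M := by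
    rw [← add_div]; gcongr; norm_num
  linarith

lemma THPt_sav (hz : ZtSt) {N τ : ℝ} {l : ℕ} (hl : 2 ≤ l) (hN : 1 ≤ N) (hτ : N ≤ τ)
    (h16 : 16 ≤ τ / N) (hlog : 2 * (l : ℝ) ^ 54 ≤ Real.log (τ / N)) (hup : τ / N ≤ N ^ 2)
    (hlo : τ ≤ √(τ / N) ^ l) :
    ‖∑' m : ℕ, zt N τ (m + 1)‖ ≤ 3000 / ((τ / N) ^ (1 / (l : ℝ) ^ 54 / 18) * √(τ / N)) := by
  have hτM : τ = τ / N * N := by field_simp
  set M := τ / N with hMdef
  set e : ℝ := 1 / (l : ℝ) ^ 54 with he
  have hl' : (2 : ℝ) ≤ l := by exact_mod_cast hl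
  have e0 : 0 < e := by positivity
  have e1 : e ≤ 1 := by
    rw [he, div_le_one (by positivity)]
    exact one_le_pow₀ (by linarith)
  have M0 : 0 < M := by linarith
  set lam := M ^ (e / 18) with hlam
  have l1 : 1 ≤ lam := Real.one_le_rpow (by linarith) (by positivity)
  have l18 : lam ^ 18 = M ^ e := by
    rw [hlam, ← Real.rpow_natCast, ← Real.rpow_mul M0.le]; norm_num
  have r3 : √M * √M = M := Real.mul_self_sqrt M0.le
  have r4 : 4 ≤ √M := Real.le_sqrt_of_sq_le (by linarith)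
  have l4 : lam ^ 2 ≤ √M := by
    refine Real.le_sqrt_of_sq_le ?_
    calc (lam ^ 2) ^ 2 = lam ^ 4 := by ring
      _ ≤ lam ^ 18 := pow_le_pow_right₀ l1 (by norm_num)
      _ ≤ M ^ (1 : ℝ) := by rw [l18]; exact Real.rpow_le_rpow_of_exponent_le (by linarith) e1
      _ = M := Real.rpow_one M
  have hML : √M ≤ M / lam ^ 2 := by
    rw [le_div_iff₀ (by positivity)]; nlinarith
  have l2 : 1 ≤ lam ^ 4 := one_le_pow₀ l1
  have a1 := Nat.le_ceil (M / lam ^ 2)
  have a2 := Nat.ceil_lt_add_one (show 0 ≤ M / lam ^ 2 by positivity)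
  have k1 := Nat.le_ceil (lam ^ 4)
  have k2 := Nat.ceil_lt_add_one (show 0 ≤ lam ^ 4 by positivity)
  have hA : 1 ≤ ⌈M / lam ^ 2⌉₊ := Nat.one_le_ceil_iff.2 (by positivity)
  have hK : 1 ≤ ⌈lam ^ 4⌉₊ := Nat.one_le_ceil_iff.2 (by positivity)
  generalize ⌈M / lam ^ 2⌉₊ = A at *
  generalize ⌈lam ^ 4⌉₊ = K at *
  have a3 : (A : ℝ) ≤ 2 * (M / lam ^ 2) := by linarith
  have k3 : (K : ℝ) ≤ 2 * lam ^ 4 := by linarith
  have A0 : (0 : ℝ) < A := by exact_mod_cast hA
  have b1 : (K : ℝ) * A ≤ 4 * lam ^ 2 * M := by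
    calc _ ≤ 2 * lam ^ 4 * (2 * (M / lam ^ 2)) := by gcongr
      _ = _ := by field_simp; norm_num
  have b2 : lam ^ 2 * M ≤ (K : ℝ) * A := by
    calc _ = lam ^ 4 * (M / lam ^ 2) := by field_simp
      _ ≤ _ := by gcongr
  have b3 : M ≤ (K : ℝ) * A := le_trans (le_mul_of_one_le_left M0.le (one_le_pow₀ l1)) b2
  have hQ : ((K : ℝ) * A) ^ (1 - e) ≤ 4 * M / lam ^ 16 := by
    rw [Real.rpow_sub (by positivity), Real.rpow_one]
    calc _ ≤ 4 * lam ^ 2 * M / M ^ e := by gcongr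
      _ = _ := by rw [← l18]; field_simp
  have hP := THPt_blocks (fun n => (n : ℂ) ^ (-(((-τ : ℝ) : ℂ) * I))) (A := A) (K := K)
    (Q := 4 * M / lam ^ 16) (by positivity) (fun a b c1 c2 c3 c4 => by
      have d1 : (A : ℝ) ≤ a := by exact_mod_cast c1
      have d2 : (a : ℝ) ≤ K * A := by exact_mod_cast c2.trans c4
      have d3 : √M ≤ a := by linarith
      have habs : |(-τ)| = τ := by rw [abs_neg, abs_of_nonneg (by linarith)]
      refine (Pool.Agent.Lib.MP_b09185_nt.Vin.expsum hl ?_ c2 c3 ?_ ?_).trans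
        (le_trans (Real.rpow_le_rpow (by positivity) d2 (by linarith)) hQ)
      · have := Real.log_le_log (by linarith) d3
        rw [Real.log_sqrt M0.le] at this
        linarith
      · rw [habs]
        have d4 : (a : ℝ) ≤ (√M) ^ 4 := by
          have f1 : (√M) ^ 4 = √M * √M * M := by
            rw [show (√M) ^ 4 = √M * √M * (√M * √M) by ring, r3]
          have f2 : 4 * lam ^ 2 ≤ √M * √M := mul_le_mul r4 l4 (by positivity) (by positivity)
          rw [f1]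
          exact d2.trans (b1.trans (mul_le_mul_of_nonneg_right f2 M0.le))
        have d5 : √M ≤ N := Real.sqrt_le_iff.2 ⟨by linarith, hup⟩
        calc (a : ℝ) ^ (3 / 4 : ℝ) ≤ ((√M) ^ 4) ^ (3 / 4 : ℝ) := by gcongr
          _ = √M ^ 3 := by
            rw [← Real.rpow_natCast, ← Real.rpow_mul (by positivity), ← Real.rpow_natCast]
            norm_num
          _ = M * √M := by rw [show (√M) ^ 3 = √M * √M * √M by ring, r3]
          _ ≤ τ := by rw [hτM]; gcongr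
      · rw [habs]
        exact hlo.trans (by gcongr)) K
  have h1 := THPt_est hz (P := K * (4 * M / lam ^ 16)) hN (show 0 < τ by linarith) hA hK
    (fun u c1 c2 => hP u c1 c2 (by nlinarith))
  refine h1.trans ?_
  rw [← hMdef]
  have s1 : √M / lam ≤ √A := Real.le_sqrt_of_sq_le (by
    rw [div_pow, Real.sq_sqrt M0.le]; exact a1)
  have s2 : √A ≤ 2 * √M := by
    rw [Real.sqrt_le_left (by positivity), mul_pow, Real.sq_sqrt M0.le]
    have : M / lam ^ 2 ≤ M := div_le_self M0.le (one_le_pow₀ l1)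
    linarith
  have s3 : lam * √M ≤ √(K * A) := Real.le_sqrt_of_sq_le (by
    rw [mul_pow, Real.sq_sqrt M0.le]; exact b2)
  have s4 : M / A ≤ lam ^ 2 := by
    rw [div_le_iff₀ A0]
    rw [div_le_iff₀ (by positivity)] at a1
    linarith
  have s5 : 1 + K * (2 + M / A) ≤ 7 * lam ^ 6 := by
    have l3 : 1 ≤ lam ^ 2 := one_le_pow₀ l1
    have l6 : 1 ≤ lam ^ 6 := one_le_pow₀ l1
    have : K * (2 + M / A) ≤ 2 * lam ^ 4 * (3 * lam ^ 2) := by gcongr; linarith
    nlinarith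
  have t1 : 338 * (A * √A) / M ^ 2 ≤ 338 * (2 * (M / lam ^ 2) * (2 * √M)) / M ^ 2 := by gcongr
  have t2 : K * (4 * M / lam ^ 16) / (A * √A) * (1 + K * (2 + M / A)) ≤
      2 * lam ^ 4 * (4 * M / lam ^ 16) / (M / lam ^ 2 * (√M / lam)) * (7 * lam ^ 6) := by gcongr
  have t3 : 2 / √(K * A) ≤ 2 / (lam * √M) := by gcongr
  have t4 : 338 * (2 * (M / lam ^ 2) * (2 * √M)) / M ^ 2 = 1352 / (lam ^ 2 * √M) := by
    generalize √M = r at *
    rw [← r3]
    field_simp
    norm_num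
  have t5 : 2 * lam ^ 4 * (4 * M / lam ^ 16) / (M / lam ^ 2 * (√M / lam)) * (7 * lam ^ 6) =
      56 / (lam ^ 3 * √M) := by
    field_simp
    norm_num
  have t6 : 1352 / (lam ^ 2 * √M) ≤ 1352 / (lam * √M) := by
    gcongr; exact le_self_pow₀ l1 (by norm_num)
  have t7 : 56 / (lam ^ 3 * √M) ≤ 56 / (lam * √M) := by
    gcongr; exact le_self_pow₀ l1 (by norm_num)
  have t8 : 1352 / (lam * √M) + 56 / (lam * √M) + 2 / (lam * √M) ≤ 3000 / (lam * √M) := by
    rw [← add_div, ← add_div]; gcongr; norm_num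
  linarith

lemma THPt_gm (hz : ZtSt) {N τ X : ℝ} (hN : 1 ≤ N) (hτ : N ≤ τ) (hX : 0 < X)
    (h : ‖∑' m : ℕ, zt N τ (m + 1)‖ ≤ 3000 / (X * √(τ / N))) : ‖Gm N τ‖ ≤ 18000 * √τ / X := by
  have h1 := hz.1 τ (by linarith)
  have a0 : 0 < √N := Real.sqrt_pos.2 (by linarith)
  have b0 : 0 < √τ := Real.sqrt_pos.2 (by linarith)
  have b1 : √τ * √τ = τ := Real.mul_self_sqrt (by linarith)
  rw [Gm, norm_mul, norm_div, Complex.norm_real, Real.norm_eq_abs, abs_of_pos a0]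
  rw [Real.sqrt_div (by linarith)] at h
  have τ0 : 0 < τ := by linarith
  calc _ ≤ 6 * τ / √N * (3000 / (X * (√τ / √N))) := by gcongr; linarith
    _ = _ := by
      generalize √τ = b at *
      subst b1
      field_simp
      norm_num

theorem pt (hz : ZtSt) : PtSt := by
  intro δ hδ
  set μ : ℝ := δ / (1 + δ) / 2 with hμ
  have μ0 : 0 < μ := by positivity
  obtain ⟨l, hl, hl2⟩ : ∃ l : ℕ, 2 ≤ l ∧ 2 / μ ≤ l :=
    ⟨⌈2 / μ⌉₊ + 2, by omega, by push_cast; linarith [Nat.le_ceil (2 / μ)]⟩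
  have hl' : (2 : ℝ) ≤ l := by exact_mod_cast hl
  set e : ℝ := 1 / (l : ℝ) ^ 54 / 18 with he
  have e0 : 0 < e := by positivity
  have e1 : e ≤ 1 / 2 := by
    have : 1 / (l : ℝ) ^ 54 ≤ 1 := by
      rw [div_le_one (by positivity)]
      exact one_le_pow₀ (by linarith)
    rw [he]; linarith
  set M0 : ℝ := 16 + Real.exp (2 * (l : ℝ) ^ 54) with hM0
  have M1 : 16 ≤ M0 := by rw [hM0]; linarith [Real.exp_pos (2 * (l : ℝ) ^ 54)]
  refine ⟨μ * e, by positivity, 18000 * M0, fun N T τ hN h1 h2 h3 h4 => ?_⟩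
  have T1 : 1 ≤ T := le_trans (Real.one_le_rpow hN (by linarith)) h1
  have T0 : 0 < T := by linarith
  have η1 : μ * e ≤ μ / 2 := by nlinarith
  have hNT : N ≤ T ^ (1 - 2 * μ) := by
    have : 1 - 2 * μ = (1 + δ)⁻¹ := by rw [hμ]; field_simp; ring
    rw [this, Real.le_rpow_inv_iff_of_pos (by linarith) T0.le (by linarith)]
    exact h1
  have hpos : 0 < T ^ (1 / 2 - μ * e) := by positivity
  have sq : ∀ x a : ℝ, x ≤ T ^ (1 - 2 * a) → μ * e ≤ a → √x ≤ T ^ (1 / 2 - μ * e) := by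
    intro x a hx ha
    refine Real.sqrt_le_iff.2 ⟨hpos.le, hx.trans ?_⟩
    rw [← Real.rpow_natCast, ← Real.rpow_mul T0.le]
    exact Real.rpow_le_rpow_of_exponent_le T1 (by push_cast; linarith)
  rcases le_total τ N with c1 | c1
  · obtain ⟨hs, ht⟩ := THPt_tail hz hN h3 (B := 1) le_rfl
    have h5 : ‖∑' m : ℕ, zt N τ (m + 1)‖ ≤ 3 := by
      rw [← hs.sum_add_tsum_nat_add 1]
      refine (norm_add_le _ _).trans ?_
      have := THPt_zt1 hz hN h3 (x := 1) le_rfl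
      simp only [range_one, sum_singleton, Nat.cast_zero, zero_add, Nat.cast_one, Real.sqrt_one,
        mul_one, div_one] at this ht ⊢
      linarith
    have a0 : 0 < √N := Real.sqrt_pos.2 (by linarith)
    have a1 : √N * √N = N := Real.mul_self_sqrt (by linarith)
    have h6 := hz.1 τ h3
    have h7 := sq N μ hNT (by linarith)
    rw [Gm, norm_mul, norm_div, Complex.norm_real, Real.norm_eq_abs, abs_of_pos a0]
    calc _ ≤ 6 * N / √N * 3 := by gcongr; linarith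
      _ = 18 * √N := by
        generalize √N = a at *
        subst a1
        field_simp
        norm_num
      _ ≤ _ := by gcongr; linarith
  have hgen : ‖Gm N τ‖ ≤ 18000 * √τ := by
    simpa using THPt_gm hz hN c1 one_pos (by simpa using THPt_gen hz hN c1)
  rcases le_total τ (T ^ (1 - 2 * (μ / 2))) with c2 | c2
  · have := sq τ _ c2 η1
    exact hgen.trans (by gcongr; linarith)
  have hM : T ^ μ ≤ τ / N := by
    rw [le_div_iff₀ (by linarith)]
    refine le_trans ?_ c2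
    calc T ^ μ * N ≤ T ^ μ * T ^ (1 - 2 * μ) := by gcongr
      _ = _ := by rw [← Real.rpow_add T0]; congr 1; ring
  have hsT : √τ ≤ T ^ (μ * e) * T ^ (1 / 2 - μ * e) := by
    rw [← Real.rpow_add T0, add_sub_cancel, ← Real.sqrt_eq_rpow]
    exact Real.sqrt_le_sqrt h4
  rcases le_total (τ / N) M0 with c3 | c3
  · have h5 : T ^ (μ * e) ≤ M0 :=
      (Real.rpow_le_rpow_of_exponent_le T1 (by linarith)).trans (hM.trans c3)
    calc _ ≤ 18000 * (M0 * T ^ (1 / 2 - μ * e)) := hgen.trans (by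
          gcongr
          exact hsT.trans (by gcongr))
      _ = _ := by ring
  have M0' : 0 < τ / N := by linarith
  have h5 := THPt_gm hz hN c1 (by positivity) (THPt_sav hz hl hN c1 (by linarith) ?_ ?_ ?_)
  · rw [← he] at h5
    have h6 : T ^ (μ * e) ≤ (τ / N) ^ e := by
      rw [Real.rpow_mul T0.le]
      gcongr
    refine h5.trans ?_
    rw [div_le_iff₀ (by positivity)]
    calc 18000 * √τ ≤ 18000 * ((τ / N) ^ e * T ^ (1 / 2 - μ * e)) := by
          gcongr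
          exact hsT.trans (by gcongr)
      _ ≤ 18000 * M0 * ((τ / N) ^ e * T ^ (1 / 2 - μ * e)) := by gcongr; linarith
      _ = _ := by ring
  · rw [Real.le_log_iff_exp_le M0']
    linarith
  · rw [div_le_iff₀ (by linarith)]
    nlinarith
  · refine h4.trans ?_
    calc T = T ^ (1 : ℝ) := (Real.rpow_one T).symm
      _ ≤ T ^ (μ * (1 / 2) * l) := by
        refine Real.rpow_le_rpow_of_exponent_le T1 ?_
        rw [div_le_iff₀ μ0] at hl2
        linarith
      _ = √(T ^ μ) ^ l := by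
        rw [Real.sqrt_eq_rpow, ← Real.rpow_mul T0.le, ← Real.rpow_natCast, ← Real.rpow_mul T0.le]
      _ ≤ _ := by gcongr

end Pool.Agent.Lib.MP_a93a41_nt.TH
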