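import Pool.Agent.Lib.MP_a93a41_nt.TH0

/-! The range `N ≤ T ≤ N ^ (1 + δ)`. -/

namespace Pool.Agent.Lib.MP_a93a41_nt.TH

open Finset Complex
open scoped Real ComplexConjugate

lemma r3_lv {N : ℕ} {a : ℕ → ℂ} {T V : ℝ} {S W : Finset ℝ} (h : LV N a T V S) (s : W ⊆ S) :
    LV N a T V W := ⟨h.1, h.2.1.mono s, fun t ht => h.2.2 t (s ht)⟩

/-- pairs of points in far blocks -/
lemma r3_far {W : Finset ℝ} {g : ℝ → ℝ → ℂ} {H T A D : ℝ} (hH : 0 < H) (hA : 0 ≤ A) (hD : 0 ≤ D)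
    (hT : H ≤ T) (hW : ∀ t ∈ W, 0 ≤ t ∧ t ≤ T)
    (h : ∀ W1 ⊆ W, ∀ W2 ⊆ W, ∀ τ, 2 * H ≤ τ → τ ≤ T → (∀ t ∈ W1, ∀ s ∈ W2, |t - s - τ| ≤ H) →
      ‖∑ t ∈ W1, ∑ s ∈ W2, g t s‖ ≤ A + D * (#W1 * #W2)) :
    ‖∑ t ∈ W, ∑ s ∈ W, if ⌊s / H⌋ + 2 ≤ ⌊t / H⌋ then g t s else 0‖ ≤
      4 * (T / H) ^ 2 * A + D * #W ^ 2 := by
  set I := Icc 0 ⌊T / H⌋
  have m : ∀ t ∈ W, ⌊t / H⌋ ∈ I := fun t ht => mem_Icc.2
    ⟨Int.floor_nonneg.2 (div_nonneg (hW t ht).1 hH.le), Int.floor_mono (by gcongr; exact (hW t ht).2)⟩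
  have q1 : 1 ≤ T / H := (one_le_div hH).2 hT
  have cI : (#I : ℝ) ≤ 2 * (T / H) := by
    have : ((#I : ℤ) : ℝ) = (⌊T / H⌋ + 1 - 0 : ℤ) := by
      rw [Int.card_Icc_of_le]; have := Int.floor_nonneg.2 (zero_le_one.trans q1); omega
    push_cast at this
    linarith [Int.floor_le (T / H)]
  have cW : ∑ i ∈ I, (#(W.filter fun t => ⌊t / H⌋ = i) : ℝ) = #W := by
    exact_mod_cast (card_eq_sum_card_fiberwise fun t ht => m t ht).symm
  rw [← sum_fiberwise_of_maps_to m]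
  simp only [← sum_fiberwise_of_maps_to m (fun s => if ⌊s / H⌋ + 2 ≤ _ then g _ s else 0)]
  calc _ ≤ ∑ i ∈ I, ∑ j ∈ I, (A + D * (#(W.filter fun t => ⌊t / H⌋ = i) *
        #(W.filter fun t => ⌊t / H⌋ = j))) := by
        refine norm_sum_le_of_le _ fun i hi => ?_
        rw [sum_comm]
        refine norm_sum_le_of_le _ fun j hj => ?_
        rw [sum_congr rfl fun t ht => sum_congr rfl fun s hs => by
          rw [(mem_filter.1 ht).2, (mem_filter.1 hs).2]]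
        split_ifs with c
        · have c' : (j : ℝ) + 2 ≤ i := by exact_mod_cast c
          have i1 : (i : ℝ) * H ≤ T := (le_div_iff₀ hH).1 (Int.le_floor.1 (mem_Icc.1 hi).2)
          have j0 : (0 : ℝ) ≤ j := by exact_mod_cast (mem_Icc.1 hj).1
          refine h _ (filter_subset _ _) _ (filter_subset _ _) ((i - j) * H) (by nlinarith)
            (by nlinarith) fun t ht s hs => ?_
          have a := Int.floor_eq_iff.1 (mem_filter.1 ht).2
          have b := Int.floor_eq_iff.1 (mem_filter.1 hs).2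
          rw [le_div_iff₀ hH, div_lt_iff₀ hH] at a b
          rw [abs_le]
          constructor <;> linarith [a.1, a.2, b.1, b.2]
        · simp only [sum_const_zero, norm_zero]; positivity
    _ = #I ^ 2 * A + D * #W ^ 2 := by
        simp only [sum_add_distrib, ← mul_sum, ← sum_mul, cW, sum_const, nsmul_eq_mul]; ring
    _ ≤ _ := by
        have := pow_le_pow_left₀ (Nat.cast_nonneg _) cI 2
        nlinarith

/-- splitting the Gram sum -/
lemma r3_split {W : Finset ℝ} {g : ℝ → ℝ → ℂ} {H E : ℝ} (hH : 0 < H) (hE : 0 ≤ E)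
    (h : ∀ t s, s < t → t - s ≤ 2 * H → ‖g t s‖ ≤ E) :
    ‖∑ t ∈ W, ∑ s ∈ W.filter (· < t), g t s‖ ≤ E * #W ^ 2 +
      ‖∑ t ∈ W, ∑ s ∈ W, if ⌊s / H⌋ + 2 ≤ ⌊t / H⌋ then g t s else 0‖ := by
  rw [← sub_le_iff_le_add]
  refine (norm_sub_norm_le _ _).trans ?_
  simp only [sum_filter, ← sum_sub_distrib]
  refine (norm_sum_le_of_le _ fun t _ => norm_sum_le_of_le (n := fun _ => E) _ fun s _ => ?_).trans
    (by simp only [sum_const, nsmul_eq_mul]; linarith)
  have a := Int.floor_eq_iff.1 (rfl : ⌊t / H⌋ = _)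
  have b := Int.floor_eq_iff.1 (rfl : ⌊s / H⌋ = _)
  rw [le_div_iff₀ hH, div_lt_iff₀ hH] at a b
  split_ifs with c d d
  · simpa
  · have : (⌊t / H⌋ : ℝ) ≤ ⌊s / H⌋ + 1 := by exact_mod_cast (by omega : ⌊t / H⌋ ≤ ⌊s / H⌋ + 1)
    rw [sub_zero]
    exact h t s c (by nlinarith [a.2, b.1])
  · have : (⌊s / H⌋ : ℝ) + 2 ≤ ⌊t / H⌋ := by exact_mod_cast d
    exact absurd (by nlinarith [a.1, b.2]) c
  · simpa

/-- the numerical contradiction -/
lemma r3_num {x r R V B C : ℝ} (x8 : 8 ≤ x) (r0 : 0 < r) (C1 : 1 ≤ C) (Cx : C ≤ x) (R0 : 0 ≤ R)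
    (h1 : (R * V) ^ 2 ≤ C * (r ^ 2) ^ 2 * R + C * r ^ 2 * B) (h2 : B ≤ 2 * x ^ 2 * r * R ^ 2)
    (h3 : B * x ^ 5 ≤ 8 * r ^ 3) : R * V ^ 2 ≤ 2 * C * (r ^ 2) ^ 2 := by
  by_contra hc
  rw [not_le] at hc
  have Rp : 0 < R := R0.lt_of_ne fun e => by rw [← e] at hc; nlinarith [pow_pos r0 4]
  have a1 : R ^ 2 * V ^ 2 ≤ 2 * C * r ^ 2 * B := by nlinarith
  have a2 : V ^ 2 ≤ 4 * x ^ 3 * r ^ 3 := by
    refine le_of_mul_le_mul_left (a1.trans ?_) (pow_pos Rp 2)
    calc _ ≤ 2 * x * r ^ 2 * (2 * x ^ 2 * r * R ^ 2) := by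
          rcases le_total B 0 with b | b
          · exact (mul_nonpos_of_nonneg_of_nonpos (by positivity) b).trans (by positivity)
          · gcongr
      _ = _ := by ring
  have a3 : (2 * C * (r ^ 2) ^ 2) ^ 2 ≤ (R * V ^ 2) ^ 2 := by gcongr
  have B0 : 0 ≤ 2 * C * r ^ 2 * B := le_trans (by positivity) a1
  have a4 : (R * V ^ 2) ^ 2 ≤ 2 * C * r ^ 2 * B * (4 * x ^ 3 * r ^ 3) := by
    calc _ = R ^ 2 * V ^ 2 * V ^ 2 := by ring
      _ ≤ _ := by gcongr
  have a5 : C * r ^ 3 ≤ 2 * B * x ^ 3 := by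
    refine le_of_mul_le_mul_left ?_ (by positivity : 0 < 4 * C * r ^ 5)
    nlinarith
  have r3 := pow_pos r0 3
  have : r ^ 3 * x ^ 2 ≤ 2 * B * x ^ 3 * x ^ 2 := by
    gcongr; nlinarith
  nlinarith [mul_le_mul x8 x8 (by norm_num) (by linarith)]

/-- the parameters -/
lemma r3_par {k : ℝ} (k0 : 0 < k) (k1 : k ≤ 1 / 10) {A : ℝ} (A1 : 1 ≤ A) : ∃ N0 : ℕ, ∀ N : ℕ,
    N0 ≤ N → ∀ T : ℝ, N ≤ T → T ≤ (N : ℝ) ^ (1 + k / 100) → ∃ x H : ℝ, A ≤ x ∧ A ≤ H ∧
      1 + Real.log T ≤ x ∧ T ≤ N * x ∧ √N ≤ T ^ (1 / 2 - k / 100) * x ∧ H * x ^ 14 = N ∧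
      x ^ 50 ≤ H ^ k ∧ x ^ 2 * (N * √N) ≤ (H ^ (4 / 5 : ℝ)) ^ 2 := by
  set e := k / 100 with he
  have e0 : 0 < e := by positivity
  obtain ⟨N0, h⟩ := Filter.eventually_atTop.1 ((((tendsto_rpow_atTop (half_pos e0)).comp
    tendsto_natCast_atTop_atTop).eventually_ge_atTop (max A (1 + 4 / e))).and
    (Filter.eventually_ge_atTop 1))
  refine ⟨N0, fun N hN T h1 h2 => ?_⟩
  obtain ⟨y1, n1⟩ := h N hN
  have n1 : (1 : ℝ) ≤ N := by exact_mod_cast n1
  simp only [Function.comp, max_le_iff] at y1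
  generalize (N : ℝ) = n at *
  have n0 : 0 < n := by linarith
  have m : ∀ {a b : ℝ}, a ≤ b → n ^ a ≤ n ^ b := Real.rpow_le_rpow_of_exponent_le n1
  have p : ∀ (a : ℝ) (j : ℕ), (n ^ a) ^ j = n ^ (a * j) := fun a j => (Real.rpow_mul_natCast n0.le _ _).symm
  refine ⟨n ^ e, n ^ (1 - 14 * e), y1.1.trans (m (by linarith)), y1.1.trans (m (by linarith)),
    ?_, by rwa [Real.rpow_add n0, Real.rpow_one] at h2, ?_, ?_, ?_, ?_⟩
  · have a1 := Real.log_le_log (by linarith) (h2.trans (m (by linarith : 1 + e ≤ 2)))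
    have a2 := Real.log_le_rpow_div n0.le (half_pos e0)
    have a3 : n ^ e = n ^ (e / 2) * n ^ (e / 2) := by rw [← Real.rpow_add n0, add_halves]
    have a4 : n ^ (e / 2) / (e / 2) * 2 = 4 / e * n ^ (e / 2) := by field_simp; norm_num
    rw [Real.log_rpow n0] at a1
    nlinarith [y1.1, mul_le_mul_of_nonneg_right y1.2 (Real.rpow_nonneg n0.le (e / 2))]
  · rw [Real.sqrt_eq_rpow, ← sub_add_cancel (1 / 2) e, Real.rpow_add n0, add_sub_cancel_right]
    exact mul_le_mul_of_nonneg_right (Real.rpow_le_rpow n0.le h1 (by linarith)) (by positivity)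
  · rw [p, ← Real.rpow_add n0]; norm_num [mul_comm]
  · rw [p, ← Real.rpow_mul n0.le]
    exact m (by push_cast; nlinarith)
  · rw [p, ← Real.rpow_mul n0.le, p, Real.sqrt_eq_rpow, mul_comm n, ← Real.rpow_add_one n0.ne',
      ← Real.rpow_add n0]
    exact m (by push_cast; linarith)

/-- few cells are heavy -/
lemma r3_cells (S : Finset ℝ) (L m : ℝ) :
    #((S.filter fun t => m < #(cell S L t)).image fun t => ⌊t / L⌋) * m ≤ (#S : ℝ) := by
  set I := (S.filter fun t => m < #(cell S L t)).image fun t => ⌊t / L⌋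
  calc _ = ∑ _i ∈ I, m := by simp
    _ ≤ ∑ i ∈ I, (#(S.filter fun t => ⌊t / L⌋ = i) : ℝ) := sum_le_sum fun i hi => by
        obtain ⟨t, ht, rfl⟩ := mem_image.1 hi
        exact (mem_filter.1 ht).2.le
    _ ≤ _ := by
        norm_cast
        rw [sum_card_fiberwise_eq_card_filter]
        exact card_filter_le _ _

/-- points that are light at all scales form a Frostman set -/
lemma r3_fr {S W : Finset ℝ} {N : ℕ} {m L0 : ℝ} (s : W ⊆ S) (L1 : 1 ≤ L0) (m0 : 0 ≤ m)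
    (hS : (#S : ℝ) ≤ m * √N)
    (h : ∀ i : ℕ, L0 ≤ 2 ^ i → 16 * 2 ^ i ≤ (N : ℝ) → ∀ t ∈ W, #(cell S (2 ^ i) t) ≤ m * √(2 ^ i)) :
    Fr W (6 * m) L0 := fun L hL => by
  have L1' := L1.trans hL
  have sq : ∀ {u : ℝ} (c : ℝ), 0 ≤ c → u ≤ c ^ 2 * L → √u ≤ c * √L := fun c c0 hu => by
    rw [← Real.sqrt_sq c0, ← Real.sqrt_mul (sq_nonneg c)]; exact Real.sqrt_le_sqrt hu
  rcases le_total (N : ℝ) (32 * L) with c | c
  · intro x
    refine (Nat.cast_le.2 ((card_filter_le _ _).trans (card_le_card s))).trans (hS.trans ?_)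
    nlinarith [mul_le_mul_of_nonneg_left (sq 6 (by norm_num) (by linarith : (N : ℝ) ≤ 6 ^ 2 * L)) m0]
  · obtain ⟨i, i1, i2⟩ := exists_nat_pow_near L1' one_lt_two
    have i3 : (2 : ℝ) ^ (i + 1) ≤ 2 * L := by rw [pow_succ]; linarith
    refine (ib_of_cell (by positivity) (by positivity) fun t ht => le_trans
      (Nat.cast_le.2 (card_le_card (filter_subset_filter _ s)))
      (h (i + 1) (by linarith) (by linarith) t ht)).mono Subset.rfl i2.le ?_
    nlinarith [mul_le_mul_of_nonneg_left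
      (sq 3 (by norm_num) (by linarith : (2 : ℝ) ^ (i + 1) ≤ 3 ^ 2 * L)) m0]

lemma r3_mv {N : ℕ} {a : ℕ → ℂ} {T V Z : ℝ} {S : Finset ℝ} (V0 : 0 ≤ V) (Z0 : 0 ≤ Z)
    (h : LV N a T V S) (g : ∑ t ∈ S, ‖DP N a t‖ ^ 2 ≤ Z * ∑ n ∈ Ico N (2 * N), ‖a n‖ ^ 2) :
    #S * V ^ 2 ≤ Z * N := by
  refine le_trans ?_ (g.trans (mul_le_mul_of_nonneg_left ?_ Z0))
  · rw [← nsmul_eq_mul]
    exact card_nsmul_le_sum _ _ _ fun t ht => pow_le_pow_left₀ V0 (h.2.2 t ht).2.2 2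
  · refine (sum_le_card_nsmul _ _ 1 fun n _ => pow_le_one₀ (norm_nonneg _) (h.1 n)).trans ?_
    simp [two_mul]

theorem r3 (core : CoreSt) (hm : HmSt) (bil : BilSt) (triv : TrivSt) (mv : MvSt) (conc : ConcSt) :
    R3St := by
  obtain ⟨k, k0, k1, T0, core⟩ := core
  obtain ⟨Ch, ch, hm⟩ := hm
  obtain ⟨Cb, bil⟩ := bil
  obtain ⟨Ct, triv⟩ := triv
  obtain ⟨Cm, cm, mv⟩ := mv
  obtain ⟨Cc, cc, conc⟩ := conc
  obtain ⟨N0, par⟩ := r3_par k0 k1 (A := max 8 (max T0 (max Ch (max Cb (max Ct (max (2 * Cm) Cc))))))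
    (le_max_of_le_left (by norm_num))
  refine ⟨k / 100, by positivity, 2 * Ch + 6 * Cc, N0, fun N a T V S hN NT TN V0 hV lv => ?_⟩
  obtain ⟨x, H, ax, aH, lx, Tx, Vx, Hx, Hk, L0x⟩ := par N hN T NT TN
  simp only [max_le_iff] at ax aH
  obtain ⟨x8, -, xh, xb, xt, xm, xc⟩ := ax
  obtain ⟨H8, HT, -⟩ := aH
  have x1 : 1 ≤ x := by linarith
  have x0 : 0 < x := by linarith
  have H0 : 0 < H := by linarith
  have xp : ∀ {i j : ℕ}, i ≤ j → x ^ i ≤ x ^ j := pow_le_pow_right₀ x1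
  have HN : H ≤ N := Hx ▸ le_mul_of_one_le_right H0.le (one_le_pow₀ x1)
  have N1 : (1 : ℝ) ≤ N := by linarith
  have N1' : 1 ≤ N := by exact_mod_cast N1
  have T1 : 1 ≤ T := N1.trans NT
  have l1 : 1 ≤ 1 + Real.log T := by linarith [Real.log_nonneg T1]
  have r0 : 0 < √(N : ℝ) := Real.sqrt_pos.2 (by linarith)
  have rr : √(N : ℝ) ^ 2 = N := Real.sq_sqrt (by linarith)
  have rH : √(N : ℝ) = x ^ 7 * √H := by
    rw [← Hx, mul_comm H, Real.sqrt_mul (by positivity), show x ^ 14 = (x ^ 7) ^ 2 by ring,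
      Real.sqrt_sq (by positivity)]
  have V1 : N * √N ≤ V ^ 2 * x := by
    linarith [mul_le_mul_of_nonneg_right hV x0.le, mul_le_mul_of_nonneg_left Vx (zero_le_one.trans N1)]
  have hR : (#S : ℝ) ≤ x ^ 4 * √N := by
    have a := r3_mv V0 (by positivity) lv
      (mv N S a T N1' T1 lv.2.1 fun t ht => ⟨(lv.2.2 t ht).1, (lv.2.2 t ht).2.1⟩)
    have b : Cm * (N + T) * (1 + Real.log T) * N ≤ x * (N * x) * x * N := by
      calc _ ≤ 2 * Cm * T * (1 + Real.log T) * N := by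
            gcongr ?_ * _ * _
            linarith [mul_le_mul_of_nonneg_left NT (zero_le_one.trans cm)]
        _ ≤ _ := by gcongr
    refine le_of_mul_le_mul_right ?_ (by positivity : 0 < N * √N)
    calc _ ≤ #S * V ^ 2 * x := by rw [mul_assoc]; gcongr
      _ ≤ x * (N * x) * x * N * x := by gcongr ?_ * _; exact a.trans b
      _ = x ^ 4 * N * √N ^ 2 := by rw [rr]; ring
      _ = _ := by ring
  set L0 := H ^ (4 / 5 : ℝ)
  have L1 : 1 ≤ L0 := Real.one_le_rpow (by linarith) (by norm_num)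
  set J := (range (Nat.log 2 N + 1)).filter fun i => L0 ≤ 2 ^ i ∧ 16 * 2 ^ i ≤ (N : ℝ)
  set Hv := fun i : ℕ => S.filter fun t => x ^ 5 * √(2 ^ i) < #(cell S (2 ^ i) t)
  have hv : ∀ i ∈ J, #(Hv i) * V ^ 2 ≤ Cc * (1 + Real.log T) * (2 * N ^ 2) := fun i hi => by
    obtain ⟨-, i1, i2⟩ := mem_filter.1 hi
    have s : √((2 : ℝ) ^ i) ^ 2 = 2 ^ i := Real.sq_sqrt (by positivity)
    have d := pow_le_pow_left₀ (by positivity) ((r3_cells S (2 ^ i) (x ^ 5 * √(2 ^ i))).trans hR) 2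
    simp only [mul_pow, s, rr] at d
    refine (conc N a T V (2 ^ i) _ (L1.trans i1) i2 NT V0 (r3_lv lv (filter_subset _ _)) ?_).trans ?_
    · have b := L0x.trans (pow_le_pow_left₀ (by linarith) i1 2)
      refine le_of_mul_le_mul_right ?_ x0
      calc _ ≤ x * N ^ 3 * x := by gcongr
        _ = x ^ 2 * N ^ 2 * √N ^ 2 := by rw [rr]; ring
        _ = N * √N * (x ^ 2 * (N * √N)) := by ring
        _ ≤ V ^ 2 * x * (2 ^ i) ^ 2 := by gcongr
        _ = _ := by ring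
    · gcongr
      generalize (#(image (fun t => ⌊t / 2 ^ i⌋) (Hv i)) : ℝ) = D at d ⊢
      have e : x ^ 2 * (D ^ 2 * 2 ^ i) ≤ N :=
        le_of_mul_le_mul_left (by linarith) (by positivity : 0 < x ^ 8)
      have : T ^ 2 / N * D ^ 2 * 2 ^ i ≤ N ^ 2 := by
        calc _ ≤ (N * x) ^ 2 / N * D ^ 2 * 2 ^ i := by gcongr
          _ = N * (x ^ 2 * (D ^ 2 * 2 ^ i)) := by field_simp
          _ ≤ N * N := by gcongr
          _ = _ := by ring
      linarith
  set W := S.filter fun t => ∀ i ∈ J, t ∉ Hv i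
  have sW : W ⊆ S := filter_subset _ _
  have lw := r3_lv lv sW
  have hW : (#W : ℝ) ≤ x ^ 4 * √N := (Nat.cast_le.2 (card_le_card sW)).trans hR
  have fr : Fr W (6 * x ^ 5) L0 := r3_fr sW L1 (by positivity)
    (hR.trans (by gcongr; norm_num)) fun i i1 i2 t ht => by
      have : i ∈ J := mem_filter.2 ⟨mem_range.2 (Nat.lt_succ_of_le (Nat.le_log_of_pow_le one_lt_two
        (by have : (2 : ℝ) ^ i ≤ N := by linarith [pow_pos (two_pos : (0 : ℝ) < 2) i]
            exact_mod_cast this))), i1, i2⟩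
      exact not_lt.1 fun c => (mem_filter.1 ht).2 i this (mem_filter.2 ⟨sW ht, c⟩)
  have TH : T / H ≤ x ^ 15 := (div_le_iff₀ H0).2 (Tx.trans_eq (by rw [← Hx]; ring))
  have main : #W * V ^ 2 ≤ 2 * Ch * N ^ 2 := by
    obtain ⟨v, v1, h1⟩ := hm N a T V W N1' V0 lw
    have tv : ∀ t s E, s < t → 1 + (t - s) ≤ E → ‖v t * conj (v s) * Gm N (t - s)‖ ≤ x * E / √N :=
      fun t s E h hE => by
        rw [norm_mul, norm_mul, norm_conj]
        refine (mul_le_of_le_one_left (norm_nonneg _) (mul_le_one₀ (v1 t) (norm_nonneg _)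
          (v1 s))).trans ((triv N _ N1 (by linarith)).trans ?_)
        gcongr ?_ / _
        exact mul_le_mul xt hE (by linarith) x0.le
    have W2 : (#W : ℝ) ^ 2 ≤ x ^ 8 * N := by
      refine (pow_le_pow_left₀ (Nat.cast_nonneg _) hW 2).trans_eq ?_
      rw [mul_pow, rr]; ring
    refine (r3_num x8 r0 ch xh (Nat.cast_nonneg _) (by simpa only [rr] using h1) ?_ ?_).trans_eq
      (by rw [rr])
    · refine (norm_sum_le_of_le _ fun t ht => norm_sum_le_of_le (n := fun _ => x * (2 * (N * x)) / √N)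
        _ fun s hs => tv t s _ (mem_filter.1 hs).2 (by
          linarith [(lw.2.2 t ht).2.1, (lw.2.2 s (mem_filter.1 hs).1).1])).trans ?_
      refine (sum_le_card_nsmul _ _ (#W * (x * (2 * (N * x)) / √N)) fun t _ => by
        rw [sum_const, nsmul_eq_mul]; gcongr; exact filter_subset _ _).trans_eq ?_
      rw [nsmul_eq_mul]
      nth_rw 1 [← rr]
      field_simp
    · have far := r3_far (g := fun t s => v t * conj (v s) * Gm N (t - s)) (W := W)
        (A := x * (T * (H / x ^ 50)) / √N) (D := x * H / √N) H0 (by positivity) (by positivity)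
        (HN.trans NT) (fun t ht => ⟨(lw.2.2 t ht).1, (lw.2.2 t ht).2.1⟩)
        fun W1 s1 W2 s2 τ t1 t2 h => by
          have c : ∀ {A : Finset ℝ}, A ⊆ W → (#A : ℝ) ≤ H ^ k * √H := fun s => by
            refine (Nat.cast_le.2 (card_le_card s)).trans (hW.trans ?_)
            rw [rH, ← mul_assoc, ← pow_add]
            gcongr
            exact (xp (by norm_num)).trans Hk
          have f : 6 * x ^ 5 ≤ H ^ k := le_trans (by rw [pow_succ' x 5]; gcongr; linarith)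
            ((xp (by norm_num : 5 + 1 ≤ 50)).trans Hk)
          refine (bil W1 W2 v (fun s => conj (v s)) N τ H (H / x ^ 50) N1 (by linarith) HN
            (by linarith) v1 (fun s => by simpa using v1 s) h fun γ hγ => (core H HT W1 W2 γ hγ
              (lw.2.1.mono s1) (lw.2.1.mono s2) (fun t ht s hs => ⟨by
                linarith [(abs_le.1 (h t ht s hs)).1], ?_⟩) (c s1) (c s2) (fr.mono s1 f le_rfl)
              (fr.mono s2 f le_rfl)).trans (by gcongr)).trans ?_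
          · have := (div_le_iff₀ H0).1 (TH.trans ((xp (by norm_num)).trans Hk))
            linarith [(lw.2.2 t (s1 ht)).2.1, (lw.2.2 s (s2 hs)).1]
          · have : 0 ≤ τ := by linarith
            calc _ ≤ x * (T * (H / x ^ 50) + H * (#W1 * #W2)) / √N := by gcongr
              _ = _ := by ring
      have near := r3_split (W := W) (g := fun t s => v t * conj (v s) * Gm N (t - s))
        (E := x * (3 * H) / √N) H0 (by positivity) fun t s h h' => tv t s _ h (by linarith)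
      refine (mul_le_mul_of_nonneg_right (near.trans (add_le_add le_rfl far)) (by positivity)).trans ?_
      calc _ ≤ (x * (3 * H) / √N * (x ^ 8 * N) + (4 * (x ^ 15) ^ 2 * (x * (N * x * (H / x ^ 50)) / √N)
            + x * H / √N * (x ^ 8 * N))) * x ^ 5 := by gcongr
        _ = (4 * (H * x ^ 14) + 4 * (H / x ^ 13)) * N / √N := by field_simp; ring
        _ ≤ (4 * N + 4 * N) * N / √N := by
            gcongr
            · exact Hx.le
            · exact (div_le_self H0.le (one_le_pow₀ x1)).trans HN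
        _ = _ := by
            rw [div_eq_iff r0.ne', show 8 * √(N : ℝ) ^ 3 * √N = 8 * (√N ^ 2) ^ 2 by ring, rr]; ring
  have cov : (#S : ℝ) ≤ #W + ∑ i ∈ J, (#(Hv i) : ℝ) := by
    norm_cast
    refine le_trans (card_le_card fun t ht => ?_) ((card_union_le _ _).trans
      (add_le_add le_rfl card_biUnion_le))
    by_cases c : ∀ i ∈ J, t ∉ Hv i
    · exact mem_union_left _ (mem_filter.2 ⟨ht, c⟩)
    · push Not at c
      exact mem_union_right _ (mem_biUnion.2 c)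
  have cJ : (#J : ℝ) ≤ 3 * (1 + Real.log T) := by
    have a : (#J : ℝ) ≤ (Nat.log 2 N + 1 : ℕ) := Nat.cast_le.2 ((card_filter_le _ _).trans (by simp))
    have b : ((2 ^ Nat.log 2 N : ℕ) : ℝ) ≤ N := Nat.cast_le.2 (Nat.pow_log_le_self 2 (by omega))
    push_cast at a b
    have c := Real.log_le_log (by positivity) (b.trans NT)
    rw [Real.log_pow] at c
    linarith [mul_le_mul_of_nonneg_left Real.log_two_gt_d9.le
      (Nat.cast_nonneg (Nat.log 2 N) : (0 : ℝ) ≤ _), (Nat.cast_nonneg (Nat.log 2 N) : (0 : ℝ) ≤ _)]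
  calc _ ≤ (#W + ∑ i ∈ J, (#(Hv i) : ℝ)) * V ^ 2 := by gcongr
    _ ≤ 2 * Ch * N ^ 2 + #J * (Cc * (1 + Real.log T) * (2 * N ^ 2)) := by
        rw [add_mul, sum_mul, ← nsmul_eq_mul #J]
        exact add_le_add main (sum_le_card_nsmul _ _ _ hv)
    _ ≤ 2 * Ch * N ^ 2 * (1 + Real.log T) ^ 2 +
          3 * (1 + Real.log T) * (Cc * (1 + Real.log T) * (2 * N ^ 2)) := by
        exact add_le_add (le_mul_of_one_le_right (by positivity) (one_le_pow₀ l1))
          (mul_le_mul_of_nonneg_right cJ (by positivity))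
    _ = _ := by ring

end Pool.Agent.Lib.MP_a93a41_nt.TH
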