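import Pool.Agent.Lib.MP_a93a41_nt.TH0

namespace Pool.Agent.Lib.MP_a93a41_nt.TH

open Finset Complex
open scoped Real ComplexConjugate

lemma s3_win {W Y : Finset ℝ} {T K w : ℝ} (hY : Y.Nonempty) (hR : Rg W Y T K) (w0 : 0 ≤ w)
    (w1 : w ≤ T / 2) : ∃ lo hi : ℝ, lo ≤ hi ∧ (∀ y ∈ Y, lo ≤ y ∧ y + w ≤ hi) ∧
      (∀ t ∈ W, T / 2 ≤ t - hi ∧ t - lo ≤ 2 * K * (T / 2)) ∧ lo ∈ Y ∧ hi - w ∈ Y := by
  refine ⟨Y.min' hY, Y.max' hY + w, ?_, fun y hy => ⟨min'_le _ _ hy, ?_⟩, fun t ht => ⟨?_, ?_⟩,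
    min'_mem _ _, by simpa using max'_mem _ hY⟩
  · linarith [min'_le_max' Y hY]
  · linarith [le_max' _ _ hy]
  · linarith [(hR t ht _ (max'_mem _ hY)).1]
  · linarith [(hR t ht _ (min'_mem _ hY)).2]

lemma s3_pow {K : ℝ} (hK : 2 ≤ K) (c : ℝ) (a b : ℕ) (h : c ≤ 2 ^ b) : c * K ^ a ≤ K ^ (a + b) := by
  rw [pow_add, mul_comm]
  exact mul_le_mul_of_nonneg_left (h.trans (pow_le_pow_left₀ zero_le_two hK b)) (by positivity)

theorem s3 (lv : LvSt) (lip : LipSt) (sq : SqSt) : S3St := by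
  intro W Y α T K L ν hK hL hLT hlog hα hY hR hW hI hS x
  have n0 := hI.nonneg
  have T1 : 1 ≤ T := hL.trans hLT
  have K0 : 0 < K := by linarith
  set Y' := Y.filter fun t => x ≤ t ∧ t ≤ x + T / L with hY'
  have sub : Y' ⊆ Y := filter_subset _ _
  show (#Y' : ℝ) ≤ _
  rcases Y'.eq_empty_or_nonempty with e | ne
  · rw [e, card_empty, Nat.cast_zero]; positivity
  have K3 : 8 ≤ K ^ 3 := by simpa using s3_pow hK 8 0 3 (by norm_num)
  have w1 : 1 / (4 * K ^ 3) ≤ 1 / 2 := one_div_le_one_div_of_le two_pos (by linarith)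
  obtain ⟨lo, hi, h1, h2, h3, h4, h5⟩ := s3_win (w := 1 / (4 * K ^ 3)) ne
    (fun t ht s hs => hR t ht s (sub hs)) (by positivity) (by linarith)
  have sT : 0 < √T := by positivity
  have a := lv (fun s => ‖SW W α s‖) Y' lo hi (2 * K ^ 2 * √T) (1 / (4 * K ^ 3)) (√T / K) 2 h1
    (by positivity) (by positivity) (le_of_eq (by field_simp; ring)) (fun u hu v hv => ?_)
    (fun y hy => ⟨(h2 y hy).1, (h2 y hy).2, hS y (sub hy)⟩) (hY.ib.mono sub (by linarith) le_rfl)
  · have m4 := (mem_filter.1 h4).2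
    have m5 := (mem_filter.1 h5).2
    have K6 : 1 ≤ (2 * K) ^ 6 := one_le_pow₀ (by linarith)
    have b := sq W α lo hi (T / 2) (2 * K) L ν h1 (by linarith) (by linarith) hα (by linarith)
      (by nlinarith) ?_ h3 hI
    · have lg : 1 + Real.log (2 * K * (T / 2) / L) ≤ K := by
        refine le_trans (add_le_add_right (Real.log_le_log (by positivity) ?_) 1) hlog
        rw [div_le_iff₀ (by linarith)]
        nlinarith [mul_pos K0 (show 0 < T by linarith)]
      have lg0 : 0 ≤ 1 + Real.log (2 * K * (T / 2) / L) := by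
        refine add_nonneg zero_le_one (Real.log_nonneg ?_)
        rw [le_div_iff₀ (by linarith)]
        nlinarith
      have c : (#W : ℝ) * (20 * ν * (2 * K) ^ 6 * (T / 2 / L) * (1 + Real.log (2 * K * (T / 2) / L)))
          ≤ K * √T * (20 * ν * (2 * K) ^ 6 * (T / 2 / L) * K) := by gcongr
      have d := a.trans (mul_le_mul_of_nonneg_left (b.trans c) zero_le_two)
      rw [div_pow, Real.sq_sqrt (by linarith)] at d
      have e : (#Y' : ℝ) ≤ 20480 * K ^ 13 * (ν * √T / L) := by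
        refine le_of_mul_le_mul_right (a := T / (16 * K ^ 5)) ?_ (by positivity)
        convert d using 1 <;> field_simp <;> ring
      refine e.trans ?_
      rw [mul_assoc (K ^ 30), mul_div_assoc (K ^ 30)]
      exact mul_le_mul_of_nonneg_right (s3_pow hK _ 13 17 (by norm_num)) (by positivity)
    · have : (hi - lo) * L ≤ (T / L + 1 / 2) * L := by gcongr; linarith [m4.1, m5.2]
      rw [add_mul, div_mul_cancel₀ _ (by linarith)] at this
      nlinarith
  · refine (lip W α (T / 2) (K * T) u v (by linarith) hα (fun t ht s hs => ?_) fun t ht => ?_).trans ?_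
    · have p := hR t ht _ (sub h4)
      have q := hR s hs _ (sub h4)
      rw [abs_le]; constructor <;> linarith [p.1, p.2, q.1, q.2]
    · constructor <;> linarith [(h3 t ht).1, hu.2, hv.2]
    · refine mul_le_mul_of_nonneg_right ?_ (abs_nonneg _)
      refine (mul_le_mul_of_nonneg_right hW (by positivity)).trans (le_of_eq ?_)
      field_simp

lemma s4_cs {W : Finset ℝ} {L n : ℝ} (hU : Un W L n) (x : ℝ → ℝ) :
    n * (∑ a ∈ W, x a) ^ 2 ≤ #W * ∑ a ∈ W, ∑ b ∈ cell W L a, x a * x b := by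
  have e1 := cell_avg W L x
  have e2 := cell_avg W L fun a => ∑ b ∈ cell W L a, x a * x b
  simp only [smul_eq_mul] at e1 e2
  rw [← e1, ← e2]
  rcases le_total n 0 with n0 | n0
  · refine (mul_nonpos_of_nonpos_of_nonneg n0 (sq_nonneg _)).trans (mul_nonneg (by positivity)
      (sum_nonneg fun a _ => mul_nonneg (by positivity) ?_))
    rw [sum_congr rfl fun t ht => by rw [cell_eq ht], ← sum_mul_sum]
    exact mul_self_nonneg _
  refine (mul_le_mul_of_nonneg_left sq_sum_le_card_mul_sum_sq n0).trans ?_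
  rw [mul_left_comm, mul_sum]
  refine mul_le_mul_of_nonneg_left (sum_le_sum fun a ha => ?_) (by positivity)
  rw [sum_congr rfl (s₁ := cell W L a) (f := fun t => ∑ b ∈ cell W L t, x t * x b)
    fun t ht => by rw [cell_eq ht], ← sum_mul_sum]
  have p : (0 : ℝ) < #(cell W L a) := by exact_mod_cast card_pos.2 ⟨a, mem_cell L ha⟩
  have q : n * (#(cell W L a) : ℝ)⁻¹ ≤ 1 := by
    rw [← div_eq_mul_inv, div_le_one p]; exact (hU a ha).1
  calc _ = (n * (#(cell W L a) : ℝ)⁻¹) * ((#(cell W L a) : ℝ)⁻¹ *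
        ((∑ t ∈ cell W L a, x t) * ∑ t ∈ cell W L a, x t)) := by ring
    _ ≤ _ := mul_le_of_le_one_left (mul_nonneg (by positivity) (mul_self_nonneg _)) q

/-- selection of a far pair of cells and of many points where both are large -/
lemma s4_sel {W Y : Finset ℝ} {L L' n R K B : ℝ} (x : ℝ → ℝ → ℝ) (hK : 2 ≤ K) (hB : K ^ 100 ≤ B)
    (hR : 0 < R) (hn : 0 < n) (hY : Y.Nonempty) (hU : Un W L n) (hW : #W ≤ K * R)
    (hI : Ib W L' (4 * n / B)) (x0 : ∀ a s, 0 ≤ x a s) (x1 : ∀ a s, x a s ≤ 1)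
    (hS : ∀ s ∈ Y, R / K ≤ ∑ a ∈ W, x a s) :
    ∃ a ∈ W, ∃ b ∈ cell W L a, 3 * L' < |b - a| ∧ ∃ Y' ⊆ Y, (#Y : ℝ) ≤ 8 * K ^ 4 * #Y' ∧
      ∀ s ∈ Y', 1 / (8 * K ^ 4) ≤ x a s * x b s := by
  have K0 : 0 < K := by linarith
  have B0 : 0 < B := lt_of_lt_of_le (by positivity) hB
  have Y0 : (0 : ℝ) < #Y := by exact_mod_cast card_pos.2 hY
  have xx : ∀ a b s, x a s * x b s ≤ 1 := fun a b s => mul_le_one₀ (x1 a s) (x0 b s) (x1 b s)
  set G : ℝ → Finset ℝ := fun a => (cell W L a).filter fun b => 3 * L' < |b - a| with hG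
  have f1 : ∀ s ∈ Y, 3 * (n * R / (4 * K ^ 3)) ≤ ∑ a ∈ W, ∑ b ∈ G a, x a s * x b s := fun s hs => by
    have a1 := s4_cs hU fun a => x a s
    have a0 : 0 ≤ ∑ a ∈ W, ∑ b ∈ cell W L a, x a s * x b s :=
      sum_nonneg fun a _ => sum_nonneg fun b _ => mul_nonneg (x0 a s) (x0 b s)
    have a2 : n * (R / K) ^ 2 ≤ K * R * ∑ a ∈ W, ∑ b ∈ cell W L a, x a s * x b s :=
      le_trans (by gcongr; exact hS s hs) (a1.trans (by gcongr))
    have a3 : n * R / K ^ 3 ≤ ∑ a ∈ W, ∑ b ∈ cell W L a, x a s * x b s := by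
      refine le_of_mul_le_mul_left (le_trans (le_of_eq ?_) a2) (mul_pos K0 hR)
      field_simp
    have a4 : ∀ a ∈ W, ∑ b ∈ cell W L a, x a s * x b s ≤ ∑ b ∈ G a, x a s * x b s + 24 * n / B :=
      fun a _ => by
        rw [← sum_filter_add_sum_filter_not _ fun b => 3 * L' < |b - a|]
        refine add_le_add_right ((sum_le_card_nsmul _ _ 1 fun b _ => xx a b s).trans ?_) _
        rw [nsmul_eq_mul, mul_one]
        have := hI.mul (q := 6) (by norm_num)
        rw [show ((6 : ℕ) : ℝ) * L' = 2 * (3 * L') by push_cast; ring,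
          show ((6 : ℕ) : ℝ) * (4 * n / B) = 24 * n / B by push_cast; ring] at this
        exact this.near (c := a) ((filter_subset _ _).trans (cell_sub _ _ _))
          fun b hb => not_lt.1 (mem_filter.1 hb).2
    have a5 := a3.trans (sum_le_sum a4)
    rw [sum_add_distrib, sum_const, nsmul_eq_mul] at a5
    have a6 : (#W : ℝ) * (24 * n / B) ≤ n * R / (4 * K ^ 3) := by
      have := (s3_pow hK 96 4 96 (by norm_num)).trans hB
      calc _ ≤ K * R * (24 * n / (96 * K ^ 4)) := by gcongr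
        _ = _ := by field_simp; ring
    have : n * R / K ^ 3 = 4 * (n * R / (4 * K ^ 3)) := by field_simp
    linarith
  by_contra c
  push Not at c
  have f2 : ∀ a ∈ W, ∀ b ∈ G a, ∑ s ∈ Y, x a s * x b s ≤ #Y / (4 * K ^ 4) := fun a ha b hb => by
    obtain ⟨b1, b2⟩ := mem_filter.1 hb
    have h : 8 * K ^ 4 * (#(Y.filter fun s => 1 / (8 * K ^ 4) ≤ x a s * x b s) : ℝ) < #Y := by
      by_contra d
      obtain ⟨s, s1, s2⟩ := c a ha b b1 b2 _ (filter_subset _ Y) (not_lt.1 d)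
      exact absurd (mem_filter.1 s1).2 (not_le.2 s2)
    rw [← sum_filter_add_sum_filter_not _ fun s => 1 / (8 * K ^ 4) ≤ x a s * x b s]
    have u1 := sum_le_card_nsmul (Y.filter fun s => 1 / (8 * K ^ 4) ≤ x a s * x b s) _ 1
      fun s _ => xx a b s
    have u2 := sum_le_card_nsmul (Y.filter fun s => ¬ 1 / (8 * K ^ 4) ≤ x a s * x b s) _
      (1 / (8 * K ^ 4)) fun s hs => (not_le.1 (mem_filter.1 hs).2).le
    rw [nsmul_eq_mul] at u1 u2
    have u3 : (#(Y.filter fun s => ¬ 1 / (8 * K ^ 4) ≤ x a s * x b s) : ℝ) * (1 / (8 * K ^ 4)) ≤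
        #Y * (1 / (8 * K ^ 4)) := by gcongr; exact filter_subset _ _
    rw [← lt_div_iff₀' (by positivity)] at h
    have : (#Y : ℝ) / (4 * K ^ 4) = #Y / (8 * K ^ 4) + #Y * (1 / (8 * K ^ 4)) := by
      field_simp; ring
    linarith
  have f3 := card_nsmul_le_sum _ _ _ f1
  rw [nsmul_eq_mul, sum_comm] at f3
  have f4 : ∀ a ∈ W, ∑ s ∈ Y, ∑ b ∈ G a, x a s * x b s ≤ 2 * n * (#Y / (4 * K ^ 4)) := fun a ha => by
    rw [sum_comm]
    refine (sum_le_card_nsmul _ _ _ (f2 a ha)).trans ?_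
    rw [nsmul_eq_mul]
    exact mul_le_mul_of_nonneg_right (le_trans (Nat.cast_le.2 (card_filter_le _ _)) (hU a ha).2)
      (by positivity)
  have f5 := f3.trans (sum_le_card_nsmul _ _ _ f4)
  rw [nsmul_eq_mul] at f5
  have f6 := f5.trans (mul_le_mul_of_nonneg_right hW (by positivity))
  have f7 : K * R * (2 * n * (#Y / (4 * K ^ 4))) = #Y * (2 * (n * R / (4 * K ^ 3))) := by field_simp
  have f8 : 0 < n * R / (4 * K ^ 3) := by positivity
  rw [f7] at f6
  linarith [le_of_mul_le_mul_left f6 Y0]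

lemma s4_sq (A : Finset ℝ) (α : ℝ → ℂ) (s : ℝ) : ((‖SW A α s‖ ^ 2 : ℝ) : ℂ) =
    ∑ t ∈ A, ∑ u ∈ A, α t * conj (α u) * (kk (t - s) * conj (kk (u - s))) := by
  rw [ofReal_pow, ← mul_conj', SW, map_sum, sum_mul_sum]
  exact sum_congr rfl fun t _ => sum_congr rfl fun u _ => by rw [map_mul]; ring

lemma s4_c {α : ℝ → ℂ} (h : U1 α) (t u : ℝ) : ‖α t * conj (α u)‖ ≤ 1 := by
  rw [norm_mul, norm_conj]; exact mul_le_one₀ (h t) (norm_nonneg _) (h u)

lemma s4_k4 (t1 t2 t3 t4 : ℝ) : Continuous (k4 t1 t2 t3 t4) := by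
  have := cont_kk
  unfold k4; fun_prop

/-- splitting of the fourth moment into near and far pairs -/
lemma s4_int {I J : Finset ℝ} {α : ℝ → ℂ} (hα : U1 α) {L N0 M lo hi : ℝ} (h : lo ≤ hi)
    (hN : ∀ t ∈ I, (#(I.filter fun u => ¬ L < |u - t|) : ℝ) ≤ N0) (M0 : 0 ≤ M)
    (hM : ∀ t ∈ I, ∀ u ∈ I, L < |u - t| → ∀ v ∈ J, ∑ z ∈ J, ‖∫ s in lo..hi, k4 t u v z s‖ ≤ M) :
    ∫ s in lo..hi, (‖SW I α s‖ * ‖SW J α s‖) ^ 2 ≤
      #I * N0 * (∫ s in lo..hi, ‖SW J α s‖ ^ 2) + #I * (#I * (#J * M)) := by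
  set Φ : ℝ → ℂ := fun s => ∑ t ∈ I, ∑ u ∈ I.filter (fun u => L < |u - t|), ∑ v ∈ J, ∑ z ∈ J,
    α t * conj (α u) * (α v * conj (α z)) * k4 t u v z s with hΦ
  have ck := s4_k4
  have cΦ : Continuous Φ := by fun_prop
  have cI := cont_SW I α
  have cJ := cont_SW J α
  have p : ∀ s, (‖SW I α s‖ * ‖SW J α s‖) ^ 2 ≤ #I * N0 * ‖SW J α s‖ ^ 2 + (Φ s).re := fun s => by
    set ψ : ℝ → ℝ → ℂ := fun t u => α t * conj (α u) * (kk (t - s) * conj (kk (u - s)))
    have e1 : Φ s = (∑ t ∈ I, ∑ u ∈ I.filter (fun u => L < |u - t|), ψ t u) *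
        ((‖SW J α s‖ ^ 2 : ℝ) : ℂ) := by
      rw [s4_sq J, sum_mul]
      refine sum_congr rfl fun _ _ => ?_
      rw [sum_mul]
      refine sum_congr rfl fun _ _ => ?_
      simp only [mul_sum, k4, ψ]
      exact sum_congr rfl fun _ _ => sum_congr rfl fun _ _ => by ring
    have e2 : ‖SW I α s‖ ^ 2 = (∑ t ∈ I, ∑ u ∈ I.filter (fun u => L < |u - t|), ψ t u).re +
        (∑ t ∈ I, ∑ u ∈ I.filter (fun u => ¬ L < |u - t|), ψ t u).re := by
      rw [← add_re, ← sum_add_distrib, ← ofReal_re (‖SW I α s‖ ^ 2), s4_sq]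
      simp only [sum_filter_add_sum_filter_not, ψ]
    have e3 : (∑ t ∈ I, ∑ u ∈ I.filter (fun u => ¬ L < |u - t|), ψ t u).re ≤ #I * N0 := by
      refine (re_le_norm _).trans ((norm_sum_le _ _).trans ?_)
      rw [← nsmul_eq_mul]
      refine sum_le_card_nsmul _ _ _ fun t ht => (norm_sum_le _ _).trans
        ((sum_le_card_nsmul _ _ 1 fun u _ => ?_).trans (by simpa using hN t ht))
      simpa [ψ] using s4_c hα t u
    rw [e1, re_mul_ofReal, mul_pow, e2]
    nlinarith [sq_nonneg ‖SW J α s‖]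
  refine (intervalIntegral.integral_mono_on h (Continuous.intervalIntegrable (by fun_prop) _ _)
    (Continuous.intervalIntegrable (by fun_prop) _ _) fun s _ => p s).trans ?_
  rw [intervalIntegral.integral_add (Continuous.intervalIntegrable (by fun_prop) _ _)
    (Continuous.intervalIntegrable (by fun_prop) _ _), intervalIntegral.integral_const_mul]
  refine add_le_add_right ?_ _
  have r : ∫ s in lo..hi, (Φ s).re = (∫ s in lo..hi, Φ s).re :=
    reCLM.intervalIntegral_comp_comm (cΦ.intervalIntegrable _ _)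
  rw [r]
  refine (re_le_norm _).trans ?_
  rw [hΦ, intervalIntegral.integral_finsetSum fun _ _ => Continuous.intervalIntegrable (by fun_prop) _ _,
    ← nsmul_eq_mul]
  refine (norm_sum_le _ _).trans (sum_le_card_nsmul _ _ _ fun t ht => ?_)
  rw [intervalIntegral.integral_finsetSum fun _ _ => Continuous.intervalIntegrable (by fun_prop) _ _]
  refine (norm_sum_le _ _).trans ((sum_le_card_nsmul _ _ (#J * M) fun u hu => ?_).trans ?_)
  · rw [intervalIntegral.integral_finsetSum fun _ _ => Continuous.intervalIntegrable (by fun_prop) _ _,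
      ← nsmul_eq_mul]
    refine (norm_sum_le _ _).trans (sum_le_card_nsmul _ _ _ fun v hv => ?_)
    rw [intervalIntegral.integral_finsetSum fun _ _ => Continuous.intervalIntegrable (by fun_prop) _ _]
    refine (norm_sum_le _ _).trans ((sum_le_sum fun z _ => ?_).trans
      (hM t ht u (mem_filter.1 hu).1 (mem_filter.1 hu).2 v hv))
    rw [intervalIntegral.integral_const_mul, norm_mul, norm_mul]
    exact mul_le_of_le_one_left (norm_nonneg _) (mul_le_one₀ (s4_c hα _ _) (norm_nonneg _) (s4_c hα _ _))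
  · rw [nsmul_eq_mul]
    gcongr
    exact filter_subset _ _

theorem s4 (hs : HsSt) (lv : LvSt) (lip : LipSt) (sq : SqSt) (far : FarSt) (s3 : S3St) : S4St := by
  intro W Y α T K B D L0 L1' L1 L2' L2 ν n1 n2 q hK hB hlog hα sW sY hR hW hY hS l0 l1 l2 l3 l4 l5
    hD hq hfar hG U1' U2 I1 I2 I0
  have K0 : 0 < K := by linarith
  have T1 : 1 ≤ T := by linarith
  have sT : 0 < √T := by positivity
  have B0 : 0 < B := lt_of_lt_of_le (by positivity) hB
  have sD : 1 ≤ √D := Real.one_le_sqrt.2 hD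
  have ν0 := I0.nonneg
  have Yn : Y.Nonempty := card_pos.1 (by exact_mod_cast (div_pos sT K0).trans_le hY)
  have Wn : W.Nonempty := by
    obtain ⟨s, hs⟩ := Yn
    exact card_pos.1 (by exact_mod_cast ((div_pos sT K0).trans_le (hS s hs)).trans_le (norm_SW W hα s))
  have cp : ∀ L, ∀ a ∈ W, (0 : ℝ) < #(cell W L a) := fun L a ha => by
    exact_mod_cast card_pos.2 ⟨a, mem_cell L ha⟩
  have n10 : 0 < n1 := by obtain ⟨a, ha⟩ := Wn; linarith [cp L1 a ha, (U1' a ha).2]
  have n20 : 0 < n2 := by obtain ⟨a, ha⟩ := Wn; linarith [cp L2 a ha, (U2 a ha).2]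
  have q1 : 1 ≤ q := by
    rcases Nat.eq_zero_or_pos q with rfl | h
    · simp only [Nat.cast_zero, zero_mul] at hq; linarith
    · exact h
  obtain ⟨a, ha, b, hb, hab, Y', sub, cY, hx⟩ := s4_sel (W := W) (Y := Y)
    (fun a s => (#(cell W L1 a) : ℝ)⁻¹ * ‖SW (cell W L1 a) α s‖) hK hB sT n20 Yn U2 hW I2
    (fun _ _ => by positivity)
    (fun a s => inv_mul_le_one_of_le₀ (norm_SW _ hα s) (by positivity)) fun s hs' => by
      refine (hS s hs').trans ?_
      rw [SW, ← cell_avg W L1]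
      refine (norm_sum_le _ _).trans (le_of_eq (sum_congr rfl fun a _ => ?_))
      rw [norm_smul, norm_inv, Real.norm_natCast, SW]
  have hb' := cell_sub _ _ _ hb
  have nab := cell_near (by linarith) hb
  set I := cell W L1 a with hI
  set J := cell W L1 b with hJ
  have sI : I ⊆ W := cell_sub _ _ _
  have sJ : J ⊆ W := cell_sub _ _ _
  have m0 : (0 : ℝ) < #I := cp L1 a ha
  have m1 : (0 : ℝ) < #J := cp L1 b hb'
  have m2 : n1 ≤ #I := (U1' a ha).1
  have m3 : n1 ≤ #J := (U1' b hb').1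
  have L10 : 0 < L1 := by linarith
  have dI : ∀ c, ∀ t ∈ cell W L1 c, ∀ u ∈ cell W L1 c, |t - u| ≤ L1 := fun c t ht u hu =>
    cell_near L10 (by rwa [cell_eq hu])
  have c1 : √T / (8 * K ^ 5) ≤ #Y' := by
    rw [div_le_iff₀ (by positivity)]
    rw [div_le_iff₀ K0] at hY
    refine hY.trans ((mul_le_mul_of_nonneg_right cY K0.le).trans (le_of_eq (by ring)))
  have Yn' : Y'.Nonempty := card_pos.1 (by
    exact_mod_cast (show 0 < √T / (8 * K ^ 5) by positivity).trans_le c1)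
  have K4 : 1 ≤ K ^ 4 := one_le_pow₀ (by linarith)
  have w1 : T / (64 * K ^ 4 * L1) ≤ T / L1 := by gcongr; nlinarith
  have w2 : T / (64 * K ^ 4 * L1) ≤ T / 2 := by gcongr; nlinarith
  obtain ⟨lo, hi, h1, h2, h3, -, -⟩ := s3_win (w := T / (64 * K ^ 4 * L1)) Yn'
    (fun t ht s hs => hR t ht s (sub hs)) (by positivity) w2
  have lp : ∀ c, ∀ u ∈ Set.Icc lo hi, ∀ v ∈ Set.Icc lo hi,
      |‖SW (cell W L1 c) α u‖ - ‖SW (cell W L1 c) α v‖| ≤ #(cell W L1 c) * (L1 / (T / 2)) * |u - v| :=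
    fun c u hu v hv => lip _ α (T / 2) L1 u v (by linarith) hα (dI c) fun t ht => by
      constructor <;> linarith [(h3 t (cell_sub _ _ _ ht)).1, hu.2, hv.2]
  have A := lv (fun s => ‖SW I α s‖ * ‖SW J α s‖) Y' lo hi (4 * #I * #J * L1 / T)
    (T / (64 * K ^ 4 * L1)) (#I * #J / (8 * K ^ 4)) (K ^ 30 * (4 * n1) * √T / L1) h1 (by positivity)
    (by positivity) (le_of_eq (by field_simp; ring)) (fun u hu v hv => by
      have e : ‖SW I α u‖ * ‖SW J α u‖ - ‖SW I α v‖ * ‖SW J α v‖ =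
          (‖SW I α u‖ - ‖SW I α v‖) * ‖SW J α u‖ + ‖SW I α v‖ * (‖SW J α u‖ - ‖SW J α v‖) := by ring
      rw [e]
      refine (abs_add_le _ _).trans ?_
      rw [abs_mul, abs_mul, abs_norm, abs_norm]
      calc _ ≤ #I * (L1 / (T / 2)) * |u - v| * #J + #I * (#J * (L1 / (T / 2)) * |u - v|) := by
            gcongr
            exacts [lp a u hu v hv, norm_SW _ hα _, norm_SW _ hα _, lp b u hu v hv]
        _ = _ := by field_simp; ring)
    (fun y hy => ⟨(h2 y hy).1, (h2 y hy).2, by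
      have := mul_le_mul_of_nonneg_left (hx y hy) (mul_pos m0 m1).le
      rw [mul_one_div] at this
      refine this.trans (le_of_eq ?_)
      field_simp⟩)
    ((s3 W Y α T K L1 (4 * n1) hK (by linarith) (by linarith) hlog hα sY hR hW (U1'.ib L10 n10.le)
      hS).mono sub w1 le_rfl)
  have A2 : T * #I ^ 2 * #J / (2 ^ 19 * K ^ 47) ≤ ∫ s in lo..hi, (‖SW I α s‖ * ‖SW J α s‖) ^ 2 := by
    refine le_of_mul_le_mul_left (le_trans ?_ A) (by positivity)
    calc _ ≤ K ^ 30 * (4 * #J) * √T / L1 * (T * #I ^ 2 * #J / (2 ^ 19 * K ^ 47)) := by gcongr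
      _ = √T / (8 * K ^ 5) * (T / (64 * K ^ 4 * L1)) * (#I * #J / (8 * K ^ 4)) ^ 2 / 4 := by
        field_simp; ring
      _ ≤ _ := by gcongr
  have lg : ∀ x, 1 ≤ x → x ≤ 4 * K * T → 0 ≤ 1 + Real.log x ∧ 1 + Real.log x ≤ K := fun x x1 x2 =>
    ⟨add_nonneg zero_le_one (Real.log_nonneg x1),
      (add_le_add_right (Real.log_le_log (by linarith) x2) 1).trans hlog⟩
  have KT : 2 ≤ K * T := by nlinarith
  have K5 : 1 ≤ (2 * K) ^ 5 := one_le_pow₀ (by linarith)
  have A3 : ∫ s in lo..hi, ‖SW J α s‖ ^ 2 ≤ 1280 * K ^ 7 * T * #J := by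
    refine (sq J α lo hi (T / 2) (2 * K) 1 2 h1 (by linarith) (by linarith) hα one_pos (by linarith)
      ?_ (fun t ht => h3 t (sJ ht)) (sW.mono sJ).ib).trans ?_
    · have := h3 b hb'
      have : 2 * K * (T / 2) * 1 ≤ 2 * K * (T / 2) * (2 * K) ^ 5 := by gcongr
      nlinarith
    · have := lg (2 * K * (T / 2) / 1) (by linarith) (by linarith)
      calc _ ≤ #J * (20 * 2 * (2 * K) ^ 6 * (T / 2 / 1) * K) := by gcongr; exact this.2
        _ = _ := by ring
  have G1 : 1 ≤ q * L0 := sD.trans hq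
  have A4 := s4_int (I := I) (J := J) hα (L := L1') (N0 := 8 * #I / B)
    (M := 4 * (q * ν) * (12 * (2 * K) ^ 6 * (T / 2) / √D) * K) h1 (fun t _ => by
      have := I1.add I1
      rw [← two_mul] at this
      refine (this.near (c := t) ((filter_subset _ _).trans sI)
        fun u hu => not_lt.1 (mem_filter.1 hu).2).trans ?_
      rw [← add_div]; gcongr; linarith) (by positivity) fun t ht u hu htu v hv => by
      have d1 := dI a t ht u hu
      have d2 := cell_near L10 hu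
      have d3 := cell_near L10 hv
      have d4 : L2' ≤ |v - u| ∧ |v - u| ≤ 3 * L2 := by
        have := abs_sub_le b v a
        have := abs_sub_le v u a
        have := abs_sub_le v b u
        have := abs_sub_le b a u
        rw [abs_sub_comm b v, abs_sub_comm a u] at *
        constructor <;> linarith
      rw [abs_sub_comm] at htu
      have f := fun z (hz : z ∈ J) => far t u v z lo hi (T / 2) (2 * K) D (q * L0) h1 (by linarith)
        (by linarith) hD hq (fun y hy => h3 y (by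
          rcases hy with rfl | rfl | rfl | rfl
          exacts [sI ht, sI hu, sJ hv, sJ hz]))
        (le_trans (by linarith) (mul_le_mul htu.le d4.1 (by linarith) (abs_nonneg _)))
        (by linarith [mul_le_mul d1 d4.2 (abs_nonneg _) L10.le])
      refine (hs J _ (t - u + v) (q * L0) (q * ν) (2 * T) _ (by linarith) (by linarith)
        (by positivity) ((I0.mul q1).mono sJ le_rfl le_rfl) fun z hz => ⟨?_, f z hz⟩).trans ?_
      · have := dI b z hz v hv
        have := abs_sub (z - v) (t - u)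
        rw [show z - (t - u + v) = z - v - (t - u) by ring]
        nlinarith
      · gcongr
        exact (lg _ (by linarith) (by nlinarith)).2
  have A5 : #I * (8 * #I / B) * (∫ s in lo..hi, ‖SW J α s‖ ^ 2) ≤
      T * #I ^ 2 * #J / (2 ^ 20 * K ^ 47) := by
    have := (s3_pow hK (10240 * 2 ^ 20) 54 46 (by norm_num)).trans hB
    calc _ ≤ #I * (8 * #I / B) * (1280 * K ^ 7 * T * #J) :=
          mul_le_mul_of_nonneg_left A3 (by positivity)
      _ ≤ #I * (8 * #I / (10240 * 2 ^ 20 * K ^ 54)) * (1280 * K ^ 7 * T * #J) := by gcongr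
      _ = _ := by field_simp; ring
  have A6 : T * #I ^ 2 * #J / (2 ^ 20 * K ^ 47) ≤
      #I * (#I * (#J * (4 * (q * ν) * (12 * (2 * K) ^ 6 * (T / 2) / √D) * K))) := by
    have : T * #I ^ 2 * #J / (2 ^ 19 * K ^ 47) = 2 * (T * #I ^ 2 * #J / (2 ^ 20 * K ^ 47)) := by
      field_simp
    linarith
  have A7 : √D ≤ 1536 * 2 ^ 20 * K ^ 54 * (q * ν) := by
    refine le_of_mul_le_mul_right (a := T * #I ^ 2 * #J / (2 ^ 20 * K ^ 47) / √D) ?_ (by positivity)
    refine le_trans (le_of_eq ?_) (A6.trans (le_of_eq ?_))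
    · field_simp
    · field_simp; ring
  refine A7.trans ?_
  rw [mul_assoc (K ^ 100)]
  exact mul_le_mul_of_nonneg_right (s3_pow hK _ 54 46 (by norm_num)) (by positivity)

end Pool.Agent.Lib.MP_a93a41_nt.TH
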