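import Pool.Agent.Lib.MP_a93a41_nt.TH0
import Pool.Agent.Lib.MP_31bf45_nt.Gam

/-! Stirling formula with phase on the line of real part three halves, and the bilinear bound. -/

namespace Pool.Agent.Lib.MP_a93a41_nt.TH

open Finset Complex Filter Topology
open scoped Real ComplexConjugate

noncomputable def stF (τ x : ℝ) : ℝ := x * Real.arctan (τ / x) + τ / 2 * Real.log (x ^ 2 + τ ^ 2)

lemma stir_df (τ : ℝ) {x : ℝ} (hx : 0 < x) :
    HasDerivAt (fun x => Real.arctan (τ / x)) (-(τ / (x ^ 2 + τ ^ 2))) x := by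
  refine (((hasDerivAt_const x τ).fun_div (hasDerivAt_id' x) hx.ne').arctan).congr_deriv ?_
  field_simp
  ring

lemma stir_dF (τ : ℝ) {x : ℝ} (hx : 0 < x) : HasDerivAt (stF τ) (Real.arctan (τ / x)) x := by
  have h : x ^ 2 + τ ^ 2 ≠ 0 := by positivity
  refine (((hasDerivAt_id' x).fun_mul (stir_df τ hx)).fun_add
    ((((hasDerivAt_pow 2 x).add_const (τ ^ 2)).log h).const_mul (τ / 2))).congr_deriv ?_
  field_simp
  norm_num
  ring

lemma stir_mvt {w w' : ℝ → ℝ} {b : ℝ} (hb : 0 < b) (h : ∀ t, 0 ≤ t → t ≤ b → HasDerivAt w (w' t) t)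
    (h0 : w 0 = 0) : ∃ t, 0 < t ∧ t < b ∧ w b = b * w' t := by
  obtain ⟨t, ht, e⟩ := exists_hasDerivAt_eq_slope w w' hb
    (fun t ht => (h t ht.1 ht.2).continuousAt.continuousWithinAt) fun t ht => h t ht.1.le ht.2.le
  refine ⟨t, ht.1, ht.2, ?_⟩
  rw [e, h0, sub_zero, sub_zero]; field_simp

lemma stir_mid {τ x : ℝ} (hτ : 0 < τ) (hx : 1 ≤ x) :
    |stF τ (x + 1 / 2) - stF τ (x - 1 / 2) - Real.arctan (τ / x)| ≤
      τ / ((x - 1 / 2) ^ 2 + τ ^ 2) - τ / ((x + 1 / 2) ^ 2 + τ ^ 2) := by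
  obtain ⟨a, a0, a1, e1⟩ := stir_mvt (b := 1 / 2)
    (w := fun t => stF τ (x + t) - stF τ (x - t) - 2 * t * Real.arctan (τ / x))
    (w' := fun t => Real.arctan (τ / (x + t)) + Real.arctan (τ / (x - t)) - 2 * Real.arctan (τ / x))
    (by norm_num) (fun t h0 h1 => by
      refine ((((stir_dF τ (x := x + t) (by linarith)).comp_const_add x t).fun_sub
        ((stir_dF τ (x := x - t) (by linarith)).comp_const_sub x t)).fun_sub
        (((hasDerivAt_id' t).const_mul 2).mul_const _)).congr_deriv ?_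
      ring) (by simp)
  obtain ⟨b, b0, b1, e2⟩ := stir_mvt a0
    (w := fun t => Real.arctan (τ / (x + t)) + Real.arctan (τ / (x - t)) - 2 * Real.arctan (τ / x))
    (w' := fun t => τ / ((x - t) ^ 2 + τ ^ 2) - τ / ((x + t) ^ 2 + τ ^ 2))
    (fun t h0 h1 => by
      refine ((((stir_df τ (x := x + t) (by linarith)).comp_const_add x t).fun_add
        ((stir_df τ (x := x - t) (by linarith)).comp_const_sub x t)).sub_const _).congr_deriv ?_
      ring) (by simp; ring)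
  have m : ∀ p q : ℝ, 0 ≤ p → p ≤ q → τ / (q ^ 2 + τ ^ 2) ≤ τ / (p ^ 2 + τ ^ 2) := fun p q _ _ => by
    gcongr
  have k1 := m (x - b) (x + b) (by linarith) (by linarith)
  have k2 := m (x - 1 / 2) (x - b) (by linarith) (by linarith)
  have k3 := m (x + b) (x + 1 / 2) (by linarith) (by linarith)
  rw [e2] at e1
  have e3 : stF τ (x + 1 / 2) - stF τ (x - 1 / 2) - Real.arctan (τ / x) =
      1 / 2 * (a * (τ / ((x - b) ^ 2 + τ ^ 2) - τ / ((x + b) ^ 2 + τ ^ 2))) := by linarith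
  rw [e3, abs_of_nonneg (mul_nonneg (by norm_num) (mul_nonneg a0.le (sub_nonneg.2 k1)))]
  nlinarith

lemma stir_sum {τ : ℝ} (hτ : 0 < τ) (n : ℕ) :
    |stF τ (n + 1) - stF τ 1 - ∑ j ∈ range n, Real.arctan (τ / (3 / 2 + j))| ≤
      τ / (1 + τ ^ 2) - τ / ((n + 1) ^ 2 + τ ^ 2) := by
  induction n with
  | zero => simp
  | succ n ih =>
    have h := stir_mid hτ (x := 3 / 2 + n) (by linarith [n.cast_nonneg (α := ℝ)])
    rw [show (3 / 2 + n + 1 / 2 : ℝ) = n + 1 + 1 by ring, show (3 / 2 + n - 1 / 2 : ℝ) = n + 1 by ring]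
      at h
    rw [sum_range_succ]
    push_cast
    rw [abs_le] at *
    constructor <;> linarith [h.1, h.2, ih.1, ih.2]

lemma stir_one {τ : ℝ} (hτ : 1 ≤ τ) : |stF τ 1 - (π / 2 + ph τ)| ≤ 2 / τ := by
  have h0 : 0 < τ := by linarith
  have a1 := Real.arctan_inv_of_pos h0
  have a2 : 0 ≤ Real.arctan τ⁻¹ := Real.arctan_nonneg.2 (by positivity)
  have a3 : Real.arctan τ⁻¹ ≤ τ⁻¹ := by
    have := Real.le_tan a2 (Real.arctan_lt_pi_div_two _)
    rwa [Real.tan_arctan] at this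
  have l1 : Real.log (1 ^ 2 + τ ^ 2) = 2 * Real.log τ + Real.log (1 + τ⁻¹ ^ 2) := by
    rw [show 1 ^ 2 + τ ^ 2 = τ ^ 2 * (1 + τ⁻¹ ^ 2) by field_simp; ring,
      Real.log_mul (by positivity) (by positivity), Real.log_pow]
    norm_num
  have l2 : 0 ≤ Real.log (1 + τ⁻¹ ^ 2) := Real.log_nonneg (by simp; positivity)
  have l3 : Real.log (1 + τ⁻¹ ^ 2) ≤ τ⁻¹ ^ 2 := by
    linarith [Real.log_le_sub_one_of_pos (show 0 < 1 + τ⁻¹ ^ 2 by positivity)]
  have l4 : τ * Real.log (1 + τ⁻¹ ^ 2) ≤ τ⁻¹ :=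
    (mul_le_mul_of_nonneg_left l3 h0.le).trans_eq (by field_simp)
  have l5 := mul_nonneg h0.le l2
  have i0 : 0 < τ⁻¹ := by positivity
  rw [stF, ph, l1, div_one, div_eq_mul_inv 2 τ, abs_le]
  constructor <;> linarith

lemma stir_lim (τ : ℝ) :
    Tendsto (fun n : ℕ => stF τ (n + 1 + 1) - τ * Real.log n - τ) atTop (𝓝 0) := by
  have t0 : Tendsto (fun n : ℕ => (n : ℝ)⁻¹) atTop (𝓝 0) := tendsto_inv_atTop_nhds_zero_nat
  have t1 : Tendsto (fun n : ℕ => ((n : ℝ) + 1 + 1)⁻¹) atTop (𝓝[≠] 0) :=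
    tendsto_nhdsWithin_iff.2 ⟨tendsto_inv_atTop_zero.comp (tendsto_atTop_add_const_right _ _
      (tendsto_atTop_add_const_right _ _ tendsto_natCast_atTop_atTop)),
      Eventually.of_forall fun n => by
        simp only [Set.mem_compl_iff, Set.mem_singleton_iff]; positivity⟩
  have d : HasDerivAt (fun y => Real.arctan (τ * y)) τ 0 := by
    simpa using ((hasDerivAt_id' (0 : ℝ)).const_mul τ).arctan
  have t2 := d.tendsto_slope_zero.comp t1
  have t3 : Tendsto (fun n : ℕ => Real.log ((1 + 2 * (n : ℝ)⁻¹) ^ 2 + (τ * (n : ℝ)⁻¹) ^ 2)) atTop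
      (𝓝 (Real.log ((1 + 2 * 0) ^ 2 + (τ * 0) ^ 2))) :=
    ((((t0.const_mul 2).const_add 1).pow 2).add ((t0.const_mul τ).pow 2)).log (by norm_num)
  have t4 := (t2.add (t3.const_mul (τ / 2))).sub_const τ
  norm_num at t4
  refine t4.congr' ((eventually_ge_atTop 1).mono fun n hn => ?_)
  have n0 : (0 : ℝ) < n := by exact_mod_cast hn
  have e : ((n : ℝ) + 1 + 1) ^ 2 + τ ^ 2 = n ^ 2 * ((1 + 2 * (n : ℝ)⁻¹) ^ 2 + (τ * (n : ℝ)⁻¹) ^ 2) := by
    field_simp; ring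
  simp only [stF]
  rw [e, Real.log_mul (by positivity) (by positivity), Real.log_pow, div_eq_mul_inv τ (_ + 1)]
  push_cast
  ring

lemma stir_polar {x : ℝ} (hx : 0 < x) (τ : ℝ) :
    (x - τ * I : ℂ) = (x * √(1 + (τ / x) ^ 2) : ℝ) * ex (-Real.arctan (τ / x)) := by
  have h : 0 < √(1 + (τ / x) ^ 2) := by positivity
  rw [ex, exp_mul_I, ← ofReal_cos, ← ofReal_sin, Real.cos_neg, Real.sin_neg, Real.cos_arctan,
    Real.sin_arctan]
  apply Complex.ext <;> simp <;> field_simp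

lemma stir_exsum (f : ℕ → ℝ) (n : ℕ) : ∏ j ∈ range n, ex (f j) = ex (∑ j ∈ range n, f j) := by
  induction n with
  | zero => simp [ex]
  | succ n ih => rw [prod_range_succ, sum_range_succ, ex_add, ih]

lemma stir_seq (τ : ℝ) {n : ℕ} (hn : 1 ≤ n) : ∃ r : ℝ, 0 ≤ r ∧ GammaSeq (3 / 2 - τ * I) n =
    r * ex (-(τ * Real.log n) + ∑ j ∈ range (n + 1), Real.arctan (τ / (3 / 2 + j))) := by
  have n0 : (0 : ℝ) < n := by exact_mod_cast hn
  have e1 : (n : ℂ) ^ (3 / 2 - τ * I : ℂ) =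
      (Real.exp (3 / 2 * Real.log n) : ℝ) * ex (-(τ * Real.log n)) := by
    rw [cpow_def_of_ne_zero (by exact_mod_cast n0.ne'), ← natCast_log, ex, ofReal_exp, ← exp_add]
    congr 1
    push_cast
    ring
  have e2 : ∀ j : ℕ, (3 / 2 - τ * I + j : ℂ) = ((3 / 2 + j) * √(1 + (τ / (3 / 2 + j)) ^ 2) : ℝ) *
      ex (-Real.arctan (τ / (3 / 2 + j))) := fun j => by
    rw [← stir_polar (by positivity)]; push_cast; ring
  refine ⟨Real.exp (3 / 2 * Real.log n) * n.factorial /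
    ∏ j ∈ range (n + 1), ((3 / 2 + j) * √(1 + (τ / (3 / 2 + j)) ^ 2) : ℝ), by positivity, ?_⟩
  have e3 : ∀ a : ℝ, (ex (-a))⁻¹ = ex a := fun a =>
    inv_eq_of_mul_eq_one_right (by rw [← ex_add]; simp [ex])
  rw [GammaSeq, e1, prod_congr rfl fun j _ => e2 j, prod_mul_distrib, stir_exsum, sum_neg_distrib,
    ex_add, div_eq_mul_inv, mul_inv, e3, ofReal_div, ofReal_mul, ofReal_prod, ofReal_natCast]
  ring

lemma stir_phase {τ : ℝ} (hτ : 1 ≤ τ) :
    ‖Gamma (3 / 2 - τ * I) - (‖Gamma (3 / 2 - τ * I)‖ : ℝ) * ex (τ - π / 2 - ph τ)‖ ≤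
      ‖Gamma (3 / 2 - τ * I)‖ * (3 / τ) := by
  have h0 : 0 < τ := by linarith
  have g := GammaSeq_tendsto_Gamma (3 / 2 - τ * I)
  have l := g.norm.mul ((stir_lim τ).abs.const_add (3 / τ))
  rw [abs_zero, add_zero] at l
  refine le_of_tendsto_of_tendsto (g.sub (((continuous_ofReal.tendsto _).comp g.norm).mul_const _)).norm
    l ((eventually_ge_atTop 1).mono fun n hn => ?_)
  obtain ⟨r, r0, e⟩ := stir_seq τ hn
  have e' : ‖GammaSeq (3 / 2 - τ * I) n‖ = r := by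
    rw [e, norm_mul, norm_ex, mul_one, norm_real, Real.norm_of_nonneg r0]
  simp only [Function.comp]
  rw [e', e, ← mul_sub, norm_mul, norm_real, Real.norm_of_nonneg r0]
  refine mul_le_mul_of_nonneg_left ((ex_sub _ _).trans ?_) r0
  have a := stir_sum h0 (n + 1)
  have b := stir_one hτ
  have c : τ / (1 + τ ^ 2) ≤ 1 / τ := by rw [div_le_div_iff₀ (by positivity) h0]; nlinarith
  have d : 0 ≤ τ / ((((n + 1 : ℕ) : ℝ) + 1) ^ 2 + τ ^ 2) := by positivity
  have f : 3 / τ = 1 / τ + 2 / τ := by ring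
  have k1 := le_abs_self (stF τ (n + 1 + 1) - τ * Real.log n - τ)
  have k2 := neg_abs_le (stF τ (n + 1 + 1) - τ * Real.log n - τ)
  push_cast at a d
  rw [abs_le] at a b ⊢
  constructor <;> linarith [a.1, a.2, b.1, b.2]

lemma stir_mod {τ : ℝ} (hτ : 1 ≤ τ) : |‖gam τ‖ - √(2 * π) * τ| ≤ 10 := by
  have h0 : 0 < τ := by linarith
  have p3 := Real.pi_gt_three
  have p4 := Real.pi_lt_four
  have e1 : ‖Gamma (3 / 2 - τ * I)‖ ^ 2 = (1 / 4 + τ ^ 2) * (π / Real.cosh (π * τ)) := by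
    have := MP_31bf45_nt.gam_succ (x := 1 / 2) (by norm_num) (-τ)
    rw [MP_31bf45_nt.gam_half, mul_neg, Real.cosh_neg] at this
    rw [show (3 / 2 - τ * I : ℂ) = (1 / 2 + 1 : ℝ) + (-τ : ℝ) * I by push_cast; ring, this]
    ring
  set q := Real.exp (-(2 * π * τ)) with hq
  have q0 : 0 < q := Real.exp_pos _
  have q1 : τ ^ 2 * q ≤ 1 := by
    have := Real.pow_div_factorial_le_exp (2 * π * τ) (by positivity) 2
    rw [hq, Real.exp_neg, ← div_eq_mul_inv, div_le_one (Real.exp_pos _)]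
    norm_num [Nat.factorial] at this
    nlinarith [mul_nonneg (sq_nonneg τ) (show 0 ≤ π ^ 2 - 9 by nlinarith)]
  have e2 : ‖gam τ‖ ^ 2 * (1 + q) = (1 / 4 + τ ^ 2) * (2 * π) := by
    have a : Real.exp (π * τ / 2) ^ 2 = Real.exp (π * τ) := by rw [← Real.exp_nat_mul]; congr 1; ring
    have b : q = Real.exp (-(π * τ)) / Real.exp (π * τ) := by
      rw [hq, ← Real.exp_sub]; congr 1; ring
    rw [gam, norm_mul, mul_pow, e1, norm_real, Real.norm_of_nonneg (Real.exp_pos _).le, a, b,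
      Real.cosh_eq]
    field_simp
  have s1 : √(2 * π) ^ 2 = 2 * π := Real.sq_sqrt (by positivity)
  have s2 : 1 ≤ √(2 * π) := Real.one_le_sqrt.2 (by linarith)
  have g0 := norm_nonneg (gam τ)
  have s3 : 1 ≤ √(2 * π) * τ := by nlinarith
  have e3 : |‖gam τ‖ ^ 2 - (√(2 * π) * τ) ^ 2| ≤ 10 := by
    have : (‖gam τ‖ ^ 2 - (√(2 * π) * τ) ^ 2) * (1 + q) = 2 * π * (1 / 4 - τ ^ 2 * q) := by
      rw [sub_mul, e2, mul_pow, s1]; ring
    have q2 : 0 ≤ τ ^ 2 * q := by positivity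
    rw [abs_le]
    constructor <;> nlinarith
  rw [sq_sub_sq, abs_mul, abs_of_pos (by linarith)] at e3
  nlinarith [abs_nonneg (‖gam τ‖ - √(2 * π) * τ)]

theorem stir : StirSt := by
  have s1 : √(2 * π) ≤ 3 := Real.sqrt_le_iff.2 ⟨by norm_num, by linarith [Real.pi_lt_four]⟩
  refine ⟨49, (√(2 * π) : ℝ) * ex (-(π / 2)), by simpa [abs_of_nonneg] using s1, fun τ hτ => ?_⟩
  have h0 : 0 < τ := by linarith
  have a := stir_mod hτ
  have b : ‖gam τ - (‖gam τ‖ : ℝ) * ex (τ - π / 2 - ph τ)‖ ≤ ‖gam τ‖ * (3 / τ) := by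
    have := mul_le_mul_of_nonneg_right (stir_phase hτ) (Real.exp_pos (π * τ / 2)).le
    rw [gam, norm_mul, norm_real, Real.norm_of_nonneg (Real.exp_pos _).le, ofReal_mul,
      mul_right_comm, ← sub_mul, norm_mul, norm_real, Real.norm_of_nonneg (Real.exp_pos _).le]
    linarith
  have e : (√(2 * π) : ℝ) * ex (-(π / 2)) * τ * ex τ * conj (kk τ) =
      (√(2 * π) * τ : ℝ) * ex (τ - π / 2 - ph τ) := by
    rw [kk, conj_ex, sub_eq_add_neg, sub_eq_add_neg, ex_add, ex_add]; push_cast; ring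
  have c : ‖(‖gam τ‖ : ℝ) * ex (τ - π / 2 - ph τ) - (√(2 * π) * τ : ℝ) * ex (τ - π / 2 - ph τ)‖ ≤ 10 := by
    rwa [← sub_mul, norm_mul, norm_ex, mul_one, ← ofReal_sub, norm_real]
  have d : ‖gam τ‖ * (3 / τ) ≤ 39 := by
    rw [← mul_div_assoc, div_le_iff₀ h0]
    nlinarith [(abs_le.1 a).2]
  rw [e]
  linarith [norm_sub_le_norm_sub_add_norm_sub (gam τ) ((‖gam τ‖ : ℝ) * ex (τ - π / 2 - ph τ))
    ((√(2 * π) * τ : ℝ) * ex (τ - π / 2 - ph τ))]

/-- one frequency of the main term -/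
lemma stir_main {W1 W2 : Finset ℝ} {α β : ℝ → ℂ} {B θ : ℝ} (b : ℝ) (hθ : 0 ≤ θ) (hα : U1 α)
    (hβ : U1 β) (h : ∀ t ∈ W1, ∀ s ∈ W2, 0 ≤ t - s) (hB : ∀ γ, U1 γ → ∑ s ∈ W2, ‖SW W1 γ s‖ ≤ B) :
    ‖∑ t ∈ W1, ∑ s ∈ W2, α t * β s * (ex (b * (t - s)) * (Real.exp (-(θ * (t - s))) : ℝ) *
      conj (kk (t - s)))‖ ≤ B := by
  classical
  rcases W1.eq_empty_or_nonempty with rfl | hne
  · simpa [SW] using hB 0 fun _ => by simp
  obtain ⟨t0, h0, hm⟩ := W1.exists_min_image id hne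
  refine le_trans ?_ (hB (fun t => if t ∈ W1 then
    conj (α t * ex (b * t) * (Real.exp (-(θ * (t - t0))) : ℝ)) else 0) fun t => ?_)
  · rw [sum_comm]
    refine norm_sum_le_of_le _ fun s hs => ?_
    have e : ∀ t ∈ W1, α t * β s * (ex (b * (t - s)) * (Real.exp (-(θ * (t - s))) : ℝ) *
        conj (kk (t - s))) = β s * ex (-(b * s)) * (Real.exp (-(θ * (t0 - s))) : ℝ) *
        conj ((if t ∈ W1 then conj (α t * ex (b * t) * (Real.exp (-(θ * (t - t0))) : ℝ)) else 0) *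
          kk (t - s)) := fun t ht => by
      rw [if_pos ht, map_mul, conj_conj, show b * (t - s) = b * t + -(b * s) by ring, ex_add,
        show -(θ * (t - s)) = -(θ * (t0 - s)) + -(θ * (t - t0)) by ring, Real.exp_add, ofReal_mul]
      ring
    rw [sum_congr rfl e, ← mul_sum, ← map_sum, norm_mul, RCLike.norm_conj]
    refine mul_le_of_le_one_left (norm_nonneg _) ?_
    rw [norm_mul, norm_mul, norm_ex, mul_one, norm_real, Real.norm_of_nonneg (Real.exp_pos _).le]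
    exact mul_le_one₀ (hβ s) (Real.exp_pos _).le
      (Real.exp_le_one_iff.2 (neg_nonpos.2 (mul_nonneg hθ (h t0 h0 s hs))))
  · beta_reduce
    split_ifs with ht
    · rw [RCLike.norm_conj, norm_mul, norm_mul, norm_ex, mul_one, norm_real,
        Real.norm_of_nonneg (Real.exp_pos _).le]
      exact mul_le_one₀ (hα t) (Real.exp_pos _).le
        (Real.exp_le_one_iff.2 (neg_nonpos.2 (mul_nonneg hθ (sub_nonneg.2 (hm t ht)))))
    · simp

theorem bil (zt_ok : ZtSt) (hst : StirSt) : BilSt := by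
  obtain ⟨C, c, hc, hC⟩ := hst
  have C0 : 0 ≤ C := (norm_nonneg _).trans (hC 1 le_rfl)
  have sm : Summable fun m : ℕ => ((m : ℝ) + 1) ^ (-(3 / 2) : ℝ) := by
    have := (summable_nat_add_iff 1).2 (Real.summable_nat_rpow.2 (show (-(3 / 2) : ℝ) < -1 by norm_num))
    simpa using this
  set Z := ∑' m : ℕ, ((m : ℝ) + 1) ^ (-(3 / 2) : ℝ) with hZ
  refine ⟨Z * (C + 3), fun W1 W2 α β N τ H B hN hH _ hτ hα hβ hW hB => ?_⟩
  have B0 : 0 ≤ B := (sum_nonneg fun _ _ => norm_nonneg _).trans (hB α hα)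
  have N0 : 0 < √N := Real.sqrt_pos.2 (by linarith)
  have pos : ∀ t ∈ W1, ∀ s ∈ W2, 1 ≤ t - s := fun t ht s hs => by
    linarith [(abs_le.1 (hW t ht s hs)).1]
  choose cc b θ h1 h2 h3 h4 using fun m : ℕ => zt_ok.2 N (m + 1) hN (by simp)
  have θ0 : ∀ m, 0 ≤ θ m := fun m => le_trans (by positivity) (h2 m)
  have zb : ∀ x, 0 ≤ x → ∀ m : ℕ, ‖zt N x (m + 1)‖ ≤ ((m : ℝ) + 1) ^ (-(3 / 2) : ℝ) := fun x hx m => by
    rw [h4, norm_mul, norm_mul, norm_ex, mul_one, norm_real, Real.norm_of_nonneg (Real.exp_pos _).le]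
    exact (mul_le_of_le_one_right (norm_nonneg _)
      (Real.exp_le_one_iff.2 (neg_nonpos.2 (mul_nonneg (θ0 m) hx)))).trans (h1 m)
  have hs : HasSum (fun m : ℕ => ∑ t ∈ W1, ∑ s ∈ W2,
      α t * β s * (gam (t - s) / (√N : ℝ) * zt N (t - s) (m + 1)))
      (∑ t ∈ W1, ∑ s ∈ W2, α t * β s * Gm N (t - s)) :=
    hasSum_sum fun t ht => hasSum_sum fun s hs =>
      ((Summable.of_norm_bounded sm (zb _ (by linarith [pos t ht s hs]))).hasSum.mul_left _).mul_left _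
  refine (hs.norm_le_of_bounded
    (sm.hasSum.mul_right ((C + 3) * (τ * B + H * (#W1 * #W2)) / √N)) fun m => ?_).trans_eq (by ring)
  have e : ∀ t s : ℝ, α t * β s * (gam (t - s) / (√N : ℝ) * zt N (t - s) (m + 1)) =
      (cc m * (c * τ) * (α t * β s * (ex ((b m + 1) * (t - s)) *
        (Real.exp (-(θ m * (t - s))) : ℝ) * conj (kk (t - s)))) +
      α t * β s * ((gam (t - s) - c * τ * ex (t - s) * conj (kk (t - s))) * zt N (t - s) (m + 1))) /
        (√N : ℝ) := fun t s => by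
    rw [h4, add_mul (b m), one_mul, ex_add]; ring
  simp only [e, ← sum_div, sum_add_distrib, ← mul_sum]
  rw [norm_div, norm_real, Real.norm_of_nonneg N0.le, ← mul_div_assoc]
  refine div_le_div_of_nonneg_right ((norm_add_le _ _).trans ?_) N0.le
  have τ0 : 0 ≤ τ := by linarith
  have w0 : 0 ≤ ((m : ℝ) + 1) ^ (-(3 / 2) : ℝ) := by positivity
  have k1 : ‖cc m * (c * τ) * ∑ t ∈ W1, ∑ s ∈ W2, α t * β s * (ex ((b m + 1) * (t - s)) *
      (Real.exp (-(θ m * (t - s))) : ℝ) * conj (kk (t - s)))‖ ≤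
      ((m : ℝ) + 1) ^ (-(3 / 2) : ℝ) * (3 * τ) * B := by
    rw [norm_mul, norm_mul, norm_mul, norm_real, Real.norm_of_nonneg τ0]
    gcongr
    · exact h1 m
    · exact stir_main _ (θ0 m) hα hβ (fun t ht s hs => by linarith [pos t ht s hs]) hB
  have k2 : ‖∑ t ∈ W1, ∑ s ∈ W2, α t * β s *
      ((gam (t - s) - c * τ * ex (t - s) * conj (kk (t - s))) * zt N (t - s) (m + 1))‖ ≤
      #W1 * (#W2 * ((C + 3 * H) * ((m : ℝ) + 1) ^ (-(3 / 2) : ℝ))) := by
    rw [← nsmul_eq_mul, ← sum_const]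
    refine norm_sum_le_of_le _ fun t ht => ?_
    rw [← nsmul_eq_mul, ← sum_const]
    refine norm_sum_le_of_le _ fun s hs => ?_
    have g : ‖gam (t - s) - c * τ * ex (t - s) * conj (kk (t - s))‖ ≤ C + 3 * H := by
      rw [show gam (t - s) - c * τ * ex (t - s) * conj (kk (t - s)) =
        (gam (t - s) - c * (t - s : ℝ) * ex (t - s) * conj (kk (t - s))) +
          c * (t - s - τ : ℝ) * ex (t - s) * conj (kk (t - s)) by push_cast; ring]
      refine (norm_add_le _ _).trans (add_le_add (hC _ (pos t ht s hs)) ?_)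
      rw [norm_mul, norm_mul, norm_mul, RCLike.norm_conj, norm_kk, norm_ex, mul_one, mul_one,
        norm_real]
      exact mul_le_mul hc (hW t ht s hs) (norm_nonneg _) (by norm_num)
    rw [norm_mul, norm_mul, norm_mul]
    exact (mul_le_of_le_one_left (by positivity) (mul_le_one₀ (hα t) (norm_nonneg _) (hβ s))).trans
      (mul_le_mul g (zb _ (by linarith [pos t ht s hs]) m) (norm_nonneg _) (by positivity))
  have k3 : C + 3 * H ≤ (C + 3) * H := by nlinarith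
  have k4 : 0 ≤ (#W1 * #W2 : ℝ) * ((m : ℝ) + 1) ^ (-(3 / 2) : ℝ) := by positivity
  have k5 : 0 ≤ ((m : ℝ) + 1) ^ (-(3 / 2) : ℝ) * (C * (τ * B)) := by positivity
  nlinarith [mul_le_mul_of_nonneg_left k3 k4]

end Pool.Agent.Lib.MP_a93a41_nt.TH
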