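import Pool.Agent.Lib.MP_a93a41_nt.THSy1

namespace Pool.Agent.Lib.MP_a93a41_nt.TH

open Finset
open scoped Pointwise

lemma sy_den {B : Set ℝ} {s : ℝ} (s0 : 0 < s) (h0 : 0 ∈ B) (h1 : 1 ∈ B)
    (h : ∀ b ∈ B, 0 ≤ b → b ≤ 1 → ∀ ε : ℝ, ε = 0 ∨ ε = 1 → ∃ c ∈ B, |(b + ε) / 2 - c| ≤ s)
    {x : ℝ} (x0 : 0 ≤ x) (x1 : x ≤ 1) : ∃ b ∈ B, 0 ≤ b ∧ b ≤ 1 ∧ |x - b| ≤ 3 * s := by
  have k : ∀ j : ℕ, ∀ x : ℝ, 0 ≤ x → x ≤ 1 → ∃ b ∈ B, 0 ≤ b ∧ b ≤ 1 ∧ |x - b| ≤ 2 * s + (1 / 2) ^ j := by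
    intro j
    induction j with
    | zero => exact fun x x0 x1 => ⟨0, h0, le_rfl, zero_le_one, abs_le.2 ⟨by norm_num; linarith, by norm_num; linarith⟩⟩
    | succ j ih =>
      intro x x0 x1
      obtain ⟨ε, e, a1, a2⟩ : ∃ ε : ℝ, (ε = 0 ∨ ε = 1) ∧ 0 ≤ 2 * x - ε ∧ 2 * x - ε ≤ 1 := by
        rcases le_total x (1 / 2) with c | c
        exacts [⟨0, .inl rfl, by linarith, by linarith⟩, ⟨1, .inr rfl, by linarith, by linarith⟩]
      obtain ⟨b, hb, b0, b1, b2⟩ := ih _ a1 a2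
      obtain ⟨c, hc, c2⟩ := h b hb b0 b1 ε e
      rw [abs_le] at b2 c2
      rw [pow_succ]
      rcases le_total c 0 with p | p
      · exact ⟨0, h0, le_rfl, zero_le_one, abs_le.2 ⟨by linarith, by linarith⟩⟩
      rcases le_total c 1 with q | q
      · exact ⟨c, hc, p, q, abs_le.2 ⟨by linarith, by linarith⟩⟩
      · exact ⟨1, h1, zero_le_one, le_rfl, abs_le.2 ⟨by linarith, by linarith⟩⟩
  obtain ⟨j, hj⟩ := exists_pow_lt_of_lt_one s0 (show (1 / 2 : ℝ) < 1 by norm_num)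
  exact (k j x x0 x1).imp fun b h => ⟨h.1, h.2.1, h.2.2.1, by linarith [h.2.2.2]⟩

lemma sy_cnt {A : Finset ℤ} {k m L1 L2 r1 r2 : ℝ} (hF : FrZ A k) (k0 : 0 ≤ k) (cA : #A ≤ m)
    (a1 : 1 ≤ r1) (a2 : 1 ≤ r2) (l1 : 2 * L1 ≤ r1 ^ 2) (l2 : 2 * L2 ≤ r2 ^ 2)
    {C : Finset ((ℤ × ℤ) × ℤ × ℤ)} (hC : C ⊆ (A ×ˢ A) ×ˢ (A ×ˢ A)) (c : ℤ × ℤ → ℤ → ℝ)
    (h : ∀ q ∈ C, |(q.2.1 : ℝ) - q.1.1| ≤ L1 ∧ |(q.2.2 : ℝ) - c q.1 q.2.1| ≤ L2) :
    (#C : ℝ) ≤ m ^ 2 * (k * r1) * (k * r2) := by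
  refine (tri_up C (fun q => (q.1, q.2.1)) (b := k * r2) fun p _ => ?_).trans
    (mul_le_mul_of_nonneg_right ((tri_up _ Prod.fst (b := k * r1) fun p _ => ?_).trans
      (mul_le_mul_of_nonneg_right ?_ (by positivity))) (by positivity))
  · rw [← card_image_of_injOn (f := fun q => q.2.2) fun a ha b hb e => by
      have := Prod.ext_iff.1 ((mem_filter.1 ha).2.trans (mem_filter.1 hb).2.symm)
      exact Prod.ext this.1 (Prod.ext this.2 e)]
    refine sy_near (c := c p.1 p.2.1) hF (image_subset_iff.2 fun q hq =>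
      (mem_product.1 (mem_product.1 (hC (mem_filter.1 hq).1)).2).2) a2 l2 (forall_mem_image.2 fun q hq => ?_)
    have := Prod.ext_iff.1 (mem_filter.1 hq).2
    simp only at this
    rw [← this.1, ← this.2]
    exact (h q (mem_filter.1 hq).1).2
  · rw [← card_image_of_injOn (f := Prod.snd) fun a ha b hb e =>
      Prod.ext ((mem_filter.1 ha).2.trans (mem_filter.1 hb).2.symm) e]
    refine sy_near (c := p.1.1) hF (image_subset_iff.2 fun q hq => ?_) a1 l1 (forall_mem_image.2 fun q hq => ?_)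
    all_goals obtain ⟨u, hu, rfl⟩ := mem_image.1 (mem_filter.1 hq).1
    · exact (mem_product.1 (mem_product.1 (hC hu)).2).1
    · rw [← (mem_filter.1 hq).2]; exact (h u hu).1
  · refine le_trans (Nat.cast_le.2 (card_le_card (t := A ×ˢ A) (image_subset_iff.2 fun q hq => ?_))) ?_
    · obtain ⟨u, hu, rfl⟩ := mem_image.1 hq
      exact (mem_product.1 (hC hu)).1
    · rw [card_product, sq]; push_cast; gcongr; exact (Nat.cast_nonneg _).trans cA

def Bs (A : Finset ℤ) (G : ℝ) : Set ℝ := {b | ∃ a1 ∈ A, ∃ a2 ∈ A, ∃ a3 ∈ A, ∃ a4 ∈ A,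
  G ≤ |(a3 : ℝ) - a4| ∧ b = (a1 - a2 : ℝ) / (a3 - a4 : ℝ)}

lemma sy_fin {A : Finset ℤ} {n k : ℝ} (k2 : 2 ≤ k) (hn : k ^ 4100 < n) (hF : FrZ A k) (c1 : #A ≤ k * n)
    (c2 : n / k ^ 8 ≤ #A) (hm : ∀ z ∈ A, |(z : ℝ)| ≤ k * n ^ 2)
    (key : ∀ b ∈ Bs A (n ^ 2 / k ^ 572), 0 ≤ b → b ≤ 1 → ∀ ε : ℝ, ε = 0 ∨ ε = 1 → ∃ e : ℝ,
      2 * (n ^ 2 / k ^ 572) ≤ e ∧ e ≤ 4 * (k * n ^ 2) ∧
      n ^ 4 ≤ k ^ 278 * √e * #(Col A ((b + ε) / 2) (k * n ^ 2 / e))) : False := by
  have k1 : 1 ≤ k := by linarith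
  have k0 : 0 < k := by linarith
  have kp : ∀ a b : ℕ, (2 : ℝ) ^ a * k ^ b ≤ k ^ (a + b) := fun a b => by rw [pow_add]; gcongr
  have kn : ∀ a ≤ 4100, k ^ a < n := fun a h => (pow_le_pow_right₀ k1 h).trans_lt hn
  have n1 : 1 ≤ n := (one_le_pow₀ k1).trans hn.le
  set G := n ^ 2 / k ^ 572 with hG
  have G0 : 0 < G := by positivity
  have r1 : 1 ≤ 2 * n / k ^ 286 := by rw [le_div_iff₀ (by positivity)]; linarith [kn 286 (by norm_num)]
  have r2 : 2 * G ≤ (2 * n / k ^ 286) ^ 2 := by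
    rw [div_pow, ← pow_mul, hG, ← mul_div_assoc]; gcongr; nlinarith
  obtain ⟨a, ha⟩ : A.Nonempty := card_pos.1 (by exact_mod_cast (show 0 < n / k ^ 8 by positivity).trans_le c2)
  obtain ⟨a', ha', far⟩ : ∃ a' ∈ A, G ≤ |(a' : ℝ) - a| := by
    by_contra! c
    have := c2.trans (sy_near hF Subset.rfl r1 r2 fun z hz => (c z hz).le)
    rw [← mul_div_assoc, div_le_div_iff₀ (by positivity) (by positivity)] at this
    have := mul_lt_mul_of_pos_left ((kp 1 9).trans_lt (pow_lt_pow_right₀ (by linarith)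
      (show 1 + 9 < 286 by norm_num))) (show 0 < n by linarith)
    linarith
  have ne := abs_pos.1 (G0.trans_le far)
  set s := k * n ^ 2 / G ^ 2 with hs
  have s0 : 0 < s := by positivity
  have den := @sy_den (Bs A G) s s0 ⟨a, ha, a, ha, a', ha', a, ha, far, by simp⟩
    ⟨a', ha', a, ha, a', ha', a, ha, far, (div_self ne).symm⟩ fun b hb b0 b1 ε hε => by
    obtain ⟨e, e1, e2, e3⟩ := key b hb b0 b1 ε hε
    by_contra! c
    have e0 : 0 < e := by linarith
    have se : √e ^ 2 = e := Real.sq_sqrt e0.le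
    have sp : 0 < √e := by positivity
    have := sy_cnt (L1 := G) (L2 := k * n ^ 2 / e) (r2 := k ^ 2 * n / √e) hF k0.le c1 r1
      (by
        rw [one_le_div sp]
        exact Real.sqrt_le_iff.2 ⟨by positivity, by
          nlinarith [mul_le_mul_of_nonneg_right ((kp 2 1).trans (pow_le_pow_right₀ k1
            (show 2 + 1 ≤ 4 by norm_num))) (sq_nonneg n)]⟩)
      r2 (by
        rw [div_pow, se, ← mul_div_assoc]; gcongr
        nlinarith [mul_le_mul_of_nonneg_right ((kp 1 1).trans (pow_le_pow_right₀ k1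
            (show 1 + 1 ≤ 4 by norm_num))) (sq_nonneg n)])
      (C := Col A ((b + ε) / 2) (k * n ^ 2 / e)) (filter_subset _ _)
      (fun p z => (b + ε) / 2 * (p.1 - z) + p.2) fun q hq => by
        obtain ⟨hq, u⟩ := mem_filter.1 hq
        refine ⟨?_, by rw [← abs_neg]; convert u using 2; ring⟩
        by_contra! w
        rw [abs_sub_comm] at w
        simp only [mem_product] at hq
        have := c _ ⟨_, hq.2.2, _, hq.1.2, _, hq.1.1, _, hq.2.1, w.le, rfl⟩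
        have d0 := abs_pos.1 (G0.trans w)
        rw [show (b + ε) / 2 - (q.2.2 - q.1.2 : ℝ) / (q.1.1 - q.2.1 : ℝ) = ((b + ε) / 2 * (q.1.1 - q.2.1 : ℝ) +
          (q.1.2 - q.2.2 : ℝ)) / (q.1.1 - q.2.1 : ℝ) by field_simp; ring, abs_div, lt_div_iff₀ (G0.trans w)] at this
        have t1 : k * n ^ 2 / e ≤ k * n ^ 2 / G := by gcongr; linarith
        have t2 : s * G = k * n ^ 2 / G := by rw [hs]; field_simp
        nlinarith
    have t := e3.trans (mul_le_mul_of_nonneg_left this (by positivity))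
    rw [show k ^ 278 * √e * ((k * n) ^ 2 * (k * (2 * n / k ^ 286)) * (k * (k ^ 2 * n / √e))) =
      n ^ 4 * (2 / k ^ 2) by field_simp] at t
    have : 2 / k ^ 2 < 1 := by rw [div_lt_one (by positivity)]; nlinarith
    nlinarith [pow_pos (show 0 < n by linarith) 4]
  have se : s = k ^ 1145 / n ^ 2 := by rw [hs, hG]; field_simp
  have s10 : 10 * s ≤ 1 := by
    rw [se, ← mul_div_assoc, div_le_one (by positivity)]
    nlinarith [show 2 ^ 4 * k ^ 1145 ≤ k ^ 1149 from kp 4 1145, kn 1149 (by norm_num), pow_pos k0 1145]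
  set M := ⌊1 / (10 * s)⌋₊
  have M1 : (M : ℝ) ≤ 1 / (10 * s) := Nat.floor_le (by positivity)
  have M2 : 1 / (20 * s) ≤ M := by
    have a1 : 1 ≤ 1 / (10 * s) := by rwa [one_le_div (by positivity)]
    have a2 : (1 : ℝ) ≤ M := by exact_mod_cast Nat.floor_pos.2 a1
    have := Nat.lt_floor_add_one (1 / (10 * s))
    rw [show 1 / (20 * s) = 1 / (10 * s) / 2 by field_simp; norm_num]
    linarith
  have M3 : (M : ℝ) ≤ n ^ 2 := M1.trans (by
    rw [se, div_le_iff₀ (by positivity), mul_comm 10, ← mul_assoc, mul_div_cancel₀ _ (by positivity)]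
    linarith [one_le_pow₀ k1 (n := 1145)])
  choose! b hb b0 b1 b2 using fun (j : ℕ) (hj : j ∈ range M) => den (x := 10 * s * j) (by positivity) (by
    rw [← le_div_iff₀' (by positivity)]
    exact le_trans (by exact_mod_cast (mem_range.1 hj).le) M1)
  set t := k ^ 573 / 2
  have t1 : 1 ≤ t := by
    have := pow_le_pow_right₀ k1 (show 1 ≤ 573 by norm_num); simp only [t]; linarith [pow_one k]
  have lo : ∀ j ∈ range M, n ^ 3 / k ^ 280 ≤ #(Col A (b j / 2) t) := fun j hj => by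
    obtain ⟨e, e1, e2, e3⟩ := key _ (hb j hj) (b0 j hj) (b1 j hj) 0 (.inl rfl)
    have u1 : √e ≤ k ^ 2 * n := Real.sqrt_le_iff.2 ⟨by positivity, by
      nlinarith [mul_le_mul_of_nonneg_right ((kp 2 1).trans (pow_le_pow_right₀ k1
        (show 2 + 1 ≤ 4 by norm_num))) (sq_nonneg n)]⟩
    have u2 : Col A ((b j + 0) / 2) (k * n ^ 2 / e) ⊆ Col A (b j / 2) t := by
      rw [add_zero]
      refine monotone_filter_right _ fun q _ h => h.trans ?_
      calc _ ≤ k * n ^ 2 / (2 * G) := by gcongr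
        _ = t := by rw [hG]; simp only [t]; field_simp
    rw [div_le_iff₀ (by positivity)]
    refine le_of_mul_le_mul_left ?_ (show 0 < n by linarith)
    calc _ = n ^ 4 := by ring
      _ ≤ k ^ 278 * (k ^ 2 * n) * #(Col A (b j / 2) t) := e3.trans (by gcongr)
      _ = _ := by ring
  set m := √n
  have mm : m * m = n := Real.mul_self_sqrt (by linarith)
  have m1 : 1 ≤ m := Real.one_le_sqrt.2 n1
  set Q := (A ×ˢ A) ×ˢ (A ×ˢ A)
  set P : ℝ → (ℤ × ℤ) × ℤ × ℤ → Prop := fun y q => |(q.2.1 : ℝ) - q.1.1| ≤ y ∧ |(q.2.2 : ℝ) - q.1.2| ≤ y + t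
  have cP : ∀ y J : ℝ, 1 ≤ y → 0 ≤ J → ∑ q ∈ Q, (if P y q then J else 0) ≤ 4 * k ^ 4 * t * n ^ 2 * (y * J) :=
    fun y J y1 J0 => by
    have ty : 1 ≤ 4 * t * y := by nlinarith
    have sq := Real.sq_sqrt (zero_le_one.trans ty)
    rw [← sum_filter, sum_const, nsmul_eq_mul]
    refine (mul_le_mul_of_nonneg_right (sy_cnt hF k0.le c1 (Real.one_le_sqrt.2 ty) (Real.one_le_sqrt.2 ty)
      (by nlinarith) (by nlinarith) (filter_subset _ _) (fun p _ => p.2) fun q hq => (mem_filter.1 hq).2) J0).trans_eq ?_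
    linear_combination k ^ 4 * n ^ 2 * J * sq
  have pt : ∀ q ∈ Q, (#((range M).filter fun j => |b j / 2 * (q.1.1 - q.2.1 : ℝ) + (q.1.2 - q.2.2 : ℝ)| ≤ t) : ℝ) ≤
      (if P m q then n ^ 2 else 0) + (if P n q then 2 * n * m else 0) + (if P (n * m) q then 2 * n else 0) +
      (if P (2 * k * n ^ 2) q then 2 * m else 0) := fun q hq => by
    set S := (range M).filter fun j => |b j / 2 * (q.1.1 - q.2.1 : ℝ) + (q.1.2 - q.2.2 : ℝ)| ≤ t
    have i1 : 0 ≤ if P m q then n ^ 2 else 0 := by positivity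
    have i2 : 0 ≤ if P n q then 2 * n * m else 0 := by positivity
    have i3 : 0 ≤ if P (n * m) q then 2 * n else 0 := by positivity
    have i4 : 0 ≤ if P (2 * k * n ^ 2) q then 2 * m else 0 := by positivity
    rcases S.eq_empty_or_nonempty with e | e
    · rw [e, card_empty, Nat.cast_zero]; positivity
    set d : ℝ := q.1.1 - q.2.1
    have hP : ∀ y, |d| ≤ y → P y q := fun y h => by
      obtain ⟨j, hj⟩ := e
      obtain ⟨hj, u⟩ := mem_filter.1 hj
      refine ⟨by rwa [abs_sub_comm], ?_⟩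
      have : |b j / 2 * d| ≤ y := by
        rw [abs_mul, abs_of_nonneg (by linarith [b0 j hj])]
        nlinarith [b0 j hj, b1 j hj, abs_nonneg d]
      rw [abs_le] at u this ⊢
      constructor <;> linarith [u.1, u.2, this.1, this.2]
    have hJ : ∀ x J : ℝ, 0 < x → x ≤ |d| → n ^ 2 ≤ x * J → 1 ≤ J → (#S : ℝ) ≤ 2 * J := fun x J x0 xd xJ J1 => by
      have lm := S.min'_mem e
      have um := S.max'_mem e
      have c : #S ≤ S.max' e - S.min' e + 1 := (card_le_card (t := Icc (S.min' e) (S.max' e)) fun j hj =>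
        mem_Icc.2 ⟨S.min'_le j hj, S.le_max' j hj⟩).trans_eq (by
          rw [Nat.card_Icc, Nat.sub_add_comm (S.min'_le _ um)])
      have c' : (#S : ℝ) ≤ (S.max' e : ℝ) - (S.min' e : ℝ) + 1 := by
        rw [← Nat.cast_sub (S.min'_le _ um)]; exact_mod_cast c
      rcases (S.min'_le _ um).eq_or_lt with z | z
      · rw [z] at c'; linarith
      have z' : (S.min' e : ℝ) + 1 ≤ S.max' e := by exact_mod_cast z
      obtain ⟨l1, l2⟩ := mem_filter.1 lm
      obtain ⟨u1, u2⟩ := mem_filter.1 um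
      have v1 := abs_le.1 (b2 _ l1)
      have v2 := abs_le.1 (b2 _ u1)
      generalize (S.max' e : ℝ) = U at *
      generalize (S.min' e : ℝ) = L at *
      generalize b (S.max' e) = β at *
      generalize b (S.min' e) = α at *
      have w1 : 4 * s * (U - L) ≤ β - α := by nlinarith
      have w2 : (β - α) * |d| ≤ 4 * t := by
        rw [← abs_of_nonneg (show 0 ≤ β - α by nlinarith), ← abs_mul]
        rw [abs_le] at l2 u2 ⊢
        constructor <;> linarith [l2.1, l2.2, u2.1, u2.2]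
      have w3 : t ≤ s * n ^ 2 := by
        rw [se, div_mul_cancel₀ _ (by positivity)]
        have := pow_le_pow_right₀ k1 (show 573 ≤ 1145 by norm_num); simp only [t]; linarith [pow_pos k0 573]
      have w4 : 4 * s * (U - L) * x ≤ 4 * (s * (x * J)) :=
        (mul_le_mul w1 xd x0.le (by nlinarith)).trans (w2.trans (by nlinarith))
      have : U - L ≤ J := le_of_mul_le_mul_left (by linarith) (show 0 < 4 * s * x by positivity)
      linarith
    rcases le_total |d| m with g1 | g1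
    · rw [if_pos (hP _ g1)]
      have : (#S : ℝ) ≤ M := by exact_mod_cast (card_filter_le _ _).trans_eq (card_range M)
      linarith
    rcases le_total |d| n with g2 | g2
    · rw [if_pos (hP _ g2)]
      linarith [hJ m (n * m) (by linarith) g1 (by nlinarith) (by nlinarith)]
    rcases le_total |d| (n * m) with g3 | g3
    · rw [if_pos (hP _ g3)]
      linarith [hJ n n (by linarith) g2 (by nlinarith) n1]
    · simp only [Q, mem_product] at hq
      rw [if_pos (hP (2 * k * n ^ 2) ((abs_sub _ _).trans (by linarith [hm _ hq.1.1, hm _ hq.2.1])))]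
      linarith [hJ (n * m) m (by positivity) g3 (by nlinarith) m1]
  have up := sum_le_sum pt
  rw [sum_add_distrib, sum_add_distrib, sum_add_distrib] at up
  have dc : ∑ j ∈ range M, (#(Col A (b j / 2) t) : ℝ) = ∑ q ∈ Q, (#((range M).filter fun j =>
      |b j / 2 * (q.1.1 - q.2.1 : ℝ) + (q.1.2 - q.2.2 : ℝ)| ≤ t) : ℝ) := by
    simp only [Col, card_filter]; push_cast; exact sum_comm
  have l1 := card_nsmul_le_sum _ _ _ lo
  rw [card_range, nsmul_eq_mul, dc] at l1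
  have X0 : 0 < k ^ 4 * t * n ^ 2 * (n ^ 2 * m) := by positivity
  have fin : 1 / (20 * s) * (n ^ 3 / k ^ 280) ≤ 36 * k * (k ^ 4 * t * n ^ 2 * (n ^ 2 * m)) := by
    refine (mul_le_mul_of_nonneg_right M2 (by positivity)).trans (l1.trans (up.trans ?_))
    nlinarith [cP m (n ^ 2) m1 (by positivity), cP n (2 * n * m) n1 (by positivity),
      cP (n * m) (2 * n) (by nlinarith) (by positivity), cP (2 * k * n ^ 2) (2 * m) (by nlinarith) (by positivity)]
  rw [se, show 1 / (20 * (k ^ 1145 / n ^ 2)) * (n ^ 3 / k ^ 280) = n ^ 4 * m * (m / (20 * k ^ 1425)) by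
    rw [← mm]; field_simp, show 36 * k * (k ^ 4 * t * n ^ 2 * (n ^ 2 * m)) = n ^ 4 * m * (18 * k ^ 578) by
    simp only [t]; ring, mul_le_mul_iff_right₀ (by positivity), div_le_iff₀ (by positivity)] at fin
  have : m ≤ k ^ 2012 := by linarith [show 2 ^ 9 * k ^ 2003 ≤ k ^ 2012 from kp 9 2003, pow_pos k0 2003]
  have := mul_self_le_mul_self (by linarith) this
  rw [mm, ← pow_add] at this
  exact absurd (kn _ (by norm_num)) (not_lt.2 this)

theorem spy : SpzSt := by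
  classical
  refine ⟨4100, fun Z Z' n k k2 n1 hS hm hF hF' hE => ?_⟩
  by_contra! hn
  have k1 : 1 ≤ k := by linarith
  have k0 : 0 < k := by linarith
  have n0 : 0 < n := by linarith
  have kp : ∀ a b : ℕ, (2 : ℝ) ^ a * k ^ b ≤ k ^ (a + b) := fun a b => by rw [pow_add]; gcongr
  set E := ((Z ×ˢ Z') ×ˢ (Z ×ˢ Z')).filter fun p =>
    |((p.1.1 * p.2.2 - p.2.1 * p.1.2 : ℤ) : ℝ)| ≤ k * n ^ 2
  obtain ⟨p0, hp0⟩ : E.Nonempty := card_pos.1 (by exact_mod_cast (show 0 < n ^ 3 / k by positivity).trans_le hE)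
  have m0 := mem_product.1 (mem_product.1 (mem_filter.1 hp0).1).1
  have cZ : (#Z : ℝ) ≤ k * n := le_trans (by exact_mod_cast card_le_card_add_right ⟨_, m0.2⟩) hS
  have cZ' : (#Z' : ℝ) ≤ k * n := le_trans (by exact_mod_cast card_le_card_add_left ⟨_, m0.1⟩) hS
  set Y : ℤ → ℤ → Finset ℤ := fun b a => Z.filter fun x => ∃ x' ∈ Z, |((x * a - x' * b : ℤ) : ℝ)| ≤ k * n ^ 2
  have e1 := tri_up E (fun p => (p.1.2, p.2.2, p.1.1)) (b := 3 * k ^ 2) fun p hp => by
    have hb := (hm _ (mem_product.1 (mem_product.1 (mem_filter.1 hp).1).1).2).1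
    have b0 : (0 : ℝ) < |(p.1.2 : ℝ)| := lt_of_lt_of_le (by positivity) hb
    rw [← card_image_of_injOn (f := fun q => q.2.1) fun a ha b hb e => by
      have := (mem_filter.1 ha).2.trans (mem_filter.1 hb).2.symm
      simp only [Prod.ext_iff] at this e ⊢
      exact ⟨⟨this.2.2, this.1⟩, e, this.2.1⟩]
    set c : ℝ := p.1.1 * p.2.2 / p.1.2
    refine le_trans (Nat.cast_le.2 (card_le_card (t := Icc ⌈c - k ^ 2⌉ ⌊c + k ^ 2⌋)
      (image_subset_iff.2 fun q hq => ?_))) ?_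
    · obtain ⟨hq, e⟩ := mem_filter.1 hq
      simp only [Prod.ext_iff] at e
      have u := (mem_filter.1 hq).2
      rw [e.1, e.2.1, e.2.2] at u
      have : |c - q.2.1| ≤ k ^ 2 := by
        have := abs_pos.1 b0
        rw [show c - q.2.1 = ((p.1.1 * p.2.2 - q.2.1 * p.1.2 : ℤ) : ℝ) / p.1.2 by
          push_cast; simp only [c]; field_simp, abs_div, div_le_iff₀ b0]
        exact u.trans ((le_of_eq (by field_simp)).trans (mul_le_mul_of_nonneg_left hb (by positivity)))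
      rw [abs_le] at this
      exact mem_Icc.2 ⟨Int.ceil_le.2 (by linarith), Int.le_floor.2 (by linarith)⟩
    · rw [Int.card_Icc, ← Int.cast_natCast, Int.ofNat_toNat]
      push_cast
      exact max_le (by linarith [Int.floor_le (c + k ^ 2), Int.le_ceil (c - k ^ 2), one_le_pow₀ k1 (n := 2)])
        (by positivity)
  have e2 : (#(E.image fun p => (p.1.2, p.2.2, p.1.1)) : ℝ) ≤ ∑ b ∈ Z', ∑ a ∈ Z', (#(Y b a) : ℝ) := by
    norm_cast
    refine (card_le_card (t := Z'.biUnion fun b => Z'.biUnion fun a => (Y b a).image fun x => (b, a, x))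
      (image_subset_iff.2 fun p hp => ?_)).trans (card_biUnion_le.trans (sum_le_sum fun b _ =>
        card_biUnion_le.trans (sum_le_sum fun a _ => card_image_le)))
    obtain ⟨hp, u⟩ := mem_filter.1 hp
    simp only [mem_product] at hp
    exact mem_biUnion.2 ⟨_, hp.1.2, mem_biUnion.2 ⟨_, hp.2.2, mem_image_of_mem _
      (mem_filter.2 ⟨hp.1.1, _, hp.2.1, u⟩)⟩⟩
  obtain ⟨b, hb, e3⟩ := exists_max_image Z' (fun b => ∑ a ∈ Z', (#(Y b a) : ℝ)) ⟨_, m0.2⟩
  have e4 := sum_le_card_nsmul _ _ _ e3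
  rw [nsmul_eq_mul] at e4
  have e5 : n ^ 2 / (3 * k ^ 4) ≤ ∑ a ∈ Z', (#(Y b a) : ℝ) := by
    refine le_of_mul_le_mul_left ?_ (show 0 < k * n * (3 * k ^ 2) by positivity)
    calc _ = n ^ 3 / k := by field_simp
      _ ≤ k * n * (∑ a ∈ Z', (#(Y b a) : ℝ)) * (3 * k ^ 2) :=
        hE.trans (e1.trans (mul_le_mul_of_nonneg_right (e2.trans (e4.trans
          (mul_le_mul_of_nonneg_right cZ' (sum_nonneg fun _ _ => Nat.cast_nonneg _)))) (by positivity)))
      _ = _ := by ring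
  have cY : ∀ a, (#(Y b a) : ℝ) ≤ #Z := fun a => Nat.cast_le.2 (card_filter_le _ _)
  set A := Z'.filter fun a => n / k ^ 8 ≤ #(Y b a)
  have cA : n / k ^ 8 ≤ #A := by
    rw [← sum_filter_add_sum_filter_not Z' fun a => n / k ^ 8 ≤ #(Y b a)] at e5
    have b1 := sum_le_card_nsmul A _ _ fun a _ => (cY a).trans cZ
    have b2 := sum_le_card_nsmul (Z'.filter fun a => ¬n / k ^ 8 ≤ #(Y b a)) _ _
      fun s hs => (not_le.1 (mem_filter.1 hs).2).le
    rw [nsmul_eq_mul] at b1 b2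
    have b3 := b2.trans (mul_le_mul_of_nonneg_right
      ((Nat.cast_le.2 (card_filter_le _ _)).trans cZ') (by positivity))
    have b5 : 2 * (k * n * (n / k ^ 8)) ≤ n ^ 2 / (3 * k ^ 4) := by
      rw [show 2 * (k * n * (n / k ^ 8)) = n ^ 2 / (k ^ 7 / 2) by field_simp]
      gcongr
      linarith [show 2 ^ 3 * k ^ 4 ≤ k ^ 7 from kp 3 4, pow_pos k0 4]
    refine le_of_mul_le_mul_left ?_ (show 0 < k * n by positivity)
    linarith
  have sA : A ⊆ Z' := filter_subset _ _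
  obtain ⟨a0, ha0⟩ : A.Nonempty := card_pos.1 (by exact_mod_cast (show 0 < n / k ^ 8 by positivity).trans_le cA)
  have b0 : (0 : ℝ) < |(b : ℝ)| := lt_of_lt_of_le (by positivity) (hm b hb).1
  have cov : ∀ a ∈ A, Cv (Z - Z) Z' 1 (k ^ 9) (3 * k ^ 2) fun z => (a : ℝ) * z / b := fun a ha => by
    have y1 := (mem_filter.1 ha).2
    obtain ⟨F, -, f1, f2⟩ := ruzsa_covering_add (A := Z') (B := Y b a) (K := k ^ 9)
      (card_pos.1 (by exact_mod_cast (show 0 < n / k ^ 8 by positivity).trans_le y1)) (by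
        refine le_trans (Nat.cast_le.2 (card_le_card (add_subset_add_left (filter_subset _ _)))) ?_
        rw [add_comm]
        exact hS.trans ((le_of_eq (by field_simp)).trans (mul_le_mul_of_nonneg_left y1 (by positivity))))
    refine ⟨F.image fun f : ℤ => ⌊(a : ℝ) * f / b⌋, (Nat.cast_le.2 card_image_le).trans (by simpa using f1),
      fun z hz => ?_⟩
    obtain ⟨f, hf, d, hd, rfl⟩ := mem_add.1 (f2 hz)
    obtain ⟨x, hx, y, hy, rfl⟩ := mem_sub.1 hd
    obtain ⟨-, x', hx', u⟩ := mem_filter.1 hx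
    obtain ⟨-, y', hy', v⟩ := mem_filter.1 hy
    refine ⟨_, mem_image_of_mem _ hf, x' - y', by rw [one_nsmul]; exact sub_mem_sub hx' hy', ?_⟩
    have w : ∀ x x' : ℤ, |((x * a - x' * b : ℤ) : ℝ)| ≤ k * n ^ 2 → |(a : ℝ) * x / b - x'| ≤ k ^ 2 :=
      fun x x' u => by
      have := abs_pos.1 b0
      rw [show (a : ℝ) * x / b - x' = ((x * a - x' * b : ℤ) : ℝ) / b by push_cast; field_simp, abs_div,
        div_le_iff₀ b0]
      exact u.trans ((le_of_eq (by field_simp)).trans (mul_le_mul_of_nonneg_left (hm b hb).1 (by positivity)))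
    have u := abs_le.1 (w _ _ u)
    have v := abs_le.1 (w _ _ v)
    have c1 := Int.floor_le ((a : ℝ) * f / b)
    have c2 := Int.lt_floor_add_one ((a : ℝ) * f / b)
    push_cast
    rw [mul_add, mul_sub, add_div, sub_div, abs_le]
    constructor <;> linarith [u.1, u.2, v.1, v.2, one_le_pow₀ k1 (n := 2)]
  have c0 : Cv (Z - Z) (A ×ˢ A) 1 (k ^ 9) (3 * k ^ 2) fun _ => 0 :=
    ⟨{0}, by simpa using one_le_pow₀ k1, fun _ _ => ⟨0, by simp, 0, by
      rw [one_nsmul]; exact mem_sub.2 ⟨_, m0.1, _, m0.1, sub_self _⟩, by simp; positivity⟩⟩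
  have p1 := fun a ha => (cov a ha).comp (Q := A ×ˢ A) Prod.fst fun q hq => sA (mem_product.1 hq).1
  have p2 := fun a ha => (cov a ha).comp (Q := A ×ˢ A) Prod.snd fun q hq => sA (mem_product.1 hq).2
  refine sy_fin k2 hn (fun x L hL => le_trans (Nat.cast_le.2 (card_le_card (filter_subset_filter _ sA)))
    (hF' x L hL)) ((Nat.cast_le.2 (card_le_card sA)).trans cZ') cA (fun z hz => (hm z (sA hz)).2) ?_
  rintro _ ⟨a1, h1, a2, h2, a3, h3, a4, h4, far, rfl⟩ β0 β1 ε hε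
  have d0 : (0 : ℝ) < |(a3 : ℝ) - a4| := lt_of_lt_of_le (by positivity) far
  have d1 := abs_pos.1 d0
  have e : (a1 - a2 + ε * (a3 - a4) : ℝ) / (2 * (a3 - a4)) = ((a1 - a2 : ℝ) / (a3 - a4 : ℝ) + ε) / 2 := by
    field_simp
  have ab : |2 * (a3 - a4 : ℝ)| = 2 * |(a3 - a4 : ℝ)| := by rw [abs_mul, abs_two]
  refine ⟨|2 * (a3 - a4 : ℝ)|, by linarith, by
    linarith [abs_sub (a3 : ℝ) a4, (hm _ (sA h3)).2, (hm _ (sA h4)).2], ?_⟩
  rw [← e]
  refine sy_key k2 n1 hS (fun z hz => (hm z hz).2) hF sA cA ((mem_filter.1 ha0).2.trans (cY _))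
    (hm b hb).1 (hm b hb).2 ?_ ?_ ?_
  · have : (1 : ℝ) ≤ |(a3 - a4 : ℝ)| := by exact_mod_cast Int.one_le_abs (by exact_mod_cast d1)
    linarith
  · rw [← div_le_one (by linarith), ← abs_div, e, abs_le]
    rcases hε with rfl | rfl <;> constructor <;> linarith
  have q := (((p2 a3 h3).add (p2 a3 h3)).add (p2 a4 h4).neg).add (p2 a4 h4).neg
  rcases hε with rfl | rfl
  · convert ((((p1 a1 h1).add (p1 a2 h2).neg).add c0).add c0).add q using 2; ring
  · convert ((((p1 a1 h1).add (p1 a2 h2).neg).add (p1 a3 h3)).add (p1 a4 h4).neg).add q using 2; ring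

end Pool.Agent.Lib.MP_a93a41_nt.TH
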