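import Pool.Agent.Lib.MP_a93a41_nt.TH0

/-! Three base points with small spectrum are impossible. -/

namespace Pool.Agent.Lib.MP_a93a41_nt.TH

open Finset
open scoped Pointwise

section
variable {α β : Type*} [DecidableEq β] (A : Finset α) (f : α → β)

lemma tri_up {b : ℝ} (h : ∀ p ∈ A, (#(A.filter (f · = f p)) : ℝ) ≤ b) :
    (#A : ℝ) ≤ #(A.image f) * b := by
  rw [card_eq_sum_card_image f A]
  push_cast
  refine (sum_le_card_nsmul _ _ b fun v hv => ?_).trans (by simp)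
  obtain ⟨p, hp, rfl⟩ := mem_image.1 hv
  exact h p hp

lemma tri_lo (G : Finset β) {b : ℝ} (h : ∀ e ∈ G, b ≤ #(A.filter (f · = e))) :
    #G * b ≤ #(A.filter (f · ∈ G)) := by
  rw [card_eq_sum_card_fiberwise (s := A.filter (f · ∈ G)) (f := f) (t := G)
    fun _ hp => (mem_filter.1 hp).2, ← nsmul_eq_mul]
  push_cast
  refine card_nsmul_le_sum _ _ _ fun e he => (h e he).trans (Nat.cast_le.2 (card_le_card ?_))
  intro p hp
  simp only [mem_filter] at hp ⊢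
  exact ⟨⟨hp.1, hp.2 ▸ he⟩, hp.2⟩

lemma tri_few {θ : ℝ} (h0 : 0 ≤ θ) :
    (#(A.filter fun p => ¬θ ≤ #(A.filter (f · = f p))) : ℝ) ≤ #(A.image f) * θ :=
  (tri_up _ f fun _ hp => le_trans (Nat.cast_le.2 (card_le_card (filter_subset_filter _
    (filter_subset _ _)))) (not_le.1 (mem_filter.1 hp).2).le).trans (mul_le_mul_of_nonneg_right
      (Nat.cast_le.2 (card_le_card (image_subset_image (filter_subset _ _)))) h0)

lemma tri_split (P Q R : α → Prop) [DecidablePred P] [DecidablePred Q] [DecidablePred R] :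
    (#A : ℝ) ≤ #(A.filter fun p => P p ∧ Q p ∧ R p) + #(A.filter fun p => ¬P p) +
      #(A.filter fun p => ¬Q p) + #(A.filter fun p => ¬R p) := by
  norm_cast
  simp only [card_filter, ← sum_add_distrib]
  rw [card_eq_sum_ones]
  refine sum_le_sum fun p _ => ?_
  by_cases P p <;> by_cases Q p <;> by_cases R p <;> simp [*]

lemma tri_cell (g : α → ℤ) {M : ℝ} (M0 : 0 ≤ M)
    (h : ∀ p ∈ A, ∀ q ∈ A, f p = f q → |(g p : ℝ) - g q| ≤ M) :
    (#(A.image g) : ℝ) ≤ #(A.image f) * (2 * M + 1) := by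
  have : A.image g ⊆ (A.image f).biUnion fun v => (A.filter (f · = v)).image g := fun z hz => by
    obtain ⟨p, hp, rfl⟩ := mem_image.1 hz
    exact mem_biUnion.2 ⟨_, mem_image_of_mem f hp, mem_image_of_mem g (mem_filter.2 ⟨hp, rfl⟩)⟩
  refine le_trans (Nat.cast_le.2 ((card_le_card this).trans card_biUnion_le)) ?_
  push_cast
  refine (sum_le_card_nsmul _ _ (2 * M + 1) fun v hv => ?_).trans_eq (nsmul_eq_mul _ _)
  obtain ⟨p, hp, rfl⟩ := mem_image.1 hv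
  have s : (A.filter (f · = f p)).image g ⊆ Icc (g p - ⌊M⌋) (g p + ⌊M⌋) := fun z hz => by
    obtain ⟨q, hq, rfl⟩ := mem_image.1 hz
    have := h q (mem_filter.1 hq).1 p hp (mem_filter.1 hq).2
    have : |g q - g p| ≤ ⌊M⌋ := Int.le_floor.2 (by exact_mod_cast this)
    rw [mem_Icc]
    constructor <;> linarith [abs_le.1 this]
  have a := Int.floor_nonneg.2 M0
  have b := Int.card_Icc_of_le (g p - ⌊M⌋) (g p + ⌊M⌋) (by linarith)
  have c : (#(Icc (g p - ⌊M⌋) (g p + ⌊M⌋)) : ℝ) = 2 * ⌊M⌋ + 1 := by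
    exact_mod_cast b.trans (by ring)
  linarith [Int.floor_le M, (Nat.cast_le (α := ℝ)).2 (card_le_card s)]

lemma tri_cs (W : Finset β) (h : ∀ p ∈ A, f p ∈ W) :
    (#A : ℝ) ^ 2 ≤ #W * #((A ×ˢ A).filter fun q => f q.1 = f q.2) := by
  rw [card_eq_sum_card_fiberwise h, card_eq_sum_card_fiberwise (f := fun q : α × α => f q.1)
    (t := W) fun q hq => h _ (mem_product.1 (mem_filter.1 hq).1).1]
  push_cast
  refine sq_sum_le_card_mul_sum_sq.trans (mul_le_mul_of_nonneg_left (sum_le_sum fun s _ => ?_)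
    (Nat.cast_nonneg _))
  rw [sq, ← Nat.cast_mul, ← card_product]
  refine Nat.cast_le.2 (card_le_card fun q hq => ?_)
  simp only [mem_product, mem_filter] at hq ⊢
  exact ⟨⟨⟨hq.1.1, hq.2.1⟩, hq.1.2.trans hq.2.2.symm⟩, hq.1.2⟩

end

section
variable {W : Finset ℝ} {E : Finset (ℝ × ℝ)} {k m n : ℝ} {x y : ℝ × ℝ → ℤ}
  (hF : ∀ B ⊆ W, ∀ ρ, 1 ≤ ρ → (∀ t ∈ B, ∀ u ∈ B, 2 * |t - u| ≤ (ρ * m) ^ 2) → #B ≤ k * ρ * m)
include hF

lemma tri_inj {γ : Type*} {B : Finset γ} (g : γ → ℝ) (i : Set.InjOn g B) (w : ∀ p ∈ B, g p ∈ W)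
    {ρ : ℝ} (ρ1 : 1 ≤ ρ) (h : ∀ p ∈ B, ∀ q ∈ B, 2 * |g p - g q| ≤ (ρ * m) ^ 2) :
    #B ≤ k * ρ * m := by
  rw [← card_image_of_injOn i]
  refine hF _ (image_subset_iff.2 w) ρ ρ1 ?_
  simpa only [forall_mem_image] using h

variable (hE : E ⊆ W ×ˢ W)
include hE

lemma tri_row {B : Finset (ℝ × ℝ)} (s : B ⊆ E) {ρ : ℝ} (ρ1 : 1 ≤ ρ)
    (h : ∀ p ∈ B, ∀ q ∈ B, p.2 = q.2 → 2 * |p.1 - q.1| ≤ (ρ * m) ^ 2) :
    (#B : ℝ) ≤ #(B.image Prod.snd) * (k * ρ * m) :=
  tri_up B Prod.snd fun _ _ => tri_inj hF Prod.fst (fun _ ha _ hb e => Prod.ext e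
    ((mem_filter.1 ha).2.trans (mem_filter.1 hb).2.symm))
    (fun _ hq => (mem_product.1 (hE (s (mem_filter.1 hq).1))).1) ρ1 fun a ha b hb =>
      h a (mem_filter.1 ha).1 b (mem_filter.1 hb).1
        ((mem_filter.1 ha).2.trans (mem_filter.1 hb).2.symm)

variable (k2 : 2 ≤ k) (m0 : 0 < m) (n1 : 1 ≤ n) (hW : #W ≤ k * m * n)
  (ix : ∀ p ∈ E, ∀ q ∈ E, p.2 = q.2 → |p.1 - q.1| ≤ k ^ 3 * (|(x p : ℝ) - x q| + 1) * m ^ 2)
include k2 m0 n1 hW ix

lemma tri_fr {X : Finset ℤ} (h : ∀ z ∈ X, m ^ 2 * n / k ^ 12 ≤ #(E.filter (x · = z))) :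
    FrZ X (k ^ 17) := fun t L L1 => by
  have a := tri_lo E x (X.filter fun z : ℤ => t ≤ z ∧ (z : ℝ) ≤ t + L) fun z hz =>
    h z (mem_filter.1 hz).1
  have k3 : 8 ≤ k ^ 3 := by linarith [pow_le_pow_left₀ zero_le_two k2 3]
  have s1 := Real.one_le_sqrt.2 L1
  have b := tri_row hF hE (filter_subset (x · ∈ X.filter fun z : ℤ => t ≤ z ∧ (z : ℝ) ≤ t + L) E)
    (ρ := k ^ 3 * √L) (by nlinarith) fun p hp q hq e => by
      simp only [mem_filter] at hp hq
      have c : |(x p : ℝ) - x q| ≤ L := abs_le.2 ⟨by linarith [hp.2.2, hq.2.2], by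
        linarith [hp.2.2, hq.2.2]⟩
      rw [mul_pow, mul_pow, Real.sq_sqrt (by linarith)]
      calc _ ≤ 2 * (k ^ 3 * (L + L) * m ^ 2) := by
            refine mul_le_mul_of_nonneg_left ((ix p hp.1 q hq.1 e).trans ?_) zero_le_two
            gcongr
        _ = 4 * (k ^ 3 * L * m ^ 2) := by ring
        _ ≤ k ^ 3 * (k ^ 3 * L * m ^ 2) := by gcongr; linarith
        _ = _ := by ring
  have c : (#((E.filter (x · ∈ X.filter fun z : ℤ => t ≤ z ∧ (z : ℝ) ≤ t + L)).image Prod.snd) : ℝ)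
      ≤ k * m * n := le_trans (Nat.cast_le.2 (card_le_card (image_subset_iff.2 fun p hp =>
        (mem_product.1 (hE (mem_filter.1 hp).1)).2))) hW
  have d := a.trans (b.trans (mul_le_mul_of_nonneg_right c (by positivity)))
  rw [← le_div_iff₀ (by positivity)] at d
  exact d.trans_eq (by field_simp)

omit hF hE hW ix n1 in
lemma tri_sq {t : ℝ} (h : t ≤ k ^ 3 * (|(0 : ℝ)| + 1) * m ^ 2) : 2 * t ≤ (k ^ 2 * m) ^ 2 :=
  calc _ ≤ 2 * (k ^ 3 * m ^ 2) := by simpa using h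
    _ ≤ k * (k ^ 3 * m ^ 2) := by gcongr
    _ = _ := by ring

variable (ie : ∀ p ∈ E, ∀ q ∈ E, x p = x q → y p = y q → |p.2 - q.2| ≤ 3 * k ^ 6 * m ^ 2)
include ie

omit n1 hW in
lemma tri_fib {B : Finset (ℝ × ℝ)} (s : B ⊆ E) (h : ∀ p ∈ B, ∀ q ∈ B, x p = x q ∧ y p = y q) :
    (#B : ℝ) ≤ k ^ 9 * m ^ 2 := by
  have k1 : 1 ≤ k := by linarith
  have a := tri_row hF hE s (one_le_pow₀ k1 (n := 2)) fun p hp q hq e => tri_sq k2 m0 (by
    simpa [(h p hp q hq).1] using ix p (s hp) q (s hq) e)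
  have b := hF (B.image Prod.snd) (image_subset_iff.2 fun p hp => (mem_product.1 (hE (s hp))).2)
    _ (one_le_pow₀ k1 (n := 5)) (by
      simp only [forall_mem_image]
      intro p hp q hq
      have := pow_le_pow_left₀ zero_le_two k2 4
      calc _ ≤ 2 * (3 * k ^ 6 * m ^ 2) := by
            gcongr; exact ie p (s hp) q (s hq) (h p hp q hq).1 (h p hp q hq).2
        _ = 6 * (k ^ 6 * m ^ 2) := by ring
        _ ≤ k ^ 4 * (k ^ 6 * m ^ 2) := by gcongr; linarith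
        _ = _ := by ring)
  exact (a.trans (mul_le_mul_of_nonneg_right b (by positivity))).trans_eq (by ring)

/-- many pairs of edges with a common point -/
lemma tri_pairs {B : Finset (ℝ × ℝ)} (s : B ⊆ E) : (#B : ℝ) ^ 2 ≤ k ^ 13 * m ^ 4 * n *
    #(((B ×ˢ B).filter fun q => q.1.2 = q.2.2).image fun q => ((x q.1, y q.1), (x q.2, y q.2))) := by
  have k1 : 1 ≤ k := by linarith
  have a := tri_cs B Prod.snd W fun p hp => (mem_product.1 (hE (s hp))).2
  have b := tri_up ((B ×ˢ B).filter fun q => q.1.2 = q.2.2) (fun q => ((x q.1, y q.1), (x q.2, y q.2)))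
    (b := k ^ 9 * m ^ 2 * (k * k ^ 2 * m)) fun q _ => (tri_up _ Prod.fst fun r _ =>
      tri_inj hF (fun q => q.2.1) (fun a ha b hb e => by
        simp only [coe_filter, mem_filter, Set.mem_ofPred_eq] at ha hb
        exact Prod.ext (ha.2.trans hb.2.symm) (Prod.ext e (by
          rw [← ha.1.1.2, ← hb.1.1.2, ha.2, hb.2]))) (fun a ha => by
        simp only [mem_filter, mem_product] at ha
        exact (mem_product.1 (hE (s ha.1.1.1.2))).1) (one_le_pow₀ k1) fun a ha b hb => by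
        simp only [mem_filter, mem_product, Prod.mk.injEq] at ha hb
        refine tri_sq k2 m0 ?_
        simpa [ha.1.2.2.1, hb.1.2.2.1] using ix a.2 (s ha.1.1.1.2) b.2 (s hb.1.1.1.2) (by
          rw [← ha.1.1.2, ← hb.1.1.2, ha.2, hb.2])).trans (mul_le_mul_of_nonneg_right
      (tri_fib hF hE k2 m0 ix ie (image_subset_iff.2 fun a ha => by
        simp only [mem_filter, mem_product] at ha
        exact s ha.1.1.1) (by
        simp only [forall_mem_image, mem_filter, Prod.mk.injEq]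
        exact fun a ha b hb => ⟨ha.2.1.1.trans hb.2.1.1.symm, ha.2.1.2.trans hb.2.1.2.symm⟩))
      (by positivity))
  exact (a.trans (mul_le_mul hW b (by positivity) (by positivity))).trans_eq (by ring)

end

lemma tri_comb (hb : BsgSt) (hs : SpzSt) : ∃ c : ℕ, ∀ (W : Finset ℝ) (E : Finset (ℝ × ℝ)) (k m n : ℝ)
    (x y : ℝ × ℝ → ℤ),
    (∀ B ⊆ W, ∀ ρ, 1 ≤ ρ → (∀ t ∈ B, ∀ u ∈ B, 2 * |t - u| ≤ (ρ * m) ^ 2) → #B ≤ k * ρ * m) →
    E ⊆ W ×ˢ W → 2 ≤ k → 0 < m → 1 ≤ n → #W ≤ k * m * n →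
    (∀ p ∈ E, ∀ q ∈ E, p.2 = q.2 → |p.1 - q.1| ≤ k ^ 3 * (|(x p : ℝ) - x q| + 1) * m ^ 2 ∧
      |p.1 - q.1| ≤ k ^ 3 * (|(y p : ℝ) - y q| + 1) * m ^ 2 ∧
      |((x p * y q - x q * y p : ℤ) : ℝ)| ≤ k ^ 6 * n ^ 2) →
    (∀ p ∈ E, ∀ q ∈ E, x p = x q → y p = y q → |p.2 - q.2| ≤ 3 * k ^ 6 * m ^ 2) →
    (m * n) ^ 2 / k ≤ #E → #(E.image x) ≤ k ^ 9 * n → #(E.image y) ≤ k ^ 9 * n →
    #(E.image fun p => x p + y p) ≤ k ^ 9 * n →
    (∀ p ∈ E, n ^ 2 / k ^ 3 ≤ |(y p : ℝ)| ∧ |(y p : ℝ)| ≤ k ^ 4 * n ^ 2) → n ≤ k ^ c := by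
  obtain ⟨c, hb⟩ := hb
  obtain ⟨c', hs⟩ := hs
  refine ⟨(24 * c + 55) * c', fun W E k m n x y hF hE k2 m0 n1 hW i ie hN cx cy cs yb => ?_⟩
  have k1 : 1 ≤ k := by linarith
  have pw : ∀ {i j}, i ≤ j → k ^ i ≤ k ^ j := fun e => pow_le_pow_right₀ k1 e
  have ix := fun p hp q hq e => (i p hp q hq e).1
  have iy := fun p hp q hq e => (i p hp q hq e).2.1
  obtain ⟨g, hg⟩ : ∃ g : ℝ × ℝ → ℤ × ℤ, g = fun p => (x p, y p) := ⟨_, rfl⟩
  obtain ⟨D, hD⟩ : ∃ D, D = E.filter fun p => m ^ 2 * n / k ^ 12 ≤ #(E.filter (x · = x p)) ∧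
    m ^ 2 * n / k ^ 12 ≤ #(E.filter (y · = y p)) ∧ m ^ 2 / k ^ 21 ≤ #(E.filter (g · = g p)) :=
    ⟨_, rfl⟩
  have sD : D ⊆ E := hD ▸ filter_subset _ _
  have dp := fun p (hp : p ∈ D) => (mem_filter.1 (hD ▸ hp)).2
  have cD : (m * n) ^ 2 / k ^ 3 ≤ #D := by
    have a1 := (tri_few E x (θ := m ^ 2 * n / k ^ 12) (by positivity)).trans
      (mul_le_mul_of_nonneg_right cx (by positivity))
    have a2 := (tri_few E y (θ := m ^ 2 * n / k ^ 12) (by positivity)).trans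
      (mul_le_mul_of_nonneg_right cy (by positivity))
    have a3 := (tri_few E g (θ := m ^ 2 / k ^ 21) (by positivity)).trans
      (mul_le_mul_of_nonneg_right (c := k ^ 9 * n * (k ^ 9 * n)) (le_trans (Nat.cast_le.2
        (card_le_card (t := E.image x ×ˢ E.image y) (image_subset_iff.2 fun p hp => hg ▸
          mem_product.2 ⟨mem_image_of_mem x hp, mem_image_of_mem y hp⟩))) (by
            rw [card_product, Nat.cast_mul]; gcongr)) (by positivity))
    have a4 := hD ▸ tri_split E _ _ _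
    have e1 : k ^ 9 * n * (m ^ 2 * n / k ^ 12) = (m * n) ^ 2 / k ^ 3 := by field_simp
    have e2 : k ^ 9 * n * (k ^ 9 * n) * (m ^ 2 / k ^ 21) = (m * n) ^ 2 / k ^ 3 := by field_simp
    have e3 : 4 * ((m * n) ^ 2 / k ^ 3) ≤ (m * n) ^ 2 / k := by
      calc _ ≤ k ^ 2 * ((m * n) ^ 2 / k ^ 3) := by gcongr; nlinarith
        _ = _ := by field_simp
    linarith
  have im : ∀ f : ℝ × ℝ → ℤ, #(E.image f) ≤ k ^ 9 * n → #(D.image f) ≤ k ^ 12 * n := fun f e =>
    (Nat.cast_le.2 (card_le_card (image_subset_image sD))).trans (e.trans (by gcongr; norm_num))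
  obtain ⟨X, sX, Y, sY, b1, b2⟩ := hb (D.image x) (D.image y) (D.image g) n (k ^ 12)
    (k2.trans (le_self_pow₀ k1 (by norm_num))) (by linarith) (image_subset_iff.2 fun p hp => hg ▸
      mem_product.2 ⟨mem_image_of_mem x hp, mem_image_of_mem y hp⟩) (im x cx) (im y cy) (by
      have := cD.trans (tri_up D g fun p _ => tri_fib hF hE k2 m0 ix ie
        ((filter_subset _ _).trans sD) fun a ha b hb => Prod.mk.inj (hg ▸
          (mem_filter.1 ha).2.trans (mem_filter.1 hb).2.symm :))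
      rw [← div_le_iff₀ (by positivity)] at this
      exact le_of_eq_of_le (by field_simp) this) (by
      rw [image_image, hg]; exact im _ cs)
  have b3 := (mul_le_mul_of_nonneg_right b1 (by positivity)).trans (tri_lo E g _
    (b := m ^ 2 / k ^ 21) fun e he => by
      obtain ⟨p, hp, rfl⟩ := mem_image.1 (mem_filter.1 he).1
      exact (dp p hp).2.2)
  have b4 := (pow_le_pow_left₀ (by positivity) b3 2).trans
    (tri_pairs hF hE k2 m0 n1 hW ix ie (filter_subset _ _))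
  have fr : ∀ {f X}, X ⊆ D.image f → FrZ (D.image f) (k ^ 17) → FrZ X (k ^ (24 * c + 55)) :=
    fun s e t L l => (Nat.cast_le.2 (card_le_card (filter_subset_filter _ s))).trans
      ((e t L l).trans (by gcongr; omega))
  rw [pow_mul]
  refine hs X Y n _ (k2.trans (le_self_pow₀ k1 (by omega))) n1 (b2.trans ?_) (fun z hz => ?_)
    (fr sX (tri_fr hF hE k2 m0 n1 hW ix fun z hz => ?_))
    (fr sY (tri_fr hF hE k2 m0 n1 hW iy fun z hz => ?_)) ?_
  · rw [← pow_mul]; gcongr; omega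
  · obtain ⟨p, hp, rfl⟩ := mem_image.1 (sY hz)
    refine ⟨le_trans ?_ (yb p (sD hp)).1, (yb p (sD hp)).2.trans ?_⟩ <;> gcongr <;> omega
  · obtain ⟨p, hp, rfl⟩ := mem_image.1 hz
    exact (dp p hp).1
  · obtain ⟨p, hp, rfl⟩ := mem_image.1 hz
    exact (dp p hp).2.1
  · rw [← div_le_iff₀' (by positivity)] at b4
    refine le_trans (le_of_eq ?_) (b4.trans (Nat.cast_le.2 (card_le_card
      (image_subset_iff.2 fun q hq => ?_))))
    · rw [← pow_mul]; field_simp; ring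
    · simp only [mem_filter, mem_product, hg] at hq ⊢
      exact ⟨⟨hq.1.1.2.2, hq.1.2.2.2⟩, (i _ hq.1.1.1 _ hq.1.2.1 hq.2).2.2.trans (by gcongr; omega)⟩

noncomputable def triY (a : ℝ) (p : ℝ × ℝ) : ℝ := (a - p.2) / (p.1 - p.2)

def TriOk (T k a : ℝ) (p : ℝ × ℝ) : Prop := (T ≤ a - p.1 ∧ a - p.1 ≤ k * T) ∧
  (T ≤ a - p.2 ∧ a - p.2 ≤ k * T) ∧ T / k ≤ |p.1 - p.2|

lemma tri_log {u v k : ℝ} (u0 : 0 < u) (v0 : 0 < v) (hu : u ≤ k) (hv : v ≤ k) :
    |u - v| ≤ k * |Real.log u - Real.log v| := by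
  wlog h : v ≤ u generalizing u v
  · rw [abs_sub_comm, abs_sub_comm (Real.log u)]
    exact this v0 u0 hv hu (le_of_not_ge h)
  have a := Real.log_le_sub_one_of_pos (div_pos v0 u0)
  have b := Real.log_le_log v0 h
  rw [Real.log_div v0.ne' u0.ne', le_sub_iff_add_le, le_div_iff₀ u0] at a
  rw [abs_of_nonneg (by linarith), abs_of_nonneg (by linarith)]
  nlinarith

lemma tri_det {X Y X' Y' B : ℝ} (h : X * Y' = X' * Y) (a : |X| ≤ B) (b : |Y| ≤ B) (c : |X'| ≤ B)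
    (d : |Y'| ≤ B) : |((⌊X⌋ * ⌊Y'⌋ - ⌊X'⌋ * ⌊Y⌋ : ℤ) : ℝ)| ≤ 4 * B + 2 := by
  have f : ∀ t : ℝ, |⌊t⌋ - t| ≤ 1 := fun t => abs_le.2
    ⟨by linarith [Int.lt_floor_add_one t], by linarith [Int.floor_le t]⟩
  have g : ∀ s t u v : ℝ, |t| ≤ B → |u| ≤ B → |(⌊s⌋ - s) * (⌊t⌋ - t) + (⌊s⌋ - s) * t + u * (⌊t⌋ - t)|
      ≤ 1 * 1 + 1 * B + B * 1 := fun s t u v a b => by
    have := (abs_nonneg _).trans a
    refine (abs_add_three _ _ _).trans ?_
    simp only [abs_mul]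
    gcongr <;> exact f _
  have := (abs_sub _ _).trans (add_le_add (g X Y' X 0 d a) (g X' Y X' 0 b c))
  push_cast
  exact le_of_eq_of_le (congrArg _ (by linarith)) (this.trans_eq (by ring))

section
variable {T k H a a' c r : ℝ} {p q : ℝ × ℝ} (k2 : 2 ≤ k) (T0 : 0 < T) (hp : TriOk T k a p)
include k2 T0 hp

lemma tri_D : 0 < |p.1 - p.2| ∧ |p.1 - p.2| ≤ k * T :=
  ⟨lt_of_lt_of_le (by positivity) hp.2.2, abs_le.2 ⟨by linarith [hp.1, hp.2.1], by
    linarith [hp.1, hp.2.1]⟩⟩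

lemma tri_y : 1 / k ≤ |triY a p| ∧ |triY a p| ≤ k ^ 2 := by
  obtain ⟨a1, a2⟩ := tri_D k2 T0 hp
  obtain ⟨-, ⟨b1, b2⟩, b3⟩ := hp
  rw [triY, abs_div, abs_of_pos (T0.trans_le b1)]
  constructor
  · calc _ = T / (k * T) := by field_simp
      _ ≤ _ := by gcongr; linarith
  · calc _ ≤ k * T / (T / k) := by gcongr
      _ = _ := by field_simp

variable (hq : TriOk T k a q)
include hq

lemma tri_cl (H1 : 1 ≤ H) (e : ⌊H * Real.log ((a - p.1) / (a - p.2))⌋ =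
    ⌊H * Real.log ((a - q.1) / (a - q.2))⌋) : |triY a p - triY a q| ≤ k ^ 5 / H := by
  have a1 := (Int.abs_sub_lt_one_of_floor_eq_floor e).le
  rw [← mul_sub, abs_mul, abs_of_pos (by linarith), ← le_div_iff₀' (by linarith)] at a1
  have ρ : ∀ {p}, TriOk T k a p → 0 < (a - p.1) / (a - p.2) ∧ (a - p.1) / (a - p.2) ≤ k := fun h =>
    ⟨div_pos (T0.trans_le h.1.1) (T0.trans_le h.2.1.1), (div_le_iff₀ (T0.trans_le h.2.1.1)).2
      (h.1.2.trans (by gcongr; exact h.2.1.1))⟩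
  have a2 := tri_log (ρ hp).1 (ρ hq).1 (ρ hp).2 (ρ hq).2
  have := abs_pos.1 (tri_D k2 T0 hp).1
  have := abs_pos.1 (tri_D k2 T0 hq).1
  have := (T0.trans_le hp.2.1.1).ne'
  have := (T0.trans_le hq.2.1.1).ne'
  calc _ = |triY a p| * |triY a q| * |(a - p.1) / (a - p.2) - (a - q.1) / (a - q.2)| := by
        rw [← abs_mul, ← abs_mul, triY, triY]; congr 1; field_simp; ring
    _ ≤ k ^ 2 * k ^ 2 * (k * (1 / H)) := by
        gcongr
        exacts [(tri_y k2 T0 hp).2, (tri_y k2 T0 hq).2, a2.trans (by gcongr)]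
    _ = _ := by ring

lemma tri_i1 (e : p.2 = q.2) : |p.1 - q.1| ≤ k ^ 2 * T * |triY a p - triY a q| := by
  obtain ⟨a1, a2⟩ := tri_D k2 T0 hp
  obtain ⟨b1, b2⟩ := tri_D k2 T0 hq
  have := abs_pos.1 a1
  have := abs_pos.1 b1
  refine le_of_mul_le_mul_left ?_ T0
  calc _ ≤ |a - p.2| * |p.1 - q.1| := by gcongr; exact hp.2.1.1.trans (le_abs_self _)
    _ = |p.1 - p.2| * |q.1 - q.2| * |triY a p - triY a q| := by
        rw [← abs_mul, ← abs_mul, ← abs_mul, ← abs_neg, triY, triY]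
        congr 1; field_simp; rw [e]; ring
    _ ≤ k * T * (k * T) * |triY a p - triY a q| := by gcongr
    _ = _ := by ring

lemma tri_i2 (h : T / k ≤ |a - a'|) (e : |triY a p - triY a q| ≤ r)
    (e' : |triY a' p - triY a' q| ≤ r) : |p.2 - q.2| ≤ 3 * k ^ 5 * T * r := by
  obtain ⟨a1, a2⟩ := tri_D k2 T0 hp
  obtain ⟨b1, b2⟩ := tri_D k2 T0 hq
  have := abs_pos.1 a1
  have := abs_pos.1 b1
  have r0 := (abs_nonneg _).trans e
  have d : |q.1 - q.2 - (p.1 - p.2)| ≤ 2 * k ^ 3 * T * r := by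
    refine le_of_mul_le_mul_left ?_ (show 0 < T / k by positivity)
    calc _ ≤ |a - a'| * |q.1 - q.2 - (p.1 - p.2)| := by gcongr
      _ = |p.1 - p.2| * |q.1 - q.2| * |triY a p - triY a q - (triY a' p - triY a' q)| := by
          rw [← abs_mul, ← abs_mul, ← abs_mul]
          unfold triY
          congr 1; field_simp; ring
      _ ≤ k * T * (k * T) * (r + r) := by gcongr; exact (abs_sub _ _).trans (add_le_add e e')
      _ = _ := by field_simp; ring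
  calc _ = |triY a p * (q.1 - q.2 - (p.1 - p.2)) - (triY a p - triY a q) * (q.1 - q.2)| := by
        unfold triY
        congr 1; field_simp; ring
    _ ≤ k ^ 2 * (2 * k ^ 3 * T * r) + r * (k * T) := by
        refine (abs_sub _ _).trans ?_
        rw [abs_mul, abs_mul]
        gcongr
        exact (tri_y k2 T0 hp).2
    _ ≤ k ^ 2 * (2 * k ^ 3 * T * r) + r * (k ^ 5 * T) := by
        gcongr; exact le_self_pow₀ (by linarith) (by norm_num)
    _ = _ := by ring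

variable (H1 : 1 ≤ H) (c1 : 1 / k ≤ |c|)
include H1 c1

omit T0 hp hq in
lemma tri_fl : |triY a p - triY a q| ≤
    k / H * (|(⌊c * H * triY a p⌋ : ℝ) - ⌊c * H * triY a q⌋| + 1) := by
  rw [div_mul_eq_mul_div, le_div_iff₀ (by linarith), ← div_le_iff₀' (by linarith)]
  calc _ = 1 / k * |H| * |triY a p - triY a q| := by rw [abs_of_pos (by linarith : 0 < H)]; ring
    _ ≤ |c * H * triY a p - c * H * triY a q| := by rw [← mul_sub, abs_mul, abs_mul]; gcongr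
    _ ≤ _ := by
      have := Int.floor_le (c * H * triY a p)
      have := Int.floor_le (c * H * triY a q)
      have := Int.lt_floor_add_one (c * H * triY a p)
      have := Int.lt_floor_add_one (c * H * triY a q)
      have := abs_le.1 (le_refl |(⌊c * H * triY a p⌋ : ℝ) - ⌊c * H * triY a q⌋|)
      rw [abs_le]
      constructor <;> linarith

omit hq in
lemma tri_V (c2 : |c| ≤ k) : H / k ^ 2 ≤ |c * H * triY a p| ∧ |c * H * triY a p| ≤ k ^ 3 * H := by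
  obtain ⟨a1, a2⟩ := tri_y k2 T0 hp
  rw [abs_mul, abs_mul, abs_of_pos (by linarith : 0 < H)]
  constructor
  · calc _ = 1 / k * H * (1 / k) := by field_simp
      _ ≤ _ := by gcongr
  · calc _ ≤ k * H * k ^ 2 := by gcongr
      _ = _ := by ring

end

lemma tri_card {E : Finset (ℝ × ℝ)} {T k H a c : ℝ} (k2 : 2 ≤ k) (T0 : 0 < T) (H1 : 1 ≤ H)
    (c2 : |c| ≤ k) (o : ∀ p ∈ E, TriOk T k a p) (g : ℝ × ℝ → ℤ)
    (hg : ∀ p ∈ E, c * H * triY a p - 2 ≤ g p ∧ g p ≤ c * H * triY a p)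
    (h : #(E.image fun p => ⌊H * Real.log ((a - p.1) / (a - p.2))⌋) ≤ k * √H) :
    #(E.image g) ≤ k ^ 9 * √H := by
  refine (tri_cell E _ g (M := k ^ 6 + 2) (by positivity) fun p hp q hq e => ?_).trans
    ((mul_le_mul h (d := k ^ 8) ?_ (by positivity) (by positivity)).trans_eq (by ring))
  · have : |c * H * triY a p - c * H * triY a q| ≤ k ^ 6 := by
      rw [← mul_sub, abs_mul, abs_mul, abs_of_pos (by linarith : 0 < H)]
      calc _ ≤ k * H * (k ^ 5 / H) := by gcongr; exact tri_cl k2 T0 (o p hp) (o q hq) H1 e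
        _ = _ := by field_simp
    rw [abs_le] at this ⊢
    constructor <;> linarith [hg p hp, hg q hq]
  · have := pow_le_pow_left₀ zero_le_two k2 6
    have := pow_le_pow_left₀ zero_le_two k2 2
    nlinarith

theorem tri (hb : BsgSt) (hs : SpzSt) : TriSt := by
  obtain ⟨c, hc⟩ := tri_comb hb hs
  refine ⟨c * 2 + 3, fun W E a T H k k2 H1 T0 hW hF hE ha hf hp hN hc' => ?_⟩
  have k1 : 1 ≤ k := by linarith
  rcases le_total H (k ^ 3) with u | u
  · exact u.trans (pow_le_pow_right₀ k1 (by omega))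
  have k3 : 8 ≤ k ^ 3 := by linarith [pow_le_pow_left₀ zero_le_two k2 3]
  have o : ∀ i, ∀ p ∈ E, TriOk T k (a i) p := fun i p e =>
    ⟨ha i _ (mem_product.1 (hE e)).1, ha i _ (mem_product.1 (hE e)).2, hp p e⟩
  obtain ⟨p0, e0⟩ : E.Nonempty := card_pos.1 (Nat.cast_pos.1 (lt_of_lt_of_le (by positivity) hN))
  have cf : ∀ i j, i ≠ j → 1 / k ≤ |(a i - a j) / T| ∧ |(a i - a j) / T| ≤ k := fun i j e => by
    rw [abs_div, abs_of_pos T0, le_div_iff₀ T0, div_le_iff₀ T0, one_div_mul_eq_div]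
    exact ⟨hf i j e, abs_le.2 ⟨by linarith [(o i p0 e0).1, (o j p0 e0).1], by
      linarith [(o i p0 e0).1, (o j p0 e0).1]⟩⟩
  have c0 := cf 1 2 (by decide)
  have c1 := cf 2 0 (by decide)
  have m2 : √(T / H) ^ 2 = T / H := Real.sq_sqrt (by positivity)
  have n2 : √H ^ 2 = H := Real.sq_sqrt (by positivity)
  have mn : √(T / H) * √H = √T := by rw [← Real.sqrt_mul (by positivity)]; congr 1; field_simp
  have fl : ∀ t : ℝ, t - 1 ≤ ⌊t⌋ ∧ ⌊t⌋ ≤ t := fun t => ⟨(Int.sub_one_lt_floor t).le, Int.floor_le t⟩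
  have i1 : ∀ i c, 1 / k ≤ |c| → ∀ p ∈ E, ∀ q ∈ E, p.2 = q.2 → |p.1 - q.1| ≤ k ^ 3 *
      (|(⌊c * H * triY (a i) p⌋ : ℝ) - ⌊c * H * triY (a i) q⌋| + 1) * √(T / H) ^ 2 :=
    fun i c c1 p e q e' w => (tri_i1 k2 T0 (o i p e) (o i q e') w).trans
      ((mul_le_mul_of_nonneg_left (tri_fl k2 H1 c1) (by positivity)).trans_eq (by rw [m2]; ring))
  have v0 := fun p e => tri_V k2 T0 (o 0 p e) H1 c0.1 c0.2
  have v1 := fun p e => tri_V k2 T0 (o 1 p e) H1 c1.1 c1.2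
  have := hc W E k √(T / H) √H (fun p => ⌊(a 1 - a 2) / T * H * triY (a 0) p⌋)
    (fun p => ⌊(a 2 - a 0) / T * H * triY (a 1) p⌋) (fun B s ρ ρ1 h => ?_) hE k2 (by positivity)
    (Real.one_le_sqrt.2 H1) (by rwa [mul_assoc, mn]) (fun p e q e' w => ⟨i1 0 _ c0.1 p e q e' w,
      i1 1 _ c1.1 p e q e' w, (tri_det (by unfold triY; rw [w]; ring) (v0 p e).2 (v1 p e).2
        (v0 q e').2 (v1 q e').2).trans (by
          have := mul_le_mul k3 H1 zero_le_one (by positivity)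
          rw [n2, show k ^ 6 * H = k ^ 3 * (k ^ 3 * H) by ring]
          nlinarith)⟩) (fun p e q e' w w' => ?_)
    (by rwa [mn, Real.sq_sqrt T0.le])
    (tri_card k2 T0 H1 c0.2 (o 0) _ (fun p _ => ⟨le_trans (by linarith) (fl _).1, (fl _).2⟩) (hc' 0))
    (tri_card k2 T0 H1 c1.2 (o 1) _ (fun p _ => ⟨le_trans (by linarith) (fl _).1, (fl _).2⟩) (hc' 1))
    (tri_card k2 T0 H1 (cf 1 0 (by decide)).2 (o 2) _ (fun p e => ?_) (hc' 2)) fun p e => ?_
  · rw [← n2, pow_add, pow_mul]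
    exact (pow_le_pow_left₀ (by positivity) this 2).trans (le_mul_of_one_le_right (by positivity)
      (by linarith))
  · rcases B.eq_empty_or_nonempty with rfl | ⟨t, ht⟩
    · simp; positivity
    have := (hF ((ρ * √(T / H)) ^ 2) (by
      rw [mul_pow, m2]; exact le_mul_of_one_le_left (by positivity) (one_le_pow₀ ρ1)))
    rw [Real.sqrt_sq (by positivity), ← mul_assoc,
      ← mul_div_cancel₀ ((ρ * √(T / H)) ^ 2) two_ne_zero] at this
    exact this.near s (c := t) fun v hv => by linarith [h v hv t ht]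
  · refine (tri_i2 k2 T0 (o 0 p e) (o 0 q e') (hf 0 1 (by decide)) (r := k / H)
      (by simpa [w] using tri_fl (a := a 0) (p := p) (q := q) k2 H1 c0.1)
      (by simpa [w'] using tri_fl (a := a 1) (p := p) (q := q) k2 H1 c1.1)).trans_eq ?_
    rw [m2]; ring
  · have : (a 1 - a 0) / T * H * triY (a 2) p = (a 1 - a 2) / T * H * triY (a 0) p +
        (a 2 - a 0) / T * H * triY (a 1) p := by unfold triY; ring
    push_cast
    constructor <;> linarith [fl ((a 1 - a 2) / T * H * triY (a 0) p),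
      fl ((a 2 - a 0) / T * H * triY (a 1) p)]
  · have f := fl ((a 2 - a 0) / T * H * triY (a 1) p)
    have g := abs_abs_sub_abs_le_abs_sub (⌊(a 2 - a 0) / T * H * triY (a 1) p⌋ : ℝ)
      ((a 2 - a 0) / T * H * triY (a 1) p)
    have g := abs_le.1 (g.trans (abs_le.2 ⟨by linarith, by linarith⟩ : _ ≤ (1 : ℝ)))
    have x1 : 1 ≤ H / k ^ 3 := (one_le_div (by positivity)).2 u
    have x2 : H / k ^ 2 = k * (H / k ^ 3) := by field_simp
    rw [n2]
    constructor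
    · nlinarith [(v1 p e).1]
    · nlinarith [(v1 p e).2, mul_le_mul k3 H1 zero_le_one (by positivity)]

end Pool.Agent.Lib.MP_a93a41_nt.TH
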