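import Pool.Agent.Lib.MP_a93a41_nt.THTool
import Pool.Agent.Lib.MP_a93a41_nt.THOsc
import Pool.Agent.Lib.MP_a93a41_nt.THBsg
import Pool.Agent.Lib.MP_a93a41_nt.THSy2
import Pool.Agent.Lib.MP_a93a41_nt.THTri
import Pool.Agent.Lib.MP_a93a41_nt.THLin
import Pool.Agent.Lib.MP_a93a41_nt.THS3
import Pool.Agent.Lib.MP_a93a41_nt.THCore
import Pool.Agent.Lib.MP_a93a41_nt.THKer
import Pool.Agent.Lib.MP_a93a41_nt.THStir
import Pool.Agent.Lib.MP_a93a41_nt.THPt
import Pool.Agent.Lib.MP_a93a41_nt.THConc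
import Pool.Agent.Lib.MP_a93a41_nt.THR3
import Pool.Agent.Lib.MP_a93a41_nt.THMain

namespace Pool.Agent.Lib.MP_a93a41_nt.TH

theorem core_all : CoreSt :=
  core uni (s4 hs lv lip (sq hs) far (s3 lv lip (sq hs))) (lin hs lv (tri bsg spy))

theorem dy_all : DySt :=
  dy (r3 core_all (hm hs ker (triv zt_ok)) (bil zt_ok stir) (triv zt_ok) (mv (ls hs))
    (conc (ls hs) (mv (ls hs)))) (hm hs ker (triv zt_ok)) (pt zt_ok) (mv (ls hs))

theorem main_all : MainSt := main dy_all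

end Pool.Agent.Lib.MP_a93a41_nt.TH
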