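import Pool.Agent.Lib.MP_a93a41_nt.THLs
import Pool.Agent.Lib.MP_a009d0_nt.KL

/-! Sets of large values covered by few cells. -/

namespace Pool.Agent.Lib.MP_a93a41_nt.TH

open Finset Complex
open scoped Real ComplexConjugate
open MP_a009d0_nt (ee kusmin_Ico exists_Ico)

lemma conc_log {x : ℝ} (h : 0 < x) :
    1 / (x + 1) ≤ Real.log (x + 1) - Real.log x ∧ Real.log (x + 1) - Real.log x ≤ 1 / x := by
  have a := Real.log_le_sub_one_of_pos (x := x / (x + 1)) (by positivity)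
  have b := Real.log_le_sub_one_of_pos (x := (x + 1) / x) (by positivity)
  rw [Real.log_div (by positivity) (by positivity), div_sub_one (by positivity)] at a b
  constructor <;> ring_nf at * <;> linarith

lemma conc_fl {L x : ℝ} (hL : 0 < L) : ⌊x / L⌋ * L ≤ x ∧ x < ⌊x / L⌋ * L + L :=
  ⟨(le_div_iff₀ hL).1 (Int.floor_le _), by
    have := (div_lt_iff₀ hL).1 (Int.lt_floor_add_one (x / L)); linarith⟩

lemma conc_cell {N : ℕ} {L T τ : ℝ} {j : ℤ} (hL : 1 ≤ L) (hN : 16 * L ≤ N) (NT : N ≤ T) (Lτ : L ≤ τ)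
    (τT : τ ≤ T) (h : ∀ M : ℤ, 1 ≤ M → M ≤ T / N → 3 * (M * L) < |j * L * M - τ / (2 * π)|) :
    ‖∑ n ∈ (Ico N (2 * N)).filter fun n : ℕ => ⌊n / L⌋ = j, ex (-(τ * Real.log n))‖ ≤ 60 * N / L := by
  have L0 : 0 < L := by linarith
  have N0 : (0 : ℝ) < N := by linarith
  rcases ((Ico N (2 * N)).filter fun n : ℕ => ⌊n / L⌋ = j).eq_empty_or_nonempty with e | ⟨n0, h0⟩
  · rw [e]; simp; positivity
  have c : ∀ n ∈ (Ico N (2 * N)).filter fun n : ℕ => ⌊n / L⌋ = j,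
      (N : ℝ) ≤ n ∧ (n : ℝ) ≤ 2 * N ∧ j * L ≤ n ∧ n < j * L + L := fun n hn => by
    simp only [mem_filter, mem_Ico] at hn
    exact ⟨by exact_mod_cast hn.1.1, by exact_mod_cast hn.1.2.le, hn.2 ▸ conc_fl L0⟩
  obtain ⟨a, b, hab⟩ := exists_Ico ((Ico N (2 * N)).filter fun n : ℕ => ⌊n / L⌋ = j) (by
    intro a ha c hc b h1 h2
    simp only [mem_filter, mem_Ico] at ha hc ⊢
    exact ⟨by omega, le_antisymm (hc.2 ▸ Int.floor_mono (by gcongr))
      (ha.2 ▸ Int.floor_mono (by gcongr))⟩)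
  obtain ⟨c1, c2, c3, c4⟩ := c n0 h0
  have π3 := Real.pi_gt_three
  have π4 := Real.pi_le_four
  obtain ⟨σ, hσ⟩ : ∃ σ, σ = τ / (2 * π) := ⟨_, rfl⟩
  have s1 : σ * (2 * π) = τ := by rw [hσ]; field_simp
  have s0 : 0 < σ := by rw [hσ]; have : 0 < τ := by linarith
                        positivity
  rw [← hσ] at h
  obtain ⟨δ, hδ⟩ : ∃ δ, δ = L / (20 * N) := ⟨_, rfl⟩
  have d1 : δ * (20 * N) = L := by rw [hδ]; field_simp
  have d0 : 0 < δ := by rw [hδ]; positivity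
  generalize j * L = p at *
  have p0 : 0 < p := by linarith
  set m := ⌊σ / (p + 2 * L) - δ⌋
  have m1 : (m : ℝ) ≤ _ := Int.floor_le (σ / (p + 2 * L) - δ)
  have m2 : _ < (m : ℝ) + 1 := Int.lt_floor_add_one (σ / (p + 2 * L) - δ)
  have m3 : σ / p + δ ≤ m + 1 := by
    by_contra u
    have q1 : δ * (p + 2 * L) ≤ L / 8 := by nlinarith
    have q2 : δ ≤ σ / (p + 2 * L) := by rw [le_div_iff₀ (by positivity)]; nlinarith
    have q3 : 1 ≤ m + 1 := by
      have : (0 : ℝ) < m + 1 := by linarith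
      norm_cast at this
    have q4 : (1 : ℝ) ≤ m + 1 := by exact_mod_cast q3
    have q5 : σ / p ≤ T / N / 2 := by
      rw [div_div, div_le_div_iff₀ p0 (by positivity)]
      have : 6 * σ ≤ T := by nlinarith
      nlinarith
    have q6 : 1 ≤ T / N := (one_le_div N0).2 NT
    have q7 : δ ≤ 1 / 2 := by nlinarith
    have := h (m + 1) q3 (by push_cast; linarith)
    rw [sub_lt_iff_lt_add, div_lt_iff₀ (by positivity)] at m2
    rw [not_le, ← sub_lt_iff_lt_add, lt_div_iff₀ p0] at u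
    push_cast at this
    refine this.not_ge (abs_le.2 ⟨?_, ?_⟩) <;> nlinarith
  have e : ∀ n : ℕ, ex (-(τ * Real.log n)) = ee (-(σ * Real.log n)) := fun n => by
    rw [ex, ee, ← s1]; congr 3; ring
  simp only [e]
  rw [hab] at c ⊢
  refine (kusmin_Ico _ (-(m + 1)) d0 a b (fun n hn => ?_) fun n hn => ?_).trans (le_of_eq ?_)
  · obtain ⟨c1, c2, c3, c4⟩ := c n hn
    obtain ⟨l1, l2⟩ := conc_log (x := n) (by linarith)
    have u1 : σ / (p + 2 * L) ≤ σ * (1 / (n + 1)) := by rw [mul_one_div]; gcongr σ / ?_; linarith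
    have u2 : σ * (1 / n) ≤ σ / p := by rw [mul_one_div]; gcongr
    push_cast
    constructor <;> nlinarith
  · obtain ⟨c1, -⟩ := c n hn
    have l1 := (conc_log (x := n) (by linarith)).1
    have l2 := (conc_log (x := n + 1) (by linarith)).2
    rw [add_assoc, one_add_one_eq_two] at l2
    push_cast
    nlinarith
  · rw [hδ]; field_simp; ring

lemma conc_far {N : ℕ} {L T τ : ℝ} {B : Finset ℤ} (hL : 1 ≤ L) (hN : 16 * L ≤ N) (NT : N ≤ T)
    (Lτ : L ≤ τ) (τT : τ ≤ T)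
    (h : ∀ j ∉ B, ∀ M : ℤ, 1 ≤ M → M ≤ T / N → 3 * (M * L) < |j * L * M - τ / (2 * π)|) :
    ‖∑ n ∈ (Ico N (2 * N)).filter fun n : ℕ => ⌊n / L⌋ ∉ B, ex (-(τ * Real.log n))‖ ≤
      180 * N ^ 2 / L ^ 2 := by
  have L0 : 0 < L := by linarith
  rw [← sum_fiberwise_of_maps_to (t := Icc 0 ⌊2 * N / L⌋ \ B) (g := fun n : ℕ => ⌊n / L⌋)
    fun n hn => by
      simp only [mem_filter, mem_Ico, mem_sdiff, mem_Icc] at hn ⊢
      have : (n : ℝ) ≤ 2 * N := by exact_mod_cast hn.1.2.le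
      exact ⟨⟨Int.floor_nonneg.2 (by positivity), Int.floor_mono (by gcongr)⟩, hn.2⟩]
  refine (norm_sum_le _ _).trans ((sum_le_card_nsmul _ _ (60 * N / L) fun j hj => ?_).trans ?_)
  · rw [filter_filter, filter_congr (q := fun n : ℕ => ⌊n / L⌋ = j) fun n _ =>
      ⟨fun h => h.2, fun h => ⟨h ▸ (mem_sdiff.1 hj).2, h⟩⟩]
    exact conc_cell hL hN NT Lτ τT (h j (mem_sdiff.1 hj).2)
  · have a : (#(Icc 0 ⌊2 * N / L⌋) : ℤ) = ⌊2 * N / L⌋ + 1 - 0 :=
      Int.card_Icc_of_le _ _ (by have := Int.floor_nonneg.2 (by positivity : 0 ≤ 2 * N / L); omega)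
    have a : (#(Icc 0 ⌊2 * N / L⌋) : ℝ) = ⌊2 * N / L⌋ + 1 - 0 := by exact_mod_cast a
    have b : (#(Icc 0 ⌊2 * N / L⌋ \ B) : ℝ) ≤ #(Icc 0 ⌊2 * N / L⌋) := by gcongr; exact sdiff_subset
    have c := Int.floor_le (2 * N / L)
    have d : 1 ≤ N / L := (one_le_div L0).2 (by linarith)
    rw [nsmul_eq_mul, show 180 * N ^ 2 / L ^ 2 = 3 * (N / L) * (60 * N / L) by ring]
    gcongr
    linarith [mul_div_assoc 2 (N : ℝ) L]

lemma conc_form (G : Finset ℕ) (S : Finset ℝ) {v : ℝ → ℂ} (hv : U1 v) (c : ℝ → ℤ) {E : ℝ}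
    (E0 : 0 ≤ E) (h : ∀ t ∈ S, ∀ s ∈ S, c s ≠ c t → ‖∑ n ∈ G, ex (-((t - s) * Real.log n))‖ ≤ E) :
    ∑ n ∈ G, ‖∑ t ∈ S, v t * ex (-(t * Real.log n))‖ ^ 2 ≤ ∑ i ∈ S.image c,
      ∑ n ∈ G, ‖∑ t ∈ S with c t = i, v t * ex (-(t * Real.log n))‖ ^ 2 + #S * (#S * E) := by
  set K : ℝ → ℝ → ℂ := fun t s => v t * conj (v s) * ∑ n ∈ G, ex (-((t - s) * Real.log n))
  have f : ∀ W : Finset ℝ, ((∑ n ∈ G, ‖∑ t ∈ W, v t * ex (-(t * Real.log n))‖ ^ 2 : ℝ) : ℂ) =
      ∑ t ∈ W, ∑ s ∈ W, K t s := fun W => by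
    simp only [ofReal_sum, ls_sq, K, mul_sum]
    rw [sum_comm]
    exact sum_congr rfl fun _ _ => sum_comm
  rw [← sub_le_iff_le_add']
  refine (le_abs_self _).trans ?_
  rw [← Real.norm_eq_abs, ← norm_real, ofReal_sub, f, ofReal_sum]
  simp only [f]
  have g : ∑ i ∈ S.image c, ∑ t ∈ S with c t = i, ∑ s ∈ S with c s = i, K t s =
      ∑ t ∈ S, ∑ s ∈ S with c s = c t, K t s := by
    rw [← sum_fiberwise_of_maps_to (s := S) fun t ht => mem_image_of_mem c ht]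
    exact sum_congr rfl fun i _ => sum_congr rfl fun t ht => by rw [(mem_filter.1 ht).2]
  rw [g, ← sum_sub_distrib]
  refine (norm_sum_le _ _).trans ((sum_le_card_nsmul _ _ (#S * E) fun t ht => ?_).trans (by simp))
  rw [← sum_filter_add_sum_filter_not S fun s => c s = c t, add_sub_cancel_left]
  refine (norm_sum_le _ _).trans ((sum_le_card_nsmul _ _ E fun s hs => ?_).trans ?_)
  · rw [norm_mul, norm_mul, norm_conj]
    exact (mul_le_of_le_one_left (norm_nonneg _) (mul_le_one₀ (hv t) (norm_nonneg _) (hv s))).trans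
      (h t ht s (mem_filter.1 hs).1 (mem_filter.1 hs).2)
  · rw [nsmul_eq_mul]; gcongr; exact filter_subset _ _

lemma conc_cnt {L : ℝ} (hL : 1 ≤ L) (s : Finset ℕ) (j : ℤ) :
    (#(s.filter fun n : ℕ => ⌊n / L⌋ = j) : ℝ) ≤ 2 * L := by
  rcases (s.filter fun n : ℕ => ⌊n / L⌋ = j).eq_empty_or_nonempty with e | e
  · rw [e]; simp; linarith
  have L0 : 0 < L := by linarith
  obtain ⟨m, hm, h⟩ := exists_min_image _ id e
  refine le_trans (Nat.cast_le.2 (card_le_card (t := Icc m (m + ⌊L⌋₊)) fun n hn =>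
    mem_Icc.2 ⟨h _ hn, ?_⟩)) ?_
  · have a := (conc_fl (x := n) L0).2
    have b := (conc_fl (x := m) L0).1
    rw [(mem_filter.1 hn).2] at a
    rw [(mem_filter.1 hm).2] at b
    rw [add_comm, ← Nat.floor_add_natCast L0.le]
    exact Nat.le_floor (by linarith)
  · rw [Nat.card_Icc, add_assoc, add_tsub_cancel_left]
    push_cast
    linarith [Nat.floor_le L0.le]

theorem conc (ls : LsSt) (mv : MvSt) : ConcSt := by
  obtain ⟨C1, h1⟩ := ls
  obtain ⟨C2, c2, h2⟩ := mv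
  have c1 := abs_nonneg C1
  refine ⟨1440 + 144 * C2 + 32 * |C1|, by linarith,
    fun N a T V L S hL hN NT V0 ⟨ha, hS, hV⟩ hC => ?_⟩
  have L0 : 0 < L := by linarith
  have N0 : (0 : ℝ) < N := by linarith
  have N1 : 1 ≤ N := Nat.cast_pos.1 N0
  have T1 : 1 ≤ T := by linarith
  have l0 := Real.log_nonneg T1
  have π3 := Real.pi_gt_three
  set I := S.image fun t => ⌊t / L⌋
  set x : (ℤ × ℤ) × ℤ → ℝ := fun q => (q.1.1 - q.1.2) / (2 * π * q.2)
  set B := ((I ×ˢ I) ×ˢ Icc 1 ⌊T / N⌋).biUnion fun q => Icc (⌊x q⌋ - 4) (⌊x q⌋ + 4)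
  have cB : (#B : ℝ) ≤ (#I : ℝ) ^ 2 * (T / N) * 9 := by
    refine (Nat.cast_le.2 (card_biUnion_le_card_mul _ _ 9 fun q _ => by simp; omega)).trans ?_
    have : ((⌊T / N⌋.toNat : ℤ) : ℝ) = ⌊T / N⌋ := by
      rw [Int.toNat_of_nonneg (Int.floor_nonneg.2 (by positivity))]
    simp only [card_product, Int.card_Icc, add_sub_cancel_right, sq]
    push_cast at this ⊢
    gcongr
    exact this ▸ Int.floor_le _
  set b : ℕ → ℂ := fun n => if ⌊n / L⌋ ∈ B then a n else 0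
  set G := (Ico N (2 * N)).filter fun n : ℕ => ⌊n / L⌋ ∉ B
  set D : ℝ → ℂ := fun t => ∑ n ∈ G, a n * ex (-(t * Real.log n))
  have e : ∀ t, DP N a t = DP N b t + D t := fun t => by
    simp only [DP, b, ite_mul, zero_mul, ← sum_filter]
    exact (sum_filter_add_sum_filter_not _ _ _).symm
  have hb : #(S.filter fun t => V / 2 ≤ ‖DP N b t‖) * (V / 2) ^ 2 ≤
      C2 * (T + T) * (1 + Real.log T) * ((#I : ℝ) ^ 2 * (T / N) * 9 * (2 * L)) := by
    refine le_trans ?_ ((h2 N _ b T N1 T1 (hS.mono (filter_subset (fun t => V / 2 ≤ ‖DP N b t‖) _))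
      fun t ht => ⟨(hV t (mem_filter.1 ht).1).1, (hV t (mem_filter.1 ht).1).2.1⟩).trans ?_)
    · rw [← nsmul_eq_mul]
      exact card_nsmul_le_sum _ _ _ fun t ht => by gcongr; exact (mem_filter.1 ht).2
    gcongr
    calc _ ≤ ∑ j ∈ B, ∑ n ∈ (Ico N (2 * N)).filter fun n : ℕ => ⌊n / L⌋ = j, (1 : ℝ) := by
          rw [sum_fiberwise_eq_sum_filter, sum_filter]
          refine sum_le_sum fun n _ => ?_
          simp only [b]
          split_ifs
          exacts [pow_le_one₀ (norm_nonneg _) (ha n), by simp]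
      _ ≤ _ := (sum_le_card_nsmul _ _ (2 * L) fun j _ => by simpa using conc_cnt hL _ j).trans (by
          rw [nsmul_eq_mul]; gcongr)
  have far : ∀ t ∈ S, ∀ s ∈ S, L ≤ t - s →
      ‖∑ n ∈ G, ex (-((t - s) * Real.log n))‖ ≤ 180 * N ^ 2 / L ^ 2 := fun t ht s hs h =>
    conc_far hL hN NT h (by linarith [(hV t ht).2.1, (hV s hs).1]) fun j hj M M1 M2 => by
      by_contra u
      refine hj (mem_biUnion.2 ⟨((⌊t / L⌋, ⌊s / L⌋), M), mem_product.2 ⟨mem_product.2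
        ⟨mem_image.2 ⟨t, ht, rfl⟩, mem_image.2 ⟨s, hs, rfl⟩⟩, mem_Icc.2 ⟨M1, Int.le_floor.2 M2⟩⟩, ?_⟩)
      have M1 : (1 : ℝ) ≤ M := by exact_mod_cast M1
      obtain ⟨u1, u2⟩ := abs_le.1 (not_lt.1 u)
      rw [le_sub_comm, div_le_iff₀ (by positivity)] at u1
      rw [sub_le_comm, le_div_iff₀ (by positivity)] at u2
      obtain ⟨a1, a2⟩ := conc_fl (x := t) L0
      obtain ⟨a3, a4⟩ := conc_fl (x := s) L0
      have k : L ≤ M * L * (2 * π) := by nlinarith [mul_le_mul M1 π3.le (by norm_num) (by linarith)]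
      rw [mem_Icc, sub_le_iff_le_add, ← sub_le_iff_le_add (a := j), Int.le_floor,
        ← Int.lt_add_one_iff, Int.floor_lt]
      simp only [x]
      rw [div_lt_iff₀ (by positivity), le_div_iff₀ (by positivity)]
      push_cast
      constructor
      · refine lt_of_mul_lt_mul_right ?_ L0.le; nlinarith
      · refine le_of_mul_le_mul_right ?_ L0; nlinarith
  have good : ∀ r : ℤ, #(S.filter fun t => V / 2 ≤ ‖D t‖ ∧ ⌊t / L⌋ % 2 = r) * V ^ 2 ≤
      16 * |C1| * N ^ 2 * (1 + Real.log T) := fun r => by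
    set W := S.filter fun t => V / 2 ≤ ‖D t‖ ∧ ⌊t / L⌋ % 2 = r
    set v : ℝ → ℂ := fun t => conj (D t) / (‖D t‖ : ℝ)
    have v1 : U1 v := fun t => by simp [v, div_self_le_one]
    have v2 : ∑ t ∈ W, v t * D t = (∑ t ∈ W, ‖D t‖ : ℝ) := by
      push_cast
      refine sum_congr rfl fun t _ => ?_
      rw [div_mul_eq_mul_div, conj_mul', sq, mul_self_div_self]
    have g1 : (#W * (V / 2)) ^ 2 ≤ ‖∑ t ∈ W, v t * D t‖ ^ 2 := by
      rw [v2, norm_real, Real.norm_of_nonneg (by positivity)]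
      gcongr
      rw [← nsmul_eq_mul]
      exact card_nsmul_le_sum _ _ _ fun t ht => (mem_filter.1 ht).2.1
    have g2 : ∑ n ∈ G, ‖a n‖ ^ 2 ≤ N :=
      (sum_le_card_nsmul _ _ 1 fun n _ => pow_le_one₀ (norm_nonneg _) (ha n)).trans (by
        rw [nsmul_one, Nat.cast_le]
        exact (card_filter_le _ _).trans (by simp; omega))
    have w : ∀ t ∈ W, ∀ s ∈ W, ⌊s / L⌋ < ⌊t / L⌋ → L ≤ t - s := fun t ht s hs h => by
      have : ⌊s / L⌋ + 2 ≤ ⌊t / L⌋ := by
        have := (mem_filter.1 ht).2.2; have := (mem_filter.1 hs).2.2; omega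
      have : (⌊s / L⌋ : ℝ) + 2 ≤ ⌊t / L⌋ := by exact_mod_cast this
      nlinarith [(conc_fl (x := t) L0).1, (conc_fl (x := s) L0).2]
    have g3 := conc_form G W v1 (fun t => ⌊t / L⌋) (E := 180 * N ^ 2 / L ^ 2) (by positivity)
      fun t ht s hs h => by
        rcases h.lt_or_gt with h | h
        · exact far t (filter_subset _ _ ht) s (filter_subset _ _ hs) (w t ht s hs h)
        · rw [← norm_conj, map_sum]
          simpa only [conj_ex, ← neg_mul, neg_sub] using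
            far s (filter_subset _ _ hs) t (filter_subset _ _ ht) (w s hs t ht h)
    have g4 : ∑ i ∈ W.image fun t => ⌊t / L⌋, ∑ n ∈ G,
        ‖∑ t ∈ W with ⌊t / L⌋ = i, v t * ex (-(t * Real.log n))‖ ^ 2 ≤
        |C1| * (N + N) * (1 + Real.log T) * #W := by
      rw [card_eq_sum_card_image (fun t => ⌊t / L⌋) W, Nat.cast_sum, mul_sum]
      refine sum_le_sum fun i _ => (sum_le_sum_of_subset_of_nonneg (filter_subset _ _)
        fun _ _ _ => sq_nonneg _).trans ((h1 N _ v (i * L) L N1 hL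
          (hS.mono ((filter_subset _ _).trans (filter_subset _ _))) fun t ht => ?_).trans ?_)
      · rw [← (mem_filter.1 ht).2]
        exact ⟨(conc_fl L0).1, (conc_fl L0).2.le⟩
      have := Real.log_nonneg hL
      gcongr
      · exact le_abs_self _
      · linarith
      · linarith
      · exact (sum_le_card_nsmul _ _ 1 fun n _ => pow_le_one₀ (norm_nonneg _) (v1 n)).trans
          (by rw [nsmul_one])
    have g5 := g1.trans ((ls_dual G a W v).trans (mul_le_mul g2 (g3.trans (add_le_add_left g4 _))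
      (sum_nonneg fun _ _ => sq_nonneg _) N0.le))
    have g6 : N * (180 * N ^ 2 / L ^ 2) ≤ V ^ 2 / 8 := by
      rw [← mul_div_assoc, div_le_iff₀ (by positivity)]
      nlinarith [mul_nonneg (by linarith : 0 ≤ 144 * C2 + 32 * |C1|) (pow_pos N0 3).le]
    rcases (Nat.cast_nonneg (α := ℝ) #W).eq_or_lt with h | h
    · rw [← h, zero_mul]; positivity
    refine le_of_mul_le_mul_left ?_ h
    nlinarith [mul_le_mul_of_nonneg_left g6 (sq_nonneg (#W : ℝ))]
  have cS : (#S : ℝ) ≤ #(S.filter fun t => V / 2 ≤ ‖DP N b t‖) +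
      (#(S.filter fun t => V / 2 ≤ ‖D t‖ ∧ ⌊t / L⌋ % 2 = 0) +
        #(S.filter fun t => V / 2 ≤ ‖D t‖ ∧ ⌊t / L⌋ % 2 = 1)) := by
    norm_cast
    refine (card_le_card fun t ht => ?_).trans ((card_union_le _ _).trans
      (add_le_add_right (card_union_le _ _) _))
    have := (hV t ht).2.2.trans (e t ▸ norm_add_le _ _)
    simp only [mem_union, mem_filter, ht, true_and]
    by_cases h : V / 2 ≤ ‖DP N b t‖
    · exact .inl h
    · have h : V / 2 ≤ ‖D t‖ := by linarith [not_le.1 h]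
      simp only [h, true_and]
      omega
  rw [sq T, mul_div_assoc]
  have y : 0 ≤ (1 + Real.log T) * (T * (T / N) * (#I : ℝ) ^ 2 * L) := by positivity
  have z : 0 ≤ (1 + Real.log T) * N ^ 2 := by positivity
  have := mul_le_mul_of_nonneg_right cS (sq_nonneg V)
  have := good 0
  have := good 1
  have := mul_nonneg c1 y
  have := mul_nonneg (zero_le_one.trans c2) z
  linarith

end Pool.Agent.Lib.MP_a93a41_nt.TH
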