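import Pool.Agent.Lib.MP_a93a41_nt.TH0

/-! The mean value theorem for Dirichlet polynomials and its dual. -/

namespace Pool.Agent.Lib.MP_a93a41_nt.TH

open Finset Complex
open scoped Real ComplexConjugate

lemma ls_sq (W : Finset ℝ) (v : ℝ → ℂ) (u : ℝ) :
    ((‖∑ t ∈ W, v t * ex (-(t * u))‖ ^ 2 : ℝ) : ℂ) =
      ∑ t ∈ W, ∑ s ∈ W, v t * conj (v s) * ex (-((t - s) * u)) := by
  push_cast
  rw [← mul_conj', map_sum, sum_mul_sum]
  refine sum_congr rfl fun t _ => sum_congr rfl fun s _ => ?_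
  rw [map_mul, mul_mul_mul_comm, ex_mul_conj]; congr 2; ring

lemma ls_int (h a b : ℝ) : ‖∫ u in a..b, ex (-(h * u))‖ * |h| ≤ 2 := by
  rcases eq_or_ne h 0 with rfl | h0
  · simp
  have e : ∀ u : ℝ, ex (-(h * u)) = cexp (-h * I * u) := fun u => by
    rw [ex]; congr 1; push_cast; ring
  simp only [e]
  rw [integral_exp_mul_complex (by simp [h0]), norm_div, ← e, ← e]
  simp only [neg_mul, norm_neg, norm_mul, norm_real, norm_I, mul_one, Real.norm_eq_abs]
  rw [div_mul_cancel₀ _ (abs_ne_zero.2 h0)]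
  exact (norm_sub_le _ _).trans (by simp; norm_num)

lemma ls_cont (h : ℝ) : Continuous fun u : ℝ => ex (-(h * u)) := cont_ex.comp (by fun_prop)

lemma ls_ms (hs : HsSt) {W : Finset ℝ} (c : ℝ → ℂ) {x T a b : ℝ} (hT : 1 ≤ T) (hW : Sep W)
    (hx : ∀ t ∈ W, x ≤ t ∧ t ≤ x + T) (ab : a ≤ b) (ba : b ≤ a + 1) :
    ∫ u in a..b, ‖∑ t ∈ W, c t * ex (-(t * u))‖ ^ 2 ≤ 16 * (1 + Real.log T) * ∑ t ∈ W, ‖c t‖ ^ 2 := by
  set g : ℝ → ℝ → ℝ := fun t s => ‖∫ u in a..b, ex (-((t - s) * u))‖
  have g1 : ∀ t s, g t s ≤ 2 := fun t s =>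
    (intervalIntegral.norm_integral_le_of_norm_le_const (C := 1) fun _ _ => by simp).trans (by
      rw [abs_of_nonneg] <;> linarith)
  have d : ∀ t ∈ W, ∀ s ∈ W, |t - s| ≤ T * 1 := fun t ht s h => by
    have := hx t ht; have := hx s h; rw [abs_le]; constructor <;> linarith
  have r : ∀ s ∈ W, ∑ t ∈ W, g t s ≤ 4 * 2 * 2 * (1 + Real.log T) := fun s h =>
    hs W _ s 1 2 T 2 one_pos hT two_pos.le hW.ib fun t ht => ⟨d t ht s h, g1 t s, by
      simpa using ls_int (t - s) a b⟩
  have r' : ∀ t ∈ W, ∑ s ∈ W, g t s ≤ 4 * 2 * 2 * (1 + Real.log T) := fun t h =>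
    hs W _ t 1 2 T 2 one_pos hT two_pos.le hW.ib fun s ht => ⟨d s ht t h, g1 t s, by
      simpa [abs_sub_comm s t] using ls_int (t - s) a b⟩
  have i : ∀ t s, Continuous fun u => c t * conj (c s) * ex (-((t - s) * u)) := fun t s =>
    continuous_const.mul (ls_cont _)
  refine (le_abs_self _).trans ?_
  rw [← Real.norm_eq_abs, ← norm_real, ← intervalIntegral.integral_ofReal]
  simp only [ls_sq]
  rw [intervalIntegral.integral_finsetSum fun t _ =>
    (continuous_finsetSum _ fun s _ => i t s).intervalIntegrable _ _]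
  calc _ ≤ ∑ t ∈ W, ∑ s ∈ W, (‖c t‖ ^ 2 / 2 * g t s + ‖c s‖ ^ 2 / 2 * g t s) := by
        refine (norm_sum_le _ _).trans (sum_le_sum fun t _ => ?_)
        rw [intervalIntegral.integral_finsetSum fun s _ => (i t s).intervalIntegrable _ _]
        refine (norm_sum_le _ _).trans (sum_le_sum fun s _ => ?_)
        rw [intervalIntegral.integral_const_mul, norm_mul, norm_mul, norm_conj, ← add_mul]
        exact mul_le_mul_of_nonneg_right (by nlinarith [sq_nonneg (‖c t‖ - ‖c s‖)]) (norm_nonneg _)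
    _ ≤ ∑ t ∈ W, ‖c t‖ ^ 2 / 2 * (4 * 2 * 2 * (1 + Real.log T)) +
        ∑ t ∈ W, ‖c t‖ ^ 2 / 2 * (4 * 2 * 2 * (1 + Real.log T)) := by
        simp only [sum_add_distrib]
        rw [sum_comm (f := fun t s => ‖c s‖ ^ 2 / 2 * g t s)]
        simp only [← mul_sum]
        gcongr with t h t h
        exacts [r' t h, r t h]
    _ = _ := by rw [← sum_add_distrib, mul_sum]; exact sum_congr rfl fun _ _ => by ring

lemma ls_cs {f : ℝ → ℝ} (hf : Continuous f) {a w m : ℝ} (hw : 0 < w) (h0 : 0 ≤ m)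
    (hm : m ≤ ∫ y in a..a + w, f y) : m ^ 2 ≤ w * ∫ y in a..a + w, f y ^ 2 := by
  have := intervalIntegral.integral_mono_on (μ := MeasureTheory.volume) (a := a) (b := a + w)
    (f := fun y => 2 * m * w * f y - m ^ 2) (g := fun y => w ^ 2 * f y ^ 2) (by linarith)
    (Continuous.intervalIntegrable (by fun_prop) _ _)
    (Continuous.intervalIntegrable (by fun_prop) _ _) fun y _ => by
      nlinarith [sq_nonneg (w * f y - m)]
  rw [intervalIntegral.integral_sub (Continuous.intervalIntegrable (by fun_prop) _ _)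
    (by simp), intervalIntegral.integral_const_mul, intervalIntegral.integral_const_mul] at this
  simp only [intervalIntegral.integral_const, add_sub_cancel_left, smul_eq_mul] at this
  refine le_of_mul_le_mul_left ?_ hw
  nlinarith [mul_le_mul_of_nonneg_left hm (mul_nonneg h0 hw.le)]

theorem ls (hs : HsSt) : LsSt := by
  refine ⟨128, fun N W v x T hN hT hW hx => ?_⟩
  have N1 : (1 : ℝ) ≤ N := by exact_mod_cast hN
  set w : ℝ := 1 / (2 * (N + T)) with hw
  have w0 : 0 < w := by positivity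
  have w1 : w * (2 * (N + T)) = 1 := by rw [hw]; field_simp
  set φ : ℝ → ℂ := fun t => ∫ y in (0 : ℝ)..w, ex (-((t - x) * y))
  have p1 : ∀ t ∈ W, w / 2 ≤ ‖φ t‖ := fun t ht => by
    have : ‖φ t - ∫ _ in (0 : ℝ)..w, ex 0‖ ≤ 1 / 2 * |w - 0| := by
      rw [← intervalIntegral.integral_sub ((ls_cont _).intervalIntegrable _ _) (by simp)]
      refine intervalIntegral.norm_integral_le_of_norm_le_const fun y hy => (ex_sub _ _).trans ?_
      rw [Set.uIoc_of_le w0.le] at hy
      have := hx t ht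
      rw [sub_zero, abs_neg, abs_of_nonneg (mul_nonneg (by linarith) hy.1.le)]
      nlinarith [mul_le_mul (by linarith : t - x ≤ T) hy.2 hy.1.le (by linarith)]
    have := (abs_le.1 ((abs_norm_sub_norm_le _ _).trans this)).1
    simp [abs_of_pos w0] at this
    linarith
  set H : ℝ → ℝ := fun u => ‖∑ t ∈ W, v t / φ t * ex (-(t * u))‖
  have hH : Continuous H := (continuous_finsetSum _ fun t _ => continuous_const.mul (ls_cont _)).norm
  have iH : ∀ a b, IntervalIntegrable (fun u => H u ^ 2) MeasureTheory.volume a b := fun a b =>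
    (hH.pow 2).intervalIntegrable _ _
  have k : ∀ u, ‖∑ t ∈ W, v t * ex (-(t * u))‖ ^ 2 ≤ w * ∫ y in u..u + w, H y ^ 2 := fun u => by
    refine ls_cs hH w0 (norm_nonneg _) ?_
    have : ∑ t ∈ W, v t * ex (-(t * u)) =
        ∫ y in u..u + w, ∑ t ∈ W, v t / φ t * ex (-(t * u)) * ex (-((t - x) * (y - u))) := by
      rw [intervalIntegral.integral_finsetSum fun t _ => Continuous.intervalIntegrable
        (by have := cont_ex; fun_prop) _ _]
      refine sum_congr rfl fun t ht => ?_
      have : φ t ≠ 0 := norm_pos_iff.1 (by linarith [p1 t ht])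
      rw [intervalIntegral.integral_const_mul,
        intervalIntegral.integral_comp_sub_right (fun y => ex (-((t - x) * y)))]
      simp only [sub_self, add_sub_cancel_left]
      change _ = _ * φ t
      field_simp
    rw [this]
    refine (intervalIntegral.norm_integral_le_integral_norm (by linarith)).trans (le_of_eq ?_)
    congr 1; funext y
    rw [← mul_one (H y), ← norm_ex (x * (y - u)), ← norm_mul, sum_mul]
    congr 1
    refine sum_congr rfl fun t _ => ?_
    rw [mul_assoc, mul_assoc, ← ex_add, ← ex_add]; congr 2; ring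
  have l2 : Real.log (2 * N : ℕ) ≤ Real.log N + 1 := by
    push_cast
    rw [Real.log_mul two_ne_zero (by positivity)]
    linarith [Real.log_two_lt_d9]
  calc _ ≤ ∑ n ∈ Ico N (2 * N), w * ∫ y in Real.log n..Real.log (n + 1 : ℕ), H y ^ 2 := by
        refine sum_le_sum fun n hn => (k _).trans (mul_le_mul_of_nonneg_left ?_ w0.le)
        obtain ⟨a, b⟩ := mem_Ico.1 hn
        have a : (N : ℝ) ≤ n := by exact_mod_cast a
        have b : (n : ℝ) + 1 ≤ 2 * N := by exact_mod_cast b
        have n0 : (0 : ℝ) < n := by linarith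
        have c : Real.log n + w ≤ Real.log (n + 1 : ℕ) := by
          have := Real.log_le_sub_one_of_pos (x := n / (n + 1)) (by positivity)
          rw [Real.log_div (by positivity) (by positivity), div_sub_one (by positivity)] at this
          have : w ≤ 1 / (n + 1) := by rw [hw]; gcongr; linarith
          push_cast
          ring_nf at *
          linarith
        exact intervalIntegral.integral_mono_interval le_rfl (by linarith) c
          (.of_forall fun _ => sq_nonneg _) (iH _ _)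
    _ ≤ w * (16 * (1 + Real.log T) * ∑ t ∈ W, ‖v t / φ t‖ ^ 2) := by
        rw [← mul_sum, intervalIntegral.sum_integral_adjacent_intervals_Ico
          (a := fun n : ℕ => Real.log n) (by omega) fun _ _ => iH _ _]
        exact mul_le_mul_of_nonneg_left (ls_ms hs _ hT hW hx (Real.log_le_log (by positivity)
          (by push_cast; linarith)) l2) w0.le
    _ ≤ w * (16 * (1 + Real.log T) * ∑ t ∈ W, (‖v t‖ / (w / 2)) ^ 2) := by
        have := Real.log_nonneg hT
        gcongr with t ht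
        rw [norm_div]; gcongr; exact p1 t ht
    _ = _ := by
        simp only [div_pow, ← sum_div]
        rw [hw]; field_simp; ring

/-- Cauchy-Schwarz on the dual side -/
lemma ls_dual (G : Finset ℕ) (a : ℕ → ℂ) (W : Finset ℝ) (v : ℝ → ℂ) :
    ‖∑ t ∈ W, v t * ∑ n ∈ G, a n * ex (-(t * Real.log n))‖ ^ 2 ≤
      (∑ n ∈ G, ‖a n‖ ^ 2) * ∑ n ∈ G, ‖∑ t ∈ W, v t * ex (-(t * Real.log n))‖ ^ 2 := by
  refine le_trans ?_ (sum_mul_sq_le_sq_mul_sq _ _ _)
  simp only [mul_sum]
  rw [sum_comm]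
  gcongr
  refine (norm_sum_le _ _).trans (sum_le_sum fun n _ => le_of_eq ?_)
  rw [← norm_mul, mul_sum]
  congr 1
  exact sum_congr rfl fun _ _ => by ring

theorem mv (ls : LsSt) : MvSt := by
  obtain ⟨C, hC⟩ := ls
  refine ⟨|C| + 1, by linarith [abs_nonneg C], fun N W a T hN hT hW hx => ?_⟩
  have l := Real.log_nonneg hT
  have h1 := hC N W (fun t => conj (DP N a t)) 0 T hN hT hW (by simpa using hx)
  have h2 := ls_dual (Ico N (2 * N)) a W fun t => conj (DP N a t)
  have e : ∑ t ∈ W, conj (DP N a t) * DP N a t = (∑ t ∈ W, ‖DP N a t‖ ^ 2 : ℝ) := by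
    push_cast; exact sum_congr rfl fun t _ => conj_mul' _
  have X0 : 0 ≤ ∑ t ∈ W, ‖DP N a t‖ ^ 2 := by positivity
  have A0 : 0 ≤ ∑ n ∈ Ico N (2 * N), ‖a n‖ ^ 2 := by positivity
  change ‖∑ t ∈ W, conj (DP N a t) * DP N a t‖ ^ 2 ≤ _ at h2
  rw [e, norm_real, Real.norm_of_nonneg X0] at h2
  simp only [norm_conj] at h1
  rcases X0.eq_or_lt with h | h
  · rw [← h]; positivity
  refine le_of_mul_le_mul_right ?_ h
  rw [← sq]
  refine (h2.trans (mul_le_mul_of_nonneg_left h1 A0)).trans ?_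
  rw [← mul_assoc, mul_comm (∑ n ∈ _, _)]
  gcongr
  linarith [le_abs_self C]

end Pool.Agent.Lib.MP_a93a41_nt.TH
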