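import Pool.Agent.Lib.MP_a93a41_nt.THTri

namespace Pool.Agent.Lib.MP_a93a41_nt.TH

open Finset
open scoped Pointwise

lemma sy_near {Z B : Finset ℤ} {κ c L ρ : ℝ} (h : FrZ Z κ) (s : B ⊆ Z) (r1 : 1 ≤ ρ)
    (hL : 2 * L ≤ ρ ^ 2) (b : ∀ z ∈ B, |(z : ℝ) - c| ≤ L) : (#B : ℝ) ≤ κ * ρ := by
  have := h (c - L) (ρ ^ 2) (one_le_pow₀ r1)
  rw [Real.sqrt_sq (by linarith)] at this
  exact le_trans (Nat.cast_le.2 (card_le_card fun t ht => mem_filter.2 ⟨s ht, by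
    have := abs_le.1 (b t ht); constructor <;> linarith⟩)) this

def Cv {ι : Type*} (D : Finset ℤ) (P : Finset ι) (i : ℕ) (M r : ℝ) (φ : ι → ℝ) : Prop :=
  ∃ F : Finset ℤ, #F ≤ M ^ i ∧ ∀ p ∈ P, ∃ f ∈ F, ∃ d ∈ i • D, |φ p - f - d| ≤ i * r

lemma Cv.add {ι : Type*} {D : Finset ℤ} {P : Finset ι} {i j : ℕ} {M r : ℝ} {φ ψ : ι → ℝ}
    (h : Cv D P i M r φ) (g : Cv D P j M r ψ) : Cv D P (i + j) M r fun p => φ p + ψ p := by
  obtain ⟨F, h1, h2⟩ := h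
  obtain ⟨G, g1, g2⟩ := g
  refine ⟨F + G, le_trans (by exact_mod_cast card_add_le) ((mul_le_mul h1 g1 (by positivity)
    ((Nat.cast_nonneg _).trans h1)).trans_eq (pow_add _ _ _).symm), fun p hp => ?_⟩
  obtain ⟨f, hf, d, hd, a⟩ := h2 p hp
  obtain ⟨f', hf', d', hd', b⟩ := g2 p hp
  refine ⟨_, add_mem_add hf hf', d + d', add_nsmul D i j ▸ add_mem_add hd hd', ?_⟩
  rw [abs_le] at a b ⊢
  push_cast
  constructor <;> linarith [a.1, a.2, b.1, b.2]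

lemma Cv.neg {ι : Type*} {Z : Finset ℤ} {P : Finset ι} {M r : ℝ} {φ : ι → ℝ}
    (h : Cv (Z - Z) P 1 M r φ) : Cv (Z - Z) P 1 M r fun p => -φ p := by
  obtain ⟨F, h1, h2⟩ := h
  refine ⟨-F, by simpa using h1, fun p hp => ?_⟩
  obtain ⟨f, hf, d, hd, a⟩ := h2 p hp
  rw [one_nsmul] at hd ⊢
  obtain ⟨x, hx, y, hy, rfl⟩ := mem_sub.1 hd
  refine ⟨-f, neg_mem_neg hf, y - x, sub_mem_sub hy hx, ?_⟩
  rw [← abs_neg]
  convert a using 2
  push_cast; ring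

lemma Cv.comp {ι κ : Type*} {D : Finset ℤ} {P : Finset ι} {Q : Finset κ} {i : ℕ} {M r : ℝ} {φ : ι → ℝ}
    (h : Cv D P i M r φ) (g : κ → ι) (hg : ∀ q ∈ Q, g q ∈ P) : Cv D Q i M r fun q => φ (g q) :=
  h.imp fun _ h => ⟨h.1, fun q hq => h.2 _ (hg q hq)⟩

/-- collisions -/
noncomputable def Col (A : Finset ℤ) (b t : ℝ) : Finset ((ℤ × ℤ) × ℤ × ℤ) :=
  ((A ×ˢ A) ×ˢ (A ×ˢ A)).filter fun q => |b * (q.1.1 - q.2.1 : ℝ) + (q.1.2 - q.2.2 : ℝ)| ≤ t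

lemma sy_key {Z Z' A : Finset ℤ} {n k β : ℝ} (k2 : 2 ≤ k) (n1 : 1 ≤ n) (hS : #(Z + Z') ≤ k * n)
    (hm : ∀ z ∈ Z', |(z : ℝ)| ≤ k * n ^ 2) (hF : FrZ Z k) (hA : A ⊆ Z') (cA : n / k ^ 8 ≤ #A)
    (cZ : n / k ^ 8 ≤ #Z) (b1 : n ^ 2 / k ≤ |β|) (b2 : |β| ≤ k * n ^ 2) {e1 e2 : ℝ} (e0 : 1 ≤ |e2|)
    (he : |e1| ≤ |e2|)
    (cv : Cv (Z - Z) (A ×ˢ A) 8 (k ^ 9) (3 * k ^ 2) fun p => (e1 * p.1 + e2 * p.2) / β) :
    n ^ 4 ≤ k ^ 278 * √|e2| * #(Col A (e1 / e2) (k * n ^ 2 / |e2|)) := by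
  have k1 : 1 ≤ k := by linarith
  have k0 : 0 < k := by linarith
  have β0 : 0 < |β| := lt_of_lt_of_le (by positivity) b1
  have kp : ∀ a b : ℕ, (2 : ℝ) ^ a * k ^ b ≤ k ^ (a + b) := fun a b => by rw [pow_add]; gcongr
  set g : ℤ × ℤ → ℤ := fun p => ⌊(e1 * p.1 + e2 * p.2) / β⌋
  set O := (A ×ˢ A).image g
  obtain ⟨F, f1, f2⟩ := cv
  have z0 : (0 : ℝ) < #Z' := (show 0 < n / k ^ 8 by positivity).trans_le
    (cA.trans (Nat.cast_le.2 (card_le_card hA)))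
  have pl : (#(9 • Z - 8 • Z) : ℝ) ≤ (k ^ 9) ^ 17 * (k * n) := by
    have a := pluennecke_ruzsa_inequality_nsmul_sub_nsmul_add (card_pos.1 (by exact_mod_cast z0)) Z 9 8
    have b : (#(9 • Z - 8 • Z) : ℝ) ≤ (#(Z' + Z) / #Z') ^ (9 + 8) * #Z' := by
      have := (NNRat.cast_le (K := ℝ)).2 a
      push_cast at this
      exact this
    obtain ⟨z, hz⟩ : Z.Nonempty := card_pos.1 (by exact_mod_cast (show 0 < n / k ^ 8 by positivity).trans_le cZ)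
    refine b.trans (mul_le_mul (pow_le_pow_left₀ (by positivity) ?_ _)
      (le_trans (by exact_mod_cast card_le_card_add_left ⟨z, hz⟩) hS) z0.le (by positivity))
    rw [div_le_iff₀ z0, add_comm]
    refine hS.trans (le_trans (le_of_eq ?_) (mul_le_mul_of_nonneg_left
      (cA.trans (Nat.cast_le.2 (card_le_card hA))) (by positivity)))
    field_simp
  set R : ℕ := ⌈24 * k ^ 2⌉₊ + 1
  have sub : O + Z ⊆ (F + Icc (-R : ℤ) R) + (9 • Z - 8 • Z) := by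
    rw [show 9 • Z - 8 • Z = 8 • (Z - Z) + Z by rw [nsmul_sub, succ_nsmul Z 8, add_sub_right_comm], ← add_assoc]
    refine add_subset_add_right fun w hw => ?_
    obtain ⟨p, hp, rfl⟩ := mem_image.1 hw
    obtain ⟨f, hf, d, hd, a⟩ := f2 p hp
    refine mem_add.2 ⟨_, add_mem_add hf (mem_Icc.2 (abs_le.1 (show |g p - f - d| ≤ R from ?_))), d, hd, by ring⟩
    have c := Nat.le_ceil (24 * k ^ 2)
    have c1 := Int.floor_le ((e1 * p.1 + e2 * p.2) / β)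
    have c2 := Int.lt_floor_add_one ((e1 * p.1 + e2 * p.2) / β)
    rw [← Int.cast_le (R := ℝ)]
    push_cast [R, g] at a ⊢
    rw [abs_le] at a ⊢
    constructor <;> linarith [a.1, a.2]
  have cI : (#(Icc (-R : ℤ) R) : ℝ) ≤ k ^ 8 := by
    have : #(Icc (-R : ℤ) R) = 2 * R + 1 := by rw [Int.card_Icc]; omega
    rw [this]
    have c := Nat.ceil_lt_add_one (show 0 ≤ 24 * k ^ 2 by positivity)
    push_cast [R]
    linarith [show 2 ^ 6 * k ^ 2 ≤ k ^ 8 from kp 6 2, pow_le_pow_left₀ zero_le_two k2 2]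
  have c1 : (#(O + Z) : ℝ) ≤ k ^ 234 * n := by
    generalize 9 • Z - 8 • Z = U at sub pl
    generalize Icc (-R : ℤ) R = I at sub cI
    have a : #(O + Z) ≤ #F * #I * #U :=
      (card_le_card sub).trans (card_add_le.trans (Nat.mul_le_mul_right _ card_add_le))
    calc _ ≤ (#F : ℝ) * #I * #U := by exact_mod_cast a
      _ ≤ (k ^ 9) ^ 8 * k ^ 8 * ((k ^ 9) ^ 17 * (k * n)) := by gcongr
      _ = _ := by ring
  have s1 : 1 ≤ √|e2| := Real.one_le_sqrt.2 e0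
  have c2 := tri_up (O ×ˢ Z) (fun p => p.1 + p.2) (b := k ^ 4 * √|e2|) fun p _ => by
    rw [← card_image_of_injOn (f := Prod.snd) fun a ha b hb e => Prod.ext (by
      have := (mem_filter.1 ha).2.trans (mem_filter.1 hb).2.symm; omega) e]
    refine (sy_near (c := (p.1 + p.2 : ℤ)) (L := 3 * k ^ 2 * |e2|) (ρ := k ^ 3 * √|e2|) hF
      (image_subset_iff.2 fun q hq => (mem_product.1 (mem_filter.1 hq).1).2)
      (one_le_mul_of_one_le_of_one_le (one_le_pow₀ k1) s1) ?_ fun z hz => ?_).trans_eq (by ring)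
    · rw [mul_pow, Real.sq_sqrt (abs_nonneg _)]
      nlinarith [show 2 ^ 4 * k ^ 2 ≤ k ^ 6 from kp 4 2, sq_nonneg k]
    obtain ⟨q, hq, rfl⟩ := mem_image.1 hz
    obtain ⟨hq, e⟩ := mem_filter.1 hq
    obtain ⟨u, hu, hg⟩ := mem_image.1 (mem_product.1 hq).1
    have a : |(e1 * u.1 + e2 * u.2) / β| ≤ 2 * k ^ 2 * |e2| := by
      rw [abs_div, div_le_iff₀ β0]
      calc _ ≤ |e2| * (k * n ^ 2) + |e2| * (k * n ^ 2) := (abs_add_le _ _).trans (by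
            rw [abs_mul, abs_mul]; gcongr
            exacts [hm _ (hA (mem_product.1 hu).1), hm _ (hA (mem_product.1 hu).2)])
        _ = 2 * k ^ 2 * |e2| * (n ^ 2 / k) := by field_simp; ring
        _ ≤ _ := by gcongr
    have c1 := Int.floor_le ((e1 * u.1 + e2 * u.2) / β)
    have c2 := Int.lt_floor_add_one ((e1 * u.1 + e2 * u.2) / β)
    rw [← e, ← hg]
    push_cast [g]
    rw [abs_le] at a ⊢
    constructor <;> nlinarith [a.1, a.2, one_le_pow₀ k1 (n := 2)]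
  rw [image_add_product, card_product] at c2
  push_cast at c2
  have c3 : (#O : ℝ) ≤ k ^ 246 * √|e2| := by
    refine le_of_mul_le_mul_right ?_ (show 0 < n / k ^ 8 by positivity)
    calc _ ≤ (#O : ℝ) * #Z := by gcongr
      _ ≤ k ^ 234 * n * (k ^ 4 * √|e2|) := c2.trans (by gcongr)
      _ = _ := by field_simp
  have c4 := tri_cs (A ×ˢ A) g O fun p hp => mem_image_of_mem g hp
  have c5 : ((A ×ˢ A) ×ˢ (A ×ˢ A)).filter (fun q => g q.1 = g q.2) ⊆ Col A (e1 / e2) (k * n ^ 2 / |e2|) :=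
    monotone_filter_right _ fun q _ h => by
      have a := Int.abs_sub_lt_one_of_floor_eq_floor h
      have e20 : 0 < |e2| := by linarith
      rw [← sub_div, abs_div, div_lt_one β0] at a
      rw [le_div_iff₀ e20, ← abs_mul]
      refine le_trans (le_of_eq ?_) (a.le.trans b2)
      have := abs_pos.1 e20
      congr 1; field_simp; ring
  rw [card_product] at c4
  push_cast at c4
  calc n ^ 4 = k ^ 32 * (n / k ^ 8 * (n / k ^ 8)) ^ 2 := by field_simp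
    _ ≤ k ^ 32 * (#A * #A) ^ 2 := by gcongr
    _ ≤ k ^ 32 * (k ^ 246 * √|e2| * #(Col A (e1 / e2) (k * n ^ 2 / |e2|))) := by
        gcongr; exact c4.trans (by gcongr)
    _ = _ := by ring

end Pool.Agent.Lib.MP_a93a41_nt.TH
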