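import Pool.Agent.Lib.MP_a93a41_nt.TH0

namespace Pool.Agent.Lib.MP_a93a41_nt.TH

open Finset Complex
open scoped Real ComplexConjugate

lemma tool_harm (x : ℕ) : ∑ k ∈ range x, (1 : ℝ) / (k + 1) ≤ 1 + Real.log x := by
  have := harmonic_le_one_add_log x
  simpa [harmonic] using this

theorem hs : HsSt := by
  intro A g t0 L ν M b hL hM hb hA h
  have n0 := hA.nonneg
  set c : ℝ → ℕ := fun t => ⌊|t - t0| / L⌋₊
  have cl : ∀ i : ℕ, (#(A.filter fun t => c t = i) : ℝ) ≤ 2 * ν := fun i => by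
    rw [two_mul]
    refine le_trans ?_ (add_le_add (hA (t0 + i * L)) (hA (t0 - (i + 1) * L)))
    unfold cnt
    norm_cast
    refine le_trans (card_le_card fun t ht => ?_) (card_union_le _ _)
    simp only [mem_union, mem_filter] at ht ⊢
    have a := (Nat.floor_eq_iff (by positivity)).1 ht.2
    rw [le_div_iff₀ hL, div_lt_iff₀ hL] at a
    push_cast
    rcases abs_cases (t - t0) with e | e
    · exact .inl ⟨ht.1, by linarith [a.1], by linarith [a.2]⟩
    · exact .inr ⟨ht.1, by linarith [a.2], by linarith [a.1]⟩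
  rw [← sum_fiberwise_of_maps_to (g := c) (t := range (⌊M⌋₊ + 1)) fun t ht => mem_range.2
    (Nat.lt_succ_of_le (Nat.floor_mono ((div_le_iff₀ hL).2 (h t ht).1))), sum_range_succ']
  have b0 : ∑ t ∈ A with c t = 0, g t ≤ 2 * ν * b :=
    (sum_le_card_nsmul _ _ b fun t ht => (h t (mem_filter.1 ht).1).2.1).trans (by
      rw [nsmul_eq_mul]; exact mul_le_mul_of_nonneg_right (cl 0) hb)
  have b1 : ∀ i ∈ range ⌊M⌋₊, ∑ t ∈ A with c t = i + 1, g t ≤ 2 * ν * b * (1 / (i + 1)) := fun i _ => by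
    refine (sum_le_card_nsmul _ _ (b * (1 / (i + 1))) fun t ht => ?_).trans (by
      rw [nsmul_eq_mul, mul_assoc _ b]; exact mul_le_mul_of_nonneg_right (cl _) (by positivity))
    obtain ⟨ht, e⟩ := mem_filter.1 ht
    have a := ((Nat.floor_eq_iff (by positivity)).1 e).1
    rw [le_div_iff₀ hL] at a
    push_cast at a
    rw [mul_one_div, le_div_iff₀ (by positivity)]
    rcases le_total (g t) 0 with p | p
    · exact (mul_nonpos_of_nonpos_of_nonneg p (by positivity)).trans hb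
    · refine le_of_mul_le_mul_right ?_ hL
      rw [mul_assoc]
      exact (mul_le_mul_of_nonneg_left a p).trans (h t ht).2.2
  have b2 := (sum_le_sum b1).trans_eq (mul_sum _ _ _).symm
  have b3 : Real.log ⌊M⌋₊ ≤ Real.log M :=
    Real.log_le_log (by exact_mod_cast Nat.floor_pos.2 hM) (Nat.floor_le (by linarith))
  have b4 := mul_le_mul_of_nonneg_left ((tool_harm ⌊M⌋₊).trans (add_le_add_right b3 1))
    (show 0 ≤ 2 * ν * b by positivity)
  have := mul_nonneg (show 0 ≤ 2 * ν * b by positivity) (Real.log_nonneg hM)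
  nlinarith

theorem lv : LvSt := by
  intro F Y lo hi lam w e ν hl hw he hlw hF hY hν
  have c : ContinuousOn F (Set.Icc lo hi) :=
    (LipschitzOnWith.of_dist_le_mul (K := lam.toNNReal) fun x hx y hy => (hF x hx y hy).trans
      (mul_le_mul_of_nonneg_right (Real.le_coe_toNNReal _) (abs_nonneg _))).continuousOn
  have i1 : MeasureTheory.IntegrableOn (fun x => F x ^ 2) (Set.Ioc lo hi) :=
    ((c.pow 2).integrableOn_Icc).mono_set Set.Ioc_subset_Icc_self
  have i2 : ∀ y ∈ Y, MeasureTheory.IntegrableOn ((Set.Ioc y (y + w)).indicator fun _ => e ^ 2 / 4)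
      (Set.Ioc lo hi) := fun y _ =>
    (MeasureTheory.integrableOn_const (by simp)).indicator measurableSet_Ioc
  have e1 : ∀ y ∈ Y, ∫ x in Set.Ioc lo hi, (Set.Ioc y (y + w)).indicator (fun _ => e ^ 2 / 4) x =
      w * (e ^ 2 / 4) := fun y hy => by
    rw [MeasureTheory.setIntegral_indicator measurableSet_Ioc, Set.inter_eq_right.2
      (Set.Ioc_subset_Ioc (hY y hy).1 (hY y hy).2.1)]
    simp [hw]
  rw [intervalIntegral.integral_of_le hl, ← MeasureTheory.integral_const_mul]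
  calc _ = ∑ y ∈ Y, w * (e ^ 2 / 4) := by rw [sum_const, nsmul_eq_mul]; ring
    _ = _ := (sum_congr rfl e1).symm
    _ = _ := (MeasureTheory.integral_finsetSum _ i2).symm
    _ ≤ _ := MeasureTheory.setIntegral_mono_on (MeasureTheory.integrable_finsetSum _ i2)
        (i1.const_mul ν) measurableSet_Ioc fun x hx => ?_
  calc _ ≤ ∑ y ∈ Y, if x - w ≤ y ∧ y ≤ x - w + w then F x ^ 2 else 0 := sum_le_sum fun y hy => ?_
    _ = cnt Y (x - w) w * F x ^ 2 := by rw [← sum_filter, sum_const, nsmul_eq_mul, cnt]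
    _ ≤ _ := mul_le_mul_of_nonneg_right (hν _) (sq_nonneg _)
  by_cases m : x ∈ Set.Ioc y (y + w)
  · rw [Set.indicator_of_mem m, if_pos ⟨by linarith [m.2], by linarith [m.1]⟩]
    obtain ⟨y1, y2, y3⟩ := hY y hy
    have a := hF x ⟨hx.1.le, hx.2⟩ y ⟨y1, by linarith⟩
    rw [abs_of_pos (sub_pos.2 m.1)] at a
    have l0 : 0 ≤ lam := le_of_mul_le_mul_right (by simpa using (abs_nonneg _).trans a) (sub_pos.2 m.1)
    have := mul_le_mul_of_nonneg_left (show x - y ≤ w by linarith [m.2]) l0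
    have := (abs_le.1 a).1
    nlinarith
  · rw [Set.indicator_of_notMem m]
    split_ifs <;> positivity

lemma tool_log {x y T : ℝ} (hT : 0 < T) (hx : T ≤ x) (hy : T ≤ y) :
    |Real.log x - Real.log y| ≤ |x - y| / T := by
  wlog h : y ≤ x generalizing x y
  · rw [abs_sub_comm, abs_sub_comm x]; exact this hy hx (le_of_not_ge h)
  have y0 : 0 < y := by linarith
  rw [abs_of_nonneg (sub_nonneg.2 (Real.log_le_log y0 h)), abs_of_nonneg (sub_nonneg.2 h),
    ← Real.log_div (by linarith) y0.ne']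
  refine (Real.log_le_sub_one_of_pos (by have := y0.trans_le h; positivity)).trans ?_
  rw [div_sub_one y0.ne']
  gcongr

theorem lip : LipSt := by
  intro A α T L x y hT hα hL hA
  rcases A.eq_empty_or_nonempty with rfl | ⟨u, hu⟩
  · simp [SW]
  have n : ∀ s, ‖SW A α s‖ = ‖∑ t ∈ A, α t * ex (ph (t - s) - ph (u - s))‖ := fun s => by
    simp only [← ex_mul_conj, ← mul_assoc, ← sum_mul, norm_mul, norm_conj, norm_ex, mul_one]; rfl
  rw [n, n]
  refine (abs_norm_sub_norm_le _ _).trans ?_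
  rw [← sum_sub_distrib, mul_assoc, ← nsmul_eq_mul]
  refine (norm_sum_le _ _).trans (sum_le_card_nsmul _ _ _ fun t ht => ?_)
  rw [← mul_sub, norm_mul]
  refine (mul_le_of_le_one_left (norm_nonneg _) (hα t)).trans ((ex_sub _ _).trans ?_)
  have m : ∀ v ∈ A, ∀ s ∈ Set.uIcc y x, T ≤ v - s := fun v hv s hs => by
    have := hA v hv
    rcases Set.mem_uIcc.1 hs with c | c <;> linarith [c.2]
  have d : ∀ v ∈ A, ∀ s ∈ Set.uIcc y x,
      HasDerivAt (fun s => ph (v - s)) (-(Real.log (v - s) + 1)) s := fun v hv s hs => by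
    exact ((Real.hasDerivAt_mul_log (hT.trans_le (m v hv s hs)).ne').comp s
      ((hasDerivAt_id s).const_sub v)).congr_deriv (by simp)
  refine (convex_uIcc y x).norm_image_sub_le_of_norm_hasDerivWithin_le
    (f := fun s => ph (t - s) - ph (u - s))
    (fun s hs => ((d t ht s hs).sub (d u hu s hs)).hasDerivWithinAt) (fun s hs => ?_)
    Set.left_mem_uIcc Set.right_mem_uIcc
  rw [Real.norm_eq_abs, show -(Real.log (t - s) + 1) - -(Real.log (u - s) + 1) =
    Real.log (u - s) - Real.log (t - s) by ring]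
  refine (tool_log hT (m u hu s hs) (m t ht s hs)).trans ?_
  rw [sub_sub_sub_cancel_right]
  gcongr
  exact hL u hu t ht

lemma tool_nest {Q i j : ℕ} (h : i ≤ j) {t u : ℝ} (e : ⌊u / (Q : ℝ) ^ i⌋ = ⌊t / (Q : ℝ) ^ i⌋) :
    ⌊u / (Q : ℝ) ^ j⌋ = ⌊t / (Q : ℝ) ^ j⌋ := by
  obtain ⟨k, rfl⟩ := Nat.exists_eq_add_of_le h
  rw [pow_add, ← div_div, ← div_div, ← Nat.cast_pow Q k, Int.floor_div_natCast, Int.floor_div_natCast, e]

lemma tool_sub {f : Finset ℝ → ℝ} (h0 : f ∅ = 0) (h : ∀ A B, Disjoint A B → f (A ∪ B) ≤ f A + f B)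
    (A : Finset ℝ) (c : ℝ → ℕ) (m : ℕ) :
    f (A.filter fun t => c t < m) ≤ ∑ i ∈ range m, f (A.filter fun t => c t = i) := by
  induction m with
  | zero => simp [h0]
  | succ m ih =>
    rw [sum_range_succ, filter_congr fun t _ => Nat.lt_succ_iff_lt_or_eq, filter_or]
    exact (h _ _ (disjoint_filter.2 fun t _ a => a.ne)).trans (add_le_add_left ih _)

theorem uni : UniSt := by
  intro f W Q J _ h0 h
  induction J with
  | zero => exact ⟨W, Subset.rfl, by simp, fun j hj => absurd hj (by omega)⟩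
  | succ J ih =>
    obtain ⟨A, hA, h1, h2⟩ := ih
    set c : ℝ → ℕ := fun t => Nat.log 2 #(cell A ((Q : ℝ) ^ J) t)
    have a := tool_sub h0 h A c (Nat.log 2 #W + 1)
    rw [filter_true_of_mem fun t _ => Nat.lt_succ_of_le (Nat.log_mono_right
      (card_le_card ((cell_sub _ _ _).trans hA)))] at a
    obtain ⟨i, -, hi⟩ := exists_max_image (range (Nat.log 2 #W + 1))
      (fun i => f (A.filter fun t => c t = i)) ⟨0, by simp⟩
    have b := a.trans (sum_le_card_nsmul _ _ _ hi)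
    rw [card_range, nsmul_eq_mul] at b
    push_cast at b
    have k : ∀ j ≤ J, ∀ t ∈ A.filter fun t => c t = i,
        cell (A.filter fun t => c t = i) ((Q : ℝ) ^ j) t = cell A ((Q : ℝ) ^ j) t := fun j hj t ht => by
      ext u
      simp only [cell, mem_filter] at ht ⊢
      refine ⟨fun p => ⟨p.1.1, p.2⟩, fun p => ⟨⟨p.1, ?_⟩, p.2⟩⟩
      rw [← ht.2]
      exact congrArg (fun s => Nat.log 2 #s) (cell_eq (mem_filter.2 ⟨p.1, tool_nest hj p.2⟩))
    refine ⟨A.filter fun t => c t = i, (filter_subset _ _).trans hA, h1.trans ?_, fun j hj => ?_⟩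
    · rw [pow_succ, mul_assoc]; gcongr
    rcases (Nat.lt_succ_iff_lt_or_eq.1 hj) with l | rfl
    · obtain ⟨n, hn⟩ := h2 j l
      exact ⟨n, fun t ht => by rw [k j l.le t ht]; exact hn t (mem_filter.1 ht).1⟩
    · refine ⟨2 ^ i, fun t ht => ?_⟩
      rw [k j le_rfl t ht, ← (mem_filter.1 ht).2]
      have p := card_pos.2 ⟨t, mem_cell ((Q : ℝ) ^ j) (mem_filter.1 ht).1⟩
      constructor
      · exact (Nat.cast_pow 2 _).symm.trans_le (Nat.cast_le.2 (Nat.pow_log_le_self 2 p.ne'))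
      · rw [← pow_succ']
        exact (Nat.cast_le.2 (Nat.lt_pow_succ_log_self one_lt_two _).le).trans_eq (Nat.cast_pow 2 _)

end Pool.Agent.Lib.MP_a93a41_nt.TH
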