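import Pool.Agent.Lib.MP_a93a41_nt.Kakeya

set_option autoImplicit false

open Finset Real Filter

namespace Pool.Agent.Lib.MP_a93a41_nt

lemma tensor (P : Finset ℕ) (hP : ∀ p ∈ P, p.Prime ∧ p ≠ 2) (k D : ℕ) :
    ∃ x : ℕ → ℕ, (∀ d, x d < (∏ p ∈ P, p) ^ D) ∧ ∀ l < k,
      (((range ((∏ p ∈ P, p) ^ D)).image fun d => x d + l * d).card : ℝ)
        ≤ ((∏ p ∈ P, p) ^ D : ℕ) * (k * (2 / 3) ^ P.card) ^ D := by
  classical
  set Q := ∏ p ∈ P, p with hQ
  have hQ0 : 0 < Q := prod_pos fun p hp => (hP p hp).1.pos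
  induction D with
  | zero => exact ⟨fun _ => 0, by simp, by simp⟩
  | succ D ih =>
    obtain ⟨x, h1, h2⟩ := ih
    refine ⟨fun d => (d % Q) ^ 2 % Q + Q * x (d / Q), fun d => ?_, fun l hl => ?_⟩
    · have h3 := Nat.mod_lt ((d % Q) ^ 2) hQ0
      have h4 : Q * (x (d / Q) + 1) ≤ Q * Q ^ D := Nat.mul_le_mul_left _ (h1 _)
      rw [pow_succ']
      nlinarith
    · have h3 : ((range (Q ^ (D + 1))).image fun d => (d % Q) ^ 2 % Q + Q * x (d / Q) + l * d)
          ⊆ (((range (k * Q)).filter fun w => ∃ d, w ≡ d ^ 2 + l * d [MOD Q]) ×ˢ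
            (range (Q ^ D)).image fun d => x d + l * d).image fun q => q.1 + Q * q.2 := by
        intro w hw
        obtain ⟨d, hd, rfl⟩ := mem_image.1 hw
        refine mem_image.2 ⟨((d % Q) ^ 2 % Q + l * (d % Q), x (d / Q) + l * (d / Q)),
          mem_product.2 ⟨mem_filter.2 ⟨mem_range.2 ?_, d % Q, (Nat.mod_modEq _ _).add_right _⟩,
            mem_image.2 ⟨d / Q, mem_range.2 ?_, rfl⟩⟩, ?_⟩
        · have h4 := Nat.mod_lt ((d % Q) ^ 2) hQ0
          have h5 : l * (d % Q) ≤ l * Q := Nat.mul_le_mul_left _ (Nat.mod_lt d hQ0).le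
          have h6 : (l + 1) * Q ≤ k * Q := Nat.mul_le_mul_right _ hl
          simp only
          nlinarith
        · exact Nat.div_lt_of_lt_mul (by rw [← pow_succ']; exact mem_range.1 hd)
        · have := Nat.mod_add_div d Q
          simp only
          calc _ = (d % Q) ^ 2 % Q + Q * x (d / Q) + l * (d % Q + Q * (d / Q)) := by ring
            _ = _ := by rw [this]
      refine le_trans (Nat.cast_le.2 ((card_le_card h3).trans card_image_le)) ?_
      rw [card_product, Nat.cast_mul]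
      refine (mul_le_mul (card_quadratic P hP k l) (h2 l hl) (by positivity)
        (by positivity)).trans_eq ?_
      rw [← hQ]
      push_cast
      ring

lemma exists_primes (m : ℕ) (hm : 100 ≤ m) :
    ∃ P : Finset ℕ, (∀ p ∈ P, p.Prime ∧ p ≠ 2) ∧ P.card = m ∧ ∏ p ∈ P, p ≤ (m ^ 2) ^ m := by
  have h1 : m + 1 ≤ (Nat.primesLE (m ^ 2)).card := by
    rw [Nat.primesLE_card_eq_primeCounting]
    have h2 := Chebyshev.pi_ge (m ^ 2)
    have hm' : (100 : ℝ) ≤ m := by exact_mod_cast hm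
    have h3 : Real.log ((m ^ 2 : ℕ) : ℝ) ≤ 4 * √m := by
      push_cast
      rw [Real.log_pow]
      have := Real.log_le_sub_one_of_pos (show 0 < √(m : ℝ) by positivity)
      rw [Real.log_sqrt (by positivity)] at this
      push_cast
      linarith
    have h4 : 0 < Real.log ((m ^ 2 : ℕ) : ℝ) := Real.log_pos (by push_cast; nlinarith)
    have h5 : Real.log (((m ^ 2 : ℕ) : ℝ) + 1) ≤ 2 * m := by
      have h6 : Real.log (((m ^ 2 : ℕ) : ℝ) + 1) ≤ Real.log (((m : ℝ) + 1) ^ 2) :=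
        Real.log_le_log (by positivity) (by push_cast; nlinarith)
      have := Real.log_le_sub_one_of_pos (show 0 < (m : ℝ) + 1 by positivity)
      rw [Real.log_pow] at h6
      push_cast at h6 ⊢
      linarith
    have h6 : 10 * √(m : ℝ) ≤ m := by
      have h7 : (10 : ℝ) ≤ √m := Real.le_sqrt_of_sq_le (by linarith)
      nlinarith [Real.mul_self_sqrt (show (0 : ℝ) ≤ m by positivity)]
    have h7 : ((m + 1 : ℕ) : ℝ) ≤ Nat.primeCounting (m ^ 2) := by
      refine le_trans ?_ h2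
      rw [le_div_iff₀ h4]
      have := Real.log_two_gt_d9
      have h8 : ((m + 1 : ℕ) : ℝ) * Real.log ((m ^ 2 : ℕ) : ℝ) ≤ (m + 1 : ℕ) * (0.4 * m) := by
        gcongr
        linarith
      push_cast at h5 h8 ⊢
      nlinarith
    exact_mod_cast h7
  obtain ⟨P, h2, h3⟩ := exists_subset_card_eq (s := (Nat.primesLE (m ^ 2)).erase 2) (n := m)
    (by have := pred_card_le_card_erase (s := Nat.primesLE (m ^ 2)) (a := 2); omega)
  refine ⟨P, fun p hp => ⟨(Nat.mem_primesLE.1 (mem_of_mem_erase (h2 hp))).2,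
    ne_of_mem_erase (h2 hp)⟩, h3, ?_⟩
  rw [← h3, h3, ← h3]
  refine prod_le_pow_card _ _ _ fun p hp => ?_
  rw [h3]
  exact (Nat.mem_primesLE.1 (mem_of_mem_erase (h2 hp))).1

theorem mean_value_attained (T : ℝ) (N : ℕ) (hN0 : 0 < N) (hK : Real.exp 100 * N ≤ T)
    (hN : Real.exp (Real.log (T / N) * Real.log (Real.log (T / N)) / (1 / 15000)) ≤ N) :
    ∃ (V : ℝ) (a : ℕ → ℂ) (S : Finset ℝ), 0 < V ∧ (∀ n, ‖a n‖ ≤ 1) ∧
      (N : ℝ) * T ^ (1 / 15000 / Real.log (Real.log (T / N))) ≤ V ^ 2 ∧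
      (∀ t ∈ S, 0 ≤ t ∧ t ≤ T ∧
        V ≤ ‖∑ n ∈ Finset.Icc 1 N, a n * (n : ℂ) ^ (-((t : ℂ) * Complex.I))‖) ∧
      (∀ t ∈ S, ∀ u ∈ S, t ≠ u → 1 ≤ |t - u|) ∧
      1 / 15000 * T * N / (V ^ 2 * Real.log N) ≤ S.card := by
  have hN0' : (0 : ℝ) < N := by exact_mod_cast hN0
  set K := T / N with hKd
  have hT : T = K * N := by rw [hKd]; field_simp
  have hK1 : Real.exp 100 ≤ K := by rw [hKd, le_div_iff₀ hN0']; exact hK
  have hK2 : 101 ≤ K := le_trans (by have := Real.add_one_le_exp 100; linarith) hK1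
  set l := Real.log K with hl
  have hl1 : 100 ≤ l := by rw [hl, Real.le_log_iff_exp_le (by linarith)]; exact hK1
  set μ := Real.log l with hμ
  have hμ1 : 4 ≤ μ := by
    rw [hμ, Real.le_log_iff_exp_le (by linarith)]
    have h1 : Real.exp 4 = Real.exp 1 ^ 4 := by rw [← Real.exp_nat_mul]; norm_num
    have h2 : Real.exp 1 ^ 4 ≤ 3 ^ 4 := by
      gcongr
      have := Real.exp_one_lt_d9
      linarith
    linarith
  set ν := Real.log N with hν
  have hν1 : 15000 * (l * μ) ≤ ν := by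
    rw [hν, Real.le_log_iff_exp_le hN0']
    refine le_trans (le_of_eq ?_) hN
    congr 1
    ring
  have hlμ : 4 * l ≤ l * μ := by nlinarith
  set k := ⌊K / 7⌋₊ with hk
  have k1 : (k : ℝ) ≤ K / 7 := Nat.floor_le (by linarith)
  have k2 : K / 7 < k + 1 := Nat.lt_floor_add_one _
  have k3 : 1 ≤ k := by
    have : (1 : ℝ) ≤ k := by linarith
    exact_mod_cast this
  set m := ⌈8 * l⌉₊ with hm
  have m1 : 8 * l ≤ m := Nat.le_ceil _
  have m2 : (m : ℝ) ≤ 9 * l := by
    have := Nat.ceil_lt_add_one (show 0 ≤ 8 * l by linarith)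
    linarith
  have m3 : Real.log m ≤ 2 * μ := by
    have h1 : Real.log m ≤ Real.log (l ^ 2) := Real.log_le_log (by linarith) (by nlinarith)
    rw [Real.log_pow] at h1
    exact_mod_cast h1
  obtain ⟨P, hP, hc, hQ⟩ := exists_primes m (by
    have : (100 : ℝ) ≤ m := by linarith
    exact_mod_cast this)
  set D := ⌊ν / (100 * (l * μ))⌋₊ with hD
  have D0 : 150 ≤ ν / (100 * (l * μ)) := by
    rw [le_div_iff₀ (by linarith)]
    linarith
  have D1 : (D : ℝ) * (100 * (l * μ)) ≤ ν := by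
    rw [← le_div_iff₀ (by linarith)]
    exact Nat.floor_le (by linarith)
  have D2 : ν / (100 * (l * μ)) < D + 1 := Nat.lt_floor_add_one _
  have D3 : ν ≤ D * (200 * (l * μ)) := by
    have h1 : ν / (100 * (l * μ)) ≤ 2 * D := by linarith
    rw [div_le_iff₀ (by linarith)] at h1
    linarith
  have D4 : (149 : ℝ) ≤ D := by linarith
  obtain ⟨x, x1, x2⟩ := tensor P hP k D
  have hKe : K = Real.exp l := by rw [hl, Real.exp_log (by linarith)]
  have hNe : (N : ℝ) = Real.exp ν := by rw [hν, Real.exp_log hN0']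
  have hδ : ((k : ℝ) * (2 / 3) ^ P.card) ^ D ≤ Real.exp (-(2 * l * D)) := by
    have h1 : (2 / 3 : ℝ) ≤ Real.exp (-(3 / 8)) := by
      rw [Real.exp_neg, le_inv_comm₀ (by norm_num) (Real.exp_pos _)]
      have := Real.exp_bound' (x := 3 / 8) (by norm_num) (by norm_num) (n := 3) (by norm_num)
      norm_num [Finset.sum_range_succ, Nat.factorial] at this ⊢
      linarith
    have h2 : (2 / 3 : ℝ) ^ P.card ≤ Real.exp (-(3 * l)) := by
      refine (pow_le_pow_left₀ (by norm_num) h1 _).trans ?_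
      rw [← Real.exp_nat_mul, hc]
      exact Real.exp_le_exp.2 (by linarith)
    have h3 : (k : ℝ) * (2 / 3) ^ P.card ≤ Real.exp (-(2 * l)) := by
      calc _ ≤ Real.exp l * Real.exp (-(3 * l)) :=
            mul_le_mul (by rw [← hKe]; linarith) h2 (by positivity) (by positivity)
        _ = _ := by rw [← Real.exp_add]; congr 1; ring
    refine (pow_le_pow_left₀ (by positivity) h3 _).trans_eq ?_
    rw [← Real.exp_nat_mul]
    congr 1
    ring
  have hkl : (k : ℝ) ≤ Real.exp l := by rw [← hKe]; linarith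
  obtain ⟨a, a1, v, S, s1, s2, s3⟩ := core ((∏ p ∈ P, p) ^ D) k N _ x x1 x2 k3
    (by
      calc _ ≤ Real.exp l ^ 2 * Real.exp (-(2 * l * D)) := by gcongr
        _ ≤ 1 := by
          rw [← Real.exp_nat_mul, ← Real.exp_add, Real.exp_le_one_iff]
          push_cast
          nlinarith)
    (by
      have h1 : ((∏ p ∈ P, p : ℕ) : ℝ) ≤ Real.exp (36 * (l * μ)) := by
        refine le_trans (Nat.cast_le.2 hQ) ?_
        push_cast
        rw [← Real.exp_log (show (0 : ℝ) < m by linarith), ← Real.exp_nat_mul, ← Real.exp_nat_mul]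
        refine Real.exp_le_exp.2 ?_
        have : (m : ℝ) * Real.log m ≤ 9 * l * (2 * μ) :=
          mul_le_mul m2 m3 (Real.log_natCast_nonneg _) (by linarith)
        push_cast
        linarith
      have h2 : (26 : ℝ) ≤ Real.exp l := by rw [← hKe]; linarith
      have h3 : ((26 * k * ((∏ p ∈ P, p) ^ D) ^ 2 : ℕ) : ℝ) ≤ N := by
        rw [Nat.cast_mul, Nat.cast_mul, Nat.cast_pow, Nat.cast_pow]
        calc _ ≤ Real.exp l * Real.exp l * (Real.exp (36 * (l * μ)) ^ D) ^ 2 := by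
              gcongr
              exact_mod_cast h2
          _ ≤ N := by
            rw [← Real.exp_nat_mul, ← Real.exp_nat_mul, ← Real.exp_add, ← Real.exp_add, hNe]
            refine Real.exp_le_exp.2 ?_
            push_cast
            linarith
      exact_mod_cast h3)
  have hv : 0 < v := by
    by_contra h
    have h1 : 0 ≤ 6656 * (k : ℝ) * ((k : ℝ) * (2 / 3) ^ P.card) ^ D := by positivity
    nlinarith [mul_nonneg h1 (neg_nonneg.2 (not_lt.1 h))]
  have hT0 : 0 < T := by rw [hT]; positivity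
  refine ⟨√v, a, S.image fun t : ℕ => (t : ℝ), Real.sqrt_pos.2 hv, a1, ?_, ?_, ?_, ?_⟩
  · rw [Real.sq_sqrt hv.le]
    have h1 : T ^ (1 / 15000 / μ) ≤ Real.exp (l * D) := by
      rw [Real.rpow_def_of_pos hT0, hT, Real.log_mul (by linarith) hN0'.ne']
      refine Real.exp_le_exp.2 ?_
      rw [← hl, ← hν, ← mul_div_assoc, div_le_iff₀ (by linarith)]
      nlinarith
    have h2 : 6656 * (k : ℝ) * ((k : ℝ) * (2 / 3) ^ P.card) ^ D * Real.exp (l * D) ≤ 1 := by
      have h3 : (6656 : ℝ) ≤ Real.exp l ^ 2 := by rw [← hKe]; nlinarith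
      calc _ ≤ Real.exp l ^ 2 * Real.exp l * Real.exp (-(2 * l * D)) * Real.exp (l * D) := by
            gcongr
        _ ≤ 1 := by
          rw [← Real.exp_nat_mul, ← Real.exp_add, ← Real.exp_add, ← Real.exp_add,
            Real.exp_le_one_iff]
          push_cast
          nlinarith
    calc _ ≤ 6656 * k * ((k : ℝ) * (2 / 3) ^ P.card) ^ D * v * Real.exp (l * D) := by gcongr
      _ = 6656 * k * ((k : ℝ) * (2 / 3) ^ P.card) ^ D * Real.exp (l * D) * v := by ring
      _ ≤ 1 * v := by gcongr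
      _ = v := one_mul v
  · intro t' ht'
    obtain ⟨t, ht, rfl⟩ := mem_image.1 ht'
    refine ⟨Nat.cast_nonneg _, ?_, Real.sqrt_le_iff.2 ⟨norm_nonneg _, (s1 t ht).2⟩⟩
    have : (t : ℝ) ≤ 7 * k * N := by exact_mod_cast (s1 t ht).1
    rw [hT]
    nlinarith
  · intro t' ht u' hu htu
    obtain ⟨t, -, rfl⟩ := mem_image.1 ht
    obtain ⟨u, -, rfl⟩ := mem_image.1 hu
    have h1 : (t : ℤ) - u ≠ 0 := fun h => htu (by exact_mod_cast sub_eq_zero.1 h)
    exact_mod_cast Int.one_le_abs h1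
  · rw [card_image_of_injective _ Nat.cast_injective, Real.sq_sqrt hv.le,
      div_le_iff₀ (by have : 0 < ν := by linarith
                      positivity), hT]
    have h1 : Real.log (13 * N) ≤ 12 + ν := by
      rw [Real.log_mul (by norm_num) hN0'.ne']
      have := Real.log_le_sub_one_of_pos (show (0 : ℝ) < 13 by norm_num)
      linarith
    have h2 : 512 * (1 + Real.log (13 * N)) * (v * S.card) ≤ 512 * (2 * ν) * (v * S.card) :=
      mul_le_mul_of_nonneg_right (by linarith) (mul_nonneg hv.le (Nat.cast_nonneg _))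
    have h3 : K / 14 * (N : ℝ) ^ 2 ≤ k * (N : ℝ) ^ 2 := by
      gcongr
      linarith
    have h4 : 0 ≤ K * (N : ℝ) ^ 2 := by positivity
    nlinarith

end Pool.Agent.Lib.MP_a93a41_nt
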